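import Mathlib

/-!
# MP_ae5b4e_an, project MET: invariant curves around the unit circle

`QH q` is a ternary quadratic form, positive on the unit circle.  The involution of the tangent
line at the angle `θ` is `u ↦ -M / A - u` in the coordinate `u` of the point
`u (cos θ, sin θ, 1) + (-sin θ, cos θ, 0)`.  A closed curve `u = U θ` which is invariant under these
involutions lies on a conic of the pencil of the circle and of `QH q`: the form `QH q` is constant
along the curve.  The proof compares the curve with the conic of the pencil which touches it from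
inside; by Poncelet's theorem (invariant measure) the map of that conic is conjugate to a rotation.
-/

set_option autoImplicit false

noncomputable section

namespace Pool.Agent.MP_ae5b4e_an_MET

open Filter Topology Set Metric
open scoped Real

/-- the value of the ternary quadratic form with the coefficients `q` -/
def QH (q : Fin 6 → ℝ) (x y z : ℝ) : ℝ :=
  q 0 * x ^ 2 + q 1 * (x * y) + q 2 * y ^ 2 + q 3 * (x * z) + q 4 * (y * z) + q 5 * z ^ 2

namespace Circ

/-- the form at the points of the circle -/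
def fA (q : Fin 6 → ℝ) (θ : ℝ) : ℝ := QH q (Real.cos θ) (Real.sin θ) 1

/-- the polar form of the point and the tangent vector -/
def fM (q : Fin 6 → ℝ) (θ : ℝ) : ℝ :=
  2 * q 0 * (Real.cos θ * -Real.sin θ) + q 1 * (Real.cos θ ^ 2 - Real.sin θ ^ 2) +
    2 * q 2 * (Real.sin θ * Real.cos θ) - q 3 * Real.sin θ + q 4 * Real.cos θ

/-- the form at the tangent vector -/
def fB (q : Fin 6 → ℝ) (θ : ℝ) : ℝ := QH q (-Real.sin θ) (Real.cos θ) 0

/-- the form at the points of the tangent lines -/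
def fR (q : Fin 6 → ℝ) (θ u : ℝ) : ℝ :=
  QH q (u * Real.cos θ - Real.sin θ) (u * Real.sin θ + Real.cos θ) u

lemma fR_eq (q : Fin 6 → ℝ) (θ u : ℝ) :
    fR q θ u = fA q θ * u ^ 2 + fM q θ * u + fB q θ := by
  simp only [fR, fA, fM, fB, QH]
  ring

/-- derivative of `fM` -/
def fM' (q : Fin 6 → ℝ) (θ : ℝ) : ℝ :=
  2 * q 0 * (Real.sin θ ^ 2 - Real.cos θ ^ 2) - 4 * q 1 * (Real.sin θ * Real.cos θ) +
    2 * q 2 * (Real.cos θ ^ 2 - Real.sin θ ^ 2) - q 3 * Real.cos θ - q 4 * Real.sin θ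

/-- derivative of `fB` -/
def fB' (q : Fin 6 → ℝ) (θ : ℝ) : ℝ :=
  2 * q 0 * (Real.sin θ * Real.cos θ) - q 1 * (Real.cos θ ^ 2 - Real.sin θ ^ 2) -
    2 * q 2 * (Real.sin θ * Real.cos θ)

lemma hd_A (q : Fin 6 → ℝ) (θ : ℝ) : HasDerivAt (fA q) (fM q θ) θ := by
  have hc := Real.hasDerivAt_cos θ
  have hs := Real.hasDerivAt_sin θ
  unfold fA QH
  have h := ((((((hc.pow 2).const_mul (q 0)).add ((hc.mul hs).const_mul (q 1))).add
    ((hs.pow 2).const_mul (q 2))).add ((hc.mul_const 1).const_mul (q 3))).add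
    ((hs.mul_const 1).const_mul (q 4))).add (hasDerivAt_const θ (q 5 * 1 ^ 2))
  refine h.congr_deriv ?_
  simp only [fM]
  ring

lemma hd_M (q : Fin 6 → ℝ) (θ : ℝ) : HasDerivAt (fM q) (fM' q θ) θ := by
  have hc := Real.hasDerivAt_cos θ
  have hs := Real.hasDerivAt_sin θ
  unfold fM
  have h := (((((hc.mul hs.neg).const_mul (2 * q 0)).add
    (((hc.pow 2).sub (hs.pow 2)).const_mul (q 1))).add ((hs.mul hc).const_mul (2 * q 2))).sub
    (hs.const_mul (q 3))).add (hc.const_mul (q 4))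
  refine h.congr_deriv ?_
  simp only [fM', Pi.neg_apply]
  ring

lemma hd_B (q : Fin 6 → ℝ) (θ : ℝ) : HasDerivAt (fB q) (fB' q θ) θ := by
  have hc := Real.hasDerivAt_cos θ
  have hs := Real.hasDerivAt_sin θ
  unfold fB QH
  have h := ((((((hs.neg.pow 2).const_mul (q 0)).add ((hs.neg.mul hc).const_mul (q 1))).add
    ((hc.pow 2).const_mul (q 2))).add ((hs.neg.mul_const 0).const_mul (q 3))).add
    ((hc.mul_const 0).const_mul (q 4))).add (hasDerivAt_const θ (q 5 * 0 ^ 2))
  refine h.congr_deriv ?_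
  simp only [fB', Pi.neg_apply]
  ring

lemma per_A (q : Fin 6 → ℝ) (θ : ℝ) : fA q (θ + 2 * π) = fA q θ := by
  simp only [fA, Real.cos_add_two_pi, Real.sin_add_two_pi]

lemma per_M (q : Fin 6 → ℝ) (θ : ℝ) : fM q (θ + 2 * π) = fM q θ := by
  simp only [fM, Real.cos_add_two_pi, Real.sin_add_two_pi]

lemma per_B (q : Fin 6 → ℝ) (θ : ℝ) : fB q (θ + 2 * π) = fB q θ := by
  simp only [fB, Real.cos_add_two_pi, Real.sin_add_two_pi]

lemma per_R (q : Fin 6 → ℝ) (θ u : ℝ) : fR q (θ + 2 * π) u = fR q θ u := by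
  simp only [fR, Real.cos_add_two_pi, Real.sin_add_two_pi]

/-- the angle of the other tangent line through the point `u` of the tangent line at `θ` -/
def sh (θ u : ℝ) : ℝ := θ + (π - 2 * Real.arctan u)

lemma sh_per (θ u : ℝ) : sh (θ + 2 * π) u = sh θ u + 2 * π := by
  unfold sh
  ring

lemma sh_anti {u v : ℝ} (h : u ≤ v) (θ : ℝ) : sh θ v ≤ sh θ u := by
  unfold sh
  have := Real.arctan_strictMono.monotone h
  linarith

lemma sh_anti' {u v : ℝ} (h : u < v) (θ : ℝ) : sh θ v < sh θ u := by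
  unfold sh
  have := Real.arctan_strictMono h
  linarith

lemma cos_two_arctan (u : ℝ) : (1 + u ^ 2) * Real.cos (2 * Real.arctan u) = 1 - u ^ 2 := by
  have h : (1 + u ^ 2) ≠ 0 := by positivity
  rw [Real.cos_two_mul, Real.cos_sq_arctan]
  field_simp
  ring

lemma sin_two_arctan (u : ℝ) : (1 + u ^ 2) * Real.sin (2 * Real.arctan u) = 2 * u := by
  have h : (1 + u ^ 2) ≠ 0 := by positivity
  have hc : 0 < Real.cos (Real.arctan u) := Real.cos_arctan_pos u
  have h1 : Real.sin (Real.arctan u) = u * Real.cos (Real.arctan u) := by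
    rw [← Real.tan_mul_cos hc.ne', Real.tan_arctan]
  have h2 := Real.cos_sq_arctan u
  rw [Real.sin_two_mul, h1]
  have h3 : (1 + u ^ 2) * Real.cos (Real.arctan u) ^ 2 = 1 := by
    rw [h2]
    field_simp
  linear_combination 2 * u * h3

lemma cos_sh (θ u : ℝ) :
    (1 + u ^ 2) * Real.cos (sh θ u) = (u ^ 2 - 1) * Real.cos θ - 2 * u * Real.sin θ := by
  have h1 : sh θ u = (θ - 2 * Real.arctan u) + π := by
    unfold sh
    ring
  rw [h1, Real.cos_add_pi, Real.cos_sub]
  linear_combination (-Real.cos θ) * cos_two_arctan u - Real.sin θ * sin_two_arctan u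

lemma sin_sh (θ u : ℝ) :
    (1 + u ^ 2) * Real.sin (sh θ u) = (u ^ 2 - 1) * Real.sin θ + 2 * u * Real.cos θ := by
  have h1 : sh θ u = (θ - 2 * Real.arctan u) + π := by
    unfold sh
    ring
  rw [h1, Real.sin_add_pi, Real.sin_sub]
  linear_combination (-Real.sin θ) * cos_two_arctan u + Real.cos θ * sin_two_arctan u

lemma vec1 (θ u : ℝ) : -u * Real.cos (sh θ u) - Real.sin (sh θ u) =
    -(u * Real.cos θ - Real.sin θ) := by
  have h : (1 + u ^ 2) ≠ 0 := by positivity
  apply mul_left_cancel₀ h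
  linear_combination (-u) * cos_sh θ u - sin_sh θ u

lemma vec2 (θ u : ℝ) : -u * Real.sin (sh θ u) + Real.cos (sh θ u) =
    -(u * Real.sin θ + Real.cos θ) := by
  have h : (1 + u ^ 2) ≠ 0 := by positivity
  apply mul_left_cancel₀ h
  linear_combination (-u) * sin_sh θ u + cos_sh θ u

lemma R_sh (q : Fin 6 → ℝ) (θ u : ℝ) : fR q (sh θ u) (-u) = fR q θ u := by
  unfold fR
  rw [vec1, vec2]
  simp only [QH]
  ring

/-- the key identity of Poncelet's theorem -/
lemma key_id (q : Fin 6 → ℝ) (θ w : ℝ) :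
    -(2 * fA q (sh θ w) * (-w) + fM q (sh θ w)) * (1 + w ^ 2) =
      (1 + w ^ 2) * (2 * fA q θ * w + fM q θ) +
        2 * (fM q θ * w ^ 2 + fM' q θ * w + fB' q θ) := by
  have h : (1 + w ^ 2) ≠ 0 := by positivity
  have hc : Real.cos (sh θ w) =
      ((w ^ 2 - 1) * Real.cos θ - 2 * w * Real.sin θ) / (1 + w ^ 2) := by
    rw [eq_div_iff h]
    linear_combination cos_sh θ w
  have hs : Real.sin (sh θ w) =
      ((w ^ 2 - 1) * Real.sin θ + 2 * w * Real.cos θ) / (1 + w ^ 2) := by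
    rw [eq_div_iff h]
    linear_combination sin_sh θ w
  simp only [fA, fM, fM', fB', QH, hc, hs]
  field_simp
  ring

section Conic

variable {q : Fin 6 → ℝ} {r : ℝ}

/-- the discriminant on the tangent line -/
def fD (q : Fin 6 → ℝ) (r θ : ℝ) : ℝ := fM q θ ^ 2 - 4 * fA q θ * (fB q θ - r)

/-- the larger root -/
def fW (q : Fin 6 → ℝ) (r θ : ℝ) : ℝ := (-fM q θ + Real.sqrt (fD q r θ)) / (2 * fA q θ)

/-- the map of the conic `QH q = r` -/
def fP (q : Fin 6 → ℝ) (r θ : ℝ) : ℝ := sh θ (fW q r θ)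

/-- the invariant measure -/
def fh (q : Fin 6 → ℝ) (r θ : ℝ) : ℝ := ∫ s in (0:ℝ)..θ, (Real.sqrt (fD q r s))⁻¹

lemma D_eq (q : Fin 6 → ℝ) (r θ u : ℝ) :
    fD q r θ = (2 * fA q θ * u + fM q θ) ^ 2 + 4 * fA q θ * (r - fR q θ u) := by
  rw [fR_eq, fD]
  ring

lemma D_per (q : Fin 6 → ℝ) (r θ : ℝ) : fD q r (θ + 2 * π) = fD q r θ := by
  simp only [fD, per_A, per_B, per_M]

lemma W_per (q : Fin 6 → ℝ) (r θ : ℝ) : fW q r (θ + 2 * π) = fW q r θ := by
  simp only [fW, per_A, D_per, per_M]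

lemma P_per (q : Fin 6 → ℝ) (r θ : ℝ) : fP q r (θ + 2 * π) = fP q r θ + 2 * π := by
  simp only [fP, W_per, sh_per]

lemma W_root (hA : ∀ θ, 0 < fA q θ) (r θ : ℝ) :
    2 * fA q θ * fW q r θ + fM q θ = Real.sqrt (fD q r θ) := by
  have h := (hA θ).ne'
  rw [fW]
  field_simp
  ring

lemma W_lvl (hA : ∀ θ, 0 < fA q θ) (hD : ∀ θ, 0 < fD q r θ) (θ : ℝ) :
    fR q θ (fW q r θ) = r := by
  have h1 := D_eq q r θ (fW q r θ)
  rw [W_root hA, Real.sq_sqrt (hD θ).le] at h1
  have h2 : 4 * fA q θ * (r - fR q θ (fW q r θ)) = 0 := by linarith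
  rcases mul_eq_zero.1 h2 with h3 | h3
  · have := hA θ
    linarith
  · linarith

lemma cont_D (q : Fin 6 → ℝ) (r : ℝ) : Continuous (fD q r) := by
  have h1 : Continuous (fA q) := continuous_iff_continuousAt.2 fun θ => (hd_A q θ).continuousAt
  have h2 : Continuous (fM q) := continuous_iff_continuousAt.2 fun θ => (hd_M q θ).continuousAt
  have h3 : Continuous (fB q) := continuous_iff_continuousAt.2 fun θ => (hd_B q θ).continuousAt
  unfold fD
  fun_prop

lemma hd_W (hA : ∀ θ, 0 < fA q θ) (hD : ∀ θ, 0 < fD q r θ) (θ : ℝ) :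
    ∃ w, HasDerivAt (fW q r) w θ ∧ Real.sqrt (fD q r θ) * w =
      -(fM q θ * fW q r θ ^ 2 + fM' q θ * fW q r θ + fB' q θ) := by
  have h1 : HasDerivAt (fD q r) (2 * fM q θ ^ 1 * fM' q θ -
      (4 * fM q θ * (fB q θ - r) + 4 * fA q θ * fB' q θ)) θ := by
    have := ((hd_M q θ).pow 2).sub (((hd_A q θ).const_mul 4).mul ((hd_B q θ).sub_const r))
    exact this
  have h2 := h1.sqrt (hD θ).ne'
  obtain ⟨w, hw⟩ : ∃ w, HasDerivAt (fW q r) w θ := ⟨_, ((hd_M q θ).neg.add h2).div
    ((hd_A q θ).const_mul 2) (mul_pos two_pos (hA θ)).ne'⟩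
  refine ⟨w, hw, ?_⟩
  have h5 := (((hd_A q θ).mul (hw.pow 2)).add ((hd_M q θ).mul hw)).add (hd_B q θ)
  have h6 : fA q * fW q r ^ 2 + fM q * fW q r + fB q = fun _ => r := by
    funext x
    have h7 := W_lvl hA hD x
    rw [fR_eq] at h7
    exact h7
  rw [h6] at h5
  have h7 := h5.unique (hasDerivAt_const θ r)
  simp only [Pi.pow_apply, Nat.cast_ofNat] at h7
  rw [← W_root hA]
  linear_combination h7

lemma cont_W (hA : ∀ θ, 0 < fA q θ) (hD : ∀ θ, 0 < fD q r θ) : Continuous (fW q r) :=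
  continuous_iff_continuousAt.2 fun θ => by
    obtain ⟨w, hw, -⟩ := hd_W hA hD θ
    exact hw.continuousAt

/-- the derivative of the map of the conic -/
lemma hd_P (hA : ∀ θ, 0 < fA q θ) (hD : ∀ θ, 0 < fD q r θ) (θ : ℝ) :
    ∃ p, HasDerivAt (fP q r) p θ ∧ (Real.sqrt (fD q r θ) * p) ^ 2 = fD q r (fP q r θ) := by
  obtain ⟨w, hw, hw2⟩ := hd_W hA hD θ
  set W := fW q r θ with hW
  have h1 : HasDerivAt (fP q r) (1 + -(2 * (1 / (1 + W ^ 2) * w))) θ := by
    have := (hasDerivAt_id θ).add ((hw.arctan.const_mul 2).const_sub π)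
    exact this
  refine ⟨_, h1, ?_⟩
  have hne : (1 + W ^ 2) ≠ 0 := by positivity
  have h2 := key_id q θ W
  have h3 : 2 * fA q θ * W + fM q θ = Real.sqrt (fD q r θ) := W_root hA r θ
  have h4 : Real.sqrt (fD q r θ) * (1 + -(2 * (1 / (1 + W ^ 2) * w))) =
      -(2 * fA q (sh θ W) * (-W) + fM q (sh θ W)) := by
    apply mul_right_cancel₀ hne
    rw [h2, h3]
    field_simp
    linear_combination (-2) * hw2
  rw [h4, fP, ← hW, D_eq q r (sh θ W) (-W), R_sh, hW, W_lvl hA hD]
  ring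

lemma cont_P (hA : ∀ θ, 0 < fA q θ) (hD : ∀ θ, 0 < fD q r θ) : Continuous (fP q r) :=
  continuous_iff_continuousAt.2 fun θ => by
    obtain ⟨w, hw, -⟩ := hd_P hA hD θ
    exact hw.continuousAt

lemma P_mono (hA : ∀ θ, 0 < fA q θ) (hD : ∀ θ, 0 < fD q r θ) : StrictMono (fP q r) := by
  have hne : ∀ θ, deriv (fP q r) θ ≠ 0 := by
    intro θ h0
    obtain ⟨p, hp, hp2⟩ := hd_P hA hD θ
    rw [hp.deriv] at h0
    rw [h0, mul_zero] at hp2
    have := hD (fP q r θ)
    rw [← hp2] at this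
    norm_num at this
  have hinj : Function.Injective (fP q r) := by
    intro x y hxy
    by_contra hne'
    rcases lt_or_gt_of_ne hne' with h | h
    · obtain ⟨z, -, hz⟩ := exists_deriv_eq_zero h (cont_P hA hD).continuousOn hxy
      exact hne z hz
    · obtain ⟨z, -, hz⟩ := exists_deriv_eq_zero h (cont_P hA hD).continuousOn hxy.symm
      exact hne z hz
  rcases (cont_P hA hD).strictMono_of_inj hinj with h | h
  · exact h
  · exfalso
    have hπ := Real.two_pi_pos
    have h2 := h (show (0:ℝ) < 0 + 2 * π by linarith)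
    rw [P_per] at h2
    linarith

/-- Poncelet's theorem: the derivative of the map -/
lemma hd_P' (hA : ∀ θ, 0 < fA q θ) (hD : ∀ θ, 0 < fD q r θ) (θ : ℝ) :
    HasDerivAt (fP q r) (Real.sqrt (fD q r (fP q r θ)) / Real.sqrt (fD q r θ)) θ := by
  obtain ⟨p, hp, hp2⟩ := hd_P hA hD θ
  have h1 : 0 ≤ p := by
    rw [← hp.deriv]
    exact (P_mono hA hD).monotone.deriv_nonneg
  have h2 : Real.sqrt (fD q r θ) * p = Real.sqrt (fD q r (fP q r θ)) := by
    rw [← hp2, Real.sqrt_sq (mul_nonneg (Real.sqrt_nonneg _) h1)]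
  have h3 : Real.sqrt (fD q r θ) ≠ 0 := (Real.sqrt_pos.2 (hD θ)).ne'
  refine hp.congr_deriv ?_
  rw [eq_div_iff h3, ← h2, mul_comm]

lemma hd_h (hD : ∀ θ, 0 < fD q r θ) (θ : ℝ) :
    HasDerivAt (fh q r) (Real.sqrt (fD q r θ))⁻¹ θ := by
  have hc : Continuous fun s => (Real.sqrt (fD q r s))⁻¹ :=
    (Real.continuous_sqrt.comp (cont_D q r)).inv₀ fun s => (Real.sqrt_pos.2 (hD s)).ne'
  exact (hc.integral_hasStrictDerivAt 0 θ).hasDerivAt

lemma h_mono (hD : ∀ θ, 0 < fD q r θ) : StrictMono (fh q r) :=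
  strictMono_of_deriv_pos fun θ => by
    rw [(hd_h hD θ).deriv]
    exact inv_pos.2 (Real.sqrt_pos.2 (hD θ))

lemma h_per (hD : ∀ θ, 0 < fD q r θ) (θ : ℝ) :
    fh q r (θ + 2 * π) = fh q r θ + fh q r (2 * π) := by
  have h1 : ∀ x, HasDerivAt (fun θ => fh q r (θ + 2 * π) - fh q r θ) 0 x := by
    intro x
    have := ((hd_h hD (x + 2 * π)).comp_add_const x (2 * π)).sub (hd_h hD x)
    rw [D_per, sub_self] at this
    exact this
  have h2 := is_const_of_deriv_eq_zero (fun x => (h1 x).differentiableAt)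
    (fun x => (h1 x).deriv) θ 0
  have h3 : fh q r 0 = 0 := by simp [fh]
  simp only [zero_add, h3, sub_zero] at h2
  linarith

/-- Poncelet's theorem: the map is a rotation in the coordinate `fh` -/
lemma h_P (hA : ∀ θ, 0 < fA q θ) (hD : ∀ θ, 0 < fD q r θ) :
    ∃ τ, ∀ θ, fh q r (fP q r θ) = fh q r θ + τ := by
  have h1 : ∀ x, HasDerivAt (fun θ => fh q r (fP q r θ) - fh q r θ) 0 x := by
    intro x
    have h2 := ((hd_h hD (fP q r x)).comp x (hd_P' hA hD x)).sub (hd_h hD x)
    refine h2.congr_deriv ?_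
    have h3 : Real.sqrt (fD q r x) ≠ 0 := (Real.sqrt_pos.2 (hD x)).ne'
    have h4 : Real.sqrt (fD q r (fP q r x)) ≠ 0 := (Real.sqrt_pos.2 (hD _)).ne'
    field_simp
    ring
  refine ⟨fh q r (fP q r 0) - fh q r 0, fun θ => ?_⟩
  have h2 := is_const_of_deriv_eq_zero (fun x => (h1 x).differentiableAt)
    (fun x => (h1 x).deriv) θ 0
  linarith

end Conic

/-- a continuous periodic function has a maximum on a closed periodic set -/
lemma exists_max_on {f : ℝ → ℝ} (hc : Continuous f) (hp : ∀ t, f (t + 2 * π) = f t) {K : Set ℝ}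
    (hK : IsClosed K) (hKp : ∀ t, t + 2 * π ∈ K ↔ t ∈ K) (hne : K.Nonempty) :
    ∃ t₁ ∈ K, ∀ t ∈ K, f t ≤ f t₁ := by
  have hπ := Real.two_pi_pos
  have hred : ∀ t ∈ K, ∃ y ∈ K ∩ Icc 0 (2 * π), f t = f y := by
    intro t ht
    have hper : Function.Periodic (fun t => (f t, t ∈ K)) (2 * π) := fun t => by
      simp only [hp, hKp]
    obtain ⟨y, hy, hty⟩ := hper.exists_mem_Ico₀ hπ t
    simp only [Prod.mk.injEq] at hty
    exact ⟨y, ⟨by rw [← hty.2]; exact ht, Ico_subset_Icc_self hy⟩, hty.1⟩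
  have hcomp : IsCompact (K ∩ Icc 0 (2 * π)) := isCompact_Icc.inter_left hK
  obtain ⟨t₀, ht₀⟩ := hne
  obtain ⟨y₀, hy₀, -⟩ := hred t₀ ht₀
  obtain ⟨t₁, ht₁, hmax⟩ := hcomp.exists_isMaxOn ⟨y₀, hy₀⟩ hc.continuousOn
  refine ⟨t₁, ht₁.1, fun t ht => ?_⟩
  obtain ⟨y, hy, hty⟩ := hred t ht
  rw [hty]
  exact hmax hy

section Leaf

variable {q : Fin 6 → ℝ} {U : ℝ → ℝ}

/-- A curve which is invariant under the involutions lies on a conic of the pencil; this conic meets
every tangent line of the circle in two points. -/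
theorem const_leaf (hA : ∀ θ, 0 < fA q θ) (hU : Continuous U) (hper : ∀ θ, U (θ + 2 * π) = U θ)
    (hgt : ∀ θ, 0 < 2 * fA q θ * U θ + fM q θ)
    (hE : ∀ θ, fA q (sh θ (U θ)) * (U (sh θ (U θ)) - U θ) = -fM q (sh θ (U θ))) :
    ∃ r, (∀ θ, 0 < fD q r θ) ∧ ∀ θ, fR q θ (U θ) = r := by
  have hπ := Real.two_pi_pos
  set F : ℝ → ℝ := fun θ => sh θ (U θ) with hF
  have hFc : Continuous F := by
    simp only [hF, sh]
    fun_prop
  have hFp : ∀ θ, F (θ + 2 * π) = F θ + 2 * π := fun θ => by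
    simp only [hF, hper, sh_per]
  have hFinj : Function.Injective F := by
    intro x y hxy
    have h1 := hE x
    have h2 := hE y
    have h3 : sh x (U x) = sh y (U y) := hxy
    rw [h3] at h1
    have h4 : fA q (sh y (U y)) * (U y - U x) = 0 := by linear_combination h1 - h2
    have h5 : U y - U x = 0 := (mul_eq_zero.1 h4).resolve_left (hA _).ne'
    have h6 : U y = U x := by linarith
    rw [h6] at h3
    unfold sh at h3
    linarith
  have hFm : StrictMono F := by
    rcases hFc.strictMono_of_inj hFinj with h | h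
    · exact h
    · exfalso
      have h2 := h (show (0:ℝ) < 0 + 2 * π by linarith)
      rw [hFp] at h2
      linarith
  set f : ℝ → ℝ := fun θ => fR q θ (U θ) with hf
  have hfc : Continuous f := by
    have h1 : Continuous (fA q) := continuous_iff_continuousAt.2 fun θ => (hd_A q θ).continuousAt
    have h2 : Continuous (fM q) := continuous_iff_continuousAt.2 fun θ => (hd_M q θ).continuousAt
    have h3 : Continuous (fB q) := continuous_iff_continuousAt.2 fun θ => (hd_B q θ).continuousAt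
    simp only [hf, fR_eq]
    fun_prop
  have hfp : ∀ θ, f (θ + 2 * π) = f θ := fun θ => by
    simp only [hf, hper, per_R]
  have hfF : ∀ θ, f (F θ) = f θ := by
    intro θ
    have h1 : fR q (F θ) (U (F θ)) = fR q (F θ) (-U θ) := by
      rw [fR_eq, fR_eq]
      have h2 : fA q (F θ) * (U (F θ) - U θ) = -fM q (F θ) := hE θ
      linear_combination (U (F θ) + U θ) * h2
    simp only [hf]
    rw [h1]
    exact R_sh q θ (U θ)
  obtain ⟨θ₁, -, hmax⟩ := exists_max_on hfc hfp (K := univ) isClosed_univ (by simp) univ_nonempty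
  set r := f θ₁ with hr
  have hD : ∀ θ, 0 < fD q r θ := by
    intro θ
    rw [D_eq q r θ (U θ)]
    have h1 := hgt θ
    have h2 : 0 ≤ r - fR q θ (U θ) := sub_nonneg.2 (hmax θ (mem_univ θ))
    have h3 := hA θ
    positivity
  refine ⟨r, hD, ?_⟩
  have hroot : ∀ θ, 2 * fA q θ * fW q r θ + fM q θ = Real.sqrt (fD q r θ) := W_root hA r
  have hUW : ∀ θ, (2 * fA q θ * U θ + fM q θ) ^ 2 + 4 * fA q θ * (r - f θ) =
      (2 * fA q θ * fW q r θ + fM q θ) ^ 2 := by
    intro θ
    rw [hroot, Real.sq_sqrt (hD θ).le, D_eq q r θ (U θ)]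
  have hWpos : ∀ θ, 0 < 2 * fA q θ * fW q r θ + fM q θ := fun θ => by
    rw [hroot]
    exact Real.sqrt_pos.2 (hD θ)
  obtain ⟨τ, hτ⟩ := h_P hA hD
  by_contra hcon
  push Not at hcon
  obtain ⟨θ₂, hθ₂⟩ := hcon
  have hlt : f θ₂ < r := lt_of_le_of_ne (hmax θ₂ (mem_univ _)) hθ₂
  -- on the level set of `θ₂` the map `F` is faster
  set K : Set ℝ := {θ | f θ = f θ₂} with hK
  have hKc : IsClosed K := isClosed_eq hfc continuous_const
  have hKp : ∀ t, t + 2 * π ∈ K ↔ t ∈ K := fun t => by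
    simp only [hK, mem_ofPred_eq, hfp]
  have hg : Continuous fun θ => fh q r (fP q r θ) - fh q r (F θ) := by
    have h1 : Continuous (fh q r) := continuous_iff_continuousAt.2 fun θ =>
      (hd_h hD θ).continuousAt
    exact (h1.comp (cont_P hA hD)).sub (h1.comp hFc)
  obtain ⟨t₁, ht₁, ht₁max⟩ := exists_max_on hg (fun t => by
    rw [P_per, hFp, h_per hD, h_per hD]
    ring) hKc hKp ⟨θ₂, rfl⟩
  set δ : ℝ := fh q r (F t₁) - fh q r (fP q r t₁) with hδ
  have hδ0 : 0 < δ := by
    have h1 : U t₁ < fW q r t₁ := by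
      have h2 := hUW t₁
      have h3 : f t₁ = f θ₂ := ht₁
      have h4 : 0 < 4 * fA q t₁ * (r - f t₁) := by
        rw [h3]
        have := hA t₁
        have : 0 < r - f θ₂ := by linarith
        positivity
      have h5 : (2 * fA q t₁ * U t₁ + fM q t₁) ^ 2 < (2 * fA q t₁ * fW q r t₁ + fM q t₁) ^ 2 := by
        linarith
      have h6 := lt_of_pow_lt_pow_left₀ 2 (hWpos t₁).le h5
      have h7 : 0 < 2 * fA q t₁ * (fW q r t₁ - U t₁) := by linarith
      have h8 : 0 < 2 * fA q t₁ := by linarith [hA t₁]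
      have h9 := (mul_pos_iff_of_pos_left h8).1 h7
      linarith
    exact sub_pos.2 (h_mono hD (sh_anti' h1 t₁))
  have hstep : ∀ θ ∈ K, fh q r θ + (τ + δ) ≤ fh q r (F θ) := by
    intro θ hθ
    have h1 := ht₁max θ hθ
    have h2 := hτ θ
    linarith
  have hiter : ∀ n : ℕ, F^[n] θ₂ ∈ K ∧ fh q r θ₂ + n * (τ + δ) ≤ fh q r (F^[n] θ₂) := by
    intro n
    induction n with
    | zero => exact ⟨rfl, by simp⟩
    | succ n ih =>
      rw [Function.iterate_succ_apply']
      refine ⟨?_, ?_⟩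
      · have h1 : f (F^[n] θ₂) = f θ₂ := ih.1
        simp only [hK, mem_ofPred_eq, hfF, h1]
      · have h1 := hstep _ ih.1
        push_cast
        linarith [ih.2]
  have hiter₁ : ∀ n : ℕ, f (F^[n] θ₁) = r ∧ fh q r (F^[n] θ₁) = fh q r θ₁ + n * τ := by
    intro n
    induction n with
    | zero => exact ⟨rfl, by simp⟩
    | succ n ih =>
      rw [Function.iterate_succ_apply']
      refine ⟨by rw [hfF, ih.1], ?_⟩
      set x := F^[n] θ₁ with hx
      have h2 := hUW x
      rw [ih.1, sub_self, mul_zero, add_zero] at h2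
      have h3 := (pow_left_inj₀ (hgt x).le (hWpos x).le two_ne_zero).1 h2
      have h4 : 2 * fA q x * (U x - fW q r x) = 0 := by linarith
      have h5 : U x - fW q r x = 0 := (mul_eq_zero.1 h4).resolve_left (by linarith [hA x])
      have h6 : F x = fP q r x := by
        simp only [hF, fP]
        congr 1
        linarith
      rw [h6, hτ, ih.2]
      push_cast
      ring
  -- comparison
  obtain ⟨k, hk⟩ := exists_nat_ge ((θ₂ - θ₁) / (2 * π))
  rw [div_le_iff₀ hπ] at hk
  have hFk : ∀ θ, F (θ + k * (2 * π)) = F θ + k * (2 * π) := by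
    intro θ
    have : ∀ k : ℕ, F (θ + k * (2 * π)) = F θ + k * (2 * π) := by
      intro k
      induction k with
      | zero => simp
      | succ k ih =>
        have h1 : θ + ((k + 1 : ℕ) : ℝ) * (2 * π) = (θ + k * (2 * π)) + 2 * π := by
          push_cast
          ring
        rw [h1, hFp, ih]
        push_cast
        ring
    exact this k
  have hFn : ∀ n : ℕ, F^[n] (θ₁ + k * (2 * π)) = F^[n] θ₁ + k * (2 * π) := by
    intro n
    induction n with
    | zero => rfl
    | succ n ih => rw [Function.iterate_succ_apply', ih, hFk, ← Function.iterate_succ_apply' F]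
  have hhk : ∀ θ, fh q r (θ + k * (2 * π)) = fh q r θ + k * fh q r (2 * π) := by
    intro θ
    have : ∀ k : ℕ, fh q r (θ + k * (2 * π)) = fh q r θ + k * fh q r (2 * π) := by
      intro k
      induction k with
      | zero => simp
      | succ k ih =>
        have h1 : θ + ((k + 1 : ℕ) : ℝ) * (2 * π) = (θ + k * (2 * π)) + 2 * π := by
          push_cast
          ring
        rw [h1, h_per hD, ih]
        push_cast
        ring
    exact this k
  have hbound : ∀ n : ℕ, n * δ ≤ fh q r θ₁ - fh q r θ₂ + k * fh q r (2 * π) := by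
    intro n
    have h1 : F^[n] θ₂ ≤ F^[n] (θ₁ + k * (2 * π)) :=
      (hFm.monotone.iterate n) (by linarith)
    have h2 := (h_mono hD).monotone h1
    rw [hFn, hhk, (hiter₁ n).2] at h2
    have h3 := (hiter n).2
    linarith
  obtain ⟨n, hn⟩ := exists_nat_gt ((fh q r θ₁ - fh q r θ₂ + k * fh q r (2 * π)) / δ)
  rw [div_lt_iff₀ hδ0] at hn
  exact absurd (hbound n) (not_le.2 hn)

end Leaf

section SetEq

variable {q : Fin 6 → ℝ} {r : ℝ}

lemma exists_ang {c s : ℝ} (h : c ^ 2 + s ^ 2 = 1) : ∃ θ, Real.cos θ = c ∧ Real.sin θ = s := by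
  set z : ℂ := ⟨c, s⟩ with hz
  have hn : ‖z‖ = 1 := by
    rw [Complex.norm_eq_sqrt_sq_add_sq, hz]
    simp only
    rw [h, Real.sqrt_one]
  have hz0 : z ≠ 0 := by
    intro h0
    rw [h0, norm_zero] at hn
    exact zero_ne_one hn
  refine ⟨Complex.arg z, ?_, ?_⟩
  · rw [Complex.cos_arg hz0, hn, div_one]
  · rw [Complex.sin_arg, hn, div_one]

/-- the form is positive on the cone over the circle -/
lemma cone_pos (hA : ∀ θ, 0 < fA q θ) {x y z : ℝ} (hz : z ≠ 0) (h : x ^ 2 + y ^ 2 = z ^ 2) :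
    0 < QH q x y z := by
  obtain ⟨θ, h1, h2⟩ := exists_ang (c := x / z) (s := y / z) (by
    field_simp
    exact h)
  have h3 : QH q x y z = z ^ 2 * fA q θ := by
    rw [fA, h1, h2]
    simp only [QH]
    field_simp
  rw [h3]
  have := hA θ
  positivity

/-- the conic has no points inside the circle -/
lemma not_inside (hA : ∀ θ, 0 < fA q θ) (hD : ∀ θ, 0 < fD q r θ) {x y z : ℝ}
    (h : x ^ 2 + y ^ 2 < z ^ 2) : QH q x y z ≠ r * (x ^ 2 + y ^ 2 - z ^ 2) := by
  intro h0
  set a : ℝ := x ^ 2 + y ^ 2 - z ^ 2 with ha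
  have ha0 : a < 0 := by linarith
  -- a point of a tangent line inside the conic
  set u : ℝ := -fM q 0 / (2 * fA q 0) with hu
  have hN : fR q 0 u - r < 0 := by
    have h1 := D_eq q r 0 u
    have h2 : 2 * fA q 0 * u + fM q 0 = 0 := by
      have := (hA 0).ne'
      rw [hu]
      field_simp
      ring
    rw [h2] at h1
    have h3 := hD 0
    have h4 : 0 < 4 * fA q 0 * (r - fR q 0 u) := by linarith
    have h5 := (mul_pos_iff_of_pos_left (by linarith [hA 0] : (0:ℝ) < 4 * fA q 0)).1 h4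
    linarith
  have hR : fR q 0 u = QH q u 1 u := by
    simp [fR, Real.cos_zero, Real.sin_zero]
  rw [hR] at hN
  -- `w = (u, 1, u)`, `w + s v`
  set b : ℝ := 2 * (u * x + 1 * y - u * z) with hb
  have hdisc : 0 < b ^ 2 - 4 * a := by nlinarith [sq_nonneg b]
  set S : ℝ := Real.sqrt (b ^ 2 - 4 * a) with hS
  have hS2 : S ^ 2 = b ^ 2 - 4 * a := Real.sq_sqrt hdisc.le
  set P : ℝ := 2 * q 0 * (u * x) + q 1 * (u * y + 1 * x) + 2 * q 2 * (1 * y) +
    q 3 * (u * z + u * x) + q 4 * (1 * z + u * y) + 2 * q 5 * (u * z) - r * b with hP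
  have key : ∀ s : ℝ, a * s ^ 2 + b * s + 1 = 0 → 0 < (QH q u 1 u - r) + s * P := by
    intro s hs
    have h1 : (u + s * x) ^ 2 + (1 + s * y) ^ 2 = (u + s * z) ^ 2 := by
      rw [ha, hb] at hs
      linear_combination hs
    have hz : u + s * z ≠ 0 := by
      intro h2
      rw [h2] at h1
      have h3 : u + s * x = 0 := by nlinarith [sq_nonneg (u + s * x), sq_nonneg (1 + s * y)]
      have h4 : 1 + s * y = 0 := by nlinarith [sq_nonneg (u + s * x), sq_nonneg (1 + s * y)]
      have h5 : s ^ 2 * a = 1 := by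
        have e1 : s * x = -u := by linarith
        have e2 : s * y = -1 := by linarith
        have e3 : s * z = -u := by linarith
        rw [ha]
        linear_combination (s * x - u) * e1 + (s * y - 1) * e2 - (s * z - u) * e3
      nlinarith [sq_nonneg s]
    have h2 := cone_pos hA hz h1
    have h3 : QH q (u + s * x) (1 + s * y) (u + s * z) =
        (QH q u 1 u - r) + s * P := by
      have e1 : s * (r * b) = -r - r * (a * s ^ 2) := by linear_combination r * hs
      have e2 : s * P = s * (2 * q 0 * (u * x) + q 1 * (u * y + 1 * x) + 2 * q 2 * (1 * y) +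
          q 3 * (u * z + u * x) + q 4 * (1 * z + u * y) + 2 * q 5 * (u * z)) - s * (r * b) := by
        rw [hP]
        ring
      rw [e2, e1]
      have e3 : QH q x y z = r * a := h0
      simp only [QH] at e3 ⊢
      linear_combination s ^ 2 * e3
    rwa [h3] at h2
  have ha' : a ≠ 0 := ha0.ne
  have h1 := key ((-b + S) / (2 * a)) (by
    field_simp
    linear_combination hS2)
  have h2 := key ((-b - S) / (2 * a)) (by
    field_simp
    linear_combination hS2)
  have h3 : 0 < (-b + S) / (2 * a) * P := by linarith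
  have h4 : 0 < (-b - S) / (2 * a) * P := by linarith
  have h5 := mul_pos h3 h4
  have h6 : (-b + S) / (2 * a) * P * ((-b - S) / (2 * a) * P) = P ^ 2 / a := by
    field_simp
    linear_combination (-P ^ 2) * hS2
  rw [h6] at h5
  have h7 : P ^ 2 / a ≤ 0 := div_nonpos_of_nonneg_of_nonpos (sq_nonneg _) ha0.le
  linarith

/-- a point outside the circle lies on a tangent line -/
lemma exists_tangent {x y z : ℝ} (h : z ^ 2 < x ^ 2 + y ^ 2) :
    ∃ θ u l : ℝ, l ≠ 0 ∧ x = l * (u * Real.cos θ - Real.sin θ) ∧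
      y = l * (u * Real.sin θ + Real.cos θ) ∧ z = l * u := by
  set d : ℝ := x ^ 2 + y ^ 2 with hd
  have hd0 : 0 < d := lt_of_le_of_lt (sq_nonneg z) h
  set l : ℝ := Real.sqrt (d - z ^ 2) with hl
  have hl0 : 0 < l := Real.sqrt_pos.2 (by linarith)
  have hl2 : l ^ 2 = d - z ^ 2 := Real.sq_sqrt (by linarith)
  obtain ⟨θ, h1, h2⟩ := exists_ang (c := (z * x + l * y) / d) (s := (z * y - l * x) / d) (by
    field_simp
    linear_combination d * hl2 + (z ^ 2 + l ^ 2) * hd.symm)
  refine ⟨θ, z / l, l, hl0.ne', ?_, ?_, ?_⟩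
  · rw [h1, h2]
    field_simp
    linear_combination (-x) * hl2
  · rw [h1, h2]
    field_simp
    linear_combination (-y) * hl2
  · field_simp

/-- the map of the second tangent line is onto -/
lemma sh_surj {U : ℝ → ℝ} (hU : Continuous U) (T : ℝ) : ∃ θ, sh θ (U θ) = T := by
  have hFc : Continuous fun θ => sh θ (U θ) := by
    simp only [sh]
    fun_prop
  have h1 : ∀ θ, θ < sh θ (U θ) ∧ sh θ (U θ) < θ + 2 * π := by
    intro θ
    have h2 := Real.arctan_lt_pi_div_two (U θ)
    have h3 := Real.neg_pi_div_two_lt_arctan (U θ)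
    unfold sh
    constructor <;> linarith
  have hπ := Real.two_pi_pos
  obtain ⟨θ, -, hθ⟩ := intermediate_value_Icc (show T - 2 * π ≤ T by linarith)
    hFc.continuousOn (show T ∈ Icc (sh (T - 2 * π) (U (T - 2 * π))) (sh T (U T)) by
      have h2 := (h1 (T - 2 * π)).2
      have h3 := (h1 T).1
      exact ⟨by linarith, h3.le⟩)
  exact ⟨θ, hθ⟩

/-- the curve is the whole conic -/
theorem set_eq {U : ℝ → ℝ} (hA : ∀ θ, 0 < fA q θ) (hU : Continuous U)
    (hE : ∀ θ, fA q (sh θ (U θ)) * (U (sh θ (U θ)) - U θ) = -fM q (sh θ (U θ)))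
    (hD : ∀ θ, 0 < fD q r θ) (hr : ∀ θ, fR q θ (U θ) = r) {x y z : ℝ}
    (h0 : ¬(x = 0 ∧ y = 0 ∧ z = 0)) :
    QH q x y z = r * (x ^ 2 + y ^ 2 - z ^ 2) ↔ ∃ θ l : ℝ, l ≠ 0 ∧
      x = l * (U θ * Real.cos θ - Real.sin θ) ∧ y = l * (U θ * Real.sin θ + Real.cos θ) ∧
      z = l * U θ := by
  have hQ : ∀ θ u l : ℝ, QH q (l * (u * Real.cos θ - Real.sin θ))
      (l * (u * Real.sin θ + Real.cos θ)) (l * u) = l ^ 2 * fR q θ u := by
    intro θ u l
    simp only [QH, fR]
    ring
  have hC : ∀ θ u l : ℝ, (l * (u * Real.cos θ - Real.sin θ)) ^ 2 +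
      (l * (u * Real.sin θ + Real.cos θ)) ^ 2 - (l * u) ^ 2 = l ^ 2 := by
    intro θ u l
    linear_combination (l ^ 2 * u ^ 2 + l ^ 2) * Real.cos_sq_add_sin_sq θ
  constructor
  · intro h
    rcases lt_trichotomy (x ^ 2 + y ^ 2) (z ^ 2) with h1 | h1 | h1
    · exact absurd h (not_inside hA hD h1)
    · exfalso
      have hz : z ≠ 0 := by
        rintro rfl
        apply h0
        refine ⟨?_, ?_, rfl⟩ <;> nlinarith [sq_nonneg x, sq_nonneg y]
      have h2 := cone_pos hA hz h1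
      rw [h, h1, sub_self, mul_zero] at h2
      exact lt_irrefl _ h2
    · obtain ⟨θ, u, l, hl, rfl, rfl, rfl⟩ := exists_tangent h1
      rw [hQ, hC] at h
      have h2 : fR q θ u = r := by
        have h3 : l ^ 2 * (fR q θ u - r) = 0 := by linear_combination h
        have h4 := (mul_eq_zero.1 h3).resolve_left (pow_ne_zero 2 hl)
        linarith
      have h3 : (u - U θ) * (fA q θ * (u + U θ) + fM q θ) = 0 := by
        have h4 := hr θ
        rw [← h2, fR_eq, fR_eq] at h4
        linear_combination -h4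
      rcases mul_eq_zero.1 h3 with h4 | h4
      · have h5 : u = U θ := by linarith
        exact ⟨θ, l, hl, by rw [h5], by rw [h5], by rw [h5]⟩
      · obtain ⟨θ', hθ'⟩ := sh_surj hU θ
        have h5 := hE θ'
        rw [hθ'] at h5
        have h6 : fA q θ * (u + U θ') = 0 := by linear_combination h4 - h5
        have h7 : u = -U θ' := by
          have := (mul_eq_zero.1 h6).resolve_left (hA θ).ne'
          linarith
        have v1 := vec1 θ' (U θ')
        have v2 := vec2 θ' (U θ')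
        rw [hθ'] at v1 v2
        refine ⟨θ', -l, neg_ne_zero.2 hl, ?_, ?_, ?_⟩
        · rw [h7]
          linear_combination l * v1
        · rw [h7]
          linear_combination l * v2
        · rw [h7]
          ring
  · rintro ⟨θ, l, -, rfl, rfl, rfl⟩
    rw [hQ, hC, hr]
    ring

end SetEq

end Circ

end Pool.Agent.MP_ae5b4e_an_MET
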