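import Mathlib
import Pool.Agent.Lib.MP_ae5b4e_an_hopf.Plane
import Pool.Agent.Lib.MP_ae5b4e_an_SMG.Defs
import Pool.Agent.Lib.MP_ae5b4e_an_ALG.Leaves
import Pool.Agent.Lib.MP_ae5b4e_an_MET.LeafCirc

/-!
# MP_ae5b4e_an, project MET: invariant curves around an ellipse

`γ` is an ellipse, `QH q` a ternary quadratic form, positive on `γ`.  Every closed curve around `γ`
which is invariant under the involutions of the tangent lines of `γ` that preserve `QH q` is a
conic of the pencil of `γ` and `QH q = 0`.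
-/

set_option autoImplicit false

noncomputable section

namespace Pool.Agent.MP_ae5b4e_an_MET

open Filter Topology Set Metric
open scoped Real
open Pool.Agent.MP_ae5b4e_an_hopf (ConvexCurve)
open Pool.Agent.MP_ae5b4e_an_SMG (QR kR)
open Circ

lemma QR_eq (q : Fin 6 → ℝ) (x y : ℝ) : QR q x y = QH q x y 1 := by
  simp only [QR, QH]
  ring

/-- polar form of a point of the plane and a vector -/
def polQ (q : Fin 6 → ℝ) (x y x' y' : ℝ) : ℝ :=
  2 * q 0 * (x * x') + q 1 * (x * y' + y * x') + 2 * q 2 * (y * y') + q 3 * x' + q 4 * y'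

lemma hd_QR (q : Fin 6 → ℝ) (γ : ConvexCurve) (t : ℝ) :
    HasDerivAt (fun t => QR q (γ.x t) (γ.y t))
      (polQ q (γ.x t) (γ.y t) (deriv γ.x t) (deriv γ.y t)) t := by
  have hx := γ.hd_x t
  have hy := γ.hd_y t
  unfold QR
  have h := ((((((hx.pow 2).const_mul (q 0)).add ((hx.mul hy).const_mul (q 1))).add
    ((hy.pow 2).const_mul (q 2))).add (hx.const_mul (q 3))).add
    (hy.const_mul (q 4))).add (hasDerivAt_const t (q 5))
  refine h.congr_deriv ?_
  simp only [polQ]
  ring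

/-- the form of an ellipse, in homogeneous coordinates -/
def EC (x₀ y₀ a b c : ℝ) (x y z : ℝ) : ℝ :=
  a * (x - x₀ * z) ^ 2 + 2 * b * (x - x₀ * z) * (y - y₀ * z) + c * (y - y₀ * z) ^ 2 - z ^ 2

/-- the curve `u` around `γ` -/
def crv (γ : ConvexCurve) (u : ℝ → ℝ) : Set (Projectivization ℝ (Fin 3 → ℝ)) :=
  Set.range fun t => γ.pt t (u t)

open Pool.Agent.MP_ae5b4e_an_ALG.Leaves (exists_angle) in
/-- a closed convex curve with `u ^ 2 + v ^ 2 = 1`, `u = cos θ`, `v = sin θ` -/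
theorem angle_param (γ : ConvexCurve) {x₀ y₀ a b c : ℝ} (ha : 0 < a) (hb : b ^ 2 < a * c)
    (hγ : ∀ t, a * (γ.x t - x₀) ^ 2 + 2 * b * (γ.x t - x₀) * (γ.y t - y₀) +
      c * (γ.y t - y₀) ^ 2 = 1) :
    ∃ (p k m : ℝ) (θ ω τ : ℝ → ℝ), 0 < p ∧ 0 < m ∧ p ^ 2 = a ∧ p * k = b ∧ k ^ 2 + m ^ 2 = c ∧
      (∀ t, Real.cos (θ t) = p * (γ.x t - x₀) + k * (γ.y t - y₀)) ∧
      (∀ t, Real.sin (θ t) = m * (γ.y t - y₀)) ∧
      (∀ t, HasDerivAt θ (ω t) t) ∧ (∀ t, 0 < ω t) ∧ Continuous ω ∧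
      (∀ t, -(ω t * Real.sin (θ t)) = p * deriv γ.x t + k * deriv γ.y t) ∧
      (∀ t, ω t * Real.cos (θ t) = m * deriv γ.y t) ∧
      (∀ t, ω (t + γ.T) = ω t) ∧ (∀ t, θ (t + γ.T) = θ t + 2 * π) ∧
      Continuous τ ∧ (∀ ψ, θ (τ ψ) = ψ) ∧ (∀ t, τ (θ t) = t) ∧
      (∀ ψ, τ (ψ + 2 * π) = τ ψ + γ.T) := by
  set p : ℝ := Real.sqrt a with hp
  have hp0 : 0 < p := Real.sqrt_pos.2 ha
  have hp2 : p ^ 2 = a := Real.sq_sqrt ha.le
  set q : ℝ := b / p with hq
  have hpq : p * q = b := by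
    rw [hq]
    field_simp
  have hm1 : 0 < (a * c - b ^ 2) / a := div_pos (by linarith) ha
  set m : ℝ := Real.sqrt ((a * c - b ^ 2) / a) with hm
  have hm0 : 0 < m := Real.sqrt_pos.2 hm1
  have hm2 : m ^ 2 = (a * c - b ^ 2) / a := Real.sq_sqrt hm1.le
  have hqm : q ^ 2 + m ^ 2 = c := by
    rw [hm2, hq, div_pow, hp2]
    field_simp
    ring
  -- the coordinates
  have hform : ∀ X Y : ℝ, (p * X + q * Y) ^ 2 + (m * Y) ^ 2 =
      a * X ^ 2 + 2 * b * X * Y + c * Y ^ 2 := by
    intro X Y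
    linear_combination X ^ 2 * hp2 + 2 * X * Y * hpq + Y ^ 2 * hqm
  set u : ℝ → ℝ := fun t => p * (γ.x t - x₀) + q * (γ.y t - y₀) with hu
  set v : ℝ → ℝ := fun t => m * (γ.y t - y₀) with hv
  set u' : ℝ → ℝ := fun t => p * deriv γ.x t + q * deriv γ.y t with hu'
  set v' : ℝ → ℝ := fun t => m * deriv γ.y t with hv'
  have hdu : ∀ t, HasDerivAt u (u' t) t := fun t =>
    (((γ.hd_x t).sub_const x₀).const_mul p).add (((γ.hd_y t).sub_const y₀).const_mul q)
  have hdv : ∀ t, HasDerivAt v (v' t) t := fun t => ((γ.hd_y t).sub_const y₀).const_mul m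
  have hcx : Continuous (deriv γ.x) :=
    continuous_iff_continuousAt.2 fun t => (γ.hd_x' t).continuousAt
  have hcy : Continuous (deriv γ.y) :=
    continuous_iff_continuousAt.2 fun t => (γ.hd_y' t).continuousAt
  have hu'c : Continuous u' := by
    simp only [hu']
    fun_prop
  have hv'c : Continuous v' := by
    simp only [hv']
    fun_prop
  have h1 : ∀ t, u t ^ 2 + v t ^ 2 = 1 := by
    intro t
    rw [← hγ t, ← hform]
  obtain ⟨θ, hθ⟩ := exists_angle hdu hdv hu'c hv'c h1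
  set ω : ℝ → ℝ := fun t => u t * v' t - v t * u' t with hω
  have horth : ∀ t, u t * u' t + v t * v' t = 0 := by
    intro t
    have h2 : HasDerivAt (fun t => u t ^ 2 + v t ^ 2)
        (2 * u t ^ 1 * u' t + 2 * v t ^ 1 * v' t) t := ((hdu t).pow 2).add ((hdv t).pow 2)
    have h3 : (fun t => u t ^ 2 + v t ^ 2) = fun _ => 1 := funext h1
    rw [h3] at h2
    have h4 := h2.unique (hasDerivAt_const t (1:ℝ))
    linarith
  have eu' : ∀ t, u' t = -(ω t * v t) := by
    intro t
    simp only [hω]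
    linear_combination (-u' t) * h1 t + u t * horth t
  have ev' : ∀ t, v' t = ω t * u t := by
    intro t
    simp only [hω]
    linear_combination (-v' t) * h1 t + v t * horth t
  have hdθ : ∀ t, HasDerivAt θ (ω t) t := fun t => (hθ t).1
  have hcos : ∀ t, Real.cos (θ t) = u t := fun t => (hθ t).2.1
  have hsin : ∀ t, Real.sin (θ t) = v t := fun t => (hθ t).2.2
  have hθc : Continuous θ := continuous_iff_continuousAt.2 fun t => (hdθ t).continuousAt
  -- convexity
  have hconv : ∀ t r, t < r → r < t + γ.T → 0 < ω t * (1 - Real.cos (θ r - θ t)) := by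
    intro t r h2 h3
    have h4 := γ.convex t r h2 h3
    have h5 : ω t * (1 - Real.cos (θ r - θ t)) =
        p * m * (deriv γ.x t * (γ.y r - γ.y t) - deriv γ.y t * (γ.x r - γ.x t)) := by
      have h6 : p * m * (deriv γ.x t * (γ.y r - γ.y t) - deriv γ.y t * (γ.x r - γ.x t)) =
          u' t * (v r - v t) - v' t * (u r - u t) := by
        simp only [hu, hv, hu', hv']
        ring
      rw [h6, eu', ev', Real.cos_sub, hcos, hcos, hsin, hsin]
      linear_combination (-ω t) * h1 t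
    rw [h5]
    positivity
  have hωpos : ∀ t, 0 < ω t := by
    intro t
    have h2 := hconv t (t + γ.T / 2) (by linarith [γ.T_pos]) (by linarith [γ.T_pos])
    by_contra h3
    push Not at h3
    have h4 : 0 ≤ 1 - Real.cos (θ (t + γ.T / 2) - θ t) := by
      linarith [Real.cos_le_one (θ (t + γ.T / 2) - θ t)]
    have := mul_nonpos_of_nonpos_of_nonneg h3 h4
    linarith
  have hmono : StrictMono θ := strictMono_of_deriv_pos fun t => by
    rw [(hdθ t).deriv]
    exact hωpos t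
  have hup : ∀ t, u (t + γ.T) = u t := by
    intro t
    simp only [hu, γ.per_x, γ.per_y]
  have hvp : ∀ t, v (t + γ.T) = v t := by
    intro t
    simp only [hv, γ.per_y]
  have hθp : ∀ t, θ (t + γ.T) = θ t + 2 * π := by
    intro t
    have hT := γ.T_pos
    have hlt : θ t < θ (t + γ.T) := hmono (by linarith)
    have hcos1 : Real.cos (θ (t + γ.T) - θ t) = 1 := by
      rw [Real.cos_sub, hcos, hcos, hsin, hsin, hup, hvp]
      linarith [h1 t]
    obtain ⟨k, hk⟩ := (Real.cos_eq_one_iff _).1 hcos1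
    have hπ := Real.two_pi_pos
    have hk0 : 0 < k := by
      by_contra h2
      push Not at h2
      have h3 : (k : ℝ) ≤ 0 := by exact_mod_cast h2
      have h4 := mul_nonpos_of_nonpos_of_nonneg h3 hπ.le
      linarith
    have hk1 : k ≤ 1 := by
      by_contra h2
      push Not at h2
      have h3 : (2 : ℝ) ≤ k := by exact_mod_cast h2
      have h4 : 2 * (2 * π) ≤ k * (2 * π) := by gcongr
      have h5 : θ t + 2 * π ∈ Icc (θ t) (θ (t + γ.T)) := ⟨by linarith, by linarith⟩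
      obtain ⟨r, hr, hr2⟩ := intermediate_value_Icc (by linarith : t ≤ t + γ.T)
        hθc.continuousOn h5
      have h6 : t < r := by
        rcases eq_or_lt_of_le hr.1 with h7 | h7
        · rw [← h7] at hr2
          linarith
        · exact h7
      have h7 : r < t + γ.T := by
        rcases eq_or_lt_of_le hr.2 with h8 | h8
        · rw [h8] at hr2
          linarith
        · exact h8
      have h8 := hconv t r h6 h7
      rw [hr2, add_sub_cancel_left, Real.cos_two_pi, sub_self, mul_zero] at h8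
      exact lt_irrefl _ h8
    have hk2 : k = 1 := by omega
    rw [hk2] at hk
    push_cast at hk
    linarith
  have hsurj : Function.Surjective θ := by
    intro ψ
    have hπ := Real.two_pi_pos
    have hT := γ.T_pos
    have hn : ∀ n : ℕ, θ (n * γ.T) = θ 0 + n * (2 * π) := by
      intro n
      induction n with
      | zero => simp
      | succ n ih =>
        have h2 : ((n + 1 : ℕ) : ℝ) * γ.T = n * γ.T + γ.T := by
          push_cast
          ring
        rw [h2, hθp, ih]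
        push_cast
        ring
    have hn' : ∀ n : ℕ, θ (-(n * γ.T)) = θ 0 - n * (2 * π) := by
      intro n
      induction n with
      | zero => simp
      | succ n ih =>
        have h2 : -(n * γ.T) = -(((n + 1 : ℕ) : ℝ) * γ.T) + γ.T := by
          push_cast
          ring
        rw [h2, hθp] at ih
        push_cast at ih ⊢
        linarith
    obtain ⟨n, hn1⟩ := exists_nat_ge ((ψ - θ 0) / (2 * π))
    obtain ⟨n', hn2⟩ := exists_nat_ge ((θ 0 - ψ) / (2 * π))
    rw [div_le_iff₀ hπ] at hn1 hn2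
    have h2 : -(n' * γ.T) ≤ n * γ.T := by
      have h3 : (0:ℝ) ≤ n' * γ.T := by positivity
      have h4 : (0:ℝ) ≤ n * γ.T := by positivity
      linarith
    obtain ⟨r, _, hr2⟩ := intermediate_value_Icc h2 hθc.continuousOn
      (show ψ ∈ Icc (θ (-(n' * γ.T))) (θ (n * γ.T)) by
        rw [hn, hn']
        exact ⟨by linarith, by linarith⟩)
    exact ⟨r, hr2⟩
  set e := hmono.orderIsoOfSurjective θ hsurj with he
  have he1 : ∀ t, e t = θ t := fun t => rfl
  set τ : ℝ → ℝ := fun ψ => e.symm ψ with hτ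
  have hτc : Continuous τ := e.symm.continuous
  have hθτ : ∀ ψ, θ (τ ψ) = ψ := by
    intro ψ
    rw [← he1]
    exact e.apply_symm_apply ψ
  have hτθ : ∀ t, τ (θ t) = t := by
    intro t
    rw [← he1]
    exact e.symm_apply_apply t
  have hτp : ∀ ψ, τ (ψ + 2 * π) = τ ψ + γ.T := by
    intro ψ
    apply hmono.injective
    rw [hθτ, hθp, hθτ]
  have hωc : Continuous ω := by
    have huc : Continuous u := continuous_iff_continuousAt.2 fun t => (hdu t).continuousAt
    have hvc : Continuous v := continuous_iff_continuousAt.2 fun t => (hdv t).continuousAt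
    simp only [hω]
    fun_prop
  have hωp : ∀ t, ω (t + γ.T) = ω t := by
    intro t
    have h2 : HasDerivAt (fun t => θ (t + γ.T)) (ω (t + γ.T)) t :=
      (hdθ (t + γ.T)).comp_add_const t γ.T
    have h3 : HasDerivAt (fun t => θ t + 2 * π) (ω t) t := (hdθ t).add_const _
    have h4 : (fun t => θ (t + γ.T)) = fun t => θ t + 2 * π := funext hθp
    rw [h4] at h2
    exact h2.unique h3
  refine ⟨p, q, m, θ, ω, τ, hp0, hm0, hp2, hpq, hqm, hcos, hsin, hdθ, hωpos, hωc, fun t => ?_,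
    fun t => ?_, hωp, hθp, hτc, hθτ, hτθ, hτp⟩
  · rw [hsin, ← eu']
  · rw [hcos, ← ev']

/-- The tangent lines of the ellipse are not tangent to the curve, and the curve is a conic of the
pencil. -/
theorem leaf_pencil_aux (γ : ConvexCurve) {x₀ y₀ a b c : ℝ} (ha : 0 < a) (hb : b ^ 2 < a * c)
    (hγ : ∀ t, a * (γ.x t - x₀) ^ 2 + 2 * b * (γ.x t - x₀) * (γ.y t - y₀) +
      c * (γ.y t - y₀) ^ 2 = 1)
    {q : Fin 6 → ℝ} (hq : ∀ t, 0 < QR q (γ.x t) (γ.y t))
    {u : ℝ → ℝ} (hu : Continuous u) (hper : ∀ t, u (t + γ.T) = u t)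
    (hsimple : ∀ t t', γ.pt t (u t) = γ.pt t' (u t') → ∃ n : ℤ, t' = t + n * γ.T)
    (hproj : ∀ t v w, v ≠ w → γ.pt t v ∈ crv γ u → γ.pt t w ∈ crv γ u → v + w = kR q γ t) :
    (∀ t, kR q γ t ≠ 2 * u t) ∧ ((∀ t, kR q γ t < 2 * u t) →
    ∃ ρ : ℝ, ∀ (v : Fin 3 → ℝ) (hv : v ≠ 0),
      Projectivization.mk ℝ v hv ∈ crv γ u ↔
        QH q (v 0) (v 1) (v 2) = ρ * EC x₀ y₀ a b c (v 0) (v 1) (v 2)) := by
  obtain ⟨p, k, m, θ, ω, τ, hp0, hm0, hp2, hpk, hkm, hcos, hsin, hdθ, hωpos, hωc, hx', hy', hωp,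
    hθp, hτc, hθτ, hτθ, hτp⟩ := angle_param γ ha hb hγ
  have hp : p ≠ 0 := hp0.ne'
  have hm : m ≠ 0 := hm0.ne'
  -- the form in the new coordinates
  set Q : Fin 6 → ℝ := ![q 0 * (1 / p) ^ 2,
    2 * q 0 * (1 / p) * (-(k / (p * m))) + q 1 * (1 / p) * (1 / m),
    q 0 * (-(k / (p * m))) ^ 2 + q 1 * (-(k / (p * m))) * (1 / m) + q 2 * (1 / m) ^ 2,
    2 * q 0 * (1 / p) * x₀ + q 1 * (1 / p) * y₀ + q 3 * (1 / p),
    2 * q 0 * (-(k / (p * m))) * x₀ + q 1 * ((-(k / (p * m))) * y₀ + (1 / m) * x₀) +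
      2 * q 2 * (1 / m) * y₀ + q 3 * (-(k / (p * m))) + q 4 * (1 / m),
    q 0 * x₀ ^ 2 + q 1 * x₀ * y₀ + q 2 * y₀ ^ 2 + q 3 * x₀ + q 4 * y₀ + q 5] with hQ
  have hQH : ∀ x y z : ℝ, QH Q (p * (x - x₀ * z) + k * (y - y₀ * z)) (m * (y - y₀ * z)) z =
      QH q x y z := by
    intro x y z
    simp only [QH, hQ, Matrix.cons_val_zero, Matrix.cons_val_one, Matrix.cons_val]
    field_simp
    ring
  have hform : ∀ x y z : ℝ, (p * (x - x₀ * z) + k * (y - y₀ * z)) ^ 2 + (m * (y - y₀ * z)) ^ 2 -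
      z ^ 2 = EC x₀ y₀ a b c x y z := by
    intro x y z
    simp only [EC]
    linear_combination (x - x₀ * z) ^ 2 * hp2 + 2 * (x - x₀ * z) * (y - y₀ * z) * hpk +
      (y - y₀ * z) ^ 2 * hkm
  have hinj : ∀ (v w : Fin 3 → ℝ) (l : ℝ),
      p * (v 0 - x₀ * v 2) + k * (v 1 - y₀ * v 2) =
        l * (p * (w 0 - x₀ * w 2) + k * (w 1 - y₀ * w 2)) →
      m * (v 1 - y₀ * v 2) = l * (m * (w 1 - y₀ * w 2)) → v 2 = l * w 2 → v = l • w := by
    intro v w l h1 h2 h3
    have h4 : v 1 = l * w 1 := by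
      have h5 : m * (v 1 - y₀ * v 2 - l * (w 1 - y₀ * w 2)) = 0 := by linear_combination h2
      have h6 := (mul_eq_zero.1 h5).resolve_left hm
      linear_combination h6 + y₀ * h3
    have h5 : v 0 = l * w 0 := by
      have h6 : p * (v 0 - x₀ * v 2 - l * (w 0 - x₀ * w 2)) = 0 := by
        linear_combination h1 - k * h4 + k * y₀ * h3
      have h7 := (mul_eq_zero.1 h6).resolve_left hp
      linear_combination h7 + x₀ * h3
    funext i
    fin_cases i
    · exact h5
    · exact h4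
    · exact h3
  have hv1 : ∀ t v : ℝ, p * (γ.hvec t v 0 - x₀ * γ.hvec t v 2) +
      k * (γ.hvec t v 1 - y₀ * γ.hvec t v 2) =
        ω t * (v / ω t * Real.cos (θ t) - Real.sin (θ t)) := by
    intro t v
    have h1 : ω t ≠ 0 := (hωpos t).ne'
    have h2 : ω t * (v / ω t * Real.cos (θ t) - Real.sin (θ t)) =
        v * Real.cos (θ t) + -(ω t * Real.sin (θ t)) := by
      field_simp
      ring
    rw [h2, hx', hcos]
    simp only [ConvexCurve.hvec, Matrix.cons_val_zero, Matrix.cons_val_one, Matrix.cons_val]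
    ring
  have hv2 : ∀ t v : ℝ, m * (γ.hvec t v 1 - y₀ * γ.hvec t v 2) =
        ω t * (v / ω t * Real.sin (θ t) + Real.cos (θ t)) := by
    intro t v
    have h1 : ω t ≠ 0 := (hωpos t).ne'
    have h2 : ω t * (v / ω t * Real.sin (θ t) + Real.cos (θ t)) =
        v * Real.sin (θ t) + ω t * Real.cos (θ t) := by
      field_simp
    rw [h2, hy', hsin]
    simp only [ConvexCurve.hvec, Matrix.cons_val_one, Matrix.cons_val]
    ring
  have hv3 : ∀ t v : ℝ, γ.hvec t v 2 = ω t * (v / ω t) := by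
    intro t v
    have h1 : ω t ≠ 0 := (hωpos t).ne'
    simp only [ConvexCurve.hvec, Matrix.cons_val]
    field_simp
  -- the data on the circle
  have hAq : ∀ t, fA Q (θ t) = QR q (γ.x t) (γ.y t) := by
    intro t
    rw [QR_eq, ← hQH, fA, hcos, hsin]
    simp only [mul_one]
  have hA : ∀ ψ, 0 < fA Q ψ := by
    intro ψ
    rw [← hθτ ψ, hAq]
    exact hq _
  have hMq : ∀ t, fM Q (θ t) * ω t =
      polQ q (γ.x t) (γ.y t) (deriv γ.x t) (deriv γ.y t) := by
    intro t
    have h1 : HasDerivAt (fun t => fA Q (θ t)) (fM Q (θ t) * ω t) t :=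
      (hd_A Q (θ t)).comp t (hdθ t)
    have h2 : (fun t => fA Q (θ t)) = fun t => QR q (γ.x t) (γ.y t) := funext hAq
    rw [h2] at h1
    exact h1.unique (hd_QR q γ t)
  have hkR : ∀ t, fA Q (θ t) * kR q γ t = -(fM Q (θ t) * ω t) := by
    intro t
    rw [kR, (hd_QR q γ t).deriv, hAq, hMq]
    have := (hq t).ne'
    field_simp
  set U : ℝ → ℝ := fun ψ => u (τ ψ) / ω (τ ψ) with hU
  have hUθ : ∀ t, U (θ t) = u t / ω t := fun t => by simp only [hU, hτθ]
  have hUc : Continuous U :=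
    (hu.comp hτc).div (hωc.comp hτc) fun ψ => (hωpos _).ne'
  have hUp : ∀ ψ, U (ψ + 2 * π) = U ψ := fun ψ => by simp only [hU, hτp, hper, hωp]
  have hEne : ∀ ψ, fA Q (sh ψ (U ψ)) * (U (sh ψ (U ψ)) - U ψ) = -fM Q (sh ψ (U ψ)) ∧
      U (sh ψ (U ψ)) ≠ -U ψ := by
    intro ψ
    set T := sh ψ (U ψ) with hT
    set t := τ ψ with ht
    set t' := τ T with ht'
    have hω1 : ω t ≠ 0 := (hωpos t).ne'
    have hω2 : ω t' ≠ 0 := (hωpos t').ne'
    have hθt : θ t = ψ := hθτ ψ
    have hθt' : θ t' = T := hθτ T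
    have hUψ : U ψ = u t / ω t := rfl
    have hUT : U T = u t' / ω t' := rfl
    have e1 := vec1 ψ (U ψ)
    have e2 := vec2 ψ (U ψ)
    rw [← hT] at e1 e2
    have h1 : γ.hvec t' (-U ψ * ω t') = (-(ω t' / ω t)) • γ.hvec t (u t) := by
      refine hinj _ _ _ ?_ ?_ ?_
      · rw [hv1, hv1, hθt, hθt', mul_div_assoc, div_self hω2, mul_one, e1, ← hUψ]
        field_simp
      · rw [hv2, hv2, hθt, hθt', mul_div_assoc, div_self hω2, mul_one, e2, ← hUψ]
        field_simp
      · rw [hv3, hv3, mul_div_assoc, div_self hω2, mul_one, ← hUψ]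
        field_simp
    have h2 : γ.pt t (u t) = γ.pt t' (-U ψ * ω t') := by
      unfold ConvexCurve.pt
      rw [Projectivization.mk_eq_mk_iff']
      refine ⟨-(ω t / ω t'), ?_⟩
      rw [h1, smul_smul]
      have : -(ω t / ω t') * -(ω t' / ω t) = 1 := by field_simp
      rw [this, one_smul]
    have hne : -U ψ * ω t' ≠ u t' := by
      intro h3
      rw [h3] at h2
      obtain ⟨n, hn⟩ := hsimple _ _ h2
      have h4 : θ t' = θ t + n * (2 * π) := by
        have hn' : ∀ (n : ℕ) (s : ℝ), θ (s + n * γ.T) = θ s + n * (2 * π) := by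
          intro n s
          induction n with
          | zero => simp
          | succ n ih =>
            have h2 : s + ((n + 1 : ℕ) : ℝ) * γ.T = (s + n * γ.T) + γ.T := by
              push_cast
              ring
            rw [h2, hθp, ih]
            push_cast
            ring
        rcases Int.eq_nat_or_neg n with ⟨N, hN | hN⟩
        · rw [hn, hN]
          exact_mod_cast hn' N t
        · have h5 : t = t' + N * γ.T := by
            rw [hn, hN]
            push_cast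
            ring
          have h6 := hn' N t'
          rw [← h5] at h6
          rw [hN, h6]
          push_cast
          ring
      rw [hθt, hθt'] at h4
      have hπ := Real.two_pi_pos
      have h5 := Real.arctan_lt_pi_div_two (U ψ)
      have h6 := Real.neg_pi_div_two_lt_arctan (U ψ)
      have h7 : T = ψ + (π - 2 * Real.arctan (U ψ)) := rfl
      have h8 : (0:ℝ) < n * (2 * π) := by linarith
      have h9 : (n:ℝ) * (2 * π) < 1 * (2 * π) := by linarith
      have h10 : (0:ℝ) < n := (pos_iff_pos_of_mul_pos h8).2 hπ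
      have h11 : (n:ℝ) < 1 := lt_of_mul_lt_mul_right h9 hπ.le
      have h12 : (0:ℤ) < n := by exact_mod_cast h10
      have h13 : n < (1:ℤ) := by exact_mod_cast h11
      omega
    have h3 := hproj t' _ _ hne ⟨t, h2⟩ ⟨t', rfl⟩
    have h4 := hkR t'
    rw [← h3, hθt'] at h4
    have h5 : ω t' * (fA Q T * (U T - U ψ)) = ω t' * -fM Q T := by
      rw [hUT]
      field_simp
      linear_combination h4
    refine ⟨mul_left_cancel₀ hω2 h5, fun h6 => hne ?_⟩
    rw [← h6, hUT]
    field_simp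
  have hE : ∀ ψ, fA Q (sh ψ (U ψ)) * (U (sh ψ (U ψ)) - U ψ) = -fM Q (sh ψ (U ψ)) :=
    fun ψ => (hEne ψ).1
  refine ⟨fun t ht => ?_, fun hgt => ?_⟩
  · obtain ⟨ψ, hψ⟩ := sh_surj hUc (θ t)
    obtain ⟨h1, h2⟩ := hEne ψ
    rw [hψ] at h1 h2
    have h3 := hkR t
    have h4 : ω t ≠ 0 := (hωpos t).ne'
    rw [ht] at h3
    apply h2
    have h5 : ω t * (fA Q (θ t) * (U (θ t) + U ψ)) = 0 := by
      have h6 : ω t * U (θ t) = u t := by
        rw [hUθ]
        field_simp
      linear_combination (2 * fA Q (θ t)) * h6 - ω t * h1 + h3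
    have h6 := (mul_eq_zero.1 h5).resolve_left h4
    have h7 := (mul_eq_zero.1 h6).resolve_left (hA _).ne'
    linarith
  have hUgt : ∀ ψ, 0 < 2 * fA Q ψ * U ψ + fM Q ψ := by
    intro ψ
    have h1 := hgt (τ ψ)
    have h2 := hkR (τ ψ)
    have h3 := hωpos (τ ψ)
    rw [hθτ] at h2
    have h4 : fA Q ψ * kR q γ (τ ψ) < fA Q ψ * (2 * u (τ ψ)) := by
      have := hA ψ
      gcongr
    rw [h2] at h4
    have h5 : ω (τ ψ) * (2 * fA Q ψ * U ψ + fM Q ψ) =
        fA Q ψ * (2 * u (τ ψ)) + fM Q ψ * ω (τ ψ) := by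
      simp only [hU]
      field_simp
    have h6 : 0 < ω (τ ψ) * (2 * fA Q ψ * U ψ + fM Q ψ) := by
      rw [h5]
      linarith
    exact (mul_pos_iff_of_pos_left h3).1 h6
  obtain ⟨ρ, hD, hρ⟩ := const_leaf hA hUc hUp hUgt hE
  refine ⟨ρ, fun v hv => ?_⟩
  have h0 : ¬(p * (v 0 - x₀ * v 2) + k * (v 1 - y₀ * v 2) = 0 ∧ m * (v 1 - y₀ * v 2) = 0 ∧
      v 2 = 0) := by
    rintro ⟨h1, h2, h3⟩
    apply hv
    have := hinj v 0 0 (by rw [h1, zero_mul]) (by rw [h2, zero_mul]) (by rw [h3, zero_mul])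
    rw [this, smul_zero]
  rw [← hQH, ← hform, set_eq hA hUc hE hD hρ h0]
  constructor
  · rintro ⟨t, ht⟩
    have h1 : γ.pt t (u t) = Projectivization.mk ℝ v hv := ht
    unfold ConvexCurve.pt at h1
    rw [Projectivization.mk_eq_mk_iff'] at h1
    obtain ⟨e, he⟩ := h1
    have he0 : e ≠ 0 := by
      rintro rfl
      rw [zero_smul] at he
      exact γ.hvec_ne _ _ he.symm
    have e0 : e * v 0 = γ.hvec t (u t) 0 := congrFun he 0
    have e1 : e * v 1 = γ.hvec t (u t) 1 := congrFun he 1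
    have e2 : e * v 2 = γ.hvec t (u t) 2 := congrFun he 2
    refine ⟨θ t, ω t / e, div_ne_zero (hωpos t).ne' he0, ?_, ?_, ?_⟩
    · have h2 := hv1 t (u t)
      rw [← e0, ← e1, ← e2] at h2
      rw [hUθ]
      have h3 : ω t / e * (u t / ω t * Real.cos (θ t) - Real.sin (θ t)) =
          (ω t * (u t / ω t * Real.cos (θ t) - Real.sin (θ t))) / e := by ring
      rw [h3, ← h2]
      field_simp
    · have h2 := hv2 t (u t)
      rw [← e1, ← e2] at h2
      rw [hUθ]
      have h3 : ω t / e * (u t / ω t * Real.sin (θ t) + Real.cos (θ t)) =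
          (ω t * (u t / ω t * Real.sin (θ t) + Real.cos (θ t))) / e := by ring
      rw [h3, ← h2]
      field_simp
    · have h2 := hv3 t (u t)
      rw [← e2] at h2
      rw [hUθ]
      have h3 : ω t / e * (u t / ω t) = (ω t * (u t / ω t)) / e := by ring
      rw [h3, ← h2]
      field_simp
  · rintro ⟨ψ, l, hl, h1, h2, h3⟩
    set t := τ ψ with ht
    have hω1 : ω t ≠ 0 := (hωpos t).ne'
    have hθt : θ t = ψ := hθτ ψ
    have hUψ : U ψ = u t / ω t := rfl
    have h4 : v = (l / ω t) • γ.hvec t (u t) := by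
      refine hinj _ _ _ ?_ ?_ ?_
      · rw [hv1, hθt, ← hUψ, h1]
        field_simp
      · rw [hv2, hθt, ← hUψ, h2]
        field_simp
      · rw [hv3, ← hUψ, h3]
        field_simp
    refine ⟨t, ?_⟩
    change γ.pt t (u t) = _
    unfold ConvexCurve.pt
    rw [Projectivization.mk_eq_mk_iff']
    refine ⟨ω t / l, ?_⟩
    rw [h4, smul_smul]
    have : ω t / l * (l / ω t) = 1 := by field_simp
    rw [this, one_smul]

end Pool.Agent.MP_ae5b4e_an_MET
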