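import Mathlib
import Pool.Agent.Lib.MP_ae5b4e_an_MET.LeafPencil
import Pool.Agent.Lib.MP_ae5b4e_an_ALG.Ellipse

/-!
# MP_ae5b4e_an, project MET: the leaves around an ellipse are conics of one pencil
-/

set_option autoImplicit false

noncomputable section

namespace Pool.Agent.MP_ae5b4e_an_MET

open Filter Topology Set Metric
open scoped Real
open Pool.Agent.MP_ae5b4e_an_hopf (ConvexCurve)
open Pool.Agent.MP_ae5b4e_an_SMG (QR kR Fol)

/-- The conic of the real projective plane with the equation `Q = 0`. -/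
def conic (Q : QuadraticForm ℝ (Fin 3 → ℝ)) : Set (Projectivization ℝ (Fin 3 → ℝ)) :=
  {p | Q p.rep = 0}

lemma mem_conic (Q : QuadraticForm ℝ (Fin 3 → ℝ)) {v : Fin 3 → ℝ} (hv : v ≠ 0) :
    Projectivization.mk ℝ v hv ∈ conic Q ↔ Q v = 0 := by
  obtain ⟨a, ha⟩ := Projectivization.exists_smul_eq_mk_rep ℝ v hv
  have h1 : Q (Projectivization.mk ℝ v hv).rep = (a : ℝ) * (a : ℝ) * Q v := by
    rw [← ha, Units.smul_def, QuadraticMap.map_smul, smul_eq_mul]
  have h2 : (a : ℝ) ≠ 0 := a.ne_zero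
  change Q (Projectivization.mk ℝ v hv).rep = 0 ↔ _
  rw [h1]
  constructor
  · intro h
    exact (mul_eq_zero.1 h).resolve_left (mul_ne_zero h2 h2)
  · intro h
    rw [h, mul_zero]

/-- the quadratic form with given coefficients -/
def qform (q : Fin 6 → ℝ) : QuadraticForm ℝ (Fin 3 → ℝ) :=
  q 0 • QuadraticMap.proj 0 0 + q 1 • QuadraticMap.proj 0 1 + q 2 • QuadraticMap.proj 1 1 +
    q 3 • QuadraticMap.proj 0 2 + q 4 • QuadraticMap.proj 1 2 + q 5 • QuadraticMap.proj 2 2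

lemma qform_apply (q : Fin 6 → ℝ) (v : Fin 3 → ℝ) :
    qform q v = QH q (v 0) (v 1) (v 2) := by
  simp only [qform, QH, add_apply, smul_apply, QuadraticMap.proj_apply,
    smul_eq_mul]
  ring

/-- the coefficients of a quadratic form -/
def coef (Q : QuadraticForm ℝ (Fin 3 → ℝ)) : Fin 6 → ℝ :=
  ![Q ![1, 0, 0], QuadraticMap.polar Q ![1, 0, 0] ![0, 1, 0], Q ![0, 1, 0],
    QuadraticMap.polar Q ![1, 0, 0] ![0, 0, 1], QuadraticMap.polar Q ![0, 1, 0] ![0, 0, 1],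
    Q ![0, 0, 1]]

lemma coef_apply (Q : QuadraticForm ℝ (Fin 3 → ℝ)) (v : Fin 3 → ℝ) :
    Q v = QH (coef Q) (v 0) (v 1) (v 2) := by
  have h1 : v = v 0 • ![1, 0, 0] + (v 1 • ![0, 1, 0] + v 2 • ![0, 0, 1]) := by
    funext i
    fin_cases i <;> simp
  have h2 : Q v = v 0 * v 0 * Q ![1, 0, 0] + (v 1 * v 1 * Q ![0, 1, 0] +
      v 2 * v 2 * Q ![0, 0, 1] + v 1 * (v 2 * QuadraticMap.polar Q ![0, 1, 0] ![0, 0, 1])) +
      v 0 * (v 1 * QuadraticMap.polar Q ![1, 0, 0] ![0, 1, 0] +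
        v 2 * QuadraticMap.polar Q ![1, 0, 0] ![0, 0, 1]) := by
    conv_lhs => rw [h1]
    rw [QuadraticMap.map_add Q, QuadraticMap.map_add Q]
    simp only [QuadraticMap.map_smul, QuadraticMap.polar_smul_left, QuadraticMap.polar_add_right,
      QuadraticMap.polar_smul_right, smul_eq_mul]
    ring
  rw [h2]
  simp only [QH, coef, Matrix.cons_val_zero, Matrix.cons_val_one, Matrix.cons_val]
  ring

/-- the ellipse as a quadratic form -/
def EF (x₀ y₀ a b c : ℝ) : QuadraticForm ℝ (Fin 3 → ℝ) :=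
  qform ![a, 2 * b, c, -2 * (a * x₀ + b * y₀), -2 * (b * x₀ + c * y₀),
    a * x₀ ^ 2 + 2 * b * x₀ * y₀ + c * y₀ ^ 2 - 1]

lemma EF_apply (x₀ y₀ a b c : ℝ) (v : Fin 3 → ℝ) :
    EF x₀ y₀ a b c v = EC x₀ y₀ a b c (v 0) (v 1) (v 2) := by
  rw [EF, qform_apply]
  simp only [QH, EC, Matrix.cons_val_zero, Matrix.cons_val_one, Matrix.cons_val]
  ring

section

variable (γ : ConvexCurve) {x₀ y₀ a b c : ℝ} (ha : 0 < a) (hb : b ^ 2 < a * c)
    (hγ : ∀ t, a * (γ.x t - x₀) ^ 2 + 2 * b * (γ.x t - x₀) * (γ.y t - y₀) +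
      c * (γ.y t - y₀) ^ 2 = 1)

include hγ in
/-- the form of the ellipse is constant on the tangent lines -/
lemma EC_hvec (t v : ℝ) : EF x₀ y₀ a b c (γ.hvec t v) = EF x₀ y₀ a b c (γ.hvec t 0) := by
  have h1 : HasDerivAt (fun t => a * (γ.x t - x₀) ^ 2 + 2 * b * (γ.x t - x₀) * (γ.y t - y₀) +
      c * (γ.y t - y₀) ^ 2) (a * (2 * (γ.x t - x₀) ^ 1 * deriv γ.x t) +
      (2 * b * deriv γ.x t * (γ.y t - y₀) + 2 * b * (γ.x t - x₀) * deriv γ.y t) +
      c * (2 * (γ.y t - y₀) ^ 1 * deriv γ.y t)) t := by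
    have hx := (γ.hd_x t).sub_const x₀
    have hy := (γ.hd_y t).sub_const y₀
    exact (((hx.pow 2).const_mul a).add ((hx.const_mul (2 * b)).mul hy)).add
      ((hy.pow 2).const_mul c)
  rw [show (fun t => a * (γ.x t - x₀) ^ 2 + 2 * b * (γ.x t - x₀) * (γ.y t - y₀) +
      c * (γ.y t - y₀) ^ 2) = fun _ => 1 from funext hγ] at h1
  have h2 := h1.unique (hasDerivAt_const t 1)
  have h3 := hγ t
  rw [EF_apply, EF_apply]
  simp only [EC, ConvexCurve.hvec, Matrix.cons_val_zero, Matrix.cons_val_one, Matrix.cons_val]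
  linear_combination v ^ 2 * h3 + v * h2

include hγ in
lemma EF_Γ (t : ℝ) : EF x₀ y₀ a b c (γ.Γ t) = 0 := by
  rw [EF_apply]
  simp only [EC, ConvexCurve.Γ, Matrix.cons_val_zero, Matrix.cons_val_one, Matrix.cons_val]
  linear_combination hγ t

include ha hb in
lemma EF_nondeg : (EF x₀ y₀ a b c).Nondegenerate := by
  have : Invertible (2:ℝ) := invertibleOfNonzero two_ne_zero
  rw [QuadraticMap.nondegenerate_iff_radical_eq_bot, eq_bot_iff]
  intro m hm
  rw [QuadraticMap.mem_radical_iff'] at hm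
  obtain ⟨h1, h2⟩ := hm
  have h3 := h2 ![x₀, y₀, 1]
  rw [EF_apply] at h1
  rw [EF_apply, EF_apply] at h3
  simp only [EC, Pi.add_apply, Matrix.cons_val_zero, Matrix.cons_val_one, Matrix.cons_val] at h1 h3
  have h4 : m 2 = 0 := by linear_combination (1 / 2) * h1 - (1 / 2) * h3
  rw [h4] at h1
  have h5 : a * m 0 ^ 2 + 2 * b * m 0 * m 1 + c * m 1 ^ 2 = 0 := by linear_combination h1
  obtain ⟨h6, h7⟩ := Pool.Agent.MP_ae5b4e_an_ALG.AHaux.form_eq_zero ha hb h5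
  rw [Submodule.mem_bot]
  funext i
  fin_cases i
  · exact h6
  · exact h7
  · exact h4

include ha hb hγ in
lemma trace_eq (hon : ∀ x y : ℝ, a * (x - x₀) ^ 2 + 2 * b * (x - x₀) * (y - y₀) +
    c * (y - y₀) ^ 2 = 1 → ∃ t, γ.x t = x ∧ γ.y t = y) :
    γ.trace = conic (EF x₀ y₀ a b c) := by
  ext P
  induction P using Projectivization.ind with
  | h v hv =>
  rw [mem_conic]
  constructor
  · rintro ⟨t, ht⟩
    rw [Projectivization.mk_eq_mk_iff'] at ht
    obtain ⟨e, he⟩ := ht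
    have h1 : e * e * EF x₀ y₀ a b c v = 0 := by
      have h2 := EF_Γ γ hγ t
      have h3 : γ.Γ t = e • v := he.symm
      rw [h3, QuadraticMap.map_smul, smul_eq_mul] at h2
      exact h2
    have he0 : e ≠ 0 := by
      rintro rfl
      rw [zero_smul] at he
      exact γ.avec_ne t he.symm
    exact (mul_eq_zero.1 h1).resolve_left (mul_ne_zero he0 he0)
  · intro h
    rw [EF_apply, EC] at h
    have h2 : v 2 ≠ 0 := by
      intro h2
      rw [h2] at h
      have h5 : a * v 0 ^ 2 + 2 * b * v 0 * v 1 + c * v 1 ^ 2 = 0 := by linear_combination h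
      obtain ⟨h6, h7⟩ := Pool.Agent.MP_ae5b4e_an_ALG.AHaux.form_eq_zero ha hb h5
      apply hv
      funext i
      fin_cases i
      · exact h6
      · exact h7
      · exact h2
    obtain ⟨t, h3, h4⟩ := hon (v 0 / v 2) (v 1 / v 2) (by
      field_simp
      linear_combination h)
    refine ⟨t, ?_⟩
    rw [Projectivization.mk_eq_mk_iff']
    refine ⟨(v 2)⁻¹, ?_⟩
    funext i
    fin_cases i
    · simp only [Pi.smul_apply, smul_eq_mul, Fin.zero_eta, Matrix.cons_val_zero]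
      rw [h3, div_eq_inv_mul]
    · change (v 2)⁻¹ * v 1 = γ.y t
      rw [h4, div_eq_inv_mul]
    · simp only [Pi.smul_apply, smul_eq_mul, Fin.reduceFinMk, Matrix.cons_val]
      exact inv_mul_cancel₀ h2

end

/-- The leaves around an ellipse are conics of one pencil. -/
theorem leaves_conics (γ : ConvexCurve) {x₀ y₀ a b c : ℝ} (ha : 0 < a) (hb : b ^ 2 < a * c)
    (hγ : ∀ t, a * (γ.x t - x₀) ^ 2 + 2 * b * (γ.x t - x₀) * (γ.y t - y₀) +
      c * (γ.y t - y₀) ^ 2 = 1)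
    {Q : QuadraticForm ℝ (Fin 3 → ℝ)} (hQ : ∀ t, 0 < Q (γ.Γ t)) {U : ℝ → ℝ → ℝ}
    (hF : Fol γ U (kR (coef Q) γ)) {r : ℝ} (hr : r ∈ Ioo (0:ℝ) 1) :
    ∃ ρ : ℝ, (Q - ρ • EF x₀ y₀ a b c).Nondegenerate ∧
      γ.leaf U r = conic (Q - ρ • EF x₀ y₀ a b c) := by
  have hq : ∀ t, 0 < QR (coef Q) (γ.x t) (γ.y t) := by
    intro t
    have h1 := hQ t
    rw [coef_apply] at h1
    rw [QR_eq]
    exact h1
  have hUc : ∀ r ∈ Ioo (0:ℝ) 1, Continuous (U r) := by
    intro r hr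
    have h2 : ContinuousOn (fun t : ℝ => U r t) univ :=
      hF.cont.comp (f := fun t : ℝ => ((r, t) : ℝ × ℝ)) (by fun_prop)
        (fun t _ => ⟨hr, mem_univ _⟩)
    exact continuousOn_univ.1 h2
  have haux := fun (r : ℝ) (hr : r ∈ Ioo (0:ℝ) 1) => leaf_pencil_aux γ ha hb hγ hq (hUc r hr)
    (hF.per r hr) (hF.simple r hr) (hF.proj r hr)
  have hgt : ∀ t, kR (coef Q) γ t < 2 * U r t := by
    intro t
    by_contra hcon
    push Not at hcon
    have h1 : ∀ᶠ s in 𝓝[>] (0:ℝ), kR (coef Q) γ t / 2 < U s t ∧ s < r ∧ 0 < s := by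
      have e1 : ∀ᶠ s in 𝓝[>] (0:ℝ), s < r := nhdsWithin_le_nhds (Iio_mem_nhds hr.1)
      have e2 : ∀ᶠ s in 𝓝[>] (0:ℝ), 0 < s := self_mem_nhdsWithin
      exact ((hF.lim t).eventually_gt_atTop _).and (e1.and e2)
    obtain ⟨s, h2, h3, h4⟩ := h1.exists
    have hsr : Icc s r ⊆ Ioo (0:ℝ) 1 := fun x hx => ⟨by linarith [hx.1], by linarith [hx.2, hr.2]⟩
    have h5 : ContinuousOn (fun x => 2 * U x t) (Icc s r) := by
      refine continuousOn_const.mul (hF.cont.comp (f := fun x : ℝ => ((x, t) : ℝ × ℝ))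
        (by fun_prop) (fun x hx => ⟨hsr hx, mem_univ _⟩))
    obtain ⟨x, hx, hx2⟩ := intermediate_value_Icc' h3.le h5
      (show kR (coef Q) γ t ∈ Icc (2 * U r t) (2 * U s t) from ⟨hcon, by linarith⟩)
    exact (haux x (hsr hx)).1 t hx2.symm
  obtain ⟨ρ, hρ⟩ := (haux r hr).2 hgt
  have hset : γ.leaf U r = conic (Q - ρ • EF x₀ y₀ a b c) := by
    ext P
    induction P using Projectivization.ind with
    | h v hv =>
    rw [mem_conic]
    have h1 : Projectivization.mk ℝ v hv ∈ γ.leaf U r ↔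
        Projectivization.mk ℝ v hv ∈ crv γ (U r) := Iff.rfl
    rw [h1, hρ v hv, sub_apply, smul_apply, EF_apply, coef_apply Q v, smul_eq_mul, sub_eq_zero]
  refine ⟨ρ, ?_, hset⟩
  have : Invertible (2:ℝ) := invertibleOfNonzero two_ne_zero
  rw [QuadraticMap.nondegenerate_iff_radical_eq_bot, eq_bot_iff]
  intro m hm
  rw [QuadraticMap.mem_radical_iff'] at hm
  obtain ⟨h1, h2⟩ := hm
  rw [Submodule.mem_bot]
  by_contra hm0
  have h3 : Projectivization.mk ℝ m hm0 ∈ γ.leaf U r := by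
    rw [hset, mem_conic]
    exact h1
  obtain ⟨t, ht⟩ := h3
  unfold ConvexCurve.pt at ht
  rw [Projectivization.mk_eq_mk_iff'] at ht
  obtain ⟨e, he⟩ := ht
  set w := γ.hvec t (U r t) with hw
  have hwr : w ∈ (Q - ρ • EF x₀ y₀ a b c).radical := by
    rw [← he]
    exact Submodule.smul_mem _ _ (QuadraticMap.mem_radical_iff'.2 ⟨h1, h2⟩)
  obtain ⟨h3, h4⟩ := QuadraticMap.mem_radical_iff'.1 hwr
  set s := kR (coef Q) γ t - 2 * U r t with hs
  have hs0 : s ≠ 0 := by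
    have := hgt t
    rw [hs]
    linarith
  have h5 : w + s • γ.Γ t = γ.hvec t (U r t + s) := by
    rw [hw, γ.hvec_eq, γ.hvec_eq]
    module
  have h6 := h4 (s • γ.Γ t)
  rw [h5, QuadraticMap.map_smul, sub_apply, sub_apply, smul_apply, smul_apply, EF_Γ γ hγ,
    EC_hvec γ hγ] at h6
  rw [hw, sub_apply, smul_apply, EC_hvec γ hγ] at h3
  simp only [smul_eq_mul, mul_zero, sub_zero] at h3 h6
  have h7 : Q (γ.hvec t (U r t + s)) = Q (γ.hvec t (U r t)) := by
    have hk : QR (coef Q) (γ.x t) (γ.y t) * kR (coef Q) γ t =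
        -polQ (coef Q) (γ.x t) (γ.y t) (deriv γ.x t) (deriv γ.y t) := by
      rw [kR, (hd_QR (coef Q) γ t).deriv]
      have := (hq t).ne'
      field_simp
    have e0 : U r t + s = kR (coef Q) γ t - U r t := by
      rw [hs]
      ring
    rw [e0, coef_apply, coef_apply]
    simp only [QR, polQ] at hk
    simp only [QH, ConvexCurve.hvec, Matrix.cons_val_zero, Matrix.cons_val_one, Matrix.cons_val]
    linear_combination (kR (coef Q) γ t - 2 * U r t) * hk
  rw [h7] at h6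
  have h8 : s * s * Q (γ.Γ t) = 0 := by linarith
  rcases mul_eq_zero.1 h8 with h9 | h9
  · exact hs0 (mul_self_eq_zero.1 h9)
  · exact (hQ t).ne' h9

end Pool.Agent.MP_ae5b4e_an_MET
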