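import Mathlib
import Pool.Agent.Lib.MP_ae5b4e_an_FLEX.Defs
import Pool.Agent.Lib.MP_ae5b4e_an_ALG.DefsB

/-!
# MP_ae5b4e_an, project MET: definitions (the involutions of a quadratic form)
-/

noncomputable section

namespace Pool.Agent.MP_ae5b4e_an_MET

open Filter Topology
open Pool.Agent.MP_ae5b4e_an_ALG (MD)

/-- a complex quadratic form in homogeneous coordinates -/
def QC (q : Fin 6 → ℂ) (x y z : ℂ) : ℂ :=
  q 0 * x ^ 2 + q 1 * (x * y) + q 2 * y ^ 2 + q 3 * (x * z) + q 4 * (y * z) + q 5 * z ^ 2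

/-- the form on a curve -/
def qf (q : Fin 6 → ℂ) (X Y : ℂ → ℂ) (w : ℂ) : ℂ := QC q (X w) (Y w) 1

/-- the field of the involutions of the form -/
def kf (q : Fin 6 → ℂ) (X Y : ℂ → ℂ) (w : ℂ) : ℂ := -(deriv (qf q X Y) w / qf q X Y w)

/-- the invariant: the square of Monge's invariant times the cube of the form -/
def FQ (q : Fin 6 → ℂ) (X Y : ℂ → ℂ) (w : ℂ) : ℂ := MD X Y w ^ 2 * qf q X Y w ^ 3

/-- `d = (a + b) / 3 - a + c` -/
def dT (a b : ℕ) (c : ℝ) : ℝ := ((a : ℝ) + b) / 3 - a + c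

/-- The types `Z²`, `X²`, `X Z`, `Y Z` of the form: `c` is the residue and `s` the square of the
root of the form on the tangent line. -/
def TypeQ (a b : ℕ) (c s : ℝ) : Prop :=
  (c = a ∧ s = 0) ∨ (c = 0 ∧ s = 0) ∨ (c = a / 2 ∧ s = a ^ 2 / 4) ∨
    (c = a - b / 2 ∧ s = b ^ 2 / 4)

/-- the factor `(1 - s z ^ 2) ^ (-3 / 2)` -/
def wQ (s : ℝ) (z : ℂ) : ℂ := (1 - s * z ^ 2) ^ (-(3 / 2) : ℂ)

end Pool.Agent.MP_ae5b4e_an_MET
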