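import Mathlib
import Pool.Agent.Lib.MP_ae5b4e_an_MET.DefsT
import Pool.Agent.Lib.MP_ae5b4e_an_ALG.Trans

/-!
# MP_ae5b4e_an, project MET, part T: affine, projective and parameter changes (module TA, helper4)
-/

set_option autoImplicit false

noncomputable section

namespace Pool.Agent.MP_ae5b4e_an_MET

open Filter Topology Set Metric Complex Polynomial
open scoped Real
open Pool.Agent.MP_ae5b4e_an_ND (Dx Dy Reg)
open Pool.Agent.MP_ae5b4e_an_FLEX
open Pool.Agent.MP_ae5b4e_an_ALG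

theorem exists_sub (q : Fin 6 → ℂ) (a1 b1 c1 a2 b2 c2 a3 b3 c3 : ℂ) :
    ∃ q' : Fin 6 → ℂ, ∀ x y z, QC q' x y z =
      QC q (a1 * x + b1 * y + c1 * z) (a2 * x + b2 * y + c2 * z) (a3 * x + b3 * y + c3 * z) := by
  refine ⟨![
    q 0 * a1 ^ 2 + q 1 * (a1 * a2) + q 2 * a2 ^ 2 + q 3 * (a1 * a3) + q 4 * (a2 * a3) +
      q 5 * a3 ^ 2,
    q 0 * (2 * a1 * b1) + q 1 * (a1 * b2 + b1 * a2) + q 2 * (2 * a2 * b2) +
      q 3 * (a1 * b3 + b1 * a3) + q 4 * (a2 * b3 + b2 * a3) + q 5 * (2 * a3 * b3),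
    q 0 * b1 ^ 2 + q 1 * (b1 * b2) + q 2 * b2 ^ 2 + q 3 * (b1 * b3) + q 4 * (b2 * b3) +
      q 5 * b3 ^ 2,
    q 0 * (2 * a1 * c1) + q 1 * (a1 * c2 + c1 * a2) + q 2 * (2 * a2 * c2) +
      q 3 * (a1 * c3 + c1 * a3) + q 4 * (a2 * c3 + c2 * a3) + q 5 * (2 * a3 * c3),
    q 0 * (2 * b1 * c1) + q 1 * (b1 * c2 + c1 * b2) + q 2 * (2 * b2 * c2) +
      q 3 * (b1 * c3 + c1 * b3) + q 4 * (b2 * c3 + c2 * b3) + q 5 * (2 * b3 * c3),
    q 0 * c1 ^ 2 + q 1 * (c1 * c2) + q 2 * c2 ^ 2 + q 3 * (c1 * c3) + q 4 * (c2 * c3) +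
      q 5 * c3 ^ 2], ?_⟩
  intro x y z
  simp only [QC, Matrix.cons_val]
  ring

theorem kf_congr {q : Fin 6 → ℂ} {X Y X' Y' : ℂ → ℂ} {t : ℂ} (hX : X =ᶠ[𝓝 t] X')
    (hY : Y =ᶠ[𝓝 t] Y') : kf q X Y =ᶠ[𝓝 t] kf q X' Y' := by
  have h1 : qf q X Y =ᶠ[𝓝 t] qf q X' Y' := by
    filter_upwards [hX, hY] with s e1 e2
    simp only [qf, e1, e2]
  have h2 := h1.deriv
  filter_upwards [h1, h2] with s e1 e2
  simp only [kf, e1, e2]

/-- affine changes of the coordinates -/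
theorem good_aff {q : Fin 6 → ℂ} {X Y : ℂ → ℂ} {t : ℂ} (h : GoodG X Y (kf q X Y) t)
    {α β γ α' β' γ' : ℂ} (hd : α * β' - β * α' ≠ 0) {q' : Fin 6 → ℂ}
    (hq' : ∀ x y, QC q' (α * x + β * y + γ) (α' * x + β' * y + γ') 1 = QC q x y 1) :
    GoodG (fun s => α * X s + β * Y s + γ) (fun s => α' * X s + β' * Y s + γ')
      (kf q' (fun s => α * X s + β * Y s + γ) (fun s => α' * X s + β' * Y s + γ')) t := by
  have h1 := goodG_affine h (γ := γ) (γ' := γ') hd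
  have h2 : qf q' (fun s => α * X s + β * Y s + γ) (fun s => α' * X s + β' * Y s + γ') =
      qf q X Y := by
    funext s
    exact hq' (X s) (Y s)
  have h3 : kf q' (fun s => α * X s + β * Y s + γ) (fun s => α' * X s + β' * Y s + γ') =
      kf q X Y := by
    funext s
    simp only [kf, h2]
  rw [h3]
  exact h1

/-- the form on an analytic curve is analytic -/
lemma qf_analyticAt {q : Fin 6 → ℂ} {X Y : ℂ → ℂ} {t : ℂ} (hX : AnalyticAt ℂ X t)
    (hY : AnalyticAt ℂ Y t) : AnalyticAt ℂ (qf q X Y) t := by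
  unfold qf QC
  fun_prop

/-- changes of the parameter -/
theorem good_par {q : Fin 6 → ℂ} {X Y φ : ℂ → ℂ} {s : ℂ} (hφ : AnalyticAt ℂ φ s)
    (hφ' : deriv φ s ≠ 0) (h : GoodG X Y (kf q X Y) (φ s)) :
    GoodG (X ∘ φ) (Y ∘ φ) (kf q (X ∘ φ) (Y ∘ φ)) s := by
  have h1 := goodG_comp hφ hφ' h
  obtain ⟨⟨hXa, hYa, -, -⟩, -⟩ := h
  refine goodG_congr h1 (EventuallyEq.refl _ _) (EventuallyEq.refl _ _) ?_
  have h2 : qf q (X ∘ φ) (Y ∘ φ) = (qf q X Y) ∘ φ := rfl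
  have h3 := Trans.deriv_comp_ev hφ (qf_analyticAt (q := q) hXa hYa)
  filter_upwards [h3] with x e
  simp only [kf, h2, e, Function.comp_apply]
  ring

/-- the projective change -/
theorem good_pro {q : Fin 6 → ℂ} {X Y : ℂ → ℂ} {t : ℂ} (h : GoodG X Y (kf q X Y) t)
    (hX : X t ≠ 0) (hq : qf q X Y t ≠ 0) {q' : Fin 6 → ℂ}
    (hq' : ∀ x y z, QC q' x y z = QC q z y x) :
    GoodG (fun s => (X s)⁻¹) (fun s => Y s / X s)
      (kf q' (fun s => (X s)⁻¹) (fun s => Y s / X s)) t ∧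
      qf q' (fun s => (X s)⁻¹) (fun s => Y s / X s) t ≠ 0 := by
  have h1 := goodG_proj h hX
  obtain ⟨⟨hXa, hYa, -, -⟩, -⟩ := h
  have key : ∀ s, X s ≠ 0 →
      qf q' (fun s => (X s)⁻¹) (fun s => Y s / X s) s = qf q X Y s / X s ^ 2 := by
    intro s hs
    simp only [qf]
    rw [hq']
    simp only [QC]
    field_simp
  have hne := hXa.continuousAt.eventually_ne hX
  have hQa := qf_analyticAt (q := q) hXa hYa
  have hQne := hQa.continuousAt.eventually_ne hq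
  refine ⟨goodG_congr h1 (EventuallyEq.refl _ _) (EventuallyEq.refl _ _) ?_, ?_⟩
  · have h2 : qf q' (fun s => (X s)⁻¹) (fun s => Y s / X s) =ᶠ[𝓝 t]
        fun s => qf q X Y s / X s ^ 2 := by
      filter_upwards [hne] with s hs
      exact key s hs
    have h3 := h2.deriv
    filter_upwards [h2, h3, hne, hQne, hXa.eventually_analyticAt, hQa.eventually_analyticAt]
      with s e1 e2 n1 n2 a1 a2
    have d1 : HasDerivAt (fun s => X s ^ 2) (2 * X s * deriv X s) s := by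
      have := a1.differentiableAt.hasDerivAt.fun_pow 2
      simpa using this
    have d2 : HasDerivAt (fun s => qf q X Y s / X s ^ 2)
        ((deriv (qf q X Y) s * X s ^ 2 - qf q X Y s * (2 * X s * deriv X s)) / (X s ^ 2) ^ 2) s :=
      a2.differentiableAt.hasDerivAt.div d1 (pow_ne_zero 2 n1)
    have e3 := d2.deriv
    simp only [kf]
    rw [e2, e1, e3]
    field_simp
    ring
  · rw [key t hX]
    exact div_ne_zero hq (pow_ne_zero 2 hX)

end Pool.Agent.MP_ae5b4e_an_MET
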