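import Mathlib
import Pool.Agent.Lib.MP_ae5b4e_an_ALG.Defs

/-!
# MP_ae5b4e_an, project MET, part V (one variable): definitions
-/

noncomputable section

namespace Pool.Agent.MP_ae5b4e_an_MET

open Filter Topology
open Pool.Agent.MP_ae5b4e_an_ALG (UP Hf Gf)

/-! ### dynamics, `r < p` -/

/-- the quarter of the plane, `U = V + c` has positive real and imaginary part -/
def QV (c : ℝ) : Set ℂ := {V | -c < V.re ∧ 0 < V.im}

/-- The map of consecutive tangent lines in the coordinate `V`: `H (Th V) = H (-V - 2 c)`. -/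
def Th (p r c : ℝ) (V : ℂ) : ℂ := Gf p r (Hf p r (-V - 2 * c))

/-- The time function near infinity, the inverse function of the uniformization `t ↦ V t`. -/
structure SD (p r c D : ℝ) (S : ℂ → ℂ) (R : ℝ) : Prop where
  R_pos : 0 < R
  diff : ∀ v : ℂ, R < ‖v‖ → DifferentiableAt ℂ S v
  real : ∀ v : ℂ, R < ‖v‖ → S ((starRingEnd ℂ) v) = (starRingEnd ℂ) (S v)
  der : ∀ v : ℂ, R < ‖v‖ → ‖D * deriv S v - 1‖ < 1 / 2
  near : ∀ v ∈ QV c, R < ‖v‖ → ‖Th p r c v - v - D‖ < D / 4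
  step : ∀ v ∈ QV c, R < ‖v‖ → R < ‖Th p r c v‖ → S (Th p r c v) = S v + 1
  refl : ∀ v ∈ UP, R < ‖v‖ → (Hf p r v).im = 0 → (S v).re = 1 / 2
  lim : Tendsto (fun v => Th p r c v - v) (Bornology.cobounded ℂ ⊓ 𝓟 (QV c)) (𝓝 (D : ℂ))

/-- The time function on the quarter of the plane. -/
structure TF (p r c : ℝ) (S T : ℂ → ℂ) (R : ℝ) : Prop where
  diff : DifferentiableOn ℂ T (QV c)
  step : ∀ v ∈ QV c, T (Th p r c v) = T v + 1
  far : ∀ v ∈ QV c, R < ‖v‖ → T v = S v

/-- the plane without `(-∞, 0]` and `[r, ∞)` -/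
def Nn (r : ℝ) : Set ℂ := {V | V.im ≠ 0 ∨ (0 < V.re ∧ V.re < r)}

/-- the continuation of `Hf p r` from the upper half plane across `(0, r)` -/
def Hh (p r : ℝ) (V : ℂ) : ℂ :=
  p * (Complex.log (r / V - 1) + Real.pi * Complex.I) + r * Complex.log (1 + p / V)

/-- the inverse of `Hh p r` -/
def Gh (p r : ℝ) : ℂ → ℂ := Function.invFunOn (Hh p r) (Nn r)

/-- The continuation of `V ↦ Hf p r (-V - (p - r))` from the upper half plane across the segment
`(-(p - r), r)`. -/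
def Hc (p r : ℝ) (V : ℂ) : ℂ :=
  p * Complex.log (1 + r / (V + (p - r))) +
    r * (Complex.log (p / (V + (p - r)) - 1) + Real.pi * Complex.I)

/-- the map of consecutive tangent lines in the coordinate `H`, for `c = (p - r) / 2` -/
def H1 (p r : ℝ) (z : ℂ) : ℂ := Hc p r (Gh p r z)

end Pool.Agent.MP_ae5b4e_an_MET
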