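import Mathlib
import Pool.Agent.Lib.MP_ae5b4e_an_MET.Defs
import Pool.Agent.Lib.MP_ae5b4e_an_ALG.HfA
import Pool.Agent.Lib.MP_ae5b4e_an_ALG.HfInj

/-!
# MP_ae5b4e_an, project MET, module A1: the angle at the point `X`
-/

set_option autoImplicit false
noncomputable section
namespace Pool.Agent.MP_ae5b4e_an_MET
open Filter Topology Set Metric Complex
open scoped Real
open Pool.Agent.MP_ae5b4e_an_ALG

namespace Ang

variable {ι : Type*} {l : Filter ι} {p r : ℝ}

theorem im_eq {V : ℂ} (hV : V ∈ UP) :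
    (Hf p r V).im = p * (arg (V - r) - arg V) + r * (arg (V + p) - arg V) := by
  rw [VB.Hf_eq hV]
  simp only [add_im, im_ofReal_mul, sub_im, log_im]

/-- limits of the argument from the upper half plane at a negative number -/
theorem arg_neg_lim {W : ι → ℂ} {s : ℝ} (hs : 0 < s) (hW : ∀ᶠ i in l, W i ∈ UP)
    (h : Tendsto W l (𝓝 (-(s : ℂ)))) : Tendsto (fun i => arg (W i)) l (𝓝 π) := by
  have h1 : Tendsto W l (𝓝[{z : ℂ | 0 ≤ z.im}] (-(s : ℂ))) := by
    refine tendsto_nhdsWithin_iff.2 ⟨h, ?_⟩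
    filter_upwards [hW] with i hi
    have h2 : 0 < (W i).im := hi
    exact h2.le
  exact (tendsto_arg_nhdsWithin_im_nonneg_of_re_neg_of_im_zero (by simpa using hs)
    (by simp)).comp h1

/-- limits of the argument at a positive number -/
theorem arg_pos_lim {W : ι → ℂ} {s : ℝ} (hs : 0 < s) (h : Tendsto W l (𝓝 (s : ℂ))) :
    Tendsto (fun i => arg (W i)) l (𝓝 0) := by
  have h1 : ContinuousAt arg (s : ℂ) := continuousAt_arg (Or.inl (by simpa using hs))
  have h2 := h1.tendsto.comp h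
  rwa [arg_ofReal_of_nonneg hs.le] at h2

theorem shift_mem {V : ℂ} (hV : V ∈ UP) (s : ℝ) : V - s ∈ UP ∧ V + s ∈ UP := by
  have h1 : 0 < V.im := hV
  constructor
  · change 0 < (V - s).im
    simpa using h1
  · change 0 < (V + s).im
    simpa using h1

/-- the argument of `z` if `z / δ → κ > 0` and `δ` is imaginary -/
theorem arg_half {z δ : ι → ℂ} {κ : ℝ} (hκ : 0 < κ) (hz : ∀ᶠ i in l, z i ∈ UP)
    (hδ : ∀ᶠ i in l, (δ i).re = 0) (hlim : Tendsto (fun i => z i / δ i) l (𝓝 (κ : ℂ))) :
    Tendsto (fun i => arg (z i)) l (𝓝 (π / 2)) := by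
  have h1 : Tendsto (fun i => arg (I * (z i / δ i))) l (𝓝 (arg (I * (κ : ℂ)))) := by
    have h2 : ContinuousAt arg (I * (κ : ℂ)) := continuousAt_arg (Or.inr (by simpa using hκ.ne'))
    exact h2.tendsto.comp (hlim.const_mul I)
  have h3 : arg (I * (κ : ℂ)) = π / 2 := by
    rw [mul_comm, arg_real_mul _ hκ, arg_I]
  rw [h3] at h1
  refine h1.congr' ?_
  have h4 : ∀ᶠ i in l, 0 < (z i / δ i).re := by
    have h5 : Tendsto (fun i => (z i / δ i).re) l (𝓝 κ) := by
      have h5' := (continuous_re.tendsto (κ : ℂ)).comp hlim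
      rw [ofReal_re] at h5'
      exact h5'
    exact h5.eventually (lt_mem_nhds hκ)
  filter_upwards [hz, hδ, h4] with i h6 h7 h8
  have h9 : δ i ≠ 0 := by
    intro h0
    rw [h0, div_zero, zero_re] at h8
    exact lt_irrefl _ h8
  have h10 : δ i = ((δ i).im : ℂ) * I := by
    apply Complex.ext
    · simp [h7]
    · simp
  have h11 : z i = ((δ i).im : ℂ) * (I * (z i / δ i)) := by
    have e1 : z i = δ i * (z i / δ i) := by field_simp
    calc z i = δ i * (z i / δ i) := e1
      _ = ((δ i).im : ℂ) * I * (z i / δ i) := by rw [← h10]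
      _ = ((δ i).im : ℂ) * (I * (z i / δ i)) := by ring
  have h12 : 0 < (δ i).im := by
    have h13 : (z i).im = (δ i).im * (z i / δ i).re := by
      conv_lhs => rw [h11]
      rw [im_ofReal_mul]
      congr 1
      simp
    have h14 : 0 < (z i).im := h6
    rw [h13] at h14
    exact pos_of_mul_pos_left h14 h8.le
  conv_rhs => rw [h11]
  rw [arg_real_mul _ h12]

end Ang

open Ang in
/-- Near the point `X` (`V = 0`) the curve `Im H = 0` has the direction `p π / (p + r)`; if the next
value is `r + κ δ (1 + o(1))` with imaginary `δ`, then `p = r`. -/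
theorem xz_angle {ι : Type*} {l : Filter ι} [l.NeBot] {p r : ℝ} (hp : 0 < p) (hr : 0 < r)
    {V V1 δ : ι → ℂ} {κ : ℝ} (hκ : 0 < κ) (hV : ∀ᶠ i in l, V i ∈ UP) (hV0 : Tendsto V l (𝓝 0))
    (hL : ∀ᶠ i in l, (Hf p r (V i)).im = 0) (hV1 : ∀ᶠ i in l, V1 i ∈ UP)
    (hV1r : Tendsto V1 l (𝓝 (r : ℂ))) (hH : ∀ᶠ i in l, Hf p r (V1 i) = Hf p r (-V i - p))
    (hδ : ∀ᶠ i in l, (δ i).re = 0)
    (hlim : Tendsto (fun i => (V1 i - r) / δ i) l (𝓝 (κ : ℂ))) : p = r := by
  have hpr : 0 < p + r := add_pos hp hr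
  -- the direction at `X`
  have ha : Tendsto (fun i => arg (V i)) l (𝓝 (p * π / (p + r))) := by
    have h1 : Tendsto (fun i => arg (V i - r)) l (𝓝 π) := by
      refine arg_neg_lim hr (hV.mono fun i hi => (shift_mem hi r).1) ?_
      simpa using hV0.sub_const (r : ℂ)
    have h2 : Tendsto (fun i => arg (V i + p)) l (𝓝 0) := by
      refine arg_pos_lim hp ?_
      simpa using hV0.add_const (p : ℂ)
    have h3 := ((h1.const_mul p).add (h2.const_mul r)).div_const (p + r)
    rw [mul_zero, add_zero] at h3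
    refine h3.congr' ?_
    filter_upwards [hL, hV] with i hi hi'
    rw [im_eq hi'] at hi
    rw [div_eq_iff hpr.ne']
    linarith
  -- the next value
  have hA : Tendsto (fun i => (Hf p r (V1 i)).im) l (𝓝 (p * (π / 2))) := by
    have h1 : Tendsto (fun i => arg (V1 i - r)) l (𝓝 (π / 2)) :=
      arg_half hκ (hV1.mono fun i hi => (shift_mem hi r).1) hδ hlim
    have h2 : Tendsto (fun i => arg (V1 i)) l (𝓝 0) := arg_pos_lim hr hV1r
    have h3 : Tendsto (fun i => arg (V1 i + p)) l (𝓝 0) := by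
      refine arg_pos_lim (s := r + p) (by linarith) ?_
      simpa using hV1r.add_const (p : ℂ)
    have h4 := ((h1.sub h2).const_mul p).add ((h3.sub h2).const_mul r)
    have e : p * (π / 2 - 0) + r * (0 - 0) = p * (π / 2) := by ring
    rw [e] at h4
    refine h4.congr' ?_
    filter_upwards [hV1] with i hi
    rw [im_eq hi]
  have hB : Tendsto (fun i => (Hf p r (-V i - p)).im) l (𝓝 (r * (p * π / (p + r)))) := by
    have hW : ∀ᶠ i in l, -(starRingEnd ℂ) (V i) - (p : ℂ) ∈ UP := by
      filter_upwards [hV] with i hi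
      have h1 : 0 < (V i).im := hi
      change 0 < (-(starRingEnd ℂ) (V i) - (p : ℂ)).im
      simpa using h1
    have hWlim : Tendsto (fun i => -(starRingEnd ℂ) (V i) - (p : ℂ)) l (𝓝 (-(p : ℂ))) := by
      have h1 := (((continuous_conj.tendsto (0 : ℂ)).comp hV0).neg).sub_const (p : ℂ)
      simpa using h1
    have h1 : Tendsto (fun i => arg (-(starRingEnd ℂ) (V i) - (p : ℂ) - r)) l (𝓝 π) := by
      refine arg_neg_lim (s := p + r) hpr (hW.mono fun i hi => (shift_mem hi r).1) ?_
      have h2 := hWlim.sub_const (r : ℂ)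
      have e : -(p : ℂ) - (r : ℂ) = -(((p + r : ℝ)) : ℂ) := by
        push_cast
        ring
      rwa [e] at h2
    have h2 : Tendsto (fun i => arg (-(starRingEnd ℂ) (V i) - (p : ℂ))) l (𝓝 π) :=
      arg_neg_lim hp hW hWlim
    have h3 := ((h1.sub h2).const_mul p).add (((ha.const_sub π).sub h2).const_mul r)
    have h4 := h3.neg
    have e : -(p * (π - π) + r * (π - p * π / (p + r) - π)) = r * (p * π / (p + r)) := by ring
    rw [e] at h4
    refine h4.congr' ?_
    filter_upwards [hV, hW] with i hi hi'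
    have h5 : -V i - (p : ℂ) = (starRingEnd ℂ) (-(starRingEnd ℂ) (V i) - (p : ℂ)) := by
      simp
    have h6 : 0 < (V i).im := hi
    have h7 : arg (-(starRingEnd ℂ) (V i) - (p : ℂ) + p) = π - arg (V i) := by
      rw [sub_add_cancel, arg_neg_eq_arg_add_pi_of_im_neg (by simpa using h6), arg_conj,
        if_neg (arg_lt_pi_iff.2 (Or.inr h6.ne')).ne]
      ring
    rw [h5, Hf_conj hp hr (UP_subset_Dm hi'), conj_im, im_eq hi', h7]
  -- comparison
  have h := tendsto_nhds_unique (hA.congr' (hH.mono fun i hi => by rw [hi])) hB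
  have hpi := Real.pi_pos
  have h1 : p * π * (p + r) = p * π * (2 * r) := by
    field_simp at h
    linear_combination (p * π) * h
  have h2 := mul_left_cancel₀ (mul_pos hp hpi).ne' h1
  linarith

end Pool.Agent.MP_ae5b4e_an_MET
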