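import Mathlib
import Pool.Agent.Lib.MP_ae5b4e_an_MET.Defs
import Pool.Agent.Lib.MP_ae5b4e_an_ALG.Gf
import Pool.Agent.Lib.MP_ae5b4e_an_ALG.HfA
import Pool.Agent.Lib.MP_ae5b4e_an_ALG.HfInj
import Pool.Agent.Lib.MP_ae5b4e_an_ALG.Bdry
import Pool.Agent.Lib.MP_ae5b4e_an_ALG.BdryB

/-!
# MP_ae5b4e_an, project MET, module A13: the continuation of `H` across `(0, r)` and its inverse
-/

set_option autoImplicit false

noncomputable section

namespace Pool.Agent.MP_ae5b4e_an_MET

open Filter Topology Set Metric Complex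
open scoped Real
open Pool.Agent.MP_ae5b4e_an_ALG

section A13
variable {p r : ℝ}

namespace GHat

lemma log_up {u : ℂ} (hu : 0 < u.im) : Complex.log (-u) + π * I = Complex.log u := by
  apply Complex.ext
  · simp [Complex.log_re]
  · simp [Complex.log_im, Complex.arg_neg_eq_arg_sub_pi_of_im_pos hu]

lemma log_down {u : ℂ} (hu : u.im < 0) : Complex.log (-u) = Complex.log u + π * I := by
  apply Complex.ext
  · simp [Complex.log_re]
  · simp [Complex.log_im, Complex.arg_neg_eq_arg_add_pi_of_im_neg hu]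

lemma log_neg_real {y : ℝ} (hy : y < 0) :
    Complex.log ((-y : ℝ) : ℂ) + π * I = Complex.log (y : ℂ) := by
  apply Complex.ext
  · simp [Complex.log_re]
  · rw [Complex.add_im, Complex.log_im, Complex.log_im, Complex.arg_ofReal_of_neg hy,
      Complex.arg_ofReal_of_nonneg (by linarith : (0:ℝ) ≤ -y)]
    simp

lemma real_of_im {V : ℂ} (h : V.im = 0) : ((V.re : ℝ) : ℂ) = V := by
  apply Complex.ext <;> simp [h]

lemma Nn_open (r : ℝ) : IsOpen (Nn r) := by
  have h1 : IsOpen {V : ℂ | V.im ≠ 0} := isOpen_ne_fun Complex.continuous_im continuous_const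
  have h2 : IsOpen {V : ℂ | 0 < V.re} := isOpen_lt continuous_const Complex.continuous_re
  have h3 : IsOpen {V : ℂ | V.re < r} := isOpen_lt Complex.continuous_re continuous_const
  have he : Nn r = {V : ℂ | V.im ≠ 0} ∪ ({V : ℂ | 0 < V.re} ∩ {V : ℂ | V.re < r}) := by
    ext V
    simp [Nn]
  rw [he]
  exact h1.union (h2.inter h3)

/-- the three parts of `Nn r` -/
lemma cases {V : ℂ} (hV : V ∈ Nn r) :
    V ∈ UP ∨ (∃ x : ℝ, 0 < x ∧ x < r ∧ V = x) ∨ V.im < 0 := by
  rcases lt_trichotomy V.im 0 with h | h | h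
  · exact Or.inr (Or.inr h)
  · right; left
    rcases hV with h' | h'
    · exact absurd h h'
    · exact ⟨V.re, h'.1, h'.2, (real_of_im h).symm⟩
  · exact Or.inl h

lemma ne0 {V : ℂ} (hV : V ∈ Nn r) : V ≠ 0 := by
  rintro rfl
  rcases hV with h | h
  · exact h rfl
  · exact lt_irrefl _ h.1

lemma slit (hp : 0 < p) (hr : 0 < r) {V : ℂ} (hV : V ∈ Nn r) :
    ((r : ℂ) / V - 1) ∈ Complex.slitPlane ∧ (1 + (p : ℂ) / V) ∈ Complex.slitPlane := by
  have h0 := ne0 hV
  by_cases him : V.im = 0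
  · obtain ⟨hx0, hx1⟩ : 0 < V.re ∧ V.re < r := by
      rcases hV with h | h
      · exact absurd him h
      · exact h
    have hV' := (real_of_im him).symm
    have e1 : ((r : ℂ) / V - 1) = ((r / V.re - 1 : ℝ) : ℂ) := by
      conv_lhs => rw [hV']
      push_cast
      rfl
    have e2 : (1 + (p : ℂ) / V) = ((1 + p / V.re : ℝ) : ℂ) := by
      conv_lhs => rw [hV']
      push_cast
      rfl
    rw [e1, e2]
    constructor
    · rw [Complex.ofReal_mem_slitPlane]
      have : 1 < r / V.re := (one_lt_div hx0).2 hx1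
      linarith
    · rw [Complex.ofReal_mem_slitPlane]
      positivity
  · have hD : V ∈ Dm p r := Or.inl him
    obtain ⟨h1, h2⟩ := HfA.slit hp hr hD
    have hn := HfA.normSq_pos hp hr hD
    refine ⟨?_, h2⟩
    rw [Complex.mem_slitPlane_iff]
    right
    have : ((r : ℂ) / V - 1).im = -(1 - (r : ℂ) / V).im := by simp
    rw [this, HfA.im_one_sub]
    exact neg_ne_zero.2 (div_ne_zero (mul_ne_zero hr.ne' him) hn.ne')

lemma Pf_ne' (hp : 0 < p) (hr : 0 < r) {V : ℂ} (hV : V ∈ Nn r) : Pf p r V ≠ 0 := by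
  have h0 := ne0 hV
  have h1 : V + (p : ℂ) ≠ 0 := by
    intro h
    have h2 := congrArg Complex.re h
    have h3 := congrArg Complex.im h
    simp only [Complex.add_re, Complex.add_im, Complex.ofReal_re, Complex.ofReal_im,
      Complex.zero_re, Complex.zero_im, add_zero] at h2 h3
    rcases hV with h4 | h4
    · exact h4 h3
    · linarith [h4.1]
  have h2 : V - (r : ℂ) ≠ 0 := by
    intro h
    have h2 := congrArg Complex.re h
    have h3 := congrArg Complex.im h
    simp only [Complex.sub_re, Complex.sub_im, Complex.ofReal_re, Complex.ofReal_im,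
      Complex.zero_re, Complex.zero_im, sub_zero] at h2 h3
    rcases hV with h4 | h4
    · exact h4 h3
    · linarith [h4.2]
  exact mul_ne_zero (mul_ne_zero h0 h1) h2

end GHat

theorem Hh_deriv (hp : 0 < p) (hr : 0 < r) {V : ℂ} (hV : V ∈ Nn r) :
    HasDerivAt (Hh p r) (p * r * (p + r) / Pf p r V) V := by
  have h0 := GHat.ne0 hV
  obtain ⟨hs1, hs2⟩ := GHat.slit hp hr hV
  have hP := GHat.Pf_ne' hp hr hV
  have hinv : HasDerivAt (fun V : ℂ => V⁻¹) (-(V ^ 2)⁻¹) V := hasDerivAt_inv h0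
  have d1 : HasDerivAt (fun V : ℂ => (r : ℂ) / V - 1) (-(r : ℂ) / V ^ 2) V := by
    have := (hinv.const_mul (r : ℂ)).sub_const 1
    have e : (fun V : ℂ => (r : ℂ) / V - 1) = fun V : ℂ => (r : ℂ) * V⁻¹ - 1 := by
      funext V; rw [div_eq_mul_inv]
    have e' : -(r : ℂ) / V ^ 2 = ((r : ℂ) * -(V ^ 2)⁻¹) := by
      rw [div_eq_mul_inv]
      ring
    rw [e, e']
    exact this
  have d2 : HasDerivAt (fun V : ℂ => 1 + (p : ℂ) / V) (-(p : ℂ) / V ^ 2) V := by
    have := (hinv.const_mul (p : ℂ)).const_add 1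
    have e : (fun V : ℂ => 1 + (p : ℂ) / V) = fun V : ℂ => 1 + (p : ℂ) * V⁻¹ := by
      funext V; rw [div_eq_mul_inv]
    have e' : -(p : ℂ) / V ^ 2 = (p : ℂ) * -(V ^ 2)⁻¹ := by
      rw [div_eq_mul_inv]
      ring
    rw [e, e']
    exact this
  have c1 := ((d1.clog hs1).add_const (π * I)).const_mul (p : ℂ)
  have c2 := (d2.clog hs2).const_mul (r : ℂ)
  have c := c1.add c2
  have hV1 : V + (p : ℂ) ≠ 0 := fun h => hP (by simp [Pf, h])
  have hV2 : V - (r : ℂ) ≠ 0 := fun h => hP (by simp [Pf, h])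
  have hV3 : (r : ℂ) - V ≠ 0 := fun h => hV2 (by linear_combination -h)
  have hq1 : ((r : ℂ) / V - 1) = (r - V) / V := by field_simp
  have hq2 : (1 + (p : ℂ) / V) = (V + p) / V := by field_simp
  have hfin : (p : ℂ) * r * (p + r) / Pf p r V =
      (p : ℂ) * (-(r : ℂ) / V ^ 2 / ((r : ℂ) / V - 1)) +
        (r : ℂ) * (-(p : ℂ) / V ^ 2 / (1 + (p : ℂ) / V)) := by
    have hP' : Pf p r V = -(V * (V + p) * (r - V)) := by
      unfold Pf
      ring
    rw [hq1, hq2, hP']
    field_simp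
    ring
  rw [hfin]
  exact c

theorem Hh_up (hp : 0 < p) (hr : 0 < r) {V : ℂ} (hV : V ∈ UP) : Hh p r V = Hf p r V := by
  have hD : V ∈ Dm p r := UP_subset_Dm hV
  have him : 0 < V.im := hV
  have hn := HfA.normSq_pos hp hr hD
  have i1 : 0 < (1 - (r : ℂ) / V).im := by
    rw [HfA.im_one_sub]
    positivity
  have h1 := GHat.log_up i1
  have h2 : (r : ℂ) / V - 1 = -(1 - (r : ℂ) / V) := by ring
  unfold Hh Hf
  rw [h2, h1]

theorem Hh_real (hp : 0 < p) (hr : 0 < r) {x : ℝ} (h0 : 0 < x) (h1 : x < r) :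
    Hh p r x = Hb p r x ∧ (Hh p r x).im = p * π := by
  have hx : (1 - r / x : ℝ) < 0 := by
    have : 1 < r / x := (one_lt_div h0).2 h1
    linarith
  have hy : (0 : ℝ) < 1 + p / x := by positivity
  have e : Hh p r x = Hb p r x := by
    have e1 : (r : ℂ) / (x : ℂ) - 1 = ((-(1 - r / x) : ℝ) : ℂ) := by push_cast; ring
    have e2 : (1 : ℂ) - (r : ℂ) / (x : ℂ) = ((1 - r / x : ℝ) : ℂ) := by push_cast; ring
    have e3 : (1 : ℂ) + (p : ℂ) / (x : ℂ) = ((1 + p / x : ℝ) : ℂ) := by push_cast; ring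
    unfold Hh Hb
    rw [e1, e2, e3, GHat.log_neg_real hx, Complex.conj_ofReal, ← Complex.ofReal_log hy.le,
      Complex.conj_ofReal]
  exact ⟨e, by rw [e]; exact Hb_I3 hp hr h0 h1⟩

theorem Hh_low (hp : 0 < p) (hr : 0 < r) {V : ℂ} (hV : V.im < 0) :
    Hh p r V = (starRingEnd ℂ) (Hf p r ((starRingEnd ℂ) V)) + 2 * p * π * I := by
  have hD : V ∈ Dm p r := Or.inl hV.ne
  have hn := HfA.normSq_pos hp hr hD
  have i1 : (1 - (r : ℂ) / V).im < 0 := by
    rw [HfA.im_one_sub]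
    exact div_neg_of_neg_of_pos (mul_neg_of_pos_of_neg hr hV) hn
  have h1 := GHat.log_down i1
  have h2 : (r : ℂ) / V - 1 = -(1 - (r : ℂ) / V) := by ring
  rw [Hf_conj hp hr hD, Complex.conj_conj]
  unfold Hh Hf
  rw [h2, h1]
  ring

namespace GHat

lemma im_low (hp : 0 < p) (hr : 0 < r) {V : ℂ} (hV : V.im < 0) : p * π < (Hh p r V).im := by
  have hc : (starRingEnd ℂ) V ∈ UP := by
    change 0 < ((starRingEnd ℂ) V).im
    rw [Complex.conj_im]
    linarith
  have h1 := (Hf_strip hp hr hc).2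
  have h2 : (Hh p r V).im = -(Hf p r ((starRingEnd ℂ) V)).im + 2 * p * π := by
    rw [Hh_low hp hr hV]
    simp
  rw [h2]
  linarith

lemma im_up (hp : 0 < p) (hr : 0 < r) {V : ℂ} (hV : V ∈ UP) : (Hh p r V).im < p * π := by
  rw [Hh_up hp hr hV]
  exact (Hf_strip hp hr hV).2

end GHat

theorem Hh_inj (hp : 0 < p) (hr : 0 < r) : InjOn (Hh p r) (Nn r) := by
  intro V hV W hW h
  have him := congrArg Complex.im h
  rcases GHat.cases hV with h1 | ⟨x, hx0, hx1, rfl⟩ | h1
  · have a1 := GHat.im_up hp hr h1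
    rcases GHat.cases hW with h2 | ⟨y, hy0, hy1, rfl⟩ | h2
    · rw [Hh_up hp hr h1, Hh_up hp hr h2] at h
      exact Hf_injOn hp hr h1 h2 h
    · have a2 := (Hh_real hp hr hy0 hy1).2
      exfalso
      rw [him, a2] at a1
      exact lt_irrefl _ a1
    · have a2 := GHat.im_low hp hr h2
      exfalso
      rw [him] at a1
      exact lt_irrefl _ (a1.trans a2)
  · have a1 := (Hh_real hp hr hx0 hx1).2
    rcases GHat.cases hW with h2 | ⟨y, hy0, hy1, rfl⟩ | h2
    · have a2 := GHat.im_up hp hr h2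
      exfalso
      rw [← him, a1] at a2
      exact lt_irrefl _ a2
    · rw [(Hh_real hp hr hx0 hx1).1, (Hh_real hp hr hy0 hy1).1] at h
      have h3 := (Hb_mono3 hp hr).injOn ⟨hx0, hx1⟩ ⟨hy0, hy1⟩ (congrArg Complex.re h)
      rw [h3]
    · have a2 := GHat.im_low hp hr h2
      exfalso
      rw [← him, a1] at a2
      exact lt_irrefl _ a2
  · have a1 := GHat.im_low hp hr h1
    rcases GHat.cases hW with h2 | ⟨y, hy0, hy1, rfl⟩ | h2
    · have a2 := GHat.im_up hp hr h2
      exfalso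
      rw [him] at a1
      exact lt_irrefl _ (a1.trans a2)
    · have a2 := (Hh_real hp hr hy0 hy1).2
      exfalso
      rw [him, a2] at a1
      exact lt_irrefl _ a1
    · rw [Hh_low hp hr h1, Hh_low hp hr h2] at h
      have h3 := (starRingEnd ℂ).injective (add_right_cancel h)
      have hc1 : (starRingEnd ℂ) V ∈ UP := by
        change 0 < ((starRingEnd ℂ) V).im
        rw [Complex.conj_im]
        linarith
      have hc2 : (starRingEnd ℂ) W ∈ UP := by
        change 0 < ((starRingEnd ℂ) W).im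
        rw [Complex.conj_im]
        linarith
      exact (starRingEnd ℂ).injective (Hf_injOn hp hr hc1 hc2 h3)

theorem Gh_Hh (hp : 0 < p) (hr : 0 < r) {V : ℂ} (hV : V ∈ Nn r) : Gh p r (Hh p r V) = V :=
  (Hh_inj hp hr).leftInvOn_invFunOn hV

namespace GHat

lemma hasStrict (hp : 0 < p) (hr : 0 < r) {V : ℂ} (hV : V ∈ Nn r) :
    HasStrictDerivAt (Hh p r) (p * r * (p + r) / Pf p r V) V := by
  have h1 : ∀ᶠ w in 𝓝 V, HasDerivAt (Hh p r) (p * r * (p + r) / Pf p r w) w := by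
    filter_upwards [(Nn_open r).mem_nhds hV] with w hw
    exact Hh_deriv hp hr hw
  have h2 : AnalyticAt ℂ (Hh p r) V := by
    rw [Complex.analyticAt_iff_eventually_differentiableAt]
    filter_upwards [h1] with w hw
    exact hw.differentiableAt
  have h3 := h2.hasStrictDerivAt
  rwa [(h1.self_of_nhds).deriv] at h3

lemma der_ne (hp : 0 < p) (hr : 0 < r) {V : ℂ} (hV : V ∈ Nn r) :
    ((p : ℂ) * r * (p + r) / Pf p r V) ≠ 0 := by
  have h := Pf_ne' hp hr hV
  have hp' : (p : ℂ) ≠ 0 := by exact_mod_cast hp.ne'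
  have hr' : (r : ℂ) ≠ 0 := by exact_mod_cast hr.ne'
  have hpr : (p : ℂ) + r ≠ 0 := by exact_mod_cast (add_pos hp hr).ne'
  exact div_ne_zero (mul_ne_zero (mul_ne_zero hp' hr') hpr) h

lemma diff (hp : 0 < p) (hr : 0 < r) {V : ℂ} (hV : V ∈ Nn r) :
    DifferentiableAt ℂ (Gh p r) (Hh p r V) := by
  have hs := hasStrict hp hr hV
  have hne := der_ne hp hr hV
  have hL := hs.to_localInverse hne
  have hLV : hs.localInverse _ _ _ hne (Hh p r V) = V :=
    (hs.eventually_left_inverse hne).self_of_nhds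
  have hLc : Tendsto (hs.localInverse _ _ _ hne) (𝓝 (Hh p r V)) (𝓝 V) := by
    have := hL.hasDerivAt.continuousAt.tendsto
    rwa [hLV] at this
  have he : ∀ᶠ z' in 𝓝 (Hh p r V), Hh p r (hs.localInverse _ _ _ hne z') = z' :=
    hs.eventually_right_inverse hne
  have hUP : ∀ᶠ z' in 𝓝 (Hh p r V), hs.localInverse _ _ _ hne z' ∈ Nn r :=
    hLc.eventually ((Nn_open r).mem_nhds hV)
  have heq : Gh p r =ᶠ[𝓝 (Hh p r V)] hs.localInverse _ _ _ hne := by
    filter_upwards [he, hUP] with z' h1 h2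
    conv_lhs => rw [← h1]
    exact Gh_Hh hp hr h2
  exact heq.differentiableAt_iff.2 hL.hasDerivAt.differentiableAt

end GHat

theorem Gh_spec (hp : 0 < p) (hr : 0 < r) {z : ℂ} (h0 : 0 < z.im) (h1 : z.im < 2 * p * π) :
    Gh p r z ∈ Nn r ∧ Hh p r (Gh p r z) = z ∧ DifferentiableAt ℂ (Gh p r) z ∧
      (z.im < p * π → Gh p r z = Gf p r z ∧ Gh p r z ∈ UP) ∧
      (z.im = p * π → (Gh p r z).im = 0) ∧
      (p * π < z.im → (starRingEnd ℂ) (Gh p r z) ∈ UP ∧
        Hf p r ((starRingEnd ℂ) (Gh p r z)) = (starRingEnd ℂ) z + 2 * p * π * I) := by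
  have hpp : 0 < p * π := mul_pos hp Real.pi_pos
  have hrp : 0 < r * π := mul_pos hr Real.pi_pos
  -- the common conclusion
  have key : ∀ V : ℂ, V ∈ Nn r → Hh p r V = z → Gh p r z = V ∧ Gh p r z ∈ Nn r ∧
      Hh p r (Gh p r z) = z ∧ DifferentiableAt ℂ (Gh p r) z := by
    intro V hV hz
    have e : Gh p r z = V := by rw [← hz]; exact Gh_Hh hp hr hV
    refine ⟨e, by rw [e]; exact hV, by rw [e]; exact hz, ?_⟩
    rw [← hz]
    exact GHat.diff hp hr hV
  rcases lt_trichotomy z.im (p * π) with h | h | h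
  · have hX : z ∈ Xs p r := ⟨by linarith, h, fun h' => absurd h' h0.ne'⟩
    obtain ⟨g1, g2⟩ := Gf_mem hp hr hX
    have hN : Gf p r z ∈ Nn r := Or.inl (ne_of_gt g1)
    obtain ⟨e, k1, k2, k3⟩ := key (Gf p r z) hN (by rw [Hh_up hp hr g1, g2])
    exact ⟨k1, k2, k3, fun _ => ⟨e, by rw [e]; exact g1⟩, fun h' => absurd h' h.ne,
      fun h' => absurd h' (not_lt.2 h.le)⟩
  · obtain ⟨x, hx0, hx1, hx⟩ := Hb_surj3 hp hr h
    have hN : (x : ℂ) ∈ Nn r := Or.inr ⟨by simpa using hx0, by simpa using hx1⟩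
    obtain ⟨e, k1, k2, k3⟩ := key x hN (by rw [(Hh_real hp hr hx0 hx1).1, hx])
    exact ⟨k1, k2, k3, fun h' => absurd h h'.ne, fun _ => by rw [e]; exact Complex.ofReal_im x,
      fun h' => absurd h' (not_lt.2 h.le)⟩
  · have him : ((starRingEnd ℂ) z + 2 * p * π * I).im = 2 * p * π - z.im := by
      simp
      ring
    have hX : (starRingEnd ℂ) z + 2 * p * π * I ∈ Xs p r := by
      refine ⟨?_, ?_, ?_⟩
      · rw [him]; linarith
      · rw [him]; linarith
      · intro h'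
        rw [him] at h'
        exact absurd h' (by linarith : (2 * p * π - z.im) > 0).ne'
    obtain ⟨g1, g2⟩ := Gf_mem hp hr hX
    set W := Gf p r ((starRingEnd ℂ) z + 2 * p * π * I) with hW
    have hWim : 0 < W.im := g1
    have hneg : ((starRingEnd ℂ) W).im < 0 := by
      rw [Complex.conj_im]
      linarith
    have hN : (starRingEnd ℂ) W ∈ Nn r := Or.inl hneg.ne
    have hz : Hh p r ((starRingEnd ℂ) W) = z := by
      rw [Hh_low hp hr hneg, Complex.conj_conj, g2]
      apply Complex.ext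
      · simp
      · simp
    obtain ⟨e, k1, k2, k3⟩ := key _ hN hz
    refine ⟨k1, k2, k3, fun h' => absurd h' (not_lt.2 h.le), fun h' => absurd h' h.ne', fun _ => ?_⟩
    rw [e, Complex.conj_conj]
    exact ⟨g1, g2⟩

end A13

end Pool.Agent.MP_ae5b4e_an_MET
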