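import Mathlib
import Pool.Agent.Lib.MP_ae5b4e_an_MET.Defs
import Pool.Agent.Lib.MP_ae5b4e_an_ALG.HfA
import Pool.Agent.Lib.MP_ae5b4e_an_ALG.Bdry
import Pool.Agent.Lib.MP_ae5b4e_an_ALG.BdryB

/-!
# MP_ae5b4e_an, project MET, module A3: the sign of `Im H` in a half plane, `r < p`
-/

set_option autoImplicit false
noncomputable section
namespace Pool.Agent.MP_ae5b4e_an_MET
open Filter Topology Set Metric Complex
open scoped Real
open Pool.Agent.MP_ae5b4e_an_ALG

namespace Quad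

theorem arg_pos {z : ℂ} (hz : 0 < z.im) : 0 < arg z := by
  rcases (Complex.arg_nonneg_iff.2 hz.le).lt_or_eq with h | h
  · exact h
  · exfalso
    have := Complex.arg_eq_zero_iff.1 h.symm
    linarith [this.2]

theorem arg_lt {z : ℂ} (hz : 0 < z.im) : arg z < π :=
  Complex.arg_lt_pi_iff.2 (Or.inr hz.ne')

theorem arg_one_add {V : ℂ} (hV : 0 < V.im) (s : ℝ) :
    arg (1 + (s : ℂ) / V) = arg (V + s) - arg V := by
  have hV0 : V ≠ 0 := by
    rintro rfl
    simp at hV
  have him : 0 < (V + (s : ℂ)).im := by simpa using hV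
  have hVs : V + (s : ℂ) ≠ 0 := by
    intro h
    rw [h] at him
    simp at him
  have e1 : 1 + (s : ℂ) / V = (V + s) * V⁻¹ := by field_simp
  have e2 : arg V⁻¹ = -arg V := by
    rw [Complex.arg_inv, if_neg (arg_lt hV).ne]
  have a1 := arg_pos hV
  have a2 := arg_lt hV
  have a3 := arg_pos him
  have a4 := arg_lt him
  rw [e1, (Complex.arg_mul_eq_add_arg_iff hVs (inv_ne_zero hV0)).2, e2]
  · ring
  · rw [e2]
    constructor <;> linarith

theorem im_eq (p r : ℝ) {V : ℂ} (hV : 0 < V.im) :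
    (Hf p r V).im = p * (arg (V - r) - arg V) + r * (arg (V + p) - arg V) := by
  unfold Hf
  rw [Complex.add_im, Complex.im_ofReal_mul, Complex.im_ofReal_mul, Complex.log_im,
    Complex.log_im, arg_one_add hV p]
  have e1 : (1 - (r : ℂ) / V) = 1 + ((-r : ℝ) : ℂ) / V := by
    push_cast
    ring
  have e2 : V + ((-r : ℝ) : ℂ) = V - r := by
    push_cast
    ring
  rw [e1, arg_one_add hV (-r), e2]

theorem arg_neg_conj {z : ℂ} (hz : 0 < z.im) : arg (-(starRingEnd ℂ) z) = π - arg z := by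
  have h1 : ((starRingEnd ℂ) z).im < 0 := by simpa using hz
  rw [Complex.arg_neg_eq_arg_add_pi_of_im_neg h1, Complex.arg_conj, if_neg (arg_lt hz).ne]
  ring

theorem arg_anti {V : ℂ} (hV : 0 < V.im) {s : ℝ} (hs : 0 < s) : arg (V + s) < arg V := by
  have h0 : V ≠ 0 := by
    rintro rfl
    simp at hV
  have h1 : (1 + (s : ℂ) / V).im < 0 := by
    rw [HfA.im_one_add]
    have : 0 < s * V.im / Complex.normSq V :=
      div_pos (mul_pos hs hV) (Complex.normSq_pos.2 h0)
    linarith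
  have h2 := Complex.arg_neg_iff.2 h1
  rw [arg_one_add hV] at h2
  linarith

/-- the vertical line -/
def ln (X Y : ℝ) : ℂ := (X : ℂ) + (Y : ℂ) * I

theorem ln_re (X Y : ℝ) : (ln X Y).re = X := by simp [ln]

theorem ln_im (X Y : ℝ) : (ln X Y).im = Y := by simp [ln]

theorem ln_deriv (X Y : ℝ) : HasDerivAt (ln X) I Y := by
  have h1 : HasDerivAt (fun Y : ℝ => (Y : ℂ)) 1 Y := Complex.ofRealCLM.hasDerivAt
  have h2 := (h1.mul_const I).const_add (X : ℂ)
  rw [one_mul] at h2
  exact h2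

theorem Pf_re (p r X Y : ℝ) : (Pf p r (ln X Y)).re =
    X * (X + p) * (X - r) - Y ^ 2 * (3 * X + p - r) := by
  unfold Pf ln
  simp [Complex.mul_re, Complex.mul_im]
  ring

theorem im_deriv {p r : ℝ} (hp : 0 < p) (hr : 0 < r) {X Y : ℝ} (h : ln X Y ∈ Dm p r) :
    HasDerivAt (fun Y : ℝ => (Hf p r (ln X Y)).im)
      (p * r * (p + r) * (X * (X + p) * (X - r) - Y ^ 2 * (3 * X + p - r)) /
        Complex.normSq (Pf p r (ln X Y))) Y := by
  have h1 : HasDerivAt (fun Y : ℝ => Hf p r (ln X Y))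
      ((p * r * (p + r) / Pf p r (ln X Y)) * I) Y :=
    HasDerivAt.comp Y (Hf_deriv hp hr h) (ln_deriv X Y)
  have h2 := Complex.imCLM.hasFDerivAt.comp_hasDerivAt Y h1
  have h3 : Complex.imCLM ((p * r * (p + r) / Pf p r (ln X Y)) * I) =
      p * r * (p + r) * (X * (X + p) * (X - r) - Y ^ 2 * (3 * X + p - r)) /
        Complex.normSq (Pf p r (ln X Y)) := by
    rw [Complex.imCLM_apply, Complex.mul_I_im, ← Pf_re]
    have h4 : ((p : ℂ) * r * (p + r)) = ((p * r * (p + r) : ℝ) : ℂ) := by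
      push_cast
      ring
    rw [h4, HfA.re_div]
  rw [h3] at h2
  exact h2

theorem ln_tendsto (X : ℝ) : Tendsto (ln X) atTop (Bornology.cobounded ℂ) := by
  rw [← tendsto_norm_atTop_iff_cobounded]
  refine tendsto_atTop_mono (fun Y => ?_) tendsto_id
  have h1 := Complex.abs_im_le_norm (ln X Y)
  rw [ln_im] at h1
  exact (le_abs_self Y).trans h1

theorem im_tendsto (p r X : ℝ) : Tendsto (fun Y : ℝ => (Hf p r (ln X Y)).im) atTop (𝓝 0) := by
  have h1 := (Hf_tendsto_inf p r).comp (ln_tendsto X)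
  have h2 := (Complex.continuous_im.tendsto 0).comp h1
  rw [Complex.zero_im] at h2
  exact h2

/-- from a point where the derivative is positive above -/
theorem neg_up {p r : ℝ} (hp : 0 < p) (hr : 0 < r) {X Y0 : ℝ} (hY : 0 < Y0)
    (h : ∀ Y, Y0 < Y → 0 < X * (X + p) * (X - r) - Y ^ 2 * (3 * X + p - r)) :
    (Hf p r (ln X Y0)).im < 0 := by
  have hU : ∀ Y, Y0 ≤ Y → ln X Y ∈ Dm p r := fun Y h => UP_subset_Dm (by
    show 0 < (ln X Y).im
    rw [ln_im]
    linarith)
  have hmono : StrictMonoOn (fun Y : ℝ => (Hf p r (ln X Y)).im) (Ici Y0) := by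
    apply strictMonoOn_of_deriv_pos (convex_Ici Y0)
    · intro Y hY1
      exact (im_deriv hp hr (hU Y hY1)).continuousAt.continuousWithinAt
    · intro Y hY1
      rw [interior_Ici] at hY1
      rw [(im_deriv hp hr (hU Y (le_of_lt hY1))).deriv]
      exact div_pos (mul_pos (by positivity) (h Y hY1))
        (Complex.normSq_pos.2 (Pf_ne hp hr (hU Y (le_of_lt hY1))))
  have h1 : (Hf p r (ln X Y0)).im < (Hf p r (ln X (Y0 + 1))).im :=
    hmono (mem_Ici.2 le_rfl) (mem_Ici.2 (by linarith)) (by linarith)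
  have h2 : (Hf p r (ln X (Y0 + 1))).im ≤ 0 := by
    refine ge_of_tendsto (im_tendsto p r X) ?_
    filter_upwards [eventually_ge_atTop (Y0 + 1)] with Y hY1
    exact hmono.monotoneOn (mem_Ici.2 (by linarith)) (mem_Ici.2 (by linarith)) hY1
  linarith

theorem neg_down {p r : ℝ} (hp : 0 < p) (hr : 0 < r) {X Y0 : ℝ} (hX : X < -p) (hY : 0 < Y0)
    (h : ∀ Y, 0 < Y → Y < Y0 → X * (X + p) * (X - r) - Y ^ 2 * (3 * X + p - r) < 0) :
    (Hf p r (ln X Y0)).im < 0 := by
  have hU : ∀ Y, ln X Y ∈ Dm p r := fun Y => Or.inr (Or.inl (by rw [ln_re]; exact hX))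
  have hanti : StrictAntiOn (fun Y : ℝ => (Hf p r (ln X Y)).im) (Icc 0 Y0) := by
    apply strictAntiOn_of_deriv_neg (convex_Icc 0 Y0)
    · intro Y hY1
      exact (im_deriv hp hr (hU Y)).continuousAt.continuousWithinAt
    · intro Y hY1
      rw [interior_Icc] at hY1
      rw [(im_deriv hp hr (hU Y)).deriv]
      exact div_neg_of_neg_of_pos (mul_neg_of_pos_of_neg (by positivity) (h Y hY1.1 hY1.2))
        (Complex.normSq_pos.2 (Pf_ne hp hr (hU Y)))
  have h1 : (Hf p r (ln X Y0)).im < (Hf p r (ln X 0)).im :=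
    hanti (left_mem_Icc.2 hY.le) (right_mem_Icc.2 hY.le) hY
  have h2 : (Hf p r (ln X 0)).im = 0 := by
    have h3 := Hf_conj hp hr (hU 0)
    have h4 : (starRingEnd ℂ) (ln X 0) = ln X 0 := by
      simp [ln]
    rw [h4] at h3
    have h5 := congrArg Complex.im h3
    rw [Complex.conj_im] at h5
    linarith
  linarith

end Quad

theorem Hf_im_neg {p r : ℝ} (hr : 0 < r) (hpr : r < p) {V : ℂ} (hV : V ∈ UP)
    (hre : V.re ≤ -(p - r) / 3) : (Hf p r V).im < 0 := by
  have hp : 0 < p := hr.trans hpr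
  have hY : 0 < V.im := hV
  have hVe : V = Quad.ln V.re V.im := by
    apply Complex.ext
    · rw [Quad.ln_re]
    · rw [Quad.ln_im]
  rw [hVe]
  generalize V.re = X at *
  generalize V.im = Y0 at *
  have hX : X < 0 := by linarith
  have hB : 3 * X + p - r ≤ 0 := by linarith
  rcases le_or_gt (-p) X with hXp | hXp
  · refine Quad.neg_up hp hr hY fun Y hY1 => ?_
    have hY0 : 0 < Y := lt_trans hY hY1
    have hYY : 0 < Y ^ 2 := by positivity
    rcases hXp.lt_or_eq with h | h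
    · have h1 : 0 < X * (X + p) * (X - r) :=
        mul_pos_of_neg_of_neg (mul_neg_of_neg_of_pos hX (by linarith)) (by linarith)
      nlinarith
    · have h1 : X * (X + p) * (X - r) = 0 := by
        rw [← h]
        ring
      have h2 : 3 * X + p - r < 0 := by linarith
      rw [h1]
      nlinarith
  · have h2 : 3 * X + p - r < 0 := by linarith
    rcases le_or_gt 0 (X * (X + p) * (X - r) - Y0 ^ 2 * (3 * X + p - r)) with h | h
    · refine Quad.neg_up hp hr hY fun Y hY1 => ?_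
      have h3 : Y0 ^ 2 < Y ^ 2 := by nlinarith
      nlinarith
    · refine Quad.neg_down hp hr hXp hY fun Y hY1 hY2 => ?_
      have h3 : Y ^ 2 < Y0 ^ 2 := by nlinarith
      nlinarith

/-- the contraction of the imaginary part -/
theorem Hf_im_sum {p r : ℝ} (hr : 0 < r) (hpr : r < p) {V : ℂ} (hV : V ∈ UP) :
    (Hf p r V).im + (Hf p r (-(starRingEnd ℂ) V - (p - r))).im < (p - r) * π := by
  have hp : 0 < p := hr.trans hpr
  have h0 : 0 < V.im := hV
  have hW : 0 < (-(starRingEnd ℂ) V - ((p : ℂ) - r)).im := by simpa using h0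
  rw [Quad.im_eq p r h0, Quad.im_eq p r hW]
  have i1 : 0 < (V + (p : ℂ)).im := by simpa using h0
  have i2 : 0 < (V - (r : ℂ)).im := by simpa using h0
  have i3 : 0 < (V + ((p - r : ℝ) : ℂ)).im := by
    rw [Complex.add_im, Complex.ofReal_im, add_zero]
    exact h0
  have e1 : -(starRingEnd ℂ) V - ((p : ℂ) - r) - r = -(starRingEnd ℂ) (V + (p : ℂ)) := by
    rw [map_add, Complex.conj_ofReal]
    ring
  have e2 : -(starRingEnd ℂ) V - ((p : ℂ) - r) + p = -(starRingEnd ℂ) (V - (r : ℂ)) := by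
    rw [map_sub, Complex.conj_ofReal]
    ring
  have e3 : -(starRingEnd ℂ) V - ((p : ℂ) - r) =
      -(starRingEnd ℂ) (V + ((p - r : ℝ) : ℂ)) := by
    rw [map_add, Complex.conj_ofReal]
    push_cast
    ring
  rw [e1, e2, e3, Quad.arg_neg_conj i1, Quad.arg_neg_conj i2, Quad.arg_neg_conj i3]
  have a1 := Quad.arg_pos i1
  have a2 := Quad.arg_lt i2
  have a3 : arg (V + ((p - r : ℝ) : ℂ)) < arg V := Quad.arg_anti h0 (sub_pos.2 hpr)
  nlinarith [mul_pos (sub_pos.2 hpr) a1, mul_pos (sub_pos.2 hpr) (sub_pos.2 a2),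
    mul_pos (add_pos hp hr) (sub_pos.2 a3)]

end Pool.Agent.MP_ae5b4e_an_MET
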