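import Mathlib
import Pool.Agent.Lib.MP_ae5b4e_an_MET.Defs
import Pool.Agent.Lib.MP_ae5b4e_an_MET.Quad
import Pool.Agent.Lib.MP_ae5b4e_an_ALG.Gf
import Pool.Agent.Lib.MP_ae5b4e_an_ALG.HfA
import Pool.Agent.Lib.MP_ae5b4e_an_ALG.HfInj

/-!
# MP_ae5b4e_an, project MET: the map of the quarter plane
-/

set_option autoImplicit false
noncomputable section
namespace Pool.Agent.MP_ae5b4e_an_MET
open Filter Topology Set Metric Complex
open scoped Real
open Pool.Agent.MP_ae5b4e_an_ALG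

variable {p r c : ℝ}

namespace Theta

/-- the reflected point -/
def Wp (c : ℝ) (V : ℂ) : ℂ := -(starRingEnd ℂ) V - 2 * c

theorem Wp_im (c : ℝ) (V : ℂ) : (Wp c V).im = V.im := by
  simp [Wp]

theorem Wp_re (c : ℝ) (V : ℂ) : (Wp c V).re = -V.re - 2 * c := by
  simp [Wp]

theorem conj_Wp (c : ℝ) (V : ℂ) : (starRingEnd ℂ) (Wp c V) = -V - 2 * c := by
  simp [Wp, Complex.conj_ofNat]

theorem Wp_UP {V : ℂ} (hV : V ∈ QV c) : Wp c V ∈ UP := by
  show 0 < (Wp c V).im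
  rw [Wp_im]
  exact hV.2

theorem Wp_le (hc : p - r < 3 * c) {V : ℂ} (hV : V ∈ QV c) :
    (Wp c V).re ≤ -(p - r) / 3 := by
  rw [Wp_re]
  have := hV.1
  linarith

theorem Hf_eq (hp : 0 < p) (hr : 0 < r) {V : ℂ} (hV : V ∈ QV c) :
    Hf p r (-V - 2 * c) = (starRingEnd ℂ) (Hf p r (Wp c V)) := by
  rw [← conj_Wp, Hf_conj hp hr (UP_subset_Dm (Wp_UP hV))]

theorem spec1 (hr : 0 < r) (hpr : r < p) (hc : p - r < 3 * c) {V : ℂ} (hV : V ∈ QV c) :
    Hf p r (-V - 2 * c) ∈ Xs p r ∧ 0 < (Hf p r (-V - 2 * c)).im ∧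
      (Hf p r (-V - 2 * c)).im < r * π := by
  have hp : 0 < p := hr.trans hpr
  have h1 := Hf_im_neg hr hpr (Wp_UP hV) (Wp_le hc hV)
  have h2 := (Hf_strip hp hr (Wp_UP hV)).1
  have h3 : (Hf p r (-V - 2 * c)).im = -(Hf p r (Wp c V)).im := by
    rw [Hf_eq hp hr hV, Complex.conj_im]
  have h4 : 0 < r * π := mul_pos hr Real.pi_pos
  have h5 : r * π < p * π := mul_lt_mul_of_pos_right hpr Real.pi_pos
  refine ⟨⟨?_, ?_, ?_⟩, ?_, ?_⟩
  · rw [h3]; linarith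
  · rw [h3]; linarith
  · intro h
    rw [h3] at h
    linarith
  · rw [h3]; linarith
  · rw [h3]; linarith

end Theta

/-- the points with `0 ≤ Im H` are in the quarter plane -/
theorem Gf_QV (hr : 0 < r) (hpr : r < p) (hc : p - r < 3 * c) {z : ℂ} (hz : z ∈ Xs p r)
    (h0 : 0 ≤ z.im) : Gf p r z ∈ QV c := by
  obtain ⟨h1, h2⟩ := Gf_mem (hr.trans hpr) hr hz
  refine ⟨?_, h1⟩
  by_contra h
  have h3 : (Gf p r z).re ≤ -(p - r) / 3 := by linarith [not_lt.1 h]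
  have h4 := Hf_im_neg hr hpr h1 h3
  rw [h2] at h4
  linarith

theorem Th_spec (hr : 0 < r) (hpr : r < p) (hc : p - r < 3 * c) {V : ℂ} (hV : V ∈ QV c) :
    Hf p r (-V - 2 * c) ∈ Xs p r ∧ 0 < (Hf p r (-V - 2 * c)).im ∧
      (Hf p r (-V - 2 * c)).im < r * π ∧ Th p r c V ∈ UP ∧
      Hf p r (Th p r c V) = Hf p r (-V - 2 * c) ∧ -(p - r) / 3 < (Th p r c V).re ∧
      Th p r c V ∈ QV c := by
  obtain ⟨h1, h2, h3⟩ := Theta.spec1 hr hpr hc hV
  obtain ⟨h4, h5⟩ := Gf_mem (hr.trans hpr) hr h1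
  refine ⟨h1, h2, h3, h4, h5, ?_, Gf_QV hr hpr hc h1 h2.le⟩
  by_contra h
  have h6 := Hf_im_neg hr hpr h4 (not_lt.1 h)
  rw [h5] at h6
  linarith

theorem Th_diff (hr : 0 < r) (hpr : r < p) (hc : p - r < 3 * c) :
    DifferentiableOn ℂ (Th p r c) (QV c) := by
  have hp : 0 < p := hr.trans hpr
  have h1 : DifferentiableOn ℂ (fun V : ℂ => Hf p r (-V - 2 * c)) (QV c) := by
    intro V hV
    have h2 : (-V - 2 * c : ℂ) ∈ Dm p r := by
      left
      have h3 : (-V - 2 * c : ℂ).im = -V.im := by simp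
      rw [h3]
      exact neg_ne_zero.2 hV.2.ne'
    have h4 : DifferentiableAt ℂ (fun V : ℂ => (-V - 2 * c : ℂ)) V := by fun_prop
    exact ((Hf_deriv hp hr h2).differentiableAt.comp V h4).differentiableWithinAt
  exact (Gf_diff hp hr).comp h1 fun V hV => (Theta.spec1 hr hpr hc hV).1

theorem Th_inj (hr : 0 < r) (hpr : r < p) (hc : p - r < 3 * c) : InjOn (Th p r c) (QV c) := by
  have hp : 0 < p := hr.trans hpr
  intro V hV V' hV' h
  have h1 := (Th_spec hr hpr hc hV).2.2.2.2.1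
  have h2 := (Th_spec hr hpr hc hV').2.2.2.2.1
  rw [h] at h1
  have h3 : Hf p r (-V - 2 * c) = Hf p r (-V' - 2 * c) := h1.symm.trans h2
  rw [Theta.Hf_eq hp hr hV, Theta.Hf_eq hp hr hV'] at h3
  have h4 := congrArg (starRingEnd ℂ) h3
  rw [Complex.conj_conj, Complex.conj_conj] at h4
  have h5 := Hf_injOn hp hr (Theta.Wp_UP hV) (Theta.Wp_UP hV') h4
  have h6 := congrArg (starRingEnd ℂ) h5
  rw [Theta.conj_Wp, Theta.conj_Wp] at h6
  linear_combination -h6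

end Pool.Agent.MP_ae5b4e_an_MET
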