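import Mathlib
import Pool.Agent.Lib.MP_ae5b4e_an_MET.Defs
import Pool.Agent.Lib.MP_ae5b4e_an_MET.Quad
import Pool.Agent.Lib.MP_ae5b4e_an_MET.Theta
import Pool.Agent.Lib.MP_ae5b4e_an_MET.GHat

set_option autoImplicit false
noncomputable section
namespace Pool.Agent.MP_ae5b4e_an_MET
open Filter Topology Set Metric Complex
open scoped Real
open Pool.Agent.MP_ae5b4e_an_ALG

variable {p r : ℝ}

theorem Gh_re (hr : 0 < r) (hpr : r < p) {z : ℂ} (h0 : 0 < z.im) (h1 : z.im < 2 * p * π) :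
    -(p - r) / 3 < (Gh p r z).re := by
  have hp : 0 < p := hr.trans hpr
  obtain ⟨hN, hH, -, hlo, hmid, hhi⟩ := Gh_spec hp hr h0 h1
  rcases lt_trichotomy z.im (p * π) with h | h | h
  · obtain ⟨-, hU⟩ := hlo h
    by_contra hcon
    have h2 := Hf_im_neg hr hpr hU (not_lt.1 hcon)
    rw [← Hh_up hp hr hU, hH] at h2
    linarith
  · have him := hmid h
    rcases hN with h3 | ⟨h3, -⟩
    · exact absurd him h3
    · linarith
  · obtain ⟨hU, hE⟩ := hhi h
    by_contra hcon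
    have h2 := Hf_im_neg hr hpr hU (by rw [conj_re]; exact not_lt.1 hcon)
    rw [hE] at h2
    have h3 : ((starRingEnd ℂ) z + 2 * p * π * I).im = -z.im + 2 * p * π := by simp
    rw [h3] at h2
    linarith

namespace Step

/-- both arguments of the logarithms are in the slit plane -/
theorem slit (hr : 0 < r) (hpr : r < p) {V : ℂ}
    (hV : V.im ≠ 0 ∧ -(p - r) / 3 < V.re ∨ V.im = 0 ∧ -(p - r) < V.re ∧ V.re < r) :
    V + ((p : ℂ) - r) ≠ 0 ∧ (1 + (r : ℂ) / (V + ((p : ℂ) - r))) ∈ slitPlane ∧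
      ((p : ℂ) / (V + ((p : ℂ) - r)) - 1) ∈ slitPlane := by
  have hp : 0 < p := hr.trans hpr
  have hre : (V + ((p : ℂ) - r)).re = V.re + (p - r) := by simp
  have him : (V + ((p : ℂ) - r)).im = V.im := by simp
  have hpos : 0 < (V + ((p : ℂ) - r)).re := by
    rw [hre]
    rcases hV with ⟨-, h⟩ | ⟨-, h, -⟩ <;> linarith
  have hx0 : V + ((p : ℂ) - r) ≠ 0 := by
    intro h
    rw [h, zero_re] at hpos
    exact lt_irrefl _ hpos
  set x : ℂ := V + ((p : ℂ) - r) with hx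
  have hn : 0 < normSq x := normSq_pos.2 hx0
  refine ⟨hx0, Or.inl ?_, ?_⟩
  · rw [add_re, one_re, HfA.re_div]
    have : 0 < r * x.re / normSq x := by positivity
    linarith
  · rcases hV with ⟨h, -⟩ | ⟨h, h2, h3⟩
    · right
      rw [sub_im, HfA.im_div, him, one_im, sub_zero]
      exact neg_ne_zero.2 (div_ne_zero (mul_ne_zero hp.ne' h) hn.ne')
    · left
      have hxr : x = ((V.re + (p - r) : ℝ) : ℂ) := by
        apply Complex.ext
        · rw [hre, ofReal_re]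
        · rw [him, h, ofReal_im]
      rw [hxr, ← ofReal_div, ← ofReal_one, ← ofReal_sub, ofReal_re]
      have h4 : 0 < V.re + (p - r) := by linarith
      have h5 : 1 < p / (V.re + (p - r)) := (one_lt_div h4).2 (by linarith)
      linarith

theorem slit' (hr : 0 < r) (hpr : r < p) {V : ℂ} (hV : V ∈ Nn r) (hre : -(p - r) / 3 < V.re) :
    V + ((p : ℂ) - r) ≠ 0 ∧ (1 + (r : ℂ) / (V + ((p : ℂ) - r))) ∈ slitPlane ∧
      ((p : ℂ) / (V + ((p : ℂ) - r)) - 1) ∈ slitPlane := by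
  apply slit hr hpr
  by_cases h : V.im = 0
  · right
    rcases hV with h1 | ⟨h1, h2⟩
    · exact absurd h h1
    · exact ⟨h, by linarith, h2⟩
  · exact Or.inl ⟨h, hre⟩

theorem ana {V : ℂ} (h : V + ((p : ℂ) - r) ≠ 0 ∧ (1 + (r : ℂ) / (V + ((p : ℂ) - r))) ∈ slitPlane ∧
      ((p : ℂ) / (V + ((p : ℂ) - r)) - 1) ∈ slitPlane) : AnalyticAt ℂ (Hc p r) V := by
  obtain ⟨h0, h1, h2⟩ := h
  have a0 : AnalyticAt ℂ (fun V : ℂ => V + ((p : ℂ) - r)) V := analyticAt_id.add analyticAt_const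
  have a1 : AnalyticAt ℂ (fun V : ℂ => 1 + (r : ℂ) / (V + ((p : ℂ) - r))) V :=
    analyticAt_const.add (analyticAt_const.div a0 h0)
  have a2 : AnalyticAt ℂ (fun V : ℂ => (p : ℂ) / (V + ((p : ℂ) - r)) - 1) V :=
    (analyticAt_const.div a0 h0).sub analyticAt_const
  exact (analyticAt_const.mul (a1.clog h1)).add
    (analyticAt_const.mul ((a2.clog h2).add analyticAt_const))

theorem log_neg_of_im_neg {w : ℂ} (h : w.im < 0) : log (-w) = log w + π * I := by
  apply Complex.ext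
  · simp [log_re]
  · rw [log_im, arg_neg_eq_arg_add_pi_of_im_neg h, add_im, log_im]
    simp

theorem log_neg_of_im_pos {w : ℂ} (h : 0 < w.im) : log (-w) = log w - π * I := by
  apply Complex.ext
  · simp [log_re]
  · rw [log_im, arg_neg_eq_arg_sub_pi_of_im_pos h, sub_im, log_im]
    simp

theorem low (hp : 0 < p) {V : ℂ} (hV : V.im < 0) :
    Hc p r V = Hf p r (-V - (p - r)) + 2 * π * r * I := by
  have him : (V + ((p : ℂ) - r)).im = V.im := by simp
  have hx0 : V + ((p : ℂ) - r) ≠ 0 := by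
    intro h
    rw [h, zero_im] at him
    exact hV.ne him.symm
  have hn : 0 < normSq (V + ((p : ℂ) - r)) := normSq_pos.2 hx0
  have hw : 0 < ((p : ℂ) / (V + ((p : ℂ) - r)) - 1).im := by
    rw [sub_im, HfA.im_div, him, one_im, sub_zero, neg_pos]
    exact div_neg_of_neg_of_pos (mul_neg_of_pos_of_neg hp hV) hn
  have hl := log_neg_of_im_pos hw
  have e1 : (-V - ((p : ℂ) - r)) = -(V + ((p : ℂ) - r)) := by ring
  have e2 : 1 - (r : ℂ) / -(V + ((p : ℂ) - r)) = 1 + (r : ℂ) / (V + ((p : ℂ) - r)) := by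
    rw [div_neg]; ring
  have e3 : 1 + (p : ℂ) / -(V + ((p : ℂ) - r)) = -((p : ℂ) / (V + ((p : ℂ) - r)) - 1) := by
    rw [div_neg]; ring
  unfold Hc Hf
  rw [e1, e2, e3, hl]
  ring

theorem re_Hc (V : ℂ) : (Hc p r V).re = p * Real.log ‖1 + (r : ℂ) / (V + ((p : ℂ) - r))‖ +
    r * Real.log ‖(p : ℂ) / (V + ((p : ℂ) - r)) - 1‖ := by
  unfold Hc
  rw [add_re, re_ofReal_mul, re_ofReal_mul, add_re, log_re, log_re]
  simp

theorem re_Hh (V : ℂ) : (Hh p r V).re = p * Real.log ‖(r : ℂ) / V - 1‖ +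
    r * Real.log ‖1 + (p : ℂ) / V‖ := by
  unfold Hh
  rw [add_re, re_ofReal_mul, re_ofReal_mul, add_re, log_re, log_re]
  simp

end Step

theorem Hc_ana (hr : 0 < r) (hpr : r < p) {V : ℂ} (hV : V ∈ Nn r)
    (hre : -(p - r) / 3 < V.re) : AnalyticAt ℂ (Hc p r) V :=
  Step.ana (Step.slit' hr hpr hV hre)

theorem Hc_up (hr : 0 < r) (hpr : r < p) {V : ℂ} (hV : V ∈ UP) (hre : -(p - r) / 3 < V.re) :
    Hc p r V = Hf p r (-V - (p - r)) := by
  have hp : 0 < p := hr.trans hpr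
  have hV' : 0 < V.im := hV
  have him : (V + ((p : ℂ) - r)).im = V.im := by simp
  obtain ⟨hx0, -, -⟩ := Step.slit hr hpr (V := V) (Or.inl ⟨hV'.ne', hre⟩)
  have hn : 0 < normSq (V + ((p : ℂ) - r)) := normSq_pos.2 hx0
  have hw : ((p : ℂ) / (V + ((p : ℂ) - r)) - 1).im < 0 := by
    rw [sub_im, HfA.im_div, him, one_im, sub_zero, neg_lt_zero]
    positivity
  have hl := Step.log_neg_of_im_neg hw
  have e1 : (-V - ((p : ℂ) - r)) = -(V + ((p : ℂ) - r)) := by ring
  have e2 : 1 - (r : ℂ) / -(V + ((p : ℂ) - r)) = 1 + (r : ℂ) / (V + ((p : ℂ) - r)) := by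
    rw [div_neg]; ring
  have e3 : 1 + (p : ℂ) / -(V + ((p : ℂ) - r)) = -((p : ℂ) / (V + ((p : ℂ) - r)) - 1) := by
    rw [div_neg]; ring
  unfold Hc Hf
  rw [e1, e2, e3, hl]

theorem Hc_real (hr : 0 < r) (hpr : r < p) {x : ℝ} (h0 : -(p - r) < x) (h1 : x < r) :
    AnalyticAt ℂ (Hc p r) x ∧ (Hc p r x).im = r * π := by
  have hp : 0 < p := hr.trans hpr
  refine ⟨Step.ana (Step.slit hr hpr (V := (x : ℂ)) (Or.inr ⟨ofReal_im x, ?_, ?_⟩)), ?_⟩
  · rwa [ofReal_re]
  · rwa [ofReal_re]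
  · have h2 : 0 < x + (p - r) := by linarith
    have e1 : (1 + (r : ℂ) / ((x : ℂ) + ((p : ℂ) - r))) = ((1 + r / (x + (p - r)) : ℝ) : ℂ) := by
      push_cast; ring
    have e2 : ((p : ℂ) / ((x : ℂ) + ((p : ℂ) - r)) - 1) = ((p / (x + (p - r)) - 1 : ℝ) : ℂ) := by
      push_cast; ring
    have h3 : 0 ≤ 1 + r / (x + (p - r)) := by positivity
    have h4 : 0 ≤ p / (x + (p - r)) - 1 := by
      have h5 : 1 < p / (x + (p - r)) := (one_lt_div h2).2 (by linarith)
      linarith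
    unfold Hc
    rw [e1, e2, add_im, im_ofReal_mul, im_ofReal_mul, add_im, log_im, log_im,
      arg_ofReal_of_nonneg h3, arg_ofReal_of_nonneg h4]
    simp

theorem H1_spec (hr : 0 < r) (hpr : r < p) {z : ℂ} (h0 : 0 < z.im)
    (h1 : z.im < (3 * p + r) / 2 * π) :
    AnalyticAt ℂ (H1 p r) z ∧ 0 < (H1 p r z).im ∧
      ((H1 p r z).im < p * π ∨ (H1 p r z).im < z.im - (p - r) * π) ∧
      (z.im < p * π → (H1 p r z).im < r * π ∧ Gf p r z ∈ QV ((p - r) / 2) ∧
        Gf p r (H1 p r z) = Th p r ((p - r) / 2) (Gf p r z)) := by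
  have hp : 0 < p := hr.trans hpr
  have hpi := Real.pi_pos
  have hrp : 0 < r * π := mul_pos hr hpi
  have hrpp : r * π < p * π := mul_lt_mul_of_pos_right hpr hpi
  have h2 : z.im < 2 * p * π := h1.trans (mul_lt_mul_of_pos_right (by linarith) hpi)
  obtain ⟨hN, hH, hd, hlo, hmid, hhi⟩ := Gh_spec hp hr h0 h2
  have hre := Gh_re hr hpr h0 h2
  have hcc : p - r < 3 * ((p - r) / 2) := by linarith
  refine ⟨?_, ?_⟩
  · -- analyticity
    have hG : AnalyticAt ℂ (Gh p r) z := by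
      rw [analyticAt_iff_eventually_differentiableAt]
      have o1 : IsOpen {w : ℂ | 0 < w.im} := isOpen_lt continuous_const continuous_im
      have o2 : IsOpen {w : ℂ | w.im < 2 * p * π} := isOpen_lt continuous_im continuous_const
      filter_upwards [o1.mem_nhds h0, o2.mem_nhds h2] with w hw1 hw2
      exact (Gh_spec hp hr hw1 hw2).2.2.1
    exact (Hc_ana hr hpr hN hre).comp hG
  · rcases lt_trichotomy z.im (p * π) with h | h | h
    · obtain ⟨hGG, hU⟩ := hlo h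
      have hX : z ∈ Xs p r := ⟨by linarith, h, fun h' => absurd h' h0.ne'⟩
      have hQ := Gf_QV hr hpr hcc hX h0.le
      have hE : H1 p r z = Hf p r (-(Gf p r z) - 2 * (((p - r) / 2 : ℝ) : ℂ)) := by
        unfold H1
        rw [Hc_up hr hpr hU hre, hGG]
        congr 1
        push_cast
        ring
      obtain ⟨-, t2, t3, -, -, -, -⟩ := Th_spec hr hpr hcc hQ
      rw [← hE] at t2 t3
      refine ⟨t2, Or.inl (t3.trans hrpp), fun _ => ⟨t3, hQ, ?_⟩⟩
      rw [hE]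
      rfl
    · have him := hmid h
      have hV : Gh p r z = (((Gh p r z).re : ℝ) : ℂ) := by
        apply Complex.ext
        · rw [ofReal_re]
        · rw [him, ofReal_im]
      have h3 : 0 < (Gh p r z).re ∧ (Gh p r z).re < r := by
        rcases hN with h4 | h4
        · exact absurd him h4
        · exact h4
      have h5 : (H1 p r z).im = r * π := by
        unfold H1
        rw [hV]
        exact (Hc_real hr hpr (by linarith [h3.1]) h3.2).2
      rw [h5]
      exact ⟨hrp, Or.inl hrpp, fun h' => absurd h' (by linarith)⟩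
    · obtain ⟨hU, hE⟩ := hhi h
      have hUi : 0 < ((starRingEnd ℂ) (Gh p r z)).im := hU
      rw [conj_im] at hUi
      have hE1 : H1 p r z = Hf p r (-(Gh p r z) - (p - r)) + 2 * π * r * I := by
        unfold H1
        exact Step.low hp (by linarith)
      have hV0 : (-(Gh p r z) - ((p : ℂ) - r)) ∈ UP := by
        change 0 < (-(Gh p r z) - ((p : ℂ) - r)).im
        simpa using hUi
      have hs := (Hf_strip hp hr hV0).1
      have hsum := Hf_im_sum hr hpr hU
      rw [conj_conj] at hsum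
      have e1 : (Hf p r ((starRingEnd ℂ) (Gh p r z))).im = -z.im + 2 * p * π := by
        rw [hE]; simp
      rw [e1] at hsum
      have e2 : (H1 p r z).im = (Hf p r (-(Gh p r z) - (p - r))).im + 2 * π * r := by
        rw [hE1]; simp
      rw [e2]
      refine ⟨by linarith, Or.inr (by nlinarith), fun h' => absurd h' (by linarith)⟩

namespace Step

theorem iter (hr : 0 < r) (hpr : r < p) (n : ℕ) (z : ℂ) (h0 : 0 < z.im)
    (h1 : z.im < (3 * p + r) / 2 * π) : AnalyticAt ℂ ((H1 p r)^[n]) z ∧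
      0 < ((H1 p r)^[n] z).im ∧ ((H1 p r)^[n] z).im < (3 * p + r) / 2 * π ∧
      (((H1 p r)^[n] z).im < p * π ∨ ((H1 p r)^[n] z).im ≤ z.im - n * ((p - r) * π)) := by
  have hpi := Real.pi_pos
  have hrpp : r * π < p * π := mul_lt_mul_of_pos_right hpr hpi
  have hpp : p * π < (3 * p + r) / 2 * π := mul_lt_mul_of_pos_right (by linarith) hpi
  have hq : 0 < (p - r) * π := mul_pos (by linarith) hpi
  induction n with
  | zero =>
    refine ⟨analyticAt_id, h0, h1, Or.inr ?_⟩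
    simp
  | succ n ih =>
    obtain ⟨i1, i2, i3, i4⟩ := ih
    obtain ⟨s1, s2, s3, s4⟩ := H1_spec hr hpr i2 i3
    have e : (H1 p r)^[n + 1] = H1 p r ∘ (H1 p r)^[n] := Function.iterate_succ' _ _
    rw [e]
    refine ⟨s1.comp i1, s2, ?_, ?_⟩
    · change (H1 p r ((H1 p r)^[n] z)).im < (3 * p + r) / 2 * π
      rcases s3 with s3 | s3 <;> linarith
    · change (H1 p r ((H1 p r)^[n] z)).im < p * π ∨
        (H1 p r ((H1 p r)^[n] z)).im ≤ z.im - ((n + 1 : ℕ) : ℝ) * ((p - r) * π)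
      rcases s3 with s3 | s3
      · exact Or.inl s3
      · rcases i4 with i4 | i4
        · exact Or.inl ((s4 i4).1.trans hrpp)
        · right
          push_cast
          linarith

end Step

/-- the iterates -/
theorem H1_iter (hr : 0 < r) (hpr : r < p) : ∃ K : ℕ, ∀ n : ℕ, K ≤ n → ∀ z : ℂ, 0 < z.im →
    z.im < (3 * p + r) / 2 * π → AnalyticAt ℂ ((H1 p r)^[n]) z ∧ 0 < ((H1 p r)^[n] z).im ∧
      ((H1 p r)^[n] z).im < p * π := by
  have hpi := Real.pi_pos
  have hq : 0 < (p - r) * π := mul_pos (by linarith) hpi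
  obtain ⟨K, hK⟩ := exists_nat_gt (((3 * p + r) / 2 * π) / ((p - r) * π))
  refine ⟨K, fun n hn z h0 h1 => ?_⟩
  obtain ⟨i1, i2, i3, i4⟩ := Step.iter hr hpr n z h0 h1
  refine ⟨i1, i2, ?_⟩
  rcases i4 with i4 | i4
  · exact i4
  · exfalso
    rw [div_lt_iff₀ hq] at hK
    have h3 : (K : ℝ) * ((p - r) * π) ≤ n * ((p - r) * π) :=
      mul_le_mul_of_nonneg_right (by exact_mod_cast hn) hq.le
    linarith

namespace Step

theorem lower (hr : 0 < r) (hpr : r < p) {V : ℂ} (hre : -(p - r) / 3 < V.re) (h0 : V ≠ 0) :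
    (p - (p - r) / 3) / (2 * p) ≤ ‖1 + (p : ℂ) / V‖ := by
  have hp : 0 < p := hr.trans hpr
  have hn : 0 < ‖V‖ := norm_pos_iff.2 h0
  have ha : 0 < p - (p - r) / 3 := by linarith
  rcases le_total ‖V‖ (2 * p) with h | h
  · have e : (1 + (p : ℂ) / V) = (V + p) / V := by field_simp
    rw [e, norm_div, div_le_div_iff₀ (by positivity) hn]
    have h1 : p - (p - r) / 3 ≤ ‖V + (p : ℂ)‖ := by
      refine le_trans ?_ (re_le_norm _)
      rw [add_re, ofReal_re]
      linarith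
    have h2 : (p - (p - r) / 3) * ‖V‖ ≤ (p - (p - r) / 3) * (2 * p) :=
      mul_le_mul_of_nonneg_left h ha.le
    have h3 : (p - (p - r) / 3) * (2 * p) ≤ ‖V + (p : ℂ)‖ * (2 * p) :=
      mul_le_mul_of_nonneg_right h1 (by positivity)
    linarith
  · have h1 : (p - (p - r) / 3) / (2 * p) ≤ 1 / 2 := by
      rw [div_le_div_iff₀ (by positivity) (by norm_num)]
      linarith
    have h2 : ‖(p : ℂ) / V‖ ≤ 1 / 2 := by
      rw [norm_div, norm_real, Real.norm_of_nonneg hp.le, div_le_div_iff₀ hn (by norm_num)]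
      linarith
    have h3 : ‖(1 : ℂ)‖ - ‖(p : ℂ) / V‖ ≤ ‖1 + (p : ℂ) / V‖ := by
      have := norm_sub_norm_le (1 : ℂ) (-((p : ℂ) / V))
      rwa [norm_neg, sub_neg_eq_add] at this
    rw [norm_one] at h3
    linarith

end Step

/-- the left end of the strip -/
theorem H1_bot (hr : 0 < r) (hpr : r < p) {ι : Type*} {l : Filter ι} {z : ι → ℂ}
    (h0 : ∀ᶠ i in l, 0 < (z i).im ∧ (z i).im < (3 * p + r) / 2 * π)
    (h : Tendsto (fun i => (z i).re) l atBot) :
    Tendsto (fun i => (H1 p r (z i)).re) l atBot := by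
  have hp : 0 < p := hr.trans hpr
  have hpi := Real.pi_pos
  have hr0 : (r : ℂ) ≠ 0 := ofReal_ne_zero.2 hr.ne'
  have hp0 : (p : ℂ) ≠ 0 := ofReal_ne_zero.2 hp.ne'
  set m : ℝ := (p - (p - r) / 3) / (2 * p) with hm
  have hm0 : 0 < m := div_pos (by linarith) (by positivity)
  -- properties of `Gh (z i)`
  have hV : ∀ᶠ i in l, Gh p r (z i) ∈ Nn r ∧ Hh p r (Gh p r (z i)) = z i ∧
      -(p - r) / 3 < (Gh p r (z i)).re := by
    filter_upwards [h0] with i hi
    have h2 : (z i).im < 2 * p * π := hi.2.trans (mul_lt_mul_of_pos_right (by linarith) hpi)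
    obtain ⟨hN, hH, -⟩ := Gh_spec hp hr hi.1 h2
    exact ⟨hN, hH, Gh_re hr hpr hi.1 h2⟩
  have hne : ∀ V : ℂ, V ∈ Nn r → V ≠ 0 := by
    rintro V (h1 | ⟨h1, -⟩) rfl
    · exact h1 zero_im
    · rw [zero_re] at h1; exact lt_irrefl _ h1
  have hne' : ∀ V : ℂ, V ∈ Nn r → (r : ℂ) / V - 1 ≠ 0 := by
    intro V hV h1
    have h2 := hne V hV
    have h3 : V = r := by
      field_simp at h1
      linear_combination -h1
    rcases hV with h4 | ⟨-, h4⟩
    · rw [h3, ofReal_im] at h4; exact h4 rfl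
    · rw [h3, ofReal_re] at h4; exact lt_irrefl _ h4
  -- the logarithm tends to `-∞`
  have hlog : Tendsto (fun i => Real.log ‖(r : ℂ) / Gh p r (z i) - 1‖) l atBot := by
    have h1 : Tendsto (fun i => ((z i).re - r * Real.log m) / p) l atBot :=
      (tendsto_atBot_add_const_right l (-(r * Real.log m)) h).atBot_div_const hp
    refine tendsto_atBot_mono' l ?_ h1
    filter_upwards [hV] with i hi
    obtain ⟨hN, hH, hre⟩ := hi
    have h2 : (z i).re = p * Real.log ‖(r : ℂ) / Gh p r (z i) - 1‖ +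
        r * Real.log ‖1 + (p : ℂ) / Gh p r (z i)‖ := by
      rw [← Step.re_Hh, hH]
    have h3 : Real.log m ≤ Real.log ‖1 + (p : ℂ) / Gh p r (z i)‖ :=
      Real.log_le_log hm0 (Step.lower hr hpr hre (hne _ hN))
    rw [le_div_iff₀ hp, h2]
    nlinarith
  have hnorm : Tendsto (fun i => ‖(r : ℂ) / Gh p r (z i) - 1‖) l (𝓝 0) := by
    have h1 := Real.tendsto_exp_atBot.comp hlog
    refine h1.congr' ?_
    filter_upwards [hV] with i hi
    exact Real.exp_log (norm_pos_iff.2 (hne' _ hi.1))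
  have hquot : Tendsto (fun i => (r : ℂ) / Gh p r (z i)) l (𝓝 1) := by
    rw [tendsto_iff_norm_sub_tendsto_zero]
    exact hnorm
  have hVr : Tendsto (fun i => Gh p r (z i)) l (𝓝 (r : ℂ)) := by
    have h1 : Tendsto (fun i => (r : ℂ) / ((r : ℂ) / Gh p r (z i))) l (𝓝 ((r : ℂ) / 1)) :=
      tendsto_const_nhds.div hquot one_ne_zero
    rw [div_one] at h1
    refine h1.congr' ?_
    filter_upwards [hV] with i hi
    have h2 := hne _ hi.1
    field_simp
  have hx : Tendsto (fun i => Gh p r (z i) + ((p : ℂ) - r)) l (𝓝 (p : ℂ)) := by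
    have h1 := hVr.add_const ((p : ℂ) - r)
    simpa using h1
  -- the two parts
  have hA : Tendsto (fun i => Real.log ‖1 + (r : ℂ) / (Gh p r (z i) + ((p : ℂ) - r))‖) l
      (𝓝 (Real.log ‖1 + (r : ℂ) / (p : ℂ)‖)) := by
    have h1 : Tendsto (fun i => ‖1 + (r : ℂ) / (Gh p r (z i) + ((p : ℂ) - r))‖) l
        (𝓝 ‖1 + (r : ℂ) / (p : ℂ)‖) :=
      (tendsto_const_nhds.add (tendsto_const_nhds.div hx hp0)).norm
    refine (Real.continuousAt_log ?_).tendsto.comp h1
    rw [← ofReal_div, ← ofReal_one, ← ofReal_add, norm_real]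
    have : 0 < 1 + r / p := by positivity
    exact (norm_pos_iff.2 this.ne').ne'
  have hB : Tendsto (fun i => Real.log ‖(p : ℂ) / (Gh p r (z i) + ((p : ℂ) - r)) - 1‖) l
      atBot := by
    refine Real.tendsto_log_nhdsNE_zero.comp (tendsto_nhdsWithin_iff.2 ⟨?_, ?_⟩)
    · have h1 : Tendsto (fun i => ‖(p : ℂ) / (Gh p r (z i) + ((p : ℂ) - r)) - 1‖) l
          (𝓝 ‖(p : ℂ) / (p : ℂ) - 1‖) :=
        ((tendsto_const_nhds.div hx hp0).sub tendsto_const_nhds).norm
      rwa [div_self hp0, sub_self, norm_zero] at h1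
    · filter_upwards [hV] with i hi
      obtain ⟨hN, -, hre⟩ := hi
      have h2 := (Step.slit' hr hpr hN hre).2.2
      exact norm_ne_zero_iff.2 (slitPlane_ne_zero h2)
  have hsum := (hA.const_mul p).add_atBot (hB.const_mul_atBot hr)
  refine hsum.congr fun i => ?_
  unfold H1
  rw [Step.re_Hc]

end Pool.Agent.MP_ae5b4e_an_MET
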