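import Mathlib
import Pool.Agent.Lib.MP_ae5b4e_an_MET.Defs
import Pool.Agent.Lib.MP_ae5b4e_an_MET.Theta
import Pool.Agent.Lib.MP_ae5b4e_an_ALG.Bdry
import Pool.Agent.Lib.MP_ae5b4e_an_ALG.BdryB
import Pool.Agent.Lib.MP_ae5b4e_an_ALG.Side
import Pool.Agent.Lib.MP_ae5b4e_an_ALG.Dyn
import Pool.Agent.Lib.MP_ae5b4e_an_ALG.RealPos

/-!
# MP_ae5b4e_an, project MET, module A11: the time function on the real axis
-/

set_option autoImplicit false
noncomputable section
namespace Pool.Agent.MP_ae5b4e_an_MET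
open Filter Topology Set Metric Complex
open scoped Real
open Pool.Agent.MP_ae5b4e_an_ALG

namespace TReal

theorem no_fix_poly {p r c y : ℝ} (hr : 0 < r) (hc : p - r < 3 * c) (hc0 : 0 < c)
    (hc2 : c * (p - c) ≤ (3 * c + r - p) * (c + r)) (hy : r < y) :
    y * (y + p) * (y - r) < (y + 2 * c) * (y + 2 * c - p) * (y + 2 * c + r) := by
  have h1 : (y + 2 * c) * (y + 2 * c - p) * (y + 2 * c + r) - y * (y + p) * (y - r) =
      2 * ((3 * c + r - p) * (y + c) ^ 2 - c * (p - c) * (c + r)) := by ring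
  have h2 : (c + r) ^ 2 < (y + c) ^ 2 := by
    apply pow_lt_pow_left₀ (by linarith) (by linarith) (by norm_num)
  have h3 : 0 < 3 * c + r - p := by linarith
  have h4 := mul_lt_mul_of_pos_left h2 h3
  have h5 := mul_le_mul_of_nonneg_right hc2 (show (0 : ℝ) ≤ c + r by linarith)
  have h6 : (3 * c + r - p) * (c + r) * (c + r) = (3 * c + r - p) * (c + r) ^ 2 := by ring
  linarith

theorem hasDerivF {p r c y : ℝ} (hr : 0 < r) (hpr : r < p) (hc0 : 0 < c) (hc3 : p ≤ 2 * c + r)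
    (hy : r < y) :
    HasDerivAt (fun y : ℝ => (Hb p r y).re - (Hb p r ((-y - 2 * c : ℝ) : ℂ)).re)
      (p * r * (p + r) / (y * (y + p) * (y - r)) -
        p * r * (p + r) / ((y + 2 * c) * (y + 2 * c - p) * (y + 2 * c + r))) y := by
  have h1 := Bdry.hasDeriv p r (x := y) (by linarith) (by linarith) (by linarith)
  have h2 := Bdry.hasDeriv p r (x := -y - 2 * c) (by linarith) (by linarith) (by linarith)
  have h3 : HasDerivAt (fun y : ℝ => -y - 2 * c) (-1) y := by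
    simpa using (hasDerivAt_id y).neg.sub_const (2 * c)
  have h4 := h2.comp y h3
  have h5 := h1.sub h4
  refine h5.congr_deriv ?_
  have e1 : (-y - 2 * c) * (-y - 2 * c + p) * (-y - 2 * c - r) =
      -((y + 2 * c) * (y + 2 * c - p) * (y + 2 * c + r)) := by ring
  rw [e1, div_neg]
  ring

end TReal

/-- there are no fixed points on the real axis -/
theorem no_fix {p r c : ℝ} (hr : 0 < r) (hpr : r < p) (hc : p - r < 3 * c) (hc0 : 0 < c)
    (hcp : c < p) (hc2 : c * (p - c) ≤ (3 * c + r - p) * (c + r)) (hc3 : p ≤ 2 * c + r) {y : ℝ}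
    (hy : r < y) : (Hb p r y).re < (Hb p r ((-y - 2 * c : ℝ) : ℂ)).re := by
  have hp : 0 < p := hr.trans hpr
  set F : ℝ → ℝ := fun y : ℝ => (Hb p r y).re - (Hb p r ((-y - 2 * c : ℝ) : ℂ)).re with hF
  have hmono : StrictMonoOn F (Ioi r) := by
    apply strictMonoOn_of_deriv_pos (convex_Ioi _)
    · intro x hx
      exact (TReal.hasDerivF hr hpr hc0 hc3 hx).continuousAt.continuousWithinAt
    · intro x hx
      rw [interior_Ioi] at hx
      have hx' : r < x := hx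
      rw [(TReal.hasDerivF hr hpr hc0 hc3 hx').deriv, sub_pos]
      have h1 : 0 < x * (x + p) * (x - r) :=
        mul_pos (mul_pos (by linarith) (by linarith)) (by linarith)
      exact div_lt_div_of_pos_left (by positivity) h1 (TReal.no_fix_poly hr hc hc0 hc2 hx')
  have hlim : Tendsto F atTop (𝓝 0) := by
    have h1 : Tendsto (fun x : ℝ => (Hb p r x).re) atTop (𝓝 0) :=
      BdryB.real_inf tendsto_abs_atTop_atTop
    have h2 : Tendsto (fun x : ℝ => -x - 2 * c) atTop atBot := by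
      have := tendsto_atBot_add_const_right atTop (-(2 * c)) tendsto_neg_atTop_atBot
      simpa [sub_eq_add_neg] using this
    have h3 : Tendsto (fun x : ℝ => (Hb p r x).re) atBot (𝓝 0) :=
      BdryB.real_inf tendsto_abs_atBot_atTop
    have h4 := h1.sub (h3.comp h2)
    rw [sub_zero] at h4
    exact h4
  have h1 : F y < F (y + 1) := hmono hy (show r < y + 1 by linarith) (by linarith)
  have h2 : F (y + 1) ≤ 0 := by
    refine ge_of_tendsto hlim ?_
    filter_upwards [eventually_ge_atTop (y + 1)] with z hz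
    exact hmono.monotoneOn (show r < y + 1 by linarith) (show r < z by linarith) hz
  have h3 : F y < 0 := h1.trans_le h2
  simp only [hF] at h3
  linarith

namespace TReal

/-- the orbit of a real point -/
theorem orbit {p r c : ℝ} (hr : 0 < r) (hpr : r < p) (hc0 : 0 < c)
    (hG : ∀ y : ℝ, r < y → (Hb p r y).re < (Hb p r ((-y - 2 * c : ℝ) : ℂ)).re) {y : ℝ}
    (hy : p - 2 * c < y) :
    ∃ u : ℕ → ℝ, u 0 = y ∧ (∀ n, p - 2 * c < u n) ∧
      (∀ n, r < u (n + 1) ∧ Hb p r (u (n + 1)) = Hb p r ((-u n - 2 * c : ℝ) : ℂ)) ∧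
      Tendsto u atTop atTop := by
  have hp : 0 < p := hr.trans hpr
  have hex : ∀ y : ℝ, ∃ x : ℝ, p - 2 * c < y →
      (r < x ∧ p - 2 * c < x ∧ (r < y → y < x) ∧ Hb p r x = Hb p r ((-y - 2 * c : ℝ) : ℂ)) := by
    intro y
    by_cases h : p - 2 * c < y
    · obtain ⟨h1, h2⟩ := Hb_I14 hp hr (x := -y - 2 * c) (Or.inl (by linarith))
      obtain ⟨x, hx, hx'⟩ := Hb_surj4 hp hr h1 h2
      have h3 : r < y → y < x := by
        intro h4
        have h5 := hG y h4
        rw [← hx'] at h5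
        exact ((Hb_mono4 hp hr).lt_iff_lt h4 hx).1 h5
      refine ⟨x, fun _ => ⟨hx, ?_, h3, hx'⟩⟩
      rcases lt_or_ge r y with h4 | h4
      · exact h.trans (h3 h4)
      · linarith
    · exact ⟨0, fun h' => absurd h' h⟩
  choose f hf using hex
  set u : ℕ → ℝ := fun n => f^[n] y with hu
  have us : ∀ n, u (n + 1) = f (u n) := fun n => Function.iterate_succ_apply' f n y
  have hdom : ∀ n, p - 2 * c < u n := by
    intro n
    induction n with
    | zero => exact hy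
    | succ n ih =>
      rw [us]
      exact (hf (u n) ih).2.1
  have hstep : ∀ n, r < u (n + 1) ∧ Hb p r (u (n + 1)) = Hb p r ((-u n - 2 * c : ℝ) : ℂ) := by
    intro n
    rw [us]
    exact ⟨(hf (u n) (hdom n)).1, (hf (u n) (hdom n)).2.2.2⟩
  have hre : ∀ n, Dyn.Gr p r (u (n + 1)) = Dyn.Gr p r (-u n - 2 * c) := by
    intro n
    rw [← Dyn.Hb_re_eq, ← Dyn.Hb_re_eq, (hstep n).2]
  have hinc : ∀ n, u (n + 1) < u (n + 2) := by
    intro n
    rw [us (n + 1)]
    exact (hf (u (n + 1)) (hdom (n + 1))).2.2.1 (hstep n).1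
  refine ⟨u, rfl, hdom, hstep, ?_⟩
  have hmono : Monotone (fun n => u (n + 1)) := monotone_nat_of_le_succ fun n => (hinc n).le
  rw [← tendsto_add_atTop_iff_nat 1]
  rcases tendsto_atTop_of_monotone hmono with h | ⟨L, hL⟩
  · exact h
  · exfalso
    have hL1 : r < L := lt_of_lt_of_le (hstep 0).1 (hmono.ge_of_tendsto hL 0)
    have hL0 : p - 2 * c < L := lt_of_lt_of_le (hdom 1) (hmono.ge_of_tendsto hL 0)
    have hL2 : Tendsto (fun n => u (n + 1 + 1)) atTop (𝓝 L) :=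
      (tendsto_add_atTop_iff_nat 1).2 hL
    have t1 : Tendsto (fun n => Dyn.Gr p r (u (n + 1 + 1))) atTop (𝓝 (Dyn.Gr p r L)) :=
      (Dyn.Gr_cont (by linarith) (by linarith) (by linarith)).tendsto.comp hL2
    have t2 : Tendsto (fun n => Dyn.Gr p r (-u (n + 1) - 2 * c)) atTop
        (𝓝 (Dyn.Gr p r (-L - 2 * c))) :=
      (Dyn.Gr_cont (by linarith) (by linarith) (by linarith)).tendsto.comp
        (hL.neg.sub_const (2 * c))
    have t3 : Tendsto (fun n => Dyn.Gr p r (u (n + 1 + 1))) atTop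
        (𝓝 (Dyn.Gr p r (-L - 2 * c))) := t2.congr fun n => (hre (n + 1)).symm
    have h1 := hG L hL1
    rw [Dyn.Hb_re_eq, Dyn.Hb_re_eq] at h1
    exact absurd (tendsto_nhds_unique t1 t3) h1.ne

/-- the conclusion of `T_real` at the point `y` -/
def Good (T : ℂ → ℂ) (y : ℝ) : Prop :=
  ∃ Tr : ℂ → ℂ, AnalyticAt ℂ Tr y ∧ (∀ᶠ v in 𝓝[UP] (y : ℂ), T v = Tr v) ∧
    (∀ᶠ v in 𝓝 (y : ℂ), Tr ((starRingEnd ℂ) v) = (starRingEnd ℂ) (Tr v)) ∧
    ∃ m : ℝ, 0 < m ∧ deriv Tr y = m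

theorem good_far {p r c D R R' : ℝ} {S T : ℂ → ℂ} (hc0 : 0 < c) (hD : 0 < D)
    (hS : SD p r c D S R) (hT : TF p r c S T R') {y : ℝ} (hy : max R R' < y) : Good T y := by
  have hy1 : R < y := (le_max_left _ _).trans_lt hy
  have hy2 : R' < y := (le_max_right _ _).trans_lt hy
  have hy0 : 0 < y := hS.R_pos.trans hy1
  have hyn : ‖(y : ℂ)‖ = y := by rw [Complex.norm_real, Real.norm_of_nonneg hy0.le]
  have ho : IsOpen {t : ℂ | R < ‖t‖} := isOpen_lt continuous_const continuous_norm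
  have hym : (y : ℂ) ∈ {t : ℂ | R < ‖t‖} := by show R < ‖(y : ℂ)‖; rw [hyn]; exact hy1
  have hreal : ∀ᶠ t in 𝓝 (y : ℂ), S ((starRingEnd ℂ) t) = (starRingEnd ℂ) (S t) := by
    filter_upwards [ho.mem_nhds hym] with t ht
    exact hS.real t ht
  refine ⟨S, ?_, ?_, hreal, ?_⟩
  · have h1 : DifferentiableOn ℂ S {t : ℂ | R < ‖t‖} := fun t ht =>
      (hS.diff t ht).differentiableWithinAt
    exact h1.analyticAt (ho.mem_nhds hym)
  · have h1 : ∀ᶠ t in 𝓝 (y : ℂ), R' < ‖t‖ := by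
      refine (isOpen_lt continuous_const continuous_norm).mem_nhds ?_
      show R' < ‖(y : ℂ)‖
      rw [hyn]
      exact hy2
    have h2 : ∀ᶠ t in 𝓝 (y : ℂ), -c < t.re := by
      refine (isOpen_lt continuous_const Complex.continuous_re).mem_nhds ?_
      show -c < ((y : ℂ)).re
      rw [Complex.ofReal_re]
      linarith
    filter_upwards [self_mem_nhdsWithin, nhdsWithin_le_nhds h1, nhdsWithin_le_nhds h2]
      with t ht h1 h2
    exact hT.far t ⟨h2, ht⟩ h1
  · have h1 : deriv S (y : ℂ) = (starRingEnd ℂ) (deriv S (y : ℂ)) := by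
      have h2 : S =ᶠ[𝓝 (y : ℂ)] ((starRingEnd ℂ) ∘ S ∘ (starRingEnd ℂ)) := by
        filter_upwards [hreal] with t ht
        simp [Function.comp, ht]
      have h3 := h2.deriv_eq
      rw [deriv_conj_conj] at h3
      simpa using h3
    have h2 : (deriv S (y : ℂ)).im = 0 := Complex.conj_eq_iff_im.1 h1.symm
    have h3 : ‖D * deriv S (y : ℂ) - 1‖ < 1 / 2 := hS.der _ hym
    have h4 : |(D * deriv S (y : ℂ) - 1).re| ≤ ‖D * deriv S (y : ℂ) - 1‖ :=
      Complex.abs_re_le_norm _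
    rw [Complex.sub_re, Complex.re_ofReal_mul, Complex.one_re] at h4
    have h5 := (abs_lt.1 (h4.trans_lt h3)).1
    have h6 : 0 < D * (deriv S (y : ℂ)).re := by linarith
    refine ⟨(deriv S (y : ℂ)).re, (pos_iff_pos_of_mul_pos h6).1 hD, ?_⟩
    apply Complex.ext
    · simp
    · simp [h2]

/-- one step back along the orbit -/
theorem good_step {p r c R' : ℝ} {S T : ℂ → ℂ} (hr : 0 < r) (hpr : r < p)
    (hc : p - r < 3 * c) (hcp : c < p) (hT : TF p r c S T R') {y y₁ : ℝ}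
    (h0 : p - 2 * c < y) (h1 : r < y₁)
    (hH : Hb p r (y₁ : ℂ) = Hb p r ((-y - 2 * c : ℝ) : ℂ)) (hP : Good T y₁) : Good T y := by
  have hp : 0 < p := hr.trans hpr
  obtain ⟨Tr, hA, hTr, hreal, m, hm, hdm⟩ := hP
  set x₀ : ℝ := -y - 2 * c with hx₀
  have hx0 : x₀ < -p := by rw [hx₀]; linarith
  have hxD : (x₀ : ℂ) ∈ Dm p r := RealPos.mem_Dm_left hx0
  have hyD : (y₁ : ℂ) ∈ Dm p r := RealPos.mem_Dm_right h1
  have hHf : Hf p r (y₁ : ℂ) = Hf p r (x₀ : ℂ) := by
    rw [← Hb_eq hp hr hyD, ← Hb_eq hp hr hxD, hH]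
  have hxa := RealPos.Hf_analyticAt hp hr hxD
  have hya := RealPos.Hf_analyticAt hp hr hyD
  have hxd := Hf_deriv hp hr hxD
  have hyd := Hf_deriv hp hr hyD
  have hK : 0 < p * r * (p + r) := by positivity
  set Px : ℝ := x₀ * (x₀ + p) * (x₀ - r) with hPx
  set Py : ℝ := y₁ * (y₁ + p) * (y₁ - r) with hPy
  have hPx0 : Px < 0 := by
    have e1 : x₀ < 0 := by linarith
    have e2 : x₀ + p < 0 := by linarith
    have e3 : x₀ - r < 0 := by linarith
    exact mul_neg_of_pos_of_neg (mul_pos_of_neg_of_neg e1 e2) e3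
  have hPy0 : 0 < Py := by
    have e1 : 0 < y₁ := by linarith
    have e2 : 0 < y₁ + p := by linarith
    have e3 : 0 < y₁ - r := by linarith
    positivity
  rw [RealPos.Pf_ofReal, ← hPx] at hxd
  rw [RealPos.Pf_ofReal, ← hPy] at hyd
  have hyd0 : ((p : ℂ) * r * (p + r) / (Py : ℂ)) ≠ 0 := by
    have : ((p : ℂ) * r * (p + r) / (Py : ℂ)) = ((p * r * (p + r) / Py : ℝ) : ℂ) := by
      push_cast; ring
    rw [this, Complex.ofReal_ne_zero]
    exact div_ne_zero hK.ne' hPy0.ne'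
  obtain ⟨ψ, hψa, hψx, hψl, hψr, hψd⟩ := RealPos.exists_local_inverse hya hyd hyd0
  -- the map `V ↦ -V - 2 c` near `y`
  have hlin : Tendsto (fun V : ℂ => -V - 2 * c) (𝓝 (y : ℂ)) (𝓝 (x₀ : ℂ)) := by
    have h2 : Continuous (fun V : ℂ => -V - 2 * (c : ℂ)) := by fun_prop
    refine h2.tendsto' _ _ ?_
    rw [hx₀]
    push_cast
    ring
  have hlinv : -(y : ℂ) - 2 * c = x₀ := by
    rw [hx₀]
    push_cast
    ring
  have hlina : AnalyticAt ℂ (fun V : ℂ => -V - 2 * (c : ℂ)) (y : ℂ) := by fun_prop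
  have hHa : AnalyticAt ℂ (fun V : ℂ => Hf p r (-V - 2 * c)) (y : ℂ) :=
    AnalyticAt.comp_of_eq hxa hlina hlinv
  have hHv : Hf p r (-(y : ℂ) - 2 * c) = Hf p r (y₁ : ℂ) := by rw [hlinv, hHf]
  set th : ℂ → ℂ := fun V => ψ (Hf p r (-V - 2 * c)) with hth
  have htha : AnalyticAt ℂ th (y : ℂ) := AnalyticAt.comp_of_eq hψa hHa hHv
  have hthv : th (y : ℂ) = y₁ := by
    show ψ (Hf p r (-(y : ℂ) - 2 * c)) = y₁
    rw [hHv, hψx]
  have hHt : Tendsto (fun V : ℂ => Hf p r (-V - 2 * c)) (𝓝 (y : ℂ)) (𝓝 (Hf p r (y₁ : ℂ))) := by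
    have := hHa.continuousAt.tendsto
    rwa [hHv] at this
  have htht : Tendsto th (𝓝 (y : ℂ)) (𝓝 (y₁ : ℂ)) := by
    have := htha.continuousAt.tendsto
    rwa [hthv] at this
  -- the derivative
  set μ : ℝ := -(Py / Px) with hμ
  have hμ0 : 0 < μ := by
    rw [hμ, neg_pos]
    exact div_neg_of_pos_of_neg hPy0 hPx0
  have hthd : HasDerivAt th (μ : ℂ) (y : ℂ) := by
    have e1 : HasDerivAt (fun V : ℂ => -V - 2 * (c : ℂ)) (-1) (y : ℂ) := by
      simpa using (hasDerivAt_id (y : ℂ)).neg.sub_const (2 * (c : ℂ))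
    have e2 : HasDerivAt (Hf p r) ((p : ℂ) * r * (p + r) / (Px : ℂ)) (-(y : ℂ) - 2 * c) := by
      rw [hlinv]; exact hxd
    have e3 : HasDerivAt (fun V : ℂ => Hf p r (-V - 2 * c))
        ((p : ℂ) * r * (p + r) / (Px : ℂ) * (-1)) (y : ℂ) :=
      HasDerivAt.comp (h := fun V : ℂ => -V - 2 * (c : ℂ)) (y : ℂ) e2 e1
    have e4 : HasDerivAt ψ ((p : ℂ) * r * (p + r) / (Py : ℂ))⁻¹ (Hf p r (-(y : ℂ) - 2 * c)) := by
      rw [hHv]; exact hψd
    have e5 : HasDerivAt th (((p : ℂ) * r * (p + r) / (Py : ℂ))⁻¹ *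
        ((p : ℂ) * r * (p + r) / (Px : ℂ) * (-1))) (y : ℂ) :=
      HasDerivAt.comp (h := fun V : ℂ => Hf p r (-V - 2 * c)) (y : ℂ) e4 e3
    refine e5.congr_deriv ?_
    have k1 : (Px : ℂ) ≠ 0 := Complex.ofReal_ne_zero.2 hPx0.ne
    have k2 : (Py : ℂ) ≠ 0 := Complex.ofReal_ne_zero.2 hPy0.ne'
    have k3 : (p : ℂ) * r * (p + r) ≠ 0 := by
      have := Complex.ofReal_ne_zero.2 hK.ne'
      push_cast at this
      exact this
    have k4 : ((p : ℂ) * r * (p + r) / (Py : ℂ))⁻¹ * ((p : ℂ) * r * (p + r) / (Px : ℂ) * (-1)) =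
        -((Py : ℂ) / Px) := by
      generalize (p : ℂ) * r * (p + r) = K at k3 ⊢
      field_simp
    rw [k4, hμ]
    push_cast
    ring
  -- reality
  have hconj : Tendsto (starRingEnd ℂ) (𝓝 (y₁ : ℂ)) (𝓝 (y₁ : ℂ)) := by
    have := (Complex.continuous_conj.tendsto (y₁ : ℂ))
    rwa [Complex.conj_ofReal] at this
  have hψc : Tendsto ψ (𝓝 (Hf p r (y₁ : ℂ))) (𝓝 (y₁ : ℂ)) := by
    have := hψa.continuousAt.tendsto
    rwa [hψx] at this
  have hψreal : ∀ᶠ s in 𝓝 (Hf p r (y₁ : ℂ)),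
      ψ ((starRingEnd ℂ) s) = (starRingEnd ℂ) (ψ s) := by
    have e1 := (hconj.comp hψc).eventually hψl
    have e2 := hψc.eventually ((Dm_open hp hr).mem_nhds hyD)
    filter_upwards [e1, e2, hψr] with s e1 e2 e3
    have e4 : Hf p r ((starRingEnd ℂ) (ψ s)) = (starRingEnd ℂ) s := by
      rw [Hf_conj hp hr e2, e3]
    have e5 : ψ (Hf p r ((starRingEnd ℂ) (ψ s))) = (starRingEnd ℂ) (ψ s) := e1
    rw [e4] at e5
    exact e5
  have hthreal : ∀ᶠ V in 𝓝 (y : ℂ), th ((starRingEnd ℂ) V) = (starRingEnd ℂ) (th V) := by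
    have f1 := hlin.eventually ((Dm_open hp hr).mem_nhds hxD)
    have f2 := hHt.eventually hψreal
    filter_upwards [f1, f2] with V f1 f2
    show ψ (Hf p r (-(starRingEnd ℂ) V - 2 * c)) = (starRingEnd ℂ) (ψ (Hf p r (-V - 2 * c)))
    have f3 : -(starRingEnd ℂ) V - 2 * (c : ℂ) = (starRingEnd ℂ) (-V - 2 * c) := by
      simp [RealPos.conj_two]
    rw [f3, Hf_conj hp hr f1, f2]
  -- `th` maps to the upper half plane
  have hside : ∀ᶠ V in 𝓝[UP] (y : ℂ), 0 < (th V).im := by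
    refine Side.sideA (F' := deriv th) ?_ htha.deriv.continuousAt ?_ ?_
    · filter_upwards [htha.eventually_analyticAt] with w hw
      exact hw.differentiableAt.hasDerivAt
    · rw [hthd.deriv, Complex.ofReal_re]
      exact hμ0
    · filter_upwards [hthreal] with w hw h
      rw [Complex.conj_eq_iff_im.2 h] at hw
      exact Complex.conj_eq_iff_im.1 hw.symm
  have hthUP : Tendsto th (𝓝[UP] (y : ℂ)) (𝓝[UP] (y₁ : ℂ)) :=
    tendsto_nhdsWithin_of_tendsto_nhds_of_eventually_within _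
      (htht.mono_left nhdsWithin_le_nhds) hside
  refine ⟨fun V => Tr (th V) - 1, ?_, ?_, ?_, ?_⟩
  · have : AnalyticAt ℂ (fun V => Tr (th V)) (y : ℂ) := AnalyticAt.comp_of_eq hA htha hthv
    exact this.sub analyticAt_const
  · have g1 : ∀ᶠ t in 𝓝 (y : ℂ), -c < t.re := by
      refine (isOpen_lt continuous_const Complex.continuous_re).mem_nhds ?_
      show -c < ((y : ℂ)).re
      rw [Complex.ofReal_re]
      linarith
    have g2 := hHt.eventually hψr
    have g3 := hthUP.eventually hTr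
    filter_upwards [self_mem_nhdsWithin, nhdsWithin_le_nhds g1, nhdsWithin_le_nhds g2, g3, hside]
      with V hV g1 g2 g3 g4
    have hQ : V ∈ QV c := ⟨g1, hV⟩
    obtain ⟨-, -, -, k1, k2, -, -⟩ := Th_spec hr hpr hc hQ
    have k3 : Hf p r (th V) = Hf p r (-V - 2 * c) := g2
    have k4 : Th p r c V = th V := Hf_injOn hp hr k1 g4 (k2.trans k3.symm)
    have k5 := hT.step V hQ
    rw [k4, g3] at k5
    rw [k5]
    ring
  · have f1 := htht.eventually hreal
    filter_upwards [hthreal, f1] with V f2 f1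
    rw [f2, f1]
    simp
  · refine ⟨m * μ, by positivity, ?_⟩
    have e1 : HasDerivAt Tr (m : ℂ) (th (y : ℂ)) := by
      rw [hthv, ← hdm]; exact hA.differentiableAt.hasDerivAt
    have e2 : HasDerivAt (fun V => Tr (th V)) ((m : ℂ) * μ) (y : ℂ) :=
      HasDerivAt.comp (h := th) (y : ℂ) e1 hthd
    rw [(e2.sub_const 1).deriv]
    push_cast
    ring

end TReal

theorem T_real {p r c D R R' : ℝ} {S T : ℂ → ℂ} (hr : 0 < r) (hpr : r < p)
    (hc : p - r < 3 * c) (hc0 : 0 < c) (hcp : c < p) (hD : 0 < D) (hS : SD p r c D S R)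
    (hT : TF p r c S T R')
    (hG : ∀ y : ℝ, r < y → (Hb p r y).re < (Hb p r ((-y - 2 * c : ℝ) : ℂ)).re) {y : ℝ}
    (hy : p - 2 * c < y) :
    ∃ Tr : ℂ → ℂ, AnalyticAt ℂ Tr y ∧ (∀ᶠ v in 𝓝[UP] (y : ℂ), T v = Tr v) ∧
      (∀ᶠ v in 𝓝 (y : ℂ), Tr ((starRingEnd ℂ) v) = (starRingEnd ℂ) (Tr v)) ∧
      ∃ m : ℝ, 0 < m ∧ deriv Tr y = m := by
  obtain ⟨u, hu0, hdom, hstep, huT⟩ := TReal.orbit hr hpr hc0 hG hy
  obtain ⟨n, hn⟩ := (huT.eventually_gt_atTop (max R R')).exists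
  have key : ∀ j : ℕ, j ≤ n → TReal.Good T (u (n - j)) := by
    intro j
    induction j with
    | zero =>
      intro _
      exact TReal.good_far hc0 hD hS hT hn
    | succ j ih =>
      intro hj
      have h1 := ih (by omega)
      have e1 : n - j = (n - (j + 1)) + 1 := by omega
      rw [e1] at h1
      exact TReal.good_step hr hpr hc hcp hT (hdom _) (hstep _).1 (hstep _).2 h1
  have h1 := key n le_rfl
  rw [Nat.sub_self, hu0] at h1
  exact h1

end Pool.Agent.MP_ae5b4e_an_MET
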