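import Mathlib
import Pool.Agent.Lib.MP_ae5b4e_an_MET.Defs
import Pool.Agent.Lib.MP_ae5b4e_an_MET.Theta
import Pool.Agent.Lib.MP_ae5b4e_an_MET.TReal
import Pool.Agent.Lib.MP_ae5b4e_an_MET.Step
import Pool.Agent.Lib.MP_ae5b4e_an_ALG.Lim
import Pool.Agent.Lib.MP_ae5b4e_an_ALG.BdryB
import Pool.Agent.Lib.MP_ae5b4e_an_ALG.Gf

/-!
# MP_ae5b4e_an, project MET, module A16: a bound of the time function on a segment
-/

set_option autoImplicit false

noncomputable section

namespace Pool.Agent.MP_ae5b4e_an_MET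

open Filter Topology Set Metric Complex
open scoped Real
open Pool.Agent.MP_ae5b4e_an_ALG

namespace Bdd

variable {p r : ℝ}

theorem mem_Xs (hr : 0 < r) {z : ℂ} (h0 : 0 < z.im) (h1 : z.im < p * π) : z ∈ Xs p r := by
  have hrp : 0 < r * π := mul_pos hr Real.pi_pos
  exact ⟨by linarith, h1, fun h => absurd h h0.ne'⟩

theorem QV_open (c : ℝ) : IsOpen (QV c) :=
  (isOpen_lt continuous_const Complex.continuous_re).inter
    (isOpen_lt continuous_const Complex.continuous_im)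

/-- the time function in the coordinate `H` is continuous in the open strip -/
theorem cont {c R' : ℝ} {S T : ℂ → ℂ} (hr : 0 < r) (hpr : r < p) (hc : p - r < 3 * c)
    (hT : TF p r c S T R') {z : ℂ} (h0 : 0 < z.im) (h1 : z.im < p * π) :
    ContinuousAt (fun z => T (Gf p r z)) z := by
  have hp : 0 < p := hr.trans hpr
  have hz := mem_Xs (p := p) hr h0 h1
  have hG : ContinuousAt (Gf p r) z :=
    ((Gf_diff hp hr).differentiableAt ((Xs_open hp hr).mem_nhds hz)).continuousAt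
  have hQ := Gf_QV hr hpr hc hz h0.le
  have hTc : ContinuousAt T (Gf p r z) :=
    (hT.diff.differentiableAt ((QV_open c).mem_nhds hQ)).continuousAt
  exact ContinuousAt.comp (f := Gf p r) (g := T) hTc hG

/-- the points of the vertical line -/
def zt (M t : ℝ) : ℂ := -(M : ℂ) + t * I

theorem zt_im (M t : ℝ) : (zt M t).im = t := by simp [zt]

theorem zt_re (M t : ℝ) : (zt M t).re = -M := by simp [zt]

theorem zt_cont (M : ℝ) : Continuous (zt M) := by
  unfold zt
  fun_prop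

theorem lim_ex {D R R' : ℝ} {S T : ℂ → ℂ} (hr : 0 < r) (hpr : r < p) (hD : 0 < D)
    (hS : SD p r ((p - r) / 2) D S R) (hT : TF p r ((p - r) / 2) S T R') {M : ℝ} (hM : 0 < M)
    {t0 : ℝ} (ht0 : t0 ∈ Icc 0 (p * π)) :
    ∃ L : ℂ, Tendsto (fun t => T (Gf p r (zt M t))) (𝓝[Ioo 0 (p * π)] t0) (𝓝 L) := by
  have hp : 0 < p := hr.trans hpr
  have hpp : 0 < p * π := mul_pos hp Real.pi_pos
  have hrp : 0 < r * π := mul_pos hr Real.pi_pos
  have hc : p - r < 3 * ((p - r) / 2) := by linarith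
  have hc0 : 0 < (p - r) / 2 := by linarith
  have hcp : (p - r) / 2 < p := by linarith
  have hmem : ∀ᶠ t in 𝓝[Ioo 0 (p * π)] t0, t ∈ Ioo 0 (p * π) := self_mem_nhdsWithin
  have hX : ∀ᶠ t in 𝓝[Ioo 0 (p * π)] t0, zt M t ∈ Xs p r := by
    filter_upwards [hmem] with t ht
    exact mem_Xs hr (by rw [zt_im]; exact ht.1) (by rw [zt_im]; exact ht.2)
  have hW : ∀ᶠ t in 𝓝[Ioo 0 (p * π)] t0, Gf p r (zt M t) ∈ UP := by
    filter_upwards [hX] with t ht
    exact (Gf_mem hp hr ht).1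
  have hHf : ∀ᶠ t in 𝓝[Ioo 0 (p * π)] t0, Hf p r (Gf p r (zt M t)) = zt M t := by
    filter_upwards [hX] with t ht
    exact (Gf_mem hp hr ht).2
  have hzc : Tendsto (zt M) (𝓝[Ioo 0 (p * π)] t0) (𝓝 (zt M t0)) :=
    ((zt_cont M).tendsto t0).mono_left nhdsWithin_le_nhds
  have hHt : Tendsto (fun t => Hf p r (Gf p r (zt M t))) (𝓝[Ioo 0 (p * π)] t0)
      (𝓝 (zt M t0)) := by
    refine hzc.congr' ?_
    filter_upwards [hHf] with t ht
    exact ht.symm
  rcases eq_or_lt_of_le ht0.1 with h0 | h0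
  · -- the lower end
    obtain ⟨x, hx, hxz⟩ := Hb_surj4 (z := zt M t0) hp hr (by rw [zt_im]; exact h0.symm)
      (by rw [zt_re]; linarith)
    have hlim : Tendsto (fun t => Gf p r (zt M t)) (𝓝[Ioo 0 (p * π)] t0) (𝓝 (x : ℂ)) := by
      refine lim_4 hp hr hW hx ?_ ?_
      · rw [hxz]
        exact hHt
      · filter_upwards [hHf, hmem] with t ht ht2
        rw [ht, zt_im]
        exact ht2.1
    have hG : ∀ y : ℝ, r < y →
        (Hb p r y).re < (Hb p r ((-y - 2 * ((p - r) / 2) : ℝ) : ℂ)).re := by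
      intro y hy
      exact no_fix hr hpr hc hc0 hcp (by nlinarith) (by linarith) hy
    obtain ⟨Tr, hTr, he, -, -⟩ := T_real hr hpr hc hc0 hcp hD hS hT hG (y := x) (by linarith)
    refine ⟨Tr x, ?_⟩
    have hlim' : Tendsto (fun t => Gf p r (zt M t)) (𝓝[Ioo 0 (p * π)] t0) (𝓝[UP] (x : ℂ)) :=
      tendsto_nhdsWithin_iff.2 ⟨hlim, hW⟩
    refine Tendsto.congr' ?_ (hTr.continuousAt.tendsto.comp hlim)
    filter_upwards [hlim'.eventually he] with t ht
    exact ht.symm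
  · rcases eq_or_lt_of_le ht0.2 with h1 | h1
    · -- the upper end
      obtain ⟨x, hx0, hx1, hxz⟩ := Hb_surj3 (z := zt M t0) hp hr (by rw [zt_im]; exact h1)
      have hlim : Tendsto (fun t => Gf p r (zt M t)) (𝓝[Ioo 0 (p * π)] t0) (𝓝 (x : ℂ)) := by
        refine lim_3 hp hr hW hx0 hx1 ?_
        rw [hxz]
        exact hHt
      obtain ⟨hHa, hHi⟩ := Hc_real (p := p) (r := r) (x := x) hr hpr (by linarith) hx1
      have hlim2 : Tendsto (fun t => Hc p r (Gf p r (zt M t))) (𝓝[Ioo 0 (p * π)] t0)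
          (𝓝 (Hc p r x)) := hHa.continuousAt.tendsto.comp hlim
      have hcx : ContinuousAt (fun z => T (Gf p r z)) (Hc p r x) :=
        cont hr hpr hc hT (by rw [hHi]; exact hrp)
          (by rw [hHi]; exact mul_lt_mul_of_pos_right hpr Real.pi_pos)
      have hlim3 : Tendsto (fun t => T (Gf p r (Hc p r (Gf p r (zt M t)))))
          (𝓝[Ioo 0 (p * π)] t0) (𝓝 (T (Gf p r (Hc p r x)))) := hcx.tendsto.comp hlim2
      refine ⟨T (Gf p r (Hc p r x)) - 1, ?_⟩
      refine Tendsto.congr' ?_ (hlim3.sub_const 1)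
      have hre : ∀ᶠ t in 𝓝[Ioo 0 (p * π)] t0, 0 < (Gf p r (zt M t)).re :=
        ((Complex.continuous_re.tendsto _).comp hlim).eventually
          (lt_mem_nhds (by rw [ofReal_re]; exact hx0))
      filter_upwards [hre, hW, hX, hmem] with t h2 h3 h4 h5
      have hQ : Gf p r (zt M t) ∈ QV ((p - r) / 2) :=
        Gf_QV hr hpr hc h4 (by rw [zt_im]; exact h5.1.le)
      have h6 := hT.step _ hQ
      have h7 : Th p r ((p - r) / 2) (Gf p r (zt M t)) =
          Gf p r (Hc p r (Gf p r (zt M t))) := by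
        rw [Hc_up hr hpr h3 (by linarith)]
        unfold Th
        congr 2
        push_cast
        ring
      rw [h7] at h6
      rw [h6]
      ring
    · refine ⟨T (Gf p r (zt M t0)), ?_⟩
      have h2 : ContinuousAt (fun z => T (Gf p r z)) (zt M t0) :=
        cont hr hpr hc hT (by rw [zt_im]; exact h0) (by rw [zt_im]; exact h1)
      exact h2.tendsto.comp hzc

end Bdd

theorem T_bdd {p r D R R' : ℝ} {S T : ℂ → ℂ} (hr : 0 < r) (hpr : r < p) (hD : 0 < D)
    (hS : SD p r ((p - r) / 2) D S R) (hT : TF p r ((p - r) / 2) S T R') {M : ℝ} (hM : 0 < M) :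
    ∃ C : ℝ, ∀ z : ℂ, z.re = -M → 0 < z.im → z.im < p * π → (T (Gf p r z)).re ≤ C := by
  have key : ∃ C : ℝ, ∀ t ∈ Icc 0 (p * π), 0 < t → t < p * π →
      (T (Gf p r (Bdd.zt M t))).re ≤ C := by
    refine IsCompact.induction_on (s := Icc 0 (p * π)) isCompact_Icc
      (p := fun s => ∃ C : ℝ, ∀ t ∈ s, 0 < t → t < p * π → (T (Gf p r (Bdd.zt M t))).re ≤ C)
      ?_ ?_ ?_ ?_
    · exact ⟨0, fun t ht => absurd ht (Set.notMem_empty t)⟩
    · rintro s t hst ⟨C, hC⟩
      exact ⟨C, fun a ha => hC a (hst ha)⟩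
    · rintro s t ⟨C, hC⟩ ⟨C', hC'⟩
      refine ⟨max C C', fun a ha h0 h1 => ?_⟩
      rcases ha with ha | ha
      · exact (hC a ha h0 h1).trans (le_max_left _ _)
      · exact (hC' a ha h0 h1).trans (le_max_right _ _)
    · intro t0 ht0
      obtain ⟨L, hL⟩ := Bdd.lim_ex hr hpr hD hS hT hM ht0
      have h1 : ∀ᶠ t in 𝓝[Ioo 0 (p * π)] t0, (T (Gf p r (Bdd.zt M t))).re < L.re + 1 :=
        ((Complex.continuous_re.tendsto _).comp hL).eventually (gt_mem_nhds (by linarith))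
      rw [eventually_nhdsWithin_iff] at h1
      refine ⟨{t | t ∈ Ioo 0 (p * π) → (T (Gf p r (Bdd.zt M t))).re < L.re + 1},
        mem_nhdsWithin_of_mem_nhds h1, L.re + 1, ?_⟩
      intro t ht h2 h3
      exact (ht ⟨h2, h3⟩).le
  obtain ⟨C, hC⟩ := key
  refine ⟨C, fun z h0 h1 h2 => ?_⟩
  have hz : z = Bdd.zt M z.im := by
    apply Complex.ext
    · rw [Bdd.zt_re, h0]
    · rw [Bdd.zt_im]
  have h3 := hC z.im ⟨h1.le, h2.le⟩ h1 h2
  rw [← hz] at h3
  exact h3

end Pool.Agent.MP_ae5b4e_an_MET
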