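import Mathlib
import Pool.Agent.Lib.MP_ae5b4e_an_ALG.Branches
import Pool.Agent.Lib.MP_ae5b4e_an_MET.DefsT

/-! Project MET (MP_ae5b4e_an), module TB: all branches and all places are good. -/

set_option autoImplicit false

noncomputable section

namespace Pool.Agent.MP_ae5b4e_an_MET

open Filter Topology Set Metric Complex Polynomial
open scoped Real
open Pool.Agent.MP_ae5b4e_an_ND (Dx Dy Reg)
open Pool.Agent.MP_ae5b4e_an_FLEX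
open Pool.Agent.MP_ae5b4e_an_ALG

namespace BranchesM

variable {m : ℂ[X][X]} {q : Fin 6 → ℂ}

/-- good points, with the field of the form -/
def GQ (q : Fin 6 → ℂ) (X Y : ℂ → ℂ) (s : ℂ) : Prop :=
  GoodG X Y (kf q X Y) s ∧ qf q X Y s ≠ 0

theorem qf_congr {X Y X' Y' : ℂ → ℂ} {t : ℂ} (hX : X =ᶠ[𝓝 t] X') (hY : Y =ᶠ[𝓝 t] Y') :
    qf q X Y =ᶠ[𝓝 t] qf q X' Y' := by
  filter_upwards [hX, hY] with s h1 h2
  unfold qf
  rw [h1, h2]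

theorem kf_congr {X Y X' Y' : ℂ → ℂ} {t : ℂ} (hX : X =ᶠ[𝓝 t] X') (hY : Y =ᶠ[𝓝 t] Y') :
    kf q X Y =ᶠ[𝓝 t] kf q X' Y' := by
  filter_upwards [qf_congr hX hY, (qf_congr hX hY).deriv] with s h1 h2
  unfold kf
  rw [h1, h2]

theorem gq_congr {X Y X' Y' : ℂ → ℂ} {t : ℂ} (h : GQ q X Y t) (hX : X =ᶠ[𝓝 t] X')
    (hY : Y =ᶠ[𝓝 t] Y') : GQ q X' Y' t := by
  refine ⟨goodG_congr h.1 hX hY (kf_congr hX hY), ?_⟩
  rw [← (qf_congr hX hY).self_of_nhds]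
  exact h.2

theorem qf_analytic {X Y : ℂ → ℂ} {t : ℂ} (hX : AnalyticAt ℂ X t) (hY : AnalyticAt ℂ Y t) :
    AnalyticAt ℂ (qf q X Y) t := by
  unfold qf QC
  fun_prop

theorem kf_analytic {X Y : ℂ → ℂ} {t : ℂ} (hX : AnalyticAt ℂ X t) (hY : AnalyticAt ℂ Y t)
    (hq : qf q X Y t ≠ 0) : AnalyticAt ℂ (kf q X Y) t :=
  ((qf_analytic hX hY).deriv.div (qf_analytic hX hY) hq).neg

theorem reg_of {X Y : ℂ → ℂ} {t : ℂ} (hX : AnalyticAt ℂ X t) (hY : AnalyticAt ℂ Y t)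
    (hq : qf q X Y t ≠ 0) (hW : Wr X Y t ≠ 0) : RegG X Y (kf q X Y) t :=
  ⟨hX, hY, kf_analytic hX hY hq, hW⟩

/-- propagation on a connected set of regular points -/
theorem gq_conn {X Y : ℂ → ℂ} {O : Set ℂ} (hO : IsOpen O) (hOc : IsPreconnected O)
    (hX : ∀ t ∈ O, AnalyticAt ℂ X t) (hY : ∀ t ∈ O, AnalyticAt ℂ Y t)
    (hq : ∀ t ∈ O, qf q X Y t ≠ 0) (hW : ∀ t ∈ O, Wr X Y t ≠ 0) {t₀ : ℂ} (ht₀ : t₀ ∈ O)
    (h : GQ q X Y t₀) : ∀ t ∈ O, GQ q X Y t := fun t ht =>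
  ⟨goodG_conn hO hOc (fun s hs => reg_of (hX s hs) (hY s hs) (hq s hs) (hW s hs)) ht₀ h.1 t ht,
    hq t ht⟩

/-- the good points are open -/
theorem gq_nhds {X Y : ℂ → ℂ} {t : ℂ} (h : GQ q X Y t) : ∀ᶠ s in 𝓝 t, GQ q X Y s := by
  obtain ⟨⟨⟨hX, hY, -, hW⟩, -⟩, hq⟩ := id h
  have h1 : ∀ᶠ s in 𝓝 t, Wr X Y s ≠ 0 :=
    (GeoProp.wr_analytic hX hY).continuousAt.eventually_ne hW
  have h2 : ∀ᶠ s in 𝓝 t, qf q X Y s ≠ 0 :=
    (qf_analytic hX hY).continuousAt.eventually_ne hq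
  obtain ⟨ε, hε, hball⟩ := Metric.eventually_nhds_iff_ball.1
    (hX.eventually_analyticAt.and (hY.eventually_analyticAt.and (h1.and h2)))
  filter_upwards [ball_mem_nhds t hε] with s hs
  exact gq_conn isOpen_ball (convex_ball t ε).isPreconnected (fun u hu => (hball u hu).1)
    (fun u hu => (hball u hu).2.1) (fun u hu => (hball u hu).2.2.2)
    (fun u hu => (hball u hu).2.2.1) (mem_ball_self hε) h s hs

/-- a ball on which the branch is analytic and the form and the Wronskian vanish identically or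
only at the centre -/
def Adapted (q : Fin 6 → ℂ) (b : ℂ → ℂ) (x₀ : ℂ) (ε : ℝ) : Prop :=
  (∀ x ∈ ball x₀ ε, AnalyticAt ℂ b x) ∧
    ((∀ x ∈ ball x₀ ε \ {x₀}, qf q id b x = 0) ∨ ∀ x ∈ ball x₀ ε \ {x₀}, qf q id b x ≠ 0) ∧
    ((∀ x ∈ ball x₀ ε \ {x₀}, Wr id b x = 0) ∨ ∀ x ∈ ball x₀ ε \ {x₀}, Wr id b x ≠ 0)

theorem zero_or {f : ℂ → ℂ} {x₀ : ℂ} (hf : AnalyticAt ℂ f x₀) :
    ∃ r > 0, (∀ x ∈ ball x₀ r \ {x₀}, f x = 0) ∨ ∀ x ∈ ball x₀ r \ {x₀}, f x ≠ 0 := by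
  rcases hf.eventually_eq_zero_or_eventually_ne_zero with h | h
  · obtain ⟨r, hr, hb⟩ := Metric.eventually_nhds_iff_ball.1 h
    exact ⟨r, hr, Or.inl fun x hx => hb x hx.1⟩
  · obtain ⟨r, hr, hb⟩ := Metric.eventually_nhds_iff_ball.1 (eventually_nhdsWithin_iff.1 h)
    exact ⟨r, hr, Or.inr fun x hx => hb x hx.1 hx.2⟩

theorem adapted_mono {b : ℂ → ℂ} {x₀ : ℂ} {ε ε' : ℝ} (h : Adapted q b x₀ ε) (hle : ε' ≤ ε) :
    Adapted q b x₀ ε' := by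
  have h1 : ball x₀ ε' ⊆ ball x₀ ε := ball_subset_ball hle
  refine ⟨fun x hx => h.1 x (h1 hx), ?_, ?_⟩
  · exact h.2.1.imp (fun h2 x hx => h2 x ⟨h1 hx.1, hx.2⟩) (fun h2 x hx => h2 x ⟨h1 hx.1, hx.2⟩)
  · exact h.2.2.imp (fun h2 x hx => h2 x ⟨h1 hx.1, hx.2⟩) (fun h2 x hx => h2 x ⟨h1 hx.1, hx.2⟩)

theorem exists_adapted {b : ℂ → ℂ} {x₀ : ℂ} (hb : AnalyticAt ℂ b x₀) :
    ∃ ε > 0, Adapted q b x₀ ε := by
  obtain ⟨r1, hr1, h1⟩ := Metric.eventually_nhds_iff_ball.1 hb.eventually_analyticAt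
  obtain ⟨r2, hr2, h2⟩ := zero_or (qf_analytic (q := q) (analyticAt_id (𝕜 := ℂ) (z := x₀)) hb)
  obtain ⟨r3, hr3, h3⟩ := zero_or (GeoProp.wr_analytic (analyticAt_id (𝕜 := ℂ) (z := x₀)) hb)
  have e1 : min r1 (min r2 r3) ≤ r1 := min_le_left _ _
  have e2 : min r1 (min r2 r3) ≤ r2 := (min_le_right _ _).trans (min_le_left _ _)
  have e3 : min r1 (min r2 r3) ≤ r3 := (min_le_right _ _).trans (min_le_right _ _)
  refine ⟨min r1 (min r2 r3), by positivity, fun x hx => h1 x (ball_subset_ball e1 hx), ?_, ?_⟩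
  · exact h2.imp (fun h x hx => h x ⟨ball_subset_ball e2 hx.1, hx.2⟩)
      (fun h x hx => h x ⟨ball_subset_ball e2 hx.1, hx.2⟩)
  · exact h3.imp (fun h x hx => h x ⟨ball_subset_ball e3 hx.1, hx.2⟩)
      (fun h x hx => h x ⟨ball_subset_ball e3 hx.1, hx.2⟩)

theorem punct_mem {x₀ : ℂ} {ε : ℝ} {x : ℂ} (hx : x ∈ ball x₀ ε) :
    ∀ᶠ s in 𝓝[≠] x, s ∈ ball x₀ ε \ {x₀} := by
  by_cases h : x = x₀
  · subst h
    filter_upwards [nhdsWithin_le_nhds (isOpen_ball.mem_nhds hx), self_mem_nhdsWithin] with s h1 h2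
    exact ⟨h1, h2⟩
  · exact nhdsWithin_le_nhds ((isOpen_ball.sdiff isClosed_singleton).mem_nhds ⟨hx, h⟩)

/-- goodness propagates on an adapted ball -/
theorem gq_ball {b : ℂ → ℂ} {x₀ : ℂ} {ε : ℝ} (hε : 0 < ε) (hA : Adapted q b x₀ ε) {x : ℂ}
    (hx : x ∈ ball x₀ ε) (h : ∀ᶠ s in 𝓝[≠] x, GQ q id b s) :
    ∀ y ∈ ball x₀ ε, ∀ᶠ s in 𝓝[≠] y, GQ q id b s := by
  obtain ⟨s, hs1, hs2⟩ := (h.and (punct_mem hx)).exists
  have hq : ∀ u ∈ ball x₀ ε \ {x₀}, qf q id b u ≠ 0 :=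
    hA.2.1.resolve_left fun h0 => hs1.2 (h0 s hs2)
  have hW : ∀ u ∈ ball x₀ ε \ {x₀}, Wr id b u ≠ 0 :=
    hA.2.2.resolve_left fun h0 => hs1.1.1.2.2.2 (h0 s hs2)
  have hall := gq_conn (isOpen_ball.sdiff isClosed_singleton) (GeoProp.punct_preconn x₀ hε)
    (fun u _ => analyticAt_id) (fun u hu => hA.1 u hu.1) hq hW hs2 hs1
  intro y hy
  filter_upwards [punct_mem hy] with u hu
  exact hall u hu

/-- the branch through `(x, t)` is good at the points near `x` -/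
def GPt (m : ℂ[X][X]) (q : Fin 6 → ℂ) (x t : ℂ) : Prop :=
  ∃ b : ℂ → ℂ, AnalyticAt ℂ b x ∧ b x = t ∧ (∀ᶠ z in 𝓝 x, evalEval z (b z) m = 0) ∧
    ∀ᶠ s in 𝓝[≠] x, GQ q id b s

theorem good_congr {b b' : ℂ → ℂ} {x : ℂ} (h : ∀ᶠ z in 𝓝 x, b z = b' z)
    (hg : ∀ᶠ s in 𝓝[≠] x, GQ q id b s) :
    ∀ᶠ s in 𝓝[≠] x, GQ q id b' s := by
  filter_upwards [hg, nhdsWithin_le_nhds h.eventually_nhds] with s h1 h2
  exact gq_congr h1 (EventuallyEq.refl _ _) h2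

theorem gpt_iff {x : ℂ} (hx : Reg m x) {b : ℂ → ℂ} (hb : AnalyticAt ℂ b x)
    (hb' : ∀ᶠ z in 𝓝 x, evalEval z (b z) m = 0) :
    GPt m q x (b x) ↔ ∀ᶠ s in 𝓝[≠] x, GQ q id b s := by
  constructor
  · rintro ⟨b1, hb1, h0, hm1, hg⟩
    exact good_congr (Pool.Agent.MP_ae5b4e_an_ND.branch_unique hb1.continuousAt hb.continuousAt h0
      (hx.2 _ hm1.self_of_nhds) hm1 hb') hg
  · intro h
    exact ⟨b, hb, rfl, hb', h⟩

theorem gpt_loc (hirr : Irreducible (m.map (algebraMap ℂ[X] (RatFunc ℂ)))) {x₀ : ℂ}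
    (hx₀ : Reg m x₀) {b : ℂ → ℂ} (hb : AnalyticAt ℂ b x₀)
    (hb' : ∀ᶠ x in 𝓝 x₀, evalEval x (b x) m = 0) :
    ∀ᶠ x in 𝓝 x₀, (GPt m q x (b x) ↔ GPt m q x₀ (b x₀)) := by
  obtain ⟨ε1, hε1, hball⟩ := Metric.eventually_nhds_iff_ball.1
    (hb'.eventually_nhds.and (Pool.Agent.MP_ae5b4e_an_ND.Reg.eventually hirr hx₀))
  obtain ⟨ε2, hε2, hA⟩ := exists_adapted (q := q) hb
  have hA' := adapted_mono hA (min_le_right ε1 ε2)
  have hε : 0 < min ε1 ε2 := lt_min hε1 hε2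
  filter_upwards [Metric.ball_mem_nhds x₀ hε] with x hx
  have hx1 : x ∈ ball x₀ ε1 := ball_subset_ball (min_le_left _ _) hx
  rw [gpt_iff (hball x hx1).2 (hA'.1 x hx) (hball x hx1).1, gpt_iff hx₀ hb hb']
  exact ⟨fun h => gq_ball hε hA' hx h x₀ (mem_ball_self hε),
    fun h => gq_ball hε hA' (mem_ball_self hε) h x hx⟩

end BranchesM

section TB
variable {m : ℂ[X][X]}

open BranchesM in
theorem branch_good_met {m : ℂ[X][X]} (hirr : Irreducible (m.map (algebraMap ℂ[X] (RatFunc ℂ))))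
    {q : Fin 6 → ℂ} {g : ℂ → ℂ} {x₀ : ℂ} (hg : GoodG id g (kf q id g) x₀)
    (hq : qf q id g x₀ ≠ 0) (hm : ∀ᶠ x in 𝓝 x₀, evalEval x (g x) m = 0)
    {b : ℂ → ℂ} {x₁ : ℂ} (hx₁ : Reg m x₁) (hb : AnalyticAt ℂ b x₁)
    (hbm : ∀ᶠ x in 𝓝 x₁, evalEval x (b x) m = 0) :
    ∀ᶠ s in 𝓝[≠] x₁, GoodG id b (kf q id b) s ∧ qf q id b s ≠ 0 := by
  have hga : AnalyticAt ℂ g x₀ := hg.1.2.1
  have h0 : ∀ᶠ s in 𝓝[≠] x₀, GQ q id g s := nhdsWithin_le_nhds (gq_nhds ⟨hg, hq⟩)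
  obtain ⟨ε1, hε1, hball⟩ := Metric.eventually_nhds_iff_ball.1 hm.eventually_nhds
  obtain ⟨ε2, hε2, hA⟩ := exists_adapted (q := q) hga
  have hA' := adapted_mono hA (min_le_right ε1 ε2)
  have hε : 0 < min ε1 ε2 := lt_min hε1 hε2
  have h1 : ∀ᶠ z in 𝓝[≠] x₀, z ∈ ball x₀ (min ε1 ε2) :=
    nhdsWithin_le_nhds (ball_mem_nhds x₀ hε)
  obtain ⟨z, hz1, hz2⟩ := ((Branches.reg_punct hirr x₀).and h1).exists
  have hz3 : z ∈ ball x₀ ε1 := ball_subset_ball (min_le_left _ _) hz2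
  have h2 : ∀ᶠ s in 𝓝[≠] z, GQ q id g s := gq_ball hε hA' (mem_ball_self hε) h0 z hz2
  have h3 : GPt m q x₁ (b x₁) :=
    Pool.Agent.MP_ae5b4e_an_ND.all_good hirr (GPt m q)
      (fun y hy b hb hb' => gpt_loc hirr hy hb hb') hz1 (hball z hz3).self_of_nhds
      ⟨g, hA'.1 z hz2, rfl, hball z hz3, h2⟩ hx₁ hbm.self_of_nhds
  exact (gpt_iff hx₁ hb hbm).1 h3

open BranchesM in
theorem place_good_met {m : ℂ[X][X]} (hirr : Irreducible (m.map (algebraMap ℂ[X] (RatFunc ℂ))))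
    {q : Fin 6 → ℂ} {g : ℂ → ℂ} {x₀ : ℂ} (hg : GoodG id g (kf q id g) x₀)
    (hq : qf q id g x₀ ≠ 0) (hm : ∀ᶠ x in 𝓝 x₀, evalEval x (g x) m = 0)
    {X Y : ℂ → ℂ} (hX : MeromorphicAt X 0) (hY : MeromorphicAt Y 0)
    (hXY : ∀ᶠ w in 𝓝[≠] (0:ℂ), AnalyticAt ℂ X w ∧ AnalyticAt ℂ Y w ∧ deriv X w ≠ 0 ∧
      Reg m (X w) ∧ evalEval (X w) (Y w) m = 0) :
    ∀ᶠ s in 𝓝[≠] (0:ℂ), GoodG X Y (kf q X Y) s ∧ qf q X Y s ≠ 0 := by
  -- good points near every point outside `0`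
  have hstep : ∀ᶠ w in 𝓝[≠] (0:ℂ), ∀ᶠ w' in 𝓝[≠] w, GQ q X Y w' := by
    filter_upwards [hXY, Branches.punct_nhds hXY] with w hw hw'
    obtain ⟨hXw, hYw, hdw, hreg, h0⟩ := hw
    obtain ⟨b, hb1, hb2, hb3⟩ := Pool.Agent.MP_ae5b4e_an_ND.branch h0 (hreg.2 _ h0)
    have hb4 := Pool.Agent.MP_ae5b4e_an_ND.branch_eq hb1.continuousAt hb2 hb3
    have hgood := branch_good_met hirr hg hq hm hreg hb1 hb4
    have htend : Tendsto X (𝓝[≠] w) (𝓝[≠] (X w)) :=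
      hXw.differentiableAt.hasDerivAt.tendsto_nhdsNE hdw
    -- the branch is `Y`
    have hpair : Tendsto (fun z => (X z, Y z)) (𝓝 w) (𝓝 (X w, Y w)) := by
      rw [nhds_prod_eq]
      exact hXw.continuousAt.tendsto.prodMk hYw.continuousAt.tendsto
    have hbY : ∀ᶠ z in 𝓝 w, b (X z) = Y z := by
      filter_upwards [hpair.eventually hb3, hw'] with z hz1 hz2
      exact hz1.1 hz2.2.2.2.2
    filter_upwards [htend.eventually hgood, nhdsWithin_le_nhds hbY.eventually_nhds,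
      nhdsWithin_le_nhds hw'.eventually_nhds] with w' h1 h2 h3
    have h3' := h3.self_of_nhds
    have h4 := goodG_comp h3'.1 h3'.2.2.1 h1.1
    have hqe : qf q X Y =ᶠ[𝓝 w'] fun z => qf q id b (X z) := by
      filter_upwards [h2] with z hz
      simp only [qf, id, hz]
    have hba : ∀ᶠ z in 𝓝 w', AnalyticAt ℂ (qf q id b) (X z) :=
      h3'.1.continuousAt.eventually
        (qf_analytic (q := q) analyticAt_id h1.1.1.2.1).eventually_analyticAt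
    have hde : deriv (qf q X Y) =ᶠ[𝓝 w'] fun z => deriv X z * deriv (qf q id b) (X z) := by
      refine hqe.deriv.trans ?_
      filter_upwards [hba, h3] with z hz hz'
      have e1 := hz.differentiableAt.hasDerivAt.comp z hz'.1.differentiableAt.hasDerivAt
      have e2 : deriv (fun z => qf q id b (X z)) z = deriv (qf q id b) (X z) * deriv X z :=
        e1.deriv
      rw [e2, mul_comm]
    refine ⟨goodG_congr h4 (EventuallyEq.refl _ _) ?_ ?_, ?_⟩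
    · exact h2
    · filter_upwards [hqe, hde] with z e1 e2
      simp only [kf, e1, e2]
      ring
    · rw [hqe.self_of_nhds]
      exact h1.2
  -- the Wronskian
  have hWm : MeromorphicAt (Wr X Y) 0 :=
    (hX.deriv.mul hY.deriv.deriv).sub (hY.deriv.mul hX.deriv.deriv)
  have hW : ∀ᶠ w in 𝓝[≠] (0:ℂ), Wr X Y w ≠ 0 := by
    refine hWm.eventually_eq_zero_or_eventually_ne_zero.resolve_left fun h0 => ?_
    obtain ⟨w, hw1, hw2⟩ := (hstep.and (Branches.punct_nhds h0)).exists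
    obtain ⟨w', h1, h2⟩ := (hw1.and (nhdsWithin_le_nhds hw2)).exists
    exact h1.1.1.2.2.2 h2
  have hqm : MeromorphicAt (qf q X Y) 0 := by
    unfold qf QC
    fun_prop
  have hqq : ∀ᶠ w in 𝓝[≠] (0:ℂ), qf q X Y w ≠ 0 := by
    refine hqm.eventually_eq_zero_or_eventually_ne_zero.resolve_left fun h0 => ?_
    obtain ⟨w, hw1, hw2⟩ := (hstep.and (Branches.punct_nhds h0)).exists
    obtain ⟨w', h1, h2⟩ := (hw1.and (nhdsWithin_le_nhds hw2)).exists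
    exact h1.2 h2
  have hall : ∀ᶠ w in 𝓝[≠] (0:ℂ), (AnalyticAt ℂ X w ∧ AnalyticAt ℂ Y w ∧ qf q X Y w ≠ 0 ∧
      Wr X Y w ≠ 0) ∧ ∀ᶠ w' in 𝓝[≠] w, GQ q X Y w' := by
    filter_upwards [hXY, hW, hqq, hstep] with w h1 h2 h3 h4
    exact ⟨⟨h1.1, h1.2.1, h3, h2⟩, h4⟩
  rw [eventually_nhdsWithin_iff] at hall
  obtain ⟨r, hr, hball⟩ := Metric.eventually_nhds_iff_ball.1 hall
  have hO : IsOpen (ball (0:ℂ) r \ {0}) := isOpen_ball.sdiff isClosed_singleton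
  have hOm : ∀ᶠ w in 𝓝[≠] (0:ℂ), w ∈ ball (0:ℂ) r \ {0} := punct_mem (mem_ball_self hr)
  obtain ⟨w, hw⟩ := hOm.exists
  have h1 : ∀ᶠ w' in 𝓝[≠] w, w' ∈ ball (0:ℂ) r \ {0} := nhdsWithin_le_nhds (hO.mem_nhds hw)
  obtain ⟨w', hw'1, hw'2⟩ := (((hball w hw.1) hw.2).2.and h1).exists
  have h2 := gq_conn hO (GeoProp.punct_preconn 0 hr)
    (fun t ht => ((hball t ht.1) ht.2).1.1) (fun t ht => ((hball t ht.1) ht.2).1.2.1)
    (fun t ht => ((hball t ht.1) ht.2).1.2.2.1) (fun t ht => ((hball t ht.1) ht.2).1.2.2.2)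
    hw'2 hw'1
  filter_upwards [hOm] with s hs
  exact h2 s hs

end TB

end Pool.Agent.MP_ae5b4e_an_MET
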