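import Mathlib
import Pool.Agent.Lib.MP_ae5b4e_an_ALG.DefsB

/-!
# MP_ae5b4e_an, project MET, part T: Monge's invariant at a finite place
-/

set_option autoImplicit false

noncomputable section

namespace Pool.Agent.MP_ae5b4e_an_MET

open Filter Topology Set Metric Complex Polynomial
open scoped Real
open Pool.Agent.MP_ae5b4e_an_FLEX
open Pool.Agent.MP_ae5b4e_an_ALG

namespace MongeFin

/-- the new factor -/
def nx (N j k : ℕ) (E : ℂ → ℂ) (w : ℂ) : ℂ := (((j : ℂ) - k * N) * E w + w * deriv E w) / N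

theorem nx_ana {N j k : ℕ} {E : ℂ → ℂ} (hE : AnalyticAt ℂ E 0) : AnalyticAt ℂ (nx N j k E) 0 := by
  have h1 : AnalyticAt ℂ (fun w => ((j : ℂ) - k * N) * E w + w * deriv E w) 0 :=
    (analyticAt_const.mul hE).add (analyticAt_id.mul hE.deriv)
  have h2 : nx N j k E = fun w => (((j : ℂ) - k * N) * E w + w * deriv E w) * (N : ℂ)⁻¹ := by
    funext w
    rw [nx, div_eq_mul_inv]
  rw [h2]
  exact h1.mul analyticAt_const

theorem nx_zero {N j k : ℕ} (E : ℂ → ℂ) : nx N j k E 0 = ((j : ℂ) - k * N) / N * E 0 := by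
  rw [nx, zero_mul, add_zero]
  ring

theorem pow_pred {w : ℂ} (m : ℕ) : (m : ℂ) * w ^ (m - 1) * w = m * w ^ m := by
  rcases m with _ | m
  · simp
  · rw [Nat.add_sub_cancel, pow_succ]
    ring

theorem DX_fin {N j k : ℕ} (hN : 0 < N) {E F : ℂ → ℂ} {c0 c1 e : ℂ} (hE : AnalyticAt ℂ E 0)
    (hF : ∀ᶠ w in 𝓝[≠] (0:ℂ), F w = c0 + c1 * w ^ N + w ^ j * E w / (w ^ N) ^ k) :
    ∀ᶠ w in 𝓝[≠] (0:ℂ), DX (fun w => e + w ^ N) F w =
      c1 + w ^ j * nx N j k E w / (w ^ N) ^ (k + 1) := by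
  have hE' : ∀ᶠ w in 𝓝[≠] (0:ℂ), AnalyticAt ℂ E w :=
    hE.eventually_analyticAt.filter_mono nhdsWithin_le_nhds
  have hF' : ∀ᶠ w in 𝓝[≠] (0:ℂ), ∀ᶠ v in 𝓝 w,
      F v = c0 + c1 * v ^ N + v ^ j * E v / (v ^ N) ^ k := by
    have h1 := eventually_eventually_nhds.2 (eventually_nhdsWithin_iff.1 hF)
    filter_upwards [h1.filter_mono nhdsWithin_le_nhds, self_mem_nhdsWithin] with w hw1 hw2
    filter_upwards [hw1, isOpen_ne.mem_nhds hw2] with v hv1 hv2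
    exact hv1 hv2
  filter_upwards [hE', hF', self_mem_nhdsWithin] with w hEw hFw hw
  have hw0 : w ≠ 0 := hw
  have h6 : w ^ N ≠ 0 := pow_ne_zero N hw0
  have h7 : (w ^ N) ^ k ≠ 0 := pow_ne_zero k h6
  have h1 : deriv F w = c1 * (N * w ^ (N - 1)) +
      (((j : ℂ) * w ^ (j - 1) * E w + w ^ j * deriv E w) * (w ^ N) ^ k -
        w ^ j * E w * ((k : ℂ) * (w ^ N) ^ (k - 1) * (N * w ^ (N - 1)))) / ((w ^ N) ^ k) ^ 2 := by
    have h0 : F =ᶠ[𝓝 w] fun v => c0 + c1 * v ^ N + v ^ j * E v / (v ^ N) ^ k := hFw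
    rw [h0.deriv_eq]
    have h2 := (((hasDerivAt_pow N w).const_mul c1).const_add c0).add
      (((hasDerivAt_pow j w).mul hEw.differentiableAt.hasDerivAt).div
        ((hasDerivAt_pow N w).pow k) h7)
    exact h2.deriv
  have h2 : deriv (fun w => e + w ^ N) w = N * w ^ (N - 1) :=
    ((hasDerivAt_pow N w).const_add e).deriv
  have hN0 : (N : ℂ) ≠ 0 := by exact_mod_cast hN.ne'
  unfold DX nx
  rw [h1, h2]
  have h4 : (j : ℂ) * w ^ (j - 1) = j * w ^ j / w := by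
    rw [← pow_pred, mul_div_assoc, div_self hw0, mul_one]
  have h5 : (N : ℂ) * w ^ (N - 1) = N * w ^ N / w := by
    rw [← pow_pred, mul_div_assoc, div_self hw0, mul_one]
  have h8 : (k : ℂ) * (w ^ N) ^ (k - 1) = k * (w ^ N) ^ k / w ^ N := by
    rw [← pow_pred (w := w ^ N), mul_div_assoc, div_self h6, mul_one]
  have h9 : (w ^ N) ^ (k + 1) = (w ^ N) ^ k * w ^ N := pow_succ _ _
  rw [h4, h5, h8, h9]
  generalize w ^ N = u at *
  generalize w ^ j = v at *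
  generalize u ^ k = s at *
  field_simp
  ring

end MongeFin

open MongeFin

theorem MD_fin {N j : ℕ} (hN : 0 < N) (hj : 0 < j) (hjN : j ≠ N) {e c0 c1 : ℂ} {f h : ℂ → ℂ}
    (hf : AnalyticAt ℂ f 0) (hf0 : f 0 ≠ 0)
    (he : ∀ᶠ w in 𝓝 (0:ℂ), h w = c0 + c1 * w ^ N + w ^ j * f w) :
    ∃ E : ℂ → ℂ, AnalyticAt ℂ E 0 ∧ (j = 2 * N ∨ N = 2 * j → E 0 = 0) ∧
      ∀ᶠ w in 𝓝[≠] (0:ℂ), MD (fun w => e + w ^ N) h w = E w / w ^ (j + N) := by
  have hN0 : (N : ℂ) ≠ 0 := by exact_mod_cast hN.ne'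
  have hj0 : (j : ℂ) ≠ 0 := by exact_mod_cast hj.ne'
  set X : ℂ → ℂ := fun w => e + w ^ N with hX
  set F1 := nx N j 0 f with hF1
  have hF1a : AnalyticAt ℂ F1 0 := nx_ana hf
  set F2 := nx N j 1 F1 with hF2
  have hF2a : AnalyticAt ℂ F2 0 := nx_ana hF1a
  set F3 := nx N j 2 F2 with hF3
  have hF3a : AnalyticAt ℂ F3 0 := nx_ana hF2a
  set F4 := nx N j 3 F3 with hF4
  have hF4a : AnalyticAt ℂ F4 0 := nx_ana hF3a
  set F5 := nx N j 4 F4 with hF5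
  have hF5a : AnalyticAt ℂ F5 0 := nx_ana hF4a
  have hD1 : ∀ᶠ w in 𝓝[≠] (0:ℂ), DX X h w = c1 + w ^ j * F1 w / (w ^ N) ^ 1 := by
    refine DX_fin (c0 := c0) (k := 0) hN hf ((he.filter_mono nhdsWithin_le_nhds).mono fun w hw => ?_)
    rw [hw, pow_zero, div_one]
  have hD2 : ∀ᶠ w in 𝓝[≠] (0:ℂ), DX X (DX X h) w = 0 + w ^ j * F2 w / (w ^ N) ^ 2 :=
    DX_fin (k := 1) hN hF1a (hD1.mono fun w hw => by rw [hw, zero_mul, add_zero])
  have hD3 : ∀ᶠ w in 𝓝[≠] (0:ℂ), DX X (DX X (DX X h)) w = 0 + w ^ j * F3 w / (w ^ N) ^ 3 :=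
    DX_fin (k := 2) hN hF2a (hD2.mono fun w hw => by rw [hw, zero_mul, add_zero])
  have hD4 : ∀ᶠ w in 𝓝[≠] (0:ℂ), DX X (DX X (DX X (DX X h))) w =
      0 + w ^ j * F4 w / (w ^ N) ^ 4 :=
    DX_fin (k := 3) hN hF3a (hD3.mono fun w hw => by rw [hw, zero_mul, add_zero])
  have hD5 : ∀ᶠ w in 𝓝[≠] (0:ℂ), DX X (DX X (DX X (DX X (DX X h)))) w =
      0 + w ^ j * F5 w / (w ^ N) ^ 5 :=
    DX_fin (k := 4) hN hF4a (hD4.mono fun w hw => by rw [hw, zero_mul, add_zero])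
  have hF10 : F1 0 ≠ 0 := by
    rw [hF1, nx_zero]
    refine mul_ne_zero (div_ne_zero ?_ hN0) hf0
    simpa using hj0
  have hF20 : F2 0 ≠ 0 := by
    rw [hF2, nx_zero]
    refine mul_ne_zero (div_ne_zero ?_ hN0) hF10
    rw [Nat.cast_one, one_mul]
    exact sub_ne_zero.2 (by exact_mod_cast hjN)
  refine ⟨fun w => (9 * F2 w ^ 2 * F5 w - 45 * F2 w * F3 w * F4 w + 40 * F3 w ^ 3) /
    (27 * F2 w ^ 4), ?_, ?_, ?_⟩
  · refine AnalyticAt.div ?_ (analyticAt_const.mul (hF2a.pow 4))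
      (mul_ne_zero (by norm_num) (pow_ne_zero _ hF20))
    exact (((analyticAt_const.mul (hF2a.pow 2)).mul hF5a).sub
      (((analyticAt_const.mul hF2a).mul hF3a).mul hF4a)).add (analyticAt_const.mul (hF3a.pow 3))
  · intro hc
    have e3 : F3 0 = ((j : ℂ) - 2 * N) / N * F2 0 := by
      rw [hF3, nx_zero]
      norm_num
    have e4 : F4 0 = ((j : ℂ) - 3 * N) / N * F3 0 := by
      rw [hF4, nx_zero]
      norm_num
    have e5 : F5 0 = ((j : ℂ) - 4 * N) / N * F4 0 := by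
      rw [hF5, nx_zero]
      norm_num
    have h0 : 9 * F2 0 ^ 2 * F5 0 - 45 * F2 0 * F3 0 * F4 0 + 40 * F3 0 ^ 3 = 0 := by
      rcases hc with hc | hc
      · have h1 : (j : ℂ) = 2 * N := by rw [hc]; push_cast; ring
        rw [e5, e4, e3, h1]
        ring
      · have h1 : (N : ℂ) = 2 * j := by rw [hc]; push_cast; ring
        rw [e5, e4, e3, h1]
        field_simp
        ring
    show (9 * F2 0 ^ 2 * F5 0 - 45 * F2 0 * F3 0 * F4 0 + 40 * F3 0 ^ 3) / (27 * F2 0 ^ 4) = 0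
    rw [h0, zero_div]
  · filter_upwards [hD2, hD3, hD4, hD5, self_mem_nhdsWithin,
      (hF2a.continuousAt.eventually_ne hF20).filter_mono nhdsWithin_le_nhds] with
      w h2 h3 h4 h5 hw hE
    have hw0 : w ≠ 0 := hw
    have hu : w ^ N ≠ 0 := pow_ne_zero N hw0
    have hv : w ^ j ≠ 0 := pow_ne_zero j hw0
    unfold MD
    rw [h2, h3, h4, h5, pow_add]
    generalize w ^ N = u at *
    generalize w ^ j = v at *
    simp only [zero_add]
    field_simp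

end Pool.Agent.MP_ae5b4e_an_MET
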