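import Mathlib
import Pool.Agent.Lib.MP_ae5b4e_an_MET.DefsT
import Pool.Agent.Lib.MP_ae5b4e_an_ALG.LocConic

/-!
# MP_ae5b4e_an, project MET: order of a quadratic form on a germ (module TQ)
-/

set_option autoImplicit false

noncomputable section

namespace Pool.Agent.MP_ae5b4e_an_MET

open Filter Topology Set Metric Complex Polynomial
open scoped Real
open Pool.Agent.MP_ae5b4e_an_ND (Dx Dy Reg)
open Pool.Agent.MP_ae5b4e_an_FLEX
open Pool.Agent.MP_ae5b4e_an_ALG

private lemma OrdQ_le {k0 j : ℕ} {u g : ℂ → ℂ} (hu : ContinuousAt u 0) (hu0 : u 0 ≠ 0)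
    (hg : ContinuousAt g 0) (h : ∀ᶠ w in 𝓝 (0:ℂ), w ^ k0 * u w = w ^ j * g w) : j ≤ k0 := by
  by_contra hlt
  push Not at hlt
  obtain ⟨c, hc, rfl⟩ : ∃ c, 0 < c ∧ j = k0 + c := ⟨j - k0, by omega, by omega⟩
  apply hu0
  have h1 : Tendsto u (𝓝[≠] (0:ℂ)) (𝓝 (u 0)) := hu.tendsto.mono_left nhdsWithin_le_nhds
  have h2 : Tendsto (fun w : ℂ => w ^ c * g w) (𝓝[≠] (0:ℂ)) (𝓝 ((0:ℂ) ^ c * g 0)) := by
    have : ContinuousAt (fun w : ℂ => w ^ c * g w) 0 := (continuousAt_id.pow c).mul hg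
    exact this.tendsto.mono_left nhdsWithin_le_nhds
  rw [zero_pow hc.ne', zero_mul] at h2
  refine tendsto_nhds_unique h1 (h2.congr' ?_)
  filter_upwards [h.filter_mono nhdsWithin_le_nhds, self_mem_nhdsWithin] with w hw hw0
  have hw0' : w ≠ 0 := hw0
  have : w ^ k0 * u w = w ^ k0 * (w ^ c * g w) := by rw [hw]; ring
  exact (mul_left_cancel₀ (pow_ne_zero k0 hw0') this).symm

private lemma OrdQ_eq {k0 j : ℕ} {u g : ℂ → ℂ} (hu : ContinuousAt u 0) (hu0 : u 0 ≠ 0)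
    (hg : ContinuousAt g 0) (hg0 : g 0 ≠ 0)
    (h : ∀ᶠ w in 𝓝 (0:ℂ), w ^ k0 * u w = w ^ j * g w) : k0 = j :=
  le_antisymm (OrdQ_le hg hg0 hu (h.mono fun _ hw => hw.symm)) (OrdQ_le hu hu0 hg h)

theorem qf_order {a b : ℕ} (ha : 0 < a) (hab : a < b) {x1 y1 : ℂ → ℂ} (hx : AnalyticAt ℂ x1 0)
    (hx0 : x1 0 ≠ 0) (hy : AnalyticAt ℂ y1 0) (hy0 : y1 0 ≠ 0) {q : Fin 6 → ℂ}
    (hq : ∀ᶠ w in 𝓝[≠] (0:ℂ), qf q (fun w => w ^ a * x1 w) (fun w => w ^ b * y1 w) w ≠ 0) :
    ∃ (k0 : ℕ) (u : ℂ → ℂ), AnalyticAt ℂ u 0 ∧ u 0 ≠ 0 ∧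
      (∀ᶠ w in 𝓝 (0:ℂ), qf q (fun w => w ^ a * x1 w) (fun w => w ^ b * y1 w) w = w ^ k0 * u w) ∧
      (b ≠ 2 * a → k0 = 0 ∨ k0 = a ∨ (k0 = 2 * a ∧ 2 * a < b) ∨ (k0 = b ∧ b < 2 * a) ∨
        2 * (a + b) < 3 * k0) ∧
      (b = 2 * a → q 5 ≠ 0 ∨ q 3 ≠ 0 ∨ 2 * a ≤ k0) ∧ (q 5 = 0 → 0 < k0) := by
  have hidp : ∀ n : ℕ, ContinuousAt (fun w : ℂ => w ^ n) 0 := fun n => continuousAt_id.pow n
  have hxc := hx.continuousAt
  have hyc := hy.continuousAt
  have hida : ∀ n : ℕ, AnalyticAt ℂ (fun w : ℂ => w ^ n) 0 := fun n => analyticAt_id.pow n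
  have hGa : AnalyticAt ℂ (qf q (fun w => w ^ a * x1 w) (fun w => w ^ b * y1 w)) 0 := by
    have hX : AnalyticAt ℂ (fun w : ℂ => w ^ a * x1 w) 0 := (hida a).mul hx
    have hY : AnalyticAt ℂ (fun w : ℂ => w ^ b * y1 w) 0 := (hida b).mul hy
    unfold qf QC
    fun_prop
  have hne : ¬ ∀ᶠ w in 𝓝 (0:ℂ), qf q (fun w => w ^ a * x1 w) (fun w => w ^ b * y1 w) w = 0 := by
    intro h0
    have h1 := (hq.and (h0.filter_mono nhdsWithin_le_nhds)).exists
    obtain ⟨w, h2, h3⟩ := h1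
    exact h2 h3
  obtain ⟨k0, u, hu, hu0, hk⟩ := hGa.exists_eventuallyEq_pow_smul_nonzero_iff.2 hne
  have hk' : ∀ᶠ w in 𝓝 (0:ℂ),
      qf q (fun w => w ^ a * x1 w) (fun w => w ^ b * y1 w) w = w ^ k0 * u w := by
    filter_upwards [hk] with w hw
    rw [hw, sub_zero, smul_eq_mul]
  -- the two comparison principles for the form
  have key1 : ∀ (j : ℕ) (g : ℂ → ℂ), ContinuousAt g 0 →
      (∀ w, qf q (fun w => w ^ a * x1 w) (fun w => w ^ b * y1 w) w = w ^ j * g w) → j ≤ k0 := by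
    intro j g hg h
    refine OrdQ_le hu.continuousAt hu0 hg ?_
    filter_upwards [hk'] with w hw
    rw [← hw, h]
  have key2 : ∀ (j : ℕ) (g : ℂ → ℂ), ContinuousAt g 0 → g 0 ≠ 0 →
      (∀ w, qf q (fun w => w ^ a * x1 w) (fun w => w ^ b * y1 w) w = w ^ j * g w) → k0 = j := by
    intro j g hg hg0 h
    refine OrdQ_eq hu.continuousAt hu0 hg hg0 ?_
    filter_upwards [hk'] with w hw
    rw [← hw, h]
  refine ⟨k0, u, hu, hu0, hk', ?_, ?_, ?_⟩
  · intro hb
    by_cases h5 : q 5 = 0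
    swap
    · left
      refine key2 0 (qf q (fun w => w ^ a * x1 w) (fun w => w ^ b * y1 w)) hGa.continuousAt ?_ ?_
      · unfold qf QC
        simp only [zero_pow ha.ne', zero_pow (ha.trans hab).ne']
        simpa using h5
      · intro w; simp
    by_cases h3 : q 3 = 0
    swap
    · right; left
      obtain ⟨c, hc, rfl⟩ : ∃ c, 0 < c ∧ b = a + c := ⟨b - a, by omega, by omega⟩
      refine key2 a (fun w => q 0 * (w ^ a * x1 w ^ 2) + q 1 * (w ^ (a + c) * (x1 w * y1 w)) +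
        q 2 * (w ^ (a + 2 * c) * y1 w ^ 2) + q 3 * x1 w + q 4 * (w ^ c * y1 w)) ?_ ?_ ?_
      · have := hidp a; have := hidp (a + c); have := hidp (a + 2 * c); have := hidp c
        fun_prop
      · have e1 : (0:ℂ) ^ (a + 2 * c) = 0 := zero_pow (by omega)
        simp only [zero_pow ha.ne', zero_pow (ha.trans hab).ne', zero_pow hc.ne', e1]
        simpa using ⟨h3, hx0⟩
      · intro w
        simp only [qf, QC, h5]
        ring
    right; right
    rcases lt_or_gt_of_ne hb with hlt | hgt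
    · -- b < 2 a
      by_cases h4 : q 4 = 0
      · right; right
        obtain ⟨c, hc, rfl⟩ : ∃ c, 0 < c ∧ b = a + c := ⟨b - a, by omega, by omega⟩
        have := key1 (2 * a) (fun w => q 0 * (x1 w ^ 2) + q 1 * (w ^ c * (x1 w * y1 w)) +
          q 2 * (w ^ (2 * c) * y1 w ^ 2)) (by
            have := hidp (2 * c); have := hidp c
            fun_prop) (by
            intro w
            simp only [qf, QC, h5, h3, h4]
            ring)
        omega
      · right; left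
        refine ⟨?_, hlt⟩
        obtain ⟨c, e, hc, he, rfl, rfl⟩ : ∃ c e, 0 < c ∧ 0 < e ∧ a = c + e ∧ b = 2 * c + e :=
          ⟨b - a, 2 * a - b, by omega, by omega, by omega, by omega⟩
        refine key2 (2 * c + e) (fun w => q 0 * (w ^ e * x1 w ^ 2) +
          q 1 * (w ^ (c + e) * (x1 w * y1 w)) +
          q 2 * (w ^ (2 * c + e) * y1 w ^ 2) + q 4 * y1 w) ?_ ?_ ?_
        · have := hidp e; have := hidp (c + e); have := hidp (2 * c + e)
          fun_prop
        · have e1 : (0:ℂ) ^ (2 * c + e) = 0 := zero_pow (by omega)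
          have e2 : (0:ℂ) ^ (c + e) = 0 := zero_pow (by omega)
          simp only [zero_pow he.ne', e1, e2]
          simpa using ⟨h4, hy0⟩
        · intro w
          simp only [qf, QC, h5, h3]
          ring
    · -- 2 a < b
      obtain ⟨c, hc, rfl⟩ : ∃ c, 0 < c ∧ b = 2 * a + c := ⟨b - 2 * a, by omega, by omega⟩
      by_cases h0 : q 0 = 0
      · right; right
        have := key1 (2 * a + c) (fun w => q 1 * (w ^ a * (x1 w * y1 w)) +
          q 2 * (w ^ (2 * a + c) * y1 w ^ 2) + q 4 * y1 w) (by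
            have := hidp a; have := hidp (2 * a + c)
            fun_prop) (by
            intro w
            simp only [qf, QC, h5, h3, h0]
            ring)
        omega
      · left
        refine ⟨?_, by omega⟩
        refine key2 (2 * a) (fun w => q 0 * (x1 w ^ 2) +
          q 1 * (w ^ (a + c) * (x1 w * y1 w)) +
          q 2 * (w ^ (2 * a + 2 * c) * y1 w ^ 2) + q 4 * (w ^ c * y1 w)) ?_ ?_ ?_
        · have := hidp c; have := hidp (a + c); have := hidp (2 * a + 2 * c)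
          fun_prop
        · have e1 : (0:ℂ) ^ (2 * a + 2 * c) = 0 := zero_pow (by omega)
          have e2 : (0:ℂ) ^ (a + c) = 0 := zero_pow (by omega)
          simp only [zero_pow hc.ne', e1, e2]
          simpa using ⟨h0, hx0⟩
        · intro w
          simp only [qf, QC, h5, h3]
          ring
  · intro hb
    by_cases h5 : q 5 = 0
    swap
    · exact Or.inl h5
    by_cases h3 : q 3 = 0
    swap
    · exact Or.inr (Or.inl h3)
    right; right
    subst hb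
    exact key1 (2 * a) (fun w => q 0 * (x1 w ^ 2) +
      q 1 * (w ^ a * (x1 w * y1 w)) + q 2 * (w ^ (2 * a) * y1 w ^ 2) + q 4 * y1 w) (by
        have := hidp a; have := hidp (2 * a)
        fun_prop) (by
        intro w
        simp only [qf, QC, h5, h3]
        ring)
  · intro h5
    obtain ⟨c, rfl⟩ : ∃ c, a = c + 1 := ⟨a - 1, by omega⟩
    obtain ⟨e, rfl⟩ : ∃ e, b = e + 1 := ⟨b - 1, by omega⟩
    exact key1 1 (fun w => q 0 * (w ^ (2 * c + 1) * x1 w ^ 2) +
      q 1 * (w ^ (c + e + 1) * (x1 w * y1 w)) + q 2 * (w ^ (2 * e + 1) * y1 w ^ 2) +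
      q 3 * (w ^ c * x1 w) + q 4 * (w ^ e * y1 w)) (by
        have := hidp (2 * c + 1); have := hidp (c + e + 1); have := hidp (2 * e + 1)
        have := hidp c; have := hidp e
        fun_prop) (by
        intro w
        simp only [qf, QC, h5]
        ring)

/-- the field of a form of order `k0` -/
theorem kf_order {q : Fin 6 → ℂ} {X Y u : ℂ → ℂ} {k0 : ℕ} (hu : AnalyticAt ℂ u 0) (hu0 : u 0 ≠ 0)
    (h : ∀ᶠ w in 𝓝 (0:ℂ), qf q X Y w = w ^ k0 * u w) :
    ∃ k : ℂ → ℂ, AnalyticAt ℂ k 0 ∧ k 0 = -k0 ∧ ∀ᶠ w in 𝓝[≠] (0:ℂ), kf q X Y w = k w / w := by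
  refine ⟨fun w => -(k0 : ℂ) - w * (deriv u w / u w), ?_, by simp, ?_⟩
  · have h1 : AnalyticAt ℂ (fun w => deriv u w / u w) 0 := hu.deriv.div hu hu0
    exact analyticAt_const.sub (analyticAt_id.mul h1)
  · have hu1 : ∀ᶠ w in 𝓝 (0:ℂ), u w ≠ 0 := hu.continuousAt.eventually_ne hu0
    filter_upwards [h.eventually_nhds.filter_mono nhdsWithin_le_nhds,
      h.filter_mono nhdsWithin_le_nhds, hu1.filter_mono nhdsWithin_le_nhds,
      hu.eventually_analyticAt.filter_mono nhdsWithin_le_nhds, self_mem_nhdsWithin]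
      with w h1 h2 h3 h4 h5
    have h5' : w ≠ 0 := h5
    have h6 : deriv (qf q X Y) w = deriv (fun w => w ^ k0 * u w) w :=
      Filter.EventuallyEq.deriv_eq h1
    have h7 : HasDerivAt (fun w => w ^ k0 * u w)
        ((k0 : ℂ) * w ^ (k0 - 1) * u w + w ^ k0 * deriv u w) w :=
      (hasDerivAt_pow k0 w).mul h4.differentiableAt.hasDerivAt
    unfold kf
    rw [h6, h7.deriv, h2]
    rcases Nat.eq_zero_or_pos k0 with hk | hk
    · subst hk
      field_simp
      simp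
    · obtain ⟨m, rfl⟩ : ∃ m, k0 = m + 1 := ⟨k0 - 1, by omega⟩
      simp only [Nat.add_sub_cancel]
      field_simp
      ring

end Pool.Agent.MP_ae5b4e_an_MET
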