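import Mathlib
import Pool.Agent.Lib.MP_ae5b4e_an_MET.Defs
import Pool.Agent.Lib.MP_ae5b4e_an_ALG.Gf
import Pool.Agent.Lib.MP_ae5b4e_an_ALG.HfInj
import Pool.Agent.Lib.MP_ae5b4e_an_ALG.BdryB
import Pool.Agent.Lib.MP_ae5b4e_an_ALG.Lim

/-!
# MP_ae5b4e_an, project MET, module A0: limits of `H` and of its inverse
-/

set_option autoImplicit false
noncomputable section
namespace Pool.Agent.MP_ae5b4e_an_MET
open Filter Topology Set Metric Complex
open scoped Real
open Pool.Agent.MP_ae5b4e_an_ALG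

variable {p r : ℝ}

theorem lim_zero (hp : 0 < p) (hr : 0 < r) {ι : Type*} {l : Filter ι} {W : ι → ℂ}
    (hW : ∀ᶠ i in l, W i ∈ UP) (h : Tendsto (fun i => (Hf p r (W i)).re) l atTop) :
    Tendsto W l (𝓝 0) := by
  rw [tendsto_iff_ultrafilter]
  intro u hu
  have hu' : Tendsto (fun i => (Hf p r (W i)).re) u atTop := h.mono_left hu
  rcases Lim.dichotomy (hu hW) with ⟨v, hv, hi⟩ | h1
  · by_cases h0 : v = 0
    · exact h0 ▸ hv
    exfalso
    by_cases h1 : v = -p
    · have h2 := (Hf_re_mp hp hr).comp (Lim.ne_of_UP (hu hW) (by simp) (h1 ▸ hv))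
      exact h2.not_tendsto disjoint_atBot_atTop hu'
    by_cases h2 : v = r
    · have h3 := (Hf_re_r hp hr).comp (Lim.ne_of_UP (hu hW) (by simp) (h2 ▸ hv))
      exact h3.not_tendsto disjoint_atBot_atTop hu'
    have h3 := Lim.tendsto_Hf hp hr (hu hW) hi h0 h1 h2 hv
    exact not_tendsto_nhds_of_tendsto_atTop hu' _ ((Complex.continuous_re.tendsto _).comp h3)
  · exfalso
    have h3 := (Hf_tendsto_inf p r).comp h1
    exact not_tendsto_nhds_of_tendsto_atTop hu' _ ((Complex.continuous_re.tendsto _).comp h3)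

theorem lim_inf (hp : 0 < p) (hr : 0 < r) {ι : Type*} {l : Filter ι} {W : ι → ℂ}
    (hW : ∀ᶠ i in l, W i ∈ UP) (h : Tendsto (fun i => Hf p r (W i)) l (𝓝 0)) :
    Tendsto W l (Bornology.cobounded ℂ) := by
  rw [tendsto_iff_ultrafilter]
  intro u hu
  rcases ultra_cases hp hr (hu hW) (h.mono_left hu) with ⟨v, hv, hi, h0, h1, h2, h3⟩ | ⟨h1, -⟩
  · exfalso
    rcases hi.eq_or_lt with h4 | h4
    · obtain ⟨y, hy, hc⟩ := Lim.cases_real (p := p) (r := r) h4.symm h0 h1 h2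
      rw [hy] at h3
      have hpp : 0 < p * π := mul_pos hp Real.pi_pos
      have hrp : 0 < r * π := mul_pos hr Real.pi_pos
      rcases hc with hc | ⟨hc, hc'⟩ | ⟨hc, hc'⟩ | hc
      · have h6 := (Hb_I14 hp hr (Or.inl hc)).2
        rw [h3] at h6
        simp at h6
      · have h6 := Hb_I2 hp hr hc hc'
        rw [h3, Complex.zero_im] at h6
        linarith
      · have h6 := Hb_I3 hp hr hc hc'
        rw [h3, Complex.zero_im] at h6
        linarith
      · have h6 := (Hb_I14 hp hr (Or.inr hc)).2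
        rw [h3] at h6
        simp at h6
    · have h5 : Hf p r v = 0 := by rw [← Hb_eq hp hr (UP_subset_Dm h4), h3]
      have h6 := (Hf_mapsTo hp hr (show v ∈ UP from h4)).2.2
      rw [h5] at h6
      simp at h6
  · exact h1

theorem Lims.real_mem (p r : ℝ) (hp : 0 < p) (hr : 0 < r) {x : ℝ} (hx : 0 < x) :
    (x : ℂ) ∈ Xs p r := by
  have hpp : 0 < p * π := mul_pos hp Real.pi_pos
  have hrp : 0 < r * π := mul_pos hr Real.pi_pos
  refine ⟨?_, ?_, ?_⟩
  · simpa using hrp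
  · simpa using hpp
  · intro _
    simpa using hx

theorem Gf_atTop (hp : 0 < p) (hr : 0 < r) :
    Tendsto (fun x : ℝ => Gf p r x) atTop (𝓝 0) := by
  have hm : ∀ᶠ x : ℝ in atTop, Gf p r x ∈ UP ∧ Hf p r (Gf p r x) = x := by
    filter_upwards [eventually_gt_atTop 0] with x hx
    exact Gf_mem hp hr (Lims.real_mem p r hp hr hx)
  refine lim_zero hp hr (hm.mono fun x h => h.1) ?_
  refine tendsto_id.congr' ?_
  filter_upwards [hm] with x h
  rw [h.2]
  simp

theorem Gf_zero (hp : 0 < p) (hr : 0 < r) :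
    Tendsto (fun x : ℝ => Gf p r x) (𝓝[>] 0) (Bornology.cobounded ℂ) := by
  have hm : ∀ᶠ x : ℝ in 𝓝[>] 0, Gf p r x ∈ UP ∧ Hf p r (Gf p r x) = x := by
    filter_upwards [self_mem_nhdsWithin] with x hx
    exact Gf_mem hp hr (Lims.real_mem p r hp hr hx)
  refine lim_inf hp hr (hm.mono fun x h => h.1) ?_
  have h1 : Tendsto (fun x : ℝ => (x : ℂ)) (𝓝[>] 0) (𝓝 ((0 : ℝ) : ℂ)) :=
    (Complex.continuous_ofReal.tendsto 0).mono_left nhdsWithin_le_nhds
  rw [Complex.ofReal_zero] at h1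
  refine h1.congr' ?_
  filter_upwards [hm] with x h
  exact h.2.symm

theorem Hf_im_eq (hp : 0 < p) (hr : 0 < r) {V : ℂ} (hV : V ∈ UP) :
    (Hf p r V).im = p * (arg (V - r) - arg V) + r * (arg (V + p) - arg V) := by
  rw [VB.Hf_eq hV]
  simp [Complex.log_im]

end Pool.Agent.MP_ae5b4e_an_MET
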