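import Mathlib
import Pool.Agent.Lib.MP_ae5b4e_an_MET.Defs

/-!
# MP_ae5b4e_an, project MET, module A6: the inverse function near infinity
-/

set_option autoImplicit false
noncomputable section
namespace Pool.Agent.MP_ae5b4e_an_MET
open Filter Topology Set Metric Complex
open scoped Real
open Pool.Agent.MP_ae5b4e_an_ALG

namespace SInv

/-- eventually at infinity, with a radius -/
theorem radius {P : ℂ → Prop} (h : ∀ᶠ t in Bornology.cobounded ℂ, P t) :
    ∃ A : ℝ, ∀ t : ℂ, A < ‖t‖ → P t := by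
  obtain ⟨A, -, hA⟩ := hasBasis_cobounded_norm.eventually_iff.1 h
  exact ⟨A, fun t ht => hA ht.le⟩

theorem local_inv {f : ℂ → ℂ} (hf : AnalyticAt ℂ f 0) (hf0 : f 0 = 0) (hf1 : deriv f 0 ≠ 0) :
    ∃ g : ℂ → ℂ, AnalyticAt ℂ g 0 ∧ g 0 = 0 ∧ deriv g 0 = (deriv f 0)⁻¹ ∧
      (∀ᶠ z in 𝓝 (0:ℂ), f (g z) = z) ∧ ∀ᶠ z in 𝓝 (0:ℂ), g (f z) = z := by
  have ha := hf.analyticAt_localInverse hf1
  have hl : ∀ᶠ w in 𝓝 (0:ℂ), hf.hasStrictDerivAt.localInverse _ _ _ hf1 (f w) = w :=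
    hf.hasStrictDerivAt.eventually_left_inverse hf1
  have hr := hf.hasStrictDerivAt.eventually_right_inverse hf1
  have hd := (hf.hasStrictDerivAt.to_localInverse hf1).hasDerivAt
  rw [hf0] at ha hr hd
  refine ⟨hf.hasStrictDerivAt.localInverse _ _ _ hf1, ha, ?_, hd.deriv, hr, hl⟩
  have := hl.self_of_nhds
  rw [hf0] at this
  exact this

end SInv

theorem exists_inv_inf {p r c D ε R : ℝ} {V : ℂ → ℂ} (hD : 0 < D) (h : SHM p r c D ε R V) :
    ∃ (S : ℂ → ℂ) (R' : ℝ), R < R' ∧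
      (∀ v : ℂ, R' < ‖v‖ → DifferentiableAt ℂ S v ∧ R < ‖S v‖ ∧ V (S v) = v ∧
        ‖D * deriv S v - 1‖ < 1 / 2 ∧ S ((starRingEnd ℂ) v) = (starRingEnd ℂ) (S v)) ∧
      (∀ t : ℂ, R' < ‖t‖ → S (V t) = t) ∧
      Tendsto (fun v : ℂ => S v - (v + c) / D) (Bornology.cobounded ℂ) (𝓝 0) := by
  have hDc : (D : ℂ) ≠ 0 := by exact_mod_cast hD.ne'
  -- the function in the coordinate at infinity
  have hq : Tendsto (fun s : ℂ => s * V s⁻¹) (𝓝[≠] 0) (𝓝 (D : ℂ)) := by
    have h1 : Tendsto (fun s : ℂ => V s⁻¹ - D * s⁻¹) (𝓝[≠] 0) (𝓝 (-(c : ℂ))) :=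
      h.asym.comp tendsto_inv₀_nhdsNE_zero
    have h2 : Tendsto (fun s : ℂ => s) (𝓝[≠] 0) (𝓝 (0:ℂ)) := tendsto_id.mono_left
      nhdsWithin_le_nhds
    have h3 := (h2.mul h1).add_const (D : ℂ)
    rw [zero_mul, zero_add] at h3
    refine h3.congr' ?_
    filter_upwards [self_mem_nhdsWithin] with s hs
    have hs' : s ≠ 0 := hs
    field_simp
    ring
  set g : ℂ → ℂ := fun s => s * (s * V s⁻¹)⁻¹ with hg
  have hg0 : g 0 = 0 := by simp [hg]
  have hgs : ∀ s : ℂ, s ≠ 0 → g s = (V s⁻¹)⁻¹ := by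
    intro s hs
    simp only [hg]
    rw [mul_inv, ← mul_assoc, mul_inv_cancel₀ hs, one_mul]
  have hder : HasDerivAt g (D : ℂ)⁻¹ 0 := by
    rw [hasDerivAt_iff_tendsto_slope]
    refine (hq.inv₀ hDc).congr' ?_
    filter_upwards [self_mem_nhdsWithin] with s hs
    have hs' : s ≠ 0 := hs
    rw [slope_def_field, hg0, sub_zero, sub_zero]
    simp only [hg]
    rw [mul_div_right_comm, div_self hs', one_mul]
  have hR1 : ∀ᶠ s in 𝓝[≠] (0:ℂ), R < ‖s⁻¹‖ :=
    ((tendsto_norm_cobounded_atTop (E := ℂ)).comp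
      tendsto_inv₀_nhdsNE_zero).eventually_gt_atTop R
  have hga : AnalyticAt ℂ g 0 := by
    apply Complex.analyticAt_of_differentiable_on_punctured_nhds_of_continuousAt _
      hder.continuousAt
    filter_upwards [self_mem_nhdsWithin, hR1, hq.eventually_ne hDc] with s hs h1 h2
    have hs' : s ≠ 0 := hs
    exact differentiableAt_fun_id.mul ((differentiableAt_fun_id.mul
      ((h.diff _ h1).fun_comp' s (differentiableAt_inv hs'))).fun_inv h2)
  have hgd : deriv g 0 ≠ 0 := by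
    rw [hder.deriv]
    exact inv_ne_zero hDc
  obtain ⟨k, hk, hk0, hk1, hgk, hkg⟩ := SInv.local_inv hga hg0 hgd
  rw [hder.deriv, inv_inv] at hk1
  have hkt : Tendsto k (𝓝 0) (𝓝 0) := by
    have := hk.continuousAt.tendsto
    rwa [hk0] at this
  have hkn : ∀ᶠ z in 𝓝[≠] (0:ℂ), k z ≠ 0 := by
    filter_upwards [nhdsWithin_le_nhds hgk, self_mem_nhdsWithin] with z h1 h2 h3
    rw [h3, hg0] at h1
    exact h2 h1.symm
  have hkt' : Tendsto k (𝓝[≠] 0) (𝓝[≠] 0) :=
    tendsto_nhdsWithin_iff.2 ⟨hkt.mono_left nhdsWithin_le_nhds, hkn⟩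
  have hslope : Tendsto (fun z => k z / z) (𝓝[≠] 0) (𝓝 (D : ℂ)) := by
    have h1 := hasDerivAt_iff_tendsto_slope.1 hk.differentiableAt.hasDerivAt
    rw [hk1] at h1
    refine h1.congr fun z => ?_
    rw [slope_def_field, hk0, sub_zero, sub_zero]
  have hinv : Tendsto (fun v : ℂ => v⁻¹) (Bornology.cobounded ℂ) (𝓝[≠] 0) :=
    tendsto_inv₀_cobounded'
  set S : ℂ → ℂ := fun v => (k v⁻¹)⁻¹ with hS
  have hSt : Tendsto S (Bornology.cobounded ℂ) (Bornology.cobounded ℂ) :=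
    tendsto_inv₀_nhdsNE_zero.comp (hkt'.comp hinv)
  have hcob : ∀ᶠ v in Bornology.cobounded ℂ, v ≠ 0 := by
    filter_upwards [(tendsto_norm_cobounded_atTop (E := ℂ)).eventually_gt_atTop 0] with v hv
    exact norm_pos_iff.1 hv
  -- differentiability and the derivative
  have hSd : ∀ᶠ v in Bornology.cobounded ℂ,
      HasDerivAt S (deriv k v⁻¹ * (v⁻¹) ^ 2 / (k v⁻¹) ^ 2) v := by
    filter_upwards [hcob, hinv.eventually hkn,
      hinv.eventually (nhdsWithin_le_nhds hk.eventually_analyticAt)] with v h1 h2 h3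
    have h4 := h3.differentiableAt.hasDerivAt
    have h5 : HasDerivAt (fun v : ℂ => k v⁻¹) (deriv k v⁻¹ * (-(v ^ 2)⁻¹)) v :=
      h4.comp v (hasDerivAt_inv h1)
    have h6 := h5.fun_inv h2
    refine h6.congr_deriv ?_
    rw [inv_pow]
    ring
  have hDS : Tendsto (fun v : ℂ => D * deriv S v) (Bornology.cobounded ℂ) (𝓝 1) := by
    have h1 : Tendsto (fun z : ℂ => D * (deriv k z * ((k z / z) ^ 2)⁻¹)) (𝓝[≠] 0) (𝓝 1) := by
      have h2 : Tendsto (deriv k) (𝓝[≠] 0) (𝓝 (D : ℂ)) := by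
        have := hk.deriv.continuousAt.tendsto
        rw [hk1] at this
        exact this.mono_left nhdsWithin_le_nhds
      have h3 := (h2.mul ((hslope.pow 2).inv₀ (pow_ne_zero 2 hDc))).const_mul (D : ℂ)
      have h4 : (D : ℂ) * (D * ((D : ℂ) ^ 2)⁻¹) = 1 := by
        field_simp
      rwa [h4] at h3
    refine (h1.comp hinv).congr' ?_
    filter_upwards [hSd] with v hv
    rw [hv.deriv, Function.comp_apply, div_pow, inv_div]
    ring
  have hDS' : ∀ᶠ v in Bornology.cobounded ℂ, ‖D * deriv S v - 1‖ < 1 / 2 := by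
    filter_upwards [hDS.eventually (ball_mem_nhds _ (by norm_num : (0:ℝ) < 1 / 2))] with v hv
    rwa [dist_eq_norm] at hv
  have hSR : ∀ᶠ v in Bornology.cobounded ℂ, R < ‖S v‖ :=
    ((tendsto_norm_cobounded_atTop (E := ℂ)).comp hSt).eventually_gt_atTop R
  -- the two compositions
  have hVS : ∀ᶠ v in Bornology.cobounded ℂ, V (S v) = v := by
    filter_upwards [hinv.eventually hkn, hinv.eventually (nhdsWithin_le_nhds hgk)] with v h1 h2
    rw [hgs _ h1] at h2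
    exact inv_injective h2
  have hSV : ∀ᶠ t in Bornology.cobounded ℂ, S (V t) = t := by
    filter_upwards [hcob, hinv.eventually (nhdsWithin_le_nhds hkg)] with t h1 h2
    rw [hgs _ (inv_ne_zero h1), inv_inv] at h2
    simp only [hS]
    rw [h2, inv_inv]
  obtain ⟨A, hA⟩ := SInv.radius hSV
  have hSA : ∀ᶠ v in Bornology.cobounded ℂ, A < ‖S v‖ :=
    ((tendsto_norm_cobounded_atTop (E := ℂ)).comp hSt).eventually_gt_atTop A
  have hreal : ∀ᶠ v in Bornology.cobounded ℂ,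
      S ((starRingEnd ℂ) v) = (starRingEnd ℂ) (S v) := by
    filter_upwards [hSR, hSA, hVS] with v h1 h2 h3
    have h4 := hA ((starRingEnd ℂ) (S v)) (by rwa [RCLike.norm_conj])
    rwa [h.real _ h1, h3] at h4
  obtain ⟨B, hB⟩ := SInv.radius ((hSd.and hSR).and (hVS.and (hDS'.and hreal)))
  refine ⟨S, max (R + 1) (max A B), lt_of_lt_of_le (by linarith) (le_max_left _ _), ?_, ?_, ?_⟩
  · intro v hv
    obtain ⟨⟨h1, h2⟩, h3, h4, h5⟩ := hB v (lt_of_le_of_lt
      ((le_max_right A B).trans (le_max_right _ _)) hv)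
    exact ⟨h1.differentiableAt, h2, h3, h4, h5⟩
  · intro t ht
    exact hA t (lt_of_le_of_lt ((le_max_left A B).trans (le_max_right _ _)) ht)
  · have h1 := (((h.asym.comp hSt).add_const (c : ℂ)).neg).div_const (D : ℂ)
    have h2 : -(-(c : ℂ) + c) / (D : ℂ) = 0 := by simp
    rw [h2] at h1
    refine h1.congr' ?_
    filter_upwards [hVS] with v hv
    rw [Function.comp_apply, hv]
    field_simp
    ring

end Pool.Agent.MP_ae5b4e_an_MET
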