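import Mathlib
import Pool.Agent.Lib.MP_ae5b4e_an_MET.Defs
import Pool.Agent.Lib.MP_ae5b4e_an_MET.SInv
import Pool.Agent.Lib.MP_ae5b4e_an_ALG.Gf
import Pool.Agent.Lib.MP_ae5b4e_an_ALG.HfA
import Pool.Agent.Lib.MP_ae5b4e_an_ALG.HfInj
import Pool.Agent.Lib.MP_ae5b4e_an_ALG.Far

/-!
# MP_ae5b4e_an, project MET, module A7: the time function near infinity
-/

set_option autoImplicit false
noncomputable section
namespace Pool.Agent.MP_ae5b4e_an_MET
open Filter Topology Set Metric Complex
open scoped Real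
open Pool.Agent.MP_ae5b4e_an_ALG

namespace SDat

variable {c D : ℝ} {S : ℂ → ℂ}

/-- `S v` tends to infinity -/
theorem tend (hD : 0 < D)
    (h : Tendsto (fun v : ℂ => S v - (v + c) / D) (Bornology.cobounded ℂ) (𝓝 0)) :
    Tendsto S (Bornology.cobounded ℂ) (Bornology.cobounded ℂ) := by
  have hDC : (D : ℂ) ≠ 0 := by exact_mod_cast hD.ne'
  rw [← tendsto_norm_atTop_iff_cobounded]
  have h1 : ∀ᶠ v in Bornology.cobounded ℂ, ‖S v - (v + c) / D‖ < 1 := by
    have h2 := h.eventually (ball_mem_nhds (0 : ℂ) one_pos)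
    filter_upwards [h2] with v hv
    rwa [dist_zero_right] at hv
  have h3 : Tendsto (fun v : ℂ => ‖v‖ / D - (|c| / D + 1)) (Bornology.cobounded ℂ) atTop := by
    have h4 := (tendsto_norm_cobounded_atTop (E := ℂ)).atTop_div_const hD
    have h5 := tendsto_atTop_add_const_right _ (-(|c| / D + 1)) h4
    refine h5.congr fun v => ?_
    ring
  refine tendsto_atTop_mono' _ ?_ h3
  filter_upwards [h1] with v hv
  have e1 : ‖(v + c) / (D : ℂ)‖ = ‖v + c‖ / D := by
    rw [norm_div, Complex.norm_real, Real.norm_eq_abs, abs_of_pos hD]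
  have e2 : ‖v‖ - |c| ≤ ‖v + c‖ := by
    have := norm_sub_le (v + c) (c : ℂ)
    rw [add_sub_cancel_right, Complex.norm_real, Real.norm_eq_abs] at this
    linarith
  have e3 : ‖(v + c) / (D : ℂ)‖ ≤ ‖S v‖ + ‖S v - (v + c) / D‖ := by
    have e4 : (v + c) / (D : ℂ) = S v - (S v - (v + c) / D) := by ring
    conv_lhs => rw [e4]
    exact norm_sub_le _ _
  rw [e1] at e3
  have e5 : (‖v‖ - |c|) / D ≤ ‖v + c‖ / D := div_le_div_of_nonneg_right e2 hD.le
  rw [sub_div] at e5
  linarith

end SDat

theorem exists_SD {p r c D R : ℝ} {V : ℂ → ℂ} (hr : 0 < r) (hpr : r < p) (hc : p - r < 3 * c)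
    (hD : 0 < D) (hV : SHM p r c D 1 R V) : ∃ S R', SD p r c D S R' := by
  have _hc := hc
  have hp : 0 < p := hr.trans hpr
  obtain ⟨S, R', hRR', hS, hSV, hlim⟩ := exists_inv_inf hD hV
  obtain ⟨R1, hR1, -, hUP, hreal, -, -⟩ := hV.far hp hr hD 0
  have hR := hV.R_pos
  have hT := SDat.tend hD hlim
  -- a radius
  set B : ℝ := max R' R1 with hB
  have hBR' : R' ≤ B := le_max_left _ _
  have hBR1 : R1 ≤ B := le_max_right _ _
  have hTn : Tendsto (fun v => ‖S v‖) (Bornology.cobounded ℂ) atTop :=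
    tendsto_norm_atTop_iff_cobounded.2 hT
  obtain ⟨A, hA⟩ := Far.radius (hTn.eventually (eventually_gt_atTop (B + 2)))
  -- the limit
  have hL : Tendsto (fun v => V (S v + 1) - V (S v)) (Bornology.cobounded ℂ) (𝓝 (D : ℂ)) := by
    have h1 : Tendsto (fun t : ℂ => t + 1) (Bornology.cobounded ℂ) (Bornology.cobounded ℂ) :=
      tendsto_add_const_cobounded 1
    have h2 := (hV.asym.comp h1).sub hV.asym
    have h3 := (h2.add_const (D : ℂ)).comp hT
    have h4 : (-(c : ℂ)) - -(c : ℂ) + D = D := by ring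
    rw [h4] at h3
    refine h3.congr fun v => ?_
    simp only [Function.comp_apply]
    ring
  obtain ⟨A', hA'⟩ := Far.radius (hL.eventually (ball_mem_nhds (D : ℂ)
    (show (0 : ℝ) < D / 4 by linarith)))
  set Q : ℝ := max (max A A') (B + 1) with hQ
  have hQA : A ≤ Q := le_trans (le_max_left _ _) (le_max_left _ _)
  have hQA' : A' ≤ Q := le_trans (le_max_right _ _) (le_max_left _ _)
  have hQB : B + 1 ≤ Q := le_max_right _ _
  have hB0 : 0 < B := by linarith
  have hbig : ∀ v : ℂ, Q < ‖v‖ → B + 2 < ‖S v‖ := fun v hv => hA v (lt_of_le_of_lt hQA hv)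
  have hbig1 : ∀ v : ℂ, Q < ‖v‖ → B + 1 < ‖S v + 1‖ := by
    intro v hv
    have h1 := hbig v hv
    have h2 := norm_sub_le (S v + 1) (1 : ℂ)
    rw [add_sub_cancel_right, norm_one] at h2
    linarith
  -- `S v` is in the upper half plane
  have hSU : ∀ v ∈ UP, Q < ‖v‖ → S v ∈ UP := by
    intro v hv hQv
    have h0 : 0 < v.im := hv
    have h1 := hbig v hQv
    have h2 := (hS v (by linarith)).2.2.1
    show 0 < (S v).im
    by_contra hcon
    rcases lt_or_eq_of_le (not_lt.1 hcon) with h3 | h3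
    · have h4 : (starRingEnd ℂ) (S v) ∈ UP := by
        show 0 < ((starRingEnd ℂ) (S v)).im
        rw [Complex.conj_im]
        linarith
      have h5 : (V ((starRingEnd ℂ) (S v))) ∈ UP := hUP _ (by
        rw [Complex.norm_conj]
        linarith) h4
      rw [hV.real (S v) (by linarith), h2] at h5
      have h6 : 0 < ((starRingEnd ℂ) v).im := h5
      rw [Complex.conj_im] at h6
      linarith
    · have h4 : S v = (((S v).re : ℝ) : ℂ) := by
        apply Complex.ext
        · simp
        · simp [h3]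
      have h5 := (hreal (S v).re (by
        rw [h4, Complex.norm_real, Real.norm_eq_abs] at h1
        linarith)).1
      rw [← h4, h2] at h5
      linarith
  -- `Th v`
  have hTh : ∀ v ∈ QV c, Q < ‖v‖ → Th p r c v = V (S v + 1) := by
    intro v hv hQv
    have hvU : v ∈ UP := hv.2
    have h1 := hbig v hQv
    have h2 := (hS v (by linarith)).2.2.1
    have h3 := hSU v hvU hQv
    have h4 : S v + 1 ∈ UP := by
      show 0 < (S v + 1).im
      have : 0 < (S v).im := h3
      simpa using this
    have h5 : V (S v + 1) ∈ UP := hUP _ (by linarith [hbig1 v hQv]) h4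
    have h6 : Hf p r (V (S v + 1)) = Hf p r (-v - 2 * c) := by
      have h7 := hV.sym (-S v) (by rw [norm_neg]; linarith)
      rw [hV.odd (S v) (by linarith), h2] at h7
      rw [← h7]
      congr 2
      push_cast
      ring
    unfold Th
    rw [← h6]
    exact Gf_Hf hp hr h5
  refine ⟨S, Q, ?_, ?_, ?_, ?_, ?_, ?_, ?_, ?_⟩
  · linarith
  · intro v hv
    exact (hS v (by linarith)).1
  · intro v hv
    exact (hS v (by linarith)).2.2.2.2
  · intro v hv
    exact (hS v (by linarith)).2.2.2.1
  · intro v hv hQv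
    have h2 := (hS v (by linarith)).2.2.1
    have h3 := hA' v (lt_of_le_of_lt hQA' hQv)
    rw [h2, dist_eq_norm] at h3
    rw [hTh v hv hQv]
    exact h3
  · intro v hv hQv _
    rw [hTh v hv hQv]
    exact hSV _ (by linarith [hbig1 v hQv])
  · intro v hv hQv him
    have h1 := hbig v hQv
    have h2 := (hS v (by linarith)).2.2.1
    have h3 := hSU v hv hQv
    have h3' : 0 < (S v).im := h3
    set t : ℂ := 1 - (starRingEnd ℂ) (S v) with ht
    have h4 : t ∈ UP := by
      show 0 < t.im
      rw [ht, Complex.sub_im, Complex.one_im, Complex.conj_im]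
      linarith
    have h5 : B + 1 < ‖t‖ := by
      have h6 := norm_sub_le (1 : ℂ) t
      have h7 : (1 : ℂ) - t = (starRingEnd ℂ) (S v) := by
        rw [ht]
        ring
      rw [h7, Complex.norm_conj, norm_one] at h6
      linarith
    have h6 : V t ∈ UP := hUP t (by linarith) h4
    have h7 : Hf p r (V t) = Hf p r v := by
      have h8 := hV.sym ((starRingEnd ℂ) (S v)) (by rw [Complex.norm_conj]; linarith)
      rw [hV.real (S v) (by linarith), h2, Hf_conj hp hr (UP_subset_Dm hv),
        Complex.conj_eq_iff_im.2 him] at h8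
      rw [← h8, ht]
      push_cast
      rfl
    have h8 : V t = v := Hf_injOn hp hr h6 hv h7
    have h9 : S v = t := by
      rw [← h8]
      exact hSV t (by linarith)
    have h10 := congrArg Complex.re h9
    rw [ht, Complex.sub_re, Complex.one_re, Complex.conj_re] at h10
    linarith
  · have h1 : Tendsto (fun v => V (S v + 1) - V (S v)) (Bornology.cobounded ℂ ⊓ 𝓟 (QV c))
        (𝓝 (D : ℂ)) := hL.mono_left inf_le_left
    refine h1.congr' ?_
    have h2 : ∀ᶠ v in Bornology.cobounded ℂ, Q < ‖v‖ :=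
      (tendsto_norm_cobounded_atTop (E := ℂ)).eventually (eventually_gt_atTop Q)
    filter_upwards [h2.filter_mono inf_le_left, mem_inf_of_right (mem_principal_self _)] with v hv hq
    rw [hTh v hq hv, (hS v (by linarith)).2.2.1]

end Pool.Agent.MP_ae5b4e_an_MET
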