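import Mathlib
import Pool.Agent.Lib.MP_ae5b4e_an_MET.Defs
import Pool.Agent.Lib.MP_ae5b4e_an_ALG.Defs

/-!
# MP_ae5b4e_an, project MET, module A5: Julia's lemma for the upper half plane
-/

set_option autoImplicit false
noncomputable section
namespace Pool.Agent.MP_ae5b4e_an_MET
open Filter Topology Set Metric Complex
open scoped Real
open Pool.Agent.MP_ae5b4e_an_ALG

namespace Pick

theorem isOpen_UP : IsOpen UP := isOpen_lt continuous_const Complex.continuous_im

theorem convex_UP : Convex ℝ UP := by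
  have h : UP = Complex.imLm ⁻¹' Ioi 0 := rfl
  rw [h]
  exact (convex_Ioi (0:ℝ)).linear_preimage Complex.imLm

/-- the Cayley transform -/
def cay (w z : ℂ) : ℂ := (z - w) / (z - (starRingEnd ℂ) w)

/-- its inverse -/
def cin (w ζ : ℂ) : ℂ := (w - (starRingEnd ℂ) w * ζ) / (1 - ζ)

theorem den_ne {w z : ℂ} (hw : w ∈ UP) (hz : z ∈ UP) : z - (starRingEnd ℂ) w ≠ 0 := by
  intro h
  have h1 := congrArg Complex.im h
  simp only [sub_im, conj_im, zero_im] at h1
  have h2 : 0 < w.im := hw
  have h3 : 0 < z.im := hz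
  linarith

theorem normSq_num (w z : ℂ) :
    normSq (z - w) = normSq (z - (starRingEnd ℂ) w) - 4 * (z.im * w.im) := by
  simp only [normSq_apply, sub_re, sub_im, conj_re, conj_im]
  ring

theorem cay_mem {w z : ℂ} (hw : w ∈ UP) (hz : z ∈ UP) : cay w z ∈ ball (0:ℂ) 1 := by
  rw [mem_ball_zero_iff, cay, norm_div, div_lt_one (norm_pos_iff.2 (den_ne hw hz))]
  have h1 : 0 < z.im * w.im := mul_pos hz hw
  have h2 := normSq_num w z
  rw [normSq_eq_norm_sq, normSq_eq_norm_sq] at h2
  exact lt_of_pow_lt_pow_left₀ 2 (norm_nonneg _) (by linarith)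

theorem one_sub_ne {ζ : ℂ} (h : ζ ∈ ball (0:ℂ) 1) : 1 - ζ ≠ 0 := by
  intro h1
  rw [mem_ball_zero_iff, ← sub_eq_zero.1 h1, norm_one] at h
  exact lt_irrefl _ h

theorem cin_im {w ζ : ℂ} : (cin w ζ).im = w.im * (1 - normSq ζ) / normSq (1 - ζ) := by
  rw [cin, div_im]
  simp only [normSq_apply, sub_re, sub_im, one_re, one_im, mul_re, mul_im, conj_re, conj_im]
  ring

theorem cin_mem {w ζ : ℂ} (hw : w ∈ UP) (h : ζ ∈ ball (0:ℂ) 1) : cin w ζ ∈ UP := by
  have h1 : 0 < normSq (1 - ζ) := normSq_pos.2 (one_sub_ne h)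
  have h2 : normSq ζ < 1 := by
    rw [mem_ball_zero_iff] at h
    rw [normSq_eq_norm_sq]
    nlinarith [norm_nonneg ζ]
  have h3 : 0 < w.im := hw
  change 0 < (cin w ζ).im
  rw [cin_im]
  have h4 : 0 < 1 - normSq ζ := by linarith
  positivity

theorem cin_cay {w z : ℂ} (hw : w ∈ UP) (hz : z ∈ UP) : cin w (cay w z) = z := by
  have h1 := den_ne hw hz
  have h2 : w - (starRingEnd ℂ) w ≠ 0 := den_ne hw hw
  rw [cin, cay]
  have h3 : 1 - (z - w) / (z - (starRingEnd ℂ) w) =
      (w - (starRingEnd ℂ) w) / (z - (starRingEnd ℂ) w) := by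
    field_simp
    ring
  rw [h3, div_div_eq_mul_div, div_eq_iff h2]
  field_simp
  ring

theorem diff_cin (w : ℂ) : DifferentiableOn ℂ (cin w) (ball (0:ℂ) 1) := by
  intro ζ h
  exact (((differentiableAt_const w).sub ((differentiableAt_const _).mul differentiableAt_id)).div
    ((differentiableAt_const _).sub differentiableAt_id) (one_sub_ne h)).differentiableWithinAt

theorem diff_cay {w : ℂ} (hw : w ∈ UP) : DifferentiableOn ℂ (cay w) UP := by
  intro z hz
  exact ((differentiableAt_id.sub (differentiableAt_const w)).div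
    (differentiableAt_id.sub (differentiableAt_const _)) (den_ne hw hz)).differentiableWithinAt

end Pick

open Pick

/-- Schwarz - Pick -/
theorem schwarz_pick {f : ℂ → ℂ} (hf : DifferentiableOn ℂ f UP) (hm : MapsTo f UP UP) {z w : ℂ}
    (hz : z ∈ UP) (hw : w ∈ UP) :
    z.im * w.im * normSq (f z - (starRingEnd ℂ) (f w)) ≤
      (f z).im * (f w).im * normSq (z - (starRingEnd ℂ) w) := by
  have hfw := hm hw
  have hfz := hm hz
  have hd : DifferentiableOn ℂ (fun ζ => cay (f w) (f (cin w ζ))) (ball (0:ℂ) 1) :=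
    (diff_cay hfw).comp (hf.comp (diff_cin w) fun ζ h => cin_mem hw h)
      fun ζ h => hm (cin_mem hw h)
  have hmaps : MapsTo (fun ζ => cay (f w) (f (cin w ζ))) (ball (0:ℂ) 1) (closedBall (0:ℂ) 1) :=
    fun ζ h => ball_subset_closedBall (cay_mem hfw (hm (cin_mem hw h)))
  have h0 : (fun ζ => cay (f w) (f (cin w ζ))) 0 = 0 := by
    have h1 : cin w 0 = w := by rw [cin, mul_zero, sub_zero, sub_zero, div_one]
    simp only [h1]
    rw [cay, sub_self, zero_div]
  have h1 := Complex.norm_le_norm_of_mapsTo_ball hd hmaps h0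
    (mem_ball_zero_iff.1 (cay_mem hw hz))
  simp only [cin_cay hw hz] at h1
  rw [cay, cay, norm_div, norm_div, div_le_div_iff₀ (norm_pos_iff.2 (den_ne hfw hfz))
    (norm_pos_iff.2 (den_ne hw hz))] at h1
  have h2 := pow_le_pow_left₀ (by positivity) h1 2
  rw [mul_pow, mul_pow, ← normSq_eq_norm_sq, ← normSq_eq_norm_sq, ← normSq_eq_norm_sq,
    ← normSq_eq_norm_sq, normSq_num (f w) (f z), normSq_num w z] at h2
  nlinarith

theorem julia {f : ℂ → ℂ} (hf : DifferentiableOn ℂ f UP) (hm : MapsTo f UP UP)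
    (h : Tendsto (fun y : ℝ => f (y * I) / (y * I)) atTop (𝓝 1)) {z : ℂ} (hz : z ∈ UP) :
    z.im ≤ (f z).im := by
  have hy0 : Tendsto (fun y : ℝ => ((y : ℂ))⁻¹) atTop (𝓝 0) := by
    have h1 : Tendsto (fun y : ℝ => ((y⁻¹ : ℝ) : ℂ)) atTop (𝓝 ((0 : ℝ) : ℂ)) :=
      (Complex.continuous_ofReal.tendsto 0).comp tendsto_inv_atTop_zero
    simpa using h1
  have hb : Tendsto (fun y : ℝ => f (y * I) / (y * I) * I) atTop (𝓝 (1 * I)) :=
    h.mul_const I
  have hL : Tendsto (fun y : ℝ => z.im * normSq (f z * ((y : ℂ))⁻¹ -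
      (starRingEnd ℂ) (f (y * I) / (y * I) * I))) atTop
      (𝓝 (z.im * normSq (f z * 0 - (starRingEnd ℂ) (1 * I)))) :=
    ((Complex.continuous_normSq.tendsto _).comp ((hy0.const_mul (f z)).sub
      ((Complex.continuous_conj.tendsto _).comp hb))).const_mul z.im
  have hR : Tendsto (fun y : ℝ => (f z).im * (f (y * I) / (y * I) * I).im *
      normSq (z * ((y : ℂ))⁻¹ + I)) atTop
      (𝓝 ((f z).im * (1 * I).im * normSq (z * 0 + I))) :=
    (((Complex.continuous_im.tendsto _).comp hb).const_mul (f z).im).mul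
      ((Complex.continuous_normSq.tendsto _).comp ((hy0.const_mul z).add_const I))
  have hle := le_of_tendsto_of_tendsto hL hR (by
    filter_upwards [eventually_gt_atTop (0:ℝ)] with y hy
    have hyc : (y : ℂ) ≠ 0 := Complex.ofReal_ne_zero.2 hy.ne'
    have hw : (y * I : ℂ) ∈ UP := by
      change 0 < (y * I : ℂ).im
      simpa using hy
    have h1 := schwarz_pick hf hm hz hw
    have e1 : f (y * I) = y * (f (y * I) / (y * I) * I) := by
      field_simp
    have e2 : f z - (starRingEnd ℂ) (f (y * I)) = y * (f z * ((y : ℂ))⁻¹ -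
        (starRingEnd ℂ) (f (y * I) / (y * I) * I)) := by
      rw [mul_sub, mul_left_comm, mul_inv_cancel₀ hyc, mul_one]
      congr 1
      conv_lhs => rw [e1]
      rw [map_mul, Complex.conj_ofReal]
    have e3 : z - (starRingEnd ℂ) (y * I : ℂ) = y * (z * ((y : ℂ))⁻¹ + I) := by
      rw [mul_add, mul_left_comm, mul_inv_cancel₀ hyc, mul_one, map_mul, Complex.conj_ofReal,
        Complex.conj_I]
      ring
    have e4 : (f (y * I)).im = y * (f (y * I) / (y * I) * I).im := by
      conv_lhs => rw [e1]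
      rw [Complex.im_ofReal_mul]
    have e5 : (y * I : ℂ).im = y := by simp
    rw [e2, e3, e4, e5, normSq_mul, normSq_mul, normSq_ofReal] at h1
    have hy3 : 0 < y ^ 3 := by positivity
    refine le_of_mul_le_mul_left ?_ hy3
    calc y ^ 3 * (z.im * normSq (f z * ((y : ℂ))⁻¹ -
          (starRingEnd ℂ) (f (y * I) / (y * I) * I))) = z.im * y * (y * y * normSq (f z *
          ((y : ℂ))⁻¹ - (starRingEnd ℂ) (f (y * I) / (y * I) * I))) := by ring
      _ ≤ _ := h1
      _ = _ := by ring)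
  simpa using hle

theorem julia_strict {f : ℂ → ℂ} (hf : DifferentiableOn ℂ f UP) (hm : MapsTo f UP UP)
    (h : Tendsto (fun y : ℝ => f (y * I) / (y * I)) atTop (𝓝 1))
    (hne : ¬ ∃ κ : ℝ, ∀ z ∈ UP, f z = z + κ) {z : ℂ} (hz : z ∈ UP) : z.im < (f z).im := by
  have hana : AnalyticOnNhd ℂ (fun z => f z - z) UP :=
    (hf.sub differentiableOn_id).analyticOnNhd isOpen_UP
  rcases hana.is_constant_or_isOpen convex_UP.isPreconnected with ⟨w, hw⟩ | hopen
  · -- constant
    have hwim : 0 ≤ w.im := by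
      have h1 := julia hf hm h hz
      rw [← hw z hz, sub_im]
      linarith
    rcases hwim.eq_or_lt with h2 | h2
    · exfalso
      apply hne
      refine ⟨w.re, fun z' hz' => ?_⟩
      have h3 := hw z' hz'
      have h4 : ((w.re : ℝ) : ℂ) = w := by
        apply Complex.ext
        · simp
        · simpa using h2
      rw [h4, ← h3]
      ring
    · have h3 := hw z hz
      rw [← h3, sub_im] at h2
      linarith
  · by_contra hcon
    have h1 := julia hf hm h hz
    have h2 : (f z - z).im = 0 := by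
      rw [sub_im]
      linarith
    have h3 : f z - z ∈ (fun z => f z - z) '' UP := ⟨z, hz, rfl⟩
    have h4 := (hopen UP Subset.rfl isOpen_UP).mem_nhds h3
    have h5 : Tendsto (fun t : ℝ => f z - z - t * I) (𝓝[>] (0:ℝ)) (𝓝 (f z - z)) := by
      have h6 : Continuous (fun t : ℝ => f z - z - t * I) := by fun_prop
      have h7 := h6.tendsto 0
      simp only [ofReal_zero, zero_mul, sub_zero] at h7
      exact h7.mono_left nhdsWithin_le_nhds
    obtain ⟨t, ⟨z', hz', h8⟩, ht⟩ := ((h5.eventually h4).and self_mem_nhdsWithin).exists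
    have h9 := julia hf hm h hz'
    have h10 : (f z' - z').im = -t := by
      have h11 := congrArg Complex.im h8
      simp only [sub_im, Complex.mul_im, ofReal_re, ofReal_im, I_re, I_im, mul_one, mul_zero,
        add_zero] at h11 h2 ⊢
      linarith
    rw [sub_im] at h10
    have ht' : 0 < t := ht
    linarith

end Pool.Agent.MP_ae5b4e_an_MET
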