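import Mathlib
import Pool.Agent.Lib.MP_ae5b4e_an_MET.Defs
import Pool.Agent.Lib.MP_ae5b4e_an_MET.Theta
import Pool.Agent.Lib.MP_ae5b4e_an_MET.Pick

/-!
# MP_ae5b4e_an, project MET, module A8: the orbits go to infinity
-/

set_option autoImplicit false
noncomputable section
namespace Pool.Agent.MP_ae5b4e_an_MET
open Filter Topology Set Metric Complex
open scoped Real
open Pool.Agent.MP_ae5b4e_an_ALG

namespace Orbit

/-- the square root on the upper half plane -/
def sq (w : ℂ) : ℂ := Complex.exp (Complex.log w / 2)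

theorem sq_sq {w : ℂ} (hw : w ≠ 0) : sq w ^ 2 = w := by
  unfold sq
  rw [← Complex.exp_nat_mul]
  have h : ((2 : ℕ) : ℂ) * (Complex.log w / 2) = Complex.log w := by push_cast; ring
  rw [h, Complex.exp_log hw]

theorem UP_ne {w : ℂ} (hw : w ∈ UP) : w ≠ 0 := by
  rintro rfl
  simp [UP] at hw

theorem sq_pos {w : ℂ} (hw : w ∈ UP) : 0 < (sq w).re ∧ 0 < (sq w).im := by
  have h1 : 0 < w.im := hw
  have ha0 : 0 < arg w := by
    rcases lt_trichotomy (arg w) 0 with h | h | h
    · exact absurd (Complex.arg_neg_iff.mp h) (by linarith)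
    · exact absurd (Complex.arg_eq_zero_iff.mp h).2 (by linarith [h1] : w.im ≠ 0).elim
    · exact h
  have ha1 : arg w ≤ π := Complex.arg_le_pi w
  have ha2 : arg w ≠ π := by
    intro h
    exact absurd (Complex.arg_eq_pi_iff.mp h).2 h1.ne'
  have ha3 : arg w < π := lt_of_le_of_ne ha1 ha2
  have him : (Complex.log w / 2).im = arg w / 2 := by
    rw [show (Complex.log w / 2) = Complex.log w / ((2 : ℝ) : ℂ) by push_cast; rfl,
      Complex.div_ofReal_im, Complex.log_im]
  unfold sq
  rw [Complex.exp_re, Complex.exp_im, him]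
  constructor
  · apply mul_pos (Real.exp_pos _)
    apply Real.cos_pos_of_mem_Ioo
    constructor <;> linarith [Real.pi_pos]
  · apply mul_pos (Real.exp_pos _)
    apply Real.sin_pos_of_pos_of_lt_pi <;> linarith [Real.pi_pos]

theorem sq_of_sq {z : ℂ} (h0 : 0 < z.re) (h1 : 0 < z.im) : z ^ 2 ∈ UP ∧ sq (z ^ 2) = z := by
  have hU : z ^ 2 ∈ UP := by
    change 0 < (z ^ 2).im
    rw [pow_two, Complex.mul_im]
    nlinarith [mul_pos h0 h1]
  refine ⟨hU, ?_⟩
  have h2 := sq_sq (UP_ne hU)
  have h3 := (sq_pos hU).2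
  rcases sq_eq_sq_iff_eq_or_eq_neg.mp h2 with h | h
  · exact h
  · rw [h, Complex.neg_im] at h3
    linarith

theorem sq_diff {w : ℂ} (hw : w ∈ UP) : DifferentiableAt ℂ sq w := by
  unfold sq
  have h : w ∈ Complex.slitPlane := by
    rw [Complex.mem_slitPlane_iff]
    right
    exact ne_of_gt hw
  exact ((Complex.differentiableAt_log h).div_const 2).cexp

variable {p r c : ℝ}

/-- the map of the upper half plane -/
def ff (p r c : ℝ) (w : ℂ) : ℂ := (Th p r c (sq w - c) + c) ^ 2

theorem cpos (hpr : r < p) (hc : p - r < 3 * c) : 0 < c := by linarith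

theorem sq_QV {w : ℂ} (hw : w ∈ UP) : sq w - c ∈ QV c := by
  have h := sq_pos hw
  refine ⟨?_, ?_⟩
  · simp only [Complex.sub_re, Complex.ofReal_re]
    linarith
  · simp only [Complex.sub_im, Complex.ofReal_im]
    linarith

theorem pos_of_QV {V : ℂ} (hV : V ∈ QV c) : 0 < (V + c).re ∧ 0 < (V + c).im := by
  obtain ⟨h1, h2⟩ := hV
  refine ⟨?_, ?_⟩
  · simp only [Complex.add_re, Complex.ofReal_re]
    linarith
  · simp only [Complex.add_im, Complex.ofReal_im]
    linarith

theorem isOpen_QV : IsOpen (QV c) := by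
  have h : QV c = {V : ℂ | -c < V.re} ∩ {V : ℂ | 0 < V.im} := rfl
  rw [h]
  exact (isOpen_lt continuous_const Complex.continuous_re).inter
    (isOpen_lt continuous_const Complex.continuous_im)

theorem isOpen_UP : IsOpen UP := isOpen_lt continuous_const Complex.continuous_im

theorem Th_QV (hr : 0 < r) (hpr : r < p) (hc : p - r < 3 * c) {V : ℂ} (hV : V ∈ QV c) :
    Th p r c V ∈ QV c := (Th_spec hr hpr hc hV).2.2.2.2.2.2

theorem ff_diff (hr : 0 < r) (hpr : r < p) (hc : p - r < 3 * c) {w : ℂ} (hw : w ∈ UP) :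
    DifferentiableAt ℂ (ff p r c) w := by
  unfold ff
  have h1 : DifferentiableAt ℂ (Th p r c) (sq w - c) :=
    (Th_diff hr hpr hc).differentiableAt (isOpen_QV.mem_nhds (sq_QV hw))
  have h2 : DifferentiableAt ℂ (fun w => sq w - c) w := (sq_diff hw).sub_const _
  exact ((h1.comp w h2).add_const _).pow 2

theorem ff_maps (hr : 0 < r) (hpr : r < p) (hc : p - r < 3 * c) :
    MapsTo (ff p r c) UP UP := by
  intro w hw
  have h := pos_of_QV (Th_QV hr hpr hc (sq_QV (c := c) hw))
  exact (sq_of_sq h.1 h.2).1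

/-- `w (n + 1) = f (w n)` -/
theorem ff_sq {V : ℂ} (hV : V ∈ QV c) : ff p r c ((V + c) ^ 2) = (Th p r c V + c) ^ 2 := by
  have h := pos_of_QV hV
  unfold ff
  rw [(sq_of_sq h.1 h.2).2, add_sub_cancel_right]

theorem UP_I {y : ℝ} (hy : 0 < y) : (y * I : ℂ) ∈ UP := by
  change 0 < (y * I : ℂ).im
  simpa using hy

theorem norm_sq {w : ℂ} (hw : w ∈ UP) : ‖sq w‖ ^ 2 = ‖w‖ := by
  rw [← norm_pow, sq_sq (UP_ne hw)]

/-- `sq (i y)` goes to infinity -/
theorem tendsto_sq : Tendsto (fun y : ℝ => ‖sq (y * I)‖) atTop atTop := by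
  have h1 : Tendsto (fun y : ℝ => Real.sqrt y) atTop atTop := Real.tendsto_sqrt_atTop
  refine h1.congr' ?_
  filter_upwards [eventually_gt_atTop 0] with y hy
  have h2 := norm_sq (UP_I hy)
  rw [norm_mul, Complex.norm_I, mul_one, Complex.norm_real, Real.norm_eq_abs,
    abs_of_pos hy] at h2
  have h3 : Real.sqrt (‖sq (y * I)‖ ^ 2) = ‖sq (y * I)‖ := Real.sqrt_sq (norm_nonneg _)
  rwa [h2] at h3

theorem tendsto_cob {ι : Type*} {l : Filter ι} {u : ι → ℂ}
    (h : Tendsto (fun i => ‖u i‖) l atTop) : Tendsto u l (Bornology.cobounded ℂ) := by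
  rw [← tendsto_norm_atTop_iff_cobounded]
  exact h

variable {D R : ℝ} {S : ℂ → ℂ}

/-- `A - B → D` on the imaginary axis -/
theorem tendsto_diff (hS : SD p r c D S R) :
    Tendsto (fun y : ℝ => (Th p r c (sq (y * I) - c) + c) - sq (y * I)) atTop (𝓝 (D : ℂ)) := by
  have h1 : Tendsto (fun y : ℝ => sq (y * I) - c) atTop
      (Bornology.cobounded ℂ ⊓ 𝓟 (QV c)) := by
    rw [tendsto_inf]
    constructor
    · apply tendsto_cob
      have h2 : Tendsto (fun y : ℝ => ‖sq (y * I)‖ - |c|) atTop atTop :=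
        tendsto_atTop_add_const_right _ _ tendsto_sq
      refine tendsto_atTop_mono (fun y => ?_) h2
      have h3 := norm_sub_norm_le (sq (y * I)) (c : ℂ)
      rwa [Complex.norm_real, Real.norm_eq_abs] at h3
    · rw [tendsto_principal]
      filter_upwards [eventually_gt_atTop 0] with y hy
      exact sq_QV (UP_I hy)
  refine (hS.lim.comp h1).congr fun y => ?_
  simp only [Function.comp_apply]
  ring

theorem tendsto_inv_sq : Tendsto (fun y : ℝ => (sq (y * I))⁻¹) atTop (𝓝 0) :=
  tendsto_inv₀_cobounded.comp (tendsto_cob tendsto_sq)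

theorem ff_lim (hS : SD p r c D S R) :
    Tendsto (fun y : ℝ => ff p r c (y * I) / (y * I)) atTop (𝓝 1) := by
  have h1 : Tendsto (fun y : ℝ => (1 + ((Th p r c (sq (y * I) - c) + c) - sq (y * I)) *
      (sq (y * I))⁻¹) ^ 2) atTop (𝓝 ((1 + (D : ℂ) * 0) ^ 2)) :=
    (tendsto_const_nhds.add ((tendsto_diff hS).mul tendsto_inv_sq)).pow 2
  have h2 : ((1 : ℂ) + (D : ℂ) * 0) ^ 2 = 1 := by ring
  rw [h2] at h1
  refine h1.congr' ?_
  filter_upwards [eventually_gt_atTop 0] with y hy
  have hU := UP_I hy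
  have h3 : sq (y * I) ≠ 0 := by
    intro h
    have := (sq_pos hU).1
    rw [h] at this
    simp at this
  have h4 := sq_sq (UP_ne hU)
  unfold ff
  generalize Th p r c (sq (y * I) - c) + c = A
  generalize sq (y * I) = B at *
  rw [← h4]
  field_simp
  ring

theorem ff_not_trans (hD : 0 < D) (hS : SD p r c D S R) :
    ¬ ∃ κ : ℝ, ∀ z ∈ UP, ff p r c z = z + κ := by
  rintro ⟨κ, hκ⟩
  -- `(A - B) (A + B) = κ`
  have h1 : Tendsto (fun y : ℝ => ((Th p r c (sq (y * I) - c) + c) - sq (y * I)) *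
      (2 + ((Th p r c (sq (y * I) - c) + c) - sq (y * I)) *
      (sq (y * I))⁻¹)) atTop (𝓝 ((D : ℂ) * (2 + (D : ℂ) * 0))) :=
    (tendsto_diff hS).mul (tendsto_const_nhds.add ((tendsto_diff hS).mul tendsto_inv_sq))
  have h2 : Tendsto (fun y : ℝ => (κ : ℂ) * (sq (y * I))⁻¹) atTop (𝓝 ((κ : ℂ) * 0)) :=
    tendsto_const_nhds.mul tendsto_inv_sq
  have h3 : (D : ℂ) * (2 + (D : ℂ) * 0) = (κ : ℂ) * 0 := by
    refine tendsto_nhds_unique h1 (h2.congr' ?_)
    filter_upwards [eventually_gt_atTop 0] with y hy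
    have hU := UP_I hy
    have h3 : sq (y * I) ≠ 0 := by
      intro h
      have := (sq_pos hU).1
      rw [h] at this
      simp at this
    have h4 := sq_sq (UP_ne hU)
    have h5 := hκ _ hU
    unfold ff at h5
    generalize Th p r c (sq (y * I) - c) + c = A at *
    generalize sq (y * I) = B at *
    rw [← h4] at h5
    have h6 : (κ : ℂ) = A ^ 2 - B ^ 2 := by rw [h5]; ring
    rw [h6]
    field_simp
    ring
  have h4 : (D : ℂ) = 0 := by
    have : (D : ℂ) * 2 = 0 := by linear_combination h3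
    simpa using this
  exact hD.ne' (by exact_mod_cast h4)

end Orbit

open Orbit

theorem orbit_inf {p r c D R : ℝ} {S : ℂ → ℂ} (hr : 0 < r) (hpr : r < p) (hc : p - r < 3 * c)
    (hD : 0 < D) (hS : SD p r c D S R) {V : ℂ} (hV : V ∈ QV c) :
    Tendsto (fun n : ℕ => (Th p r c)^[n] V) atTop (Bornology.cobounded ℂ) ∧
      ∀ M : ℝ, ∃ n : ℕ, M < ((Th p r c)^[n] V).re := by
  have hQ : ∀ n : ℕ, (Th p r c)^[n] V ∈ QV c := by
    intro n
    induction n with
    | zero => exact hV
    | succ n ih =>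
      rw [Function.iterate_succ_apply']
      exact Th_QV hr hpr hc ih
  set w : ℕ → ℂ := fun n => ((Th p r c)^[n] V + c) ^ 2 with hw
  have hwU : ∀ n, w n ∈ UP := fun n => by
    have h := pos_of_QV (hQ n)
    exact (sq_of_sq h.1 h.2).1
  have hws : ∀ n, w (n + 1) = ff p r c (w n) := fun n => by
    simp only [hw]
    rw [ff_sq (hQ n), Function.iterate_succ_apply']
  have hd : DifferentiableOn ℂ (ff p r c) UP := fun z hz =>
    (ff_diff hr hpr hc hz).differentiableWithinAt
  have hlt : ∀ z ∈ UP, z.im < (ff p r c z).im := fun z hz =>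
    julia_strict hd (ff_maps hr hpr hc) (ff_lim hS) (ff_not_trans hD hS) hz
  have hmono : StrictMono fun n => (w n).im := by
    apply strictMono_nat_of_lt_succ
    intro n
    rw [hws n]
    exact hlt _ (hwU n)
  have hwinf : Tendsto (fun n => ‖w n‖) atTop atTop := by
    by_contra hcon
    rw [Filter.tendsto_atTop] at hcon
    push Not at hcon
    obtain ⟨B, hB⟩ := hcon
    have hB' : ∃ᶠ n in atTop, w n ∈ Metric.closedBall (0 : ℂ) B := by
      refine hB.mono fun n hn => ?_
      rw [mem_closedBall_zero_iff]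
      exact hn.le
    obtain ⟨a, -, φ, hφ, hlim⟩ := (isCompact_closedBall (0 : ℂ) B).tendsto_subseq' hB'
    have him : Tendsto (fun k => (w (φ k)).im) atTop (𝓝 a.im) :=
      (Complex.continuous_im.tendsto a).comp hlim
    have hle : ∀ n, (w n).im ≤ a.im := by
      intro n
      refine ge_of_tendsto him ?_
      filter_upwards [eventually_ge_atTop n] with k hk
      exact hmono.monotone (hk.trans (hφ.id_le k))
    have haU : a ∈ UP := lt_of_lt_of_le (hwU 0) (hle 0)
    have hf : Tendsto (fun k => (ff p r c (w (φ k))).im) atTop (𝓝 (ff p r c a).im) :=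
      (Complex.continuous_im.tendsto _).comp
        (((ff_diff hr hpr hc haU).continuousAt.tendsto).comp hlim)
    have h1 : (ff p r c a).im ≤ a.im := by
      refine le_of_tendsto hf ?_
      filter_upwards with k
      rw [← hws]
      exact hle _
    exact absurd (hlt a haU) (not_lt.mpr h1)
  have hVinf : Tendsto (fun n : ℕ => ‖(Th p r c)^[n] V‖) atTop atTop := by
    have h1 : Tendsto (fun n => Real.sqrt ‖w n‖ - |c|) atTop atTop :=
      tendsto_atTop_add_const_right _ _ (Real.tendsto_sqrt_atTop.comp hwinf)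
    refine tendsto_atTop_mono (fun n => ?_) h1
    simp only [hw]
    rw [norm_pow, Real.sqrt_sq (norm_nonneg _)]
    have h2 := norm_add_le ((Th p r c)^[n] V) (c : ℂ)
    rw [Complex.norm_real, Real.norm_eq_abs] at h2
    linarith
  refine ⟨tendsto_cob hVinf, ?_⟩
  intro M
  obtain ⟨n0, hn0⟩ := (eventually_atTop.mp (hVinf.eventually_gt_atTop R))
  have hstep : ∀ k : ℕ, ((Th p r c)^[n0] V).re + k * (3 * D / 4) ≤
      ((Th p r c)^[n0 + k] V).re := by
    intro k
    induction k with
    | zero => simp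
    | succ k ih =>
      have h1 := hS.near _ (hQ (n0 + k)) (hn0 (n0 + k) (by omega))
      rw [← Function.iterate_succ_apply' (Th p r c)] at h1
      have h2 := (Complex.abs_re_le_norm _).trans h1.le
      simp only [Complex.sub_re, Complex.ofReal_re] at h2
      have h3 := (abs_le.mp h2).1
      rw [show n0 + (k + 1) = (n0 + k).succ by omega]
      push_cast
      linarith
  obtain ⟨k, hk⟩ := exists_nat_gt ((M - ((Th p r c)^[n0] V).re) / (3 * D / 4))
  refine ⟨n0 + k, lt_of_lt_of_le ?_ (hstep k)⟩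
  have h3 : 0 < 3 * D / 4 := by positivity
  rw [div_lt_iff₀ h3] at hk
  linarith

end Pool.Agent.MP_ae5b4e_an_MET
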