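import Mathlib
import Pool.Agent.Lib.MP_ae5b4e_an_MET.Defs
import Pool.Agent.Lib.MP_ae5b4e_an_MET.Theta
import Pool.Agent.Lib.MP_ae5b4e_an_MET.Orbit

/-!
# MP_ae5b4e_an, project MET: the time function on the quarter plane
-/

set_option autoImplicit false
noncomputable section
namespace Pool.Agent.MP_ae5b4e_an_MET
open Filter Topology Set Metric Complex
open scoped Real
open Pool.Agent.MP_ae5b4e_an_ALG

namespace TDef

variable {p r c D R : ℝ} {S : ℂ → ℂ}

theorem isOpen_QV (c : ℝ) : IsOpen (QV c) := by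
  have h : QV c = {V : ℂ | -c < V.re} ∩ {V : ℂ | 0 < V.im} := rfl
  rw [h]
  exact (isOpen_lt continuous_const Complex.continuous_re).inter
    (isOpen_lt continuous_const Complex.continuous_im)

theorem norm_of_re {W : ℂ} (h : R < W.re) : R < ‖W‖ :=
  lt_of_lt_of_le h ((le_abs_self _).trans (Complex.abs_re_le_norm W))

theorem re_step (hD : 0 < D) (hS : SD p r c D S R) {W : ℂ} (hW : W ∈ QV c) (h : R < W.re) :
    R < (Th p r c W).re := by
  have h1 := hS.near W hW (norm_of_re h)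
  have h2 := (Complex.abs_re_le_norm (Th p r c W - W - D)).trans h1.le
  rw [Complex.sub_re, Complex.sub_re, Complex.ofReal_re, abs_le] at h2
  linarith [h2.1]

theorem iter_mem (hm : MapsTo (Th p r c) (QV c) (QV c)) (n : ℕ) {V : ℂ} (hV : V ∈ QV c) :
    (Th p r c)^[n] V ∈ QV c := hm.iterate n hV

theorem re_iter (hm : MapsTo (Th p r c) (QV c) (QV c)) (hD : 0 < D) (hS : SD p r c D S R)
    {W : ℂ} (hW : W ∈ QV c) (h : R < W.re) (k : ℕ) :
    R < ((Th p r c)^[k] W).re ∧ S ((Th p r c)^[k] W) = S W + k := by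
  induction k with
  | zero => simpa using h
  | succ k ih =>
    have h1 := iter_mem hm k hW
    have h2 := re_step hD hS h1 ih.1
    rw [Function.iterate_succ_apply']
    refine ⟨h2, ?_⟩
    rw [hS.step _ h1 (norm_of_re ih.1) (norm_of_re h2), ih.2]
    push_cast
    ring

theorem add_ge {A : ℂ} (hA : 0 < A.re) {x : ℝ} (hx : 0 ≤ x) :
    3 / 4 * ‖A‖ + x / 4 ≤ ‖A + x‖ := by
  have h1 : ‖A + x‖ ^ 2 = ‖A‖ ^ 2 + 2 * x * A.re + x ^ 2 := by
    rw [← Complex.normSq_eq_norm_sq, ← Complex.normSq_eq_norm_sq, Complex.normSq_apply,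
      Complex.normSq_apply]
    simp only [Complex.add_re, Complex.add_im, Complex.ofReal_re, Complex.ofReal_im]
    ring
  have h2 : (3 / 4 * ‖A‖ + x / 4) ^ 2 ≤ ‖A + x‖ ^ 2 := by
    rw [h1]
    nlinarith [sq_nonneg (‖A‖ - x), norm_nonneg A, mul_nonneg hx hA.le, sq_nonneg x,
      sq_nonneg ‖A‖]
  exact le_of_sq_le_sq h2 (norm_nonneg _)

theorem far_aux (hm : MapsTo (Th p r c) (QV c) (QV c)) (hc0 : 0 < c) (hD : 0 < D)
    (hS : SD p r c D S R) {V : ℂ} (hV : V ∈ QV c) (h : 2 * (R + c) + c < ‖V‖) (n : ℕ) :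
    ‖(Th p r c)^[n] V - V - (n * D : ℝ)‖ ≤ n * D / 4 ∧ R < ‖(Th p r c)^[n] V‖ := by
  have key : ∀ n : ℕ, ‖(Th p r c)^[n] V - V - (n * D : ℝ)‖ ≤ n * D / 4 →
      R < ‖(Th p r c)^[n] V‖ := by
    intro n hn
    have hx : (0 : ℝ) ≤ n * D := by positivity
    have hA : 0 < (V + c).re := by
      rw [Complex.add_re, Complex.ofReal_re]
      linarith [hV.1]
    have h1 := add_ge hA hx
    have h2 : ‖V‖ ≤ ‖V + c‖ + c := by
      have h3 : V = (V + c) - (c : ℂ) := by ring
      calc ‖V‖ = ‖(V + c) - (c : ℂ)‖ := by rw [← h3]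
        _ ≤ ‖V + c‖ + ‖(c : ℂ)‖ := norm_sub_le _ _
        _ = ‖V + c‖ + c := by rw [Complex.norm_real, Real.norm_of_nonneg hc0.le]
    have h4 : ‖V + c + (n * D : ℝ)‖ ≤ ‖(Th p r c)^[n] V‖ + n * D / 4 + c := by
      have h5 : V + c + (n * D : ℝ) =
          (Th p r c)^[n] V - ((Th p r c)^[n] V - V - (n * D : ℝ)) + (c : ℂ) := by ring
      rw [h5]
      refine (norm_add_le _ _).trans ?_
      refine add_le_add ((norm_sub_le _ _).trans (add_le_add le_rfl hn)) ?_
      rw [Complex.norm_real, Real.norm_of_nonneg hc0.le]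
    have hR := hS.R_pos
    nlinarith
  induction n with
  | zero =>
    have h0 : ‖(Th p r c)^[0] V - V - ((0 : ℕ) * D : ℝ)‖ ≤ ((0 : ℕ) : ℝ) * D / 4 := by simp
    exact ⟨h0, key 0 h0⟩
  | succ n ih =>
    have h1 := hS.near _ (iter_mem hm n hV) ih.2
    have h2 : ‖(Th p r c)^[n + 1] V - V - ((n + 1 : ℕ) * D : ℝ)‖ ≤ ((n + 1 : ℕ) : ℝ) * D / 4 := by
      rw [Function.iterate_succ_apply']
      have h3 : Th p r c ((Th p r c)^[n] V) - V - ((n + 1 : ℕ) * D : ℝ) =
          (Th p r c ((Th p r c)^[n] V) - (Th p r c)^[n] V - D) +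
            ((Th p r c)^[n] V - V - (n * D : ℝ)) := by
        push_cast
        ring
      rw [h3]
      refine (norm_add_le _ _).trans ?_
      have h4 := ih.1
      have h5 : ((n + 1 : ℕ) : ℝ) * D / 4 = D / 4 + n * D / 4 := by
        push_cast
        ring
      rw [h5]
      exact add_le_add h1.le h4
    exact ⟨h2, key _ h2⟩

end TDef

theorem exists_TF {p r c D R : ℝ} {S : ℂ → ℂ} (hr : 0 < r) (hpr : r < p) (hc : p - r < 3 * c)
    (hD : 0 < D) (hS : SD p r c D S R) : ∃ T R', TF p r c S T R' := by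
  have hc0 : 0 < c := by linarith
  have hm : MapsTo (Th p r c) (QV c) (QV c) := fun V hV =>
    (Th_spec hr hpr hc hV).2.2.2.2.2.2
  have hex : ∀ V ∈ QV c, ∃ n : ℕ, R < ((Th p r c)^[n] V).re := fun V hV =>
    (orbit_inf hr hpr hc hD hS hV).2 R
  obtain ⟨T, hT⟩ : ∃ T : ℂ → ℂ, ∀ V, T V =
      S ((Th p r c)^[sInf {n : ℕ | R < ((Th p r c)^[n] V).re}] V) -
        (sInf {n : ℕ | R < ((Th p r c)^[n] V).re} : ℕ) := ⟨_, fun _ => rfl⟩
  have hTn : ∀ V ∈ QV c, ∀ n : ℕ, R < ((Th p r c)^[n] V).re →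
      T V = S ((Th p r c)^[n] V) - n := by
    intro V hV n hn
    have hmem := Nat.sInf_mem (s := {n : ℕ | R < ((Th p r c)^[n] V).re}) ⟨n, hn⟩
    have hle := Nat.sInf_le (s := {n : ℕ | R < ((Th p r c)^[n] V).re}) hn
    rw [hT]
    set N := sInf {n : ℕ | R < ((Th p r c)^[n] V).re} with hN
    obtain ⟨k, rfl⟩ := Nat.exists_eq_add_of_le' hle
    have h1 := (TDef.re_iter hm hD hS (TDef.iter_mem hm N hV) hmem k).2
    rw [Function.iterate_add_apply, h1]
    push_cast
    ring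
  refine ⟨T, 2 * (R + c) + c, ?_, ?_, ?_⟩
  · intro V0 hV0
    obtain ⟨n, hn⟩ := hex V0 hV0
    have hQ : QV c ∈ 𝓝 V0 := (TDef.isOpen_QV c).mem_nhds hV0
    have hd : DifferentiableAt ℂ (Th p r c)^[n] V0 :=
      ((Th_diff hr hpr hc).iterate hm n).differentiableAt hQ
    have h1 : DifferentiableAt ℂ (fun V => S ((Th p r c)^[n] V) - n) V0 :=
      ((hS.diff _ (TDef.norm_of_re hn)).comp V0 hd).sub_const _
    have h2 : ∀ᶠ V in 𝓝 V0, R < ((Th p r c)^[n] V).re :=
      (Complex.continuous_re.continuousAt.comp hd.continuousAt).eventually_const_lt hn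
    have h3 : T =ᶠ[𝓝 V0] fun V => S ((Th p r c)^[n] V) - n := by
      filter_upwards [h2, hQ] with V hV hVQ
      exact hTn V hVQ n hV
    exact (h1.congr_of_eventuallyEq h3).differentiableWithinAt
  · intro v hv
    obtain ⟨n, hn⟩ := hex (Th p r c v) (hm hv)
    rw [hTn _ (hm hv) n hn]
    have hn' : R < ((Th p r c)^[n + 1] v).re := by
      rw [Function.iterate_succ_apply]
      exact hn
    rw [hTn v hv (n + 1) hn', Function.iterate_succ_apply]
    push_cast
    ring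
  · intro v hv hvR
    have h1 : ∀ n : ℕ, S ((Th p r c)^[n] v) = S v + n := by
      intro n
      induction n with
      | zero => simp
      | succ n ih =>
        have h2 := (TDef.far_aux hm hc0 hD hS hv hvR n).2
        have h3 := (TDef.far_aux hm hc0 hD hS hv hvR (n + 1)).2
        rw [Function.iterate_succ_apply'] at h3 ⊢
        rw [hS.step _ (TDef.iter_mem hm n hv) h2 h3, ih]
        push_cast
        ring
    obtain ⟨n, hn⟩ := hex v hv
    rw [hTn v hv n hn, h1 n]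
    ring

end Pool.Agent.MP_ae5b4e_an_MET
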