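import Mathlib
import Pool.Agent.Lib.MP_ae5b4e_an_MET.Defs
import Pool.Agent.Lib.MP_ae5b4e_an_MET.Lims
import Pool.Agent.Lib.MP_ae5b4e_an_MET.Theta
import Pool.Agent.Lib.MP_ae5b4e_an_ALG.Gf
import Pool.Agent.Lib.MP_ae5b4e_an_ALG.HfA
import Pool.Agent.Lib.MP_ae5b4e_an_ALG.HfInj

/-!
# MP_ae5b4e_an, project MET, module A10: the reflection

The real part of the time function is `1 / 2` on the curve `Im H = 0` of the quarter plane.
-/

set_option autoImplicit false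
noncomputable section
namespace Pool.Agent.MP_ae5b4e_an_MET
open Filter Topology Set Metric Complex
open scoped Real
open Pool.Agent.MP_ae5b4e_an_ALG

namespace TLine

theorem mem_Xs {p r : ℝ} (hp : 0 < p) (hr : 0 < r) {x : ℝ} (hx : 0 < x) : (x : ℂ) ∈ Xs p r := by
  refine ⟨?_, ?_, fun _ => ?_⟩
  · rw [Complex.ofReal_im, neg_lt_zero]
    exact mul_pos hr Real.pi_pos
  · rw [Complex.ofReal_im]
    exact mul_pos hp Real.pi_pos
  · rwa [Complex.ofReal_re]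

theorem ana {p r c R' : ℝ} {S T : ℂ → ℂ} (hr : 0 < r) (hpr : r < p)
    (hc : p - r < 3 * c) (hT : TF p r c S T R') {x : ℝ} (hx : 0 < x) :
    AnalyticAt ℝ (fun x : ℝ => (T (Gf p r x)).re) x := by
  have hp : 0 < p := hr.trans hpr
  have hm := mem_Xs hp hr hx
  have h1 := Gf_QV hr hpr hc hm (by simp)
  have hQ : IsOpen (QV c) :=
    (isOpen_lt continuous_const Complex.continuous_re).inter
      (isOpen_lt continuous_const Complex.continuous_im)
  have hO : IsOpen (Xs p r ∩ Gf p r ⁻¹' QV c) :=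
    (Gf_diff hp hr).continuousOn.isOpen_inter_preimage (Xs_open hp hr) hQ
  have hd : DifferentiableOn ℂ (fun z => T (Gf p r z)) (Xs p r ∩ Gf p r ⁻¹' QV c) :=
    hT.diff.comp ((Gf_diff hp hr).mono inter_subset_left) fun z hz => hz.2
  exact (hd.analyticAt (hO.mem_nhds ⟨hm, h1⟩)).re_ofReal

end TLine

theorem T_line {p r c D R R' : ℝ} {S T : ℂ → ℂ} (hr : 0 < r) (hpr : r < p)
    (hc : p - r < 3 * c) (hS : SD p r c D S R) (hT : TF p r c S T R') {x : ℝ} (hx : 0 < x) :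
    (T (Gf p r x)).re = 1 / 2 := by
  have hp : 0 < p := hr.trans hpr
  have h1 : ∀ᶠ y : ℝ in 𝓝[>] 0, max R R' < ‖Gf p r y‖ :=
    (tendsto_norm_cobounded_atTop.comp (Gf_zero hp hr)).eventually (eventually_gt_atTop _)
  obtain ⟨ε, hε, h2⟩ := mem_nhdsGT_iff_exists_Ioo_subset.mp h1
  have hε' : (0 : ℝ) < ε := hε
  have h3 : ∀ y ∈ Ioo 0 ε, (T (Gf p r (y : ℝ))).re = 1 / 2 := by
    intro y hy
    have h4 : max R R' < ‖Gf p r (y : ℝ)‖ := h2 hy
    have hm := TLine.mem_Xs hp hr hy.1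
    have hG := Gf_mem hp hr hm
    have h5 := Gf_QV hr hpr hc hm (by simp)
    rw [hT.far _ h5 ((le_max_right _ _).trans_lt h4)]
    refine hS.refl _ hG.1 ((le_max_left _ _).trans_lt h4) ?_
    rw [hG.2]
    simp
  have h6 : AnalyticOnNhd ℝ (fun x : ℝ => (T (Gf p r x)).re) (Ioi 0) :=
    fun y hy => TLine.ana hr hpr hc hT hy
  have h7 : AnalyticOnNhd ℝ (fun _ : ℝ => (1 / 2 : ℝ)) (Ioi 0) := fun y _ => analyticAt_const
  have hm : ε / 2 ∈ Ioo 0 ε := ⟨by linarith, by linarith⟩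
  have h8 : (fun x : ℝ => (T (Gf p r x)).re) =ᶠ[𝓝 (ε / 2)] fun _ : ℝ => (1 / 2 : ℝ) :=
    eventually_of_mem (Ioo_mem_nhds hm.1 hm.2) h3
  exact h6.eqOn_of_preconnected_of_eventuallyEq h7 (convex_Ioi 0).isPreconnected
    (show ε / 2 ∈ Ioi (0 : ℝ) from hm.1) h8 hx

end Pool.Agent.MP_ae5b4e_an_MET
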