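import Mathlib
import Pool.Agent.Lib.MP_ae5b4e_an_MET.Defs
import Pool.Agent.Lib.MP_ae5b4e_an_ALG.BdryB
import Pool.Agent.Lib.MP_ae5b4e_an_ALG.Lim
import Pool.Agent.Lib.MP_ae5b4e_an_ALG.Gf
import Pool.Agent.Lib.MP_ae5b4e_an_MET.Lims
import Pool.Agent.Lib.MP_ae5b4e_an_MET.Ang
import Pool.Agent.Lib.MP_ae5b4e_an_MET.Theta
import Pool.Agent.Lib.MP_ae5b4e_an_MET.SDat
import Pool.Agent.Lib.MP_ae5b4e_an_MET.TDef
import Pool.Agent.Lib.MP_ae5b4e_an_MET.TLine
import Pool.Agent.Lib.MP_ae5b4e_an_MET.TReal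

/-!
# MP_ae5b4e_an, project MET, module A12: the type XZ, `r < p`
-/

set_option autoImplicit false

noncomputable section

namespace Pool.Agent.MP_ae5b4e_an_MET

open Filter Topology Set Metric Complex

open scoped Real

open Pool.Agent.MP_ae5b4e_an_ALG

namespace XZgt

theorem real_mem {p r x : ℝ} (hp : 0 < p) (hr : 0 < r) (hx : 0 < x) : (x : ℂ) ∈ Xs p r := by
  refine ⟨?_, ?_, ?_⟩
  · rw [ofReal_im]
    have := mul_pos hr Real.pi_pos
    linarith
  · rw [ofReal_im]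
    exact mul_pos hp Real.pi_pos
  · intro _
    rw [ofReal_re]
    exact hx

theorem two_half (p : ℝ) (V : ℂ) : -V - 2 * ((p / 2 : ℝ) : ℂ) = -V - p := by
  push_cast
  ring

/-- the difference quotient of an analytic germ with nonzero derivative -/
theorem quot {ι : Type*} {l : Filter ι} {F : ℂ → ℂ} {a : ℂ} {m : ℝ} (hF : AnalyticAt ℂ F a)
    (hm : 0 < m) (hd : deriv F a = m) {v : ι → ℂ} (hv : Tendsto v l (𝓝 a))
    (hne : ∀ᶠ i in l, v i ≠ a) :
    Tendsto (fun i => (v i - a) / (F (v i) - F a)) l (𝓝 (((1 / m : ℝ)) : ℂ)) := by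
  have h1 : HasDerivAt F (m : ℂ) a := hd ▸ hF.differentiableAt.hasDerivAt
  have h2 := hasDerivAt_iff_tendsto_slope.1 h1
  have h3 : Tendsto v l (𝓝[≠] a) := tendsto_nhdsWithin_iff.2 ⟨hv, hne⟩
  have h4 := h2.comp h3
  have hm0 : (m : ℂ) ≠ 0 := ofReal_ne_zero.2 hm.ne'
  have h5 := h4.inv₀ hm0
  have h6 : ((1 / m : ℝ) : ℂ) = (m : ℂ)⁻¹ := by
    push_cast
    rw [one_div]
  rw [h6]
  refine h5.congr' ?_
  filter_upwards [hne] with i hi
  simp only [Function.comp, slope_def_field, inv_div]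

end XZgt

theorem no_shm_XZ_gt {p r D R : ℝ} {V : ℂ → ℂ} (hr : 0 < r) (hpr : r < p) (hD : 0 < D) :
    ¬ SHM p r (p / 2) D 1 R V := by
  intro hV
  have hp : 0 < p := hr.trans hpr
  have hc : p - r < 3 * (p / 2) := by linarith
  have hc0 : 0 < p / 2 := by linarith
  have hcp : p / 2 < p := by linarith
  have hc2 : p / 2 * (p - p / 2) ≤ (3 * (p / 2) + r - p) * (p / 2 + r) := by nlinarith
  have hc3 : p ≤ 2 * (p / 2) + r := by linarith
  obtain ⟨S, R1, hS⟩ := exists_SD hr hpr hc hD hV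
  obtain ⟨T, R2, hT⟩ := exists_TF hr hpr hc hD hS
  obtain ⟨Tr, hTa, hTe, hTc, m, hm, hTm⟩ := T_real hr hpr hc hc0 hcp hD hS hT
    (fun y hy => no_fix hr hpr hc hc0 hcp hc2 hc3 hy) (y := r) (by linarith)
  -- the points
  have hX : ∀ x : ℝ, 0 < x → (x : ℂ) ∈ Xs p r := fun x hx => XZgt.real_mem hp hr hx
  have hGm : ∀ x : ℝ, 0 < x → Gf p r x ∈ UP ∧ Hf p r (Gf p r x) = x := fun x hx =>
    Gf_mem hp hr (hX x hx)
  have hGQ : ∀ x : ℝ, 0 < x → Gf p r x ∈ QV (p / 2) := fun x hx =>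
    Gf_QV hr hpr hc (hX x hx) (by rw [ofReal_im])
  have hpos : ∀ᶠ x : ℝ in atTop, 0 < x := eventually_gt_atTop 0
  have hG0 : Tendsto (fun x : ℝ => Gf p r x) atTop (𝓝 0) := Gf_atTop hp hr
  have hHe : ∀ x : ℝ, 0 < x →
      Hf p r (Th p r (p / 2) (Gf p r x)) = Hf p r (-Gf p r x - p) := by
    intro x hx
    have h1 := (Th_spec hr hpr hc (hGQ x hx)).2.2.2.2.1
    rwa [XZgt.two_half] at h1
  have hUP : ∀ x : ℝ, 0 < x → Th p r (p / 2) (Gf p r x) ∈ UP := fun x hx =>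
    (Th_spec hr hpr hc (hGQ x hx)).2.2.2.1
  have hIm : ∀ x : ℝ, 0 < x → 0 < (Hf p r (Th p r (p / 2) (Gf p r x))).im := by
    intro x hx
    have h1 := Th_spec hr hpr hc (hGQ x hx)
    rw [h1.2.2.2.2.1]
    exact h1.2.1
  -- the next point tends to `r`
  have hmp : Tendsto (fun x : ℝ => -Gf p r x - p) atTop (𝓝[≠] (-p : ℂ)) := by
    refine tendsto_nhdsWithin_iff.2 ⟨?_, ?_⟩
    · have h1 := (hG0.neg).sub_const (p : ℂ)
      simpa using h1
    · filter_upwards [hpos] with x hx he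
      have h1 : Gf p r x = 0 := by
        have h2 : -Gf p r x - (p : ℂ) = -p := he
        linear_combination -h2
      have h3 : 0 < (Gf p r x).im := (hGm x hx).1
      rw [h1] at h3
      simp at h3
  have hre : Tendsto (fun x : ℝ => (Hf p r (Th p r (p / 2) (Gf p r x))).re) atTop atBot := by
    refine ((Hf_re_mp hp hr).comp hmp).congr' ?_
    filter_upwards [hpos] with x hx
    rw [hHe x hx]
    rfl
  have hV1r : Tendsto (fun x : ℝ => Th p r (p / 2) (Gf p r x)) atTop (𝓝 (r : ℂ)) :=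
    lim_r hp hr (hpos.mono fun x hx => hUP x hx) hre (hpos.mono fun x hx => hIm x hx)
  have hV1w : Tendsto (fun x : ℝ => Th p r (p / 2) (Gf p r x)) atTop (𝓝[UP] (r : ℂ)) :=
    tendsto_nhdsWithin_iff.2 ⟨hV1r, hpos.mono fun x hx => hUP x hx⟩
  have hTT : ∀ᶠ x : ℝ in atTop, T (Th p r (p / 2) (Gf p r x)) = Tr (Th p r (p / 2) (Gf p r x)) :=
    hV1w.eventually hTe
  have hre32 : ∀ᶠ x : ℝ in atTop, (Tr (Th p r (p / 2) (Gf p r x))).re = 3 / 2 := by
    filter_upwards [hpos, hTT] with x hx h1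
    rw [← h1, hT.step _ (hGQ x hx), add_re, T_line hr hpr hc hS hT hx, one_re]
    norm_num
  have hTlim : Tendsto (fun x : ℝ => Tr (Th p r (p / 2) (Gf p r x))) atTop (𝓝 (Tr r)) :=
    (hTa.continuousAt.tendsto).comp hV1r
  have hτ : (Tr r).re = 3 / 2 := by
    have h1 : Tendsto (fun x : ℝ => (Tr (Th p r (p / 2) (Gf p r x))).re) atTop (𝓝 (Tr r).re) :=
      (Complex.continuous_re.tendsto _).comp hTlim
    have h2 : Tendsto (fun x : ℝ => (Tr (Th p r (p / 2) (Gf p r x))).re) atTop (𝓝 (3 / 2)) :=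
      tendsto_const_nhds.congr' (hre32.mono fun x hx => hx.symm)
    exact tendsto_nhds_unique h1 h2
  have hne : ∀ᶠ x : ℝ in atTop, Th p r (p / 2) (Gf p r x) ≠ r := by
    filter_upwards [hpos] with x hx he
    have h3 : 0 < (Th p r (p / 2) (Gf p r x)).im := hUP x hx
    rw [he, ofReal_im] at h3
    exact lt_irrefl _ h3
  have hq := XZgt.quot hTa hm hTm hV1r hne
  have hfin := xz_angle (l := atTop) hp hr (V := fun x : ℝ => Gf p r x)
    (V1 := fun x : ℝ => Th p r (p / 2) (Gf p r x))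
    (δ := fun x : ℝ => Tr (Th p r (p / 2) (Gf p r x)) - Tr r) (κ := 1 / m) (by positivity)
    (hpos.mono fun x hx => (hGm x hx).1) hG0
    (hpos.mono fun x hx => by
      show (Hf p r (Gf p r x)).im = 0
      rw [(hGm x hx).2, ofReal_im])
    (hpos.mono fun x hx => hUP x hx) hV1r (hpos.mono fun x hx => hHe x hx)
    (hre32.mono fun x hx => by
      show (Tr (Th p r (p / 2) (Gf p r x)) - Tr r).re = 0
      rw [sub_re, hx, hτ, sub_self])
    hq
  linarith

end Pool.Agent.MP_ae5b4e_an_MET
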