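import Mathlib
import Pool.Agent.Lib.MP_ae5b4e_an_MET.Defs
import Pool.Agent.Lib.MP_ae5b4e_an_MET.Lims
import Pool.Agent.Lib.MP_ae5b4e_an_MET.Ang
import Pool.Agent.Lib.MP_ae5b4e_an_ALG.Gf
import Pool.Agent.Lib.MP_ae5b4e_an_ALG.HfA
import Pool.Agent.Lib.MP_ae5b4e_an_ALG.HfInj
import Pool.Agent.Lib.MP_ae5b4e_an_ALG.Bdry
import Pool.Agent.Lib.MP_ae5b4e_an_ALG.BdryB
import Pool.Agent.Lib.MP_ae5b4e_an_ALG.Side
import Pool.Agent.Lib.MP_ae5b4e_an_ALG.Lim
import Pool.Agent.Lib.MP_ae5b4e_an_ALG.Far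
import Pool.Agent.Lib.MP_ae5b4e_an_ALG.ExtB
import Pool.Agent.Lib.MP_ae5b4e_an_ALG.RealPos
import Pool.Agent.Lib.MP_ae5b4e_an_ALG.NoPi

/-!
# MP_ae5b4e_an, project MET, module A2: the type XZ, `p < r`
-/

set_option autoImplicit false
noncomputable section
namespace Pool.Agent.MP_ae5b4e_an_MET
open Filter Topology Set Metric Complex
open scoped Real
open Pool.Agent.MP_ae5b4e_an_ALG

namespace XZlt
variable {p r D R : ℝ} {V W : ℂ → ℂ}

/-- `W` tends to the real number `x` at the real point `b` -/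
def At (W : ℂ → ℂ) (b x : ℝ) : Prop := Tendsto W (𝓝[UP] (b : ℂ)) (𝓝 (x : ℂ))

theorem shift {a b b' : ℝ} (h : b + a = b') :
    Tendsto (fun t : ℂ => t + (a : ℂ)) (𝓝[UP] (b : ℂ)) (𝓝[UP] (b' : ℂ)) := by
  rw [tendsto_nhdsWithin_iff]
  constructor
  · have h1 : ContinuousAt (fun t : ℂ => t + (a : ℂ)) (b : ℂ) := by fun_prop
    have h2 := h1.tendsto.mono_left (nhdsWithin_le_nhds (s := UP))
    have h3 : (b : ℂ) + (a : ℂ) = (b' : ℂ) := by exact_mod_cast h
    rwa [h3] at h2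
  · filter_upwards [self_mem_nhdsWithin] with t ht
    have h3 : 0 < t.im := ht
    change 0 < (t + (a : ℂ)).im
    simpa using h3

theorem mirror {b b' : ℝ} (h : -b = b') :
    Tendsto (fun t : ℂ => -(starRingEnd ℂ) t) (𝓝[UP] (b : ℂ)) (𝓝[UP] (b' : ℂ)) := by
  rw [tendsto_nhdsWithin_iff]
  constructor
  · have h1 : ContinuousAt (fun t : ℂ => -(starRingEnd ℂ) t) (b : ℂ) :=
      Complex.continuous_conj.neg.continuousAt
    have h2 := h1.tendsto.mono_left (nhdsWithin_le_nhds (s := UP))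
    have h3 : -(starRingEnd ℂ) (b : ℂ) = (b' : ℂ) := by
      rw [conj_ofReal]
      exact_mod_cast h
    rwa [h3] at h2
  · filter_upwards [self_mem_nhdsWithin] with t ht
    have h3 : 0 < t.im := ht
    change 0 < (-(starRingEnd ℂ) t).im
    simpa using h3

theorem add_mem {t : ℂ} (ht : t ∈ UP) (a : ℝ) : t + (a : ℂ) ∈ UP := by
  have h3 : 0 < t.im := ht
  change 0 < (t + (a : ℂ)).im
  simpa using h3

theorem ev_up (hW : Ext p r (p / 2) 1 V W) (a b : ℝ) :
    ∀ᶠ t in 𝓝[UP] (b : ℂ), W (t + (a : ℂ)) ∈ UP := by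
  filter_upwards [self_mem_nhdsWithin] with t ht
  exact hW.up _ (add_mem ht a)

theorem ev_up0 (hW : Ext p r (p / 2) 1 V W) (b : ℝ) : ∀ᶠ t in 𝓝[UP] (b : ℂ), W t ∈ UP := by
  filter_upwards [self_mem_nhdsWithin] with t ht
  exact hW.up _ ht

theorem hstep (hp : 0 < p) (hr : 0 < r) (hW : Ext p r (p / 2) 1 V W) {t : ℂ} (ht : t ∈ UP) :
    Hf p r (W (t + ((1 : ℝ) : ℂ))) =
      (starRingEnd ℂ) (Hf p r (NoPi.refl (p / 2) (W t))) := by
  rw [hW.step t ht, ← Hf_conj hp hr (UP_subset_Dm (NoPi.refl_up (hW.up t ht)))]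
  congr 1
  simp only [NoPi.refl, map_sub, map_neg, conj_conj, map_mul, conj_ofReal, RealPos.conj_two]

theorem ev_step (hp : 0 < p) (hr : 0 < r) (hW : Ext p r (p / 2) 1 V W) (b : ℝ) :
    ∀ᶠ t in 𝓝[UP] (b : ℂ), Hf p r (W (t + ((1 : ℝ) : ℂ))) =
      (starRingEnd ℂ) (Hf p r (NoPi.refl (p / 2) (W t))) := by
  filter_upwards [self_mem_nhdsWithin] with t ht
  exact hstep hp hr hW ht

theorem at_next {b b' x : ℝ} (hb : b + 1 = b')
    (h : Tendsto (fun t : ℂ => W (t + ((1 : ℝ) : ℂ))) (𝓝[UP] (b : ℂ)) (𝓝 (x : ℂ))) :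
    At W b' x := by
  have h1 := h.comp (shift (a := -1) (b := b') (b' := b) (by linarith))
  have h2 : (fun t : ℂ => W (t + ((1 : ℝ) : ℂ))) ∘ (fun t : ℂ => t + ((-1 : ℝ) : ℂ)) = W := by
    funext t
    simp
  rwa [h2] at h1

theorem next_at {b b' x : ℝ} (hb : b + 1 = b') (h : At W b' x) :
    Tendsto (fun t : ℂ => W (t + ((1 : ℝ) : ℂ))) (𝓝[UP] (b : ℂ)) (𝓝 (x : ℂ)) :=
  Tendsto.comp h (shift (a := 1) (b := b) (b' := b') hb)

theorem of_refl {l : Filter ℂ} {w : ℂ → ℂ} {x : ℝ}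
    (h : Tendsto (fun t => NoPi.refl (p / 2) (w t)) l (𝓝 (x : ℂ))) :
    Tendsto w l (𝓝 ((-x - p : ℝ) : ℂ)) := by
  have h1 : Tendsto (fun t => -(starRingEnd ℂ) (NoPi.refl (p / 2) (w t)) - (p : ℂ)) l
      (𝓝 (-(starRingEnd ℂ) (x : ℂ) - (p : ℂ))) :=
    (((Complex.continuous_conj.tendsto _).comp h).neg).sub_const _
  have h2 : (fun t => -(starRingEnd ℂ) (NoPi.refl (p / 2) (w t)) - (p : ℂ)) = w := by
    funext t
    simp only [NoPi.refl, map_sub, map_neg, conj_conj, map_mul, conj_ofReal, RealPos.conj_two]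
    push_cast
    ring
  rw [h2] at h1
  simpa using h1

theorem ne_of_up {l : Filter ℂ} {w : ℂ → ℂ} {x : ℝ} (hw : ∀ᶠ t in l, w t ∈ UP)
    (h : Tendsto w l (𝓝 (x : ℂ))) : Tendsto w l (𝓝[≠] (x : ℂ)) := by
  rw [tendsto_nhdsWithin_iff]
  refine ⟨h, ?_⟩
  filter_upwards [hw] with t ht
  have h1 : 0 < (w t).im := ht
  intro h2
  have h3 : w t = (x : ℂ) := h2
  rw [h3] at h1
  simp at h1

/-- one step back from `r` -/
theorem back_r (hp : 0 < p) (hr : 0 < r) (hW : Ext p r (p / 2) 1 V W) {b b' : ℝ}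
    (hb : b + 1 = b') (h : At W b' r) : At W b 0 := by
  have h1 := next_at hb h
  have hup := ev_up hW 1 b
  have h2 := (Hf_re_r hp hr).comp (ne_of_up hup h1)
  have h3 : ∀ᶠ t in 𝓝[UP] (b : ℂ), 0 < (Hf p r (W (t + ((1 : ℝ) : ℂ)))).im :=
    (tendsto_nhdsWithin_iff.2 ⟨h1, hup⟩ : Tendsto (fun t : ℂ => W (t + ((1 : ℝ) : ℂ)))
      (𝓝[UP] (b : ℂ)) (𝓝[UP] (r : ℂ))).eventually (Hf_side4 hp hr le_rfl)
  have hst := ev_step hp hr hW b
  have h4 : Tendsto (fun t => NoPi.refl (p / 2) (W t)) (𝓝[UP] (b : ℂ)) (𝓝 (-p : ℂ)) := by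
    refine lim_mp hp hr ((ev_up0 hW b).mono fun t ht => NoPi.refl_up ht) ?_ ?_
    · refine h2.congr' ?_
      filter_upwards [hst] with t ht
      simp only [Function.comp]
      rw [ht, conj_re]
    · filter_upwards [hst, h3] with t ht ht3
      rw [ht, conj_im] at ht3
      linarith
  have h5 := of_refl (p := p) (x := -p) (by simpa using h4)
  simpa [At] using h5

/-- one step from `-p` -/
theorem fwd_mp (hp : 0 < p) (hr : 0 < r) (hW : Ext p r (p / 2) 1 V W) {b b' : ℝ}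
    (hb : b + 1 = b') (h : At W b (-p)) : At W b' 0 := by
  refine at_next hb ?_
  have hup := ev_up hW 1 b
  have h1 := NoPi.tendsto_refl (c := p / 2) (ev_up0 hW b) h
  have h2 : Tendsto (fun t => NoPi.refl (p / 2) (W t)) (𝓝[UP] (b : ℂ)) (𝓝[≠] (0 : ℂ)) := by
    have h3 := ne_of_up ((ev_up0 hW b).mono fun t ht => NoPi.refl_up (c := p / 2) ht)
      (tendsto_nhdsWithin_iff.1 h1).1
    have h4 : ((- -p - 2 * (p / 2) : ℝ) : ℂ) = 0 := by
      rw [show (- -p - 2 * (p / 2) : ℝ) = 0 by ring]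
      simp
    rwa [h4] at h3
  have h5 := (Hf_re_zero hp hr).comp h2
  have h6 := lim_zero hp hr hup (h5.congr' (by
    filter_upwards [ev_step hp hr hW b] with t ht
    simp only [Function.comp]
    rw [ht, conj_re]))
  simpa using h6

/-- one step from `0` -/
theorem fwd_zero (hp : 0 < p) (hr : 0 < r) (hW : Ext p r (p / 2) 1 V W) {b b' : ℝ}
    (hb : b + 1 = b') (h : At W b 0) : At W b' r := by
  refine at_next hb ?_
  have hup := ev_up hW 1 b
  have h1 := NoPi.tendsto_refl (c := p / 2) (ev_up0 hW b) h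
  have h4 : ((-0 - 2 * (p / 2) : ℝ) : ℂ) = ((-p : ℝ) : ℂ) := by
    rw [show (-0 - 2 * (p / 2) : ℝ) = -p by ring]
  rw [h4] at h1
  have h2 : Tendsto (fun t => NoPi.refl (p / 2) (W t)) (𝓝[UP] (b : ℂ)) (𝓝[≠] (-p : ℂ)) := by
    have h3 := ne_of_up ((ev_up0 hW b).mono fun t ht => NoPi.refl_up (c := p / 2) ht)
      (tendsto_nhdsWithin_iff.1 h1).1
    simpa using h3
  have h5 := (Hf_re_mp hp hr).comp h2
  refine lim_r hp hr hup (h5.congr' (by
    filter_upwards [ev_step hp hr hW b] with t ht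
    simp only [Function.comp]
    rw [ht, conj_re])) ?_
  filter_upwards [ev_step hp hr hW b, h1.eventually (Hf_side1 hp hr le_rfl)] with t ht ht1
  rw [ht, conj_im]
  linarith

/-- one step on the real axis -/
theorem fwd_real (hp : 0 < p) (hr : 0 < r) (hW : Ext p r (p / 2) 1 V W) {b b' y y' : ℝ}
    (hb : b + 1 = b') (hy : 0 < y) (hy' : r < y')
    (hH : Hb p r (y' : ℂ) = Hb p r ((-y - p : ℝ) : ℂ)) (h : At W b y) : At W b' y' := by
  refine at_next hb ?_
  have hup := ev_up hW 1 b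
  have h1 := NoPi.tendsto_refl (c := p / 2) (ev_up0 hW b) h
  have h4 : (-y - 2 * (p / 2) : ℝ) = -y - p := by ring
  rw [h4] at h1
  have h5 := NoPi.lim_Hb hp hr (x := -y - p) (by linarith) (by linarith) (by linarith) h1
  have h6 : (starRingEnd ℂ) (Hb p r ((-y - p : ℝ) : ℂ)) = Hb p r ((-y - p : ℝ) : ℂ) :=
    conj_eq_iff_im.mpr (Hb_I14 hp hr (Or.inl (by linarith))).1
  have h7 := (Complex.continuous_conj.tendsto _).comp h5
  rw [h6, ← hH] at h7
  refine lim_4 hp hr hup hy' (h7.congr' (by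
    filter_upwards [ev_step hp hr hW b] with t ht
    simp only [Function.comp]
    rw [ht])) ?_
  filter_upwards [ev_step hp hr hW b,
    h1.eventually (Hf_side1 hp hr (x := -y - p) (by linarith))] with t ht ht1
  rw [ht, conj_im]
  linarith

/-- the reflection -/
theorem at_mirror (hW : Ext p r (p / 2) 1 V W) {b b' x : ℝ} (hb : -b = b') (h : At W b x) :
    At W b' (-x - p) := by
  have h1 := h.comp (mirror (b := b') (b' := b) (by linarith))
  have h2 : Tendsto (fun t : ℂ => -(starRingEnd ℂ) (W (-(starRingEnd ℂ) t)) - (p : ℂ))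
      (𝓝[UP] (b' : ℂ)) (𝓝 (-(starRingEnd ℂ) (x : ℂ) - (p : ℂ))) :=
    (((Complex.continuous_conj.tendsto _).comp h1).neg).sub_const _
  have h3 : -(starRingEnd ℂ) (x : ℂ) - (p : ℂ) = ((-x - p : ℝ) : ℂ) := by
    rw [conj_ofReal]
    push_cast
    ring
  rw [h3] at h2
  refine h2.congr' ?_
  filter_upwards [self_mem_nhdsWithin] with t ht
  rw [hW.s0 t ht]
  simp only [map_sub, map_neg, conj_conj, map_mul, conj_ofReal, RealPos.conj_two]
  push_cast
  ring

/-- the two orbits -/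
theorem orbits (hp : 0 < p) (hr : 0 < r) (hW : Ext p r (p / 2) 1 V W) {a a' : ℝ}
    (h : At W a r) (h' : At W a' r) (n : ℕ) :
    ∃ y : ℝ, r ≤ y ∧ At W (a + n) y ∧ At W (a' + n) y := by
  induction n with
  | zero => exact ⟨r, le_rfl, by simpa using h, by simpa using h'⟩
  | succ n ih =>
    obtain ⟨y, hy, h1, h2⟩ := ih
    obtain ⟨h3, h4⟩ := Hb_I14 hp hr (x := -y - p) (Or.inl (by linarith))
    obtain ⟨y', hy', hH⟩ := Hb_surj4 hp hr h3 h4
    refine ⟨y', hy'.le, ?_, ?_⟩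
    · exact fwd_real hp hr hW (by push_cast; ring) (by linarith) hy' hH h1
    · exact fwd_real hp hr hW (by push_cast; ring) (by linarith) hy' hH h2

/-- far away `W` is `V` -/
theorem at_far (hV : SHM p r (p / 2) D 1 R V) {R0 : ℝ} (h0 : ∀ t ∈ UP, R0 < ‖t‖ → W t = V t)
    {b x : ℝ} (hb : R0 < |b|) (hb' : R < |b|) (h : At W b x) : V b = x := by
  have h1 : Tendsto V (𝓝[UP] (b : ℂ)) (𝓝 (V b)) :=
    ((hV.diff (b : ℂ) (by simpa using hb')).continuousAt.tendsto).mono_left nhdsWithin_le_nhds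
  have h2 : ∀ᶠ t in 𝓝[UP] (b : ℂ), R0 < ‖t‖ := by
    have h3 : ContinuousAt (fun t : ℂ => ‖t‖) (b : ℂ) := by fun_prop
    exact (h3.eventually (lt_mem_nhds (by simpa using hb))).filter_mono nhdsWithin_le_nhds
  have h3 : Tendsto W (𝓝[UP] (b : ℂ)) (𝓝 (V b)) := by
    refine h1.congr' ?_
    filter_upwards [h2, self_mem_nhdsWithin] with t ht1 ht2
    exact (h0 t ht2 ht1).symm
  have := Side.neBot_UP b
  exact tendsto_nhds_unique h3 h

end XZlt

section A2
theorem no_shm_XZ_lt {p r D R : ℝ} {V : ℂ → ℂ} (hp : 0 < p) (hpr : p < r) (hD : 0 < D) :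
    ¬ SHM p r (p / 2) D 1 R V := by
  intro hV
  have hr : 0 < r := hp.trans hpr
  obtain ⟨W, hW⟩ := exists_ext hp hpr hD (Or.inl ⟨rfl, by positivity⟩) hV
  obtain ⟨a, Vr, hVa, hVr, -, ⟨m, hm, hdm⟩, hWV⟩ :=
    real_pos hp hpr hD (by positivity) hV hW (y := r) (by linarith)
  have har : XZlt.At W a r := by
    have h1 : Tendsto Vr (𝓝[UP] (a : ℂ)) (𝓝 (Vr a)) :=
      (hVa.continuousAt.tendsto).mono_left nhdsWithin_le_nhds
    rw [hVr] at h1
    refine h1.congr' ?_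
    filter_upwards [hWV] with t ht
    exact ht.symm
  have h0 : XZlt.At W (a - 1) 0 := XZlt.back_r hp hr hW (by ring) har
  have h1 : XZlt.At W (1 - a) (-p) := by
    have h2 := XZlt.at_mirror hW (b' := 1 - a) (by ring) h0
    simpa using h2
  have h2 : XZlt.At W (2 - a) 0 := XZlt.fwd_mp hp hr hW (by ring) h1
  have h3 : XZlt.At W (3 - a) r := XZlt.fwd_zero hp hr hW (by ring) h2
  have ha : a = 3 / 2 := by
    obtain ⟨R0, hR0⟩ := hW.far
    obtain ⟨R1, hR1, -, -, -, hinj, -⟩ := SHM.far hp hr hD hV 0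
    obtain ⟨n, hn⟩ := exists_nat_gt (|a| + 3 + |R0| + |R1| + |R|)
    obtain ⟨y, -, h4, h5⟩ := XZlt.orbits hp hr hW har h3 n
    have e1 := neg_abs_le a
    have e2 := le_abs_self a
    have e3 := le_abs_self R0
    have e4 := le_abs_self R1
    have e5 := le_abs_self R
    have e6 := abs_nonneg a
    have e7 := abs_nonneg R0
    have e8 := abs_nonneg R1
    have e9 := abs_nonneg R
    have f1 : 0 < a + n := by linarith
    have f2 : 0 < 3 - a + n := by linarith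
    have h6 := XZlt.at_far hV hR0 (b := a + n) (by rw [abs_of_pos f1]; linarith)
      (by rw [abs_of_pos f1]; linarith) h4
    have h7 := XZlt.at_far hV hR0 (b := 3 - a + n) (by rw [abs_of_pos f2]; linarith)
      (by rw [abs_of_pos f2]; linarith) h5
    have h8 := hinj ((a + n : ℝ) : ℂ) ((3 - a + n : ℝ) : ℂ)
      (by rw [ofReal_re]; linarith) (by rw [ofReal_re]; linarith) (by rw [h6, h7])
    have h9 : (a + n : ℝ) = 3 - a + n := by exact_mod_cast h8
    linarith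
  subst ha
  have hpt : ∀ b : ℝ, Tendsto (fun y : ℝ => (b : ℂ) + y * I) (𝓝[>] (0 : ℝ)) (𝓝[UP] (b : ℂ)) := by
    intro b
    rw [tendsto_nhdsWithin_iff]
    constructor
    · have h4 : ContinuousAt (fun y : ℝ => (b : ℂ) + y * I) 0 := by fun_prop
      have h5 := h4.tendsto.mono_left (nhdsWithin_le_nhds (s := Ioi (0 : ℝ)))
      simpa using h5
    · filter_upwards [self_mem_nhdsWithin] with y hy
      have hy' : 0 < y := hy
      change 0 < ((b : ℂ) + y * I).im
      simpa using hy'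
  have hmem : ∀ (b y : ℝ), 0 < y → (b : ℂ) + y * I ∈ UP := by
    intro b y hy
    change 0 < ((b : ℂ) + y * I).im
    simpa using hy
  have hpr' : p = r := by
    refine xz_angle (l := 𝓝[>] (0 : ℝ)) (V := fun y => W (((1 / 2 : ℝ) : ℂ) + y * I))
      (V1 := fun y => W (((3 / 2 : ℝ) : ℂ) + y * I)) (δ := fun y => y * I) hp hr hm ?_ ?_ ?_ ?_ ?_
      ?_ ?_ ?_
    · filter_upwards [self_mem_nhdsWithin] with y hy
      exact hW.up _ (hmem _ _ hy)
    · have h5 : (3 / 2 - 1 : ℝ) = 1 / 2 := by norm_num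
      rw [h5] at h0
      have h4 : Tendsto (fun y : ℝ => W (((1 / 2 : ℝ) : ℂ) + y * I)) (𝓝[>] (0 : ℝ))
        (𝓝 ((0 : ℝ) : ℂ)) := Tendsto.comp h0 (hpt (1 / 2))
      rwa [ofReal_zero] at h4
    · filter_upwards [self_mem_nhdsWithin] with y hy
      have hy' : 0 < y := hy
      have g1 := hmem (-(1 / 2)) y hy'
      have g2 := hmem (1 / 2) y hy'
      have g3 := hW.s0 _ g2
      have g4 := hW.step _ g1
      have g5 : -(starRingEnd ℂ) (((1 / 2 : ℝ) : ℂ) + y * I) = ((-(1 / 2) : ℝ) : ℂ) + y * I := by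
        simp only [map_add, map_mul, conj_ofReal, conj_I]
        push_cast
        ring
      have g6 : ((-(1 / 2) : ℝ) : ℂ) + y * I + ((1 : ℝ) : ℂ) = ((1 / 2 : ℝ) : ℂ) + y * I := by
        push_cast
        ring
      rw [g5] at g3
      rw [g6, g3] at g4
      have g7 : -(-(starRingEnd ℂ) (W (((1 / 2 : ℝ) : ℂ) + y * I)) - 2 * ((p / 2 : ℝ) : ℂ)) -
          2 * ((p / 2 : ℝ) : ℂ) = (starRingEnd ℂ) (W (((1 / 2 : ℝ) : ℂ) + y * I)) := by ring
      rw [g7, Hf_conj hp hr (UP_subset_Dm (hW.up _ g2))] at g4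
      exact conj_eq_iff_im.1 g4.symm
    · filter_upwards [self_mem_nhdsWithin] with y hy
      exact hW.up _ (hmem _ _ hy)
    · exact Tendsto.comp har (hpt (3 / 2))
    · filter_upwards [self_mem_nhdsWithin] with y hy
      have hy' : 0 < y := hy
      have g4 := hW.step _ (hmem (1 / 2) y hy')
      have g6 : ((1 / 2 : ℝ) : ℂ) + y * I + ((1 : ℝ) : ℂ) = ((3 / 2 : ℝ) : ℂ) + y * I := by
        push_cast
        ring
      rw [g6] at g4
      rw [g4]
      congr 1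
      push_cast
      ring
    · filter_upwards with y
      simp
    · have g1 : HasDerivAt Vr (m : ℂ) ((3 / 2 : ℝ) : ℂ) := by
        rw [← hdm]
        exact hVa.differentiableAt.hasDerivAt
      have g2 := (hasDerivAt_iff_tendsto_slope.1 g1).comp
        ((hpt (3 / 2)).mono_right (nhdsWithin_mono _ (by
          intro w hw
          have hw' : 0 < w.im := hw
          rintro rfl
          simp at hw')))
      refine g2.congr' ?_
      filter_upwards [(hpt (3 / 2)).eventually hWV] with y hy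
      simp only [Function.comp, slope_def_field]
      rw [hy, hVr]
      congr 1
      ring
  exact absurd hpr' hpr.ne
end A2

end Pool.Agent.MP_ae5b4e_an_MET
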