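import Mathlib
import Pool.Agent.Lib.MP_ae5b4e_an_MET.Defs
import Pool.Agent.Lib.MP_ae5b4e_an_MET.Lims
import Pool.Agent.Lib.MP_ae5b4e_an_MET.Theta
import Pool.Agent.Lib.MP_ae5b4e_an_MET.TLine
import Pool.Agent.Lib.MP_ae5b4e_an_MET.GHat
import Pool.Agent.Lib.MP_ae5b4e_an_MET.Step
import Pool.Agent.Lib.MP_ae5b4e_an_ALG.Gf
import Pool.Agent.Lib.MP_ae5b4e_an_ALG.HfA
import Pool.Agent.Lib.MP_ae5b4e_an_ALG.HfInj
import Pool.Agent.Lib.MP_ae5b4e_an_ALG.Time

/-!
# MP_ae5b4e_an, project MET, module A15: the right end of the strip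
-/

set_option autoImplicit false
noncomputable section
namespace Pool.Agent.MP_ae5b4e_an_MET
open Filter Topology Set Metric Complex
open scoped Real
open Pool.Agent.MP_ae5b4e_an_ALG

namespace Near

/-- the local coordinate `exp (-(H - i p π) / (p + r))` at `V = 0` -/
def Ee (p r : ℝ) (V : ℂ) : ℂ :=
  V * exp (-(((p / (p + r) : ℝ) : ℂ) * log (r - V)) - ((r / (p + r) : ℝ) : ℂ) * log (V + p))

/-- the derivative at `0` -/
theorem Ee_der {p r : ℝ} (hp : 0 < p) (hr : 0 < r) :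
    AnalyticAt ℂ (Ee p r) 0 ∧ Ee p r 0 = 0 ∧ deriv (Ee p r) 0 ≠ 0 := by
  have h1 : ((r : ℂ) - 0) ∈ Complex.slitPlane := by
    rw [sub_zero]
    exact Or.inl (by simpa using hr)
  have h2 : ((0 : ℂ) + p) ∈ Complex.slitPlane := by
    rw [zero_add]
    exact Or.inl (by simpa using hp)
  have hg : AnalyticAt ℂ (fun V : ℂ => exp (-(((p / (p + r) : ℝ) : ℂ) * log (r - V)) -
      ((r / (p + r) : ℝ) : ℂ) * log (V + p))) 0 := by
    refine AnalyticAt.cexp ?_
    refine AnalyticAt.sub (AnalyticAt.neg (analyticAt_const.mul ?_)) (analyticAt_const.mul ?_)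
    · exact (analyticAt_const.sub analyticAt_id).clog h1
    · exact (analyticAt_id.add analyticAt_const).clog h2
  refine ⟨analyticAt_id.mul hg, by simp [Ee], ?_⟩
  have h3 : HasDerivAt (Ee p r) (1 * exp (-(((p / (p + r) : ℝ) : ℂ) * log (r - 0)) -
      ((r / (p + r) : ℝ) : ℂ) * log (0 + p)) + 0 * deriv (fun V : ℂ =>
        exp (-(((p / (p + r) : ℝ) : ℂ) * log (r - V)) -
      ((r / (p + r) : ℝ) : ℂ) * log (V + p))) 0) 0 :=
    (hasDerivAt_id (0:ℂ)).mul hg.differentiableAt.hasDerivAt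
  rw [h3.deriv, zero_mul, add_zero, one_mul]
  exact exp_ne_zero _

theorem Ee_up {p r : ℝ} (hp : 0 < p) (hr : 0 < r) {V : ℂ} (hV : V ∈ UP) :
    Ee p r V = exp (-(Hf p r V - p * π * I) / (p + r)) := by
  have h0 : V ≠ 0 := VB.ne_zero hV
  have h1 : 0 < V.im := hV
  have hq : (p : ℂ) + r ≠ 0 := by
    have : p + r ≠ 0 := by positivity
    exact_mod_cast this
  have h2 : log (V - r) = log (r - V) + π * I := by
    have h3 : ((r : ℂ) - V).im < 0 := by simpa using h1
    have h4 : V - r = -(r - V) := by ring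
    rw [h4, Complex.log, Complex.log, norm_neg, arg_neg_eq_arg_add_pi_of_im_neg h3]
    push_cast
    ring
  have h3 : -(Hf p r V - p * π * I) / (p + r) = log V +
      (-(((p / (p + r) : ℝ) : ℂ) * log (r - V)) - ((r / (p + r) : ℝ) : ℂ) * log (V + p)) := by
    rw [VB.Hf_eq hV, h2]
    push_cast
    field_simp
    ring
  rw [h3, exp_add, exp_log h0, Ee]

theorem Ee_conj {p r : ℝ} {V : ℂ} (hV : V.im ≠ 0) :
    Ee p r ((starRingEnd ℂ) V) = (starRingEnd ℂ) (Ee p r V) := by
  have h1 : log (r - (starRingEnd ℂ) V) = (starRingEnd ℂ) (log (r - V)) := by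
    rw [← log_conj, map_sub, conj_ofReal]
    intro h
    have h2 := (arg_eq_pi_iff.1 h).2
    simp at h2
    exact hV h2
  have h2 : log ((starRingEnd ℂ) V + p) = (starRingEnd ℂ) (log (V + p)) := by
    rw [← log_conj, map_add, conj_ofReal]
    intro h
    have h2 := (arg_eq_pi_iff.1 h).2
    simp at h2
    exact hV h2
  unfold Ee
  rw [h1, h2, map_mul, ← exp_conj, map_sub, map_neg, map_mul, map_mul, conj_ofReal, conj_ofReal]

theorem Ee_low {p r : ℝ} (hp : 0 < p) (hr : 0 < r) {V : ℂ} (hV : V.im < 0) :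
    Ee p r V = exp (-(Hh p r V - p * π * I) / (p + r)) := by
  have h1 : (starRingEnd ℂ) V ∈ UP := by
    change 0 < ((starRingEnd ℂ) V).im
    simpa using hV
  have h2 : V = (starRingEnd ℂ) ((starRingEnd ℂ) V) := by simp
  have h3 : ((starRingEnd ℂ) V).im ≠ 0 := ne_of_gt h1
  conv_lhs => rw [h2]
  rw [Ee_conj h3, Ee_up hp hr h1, ← exp_conj, Hh_low hp hr hV]
  congr 1
  simp only [map_div₀, map_neg, map_sub, map_mul, map_add, conj_ofReal, conj_I]
  ring

theorem QV_open (c : ℝ) : IsOpen (QV c) :=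
  (isOpen_lt continuous_const Complex.continuous_re).inter
    (isOpen_lt continuous_const Complex.continuous_im)

theorem z_re (p r x : ℝ) : ((x : ℂ) + (p + r) * π * I).re = x := by simp

theorem z_im (p r x : ℝ) : ((x : ℂ) + (p + r) * π * I).im = (p + r) * π := by simp

theorem Gh_low {p r : ℝ} (hr : 0 < r) (hpr : r < p) (x : ℝ) :
    Hh p r (Gh p r (x + (p + r) * π * I)) = x + (p + r) * π * I ∧
      (starRingEnd ℂ) (Gh p r (x + (p + r) * π * I)) ∈ UP ∧
      (Hf p r ((starRingEnd ℂ) (Gh p r (x + (p + r) * π * I)))).re = x := by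
  have hp : 0 < p := hr.trans hpr
  have hpi := Real.pi_pos
  have h0 : 0 < ((x : ℂ) + (p + r) * π * I).im := by
    rw [z_im]
    positivity
  have h1 : ((x : ℂ) + (p + r) * π * I).im < 2 * p * π := by
    rw [z_im]
    nlinarith
  have h2 : p * π < ((x : ℂ) + (p + r) * π * I).im := by
    rw [z_im]
    nlinarith
  obtain ⟨-, h3, -, -, -, h4⟩ := Gh_spec hp hr h0 h1
  obtain ⟨h5, h6⟩ := h4 h2
  refine ⟨h3, h5, ?_⟩
  rw [h6]
  simp

theorem Gh_lim {p r : ℝ} (hr : 0 < r) (hpr : r < p) :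
    Tendsto (fun x : ℝ => Gh p r (x + (p + r) * π * I)) atTop (𝓝 0) := by
  have hp : 0 < p := hr.trans hpr
  have h1 : Tendsto (fun x : ℝ => (starRingEnd ℂ) (Gh p r (x + (p + r) * π * I))) atTop (𝓝 0) := by
    refine lim_zero hp hr (Eventually.of_forall fun x => (Gh_low hr hpr x).2.1) ?_
    refine tendsto_id.congr fun x => ?_
    exact (Gh_low hr hpr x).2.2.symm
  have h2 := (Complex.continuous_conj.tendsto 0).comp h1
  rw [map_zero] at h2
  refine h2.congr fun x => ?_
  simp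

theorem Hc0 {p r : ℝ} (hr : 0 < r) (hpr : r < p) :
    AnalyticAt ℂ (Hc p r) 0 ∧ (Hc p r 0).im = r * π := by
  have h := Hc_real hr hpr (x := 0) (by linarith) hr
  rw [ofReal_zero] at h
  exact h

theorem Hc0_mem {p r : ℝ} (hr : 0 < r) (hpr : r < p) : Hc p r 0 ∈ Xs p r := by
  have hpi := Real.pi_pos
  have h := (Hc0 hr hpr).2
  have h1 : 0 < r * π := by positivity
  refine ⟨?_, ?_, ?_⟩
  · rw [h]
    linarith
  · rw [h]
    nlinarith
  · intro h2
    rw [h] at h2
    exact absurd h2 h1.ne'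

end Near

open Near

theorem H1_lim {p r : ℝ} (hr : 0 < r) (hpr : r < p) :
    Tendsto (fun x : ℝ => H1 p r (x + (p + r) * π * I)) atTop (𝓝 (Hc p r 0)) :=
  ((Hc0 hr hpr).1.continuousAt.tendsto).comp (Gh_lim hr hpr)

theorem near_end {p r D R R' : ℝ} {S T : ℂ → ℂ} (hr : 0 < r) (hpr : r < p)
    (hS : SD p r ((p - r) / 2) D S R) (hT : TF p r ((p - r) / 2) S T R') :
    ∀ᶠ x : ℝ in atTop, 0 < (H1 p r (x + (p + r) * π * I)).im ∧
      (H1 p r (x + (p + r) * π * I)).im < p * π ∧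
      (T (Gf p r (H1 p r (x + (p + r) * π * I)))).re = 3 / 2 := by
  have hp : 0 < p := hr.trans hpr
  have hpi := Real.pi_pos
  have hq : 0 < p + r := by positivity
  have hqc : (p : ℂ) + r ≠ 0 := by exact_mod_cast hq.ne'
  have hc : p - r < 3 * ((p - r) / 2) := by linarith
  -- the function `F`
  set F : ℂ → ℂ := fun V => T (Gf p r (Hc p r V)) - 1 with hF
  have hX := Hc0_mem hr hpr
  have hQ : Gf p r (Hc p r 0) ∈ QV ((p - r) / 2) := by
    refine Gf_QV hr hpr hc hX ?_
    rw [(Hc0 hr hpr).2]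
    positivity
  have hFa : AnalyticAt ℂ F 0 := by
    have h1 : AnalyticAt ℂ (Gf p r) (Hc p r 0) :=
      (Gf_diff hp hr).analyticAt ((Xs_open hp hr).mem_nhds hX)
    have h2 : AnalyticAt ℂ T (Gf p r (Hc p r 0)) :=
      hT.diff.analyticAt ((QV_open _).mem_nhds hQ)
    have h3 : AnalyticAt ℂ (fun V => Gf p r (Hc p r V)) 0 := h1.comp_of_eq (Hc0 hr hpr).1 rfl
    have h4 : AnalyticAt ℂ (fun V => T (Gf p r (Hc p r V))) 0 := h2.comp_of_eq h3 rfl
    exact h4.sub analyticAt_const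
  have hFT : ∀ᶠ V in 𝓝 (0:ℂ), V ∈ UP → F V = T V := by
    have h1 : ∀ᶠ V in 𝓝 (0:ℂ), -(p - r) / 3 < V.re := by
      refine Complex.continuous_re.continuousAt.eventually_const_lt ?_
      rw [zero_re]
      linarith
    filter_upwards [h1] with V h2 hV
    have h3 : V ∈ QV ((p - r) / 2) := ⟨by linarith, hV⟩
    have h4 : Th p r ((p - r) / 2) V = Gf p r (Hc p r V) := by
      rw [Hc_up hr hpr hV h2, Th]
      congr 2
      push_cast
      ring
    have h5 := hT.step V h3
    rw [h4] at h5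
    simp only [hF]
    rw [h5]
    ring
  -- the local inverse
  obtain ⟨hEa, hE0, hE1⟩ := Ee_der hp hr
  obtain ⟨k, hk, hk0, -, -, hkl⟩ := Time.local_inv hEa hE0 hE1
  set ω : ℂ := exp (p * π * I / (p + r)) with hω
  set Ψ : ℂ → ℂ := fun ζ => F (k (ζ * ω)) with hΨ
  have hΨa : AnalyticAt ℂ Ψ 0 := by
    have h1 : AnalyticAt ℂ (fun ζ : ℂ => ζ * ω) 0 := analyticAt_id.mul analyticAt_const
    have h2 : AnalyticAt ℂ (fun ζ : ℂ => k (ζ * ω)) 0 := hk.comp_of_eq h1 (by simp)
    exact hFa.comp_of_eq h2 (by simp [hk0])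
  set f : ℝ → ℂ := fun x => ((Real.exp (-x / (p + r)) : ℝ) : ℂ) with hf
  have hflim : Tendsto f atTop (𝓝 0) := by
    have h1 : Tendsto (fun x : ℝ => Real.exp (-x / (p + r))) atTop (𝓝 0) := by
      refine Real.tendsto_exp_atBot.comp ?_
      exact (tendsto_neg_atTop_atBot).atBot_div_const hq
    have h2 := (Complex.continuous_ofReal.tendsto 0).comp h1
    rwa [ofReal_zero] at h2
  have hfne : ∀ x, f x ≠ 0 := fun x => by
    simp only [hf]
    exact_mod_cast (Real.exp_pos _).ne'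
  have hfexp : ∀ x, f x = exp (-x / (p + r)) := fun x => by
    simp only [hf]
    push_cast
    rfl
  -- the values on the line `Im H = 0`
  have hline : ∀ᶠ x : ℝ in atTop, (Ψ (f x)).re = 1 / 2 := by
    filter_upwards [(Gf_atTop hp hr).eventually hkl, (Gf_atTop hp hr).eventually hFT,
      eventually_gt_atTop (0:ℝ)] with x h1 h2 h3
    have h4 : (x : ℂ) ∈ Xs p r := by
      refine ⟨?_, ?_, ?_⟩
      · rw [ofReal_im]
        have : 0 < r * π := by positivity
        linarith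
      · rw [ofReal_im]
        positivity
      · intro _
        simpa using h3
    obtain ⟨h5, h6⟩ := Gf_mem hp hr h4
    have h7 : Ee p r (Gf p r x) = f x * ω := by
      rw [Ee_up hp hr h5, h6, hfexp, hω, ← exp_add]
      congr 1
      field_simp
      ring
    rw [h7] at h1
    have h8 : Ψ (f x) = T (Gf p r x) := by
      simp only [hΨ]
      rw [h1, h2 h5]
    rw [h8]
    exact T_line hr hpr hc hS hT h3
  -- reflection
  set G : ℂ → ℂ := fun z => Ψ z + (starRingEnd ℂ) (Ψ ((starRingEnd ℂ) z)) - 1 with hG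
  have hGa : AnalyticAt ℂ G 0 := (hΨa.add (Time.analyticAt_conj hΨa)).sub analyticAt_const
  have hGre : ∀ y : ℝ, G y = ((2 * (Ψ y).re - 1 : ℝ) : ℂ) := by
    intro y
    simp only [hG]
    rw [conj_ofReal, add_conj]
    push_cast
    ring
  have hG0 : ∀ᶠ z in 𝓝 (0:ℂ), G z = 0 := by
    refine hGa.frequently_zero_iff_eventually_zero.1 ?_
    have h1 : Tendsto f atTop (𝓝[≠] 0) :=
      tendsto_nhdsWithin_iff.2 ⟨hflim, Eventually.of_forall hfne⟩
    refine h1.frequently (Eventually.frequently ?_)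
    filter_upwards [hline] with x hx
    have h2 : f x = ((Real.exp (-x / (p + r)) : ℝ) : ℂ) := rfl
    rw [h2] at hx ⊢
    rw [hGre, hx]
    norm_num
  have hneg : ∀ᶠ x : ℝ in atTop, (Ψ (-f x)).re = 1 / 2 := by
    have h1 : Tendsto (fun x => -f x) atTop (𝓝 0) := by simpa using hflim.neg
    filter_upwards [h1.eventually hG0] with x hx
    have h2 : -f x = ((-Real.exp (-x / (p + r)) : ℝ) : ℂ) := by
      simp only [hf]
      push_cast
      ring
    rw [h2] at hx ⊢
    rw [hGre] at hx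
    have h3 : 2 * (Ψ ((-Real.exp (-x / (p + r)) : ℝ) : ℂ)).re - 1 = 0 := by exact_mod_cast hx
    linarith
  -- conclusion
  have him : Tendsto (fun x : ℝ => (H1 p r (x + (p + r) * π * I)).im) atTop (𝓝 (r * π)) := by
    have h1 := (Complex.continuous_im.tendsto (Hc p r 0)).comp (H1_lim hr hpr)
    rw [(Hc0 hr hpr).2] at h1
    exact h1
  have h0 : 0 < r * π := by positivity
  have h1 : r * π < p * π := by nlinarith
  filter_upwards [him.eventually_const_lt h0, him.eventually_lt_const h1, hneg,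
    (Gh_lim hr hpr).eventually hkl] with x e1 e2 e3 e4
  refine ⟨e1, e2, ?_⟩
  obtain ⟨g1, g2, -⟩ := Gh_low hr hpr x
  have g3 : (Gh p r (x + (p + r) * π * I)).im < 0 := by
    have : 0 < ((starRingEnd ℂ) (Gh p r (x + (p + r) * π * I))).im := g2
    rw [conj_im] at this
    linarith
  have h7 : Ee p r (Gh p r (x + (p + r) * π * I)) = -f x * ω := by
    rw [Ee_low hp hr g3, g1, hfexp, hω]
    have h8 : -((x : ℂ) + (p + r) * π * I - p * π * I) / (p + r) =
        -x / (p + r) + p * π * I / (p + r) + -(π * I) := by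
      field_simp
      ring
    rw [h8, exp_add, exp_add, exp_neg, exp_pi_mul_I]
    norm_num
  rw [h7] at e4
  have h9 : Ψ (-f x) = T (Gf p r (H1 p r (x + (p + r) * π * I))) - 1 := by
    simp only [hΨ]
    rw [e4]
    rfl
  rw [h9, sub_re, one_re] at e3
  linarith

end Pool.Agent.MP_ae5b4e_an_MET
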