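import Mathlib
import Pool.Agent.Lib.MP_ae5b4e_an_MET.Defs
import Pool.Agent.Lib.MP_ae5b4e_an_MET.Theta
import Pool.Agent.Lib.MP_ae5b4e_an_MET.SDat
import Pool.Agent.Lib.MP_ae5b4e_an_MET.Orbit
import Pool.Agent.Lib.MP_ae5b4e_an_MET.TDef
import Pool.Agent.Lib.MP_ae5b4e_an_MET.GHat
import Pool.Agent.Lib.MP_ae5b4e_an_MET.Step
import Pool.Agent.Lib.MP_ae5b4e_an_MET.Near
import Pool.Agent.Lib.MP_ae5b4e_an_MET.Bdd
import Pool.Agent.Lib.MP_ae5b4e_an_ALG.Gf
import Pool.Agent.Lib.MP_ae5b4e_an_ALG.BdryB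

/-!
# MP_ae5b4e_an, project MET, module A17: the type YZ, `r < p`

There is no uniformizing function near infinity for `c = (p - r) / 2`, `r < p`.
-/

set_option autoImplicit false

noncomputable section

namespace Pool.Agent.MP_ae5b4e_an_MET

open Filter Topology Set Metric Complex

open scoped Real

open Pool.Agent.MP_ae5b4e_an_ALG

namespace YZgt

variable {p r : ℝ}

/-- the strip where the map `H1` is used -/
def St (p r : ℝ) : Set ℂ := {z | 0 < z.im ∧ z.im < (3 * p + r) / 2 * π}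

theorem H1_mem (hr : 0 < r) (hpr : r < p) {z : ℂ} (hz : z ∈ St p r) : H1 p r z ∈ St p r := by
  obtain ⟨-, h1, h2, -⟩ := H1_spec hr hpr hz.1 hz.2
  have hπ := Real.pi_pos
  have hz2 : z.im < (3 * p + r) / 2 * π := hz.2
  have h3 : 0 < (p + r) / 2 * π := mul_pos (by linarith) hπ
  have h4 : 0 < (p - r) * π := mul_pos (by linarith) hπ
  refine ⟨h1, ?_⟩
  show (H1 p r z).im < (3 * p + r) / 2 * π
  rcases h2 with h | h
  · calc (H1 p r z).im < p * π := h
      _ < p * π + (p + r) / 2 * π := by linarith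
      _ = (3 * p + r) / 2 * π := by ring
  · linarith

theorem iter_mem (hr : 0 < r) (hpr : r < p) {z : ℂ} (hz : z ∈ St p r) (n : ℕ) :
    (H1 p r)^[n] z ∈ St p r := by
  induction n with
  | zero => exact hz
  | succ n ih => rw [Function.iterate_succ_apply']; exact H1_mem hr hpr ih

theorem iter_ana (hr : 0 < r) (hpr : r < p) {z : ℂ} (hz : z ∈ St p r) (n : ℕ) :
    AnalyticAt ℂ ((H1 p r)^[n]) z := by
  induction n with
  | zero => exact analyticAt_id
  | succ n ih =>
    rw [Function.iterate_succ']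
    have hm := iter_mem hr hpr hz n
    exact AnalyticAt.comp (H1_spec hr hpr hm.1 hm.2).1 ih

/-- the steps in the low part of the strip -/
theorem low_iter {D R R' : ℝ} {S T : ℂ → ℂ} (hr : 0 < r) (hpr : r < p)
    (hT : TF p r ((p - r) / 2) S T R') (_hS : SD p r ((p - r) / 2) D S R) {w : ℂ}
    (h0 : 0 < w.im) (h1 : w.im < p * π) (n : ℕ) :
    0 < ((H1 p r)^[n] w).im ∧ ((H1 p r)^[n] w).im < p * π ∧
      Gf p r ((H1 p r)^[n] w) = (Th p r ((p - r) / 2))^[n] (Gf p r w) ∧
      T (Gf p r ((H1 p r)^[n] w)) = T (Gf p r w) + n := by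
  have hπ := Real.pi_pos
  have hlow : ∀ v : ℂ, v.im < p * π → v.im < (3 * p + r) / 2 * π := by
    intro v hv
    have h3 : 0 < (p + r) / 2 * π := by
      have : 0 < p + r := by linarith
      positivity
    calc v.im < p * π := hv
      _ < p * π + (p + r) / 2 * π := by linarith
      _ = (3 * p + r) / 2 * π := by ring
  induction n with
  | zero => exact ⟨h0, h1, rfl, by simp⟩
  | succ n ih =>
    obtain ⟨i0, i1, i2, i3⟩ := ih
    rw [Function.iterate_succ_apply']
    obtain ⟨-, j1, -, j2⟩ := H1_spec hr hpr i0 (hlow _ i1)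
    obtain ⟨j3, j4, j5⟩ := j2 i1
    refine ⟨j1, ?_, ?_, ?_⟩
    · have : r * π < p * π := mul_lt_mul_of_pos_right hpr hπ
      linarith
    · rw [j5, i2, Function.iterate_succ_apply']
    · rw [j5, hT.step _ j4, i3]
      push_cast
      ring

/-- the line used in the proof -/
def zl (p r x : ℝ) : ℂ := (x : ℂ) + (p + r) * π * I

theorem zl_im (x : ℝ) : (zl p r x).im = (p + r) * π := by
  simp [zl]

theorem zl_re (x : ℝ) : (zl p r x).re = x := by
  simp [zl]

theorem zl_mem (hr : 0 < r) (hpr : r < p) (x : ℝ) : zl p r x ∈ St p r := by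
  have hπ := Real.pi_pos
  have h4 : 0 < (p - r) / 2 * π := mul_pos (by linarith) hπ
  have h5 : 0 < (p + r) * π := mul_pos (by linarith) hπ
  refine ⟨?_, ?_⟩
  · show 0 < (zl p r x).im
    rw [zl_im]; exact h5
  · show (zl p r x).im < (3 * p + r) / 2 * π
    rw [zl_im]
    have : (3 * p + r) / 2 * π = (p + r) * π + (p - r) / 2 * π := by ring
    rw [this]
    linarith

theorem cont_iter (hr : 0 < r) (hpr : r < p) (n : ℕ) :
    Continuous (fun x : ℝ => (H1 p r)^[n] (zl p r x)) := by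
  rw [continuous_iff_continuousAt]
  intro x
  have h1 := (iter_ana hr hpr (zl_mem hr hpr x) n).continuousAt
  have h2 : ContinuousAt (fun x : ℝ => zl p r x) x := by
    unfold zl
    fun_prop
  exact ContinuousAt.comp (f := fun x : ℝ => zl p r x) h1 h2

theorem QV_open (c : ℝ) : IsOpen (QV c) :=
  (isOpen_lt continuous_const Complex.continuous_re).inter
    (isOpen_lt continuous_const Complex.continuous_im)

/-- the value of the time function on the line -/
theorem time_line {D R R' : ℝ} {S T : ℂ → ℂ} (hr : 0 < r) (hpr : r < p)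
    (hS : SD p r ((p - r) / 2) D S R) (hT : TF p r ((p - r) / 2) S T R') {n : ℕ} (hn : 1 ≤ n)
    (hK : ∀ z : ℂ, 0 < z.im → z.im < (3 * p + r) / 2 * π → 0 < ((H1 p r)^[n] z).im ∧
      ((H1 p r)^[n] z).im < p * π) (x : ℝ) :
    (T (Gf p r ((H1 p r)^[n] (zl p r x)))).re = n + 1 / 2 := by
  have hp : 0 < p := hr.trans hpr
  have hc : p - r < 3 * ((p - r) / 2) := by linarith
  have hana : AnalyticOnNhd ℝ (fun x : ℝ => (T (Gf p r ((H1 p r)^[n] (zl p r x)))).re) univ := by
    intro x _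
    have hm := zl_mem hr hpr x
    have h1 := iter_ana hr hpr hm n
    obtain ⟨k0, k1⟩ := hK _ hm.1 hm.2
    have hX : (H1 p r)^[n] (zl p r x) ∈ Xs p r := by
      refine ⟨?_, k1, fun h => absurd h k0.ne'⟩
      have : 0 < r * π := mul_pos hr Real.pi_pos
      linarith
    have h2 : AnalyticAt ℂ (Gf p r) ((H1 p r)^[n] (zl p r x)) :=
      (Gf_diff hp hr).analyticAt ((Xs_open hp hr).mem_nhds hX)
    have hQ := Gf_QV hr hpr hc hX k0.le
    have h3 : AnalyticAt ℂ T (Gf p r ((H1 p r)^[n] (zl p r x))) :=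
      hT.diff.analyticAt ((QV_open _).mem_nhds hQ)
    have h4 : AnalyticAt ℂ (fun z : ℂ => z + (p + r) * π * I) (x : ℂ) := by fun_prop
    have h5 : AnalyticAt ℂ (fun z : ℂ => T (Gf p r ((H1 p r)^[n] (z + (p + r) * π * I))))
        (x : ℂ) := by
      have e : (x : ℂ) + (p + r) * π * I = zl p r x := rfl
      have g1 : AnalyticAt ℂ ((H1 p r)^[n]) ((fun z : ℂ => z + (p + r) * π * I) (x : ℂ)) := h1
      have g2 := AnalyticAt.comp (f := fun z : ℂ => z + (p + r) * π * I) g1 h4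
      have g3 := AnalyticAt.comp (f := (H1 p r)^[n] ∘ fun z : ℂ => z + (p + r) * π * I)
        (x := (x : ℂ)) (g := Gf p r) h2 g2
      exact AnalyticAt.comp (f := Gf p r ∘ (H1 p r)^[n] ∘ fun z : ℂ => z + (p + r) * π * I)
        (x := (x : ℂ)) (g := T) h3 g3
    exact h5.re_ofReal
  have hcst : AnalyticOnNhd ℝ (fun _ : ℝ => (n : ℝ) + 1 / 2) univ := fun x _ => analyticAt_const
  have hev := near_end hr hpr hS hT
  have hval : ∀ᶠ x : ℝ in atTop,
      (T (Gf p r ((H1 p r)^[n] (zl p r x)))).re = (n : ℝ) + 1 / 2 := by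
    filter_upwards [hev] with x hx
    obtain ⟨x1, x2, x3⟩ := hx
    obtain ⟨m, rfl⟩ : ∃ m, n = m + 1 := ⟨n - 1, by omega⟩
    rw [Function.iterate_succ_apply]
    have h := (low_iter hr hpr hT hS x1 x2 m).2.2.2
    have e : zl p r x = (x : ℂ) + (p + r) * π * I := rfl
    rw [e, h, Complex.add_re, x3]
    simp
    ring
  obtain ⟨A, hA⟩ := eventually_atTop.1 hval
  have hnhds : (fun x : ℝ => (T (Gf p r ((H1 p r)^[n] (zl p r x)))).re) =ᶠ[𝓝 (A + 1)]
      fun _ => (n : ℝ) + 1 / 2 := by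
    filter_upwards [lt_mem_nhds (show A < A + 1 by linarith)] with x hx
    exact hA x hx.le
  have := hana.eq_of_eventuallyEq hcst hnhds
  exact congrFun this x

/-- the left end of the line -/
theorem left_iter (hr : 0 < r) (hpr : r < p) (n : ℕ) :
    Tendsto (fun x : ℝ => ((H1 p r)^[n] (zl p r x)).re) atBot atBot := by
  induction n with
  | zero =>
    simp only [Function.iterate_zero, id]
    exact tendsto_id.congr (fun x => (zl_re x).symm)
  | succ n ih =>
    simp only [Function.iterate_succ_apply']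
    exact H1_bot hr hpr (Eventually.of_forall fun x =>
      iter_mem hr hpr (zl_mem hr hpr x) n) ih

/-- the values at the right end of the line -/
theorem right_iter (hr : 0 < r) (hpr : r < p) (n : ℕ) :
    Tendsto (fun x : ℝ => ((H1 p r)^[n + 1] (zl p r x)).re) atTop
      (𝓝 (((H1 p r)^[n] (Hc p r 0)).re)) := by
  have hπ := Real.pi_pos
  have h0 : (Hc p r 0).im = r * π := by
    have := (Hc_real hr hpr (x := 0) (by linarith) hr).2
    simpa using this
  have hm : Hc p r 0 ∈ St p r := by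
    refine ⟨?_, ?_⟩
    · show 0 < (Hc p r 0).im
      rw [h0]; positivity
    · show (Hc p r 0).im < (3 * p + r) / 2 * π
      rw [h0]
      exact mul_lt_mul_of_pos_right (by linarith) hπ
  have h1 := (iter_ana hr hpr hm n).continuousAt
  have h2 := H1_lim hr hpr
  have h3 : Tendsto (fun x : ℝ => (H1 p r)^[n] (H1 p r (zl p r x))) atTop
      (𝓝 ((H1 p r)^[n] (Hc p r 0))) := h1.tendsto.comp h2
  have h4 := (Complex.continuous_re.tendsto _).comp h3
  exact h4

end YZgt

open YZgt in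
theorem no_shm_YZ {p r D R : ℝ} {V : ℂ → ℂ} (hr : 0 < r) (hpr : r < p) (hD : 0 < D) :
    ¬ SHM p r ((p - r) / 2) D 1 R V := by
  intro hV
  have hp : 0 < p := hr.trans hpr
  have hπ := Real.pi_pos
  have hc : p - r < 3 * ((p - r) / 2) := by linarith
  obtain ⟨S, R1, hS⟩ := exists_SD hr hpr hc hD hV
  obtain ⟨T, R2, hT⟩ := exists_TF hr hpr hc hD hS
  obtain ⟨K, hK⟩ := H1_iter hr hpr
  -- the orbit of `h0`
  have h0 : (Hc p r 0).im = r * π := by
    have := (Hc_real hr hpr (x := 0) (by linarith) hr).2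
    simpa using this
  have h0p : 0 < (Hc p r 0).im := by rw [h0]; positivity
  have h0q : (Hc p r 0).im < p * π := by
    rw [h0]; exact mul_lt_mul_of_pos_right hpr hπ
  have hX : ∀ w : ℂ, 0 < w.im → w.im < p * π → w ∈ Xs p r := by
    intro w w0 w1
    refine ⟨?_, w1, fun h => absurd h w0.ne'⟩
    have : 0 < r * π := mul_pos hr hπ
    linarith
  have hQ0 : Gf p r (Hc p r 0) ∈ QV ((p - r) / 2) := Gf_QV hr hpr hc (hX _ h0p h0q) h0p.le
  have horb := (orbit_inf hr hpr hc hD hS hQ0).1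
  have hlim0 : Tendsto (fun n : ℕ => (H1 p r)^[n] (Hc p r 0)) atTop (𝓝 0) := by
    have h1 := (Hf_tendsto_inf p r).comp horb
    refine h1.congr (fun n => ?_)
    obtain ⟨i0, i1, i2, -⟩ := low_iter hr hpr hT hS h0p h0q n
    show Hf p r ((Th p r ((p - r) / 2))^[n] (Gf p r (Hc p r 0))) = _
    rw [← i2]
    exact (Gf_mem hp hr (hX _ i0 i1)).2
  obtain ⟨M, hM0, hM⟩ : ∃ M : ℝ, 0 < M ∧ ∀ n : ℕ, -M < ((H1 p r)^[n] (Hc p r 0)).re := by
    obtain ⟨B, hB⟩ := (Metric.isBounded_range_of_tendsto _ hlim0).exists_norm_le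
    refine ⟨|B| + 1, by positivity, fun n => ?_⟩
    have h1 := hB _ ⟨n, rfl⟩
    have h2 := (abs_le.1 (Complex.abs_re_le_norm ((H1 p r)^[n] (Hc p r 0)))).1
    have h3 := le_abs_self B
    linarith
  obtain ⟨C, hC⟩ := T_bdd hr hpr hD hS hT hM0
  -- the contradiction
  obtain ⟨n, hn⟩ := exists_nat_gt (max C (max K 1 : ℕ))
  have hnC : C < n := lt_of_le_of_lt (le_max_left _ _) hn
  have hnK : max K 1 < n := by
    have := lt_of_le_of_lt (le_max_right _ _) hn
    exact_mod_cast this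
  have hKn : K ≤ n := by omega
  have h1n : 1 ≤ n := by omega
  have hK' : ∀ z : ℂ, 0 < z.im → z.im < (3 * p + r) / 2 * π → 0 < ((H1 p r)^[n] z).im ∧
      ((H1 p r)^[n] z).im < p * π := fun z z0 z1 => (hK n hKn z z0 z1).2
  have hline := time_line hr hpr hS hT h1n hK'
  have hcont : Continuous (fun x : ℝ => ((H1 p r)^[n] (zl p r x)).re) :=
    Complex.continuous_re.comp (cont_iter hr hpr n)
  obtain ⟨x, hx⟩ : -M ∈ range (fun x : ℝ => ((H1 p r)^[n] (zl p r x)).re) := by
    refine mem_range_of_exists_le_of_exists_ge hcont ?_ ?_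
    · obtain ⟨a, ha⟩ := ((left_iter hr hpr n).eventually (eventually_le_atBot (-M))).exists
      exact ⟨a, ha⟩
    · obtain ⟨m, rfl⟩ : ∃ m, n = m + 1 := ⟨n - 1, by omega⟩
      obtain ⟨b, hb⟩ := ((right_iter hr hpr m).eventually (lt_mem_nhds (hM m))).exists
      exact ⟨b, hb.le⟩
  have hx' : ((H1 p r)^[n] (zl p r x)).re = -M := hx
  have hz := zl_mem hr hpr x
  obtain ⟨k0, k1⟩ := hK' _ hz.1 hz.2
  have hle := hC _ hx' k0 k1
  rw [hline x] at hle
  linarith

end Pool.Agent.MP_ae5b4e_an_MET
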