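import Mathlib
import Pool.Agent.Lib.MP_ae5b4e_an_MET.XZlt
import Pool.Agent.Lib.MP_ae5b4e_an_MET.XZgt
import Pool.Agent.Lib.MP_ae5b4e_an_MET.YZgt

/-!
# MP_ae5b4e_an, project MET, part V: summary
-/

set_option autoImplicit false
noncomputable section
namespace Pool.Agent.MP_ae5b4e_an_MET
open Pool.Agent.MP_ae5b4e_an_ALG

theorem no_shm_XZ {p r D R : ℝ} {V : ℂ → ℂ} (hp : 0 < p) (hr : 0 < r) (hne : p ≠ r) (hD : 0 < D)
    (h : SHM p r (p / 2) D 1 R V) : False := by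
  rcases lt_or_gt_of_ne hne with h1 | h1
  · exact no_shm_XZ_lt hp h1 hD h
  · exact no_shm_XZ_gt hr h1 hD h

end Pool.Agent.MP_ae5b4e_an_MET
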