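import Mathlib
import Pool.Agent.Lib.MP_ae5b4e_an_ALG.VHom
import Pool.Agent.Lib.MP_ae5b4e_an_MET.DefsT

/-!
# MP_ae5b4e_an, project MET, part T, module TI: the identity of the homogeneous model
-/

set_option autoImplicit false

noncomputable section

namespace Pool.Agent.MP_ae5b4e_an_MET

open Filter Topology Set Metric Complex Polynomial
open scoped Real
open Pool.Agent.MP_ae5b4e_an_FLEX
open Pool.Agent.MP_ae5b4e_an_ALG

namespace IdM

/-- the algebraic identity behind the four types -/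
theorem alg_id {a r : ℕ} {c s : ℝ} (hT : TypeQ a (a + r) c s) :
    ∃ k : ℕ, 3 * dT a (a + r) c = 3 / 2 * k - r / 2 - a ∧ ∀ σ : ℂ,
      σ ^ r * (((c : ℂ) * (a * (σ ^ a * σ ^ r) - (a + r) * σ ^ a + r) +
        a * r * (σ ^ a * σ ^ r - 1)) ^ 2 -
        s * (a * (σ ^ a * σ ^ r) - (a + r) * σ ^ a + r) ^ 2) =
      σ ^ k * (((c : ℂ) * (r * (σ ^ a * σ ^ r) - (a + r) * σ ^ r + a) -
        a * r * (σ ^ a * σ ^ r - 1)) ^ 2 -
        s * (r * (σ ^ a * σ ^ r) - (a + r) * σ ^ r + a) ^ 2) := by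
  unfold TypeQ at hT
  unfold dT
  rcases hT with ⟨rfl, rfl⟩ | ⟨rfl, rfl⟩ | ⟨rfl, rfl⟩ | ⟨rfl, rfl⟩
  · refine ⟨2 * a + r, by push_cast; ring, fun σ => ?_⟩
    push_cast
    ring
  · refine ⟨r, by push_cast; ring, fun σ => ?_⟩
    push_cast
    ring
  · refine ⟨a + r, by push_cast; ring, fun σ => ?_⟩
    push_cast
    ring
  · refine ⟨a, by push_cast; ring, fun σ => ?_⟩
    push_cast
    ring

/-- a continuous logarithm of one vanishes near a zero -/
theorem eq_zero_of_exp {f : ℂ → ℂ} (hf : ContinuousAt f 0) (h0 : f 0 = 0) :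
    ∀ᶠ η in 𝓝 (0:ℂ), Complex.exp (f η) = 1 → f η = 0 := by
  have h2 : ContinuousAt (fun η : ℂ => (f η).im) 0 :=
    Complex.continuous_im.continuousAt.comp hf
  have h4 : ∀ᶠ η in 𝓝 (0:ℂ), -π < (f η).im :=
    h2.eventually_const_lt (by
      show -π < (f 0).im
      rw [h0]
      simpa using Real.pi_pos)
  have h5 : ∀ᶠ η in 𝓝 (0:ℂ), (f η).im < π :=
    h2.eventually_lt_const (by
      show (f 0).im < π
      rw [h0]
      simpa using Real.pi_pos)
  filter_upwards [h4, h5] with η h4 h5 he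
  have h := Complex.log_exp h4 h5.le
  rw [he, Complex.log_one] at h
  exact h.symm

end IdM

theorem zet_ID_met {a b : ℕ} (ha : 0 < a) (hab : a < b) {c s : ℝ} (hT : TypeQ a b c s) :
    ∀ᶠ η in 𝓝 (0:ℂ),
      (1 + η) ^ 2 * (deriv (zet a b c) η * zet a b c η * wQ s (zet a b c η)) =
        -(1 + η) ^ ((3 * dT a b c : ℝ) : ℂ) *
          (deriv (zet a b c) (-η / (1 + η)) * zet a b c (-η / (1 + η)) *
            wQ s (zet a b c (-η / (1 + η)))) := by
  obtain ⟨r, rfl⟩ := Nat.exists_eq_add_of_le hab.le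
  have hr : 0 < r := by omega
  obtain ⟨k, hk, hid⟩ := IdM.alg_id hT
  obtain ⟨hza, hz00, -, -, -⟩ := zet_ana ha hab c
  obtain ⟨D2, E1, hD2, hE1, hD, hE, hD20, hD2', hE10, hE1'⟩ := VHom.expand a r
  have ha' : (a : ℂ) ≠ 0 := Nat.cast_ne_zero.2 ha.ne'
  have hr' : (r : ℂ) ≠ 0 := Nat.cast_ne_zero.2 hr.ne'
  have hq' : (a : ℂ) + r ≠ 0 := by exact_mod_cast (by omega : a + r ≠ 0)
  set m1 : ℂ → ℂ := fun η => c * (η * D2 η) - a * r * E1 η with hm1
  have hm1d : Differentiable ℂ m1 := by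
    show Differentiable ℂ fun η => (c : ℂ) * (η * D2 η) - a * r * E1 η
    fun_prop
  have hm10' : m1 0 ≠ 0 := by
    show (c : ℂ) * (0 * D2 0) - a * r * E1 0 ≠ 0
    rw [hE10, zero_mul, mul_zero, zero_sub]
    exact neg_ne_zero.2 (mul_ne_zero (mul_ne_zero ha' hr') hq')
  have hM : ∀ η, (c : ℂ) * Dh a (a + r) η - a * r * ((1 + η) ^ (a + r) - 1) = η * m1 η := by
    intro η
    rw [hD, hE]
    show _ = η * (c * (η * D2 η) - a * r * E1 η)
    ring
  have hz : ∀ η, zet a (a + r) c η = Dh a (a + r) η /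
      (c * Dh a (a + r) η - a * r * ((1 + η) ^ (a + r) - 1)) := by
    intro η
    unfold zet
    push_cast
    rw [add_sub_cancel_left]
  have hs : ContinuousAt (fun η : ℂ => 1 + η) 0 := by fun_prop
  have hτc : ContinuousAt (fun η : ℂ => -η / (1 + η)) 0 :=
    (continuousAt_id.neg).div hs (by simp)
  have hτ0 : Tendsto (fun η : ℂ => -η / (1 + η)) (𝓝 0) (𝓝 0) := by
    have h := hτc.tendsto
    simpa using h
  have hmne := hm1d.continuous.continuousAt.eventually_ne hm10'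
  -- the three functions
  obtain ⟨A, hA⟩ : ∃ A : ℂ → ℂ, A = fun η => 1 - s * zet a (a + r) c η ^ 2 := ⟨_, rfl⟩
  obtain ⟨B, hB⟩ : ∃ B : ℂ → ℂ, B = fun η => A (-η / (1 + η)) := ⟨_, rfl⟩
  obtain ⟨ν, hν⟩ : ∃ ν : ℂ → ℂ, ν = fun η => (1 + η) ^ (a + r) * m1 (-η / (1 + η)) /
    ((1 + η) * m1 η) := ⟨_, rfl⟩
  have hAc : ContinuousAt A 0 := by
    rw [hA]
    exact continuousAt_const.sub (continuousAt_const.mul (hza.continuousAt.pow 2))
  have hA0 : A 0 = 1 := by simp [hA, hz00]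
  have hBc : ContinuousAt B 0 := by
    rw [hB]
    refine ContinuousAt.comp (f := fun η : ℂ => -η / (1 + η)) (g := A) ?_ hτc
    simpa using hAc
  have hB0 : B 0 = 1 := by simp [hB, hA0]
  have hνc : ContinuousAt ν 0 := by
    rw [hν]
    have h1 : ContinuousAt (fun η : ℂ => m1 (-η / (1 + η))) 0 :=
      ContinuousAt.comp (f := fun η : ℂ => -η / (1 + η)) (g := m1)
        hm1d.continuous.continuousAt hτc
    exact ((hs.pow _).mul h1).div (hs.mul hm1d.continuous.continuousAt) (by simpa using hm10')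
  have hν0 : ν 0 = 1 := by
    rw [hν]
    simp only [neg_zero, add_zero, one_pow, one_mul, zero_div]
    exact div_self hm10'
  obtain ⟨f, hf⟩ : ∃ f : ℂ → ℂ, f = fun η => r * Complex.log (1 + η) + Complex.log (B η) +
    2 * Complex.log (ν η) - k * Complex.log (1 + η) - Complex.log (A η) := ⟨_, rfl⟩
  have hsl : ContinuousAt (fun η : ℂ => Complex.log (1 + η)) 0 := hs.clog (by simp)
  have hfc : ContinuousAt f 0 := by
    rw [hf]
    exact ((((continuousAt_const.mul hsl).add (hBc.clog (by simp [hB0]))).add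
      (continuousAt_const.mul (hνc.clog (by simp [hν0])))).sub
      (continuousAt_const.mul hsl)).sub (hAc.clog (by simp [hA0]))
  have hf0 : f 0 = 0 := by simp [hf, hA0, hB0, hν0]
  filter_upwards [hmne, hτ0.eventually hmne, hs.eventually_ne (by simp : (1 : ℂ) + 0 ≠ 0),
    IdM.eq_zero_of_exp hfc hf0, hAc.eventually_ne (y := 0) (by simp [hA0]),
    hBc.eventually_ne (y := 0) (by simp [hB0]), hνc.eventually_ne (y := 0) (by simp [hν0])]
    with η h1 h2 h3 h4 h5 h6 h7
  by_cases hη : η = 0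
  · subst hη
    simp [hz00]
  have hτη : -η / (1 + η) ≠ 0 := div_ne_zero (neg_ne_zero.2 hη) h3
  have hσ : 1 + -η / (1 + η) = (1 + η)⁻¹ := by
    field_simp
    ring
  have m0 : (c : ℂ) * Dh a (a + r) η - a * r * ((1 + η) ^ (a + r) - 1) ≠ 0 := by
    rw [hM]
    exact mul_ne_zero hη h1
  have m2 : (c : ℂ) * Dh a (a + r) (-η / (1 + η)) -
      a * r * ((1 + -η / (1 + η)) ^ (a + r) - 1) ≠ 0 := by
    rw [hM]
    exact mul_ne_zero hτη h2
  have hw1 : wQ s (zet a (a + r) c η) = Complex.exp (Complex.log (A η) * (-(3 / 2))) := by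
    unfold wQ
    rw [Complex.cpow_def_of_ne_zero (by simpa [hA] using h5)]
    rw [hA]
  have hw2 : wQ s (zet a (a + r) c (-η / (1 + η))) =
      Complex.exp (Complex.log (B η) * (-(3 / 2))) := by
    unfold wQ
    rw [Complex.cpow_def_of_ne_zero (by simpa [hB, hA] using h6)]
    rw [hB, hA]
  have hw3 : (1 + η) ^ ((3 * dT a (a + r) c : ℝ) : ℂ) =
      Complex.exp (Complex.log (1 + η) * (3 / 2 * k - r / 2 - a)) := by
    rw [Complex.cpow_def_of_ne_zero h3, hk]
    push_cast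
    ring_nf
  have hνM : (c * Dh a (a + r) η - a * r * ((1 + η) ^ (a + r) - 1)) * ν η =
      -((1 + η) ^ (a + r) * (c * Dh a (a + r) (-η / (1 + η)) -
        a * r * ((1 + -η / (1 + η)) ^ (a + r) - 1))) := by
    rw [hM, hM, hν]
    show η * m1 η * ((1 + η) ^ (a + r) * m1 (-η / (1 + η)) / ((1 + η) * m1 η)) =
      -((1 + η) ^ (a + r) * (-η / (1 + η) * m1 (-η / (1 + η))))
    field_simp
  have hAz : A η = 1 - s * (Dh a (a + r) η /
      (c * Dh a (a + r) η - a * r * ((1 + η) ^ (a + r) - 1))) ^ 2 := by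
    rw [hA, ← hz]
  have hBz : B η = 1 - s * (Dh a (a + r) (-η / (1 + η)) /
      (c * Dh a (a + r) (-η / (1 + η)) -
        a * r * ((1 + -η / (1 + η)) ^ (a + r) - 1))) ^ 2 := by
    rw [hB, hA, ← hz]
  have hid' := hid (1 + η)
  have hexpR : (1 + η) ^ r = Complex.exp (r * Complex.log (1 + η)) := by
    rw [Complex.exp_nat_mul, Complex.exp_log h3]
  have hexpP : (1 + η) ^ a = Complex.exp (a * Complex.log (1 + η)) := by
    rw [Complex.exp_nat_mul, Complex.exp_log h3]
  have hexpk : (1 + η) ^ k = Complex.exp (k * Complex.log (1 + η)) := by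
    rw [Complex.exp_nat_mul, Complex.exp_log h3]
  have hexpν : ν η ^ 3 = Complex.exp (3 * Complex.log (ν η)) := by
    rw [show (3 : ℂ) = ((3 : ℕ) : ℂ) by norm_num, Complex.exp_nat_mul, Complex.exp_log h7]
  have hexpν2 : ν η ^ 2 = Complex.exp (2 * Complex.log (ν η)) := by
    rw [show (2 : ℂ) = ((2 : ℕ) : ℂ) by norm_num, Complex.exp_nat_mul, Complex.exp_log h7]
  -- the two remaining facts
  have hfin : (1 + η) ^ r * B η * ν η ^ 2 = (1 + η) ^ k * A η →
      (1 + η) ^ r * ν η ^ 3 * wQ s (zet a (a + r) c η) =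
        (1 + η) ^ ((3 * dT a (a + r) c : ℝ) : ℂ) * (1 + η) ^ a *
          wQ s (zet a (a + r) c (-η / (1 + η))) := by
    intro hkey
    have hf1 : f η = 0 := by
      apply h4
      rw [hf]
      show Complex.exp (r * Complex.log (1 + η) + Complex.log (B η) +
        2 * Complex.log (ν η) - k * Complex.log (1 + η) - Complex.log (A η)) = 1
      rw [Complex.exp_sub, Complex.exp_sub, Complex.exp_add, Complex.exp_add, ← hexpR,
        ← hexpν2, ← hexpk, Complex.exp_log h5, Complex.exp_log h6, hkey, div_div]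
      exact div_self (mul_ne_zero (pow_ne_zero _ h3) h5)
    rw [hf] at hf1
    have hf2 : r * Complex.log (1 + η) + Complex.log (B η) +
      2 * Complex.log (ν η) - k * Complex.log (1 + η) - Complex.log (A η) = 0 := hf1
    rw [hw1, hw2, hw3, hexpR, hexpP, hexpν, ← Complex.exp_add, ← Complex.exp_add,
      ← Complex.exp_add, ← Complex.exp_add]
    congr 1
    linear_combination (3 / 2) * hf2
  clear hexpR hexpP hexpk hexpν hexpν2 hw1 hw2 hw3 h4 hf hf0 hfc
  rw [VHom.deriv_zet a r c h3 m0, VHom.deriv_zet a r c (by rw [hσ]; exact inv_ne_zero h3) m2,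
    hz, hz]
  rw [hz, hz] at hfin
  generalize hW : wQ s (Dh a (a + r) η /
    (c * Dh a (a + r) η - a * r * ((1 + η) ^ (a + r) - 1))) = W at *
  generalize hW' : wQ s (Dh a (a + r) (-η / (1 + η)) /
      (c * Dh a (a + r) (-η / (1 + η)) -
        a * r * ((1 + -η / (1 + η)) ^ (a + r) - 1))) = W' at *
  generalize (1 + η) ^ ((3 * dT a (a + r) c : ℝ) : ℂ) = X at *
  rw [hAz, hBz] at hfin
  generalize ν η = n at *
  clear hW hW' hM hz hD hE h1 h2 hAz hBz
  simp only [VHom.Dh_eq, hσ, pow_add, inv_pow] at m0 m2 hfin hνM ⊢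
  have hP : (1 + η) ^ a ≠ 0 := pow_ne_zero _ h3
  have hR : (1 + η) ^ r ≠ 0 := pow_ne_zero _ h3
  generalize (1 + η) ^ a = P at *
  generalize (1 + η) ^ r = R at *
  generalize (1 + η) ^ k = Q at *
  have e2 : (c : ℂ) * (r * (P⁻¹ * R⁻¹) - (a + r) * R⁻¹ + a) - a * r * (P⁻¹ * R⁻¹ - 1) =
      (c * (a * (P * R) - (a + r) * P + r) + a * r * (P * R - 1)) / (P * R) := by
    field_simp
    ring
  have e3 : r * (P⁻¹ * R⁻¹) - (a + r) * R⁻¹ + a =
      (a * (P * R) - (a + r) * P + r) / (P * R) := by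
    field_simp
    ring
  have e4 : a * (P⁻¹ * R⁻¹) - (a + r) * P⁻¹ + r =
      (r * (P * R) - (a + r) * R + a) / (P * R) := by
    field_simp
    ring
  rw [e2] at m2 hfin hνM ⊢
  rw [e3] at hfin ⊢
  rw [e4]
  have hN : (c : ℂ) * (a * (P * R) - (a + r) * P + r) + a * r * (P * R - 1) ≠ 0 :=
    fun h => m2 (by rw [h]; simp)
  clear e2 e3 e4 m2
  generalize (c : ℂ) * (a * (P * R) - (a + r) * P + r) + a * r * (P * R - 1) = N at *
  generalize (c : ℂ) * (r * (P * R) - (a + r) * R + a) - a * r * (P * R - 1) = M at *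
  generalize (a : ℂ) * (P * R) - (a + r) * P + r = C at *
  generalize (r : ℂ) * (P * R) - (a + r) * R + a = D at *
  have hn : n = -N / M := by
    rw [eq_div_iff m0]
    field_simp at hνM
    linear_combination hνM
  subst hn
  have hfin' := hfin (by
    field_simp
    field_simp at hid'
    linear_combination hid')
  clear hfin
  have g1 : (1 + η) ^ 2 * (-(a * (a + r) * r * R * C) / ((1 + η) * M ^ 2) * (D / M) * W) =
      (a * (a + r) * r * (1 + η) * C * D / N ^ 3) * (R * (-N / M) ^ 3 * W) := by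
    field_simp
  rw [g1, hfin']
  field_simp

end Pool.Agent.MP_ae5b4e_an_MET
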