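import Pool.Agent.Lib.MP_ae5b4e_an_ALG.LocConic
import Pool.Agent.Lib.MP_ae5b4e_an_ALG.Time
import Pool.Agent.Lib.MP_ae5b4e_an_MET.DefsT

/-!
# MP_ae5b4e_an, project MET, part T: the Fatou coordinate of the germ
-/

set_option autoImplicit false

noncomputable section

namespace Pool.Agent.MP_ae5b4e_an_MET

open Filter Topology Set Metric Complex Polynomial
open scoped Real
open Pool.Agent.MP_ae5b4e_an_ND (Dx Dy Reg)
open Pool.Agent.MP_ae5b4e_an_FLEX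
open Pool.Agent.MP_ae5b4e_an_ALG

namespace TimeM

open Pool.Agent.MP_ae5b4e_an_ALG.Time

/-! ### the power -/

/-- the factor `(1 + η) ^ (3 d)` -/
def pw (d : ℝ) (η : ℂ) : ℂ := (1 + η) ^ ((3 * d : ℝ) : ℂ)

theorem slit : ∀ᶠ η in 𝓝 (0:ℂ), 1 + η ∈ Complex.slitPlane := by
  have h1 : Tendsto (fun η : ℂ => 1 + η) (𝓝 0) (𝓝 (1 + 0)) := tendsto_const_nhds.add tendsto_id
  have h2 : (1 + 0 : ℂ) ∈ Complex.slitPlane := by
    rw [add_zero]; exact Complex.one_mem_slitPlane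
  exact h1.eventually (Complex.isOpen_slitPlane.mem_nhds h2)

theorem pw_zero (d : ℝ) : pw d 0 = 1 := by simp [pw]

theorem pw_ne {d : ℝ} {η : ℂ} (h : 1 + η ≠ 0) : pw d η ≠ 0 := by
  unfold pw
  intro h1
  rw [Complex.cpow_eq_zero_iff] at h1
  exact h h1.1

theorem pw_deriv {d : ℝ} {η : ℂ} (h : 1 + η ∈ Complex.slitPlane) :
    HasDerivAt (pw d) (3 * d * pw d η / (1 + η)) η := by
  have h0 : 1 + η ≠ 0 := Complex.slitPlane_ne_zero h
  have h1 : HasDerivAt (fun z : ℂ => 1 + z) 1 η := (hasDerivAt_id η).const_add 1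
  have h2 := h1.cpow_const (c := ((3 * d : ℝ) : ℂ)) h
  refine h2.congr_deriv ?_
  rw [Complex.cpow_sub _ _ h0, Complex.cpow_one]
  unfold pw
  push_cast
  ring

theorem pw_analytic (d : ℝ) : AnalyticAt ℂ (pw d) 0 := by
  rw [Complex.analyticAt_iff_eventually_differentiableAt]
  filter_upwards [slit] with η h using (pw_deriv h).differentiableAt

/-! ### the weight -/

theorem wQ_zero (s : ℝ) : wQ s 0 = 1 := by simp [wQ]

theorem wQ_even (s : ℝ) (z : ℂ) : wQ s (-z) = wQ s z := by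
  unfold wQ
  rw [neg_sq]

theorem slitQ (s : ℝ) : ∀ᶠ z : ℂ in 𝓝 (0:ℂ), (1 - (s:ℂ) * z ^ 2) ∈ Complex.slitPlane := by
  have h1 : ContinuousAt (fun z : ℂ => 1 - (s:ℂ) * z ^ 2) (0:ℂ) := by fun_prop
  have h2 : (1 - (s:ℂ) * (0:ℂ) ^ 2 : ℂ) ∈ Complex.slitPlane := by
    have : (1 - (s:ℂ) * (0:ℂ) ^ 2 : ℂ) = 1 := by ring
    rw [this]; exact Complex.one_mem_slitPlane
  exact h1.eventually (Complex.isOpen_slitPlane.mem_nhds h2)

theorem wQ_analytic (s : ℝ) : AnalyticAt ℂ (wQ s) 0 := by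
  rw [Complex.analyticAt_iff_eventually_differentiableAt]
  filter_upwards [slitQ s] with z h
  have h1 : DifferentiableAt ℂ (fun z : ℂ => 1 - s * z ^ 2) z := by fun_prop
  exact h1.cpow_const h

theorem wQ_conj (s : ℝ) : ∀ᶠ z in 𝓝 (0:ℂ), wQ s ((starRingEnd ℂ) z) = (starRingEnd ℂ) (wQ s z) := by
  filter_upwards [slitQ s] with z h
  have h1 : Complex.arg (1 - s * z ^ 2) ≠ Real.pi := Complex.slitPlane_arg_ne_pi h
  have h2 := Complex.conj_cpow (1 - s * z ^ 2) (-(3 / 2) : ℂ) h1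
  have h3 : (starRingEnd ℂ) (-(3 / 2) : ℂ) = -(3 / 2) := by
    simp only [map_neg, map_div₀, Complex.conj_ofNat]
  have h4 : (starRingEnd ℂ) (1 - s * z ^ 2) = 1 - s * ((starRingEnd ℂ) z) ^ 2 := by
    simp only [map_sub, map_mul, map_pow, map_one, Complex.conj_ofReal]
  unfold wQ
  rw [← h4, h2, h3]

theorem coord2_met (s : ℝ) {G : ℂ → ℂ} (hG : AnalyticAt ℂ G 0) (hodd : ∀ᶠ z in 𝓝 (0:ℂ), G (-z) = -G z)
    (hreal : ∀ᶠ z in 𝓝 (0:ℂ), G ((starRingEnd ℂ) z) = (starRingEnd ℂ) (G z)) :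
    ∃ J B M : ℂ → ℂ, AnalyticAt ℂ J 0 ∧ AnalyticAt ℂ B 0 ∧ B 0 = 0 ∧
      (∀ᶠ z in 𝓝 (0:ℂ), HasDerivAt J (G z) z) ∧
      (∀ᶠ z in 𝓝 (0:ℂ), HasDerivAt B (M z) z) ∧
      (∀ᶠ z in 𝓝 (0:ℂ), B (-z) = -B z) ∧
      (∀ᶠ z in 𝓝 (0:ℂ), B ((starRingEnd ℂ) z) = (starRingEnd ℂ) (B z)) ∧
      ∀ z, exp (-3 * J z) * wQ s z = 1 + z ^ 2 * M z := by
  obtain ⟨J, hJ, hJ0, hJd⟩ := prim hG
  have hG0 : G 0 = 0 := by
    have h1 := hodd.self_of_nhds
    rw [neg_zero] at h1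
    have h2 : 2 * G 0 = 0 := by linear_combination h1
    exact (mul_eq_zero.1 h2).resolve_left two_ne_zero
  have hN : AnalyticAt ℂ (fun z => exp (-3 * J z) * wQ s z - 1) 0 :=
    ((analyticAt_const.mul hJ).cexp.mul (wQ_analytic s)).sub analyticAt_const
  obtain ⟨m, hm, hm0, -, hNm, -⟩ := div2 hN (by simp [hJ0, wQ_zero])
  have hwd : deriv (wQ s) 0 = 0 := by
    have h1 : HasDerivAt (fun w => wQ s (-w)) (deriv (wQ s) 0 * (-1)) 0 := by
      have h2 : HasDerivAt (wQ s) (deriv (wQ s) 0) (-0) := by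
        rw [neg_zero]; exact (wQ_analytic s).differentiableAt.hasDerivAt
      exact h2.comp 0 (hasDerivAt_neg 0)
    have h3 : (fun w => wQ s (-w)) = wQ s := funext fun w => wQ_even s w
    rw [h3] at h1
    have h4 := h1.deriv
    have h5 : 2 * deriv (wQ s) 0 = 0 := by linear_combination h4
    exact (mul_eq_zero.1 h5).resolve_left two_ne_zero
  have hm0' : m 0 = 0 := by
    have h1 : HasDerivAt (fun z => exp (-3 * J z) * wQ s z - 1)
        (exp (-3 * J 0) * (-3 * G 0) * wQ s 0 + exp (-3 * J 0) * deriv (wQ s) 0) 0 :=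
      (((hJd.self_of_nhds.const_mul (-3)).cexp).mul
        (wQ_analytic s).differentiableAt.hasDerivAt).sub_const 1
    rw [hm0, h1.deriv, hG0, hwd]
    ring
  obtain ⟨M, hM, -, -, hmM, -⟩ := div2 hm hm0'
  obtain ⟨B, hB, hB0, hBd⟩ := prim hM
  have hexp : ∀ z, exp (-3 * J z) * wQ s z = 1 + z ^ 2 * M z := fun z => by
    have h1 := hNm z
    rw [hmM z] at h1
    linear_combination h1
  have hJe : ∀ᶠ z in 𝓝 (0:ℂ), J (-z) = J z := by
    refine eq_of_deriv (f' := G) ?_ hJd (by simp)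
    filter_upwards [tendsto_neg0.eventually hJd, hodd] with z h1 h2
    have h3 : HasDerivAt (fun w => J (-w)) (G (-z) * (-1)) z := h1.comp z (hasDerivAt_neg z)
    rw [h2] at h3
    convert h3 using 1
    ring
  have hJr : ∀ᶠ z in 𝓝 (0:ℂ), (starRingEnd ℂ) (J ((starRingEnd ℂ) z)) = J z := by
    refine eq_of_deriv (f' := G) ?_ hJd (by simp [hJ0])
    filter_upwards [tendsto_conj0.eventually hJd, hreal] with z h1 h2
    have h3 := hasDerivAt_conj h1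
    rw [h2, Complex.conj_conj] at h3
    exact h3
  have hMe : ∀ᶠ z in 𝓝 (0:ℂ), M (-z) = M z := by
    refine ext_punct (AnalyticAt.fun_comp_of_eq hM analyticAt_id.neg (by simp)) hM ?_
    filter_upwards [nhdsWithin_le_nhds hJe, self_mem_nhdsWithin] with z h1 h2
    have h3 := hexp (-z)
    rw [h1, wQ_even, hexp z] at h3
    exact mul_left_cancel₀ (pow_ne_zero 2 h2) (by linear_combination -h3)
  have hMr : ∀ᶠ z in 𝓝 (0:ℂ), (starRingEnd ℂ) (M ((starRingEnd ℂ) z)) = M z := by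
    refine ext_punct (analyticAt_conj hM) hM ?_
    filter_upwards [nhdsWithin_le_nhds hJr, self_mem_nhdsWithin,
      nhdsWithin_le_nhds (wQ_conj s)] with z h1 h2 h2'
    have h3 := congrArg (starRingEnd ℂ) (hexp ((starRingEnd ℂ) z))
    rw [h2', map_mul, ← Complex.exp_conj] at h3
    simp only [map_add, map_mul, map_one, map_pow, map_neg, Complex.conj_conj, h1,
      Complex.conj_ofNat] at h3
    rw [hexp z] at h3
    exact mul_left_cancel₀ (pow_ne_zero 2 h2) (by linear_combination -h3)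
  refine ⟨J, B, M, hJ, hB, hB0, hJd, hBd, ?_, ?_, hexp⟩
  · refine eq_of_deriv (f' := fun z => -M z) ?_ ?_ (by simp [hB0])
    · filter_upwards [tendsto_neg0.eventually hBd, hMe] with z h1 h2
      have h3 : HasDerivAt (fun w => B (-w)) (M (-z) * (-1)) z := h1.comp z (hasDerivAt_neg z)
      rw [h2] at h3
      convert h3 using 1
      ring
    · filter_upwards [hBd] with z h1 using h1.neg
  · have h0 : ∀ᶠ z in 𝓝 (0:ℂ), (starRingEnd ℂ) (B ((starRingEnd ℂ) z)) = B z := by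
      refine eq_of_deriv (f' := M) ?_ hBd (by simp [hB0])
      filter_upwards [tendsto_conj0.eventually hBd, hMr] with z h1 h2
      have h3 := hasDerivAt_conj h1
      rw [h2] at h3
      exact h3
    filter_upwards [h0] with z hz
    rw [← hz, Complex.conj_conj]

/-! ### Step 3: the constant -/

theorem w_tau_met {G J g0 ζ z1 : ℂ → ℂ} {d : ℝ}
    (hg1 : ∀ᶠ η in 𝓝[≠] (0:ℂ), 1 / η + g0 η =
      d / (1 + η) - (1 / tau η + g0 (tau η)) / (1 + η) ^ 2)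
    (hζ : AnalyticAt ℂ ζ 0) (hζ0 : ζ 0 = 0) (hζ1 : deriv ζ 0 = -1 / 2)
    (hz : AnalyticAt ℂ z1 0) (hz0 : z1 0 = -1 / 2) (hζz : ∀ η, ζ η = η * z1 η)
    (hJ : AnalyticAt ℂ J 0) (hJd : ∀ᶠ z in 𝓝 (0:ℂ), HasDerivAt J (G z) z)
    (hgG : ∀ᶠ η in 𝓝[≠] (0:ℂ), 1 / η + g0 η = (1 / ζ η + G (ζ η)) * deriv ζ η) :
    ∀ᶠ η in 𝓝[≠] (0:ℂ), exp (-3 * J (ζ (tau η))) / (ζ (tau η)) ^ 3 =
      -pw d η * (exp (-3 * J (ζ η)) / (ζ η) ^ 3) := by
  have hζt : Tendsto ζ (𝓝 0) (𝓝 0) := by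
    have := hζ.continuousAt.tendsto
    rwa [hζ0] at this
  have hζt' : Tendsto ζ (𝓝[≠] 0) (𝓝[≠] 0) := tendsto_punct hζ hζ0 (by rw [hζ1]; norm_num)
  have hζn : ∀ᶠ η in 𝓝[≠] (0:ℂ), ζ η ≠ 0 := by
    filter_upwards [hζt'.eventually self_mem_nhdsWithin] with η h using h
  have hzt : AnalyticAt ℂ (fun η => z1 (tau η)) 0 :=
    AnalyticAt.fun_comp_of_eq hz tau_analytic tau_zero
  have hζτ : AnalyticAt ℂ (fun η => ζ (tau η)) 0 :=
    AnalyticAt.fun_comp_of_eq hζ tau_analytic tau_zero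
  have hz0n : z1 0 ≠ 0 := by rw [hz0]; norm_num
  have hzt0 : z1 (tau 0) ≠ 0 := by rw [tau_zero]; exact hz0n
  have hL : AnalyticAt ℂ (fun η => (-(1 + η) * z1 η / z1 (tau η)) ^ 3 *
      exp (-3 * J (ζ (tau η)) + 3 * J (ζ η)) / pw d η) 0 := by
    refine AnalyticAt.div (AnalyticAt.mul (AnalyticAt.pow ?_ 3) (AnalyticAt.cexp ?_)) ?_
      (by rw [pw_zero]; exact one_ne_zero)
    · exact (((analyticAt_const.add analyticAt_id).neg.mul hz)).div hzt hzt0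
    · refine (analyticAt_const.mul ?_).add (analyticAt_const.mul ?_)
      · exact AnalyticAt.fun_comp_of_eq hJ hζτ (by simp [tau_zero, hζ0])
      · exact AnalyticAt.fun_comp_of_eq hJ hζ hζ0
    · exact pw_analytic d
  have hz1n : ∀ᶠ η in 𝓝 (0:ℂ), z1 η ≠ 0 := hz.continuousAt.eventually_ne hz0n
  have hK := const_of_punct (K := fun η => exp (-3 * J (ζ (tau η))) / (ζ (tau η)) ^ 3 /
    (pw d η * (exp (-3 * J (ζ η)) / (ζ η) ^ 3))) hL ?_ ?_
  · filter_upwards [hK, nhdsWithin_le_nhds one_add_ne, hζn] with η h1 h2 h3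
    have h4 : pw d η * (exp (-3 * J (ζ η)) / (ζ η) ^ 3) ≠ 0 :=
      mul_ne_zero (pw_ne h2) (div_ne_zero (exp_ne_zero _) (pow_ne_zero 3 h3))
    have h5 := (div_eq_iff h4).1 h1
    rw [h5, tau_zero, hζ0]
    have h7 : (-(1 + 0) * z1 0 / z1 0 : ℂ) = -1 := by
      rw [mul_div_assoc, div_self hz0n]
      ring
    have h6 : -3 * J 0 + 3 * J 0 = 0 := by ring
    rw [h6, exp_zero, h7]
    simp only [pw_zero, mul_one, div_one]
    ring
  · filter_upwards [nhdsWithin_le_nhds one_add_ne, nhdsWithin_le_nhds hz1n,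
      nhdsWithin_le_nhds (tendsto_tau.eventually hz1n), self_mem_nhdsWithin] with η h1 h2 h3 h4
    have h4' : η ≠ 0 := h4
    have h5 : ζ (tau η) = -η / (1 + η) * z1 (tau η) := hζz (tau η)
    have h6 : exp (-3 * J (ζ (tau η)) + 3 * J (ζ η)) =
        exp (-3 * J (ζ (tau η))) / exp (-3 * J (ζ η)) := by
      rw [← exp_sub]
      congr 1
      ring
    rw [h6]
    generalize exp (-3 * J (ζ (tau η))) = e1
    generalize he2 : exp (-3 * J (ζ η)) = e2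
    have he2n : e2 ≠ 0 := by rw [← he2]; exact exp_ne_zero _
    rw [h5, hζz η]
    generalize z1 (tau η) = y at h3
    generalize z1 η = x at h2
    field_simp
  · filter_upwards [hg1, nhdsWithin_le_nhds slit, hgG, tendsto_tau'.eventually hgG,
      nhdsWithin_le_nhds one_add_ne,
      nhdsWithin_le_nhds (hζt.eventually hJd),
      nhdsWithin_le_nhds (tendsto_tau.eventually (hζt.eventually hJd)),
      hζn, tendsto_tau'.eventually hζn, nhdsWithin_le_nhds hζ.eventually_analyticAt,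
      nhdsWithin_le_nhds (tendsto_tau.eventually hζ.eventually_analyticAt)]
      with η h1 hsl h2 h3 h4 h5 h6 h7 h8 h9 h10
    have hW1 := w_deriv h5 h9.differentiableAt.hasDerivAt h7
    have hW2 := w_deriv h6 h10.differentiableAt.hasDerivAt h8
    rw [← h2] at hW1
    rw [← h3] at hW2
    have hW3 := hW2.comp η (tau_deriv h4)
    have hp := pw_deriv (d := d) hsl
    have h11 : pw d η * (exp (-3 * J (ζ η)) / (ζ η) ^ 3) ≠ 0 :=
      mul_ne_zero (pw_ne h4) (div_ne_zero (exp_ne_zero _) (pow_ne_zero 3 h7))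
    have hK := hW3.div (hp.mul hW1) h11
    refine hK.congr_deriv ?_
    rw [div_eq_zero_iff]
    left
    simp only [Function.comp, Pi.mul_apply]
    generalize exp (-3 * J (ζ (tau η))) / (ζ (tau η)) ^ 3 = w1
    generalize exp (-3 * J (ζ η)) / (ζ η) ^ 3 = w2
    rw [h1]
    field_simp
    ring

theorem T0_deriv_met {d s : ℝ} {B M J : ℂ → ℂ} {z : ℂ} (hz : z ≠ 0) (hB : HasDerivAt B (M z) z)
    (hM : exp (-3 * J z) * wQ s z = 1 + z ^ 2 * M z) :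
    HasDerivAt (T0 d B) (-(exp (-3 * J z) * wQ s z / z ^ 2) / (2 * d)) z := by
  have h1 : HasDerivAt (fun z : ℂ => 1 / z) ((0 * z - 1 * 1) / z ^ 2) z :=
    (hasDerivAt_const z (1:ℂ)).div (hasDerivAt_id z) hz
  have h2 := (h1.sub hB).div_const (2 * (d:ℂ))
  refine HasDerivAt.congr_deriv (f := T0 d B) h2 ?_
  rw [hM]
  congr 1
  field_simp
  ring

theorem sum_const_met {a ζ z1 J B M : ℂ → ℂ} {d s : ℝ} (hd : 0 < d)
    (ha : AnalyticAt ℂ a 0) (ha0 : a 0 = 0) (ha1 : deriv a 0 = 1)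
    (ha2 : deriv (deriv a) 0 = 2 * d - 2)
    (hζa : ∀ᶠ η in 𝓝 (0:ℂ), ζ (-(a η)) = -ζ η)
    (hζ : AnalyticAt ℂ ζ 0) (hζ0 : ζ 0 = 0) (hζ1 : deriv ζ 0 = -1 / 2)
    (hz : AnalyticAt ℂ z1 0) (hz0 : z1 0 = -1 / 2) (hζz : ∀ η, ζ η = η * z1 η)
    (hB : AnalyticAt ℂ B 0) (hB0 : B 0 = 0) (hBd : ∀ᶠ z in 𝓝 (0:ℂ), HasDerivAt B (M z) z)
    (hJB : ∀ z, exp (-3 * J z) * wQ s z = 1 + z ^ 2 * M z)
    (hW : ∀ᶠ η in 𝓝[≠] (0:ℂ), exp (-3 * J (ζ (tau η))) / (ζ (tau η)) ^ 3 =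
      -pw d η * (exp (-3 * J (ζ η)) / (ζ η) ^ 3))
    (hID : ∀ᶠ η in 𝓝 (0:ℂ), (1 + η) ^ 2 * (deriv ζ η * ζ η * wQ s (ζ η)) =
      -pw d η * (deriv ζ (tau η) * ζ (tau η) * wQ s (ζ (tau η)))) :
    ∀ᶠ η in 𝓝[≠] (0:ℂ), T0 d B (ζ η) + T0 d B (ζ (tau η)) = 1 := by
  have hζt : Tendsto ζ (𝓝 0) (𝓝 0) := by
    have := hζ.continuousAt.tendsto
    rwa [hζ0] at this
  have hζt' : Tendsto ζ (𝓝[≠] 0) (𝓝[≠] 0) := tendsto_punct hζ hζ0 (by rw [hζ1]; norm_num)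
  have hζn : ∀ᶠ η in 𝓝[≠] (0:ℂ), ζ η ≠ 0 := by
    filter_upwards [hζt'.eventually self_mem_nhdsWithin] with η h using h
  have hzt : AnalyticAt ℂ (fun η => z1 (tau η)) 0 :=
    AnalyticAt.fun_comp_of_eq hz tau_analytic tau_zero
  have hζτ : AnalyticAt ℂ (fun η => ζ (tau η)) 0 :=
    AnalyticAt.fun_comp_of_eq hζ tau_analytic tau_zero
  have hz0n : z1 0 ≠ 0 := by rw [hz0]; norm_num
  have hzt0 : z1 (tau 0) ≠ 0 := by rw [tau_zero]; exact hz0n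
  have hz1n : ∀ᶠ η in 𝓝 (0:ℂ), z1 η ≠ 0 := hz.continuousAt.eventually_ne hz0n
  have hz1d := zeta_coeff ha ha0 ha1 ha2 hζa hz hz0 hζz
  have hdc : (d:ℂ) ≠ 0 := by exact_mod_cast hd.ne'
  have hN : AnalyticAt ℂ (fun η => 1 / z1 η - (1 + η) / z1 (tau η)) 0 :=
    (analyticAt_const.div hz hz0n).sub
      ((analyticAt_const.add analyticAt_id).div hzt hzt0)
  obtain ⟨N1, hN1, hN10, -, hNN, -⟩ := div2 hN (by simp [tau_zero])
  have hN1v : N1 0 = 2 * d := by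
    have h1 : HasDerivAt z1 ((1 - d) / 4) 0 := by
      have := hz.differentiableAt.hasDerivAt
      rwa [hz1d] at this
    have h1' : HasDerivAt z1 ((1 - d) / 4) (tau 0) := by rw [tau_zero]; exact h1
    have h2 : HasDerivAt (fun η => z1 (tau η)) ((1 - d) / 4 * (-1 / (1 + 0) ^ 2)) 0 :=
      h1'.comp 0 (tau_deriv (by simp))
    have h3 : HasDerivAt (fun η => 1 / z1 η - (1 + η) / z1 (tau η)) _ 0 :=
      ((hasDerivAt_const (0:ℂ) (1:ℂ)).div h1 hz0n).sub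
        (((hasDerivAt_id (0:ℂ)).const_add 1).div h2 hzt0)
    rw [hN10, h3.deriv]
    simp only [tau_zero, hz0]
    norm_num
    ring
  have hL : AnalyticAt ℂ (fun η => (N1 η - B (ζ η) - B (ζ (tau η))) / (2 * d)) 0 := by
    refine AnalyticAt.div ((hN1.sub ?_).sub ?_) analyticAt_const
      (mul_ne_zero two_ne_zero hdc)
    · exact AnalyticAt.fun_comp_of_eq hB hζ hζ0
    · exact AnalyticAt.fun_comp_of_eq hB hζτ (by simp [tau_zero, hζ0])
  have hK := const_of_punct (K := fun η => T0 d B (ζ η) + T0 d B (ζ (tau η))) hL ?_ ?_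
  · filter_upwards [hK] with η h1
    rw [h1, hN1v, tau_zero, hζ0, hB0, sub_zero, sub_zero]
    exact div_self (mul_ne_zero two_ne_zero hdc)
  · filter_upwards [nhdsWithin_le_nhds one_add_ne, nhdsWithin_le_nhds hz1n,
      nhdsWithin_le_nhds (tendsto_tau.eventually hz1n), self_mem_nhdsWithin] with η h1 h2 h3 h4
    have h4' : η ≠ 0 := h4
    have h5 : 1 / ζ (tau η) = -(1 + η) / (η * z1 (tau η)) := by
      have : ζ (tau η) = -η / (1 + η) * z1 (tau η) := hζz (tau η)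
      rw [this]
      field_simp
    have h6 : 1 / ζ η = 1 / (η * z1 η) := by rw [hζz η]
    have h7 : N1 η = (1 / z1 η - (1 + η) / z1 (tau η)) / η := by
      rw [hNN η, mul_div_cancel_left₀ _ h4']
    simp only [T0]
    rw [h5, h6, h7]
    generalize z1 (tau η) = y at h3
    generalize z1 η = x at h2
    field_simp
    ring
  · filter_upwards [hW, nhdsWithin_le_nhds hID, nhdsWithin_le_nhds one_add_ne,
      nhdsWithin_le_nhds (hζt.eventually hBd),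
      nhdsWithin_le_nhds (tendsto_tau.eventually (hζt.eventually hBd)),
      hζn, tendsto_tau'.eventually hζn, nhdsWithin_le_nhds hζ.eventually_analyticAt,
      nhdsWithin_le_nhds (tendsto_tau.eventually hζ.eventually_analyticAt)]
      with η h1 h2 h4 h5 h6 h7 h8 h9 h10
    have hT1 : HasDerivAt (fun η => T0 d B (ζ η)) _ η :=
      (T0_deriv_met (d := d) h7 h5 (hJB (ζ η))).comp η h9.differentiableAt.hasDerivAt
    have hc : HasDerivAt (fun η => ζ (tau η)) (deriv ζ (tau η) * (-1 / (1 + η) ^ 2)) η :=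
      h10.differentiableAt.hasDerivAt.comp η (tau_deriv h4)
    have hT3 : HasDerivAt (T0 d B)
        (-(exp (-3 * J (ζ (tau η))) * wQ s (ζ (tau η)) / (ζ (tau η)) ^ 2) / (2 * d))
        ((fun η => ζ (tau η)) η) :=
      T0_deriv_met (d := d) h8 h6 (hJB (ζ (tau η)))
    have hT2 := HasDerivAt.comp η hT3 hc
    refine (hT1.add hT2).congr_deriv ?_
    have h11 : exp (-3 * J (ζ (tau η))) * wQ s (ζ (tau η)) / (ζ (tau η)) ^ 2 =
        ζ (tau η) * wQ s (ζ (tau η)) * (exp (-3 * J (ζ (tau η))) / (ζ (tau η)) ^ 3) := by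
      field_simp
    have h12 : exp (-3 * J (ζ η)) * wQ s (ζ η) / (ζ η) ^ 2 =
        ζ η * wQ s (ζ η) * (exp (-3 * J (ζ η)) / (ζ η) ^ 3) := by
      field_simp
    rw [h11, h12, h1]
    generalize exp (-3 * J (ζ η)) / (ζ η) ^ 3 = w2
    have h13 : deriv ζ η * ζ η * wQ s (ζ η) =
        -pw d η * (deriv ζ (tau η) * ζ (tau η) * wQ s (ζ (tau η))) / (1 + η) ^ 2 := by
      rw [eq_div_iff (pow_ne_zero 2 h4), ← h2]
      ring
    have h14 : (-(ζ η * wQ s (ζ η) * w2) / (2 * (d:ℂ)) * deriv ζ η) =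
        -(deriv ζ η * ζ η * wQ s (ζ η)) * w2 / (2 * d) := by ring
    rw [h14, h13]
    field_simp
    ring

end TimeM

/-- The Fatou coordinate: from the two symmetries of `g dη` and the identity `hID` for the
projective coordinate `U = 1 / ζ`. -/
theorem germ_time_met {a Q ζ : ℂ → ℂ} {d s : ℝ} (hd : 0 < d)
    (ha : AnalyticAt ℂ a 0) (ha0 : a 0 = 0) (ha1 : deriv a 0 = 1)
    (ha2 : deriv (deriv a) 0 = 2 * d - 2)
    (har : ∀ᶠ η in 𝓝 (0:ℂ), a ((starRingEnd ℂ) η) = (starRingEnd ℂ) (a η))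
    (hQ : AnalyticAt ℂ Q 0) (hQ0 : Q 0 = 0) (hQ1 : deriv Q 0 = 1 - d)
    (hg1 : ∀ᶠ η in 𝓝[≠] (0:ℂ), η - Q η ≠ 0 ∧
      d / (η - Q η) = d / (1 + η) -
        d / (-η / (1 + η) - Q (-η / (1 + η))) / (1 + η) ^ 2)
    (hg2 : ∀ᶠ η in 𝓝[≠] (0:ℂ), (d : ℂ) / (η - Q η) = -deriv a η * (d / (-(a η) - Q (-(a η)))))
    (hζ : AnalyticAt ℂ ζ 0) (hζ0 : ζ 0 = 0) (hζ1 : deriv ζ 0 = -1 / 2)
    (hζr : ∀ᶠ η in 𝓝 (0:ℂ), ζ ((starRingEnd ℂ) η) = (starRingEnd ℂ) (ζ η))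
    (hζa : ∀ᶠ η in 𝓝 (0:ℂ), ζ (-(a η)) = -ζ η)
    (hID : ∀ᶠ η in 𝓝 (0:ℂ), (1 + η) ^ 2 * (deriv ζ η * ζ η * wQ s (ζ η)) =
      -(1 + η) ^ ((3 * d : ℝ) : ℂ) *
        (deriv ζ (-η / (1 + η)) * ζ (-η / (1 + η)) * wQ s (ζ (-η / (1 + η))))) {ρ : ℝ}
    (hρ : 0 < ρ) :
    ∃ R > 0, ∃ U : ℂ → ℂ, (∀ t : ℂ, R < ‖t‖ → DifferentiableAt ℂ U t ∧ U (-t) = -U t ∧
        U ((starRingEnd ℂ) t) = (starRingEnd ℂ) (U t) ∧ U t ≠ 0) ∧
      Tendsto (fun t : ℂ => U t - 2 * d * t) (Bornology.cobounded ℂ) (𝓝 0) ∧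
      ∀ t : ℂ, R < ‖t‖ → R < ‖1 - t‖ → ∃ η : ℂ, ‖η‖ < ρ ∧ η ≠ 0 ∧ ζ η = (U t)⁻¹ ∧
        ζ (-η / (1 + η)) = (U (1 - t))⁻¹ := by
  obtain ⟨g0, hg0, hgf⟩ := Time.g_form hd hQ hQ0 hQ1
  have hta : Tendsto (fun η => -(a η)) (𝓝[≠] 0) (𝓝[≠] 0) :=
    Time.tendsto_punct ha.neg (by simp [ha0]) (by
      have h1 : HasDerivAt (fun η => -(a η)) (-1) 0 := by
        have h2 := ha.differentiableAt.hasDerivAt.neg
        rw [ha1] at h2
        exact h2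
      rw [h1.deriv]
      norm_num)
  have hg1' : ∀ᶠ η in 𝓝[≠] (0:ℂ), 1 / η + g0 η =
      d / (1 + η) - (1 / Time.tau η + g0 (Time.tau η)) / (1 + η) ^ 2 := by
    filter_upwards [hg1, hgf, Time.tendsto_tau'.eventually hgf] with η h1 h2 h3
    rw [← h2, ← h3]
    exact h1.2
  have hg2' : ∀ᶠ η in 𝓝[≠] (0:ℂ),
      1 / η + g0 η = -deriv a η * (1 / (-(a η)) + g0 (-(a η))) := by
    filter_upwards [hg2, hgf, hta.eventually hgf] with η h1 h2 h3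
    rw [← h2, ← h3]
    exact h1
  have hg0r := Time.g_real hd ha ha0 ha1 ha2 har hg0 hg1' hg2'
  obtain ⟨G, hG, hGo, hGr, hgG⟩ := Time.coord1 ha ha0 hg0 hg0r hg2' hζ hζ0 hζ1 hζr hζa
  obtain ⟨J, B, M, hJ, hB, hB0, hJd, hBd, hBo, hBr, hJB⟩ := TimeM.coord2_met s hG hGo hGr
  obtain ⟨z1, hz, hz0, -, hζz, -⟩ := Time.div2 hζ hζ0
  rw [hζ1] at hz0
  have hW := TimeM.w_tau_met hg1' hζ hζ0 hζ1 hz hz0 hζz hJ hJd hgG
  have hS := TimeM.sum_const_met hd ha ha0 ha1 ha2 hζa hζ hζ0 hζ1 hz hz0 hζz hB hB0 hBd hJB hW hID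
  obtain ⟨X, hX, hX0, hX1, hXo, hXr, hXT, hXF, hFX⟩ := Time.time_inv hd hB hBo hBr
  have hζ1n : deriv ζ 0 ≠ 0 := by rw [hζ1]; norm_num
  obtain ⟨χ, hχ, hχ0, hχ1, hζχ, hχζ⟩ := Time.local_inv hζ hζ0 hζ1n
  have hχt' : Tendsto χ (𝓝[≠] 0) (𝓝[≠] 0) :=
    Time.tendsto_punct hχ hχ0 (by rw [hχ1]; exact inv_ne_zero hζ1n)
  have hXt' : Tendsto X (𝓝[≠] 0) (𝓝[≠] 0) := Time.tendsto_punct hX hX0 hX1
  have hζt' : Tendsto ζ (𝓝[≠] 0) (𝓝[≠] 0) := Time.tendsto_punct hζ hζ0 hζ1n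
  have hηt : Tendsto (fun w => χ (X w)) (𝓝[≠] 0) (𝓝[≠] 0) := hχt'.comp hXt'
  have hρe : ∀ᶠ η in 𝓝[≠] (0:ℂ), ‖η‖ < ρ := by
    filter_upwards [nhdsWithin_le_nhds (Metric.ball_mem_nhds (0:ℂ) hρ)] with η h
    simpa using h
  have hall : ∀ᶠ w in 𝓝[≠] (0:ℂ), w ≠ 0 ∧ DifferentiableAt ℂ X w ∧ X (-w) = -X w ∧
      X ((starRingEnd ℂ) w) = (starRingEnd ℂ) (X w) ∧ X w ≠ 0 ∧ ‖χ (X w)‖ < ρ ∧
      χ (X w) ≠ 0 ∧ ζ (χ (X w)) = X w ∧ ζ (Time.tau (χ (X w))) = X (1 / (1 - 1 / w)) := by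
    filter_upwards [self_mem_nhdsWithin, nhdsWithin_le_nhds hX.eventually_analyticAt,
      nhdsWithin_le_nhds hXo, nhdsWithin_le_nhds hXr, hXt'.eventually self_mem_nhdsWithin,
      hηt.eventually hρe, hηt.eventually self_mem_nhdsWithin,
      hXt'.eventually (nhdsWithin_le_nhds hζχ), hηt.eventually hS, hFX,
      (hζt'.comp (Time.tendsto_tau'.comp hηt)).eventually hXF]
      with w h1 h2 h3 h4 h5 h6 h7 h8 h9 h10 h11
    refine ⟨h1, h2.differentiableAt, h3, h4, h5, h6, h7, h8, ?_⟩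
    rw [h8, h10] at h9
    have h12 : Time.T0 d B (ζ (Time.tau (χ (X w)))) = 1 - 1 / w := by
      linear_combination h9
    simp only [Function.comp] at h11
    rw [h12] at h11
    exact h11.symm
  obtain ⟨R, hR, hRt⟩ := Time.exists_R hall
  refine ⟨R, hR, fun t => (X t⁻¹)⁻¹, ?_, ?_, ?_⟩
  · intro t ht
    obtain ⟨h1, h2, h3, h4, h5, -⟩ := hRt t ht
    have ht0 : t ≠ 0 := by
      intro h
      rw [h, inv_zero] at h1
      exact h1 rfl
    refine ⟨?_, ?_, ?_, inv_ne_zero h5⟩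
    · exact (h2.comp t (differentiableAt_inv ht0)).inv h5
    · show (X (-t)⁻¹)⁻¹ = -(X t⁻¹)⁻¹
      rw [inv_neg, h3, inv_neg]
    · show (X ((starRingEnd ℂ) t)⁻¹)⁻¹ = (starRingEnd ℂ) ((X t⁻¹)⁻¹)
      rw [← map_inv₀, h4, map_inv₀]
  · have h1 := hXT.comp (tendsto_inv₀_cobounded' (α := ℂ))
    refine h1.congr fun t => ?_
    simp only [Function.comp]
    rw [one_div, div_inv_eq_mul]
  · intro t ht _
    obtain ⟨-, -, -, -, -, h6, h7, h8, h9⟩ := hRt t ht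
    refine ⟨χ (X t⁻¹), h6, h7, ?_, ?_⟩
    · rw [inv_inv]; exact h8
    · rw [inv_inv, ← one_div, ← one_div]
      rw [one_div, one_div, inv_inv] at h9
      rw [one_div, one_div]
      exact h9

end Pool.Agent.MP_ae5b4e_an_MET
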