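import Pool.Agent.Lib.MP_ae5b4e_an_MET.DefsT
import Pool.Agent.Lib.MP_ae5b4e_an_MET.TimeM
import Pool.Agent.Lib.MP_ae5b4e_an_MET.IdM
import Pool.Agent.Lib.MP_ae5b4e_an_ALG.Shm

/-!
# MP_ae5b4e_an, project MET, module TS: places give uniformizing functions
-/

set_option autoImplicit false

noncomputable section

namespace Pool.Agent.MP_ae5b4e_an_MET

open Filter Topology Set Metric Complex Polynomial
open scoped Real
open Pool.Agent.MP_ae5b4e_an_ND (Dx Dy Reg)
open Pool.Agent.MP_ae5b4e_an_FLEX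
open Pool.Agent.MP_ae5b4e_an_ALG

theorem shm_of_place_met {a b : ℕ} {Yf A : ℂ × ℂ → ℂ} {δ : ℝ} (ha : 0 < a) (hab : a < b)
    {c s : ℝ} (hT : TypeQ a b c s) (hd : 0 < dT a b c) (hp : PlaceY Yf A δ)
    (hA : ∀ᶠ η in 𝓝 (0:ℂ), zet a b c (-A (0, η)) = -zet a b c η) :
    ∃ R V, SHM a ((b : ℝ) - a) c (2 * dT a b c) 1 R V := by
  obtain ⟨hζ, hζ0, hζ1, hζ2, hζr⟩ := zet_ana ha hab c
  have hd' : dT a b c = ((a : ℝ) + b) / 3 - a + c := rfl
  set d : ℝ := dT a b c with hdd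
  have hdpos : 0 < d := hd
  -- the germ of the kick
  have hδ0 : ‖(0 : ℂ)‖ < δ := by
    rw [norm_zero]
    exact hp.δ_pos
  set al : ℂ → ℂ := fun η => A (0, η) with hal
  have hala : AnalyticAt ℂ al 0 := by
    have h1 : AnalyticAt ℂ A ((fun η : ℂ => ((0 : ℂ), η)) 0) := hp.A_ana 0 0 hδ0 hδ0
    exact h1.comp (analyticAt_const.prod analyticAt_id)
  have hal0 : al 0 = 0 := hp.A_zero 0 hδ0
  have hal1 : deriv al 0 = 1 := hp.A_der 0 hδ0
  have hA' : ∀ᶠ η in 𝓝 (0:ℂ), zet a b c (-(al η)) = -zet a b c η := hA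
  have hζ1' : deriv (zet a b c) 0 ≠ 0 := by
    rw [hζ1]
    norm_num
  obtain ⟨g, hg⟩ := ShmSC.inj_near hζ hζ1'
  have hac : Tendsto (fun η => -(al η)) (𝓝 0) (𝓝 0) := by
    have h0 : Tendsto (fun η => -(al η)) (𝓝 0) (𝓝 (-(al 0))) := hala.continuousAt.tendsto.neg
    rwa [hal0, neg_zero] at h0
  have hinv : ∀ᶠ η in 𝓝 (0:ℂ), al (-(al η)) = -η := by
    filter_upwards [hA', hac.eventually hA', hg, (hac.comp hac).eventually hg] with η h1 h2 h3 h4
    simp only [Function.comp_apply] at h4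
    rw [h1, neg_neg] at h2
    rw [h2, h3] at h4
    linear_combination h4
  have hconj : Tendsto (starRingEnd ℂ) (𝓝 0) (𝓝 (0:ℂ)) := by
    have := (Complex.continuous_conj.tendsto 0)
    simpa using this
  have har : ∀ᶠ η in 𝓝 (0:ℂ), al ((starRingEnd ℂ) η) = (starRingEnd ℂ) (al η) := by
    filter_upwards [hA', hconj.eventually hA', hζr, hac.eventually hζr,
      (hac.comp hconj).eventually hg, (hconj.comp hac).eventually hg] with η h1 h2 h3 h4 h5 h6
    simp only [Function.comp_apply] at h5 h6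
    have h7 : zet a b c (-(al ((starRingEnd ℂ) η))) = zet a b c ((starRingEnd ℂ) (-(al η))) := by
      rw [h2, h3, h4, h1, map_neg]
    rw [h7, h6, map_neg] at h5
    linear_combination h5
  have hal2 : deriv (deriv al) 0 = 2 * d - 2 := by
    rw [ShmSC.second_deriv hζ hζ1 hala hal0 hal1 hA', hζ2, hd']
    push_cast
    ring
  obtain ⟨Q, hQ, hQ0, hQ1, hFI⟩ := placeY_zero hp
  have hQ1' : deriv Q 0 = 1 - d := by
    rw [hQ1, show (fun η => A (0, η)) = al from rfl, hal2]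
    ring
  have hd0 : (d : ℂ) ≠ 0 := by exact_mod_cast hdpos.ne'
  have hne : deriv (deriv al) 0 ≠ -2 := by
    rw [hal2]
    intro h
    apply hd0
    linear_combination h / 2
  have hgm := germ_main hala hal0 hal1 hne hinv hQ hQ0 hQ1 hFI (g := fun η =>
    (1 - deriv Q 0) / (η - Q η)) rfl
  have hg1 : ∀ᶠ η in 𝓝[≠] (0:ℂ), η - Q η ≠ 0 ∧
      (d : ℂ) / (η - Q η) = d / (1 + η) -
        d / (-η / (1 + η) - Q (-η / (1 + η))) / (1 + η) ^ 2 := by
    filter_upwards [hgm] with η h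
    refine ⟨h.1, ?_⟩
    have h1 := h.2.1
    simp only [hQ1', sub_sub_cancel] at h1
    exact h1
  have hg2 : ∀ᶠ η in 𝓝[≠] (0:ℂ),
      (d : ℂ) / (η - Q η) = -deriv al η * (d / (-(al η) - Q (-(al η)))) := by
    filter_upwards [hgm] with η h
    have h1 := h.2.2
    simp only [hQ1', sub_sub_cancel] at h1
    exact h1
  -- the radius
  have hev : ∀ᶠ η in 𝓝[≠] (0:ℂ), (Vh a b η + c = (zet a b c η)⁻¹) ∧
      (Vh a b (-η / (1 + η)) + c = (zet a b c (-η / (1 + η)))⁻¹) ∧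
      Hf a ((b : ℝ) - a) (Vh a b (-η / (1 + η))) = Hf a ((b : ℝ) - a) (Vh a b η) := by
    filter_upwards [zet_Vh ha hab c, ShmSC.tau_tendsto'.eventually (zet_Vh ha hab c),
      Hf_Vh ha hab] with η h1 h2 h3
    exact ⟨h1.1, h2.1, h3⟩
  rw [eventually_nhdsWithin_iff, Metric.eventually_nhds_iff] at hev
  obtain ⟨ρ, hρ, hρ'⟩ := hev
  obtain ⟨R0, hR0, U, hU, hUa, hUs⟩ := germ_time_met (s := s) hdpos hala hal0 hal1 hal2 har hQ hQ0 hQ1' hg1
    hg2 hζ hζ0 hζ1 hζr hA' (zet_ID_met ha hab hT) hρ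
  refine ⟨R0 + 1, fun t => U t - c, by linarith, ?_, ?_, ?_, ?_, ?_⟩
  · intro t ht
    exact ((hU t (by linarith)).1).sub_const _
  · intro t ht
    simp only [(hU t (by linarith)).2.1]
    ring
  · intro t ht
    simp only [(hU t (by linarith)).2.2.1, map_sub, Complex.conj_ofReal]
  · have h1 := hUa.sub_const (c : ℂ)
    rw [zero_sub] at h1
    refine h1.congr fun t => ?_
    push_cast
    ring
  · intro t ht
    have h1 : R0 < ‖1 - t‖ := by
      have h2 := norm_sub_norm_le t 1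
      rw [norm_sub_rev t 1, norm_one] at h2
      linarith
    obtain ⟨η, h2, h3, h4, h5⟩ := hUs t (by linarith) h1
    obtain ⟨h6, h7, h8⟩ := hρ' (by simpa [dist_eq_norm] using h2) h3
    rw [h4, inv_inv] at h6
    rw [h5, inv_inv] at h7
    have h9 : U t - c = Vh a b η := by linear_combination (-1 : ℂ) * h6
    have h10 : U (((1 : ℝ) : ℂ) - t) - c = Vh a b (-η / (1 + η)) := by
      rw [Complex.ofReal_one]
      linear_combination (-1 : ℂ) * h7
    simp only [h9, h10]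
    exact h8

end Pool.Agent.MP_ae5b4e_an_MET
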