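import Pool.Agent.Lib.MP_ae5b4e_an_MET.DefsT
import Pool.Agent.Lib.MP_ae5b4e_an_MET.ShmM
import Pool.Agent.Lib.MP_ae5b4e_an_MET.NoShm
import Pool.Agent.Lib.MP_ae5b4e_an_ALG.Shm

/-!
# MP_ae5b4e_an, project MET, module TP: no good places

The four types of the residue `c = a - k0 / 2` at a place.
-/

set_option autoImplicit false

noncomputable section

namespace Pool.Agent.MP_ae5b4e_an_MET

open Filter Topology Set Metric Complex Polynomial
open scoped Real
open Pool.Agent.MP_ae5b4e_an_ND (Dx Dy)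
open Pool.Agent.MP_ae5b4e_an_FLEX
open Pool.Agent.MP_ae5b4e_an_ALG

theorem no_place_met {a b : ℕ} {Yf A : ℂ × ℂ → ℂ} {δ : ℝ} (ha : 0 < a) (hab : a < b)
    (hne : b ≠ 2 * a) {k0 : ℕ} (hk : k0 = 0 ∨ k0 = a ∨ (k0 = 2 * a ∧ 2 * a < b) ∨
      (k0 = b ∧ b < 2 * a)) {c : ℝ} (hc : c = a - (k0 : ℝ) / 2) (hp : PlaceY Yf A δ)
    (hA : ∀ᶠ η in 𝓝 (0:ℂ), zet a b c (-A (0, η)) = -zet a b c η) : False := by
  have haR : (0 : ℝ) < a := by exact_mod_cast ha
  have habR : (a : ℝ) < b := by exact_mod_cast hab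
  have hneR : (b : ℝ) ≠ 2 * a := by
    intro h
    exact hne (by exact_mod_cast h)
  rcases hk with h | h | ⟨h, h2⟩ | ⟨h, h2⟩
  · -- the form does not vanish at the place
    have hca : c = a := by
      rw [hc, h]
      norm_num
    rw [hca] at hA
    exact no_place_Z ha hab hne hp hA
  · have hca : c = a / 2 := by
      rw [hc, h]
      ring
    have hd : 0 < dT a b c := by
      unfold dT
      rw [hca]
      linarith
    obtain ⟨R, V, hV⟩ := shm_of_place_met ha hab (s := (a : ℝ) ^ 2 / 4)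
      (Or.inr (Or.inr (Or.inl ⟨hca, rfl⟩))) hd hp hA
    rw [hca] at hV hd
    exact no_shm_XZ haR (by linarith) (fun h1 => hneR (by linarith)) (by linarith) hV
  · have hca : c = 0 := by
      rw [hc, h]
      push_cast
      ring
    rw [hca] at hA
    exact no_place_X ha h2 hp hA
  · have h2R : (b : ℝ) < 2 * a := by exact_mod_cast h2
    have hca : c = a - b / 2 := by
      rw [hc, h]
    have hd : 0 < dT a b c := by
      unfold dT
      rw [hca]
      linarith
    obtain ⟨R, V, hV⟩ := shm_of_place_met ha hab (s := (b : ℝ) ^ 2 / 4)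
      (Or.inr (Or.inr (Or.inr ⟨hca, rfl⟩))) hd hp hA
    have hcc : c = ((a : ℝ) - ((b : ℝ) - a)) / 2 := by
      rw [hca]
      ring
    have hd' : 0 < 2 * dT a b c := by linarith
    rw [hcc] at hV hd'
    exact no_shm_YZ (by linarith) (by linarith) hd' hV

end Pool.Agent.MP_ae5b4e_an_MET
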