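import Mathlib

/-!
# MP_ae5b4e_an, project MET, part R: the logarithmic derivative of a quadratic expression
-/

set_option autoImplicit false

noncomputable section

open Filter Topology Set Metric Complex
open scoped Real

namespace Pool.Agent.MP_ae5b4e_an_MET

private theorem an_mul_left {v : ℂ → ℂ} (hv : AnalyticAt ℂ v 0) (om : ℂ) :
    AnalyticAt ℂ (fun w => v (om * w)) 0 := by
  have h1 : AnalyticAt ℂ (fun w : ℂ => om * w) 0 := analyticAt_const.mul analyticAt_id
  have h2 : AnalyticAt ℂ v (om * 0) := by rw [mul_zero]; exact hv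
  exact AnalyticAt.fun_comp (f := fun w : ℂ => om * w) (x := (0:ℂ)) h2 h1

/-- the general step -/
private theorem kap_gen {u : ℂ → ℂ} (hu : AnalyticAt ℂ u 0) (hu0 : u 0 ≠ 0) {om : ℂ}
    (a : ℂ) (l : ℕ) {ρ : ℂ → ℂ} (hρ : AnalyticAt ℂ ρ 0)
    (h : ∀ᶠ w in 𝓝 (0:ℂ), u (om * w) - u w = w ^ (l + 1) * ρ w) :
    ∃ χ : ℂ → ℂ, AnalyticAt ℂ χ 0 ∧
      ∀ᶠ w in 𝓝 (0:ℂ), (a - (om * w) * deriv u (om * w) / u (om * w)) -
        (a - w * deriv u w / u w) = w ^ (l + 1) * χ w := by
  have hut : AnalyticAt ℂ (fun w => u (om * w)) 0 := an_mul_left hu om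
  have hut0 : (fun w => u (om * w)) 0 ≠ 0 := by
    show u (om * 0) ≠ 0
    rw [mul_zero]; exact hu0
  have hdu := hu.deriv
  have hdρ := hρ.deriv
  refine ⟨fun w => (w * deriv u w * ρ w - (((l : ℂ) + 1) * ρ w + w * deriv ρ w) * u w) /
    (u w * u (om * w)), ?_, ?_⟩
  · refine AnalyticAt.div ?_ ?_ ?_
    · exact ((analyticAt_id.mul hdu).mul hρ).sub
        (((analyticAt_const.mul hρ).add (analyticAt_id.mul hdρ)).mul hu)
    · exact hu.mul hut
    · show u 0 * u (om * 0) ≠ 0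
      rw [mul_zero]
      exact mul_ne_zero hu0 hu0
  · have e1 : (fun w => u (om * w)) =ᶠ[𝓝 (0:ℂ)] fun w => u w + w ^ (l + 1) * ρ w := by
      filter_upwards [h] with w hw
      rw [← hw]; ring
    have e2 := e1.deriv
    have n1 : ∀ᶠ w in 𝓝 (0:ℂ), u w ≠ 0 := hu.continuousAt.eventually_ne hu0
    have n2 : ∀ᶠ w in 𝓝 (0:ℂ), u (om * w) ≠ 0 := hut.continuousAt.eventually_ne hut0
    have a1 : ∀ᶠ w in 𝓝 (0:ℂ), AnalyticAt ℂ u w := hu.eventually_analyticAt
    have a2 : ∀ᶠ w in 𝓝 (0:ℂ), AnalyticAt ℂ ρ w := hρ.eventually_analyticAt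
    filter_upwards [e1, e2, n1, n2, a1, a2] with w h1 h2 h3 h4 h5 h6
    have d1 : deriv (fun w => u (om * w)) w = om * deriv u (om * w) := by
      have := deriv_comp_mul_left om u w
      rw [this, smul_eq_mul]
    have d2 : deriv (fun w => u w + w ^ (l + 1) * ρ w) w =
        deriv u w + (((l : ℂ) + 1) * w ^ l * ρ w + w ^ (l + 1) * deriv ρ w) := by
      have q1 : HasDerivAt u (deriv u w) w := h5.differentiableAt.hasDerivAt
      have q2 : HasDerivAt ρ (deriv ρ w) w := h6.differentiableAt.hasDerivAt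
      have q3 : HasDerivAt (fun w : ℂ => w ^ (l + 1)) (((l : ℂ) + 1) * w ^ l) w := by
        have := hasDerivAt_pow (l + 1) w
        simpa using this
      exact (q1.add (q3.mul q2)).deriv
    rw [d1, d2] at h2
    have h1' : u (om * w) = u w + w ^ (l + 1) * ρ w := h1
    have h7 : om * w * deriv u (om * w) = w * deriv u w +
        w ^ (l + 1) * (((l : ℂ) + 1) * ρ w + w * deriv ρ w) := by
      have : om * w * deriv u (om * w) = w * (om * deriv u (om * w)) := by ring
      rw [this, h2]; ring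
    rw [h7]
    have h8 : u w + w ^ (l + 1) * ρ w ≠ 0 := by rw [← h1']; exact h4
    rw [h1']
    field_simp
    ring

theorem kap_quad {k : ℕ} (hk : 2 ≤ k) {v : ℂ → ℂ} (hv : AnalyticAt ℂ v 0) {om : ℂ}
    (hom : om ^ k = 1) {q0 q1 q2 q3 q4 q5 c : ℂ}
    (hc : (c = 0 ∧ q0 ≠ 0) ∨ (c = 1 ∧ q0 = 0 ∧ q1 ≠ 0)) {Qf : ℂ → ℂ}
    (hQ : ∀ w, Qf w = q0 + q1 * w ^ k + q2 * (w ^ k) ^ 2 + q3 * (w ^ (2 * k) * v w) +
      q4 * (w ^ k * (w ^ (2 * k) * v w)) + q5 * (w ^ (2 * k) * v w) ^ 2) :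
    ∃ κ : ℂ → ℂ, AnalyticAt ℂ κ 0 ∧ κ 0 = -(c * k) ∧
      (∀ᶠ w in 𝓝[≠] (0:ℂ), -(deriv Qf w / Qf w) = κ w / w) ∧
      ∀ (l : ℕ) (ψ : ℂ → ℂ), AnalyticAt ℂ ψ 0 →
        (∀ᶠ w in 𝓝 (0:ℂ), v (om * w) - v w = w ^ l * ψ w) →
        ∃ χ : ℂ → ℂ, AnalyticAt ℂ χ 0 ∧
          ∀ᶠ w in 𝓝 (0:ℂ), κ (om * w) - κ w = w ^ (l + 1) * χ w := by
  have hk0 : k ≠ 0 := by omega
  have hpow : ∀ w : ℂ, (om * w) ^ k = w ^ k := fun w => by rw [mul_pow, hom, one_mul]
  have hpow2 : ∀ w : ℂ, (om * w) ^ (2 * k) = w ^ (2 * k) := fun w => by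
    rw [mul_comm 2 k, pow_mul, pow_mul, hpow]
  have hpk : AnalyticAt ℂ (fun w : ℂ => w ^ k) 0 := analyticAt_id.pow k
  have hp2k : AnalyticAt ℂ (fun w : ℂ => w ^ (2 * k)) 0 := analyticAt_id.pow (2 * k)
  have hvt := an_mul_left hv om
  have hk1 : k = (k - 1) + 1 := by omega
  rcases hc with ⟨hc, hq0⟩ | ⟨hc, hq0, hq1⟩
  · -- order zero
    subst hc
    have hQf : Qf = fun w => q0 + q1 * w ^ k + q2 * (w ^ k) ^ 2 + q3 * (w ^ (2 * k) * v w) +
      q4 * (w ^ k * (w ^ (2 * k) * v w)) + q5 * (w ^ (2 * k) * v w) ^ 2 := funext hQ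
    have hu : AnalyticAt ℂ Qf 0 := by
      rw [hQf]
      exact ((((analyticAt_const.add (analyticAt_const.mul hpk)).add
        (analyticAt_const.mul (hpk.pow 2))).add (analyticAt_const.mul (hp2k.mul hv))).add
        (analyticAt_const.mul (hpk.mul (hp2k.mul hv)))).add
        (analyticAt_const.mul ((hp2k.mul hv).pow 2))
    have hu0 : Qf 0 ≠ 0 := by
      rw [hQ 0]
      simp [hk0, hq0]
    refine ⟨fun w => 0 - w * deriv Qf w / Qf w, ?_, by simp, ?_, ?_⟩
    · exact analyticAt_const.sub ((analyticAt_id.mul hu.deriv).div hu hu0)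
    · filter_upwards [self_mem_nhdsWithin] with w hw
      have hw0 : w ≠ 0 := hw
      field_simp
      ring
    · intro l ψ hψ h
      refine kap_gen hu hu0 0 l
        (ρ := fun w => w ^ (k - 1) * w ^ k * ψ w * (q3 + q4 * w ^ k +
          q5 * w ^ (2 * k) * (v (om * w) + v w))) ?_ ?_
      · exact (((analyticAt_id.pow (k - 1)).mul hpk).mul hψ).mul
          ((analyticAt_const.add (analyticAt_const.mul hpk)).add
            ((analyticAt_const.mul hp2k).mul (hvt.add hv)))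
      · filter_upwards [h] with w hw
        rw [hQ (om * w), hQ w, hpow, hpow2]
        have e : w ^ k = w ^ (k - 1) * w := by
          conv_lhs => rw [hk1]
          rw [pow_succ]
        have e2 : w ^ (2 * k) = w ^ k * w ^ k := by rw [two_mul, pow_add]
        have hv' : v (om * w) = v w + w ^ l * ψ w := by rw [← hw]; ring
        rw [hv', e2, pow_succ]
        rw [e]
        ring
  · subst hc
    have hq0' := hq0
    subst hq0'
    set u : ℂ → ℂ := fun w => q1 + q2 * w ^ k + q3 * (w ^ k * v w) + q4 * (w ^ (2 * k) * v w) +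
      q5 * (w ^ k * w ^ (2 * k) * (v w) ^ 2) with hudef
    have hQu : ∀ w, Qf w = w ^ k * u w := by
      intro w
      have e2 : w ^ (2 * k) = w ^ k * w ^ k := by rw [two_mul, pow_add]
      rw [hQ w, hudef]
      simp only [e2]
      ring
    have hu : AnalyticAt ℂ u 0 := by
      exact (((analyticAt_const.add (analyticAt_const.mul hpk)).add
        (analyticAt_const.mul (hpk.mul hv))).add (analyticAt_const.mul (hp2k.mul hv))).add
        (analyticAt_const.mul ((hpk.mul hp2k).mul (hv.pow 2)))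
    have hu0 : u 0 ≠ 0 := by
      simp [hudef, hk0, hq1]
    refine ⟨fun w => -(k : ℂ) - w * deriv u w / u w, ?_, by simp, ?_, ?_⟩
    · exact analyticAt_const.sub ((analyticAt_id.mul hu.deriv).div hu hu0)
    · have n1 : ∀ᶠ w in 𝓝 (0:ℂ), u w ≠ 0 := hu.continuousAt.eventually_ne hu0
      have a1 : ∀ᶠ w in 𝓝 (0:ℂ), AnalyticAt ℂ u w := hu.eventually_analyticAt
      filter_upwards [self_mem_nhdsWithin, n1.filter_mono nhdsWithin_le_nhds,
        a1.filter_mono nhdsWithin_le_nhds] with w hw h3 h5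
      have hw0 : w ≠ 0 := hw
      have hQe : Qf = fun w => w ^ k * u w := funext hQu
      have q1' : HasDerivAt u (deriv u w) w := h5.differentiableAt.hasDerivAt
      have q3' : HasDerivAt (fun w : ℂ => w ^ k) ((k : ℂ) * w ^ (k - 1)) w := hasDerivAt_pow k w
      have d : deriv Qf w = (k : ℂ) * w ^ (k - 1) * u w + w ^ k * deriv u w := by
        rw [hQe]
        exact (q3'.mul q1').deriv
      have e : w ^ k = w ^ (k - 1) * w := by
        conv_lhs => rw [hk1]
        rw [pow_succ]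
      rw [d, hQu w, e]
      have hwk : w ^ (k - 1) ≠ 0 := pow_ne_zero _ hw0
      field_simp
      ring
    · intro l ψ hψ h
      refine kap_gen hu hu0 (-(k : ℂ)) l
        (ρ := fun w => w ^ (k - 1) * ψ w * (q3 + q4 * w ^ k +
          q5 * w ^ (2 * k) * (v (om * w) + v w))) ?_ ?_
      · exact ((analyticAt_id.pow (k - 1)).mul hψ).mul
          ((analyticAt_const.add (analyticAt_const.mul hpk)).add
            ((analyticAt_const.mul hp2k).mul (hvt.add hv)))
      · filter_upwards [h] with w hw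
        simp only [hudef]
        rw [hpow, hpow2]
        have e : w ^ k = w ^ (k - 1) * w := by
          conv_lhs => rw [hk1]
          rw [pow_succ]
        have e2 : w ^ (2 * k) = w ^ k * w ^ k := by rw [two_mul, pow_add]
        have hv' : v (om * w) = v w + w ^ l * ψ w := by rw [← hw]; ring
        rw [hv', e2, pow_succ]
        rw [e]
        ring

end Pool.Agent.MP_ae5b4e_an_MET
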