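import Mathlib
import Pool.Agent.Lib.MP_ae5b4e_an_ALG.Div

/-!
# MP_ae5b4e_an, project MET: the first order of the kick at a place `(k, 2 k)`
-/

set_option autoImplicit false

noncomputable section

namespace Pool.Agent.MP_ae5b4e_an_MET

open Filter Topology Set Metric Complex
open scoped Real

namespace KickDiffM

/-- exchange of the variables in an eventuality -/
theorem curry_snd {P : ℂ × ℂ → Prop} (h : ∀ᶠ p in 𝓝 ((0, 0) : ℂ × ℂ), P p) :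
    ∀ᶠ ξ in 𝓝 (0:ℂ), ∀ᶠ w in 𝓝 (0:ℂ), P (w, ξ) := by
  have h1 : ∀ᶠ p in 𝓝 ((0, 0) : ℂ × ℂ), P p.swap :=
    (continuous_swap.tendsto ((0, 0) : ℂ × ℂ)).eventually h
  exact h1.curry_nhds

/-- the strict derivative in the direction of the second variable -/
theorem fderiv_snd {m : ℂ × ℂ → ℂ} {y0 : ℂ} (hm : AnalyticAt ℂ m (0, y0))
    (h0 : ∀ᶠ y in 𝓝 y0, m (0, y) = y / 2) (v : ℂ) : fderiv ℂ m (0, y0) (0, v) = v / 2 := by
  have h1 : HasDerivAt (fun y : ℂ => ((0, y) : ℂ × ℂ)) (0, 1) y0 :=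
    (hasDerivAt_const y0 (0 : ℂ)).prodMk (hasDerivAt_id y0)
  have h2 : HasDerivAt (fun y : ℂ => m (0, y)) (fderiv ℂ m (0, y0) (0, 1)) y0 :=
    (hm.differentiableAt.hasFDerivAt (x := (0, y0))).comp_hasDerivAt y0 h1
  have h3 : HasDerivAt (fun y : ℂ => m (0, y)) (1 / 2) y0 := by
    refine HasDerivAt.congr_of_eventuallyEq ?_ h0
    exact (hasDerivAt_id y0).div_const 2
  have h4 := h2.unique h3
  have h5 : ((0, v) : ℂ × ℂ) = v • ((0, 1) : ℂ × ℂ) := by simp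
  rw [h5, map_smul, h4, smul_eq_mul]
  ring

/-- two values of `m` on a vertical line -/
theorem strict_snd {m : ℂ × ℂ → ℂ} {y0 : ℂ} (hm : AnalyticAt ℂ m (0, y0))
    (h0 : ∀ᶠ y in 𝓝 y0, m (0, y) = y / 2) {c : ℝ} (hc : 0 < c) :
    ∀ᶠ q in 𝓝 ((((0, y0), (0, y0)) : (ℂ × ℂ) × (ℂ × ℂ))), q.1.1 = q.2.1 →
      ‖m q.1 - m q.2 - (q.1.2 - q.2.2) / 2‖ ≤ c * ‖q.1.2 - q.2.2‖ := by
  have h1 := hm.hasStrictFDerivAt.isLittleO
  have h2 := h1.bound hc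
  filter_upwards [h2] with q hq hq1
  have h3 : q.1 - q.2 = (0, q.1.2 - q.2.2) := by
    apply Prod.ext
    · simp [hq1]
    · rfl
  rw [h3, fderiv_snd hm h0] at hq
  refine hq.trans (le_of_eq ?_)
  rw [Prod.norm_mk, norm_zero, max_eq_right (norm_nonneg _)]

end KickDiffM

open KickDiffM in
/-- the first order of the kick, places `(k, 2 k)` -/
theorem kick_diff_met {m a : ℂ × ℂ → ℂ} {κ χ : ℂ → ℂ} {c om : ℂ} {k l : ℕ} (hk : 0 < k)
    (hl : 0 < l) (hm : AnalyticAt ℂ m (0, 0)) (ha : AnalyticAt ℂ a (0, 0))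
    (hκ : AnalyticAt ℂ κ 0) (hκ0 : κ 0 = -(c * k)) (hχ : AnalyticAt ℂ χ 0)
    (hκd : ∀ᶠ w in 𝓝 (0:ℂ), κ (om * w) - κ w = w ^ (l + 1) * χ w)
    (hm0 : ∀ᶠ ξ in 𝓝 (0:ℂ), m (0, ξ) = ξ / 2)
    (ha0 : ∀ᶠ ξ in 𝓝 (0:ℂ), a (0, ξ) = 2 * ξ / (2 + c * ξ))
    (hrel : ∀ᶠ p in 𝓝 ((0, 0) : ℂ × ℂ), m (p.1, -a p) * (κ p.1 / k * m p - 1) = m p)
    {M0 : ℂ → ℂ} (hM : ∀ᶠ ξ in 𝓝[≠] (0:ℂ),
      Tendsto (fun w => (m (om * w, ξ) - m (w, ξ)) / w ^ l) (𝓝[≠] (0:ℂ)) (𝓝 (M0 ξ))) :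
    ∃ α : ℂ × ℂ → ℂ, AnalyticAt ℂ α (0, 0) ∧
      (∀ᶠ p in 𝓝 ((0, 0) : ℂ × ℂ), a (om * p.1, p.2) - a p = p.1 ^ l * α p) ∧
      ∀ᶠ ξ in 𝓝[≠] (0:ℂ), α (0, ξ) =
        2 * (M0 (-(2 * ξ / (2 + c * ξ))) + 4 / (2 + c * ξ) ^ 2 * M0 ξ) := by
  have hlin : AnalyticAt ℂ (fun p : ℂ × ℂ => (om * p.1, p.2)) (0, 0) :=
    (analyticAt_const.mul analyticAt_fst).prod analyticAt_snd
  have hlin0 : (fun p : ℂ × ℂ => (om * p.1, p.2)) (0, 0) = ((0, 0) : ℂ × ℂ) := by simp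
  have ha00 : a (0, 0) = 0 := by
    have := ha0.self_of_nhds
    simpa using this
  have hm00 : m (0, 0) = 0 := by
    have := hm0.self_of_nhds
    simpa using this
  have hkC : (k : ℂ) ≠ 0 := by exact_mod_cast hk.ne'
  -- the function `Δ`
  have hfan : AnalyticAt ℂ (fun p : ℂ × ℂ => m (om * p.1, p.2) - m p) (0, 0) :=
    (hm.comp_of_eq hlin hlin0).sub hm
  obtain ⟨Δ, hΔ, hΔf⟩ := Pool.Agent.MP_ae5b4e_an_ALG.div_pow_fst (l := l) hfan (by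
    filter_upwards [hM] with ξ hξ
    have h1 : (fun w : ℂ => (m (om * w, ξ) - m (w, ξ)) / w ^ l) =O[𝓝[≠] (0:ℂ)]
        (fun _ : ℂ => (1 : ℂ)) := hξ.isBigO_one ℂ
    have h2 := h1.mul (Asymptotics.isBigO_refl (fun w : ℂ => w ^ l) (𝓝[≠] (0:ℂ)))
    refine h2.congr' ?_ ?_
    · filter_upwards [self_mem_nhdsWithin] with w hw
      have hw' : w ^ l ≠ 0 := pow_ne_zero _ hw
      rw [div_mul_cancel₀ _ hw']
    · exact Eventually.of_forall fun w => one_mul _)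
  -- the values of `Δ` on the axis
  have hΔ0 : ∀ᶠ ξ in 𝓝[≠] (0:ℂ), Δ (0, ξ) = M0 ξ := by
    have h1 := curry_snd hΔf
    have h2 := curry_snd hΔ.eventually_analyticAt
    filter_upwards [hM, nhdsWithin_le_nhds h1, nhdsWithin_le_nhds h2] with ξ hξ e1 e2
    have h3 : ContinuousAt (fun w : ℂ => Δ (w, ξ)) 0 :=
      ContinuousAt.comp (f := fun w : ℂ => ((w, ξ) : ℂ × ℂ)) (g := Δ)
        e2.self_of_nhds.continuousAt (by fun_prop)
    have h4 : Tendsto (fun w : ℂ => Δ (w, ξ)) (𝓝[≠] (0:ℂ)) (𝓝 (Δ (0, ξ))) :=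
      h3.tendsto.mono_left nhdsWithin_le_nhds
    refine tendsto_nhds_unique h4 (hξ.congr' ?_)
    filter_upwards [nhdsWithin_le_nhds e1, self_mem_nhdsWithin] with w hw hw0
    have hw' : w ^ l ≠ 0 := pow_ne_zero _ hw0
    rw [hw, mul_div_cancel_left₀ _ hw']
  -- the relation (E)
  have hna : ContinuousAt (fun p : ℂ × ℂ => ((p.1, -a p) : ℂ × ℂ)) (0, 0) := by
    have := ha.continuousAt
    fun_prop
  have hnat : Tendsto (fun p : ℂ × ℂ => ((p.1, -a p) : ℂ × ℂ)) (𝓝 (0, 0)) (𝓝 (0, 0)) := by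
    have := hna.tendsto
    simp only [ha00, neg_zero] at this
    exact this
  have hlint : Tendsto (fun p : ℂ × ℂ => (om * p.1, p.2)) (𝓝 (0, 0)) (𝓝 (0, 0)) := by
    have := hlin.continuousAt.tendsto
    simp only [mul_zero] at this
    exact this
  have hfst : Tendsto (fun p : ℂ × ℂ => p.1) (𝓝 ((0, 0) : ℂ × ℂ)) (𝓝 (0:ℂ)) :=
    continuous_fst.tendsto ((0, 0) : ℂ × ℂ)
  set g : ℂ × ℂ → ℂ := fun p => κ p.1 / k * m p - 1 with hgdef
  have hgt : Tendsto g (𝓝 (0, 0)) (𝓝 (-1)) := by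
    have h1 : Tendsto (fun p : ℂ × ℂ => κ p.1) (𝓝 (0, 0)) (𝓝 (κ 0)) :=
      hκ.continuousAt.tendsto.comp hfst
    have h2 : Tendsto (fun p : ℂ × ℂ => κ p.1 / k * m p - 1) (𝓝 (0, 0))
        (𝓝 (κ 0 / k * m (0, 0) - 1)) :=
      ((h1.div_const _).mul hm.continuousAt.tendsto).sub_const 1
    have h3 : κ 0 / k * m (0, 0) - 1 = -1 := by rw [hm00]; ring
    rw [h3] at h2
    exact h2
  have hgt' : Tendsto (fun p : ℂ × ℂ => g (om * p.1, p.2)) (𝓝 (0, 0)) (𝓝 (-1)) :=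
    hgt.comp hlint
  have hg0 : ∀ᶠ p in 𝓝 ((0, 0) : ℂ × ℂ), g p ≠ 0 :=
    hgt.eventually_ne (by norm_num)
  have hg0' : ∀ᶠ p in 𝓝 ((0, 0) : ℂ × ℂ), g (om * p.1, p.2) ≠ 0 :=
    hgt'.eventually_ne (by norm_num)
  set H : ℂ × ℂ → ℂ := fun p =>
    (Δ p + p.1 * m p * m (om * p.1, p.2) * χ p.1 / k) / (g p * g (om * p.1, p.2)) +
      Δ (p.1, -a p) with hHdef
  have hE : ∀ᶠ p in 𝓝 ((0, 0) : ℂ × ℂ),
      m (om * p.1, -a (om * p.1, p.2)) - m (om * p.1, -a p) = -(p.1 ^ l * H p) := by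
    filter_upwards [hΔf, hnat.eventually hΔf, hrel, hlint.eventually hrel, hg0, hg0',
      hfst.eventually hκd] with p h1 h2 h3 h4 h5 h6 h7
    have e1 : m (p.1, -a p) = m p / g p := by
      rw [eq_div_iff h5]
      exact h3
    have e2 : m (om * p.1, -a (om * p.1, p.2)) = m (om * p.1, p.2) / g (om * p.1, p.2) := by
      rw [eq_div_iff h6]
      exact h4
    have e3 : m (om * p.1, -a p) = m p / g p + p.1 ^ l * Δ (p.1, -a p) := by
      rw [← e1]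
      linear_combination h2
    rw [e2, e3]
    simp only [hHdef]
    have e4 : m (om * p.1, p.2) * g p - m p * g (om * p.1, p.2) =
        -(p.1 ^ l * (Δ p + p.1 * m p * m (om * p.1, p.2) * χ p.1 / k)) := by
      simp only [hgdef]
      have e5 : κ (om * p.1) = κ p.1 + p.1 ^ (l + 1) * χ p.1 := by linear_combination h7
      have e6 : m (om * p.1, p.2) = m p + p.1 ^ l * Δ p := by linear_combination h1
      rw [e5, pow_succ]
      field_simp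
      rw [e6]
      ring
    have e7 : m (om * p.1, p.2) / g (om * p.1, p.2) - m p / g p =
        -(p.1 ^ l * ((Δ p + p.1 * m p * m (om * p.1, p.2) * χ p.1 / k) /
          (g p * g (om * p.1, p.2)))) := by
      rw [div_sub_div _ _ h6 h5, ← mul_div_assoc, ← neg_div, div_eq_div_iff (mul_ne_zero h6 h5)
        (mul_ne_zero h5 h6)]
      linear_combination (g p * g (om * p.1, p.2)) * e4
    linear_combination e7
  -- `a (om w, ξ) - a (w, ξ)` is `O (w ^ l)`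
  have hHt : Tendsto H (𝓝 (0, 0)) (𝓝 (Δ (0, 0) + Δ (0, 0))) := by
    have h1 : Tendsto (fun p : ℂ × ℂ => χ p.1) (𝓝 (0, 0)) (𝓝 (χ 0)) :=
      hχ.continuousAt.tendsto.comp hfst
    have h2 : Tendsto (fun p : ℂ × ℂ => m (om * p.1, p.2)) (𝓝 (0, 0)) (𝓝 (m (0, 0))) :=
      hm.continuousAt.tendsto.comp hlint
    have h3 := (hΔ.continuousAt.tendsto.add
      ((((hfst.mul hm.continuousAt.tendsto).mul h2).mul h1).div_const (k : ℂ))).div
      (hgt.mul hgt') (by norm_num)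
    have h4 := h3.add (hΔ.continuousAt.tendsto.comp hnat)
    have h5 : (Δ (0, 0) + 0 * m (0, 0) * m (0, 0) * χ 0 / (k : ℂ)) / (-1 * -1) + Δ (0, 0) =
        Δ (0, 0) + Δ (0, 0) := by ring
    rw [h5] at h4
    exact h4
  have hbd : ∀ᶠ p in 𝓝 ((0, 0) : ℂ × ℂ), ‖a (om * p.1, p.2) - a p‖ ≤
      4 * (‖Δ (0, 0) + Δ (0, 0)‖ + 1) * ‖p.1 ^ l‖ := by
    have hq : Tendsto (fun p : ℂ × ℂ => (((om * p.1, -a (om * p.1, p.2)), (om * p.1, -a p)) :
        (ℂ × ℂ) × (ℂ × ℂ))) (𝓝 (0, 0)) (𝓝 (((0, 0), (0, 0)))) := by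
      have h1 : Tendsto (fun p : ℂ × ℂ => ((om * p.1, -a (om * p.1, p.2)) : ℂ × ℂ)) (𝓝 (0, 0))
          (𝓝 (0, 0)) := hnat.comp hlint
      have h2 : Tendsto (fun p : ℂ × ℂ => ((om * p.1, -a p) : ℂ × ℂ)) (𝓝 (0, 0))
          (𝓝 (0, 0)) := by
        have := ha.continuousAt
        have h3 : ContinuousAt (fun p : ℂ × ℂ => ((om * p.1, -a p) : ℂ × ℂ)) (0, 0) := by
          fun_prop
        have h4 := h3.tendsto
        simp only [ha00, neg_zero, mul_zero] at h4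
        exact h4
      exact h1.prodMk_nhds h2
    have hs := hq.eventually (strict_snd hm hm0 (c := 1 / 4) (by norm_num))
    have hΔb := hHt.norm.eventually (gt_mem_nhds (lt_add_one _))
    filter_upwards [hE, hs, hΔb] with p h1 h2 h3
    have h4 := h2 rfl
    rw [h1] at h4
    have h5 : ‖(-a (om * p.1, p.2) - -a p) / 2‖ = ‖a (om * p.1, p.2) - a p‖ / 2 := by
      rw [norm_div]
      congr 1
      · rw [← norm_neg]
        congr 1
        ring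
      · simp
    have h6 : ‖-a (om * p.1, p.2) - -a p‖ = ‖a (om * p.1, p.2) - a p‖ := by
      rw [← norm_neg]
      congr 1
      ring
    rw [h6] at h4
    have h7 := norm_sub_norm_le (-((-a (om * p.1, p.2) - -a p) / 2)) (p.1 ^ l * H p)
    have h8 : -((-a (om * p.1, p.2) - -a p) / 2) - p.1 ^ l * H p =
        -(p.1 ^ l * H p) - (-a (om * p.1, p.2) - -a p) / 2 := by ring
    rw [h8, norm_neg, h5, norm_mul] at h7
    have h9 : ‖p.1 ^ l‖ * ‖H p‖ ≤ ‖p.1 ^ l‖ * (‖Δ (0, 0) + Δ (0, 0)‖ + 1) :=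
      mul_le_mul_of_nonneg_left h3.le (norm_nonneg _)
    nlinarith
  have haan : AnalyticAt ℂ (fun p : ℂ × ℂ => a (om * p.1, p.2) - a p) (0, 0) :=
    (ha.comp_of_eq hlin hlin0).sub ha
  obtain ⟨α, hα, hαf⟩ := Pool.Agent.MP_ae5b4e_an_ALG.div_pow_fst (l := l) haan (by
    filter_upwards [nhdsWithin_le_nhds (curry_snd hbd)] with ξ hξ
    exact Asymptotics.IsBigO.of_bound _ (nhdsWithin_le_nhds hξ))
  refine ⟨α, hα, hαf, ?_⟩
  -- the value of `α` on the axis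
  have hden : ∀ᶠ ξ in 𝓝 (0:ℂ), 2 + c * ξ ≠ 0 := by
    have h1 : Continuous fun ξ : ℂ => 2 + c * ξ := by fun_prop
    have h2 := h1.tendsto 0
    exact h2.eventually_ne (by simp)
  have hneg : Tendsto (fun ξ : ℂ => -(2 * ξ / (2 + c * ξ))) (𝓝[≠] (0:ℂ)) (𝓝[≠] (0:ℂ)) := by
    refine tendsto_nhdsWithin_iff.2 ⟨?_, ?_⟩
    · have h1 : ContinuousAt (fun ξ : ℂ => -(2 * ξ / (2 + c * ξ))) 0 := by
        have h2 : (2 : ℂ) + c * 0 ≠ 0 := by simp
        fun_prop (disch := simpa using h2)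
      have h3 := h1.tendsto
      simp only [mul_zero, zero_div, neg_zero] at h3
      exact h3.mono_left nhdsWithin_le_nhds
    · filter_upwards [self_mem_nhdsWithin, nhdsWithin_le_nhds hden] with ξ hξ h2
      have hξ' : ξ ≠ 0 := hξ
      have h3 : 2 * ξ / (2 + c * ξ) ≠ 0 := div_ne_zero (mul_ne_zero two_ne_zero hξ') h2
      simpa using h3
  have c1 := curry_snd hE
  have c2 := curry_snd hΔ.eventually_analyticAt
  have c3 := curry_snd hm.eventually_analyticAt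
  have c4 := curry_snd hαf
  have c5 := curry_snd hα.eventually_analyticAt
  have c6 := curry_snd ha.eventually_analyticAt
  filter_upwards [hΔ0, hneg.eventually hΔ0, nhdsWithin_le_nhds c1, nhdsWithin_le_nhds c2,
    hneg.eventually (nhdsWithin_le_nhds c2), hneg.eventually (nhdsWithin_le_nhds c3),
    nhdsWithin_le_nhds c4, nhdsWithin_le_nhds c5, nhdsWithin_le_nhds c6,
    hneg.eventually (nhdsWithin_le_nhds hm0.eventually_nhds), nhdsWithin_le_nhds ha0,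
    nhdsWithin_le_nhds c3, nhdsWithin_le_nhds hm0, nhdsWithin_le_nhds hden]
    with ξ e1 e2 e3 e4 e5 e6 e7 e8 e9 e10 e11 e12 e13 e14
  have k4 := e4.self_of_nhds
  have k5 := e5.self_of_nhds
  have k6 := e6.self_of_nhds
  have k8 := e8.self_of_nhds
  have k9 := e9.self_of_nhds
  have k12 := e12.self_of_nhds
  have hpw : Tendsto (fun w : ℂ => a (w, ξ)) (𝓝 0) (𝓝 (2 * ξ / (2 + c * ξ))) := by
    have h1 : ContinuousAt (fun w : ℂ => a (w, ξ)) 0 :=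
      ContinuousAt.comp (f := fun w : ℂ => ((w, ξ) : ℂ × ℂ)) (g := a)
        k9.continuousAt (by fun_prop)
    have h2 := h1.tendsto
    rwa [e11] at h2
  have hom : Tendsto (fun w : ℂ => om * w) (𝓝 0) (𝓝 0) := by
    have : Continuous fun w : ℂ => om * w := by fun_prop
    have h1 := this.tendsto 0
    rwa [mul_zero] at h1
  have hpo : Tendsto (fun w : ℂ => a (om * w, ξ)) (𝓝 0) (𝓝 (2 * ξ / (2 + c * ξ))) :=
    hpw.comp hom
  have hmw : Tendsto (fun w : ℂ => m (w, ξ)) (𝓝 0) (𝓝 (ξ / 2)) := by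
    have h1 : ContinuousAt (fun w : ℂ => m (w, ξ)) 0 :=
      ContinuousAt.comp (f := fun w : ℂ => ((w, ξ) : ℂ × ℂ)) (g := m)
        k12.continuousAt (by fun_prop)
    have h2 := h1.tendsto
    rwa [e13] at h2
  have hmo : Tendsto (fun w : ℂ => m (om * w, ξ)) (𝓝 0) (𝓝 (ξ / 2)) := hmw.comp hom
  have hgw : Tendsto (fun w : ℂ => g (w, ξ)) (𝓝 0) (𝓝 (-(2 + c * ξ) / 2)) := by
    have h2 : Tendsto (fun w : ℂ => κ w / k * m (w, ξ) - 1) (𝓝 0)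
        (𝓝 (κ 0 / k * (ξ / 2) - 1)) :=
      ((hκ.continuousAt.tendsto.div_const _).mul hmw).sub_const 1
    have h3 : κ 0 / k * (ξ / 2) - 1 = -(2 + c * ξ) / 2 := by
      rw [hκ0]
      field_simp
      ring
    rw [h3] at h2
    exact h2
  have hgo : Tendsto (fun w : ℂ => g (om * w, ξ)) (𝓝 0) (𝓝 (-(2 + c * ξ) / 2)) := hgw.comp hom
  have hq : Tendsto (fun w : ℂ => (((om * w, -a (om * w, ξ)), (om * w, -a (w, ξ))) :
      (ℂ × ℂ) × (ℂ × ℂ))) (𝓝 0)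
      (𝓝 (((0, -(2 * ξ / (2 + c * ξ))), (0, -(2 * ξ / (2 + c * ξ)))))) :=
    (hom.prodMk_nhds hpo.neg).prodMk_nhds (hom.prodMk_nhds hpw.neg)
  -- limits
  have hαt : Tendsto (fun w : ℂ => α (w, ξ)) (𝓝[≠] 0) (𝓝 (α (0, ξ))) := by
    have h1 : ContinuousAt (fun w : ℂ => α (w, ξ)) 0 :=
      ContinuousAt.comp (f := fun w : ℂ => ((w, ξ) : ℂ × ℂ)) (g := α)
        k8.continuousAt (by fun_prop)
    exact h1.tendsto.mono_left nhdsWithin_le_nhds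
  have hΔt : Tendsto (fun w : ℂ => H (w, ξ)) (𝓝[≠] 0)
      (𝓝 (4 / (2 + c * ξ) ^ 2 * M0 ξ + M0 (-(2 * ξ / (2 + c * ξ))))) := by
    have h1 : Tendsto (fun w : ℂ => Δ (w, ξ)) (𝓝 0) (𝓝 (Δ (0, ξ))) :=
      (ContinuousAt.comp (f := fun w : ℂ => ((w, ξ) : ℂ × ℂ)) (g := Δ)
        k4.continuousAt (by fun_prop)).tendsto
    have h2 : Tendsto (fun w : ℂ => Δ (w, -a (w, ξ))) (𝓝 0)
        (𝓝 (Δ (0, -(2 * ξ / (2 + c * ξ))))) :=
      k5.continuousAt.tendsto.comp (tendsto_id.prodMk_nhds hpw.neg)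
    have hid : Tendsto (fun w : ℂ => w) (𝓝 0) (𝓝 (0 : ℂ)) := tendsto_id
    have hne : -(2 + c * ξ) / 2 ≠ 0 := by
      exact div_ne_zero (neg_ne_zero.2 e14) two_ne_zero
    have h3 : Tendsto (fun w : ℂ => (Δ (w, ξ) + w * m (w, ξ) * m (om * w, ξ) * χ w / k) /
        (g (w, ξ) * g (om * w, ξ)) + Δ (w, -a (w, ξ))) (𝓝 0)
        (𝓝 ((Δ (0, ξ) + 0 * (ξ / 2) * (ξ / 2) * χ 0 / k) /
          (-(2 + c * ξ) / 2 * (-(2 + c * ξ) / 2)) + Δ (0, -(2 * ξ / (2 + c * ξ))))) :=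
      ((h1.add ((((hid.mul hmw).mul hmo).mul hχ.continuousAt.tendsto).div_const (k : ℂ))).div
        (hgw.mul hgo) (mul_ne_zero hne hne)).add h2
    rw [e1, e2] at h3
    have h4 : (M0 ξ + 0 * (ξ / 2) * (ξ / 2) * χ 0 / k) /
          (-(2 + c * ξ) / 2 * (-(2 + c * ξ) / 2)) + M0 (-(2 * ξ / (2 + c * ξ))) =
        4 / (2 + c * ξ) ^ 2 * M0 ξ + M0 (-(2 * ξ / (2 + c * ξ))) := by
      have e15 : -(2 + c * ξ) / 2 * (-(2 + c * ξ) / 2) = (2 + c * ξ) ^ 2 / 4 := by ring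
      rw [e15]
      field_simp
      ring
    rw [h4] at h3
    exact h3.mono_left nhdsWithin_le_nhds
  have hlim : Tendsto (fun w : ℂ => α (w, ξ) / 2 - H (w, ξ)) (𝓝[≠] 0) (𝓝 0) := by
    rw [Metric.tendsto_nhds]
    intro ε hε
    have hC : 0 < ‖α (0, ξ)‖ + 1 := by positivity
    have hs := hq.eventually (strict_snd k6 e10 (c := ε / (2 * (‖α (0, ξ)‖ + 1))) (by positivity))
    have hb := hαt.norm.eventually (gt_mem_nhds (lt_add_one _))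
    filter_upwards [nhdsWithin_le_nhds e3, nhdsWithin_le_nhds e7, nhdsWithin_le_nhds hs, hb,
      self_mem_nhdsWithin] with w h1 h2 h3 h4 h5
    have hw' : w ^ l ≠ 0 := pow_ne_zero _ h5
    have h6 := h3 rfl
    rw [h1] at h6
    have h7 : -a (om * w, ξ) - -a (w, ξ) = -(w ^ l * α (w, ξ)) := by
      linear_combination -h2
    rw [h7] at h6
    have h8 : -(w ^ l * H (w, ξ)) - -(w ^ l * α (w, ξ)) / 2 =
        w ^ l * (α (w, ξ) / 2 - H (w, ξ)) := by ring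
    rw [h8, norm_mul, norm_neg, norm_mul] at h6
    have h9 : 0 < ‖w ^ l‖ := norm_pos_iff.2 hw'
    rw [dist_zero_right]
    have h10 : ‖α (w, ξ) / 2 - H (w, ξ)‖ ≤
        ε / (2 * (‖α (0, ξ)‖ + 1)) * ‖α (w, ξ)‖ := by
      have h11 : ‖w ^ l‖ * ‖α (w, ξ) / 2 - H (w, ξ)‖ ≤
          ‖w ^ l‖ * (ε / (2 * (‖α (0, ξ)‖ + 1)) * ‖α (w, ξ)‖) := by
        refine h6.trans (le_of_eq ?_)
        ring
      exact le_of_mul_le_mul_left h11 h9
    refine h10.trans_lt ?_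
    have h12 : ε / (2 * (‖α (0, ξ)‖ + 1)) * ‖α (w, ξ)‖ ≤
        ε / (2 * (‖α (0, ξ)‖ + 1)) * (‖α (0, ξ)‖ + 1) :=
      mul_le_mul_of_nonneg_left h4.le (by positivity)
    refine h12.trans_lt ?_
    have h13 : ε / (2 * (‖α (0, ξ)‖ + 1)) * (‖α (0, ξ)‖ + 1) = ε / 2 := by
      field_simp
    rw [h13]
    linarith
  have hlim2 : Tendsto (fun w : ℂ => α (w, ξ) / 2 - H (w, ξ)) (𝓝[≠] 0)
      (𝓝 (α (0, ξ) / 2 - (4 / (2 + c * ξ) ^ 2 * M0 ξ + M0 (-(2 * ξ / (2 + c * ξ)))))) :=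
    (hαt.div_const 2).sub hΔt
  have hfin := tendsto_nhds_unique hlim2 hlim
  linear_combination 2 * hfin

end Pool.Agent.MP_ae5b4e_an_MET
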