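import Mathlib
import Pool.Agent.Lib.MP_ae5b4e_an_FLEX.SlopeY
import Pool.Agent.Lib.MP_ae5b4e_an_FLEX.WtY
import Pool.Agent.Lib.MP_ae5b4e_an_ALG.Div
import Pool.Agent.Lib.MP_ae5b4e_an_ALG.RamCoord
import Pool.Agent.Lib.MP_ae5b4e_an_LAT.NDSlope

/-!
# MP_ae5b4e_an, project MET, part R, module RU: the slope coefficients are universal

If the kick `A` satisfies `A (om w, η) - A (w, η) = w ^ l α (w, η)` then the slope satisfies a
relation of the same kind.
-/

set_option autoImplicit false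

noncomputable section

namespace Pool.Agent.MP_ae5b4e_an_MET

open Filter Topology Set Metric Complex
open scoped Real
open Pool.Agent.MP_ae5b4e_an_ND (Dx Dy)
open Pool.Agent.MP_ae5b4e_an_FLEX (SerY bs GoodG PlaceY)
open Pool.Agent.MP_ae5b4e_an_ALG (EE)

namespace RamUniv

open Pool.Agent.MP_ae5b4e_an_ND (cf Filt)
open Pool.Agent.MP_ae5b4e_an_FLEX (Pc slopeY slopeY_mem WtY.pc_eq WtY.diff_cf)

theorem tend_om (om : ℂ) : Tendsto (fun w : ℂ => om * w) (𝓝 0) (𝓝 0) := by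
  have h : Continuous (fun w : ℂ => om * w) := by fun_prop
  exact h.tendsto' _ _ (by simp)

theorem ana_om {φ : ℂ → ℂ} (om : ℂ) (h : AnalyticAt ℂ φ 0) :
    AnalyticAt ℂ (fun w => φ (om * w)) 0 := by
  have h1 : AnalyticAt ℂ (fun w : ℂ => om * w) 0 := analyticAt_const.mul analyticAt_id
  exact h.comp_of_eq h1 (by simp)

/-- weights at a place, with the increment under `w ↦ om w` divisible by `w ^ l` -/
def Wd (om : ℂ) (l n : ℕ) (f : ℂ → ℂ) : Prop :=
  ∃ φ χ : ℂ → ℂ, AnalyticAt ℂ φ 0 ∧ AnalyticAt ℂ χ 0 ∧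
    (∀ᶠ w in 𝓝 (0:ℂ), φ (om * w) - φ w = w ^ l * χ w) ∧
    ∀ᶠ w in 𝓝[≠] (0:ℂ), f w = φ w / w ^ n

theorem filt (om : ℂ) (l : ℕ) : Filt (fun _ => 1) (Wd om l) where
  zero n := ⟨fun _ => 0, fun _ => 0, analyticAt_const, analyticAt_const,
    Eventually.of_forall fun w => by simp, Eventually.of_forall fun w => by simp⟩
  one := ⟨fun _ => 1, fun _ => 0, analyticAt_const, analyticAt_const,
    Eventually.of_forall fun w => by simp, Eventually.of_forall fun w => by simp⟩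
  add n f g hf hg := by
    obtain ⟨φ, χ, a1, a2, a3, a4⟩ := hf
    obtain ⟨ψ, χ', b1, b2, b3, b4⟩ := hg
    refine ⟨fun w => φ w + ψ w, fun w => χ w + χ' w, a1.add b1, a2.add b2, ?_, ?_⟩
    · filter_upwards [a3, b3] with w h1 h2
      linear_combination h1 + h2
    · filter_upwards [a4, b4] with w h1 h2
      rw [h1, h2, add_div]
  smul n c f hf := by
    obtain ⟨φ, χ, a1, a2, a3, a4⟩ := hf
    refine ⟨fun w => c * φ w, fun w => c * χ w, analyticAt_const.mul a1,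
      analyticAt_const.mul a2, ?_, ?_⟩
    · filter_upwards [a3] with w h1
      linear_combination c * h1
    · filter_upwards [a4] with w h1
      rw [h1, mul_div_assoc]
  mul m n f g hf hg := by
    obtain ⟨φ, χ, a1, a2, a3, a4⟩ := hf
    obtain ⟨ψ, χ', b1, b2, b3, b4⟩ := hg
    refine ⟨fun w => φ w * ψ w, fun w => χ w * ψ (om * w) + φ w * χ' w, a1.mul b1,
      (a2.mul (ana_om om b1)).add (a1.mul b2), ?_, ?_⟩
    · filter_upwards [a3, b3] with w h1 h2
      linear_combination ψ (om * w) * h1 + φ w * h2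
    · filter_upwards [a4, b4] with w h1 h2
      rw [h1, h2, pow_add, div_mul_div_comm]
  der n f hf := by
    obtain ⟨φ, χ, a1, a2, a3, a4⟩ := hf
    refine ⟨fun w => w * deriv φ w - (n : ℂ) * φ w,
      fun w => ((l : ℂ) - n) * χ w + w * deriv χ w,
      (analyticAt_id.mul a1.deriv).sub (analyticAt_const.mul a1),
      (analyticAt_const.mul a2).add (analyticAt_id.mul a2.deriv), ?_, ?_⟩
    · filter_upwards [a3.eventually_nhds, a1.eventually_analyticAt,
        (tend_om om).eventually a1.eventually_analyticAt, a2.eventually_analyticAt]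
        with w h1 h2 h3 h4
      have e1 : HasDerivAt (fun u : ℂ => om * u) om w := by
        simpa using (hasDerivAt_id w).const_mul om
      have e2 : HasDerivAt (fun u => φ (om * u)) (deriv φ (om * w) * om) w :=
        HasDerivAt.comp (h₂ := φ) (h := fun u => om * u) w h3.differentiableAt.hasDerivAt e1
      have d1 : HasDerivAt (fun u => φ (om * u) - φ u) (deriv φ (om * w) * om - deriv φ w) w :=
        e2.sub h2.differentiableAt.hasDerivAt
      have d2 : HasDerivAt (fun u => u ^ l * χ u)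
          ((l : ℂ) * w ^ (l - 1) * χ w + w ^ l * deriv χ w) w :=
        (hasDerivAt_pow l w).mul h4.differentiableAt.hasDerivAt
      have e := Filter.EventuallyEq.deriv_eq (f₁ := fun u => φ (om * u) - φ u)
        (f := fun u => u ^ l * χ u) h1
      rw [d1.deriv, d2.deriv] at e
      have e3 : w * ((l : ℂ) * w ^ (l - 1)) = (l : ℂ) * w ^ l := by
        rcases Nat.eq_zero_or_pos l with h0 | h0
        · rw [h0]; simp
        · obtain ⟨k, hk⟩ : ∃ k, l = k + 1 := ⟨l - 1, by omega⟩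
          rw [hk, Nat.add_sub_cancel]; ring
      have h5 := h1.self_of_nhds
      linear_combination w * e - (n : ℂ) * h5 + χ w * e3
    · rw [← eventually_eventually_nhdsWithin] at a4
      filter_upwards [a4, self_mem_nhdsWithin, nhdsWithin_le_nhds a1.eventually_analyticAt]
        with w h1 h2 h3
      have w0 : w ≠ 0 := h2
      have h1' : ∀ᶠ u in 𝓝 w, f u = φ u / u ^ n := by
        rwa [IsOpen.nhdsWithin_eq isOpen_compl_singleton h2] at h1
      have e1 : deriv f w = deriv (fun u => φ u / u ^ n) w :=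
        Filter.EventuallyEq.deriv_eq h1'
      have d1 : HasDerivAt (fun u => φ u / u ^ n)
          ((deriv φ w * w ^ n - φ w * ((n : ℂ) * w ^ (n - 1))) / (w ^ n) ^ 2) w :=
        h3.differentiableAt.hasDerivAt.div (hasDerivAt_pow _ w) (pow_ne_zero _ w0)
      show 1 * deriv f w = (w * deriv φ w - (n : ℂ) * φ w) / w ^ (n + 1)
      rw [e1, d1.deriv, one_mul]
      have e2 : w * ((n : ℂ) * w ^ (n - 1)) = (n : ℂ) * w ^ n := by
        rcases Nat.eq_zero_or_pos n with h0 | h0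
        · rw [h0]; simp
        · obtain ⟨k, hk⟩ : ∃ k, n = k + 1 := ⟨n - 1, by omega⟩
          rw [hk, Nat.add_sub_cancel]; ring
      have hp1 : w ^ n ≠ 0 := pow_ne_zero _ w0
      rw [div_eq_div_iff (pow_ne_zero _ hp1) (pow_ne_zero _ w0)]
      linear_combination (-φ w * w ^ n) * e2

/-- the coefficients `Pc Yf m j` -/
theorem mem_pc {Yf A : ℂ × ℂ → ℂ} {δ : ℝ} (hp : PlaceY Yf A δ) {om : ℂ} (hom : ‖om‖ = 1)
    {l : ℕ} {α : ℂ × ℂ → ℂ} (hα : AnalyticAt ℂ α (0, 0))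
    (h : ∀ᶠ p in 𝓝 ((0, 0) : ℂ × ℂ), A (om * p.1, p.2) - A p = p.1 ^ l * α p) (m j : ℕ) :
    Wd om l j (Pc Yf m j) := by
  have hδ := hp.δ_pos
  obtain ⟨ε, hε, hb⟩ := Metric.eventually_nhds_iff_ball.1 (hα.eventually_analyticAt.and h)
  set r : ℝ := min ε δ with hr
  have hr0 : 0 < r := lt_min hε hδ
  have hmem : ∀ w η : ℂ, ‖w‖ < r → ‖η‖ < r → ((w, η) : ℂ × ℂ) ∈ ball ((0, 0) : ℂ × ℂ) ε := by
    intro w η h1 h2
    rw [mem_ball, Prod.dist_eq, dist_zero_right, dist_zero_right, max_lt_iff]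
    exact ⟨lt_of_lt_of_le h1 (min_le_left _ _), lt_of_lt_of_le h2 (min_le_left _ _)⟩
  have hnom : ∀ w : ℂ, ‖om * w‖ = ‖w‖ := fun w => by rw [norm_mul, hom, one_mul]
  have hAω : ∀ w η : ℂ, ‖w‖ < δ → ‖η‖ < δ →
      AnalyticAt ℂ (fun p : ℂ × ℂ => A (om * p.1, p.2)) (w, η) := by
    intro w η h1 h2
    have h3 : AnalyticAt ℂ (fun p : ℂ × ℂ => ((om * p.1, p.2) : ℂ × ℂ)) (w, η) :=
      (analyticAt_const.mul analyticAt_fst).prod analyticAt_snd
    exact (hp.A_ana (om * w) η (by rw [hnom]; exact h1) h2).comp_of_eq h3 rfl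
  set G : ℂ × ℂ → ℂ := fun p => (∑ i ∈ Finset.range m,
    A (om * p.1, p.2) ^ i * A p ^ (m - 1 - i)) * α p with hG
  have hGa : ∀ w η : ℂ, ‖w‖ < r → ‖η‖ < r → AnalyticAt ℂ G (w, η) := by
    intro w η h1 h2
    have h1' : ‖w‖ < δ := lt_of_lt_of_le h1 (min_le_right _ _)
    have h2' : ‖η‖ < δ := lt_of_lt_of_le h2 (min_le_right _ _)
    refine AnalyticAt.mul ?_ (hb _ (hmem w η h1 h2)).1
    refine Finset.analyticAt_fun_sum _ fun i _ => ?_
    exact ((hAω w η h1' h2').pow i).mul ((hp.A_ana w η h1' h2').pow _)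
  have hdA := WtY.diff_cf (A := fun p => A p ^ m) hδ
    (fun x η hx hη => (hp.A_ana x η hx hη).pow m) (m + j)
  have hdG := WtY.diff_cf (A := G) hr0 hGa (m + j)
  refine ⟨fun w => cf (fun η => A (w, η) ^ m) (m + j), fun w => cf (fun η => G (w, η)) (m + j),
    hdA.analyticAt (ball_mem_nhds _ hδ), hdG.analyticAt (ball_mem_nhds _ hr0), ?_, ?_⟩
  · filter_upwards [ball_mem_nhds (0:ℂ) hr0] with w hw
    rw [mem_ball_zero_iff] at hw
    have hwδ : ‖w‖ < δ := lt_of_lt_of_le hw (min_le_right _ _)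
    have hin : ∀ w' : ℂ, ‖w'‖ < δ → AnalyticAt ℂ (fun η : ℂ => A (w', η) ^ m) 0 := by
      intro w' hw'
      have h3 : AnalyticAt ℂ (fun η : ℂ => ((w', η) : ℂ × ℂ)) 0 :=
        analyticAt_const.prod analyticAt_id
      exact ((hp.A_ana w' 0 hw' (by simpa using hδ)).comp_of_eq h3 rfl).pow m
    have e1 : (fun η : ℂ => A (om * w, η) ^ m - A (w, η) ^ m) =ᶠ[𝓝 0]
        fun η => w ^ l * G (w, η) := by
      filter_upwards [ball_mem_nhds (0:ℂ) hr0] with η hη
      rw [mem_ball_zero_iff] at hη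
      have h3 : A (om * w, η) - A (w, η) = w ^ l * α (w, η) := (hb _ (hmem w η hw hη)).2
      have h4 := (Commute.all (A (om * w, η)) (A (w, η))).geom_sum₂_mul m
      rw [← h4, h3]
      simp only [hG]
      ring
    have e2 := Pool.Agent.MP_ae5b4e_an_ND.cf_sub (hin (om * w) (by rw [hnom]; exact hwδ))
      (hin w hwδ) (m + j)
    show cf (fun η => A (om * w, η) ^ m) (m + j) - cf (fun η => A (w, η) ^ m) (m + j) =
      w ^ l * cf (fun η => G (w, η)) (m + j)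
    rw [← e2, Pool.Agent.MP_ae5b4e_an_ND.cf_congr e1,
      Pool.Agent.MP_ae5b4e_an_ND.cf_const_mul]
  · filter_upwards [self_mem_nhdsWithin, nhdsWithin_le_nhds (ball_mem_nhds (0:ℂ) hδ)] with w h1 h2
    rw [mem_ball_zero_iff] at h2
    exact WtY.pc_eq hp m j h1 h2

/-- the increments of the slope coefficients -/
theorem b_incr {Yf A : ℂ × ℂ → ℂ} {δ C : ℝ} {b : ℕ → ℂ → ℂ} (hs : SerY Yf A δ C b)
    {om : ℂ} (hom : ‖om‖ = 1) {l : ℕ} {α : ℂ × ℂ → ℂ} (hα : AnalyticAt ℂ α (0, 0))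
    (h : ∀ᶠ p in 𝓝 ((0, 0) : ℂ × ℂ), A (om * p.1, p.2) - A p = p.1 ^ l * α p) (n : ℕ) :
    (fun w : ℂ => b n (om * w) - b n w) =O[𝓝[≠] (0:ℂ)] (fun w : ℂ => w ^ l) := by
  have hδ := hs.place.δ_pos
  obtain ⟨φ, χ, a1, a2, a3, a4⟩ := slopeY_mem (filt om l)
    (fun m j _ => mem_pc hs.place hom hα h m j) n
  have h1 : ∀ᶠ w in 𝓝[≠] (0:ℂ), b n w = φ w := by
    filter_upwards [a4, self_mem_nhdsWithin, nhdsWithin_le_nhds (ball_mem_nhds (0:ℂ) hδ)]
      with w h1 h2 h3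
    rw [mem_ball_zero_iff] at h3
    have w0 : w ≠ 0 := h2
    have h4 := hs.b_eq n w w0 h3
    rw [h1] at h4
    have hp : w ^ n ≠ 0 := pow_ne_zero _ w0
    have h5 := congrArg (fun z => z * w ^ n) h4
    simp only [div_mul_cancel₀ _ hp] at h5
    exact h5.symm
  have hbc : ContinuousAt (b n) 0 :=
    ((hs.b_diff n).differentiableAt (ball_mem_nhds _ hδ)).continuousAt
  have h2 : ∀ᶠ w in 𝓝 (0:ℂ), b n w = φ w := by
    have h0 : b n 0 = φ 0 := by
      have t1 : Tendsto (b n) (𝓝[≠] (0:ℂ)) (𝓝 (b n 0)) :=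
        hbc.tendsto.mono_left nhdsWithin_le_nhds
      have t2 : Tendsto φ (𝓝[≠] (0:ℂ)) (𝓝 (φ 0)) :=
        a1.continuousAt.tendsto.mono_left nhdsWithin_le_nhds
      exact tendsto_nhds_unique t1 ((tendsto_congr' h1).2 t2)
    rw [eventually_nhdsWithin_iff] at h1
    filter_upwards [h1] with w h3
    by_cases hw : w = 0
    · rw [hw, h0]
    · exact h3 hw
  have h3 : (fun w : ℂ => b n (om * w) - b n w) =ᶠ[𝓝[≠] (0:ℂ)] fun w => w ^ l * χ w := by
    apply nhdsWithin_le_nhds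
    filter_upwards [h2, (tend_om om).eventually h2, a3] with w e1 e2 e3
    show b n (om * w) - b n w = w ^ l * χ w
    rw [e1, e2, e3]
  refine h3.trans_isBigO ?_
  have h4 : χ =O[𝓝[≠] (0:ℂ)] (fun _ => (1 : ℂ)) :=
    (a2.continuousAt.tendsto.mono_left nhdsWithin_le_nhds).isBigO_one ℂ
  have h5 := (Asymptotics.isBigO_refl (fun w : ℂ => w ^ l) (𝓝[≠] (0:ℂ))).mul h4
  simpa using h5

/-- Schwarz lemma of order `l` -/
theorem schwarz {δ : ℝ} (hδ : 0 < δ) (l : ℕ) : ∀ (g : ℂ → ℂ) (M : ℝ),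
    DifferentiableOn ℂ g (ball 0 δ) → (∀ z ∈ ball (0:ℂ) δ, ‖g z‖ ≤ M) →
    (g =O[𝓝[≠] (0:ℂ)] (fun w : ℂ => w ^ l)) →
    ∀ z ∈ ball (0:ℂ) δ, ‖g z‖ ≤ M * (‖z‖ / δ) ^ l := by
  induction l with
  | zero =>
    intro g M _ hM _ z hz
    simpa using hM z hz
  | succ l ih =>
    intro g M hd hM hO z hz
    have hb0 : ball (0:ℂ) δ ∈ 𝓝 (0:ℂ) := ball_mem_nhds _ hδ
    have hc : ContinuousAt g 0 := (hd.differentiableAt hb0).continuousAt
    have hg0 : g 0 = 0 := by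
      have t1 : Tendsto g (𝓝[≠] (0:ℂ)) (𝓝 (g 0)) := hc.tendsto.mono_left nhdsWithin_le_nhds
      have t2 : Tendsto (fun w : ℂ => w ^ (l + 1)) (𝓝[≠] (0:ℂ)) (𝓝 0) := by
        have h1 : Continuous (fun w : ℂ => w ^ (l + 1)) := by fun_prop
        exact (h1.tendsto' 0 0 (by simp)).mono_left nhdsWithin_le_nhds
      exact tendsto_nhds_unique t1 (hO.trans_tendsto t2)
    have hd' : DifferentiableOn ℂ (dslope g 0) (ball 0 δ) :=
      (Complex.differentiableOn_dslope hb0).2 hd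
    have hM' : ∀ z ∈ ball (0:ℂ) δ, ‖dslope g 0 z‖ ≤ M / δ := by
      intro z hz
      apply Complex.norm_dslope_le_div_of_mapsTo_ball hd _ hz
      intro u hu
      rw [hg0, mem_closedBall_zero_iff]
      exact hM u hu
    have hO' : dslope g 0 =O[𝓝[≠] (0:ℂ)] (fun w : ℂ => w ^ l) := by
      obtain ⟨K, hK⟩ := hO.bound
      refine Asymptotics.IsBigO.of_bound K ?_
      filter_upwards [hK, self_mem_nhdsWithin] with w h1 h2
      have w0 : w ≠ 0 := h2
      have h3 : (w - 0) • dslope g 0 w = g w - g 0 := sub_smul_dslope g 0 w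
      rw [sub_zero, hg0, sub_zero, smul_eq_mul] at h3
      rw [← h3, norm_mul, norm_pow, pow_succ, mul_comm (‖w‖ ^ l) ‖w‖, mul_comm ‖w‖,
        mul_comm ‖w‖, ← mul_assoc, ← norm_pow] at h1
      exact le_of_mul_le_mul_right h1 (norm_pos_iff.2 w0)
    have h3 : (z - 0) • dslope g 0 z = g z - g 0 := sub_smul_dslope g 0 z
    rw [sub_zero, hg0, sub_zero, smul_eq_mul] at h3
    have h4 := ih (dslope g 0) (M / δ) hd' hM' hO' z hz
    rw [← h3, norm_mul]
    calc ‖z‖ * ‖dslope g 0 z‖ ≤ ‖z‖ * (M / δ * (‖z‖ / δ) ^ l) :=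
          mul_le_mul_of_nonneg_left h4 (norm_nonneg _)
      _ = M * (‖z‖ / δ) ^ (l + 1) := by
          rw [pow_succ]
          ring

end RamUniv

open RamUniv in
theorem slope_univ {Yf A : ℂ × ℂ → ℂ} {δ C : ℝ} {b : ℕ → ℂ → ℂ} (hs : SerY Yf A δ C b)
    {om : ℂ} (hom : ‖om‖ = 1) {l : ℕ} {α : ℂ × ℂ → ℂ} (hα : AnalyticAt ℂ α (0, 0))
    (h : ∀ᶠ p in 𝓝 ((0, 0) : ℂ × ℂ), A (om * p.1, p.2) - A p = p.1 ^ l * α p) :
    ∃ β : ℂ × ℂ → ℂ, AnalyticAt ℂ β (0, 0) ∧ ∀ᶠ p in 𝓝 ((0, 0) : ℂ × ℂ),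
      bs b (om * p.1) p.2 - bs b p.1 p.2 = p.1 ^ l * β p := by
  have hδ := hs.place.δ_pos
  have hC := hs.C_pos
  have hnom : ∀ w : ℂ, ‖om * w‖ = ‖w‖ := fun w => by rw [norm_mul, hom, one_mul]
  have hba := Pool.Agent.MP_ae5b4e_an_ALG.RamCoord.bs_ana hs
  have hDa : AnalyticAt ℂ (fun p : ℂ × ℂ => bs b (om * p.1) p.2 - bs b p.1 p.2) (0, 0) := by
    have h3 : AnalyticAt ℂ (fun p : ℂ × ℂ => ((om * p.1, p.2) : ℂ × ℂ)) (0, 0) :=
      (analyticAt_const.mul analyticAt_fst).prod analyticAt_snd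
    have h4 : AnalyticAt ℂ (fun p : ℂ × ℂ => bs b (om * p.1) p.2) (0, 0) :=
      hba.comp_of_eq h3 (by simp)
    exact h4.sub hba
  refine Pool.Agent.MP_ae5b4e_an_ALG.div_pow_fst hDa ?_
  have hC2 : 0 < 1 / (2 * C) := by positivity
  have hξ : ∀ᶠ ξ in 𝓝[≠] (0:ℂ), ‖ξ‖ < 1 / (2 * C) := by
    apply nhdsWithin_le_nhds
    filter_upwards [ball_mem_nhds (0:ℂ) hC2] with ξ h1
    rwa [mem_ball_zero_iff] at h1
  filter_upwards [hξ] with ξ h1
  refine Asymptotics.IsBigO.of_bound (4 / δ ^ l) ?_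
  filter_upwards [nhdsWithin_le_nhds (ball_mem_nhds (0:ℂ) hδ)] with w h2
  have hw : ‖w‖ < δ := by rwa [mem_ball_zero_iff] at h2
  -- the bounds
  have hsum : ∀ u : ℂ, ‖u‖ < δ → Summable (fun n => b n u * ξ ^ n) := by
    intro u hu
    refine Summable.of_norm_bounded summable_geometric_two (fun n => ?_)
    rw [norm_mul, norm_pow]
    calc ‖b n u‖ * ‖ξ‖ ^ n ≤ C ^ n * (1 / (2 * C)) ^ n := by
          gcongr
          exact hs.b_bound n u hu
      _ = (1 / 2 : ℝ) ^ n := by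
          rw [← mul_pow]
          congr 1
          field_simp
  have hdiff : bs b (om * w) ξ - bs b w ξ = ∑' n, (b n (om * w) - b n w) * ξ ^ n := by
    unfold bs
    rw [← (hsum (om * w) (by rw [hnom]; exact hw)).tsum_sub (hsum w hw)]
    refine tsum_congr fun n => ?_
    ring
  have hgn : ∀ n, ‖b n (om * w) - b n w‖ ≤ 2 * C ^ n * (‖w‖ / δ) ^ l := by
    intro n
    refine schwarz hδ l (fun w => b n (om * w) - b n w) (2 * C ^ n) ?_ ?_
      (b_incr hs hom hα h n) w h2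
    · refine DifferentiableOn.sub ?_ (hs.b_diff n)
      refine (hs.b_diff n).comp ((differentiable_const om).mul differentiable_id).differentiableOn ?_
      intro u hu
      rw [mem_ball_zero_iff] at hu ⊢
      show ‖om * u‖ < δ
      rw [hnom]
      exact hu
    · intro u hu
      rw [mem_ball_zero_iff] at hu
      calc ‖b n (om * u) - b n u‖ ≤ ‖b n (om * u)‖ + ‖b n u‖ := norm_sub_le _ _
        _ ≤ C ^ n + C ^ n := add_le_add (hs.b_bound n _ (by rw [hnom]; exact hu))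
            (hs.b_bound n _ hu)
        _ = 2 * C ^ n := by ring
  show ‖bs b (om * w) ξ - bs b w ξ‖ ≤ 4 / δ ^ l * ‖w ^ l‖
  rw [hdiff]
  have hgeo : HasSum (fun n : ℕ => 2 * (‖w‖ / δ) ^ l * (1 / 2 : ℝ) ^ n)
      (2 * (‖w‖ / δ) ^ l * 2) := hasSum_geometric_two.mul_left _
  refine (tsum_of_norm_bounded hgeo fun n => ?_).trans_eq ?_
  · rw [norm_mul, norm_pow]
    calc ‖b n (om * w) - b n w‖ * ‖ξ‖ ^ n
        ≤ (2 * C ^ n * (‖w‖ / δ) ^ l) * (1 / (2 * C)) ^ n := by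
          gcongr
          exact hgn n
      _ = 2 * (‖w‖ / δ) ^ l * (1 / 2 : ℝ) ^ n := by
          have h5 : C ^ n * (1 / (2 * C)) ^ n = (1 / 2 : ℝ) ^ n := by
            rw [← mul_pow]
            congr 1
            field_simp
          rw [← h5]
          ring
  · rw [norm_pow, div_pow]
    ring

end Pool.Agent.MP_ae5b4e_an_MET
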