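import Mathlib
import Pool.Agent.Lib.MP_ae5b4e_an_ALG.RamCoord
import Pool.Agent.Lib.MP_ae5b4e_an_MET.RamUniv

/-!
# MP_ae5b4e_an, project MET, module RC: the place `(k, 2k)` in the coordinate `x = w ^ k`
-/

set_option autoImplicit false

noncomputable section

namespace Pool.Agent.MP_ae5b4e_an_MET

open Filter Topology Set Metric Complex
open scoped Real
open Pool.Agent.MP_ae5b4e_an_ND (Dx Dy)
open Pool.Agent.MP_ae5b4e_an_FLEX
open Pool.Agent.MP_ae5b4e_an_ALG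
open Pool.Agent.MP_ae5b4e_an_ALG.RamCoord

namespace RamCoordM

/-- uniqueness for the linearised functional equation of the slope on the axis -/
theorem unique_fe {r : ℂ} (hr : r ≠ 0) {E u s q : ℂ → ℂ} (hE : AnalyticAt ℂ E 0) (h0 : E 0 = 0)
    (h1 : deriv E 0 = 0) (hu : AnalyticAt ℂ u 0) (hs : AnalyticAt ℂ s 0)
    (hq : AnalyticAt ℂ q 0) (hu0 : u 0 = 1) (hs0 : s 0 = 1) (hus : deriv u 0 = deriv s 0)
    (h : ∀ᶠ ξ in 𝓝 (0:ℂ), E (2 * ξ / (2 - r * ξ)) * (u ξ - E ξ * q ξ) = s ξ * E ξ) :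
    ∀ᶠ ξ in 𝓝 (0:ℂ), E ξ = 0 := by
  by_contra hne
  obtain ⟨n, g, hg, hg0, he⟩ := (hE.exists_eventuallyEq_pow_smul_nonzero_iff).2 hne
  simp only [sub_zero, smul_eq_mul] at he
  -- the order is at least two
  have hn : 2 ≤ n := by
    rcases Nat.lt_or_ge n 2 with hn | hn
    · exfalso
      interval_cases n
      · have := he.self_of_nhds
        rw [h0] at this
        simp only [pow_zero, one_mul] at this
        exact hg0 this.symm
      · have h2 : deriv E 0 = deriv (fun z => z ^ 1 * g z) 0 := Filter.EventuallyEq.deriv_eq he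
        have h3 : HasDerivAt (fun z : ℂ => z ^ 1 * g z) (1 * g 0 + 0 * deriv g 0) 0 := by
          have : HasDerivAt (fun z : ℂ => z * g z) (1 * g 0 + 0 * deriv g 0) 0 :=
            (hasDerivAt_id (0:ℂ)).mul hg.differentiableAt.hasDerivAt
          simpa only [pow_one] using this
        rw [h1, h3.deriv] at h2
        simp only [one_mul, zero_mul, add_zero] at h2
        exact hg0 h2.symm
    · exact hn
  have hTa : AnalyticAt ℂ (fun ξ : ℂ => 2 * ξ / (2 - r * ξ)) 0 :=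
    (analyticAt_const.mul analyticAt_id).div
      (analyticAt_const.sub (analyticAt_const.mul analyticAt_id)) (by simp)
  have hT : Tendsto (fun ξ : ℂ => 2 * ξ / (2 - r * ξ)) (𝓝 0) (𝓝 0) := by
    simpa using hTa.continuousAt.tendsto
  have hne1 : ∀ᶠ ξ in 𝓝 (0:ℂ), 2 - r * ξ ≠ 0 := by
    have : ContinuousAt (fun ξ : ℂ => 2 - r * ξ) 0 := by fun_prop
    exact this.eventually_ne (by simp)
  -- the equation for `g`
  have hge : ∀ᶠ ξ in 𝓝[≠] (0:ℂ), 2 ^ n * (g (2 * ξ / (2 - r * ξ)) * (u ξ - ξ ^ n * g ξ * q ξ)) =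
      (2 - r * ξ) ^ n * (s ξ * g ξ) := by
    filter_upwards [h.filter_mono nhdsWithin_le_nhds, he.filter_mono nhdsWithin_le_nhds,
      (hT.eventually he).filter_mono nhdsWithin_le_nhds,
      hne1.filter_mono nhdsWithin_le_nhds, self_mem_nhdsWithin] with ξ e1 e2 e3 e4 e5
    have hξ : ξ ≠ 0 := e5
    rw [e3, e2, div_pow, mul_pow] at e1
    have h6 : ξ ^ n ≠ 0 := pow_ne_zero _ hξ
    have h7 : (2 - r * ξ) ^ n ≠ 0 := pow_ne_zero _ e4
    rw [div_mul_eq_mul_div, div_mul_eq_mul_div, div_eq_iff h7] at e1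
    apply mul_left_cancel₀ h6
    linear_combination e1
  have hgT : AnalyticAt ℂ (fun ξ : ℂ => g (2 * ξ / (2 - r * ξ))) 0 :=
    hg.comp_of_eq hTa (by simp)
  have hL : AnalyticAt ℂ (fun ξ : ℂ => 2 ^ n * (g (2 * ξ / (2 - r * ξ)) *
      (u ξ - ξ ^ n * g ξ * q ξ))) 0 :=
    analyticAt_const.mul (hgT.mul (hu.sub (((analyticAt_id.pow n).mul hg).mul hq)))
  have hR : AnalyticAt ℂ (fun ξ : ℂ => (2 - r * ξ) ^ n * (s ξ * g ξ)) 0 :=
    ((analyticAt_const.sub (analyticAt_const.mul analyticAt_id)).pow n).mul (hs.mul hg)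
  have hge2 : (fun ξ : ℂ => 2 ^ n * (g (2 * ξ / (2 - r * ξ)) *
      (u ξ - ξ ^ n * g ξ * q ξ))) =ᶠ[𝓝 0] fun ξ => (2 - r * ξ) ^ n * (s ξ * g ξ) :=
    (hL.frequently_eq_iff_eventually_eq hR).1 hge.frequently
  have hd := hge2.deriv_eq
  -- the derivatives
  have hTd : HasDerivAt (fun ξ : ℂ => 2 * ξ / (2 - r * ξ)) 1 0 := by
    have h8 : HasDerivAt (fun ξ : ℂ => 2 * ξ / (2 - r * ξ))
        ((2 * 1 * (2 - r * 0) - 2 * 0 * (-(r * 1))) / (2 - r * 0) ^ 2) 0 :=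
      ((hasDerivAt_id (0:ℂ)).const_mul 2).div (((hasDerivAt_id (0:ℂ)).const_mul r).const_sub 2)
        (by simp)
    exact h8.congr_deriv (by norm_num)
  have hgd : HasDerivAt g (deriv g 0) 0 := hg.differentiableAt.hasDerivAt
  have hgTd : HasDerivAt (fun ξ : ℂ => g (2 * ξ / (2 - r * ξ))) (deriv g 0 * 1) 0 := by
    refine HasDerivAt.comp (h₂ := g) (h := fun ξ : ℂ => 2 * ξ / (2 - r * ξ)) (0:ℂ) ?_ hTd
    simpa using hgd
  have hpd : HasDerivAt (fun ξ : ℂ => ξ ^ n * g ξ * q ξ) 0 0 := by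
    have h9 := ((hasDerivAt_pow n (0:ℂ)).mul hgd).mul hq.differentiableAt.hasDerivAt
    refine h9.congr_deriv ?_
    simp only [Pi.mul_apply]
    rw [zero_pow (by omega), zero_pow (by omega)]
    ring
  have hLd := (hgTd.mul (hu.differentiableAt.hasDerivAt.sub hpd)).const_mul ((2:ℂ) ^ n)
  have hRd := (((((hasDerivAt_id (0:ℂ)).const_mul r).const_sub 2).fun_pow n).mul
    (hs.differentiableAt.hasDerivAt.mul hgd))
  have e1 : deriv (fun ξ : ℂ => 2 ^ n * (g (2 * ξ / (2 - r * ξ)) *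
      (u ξ - ξ ^ n * g ξ * q ξ))) 0 = 2 ^ n * (deriv g 0 + g 0 * deriv u 0) := by
    refine (hLd.congr_deriv ?_).deriv
    simp only [Pi.sub_apply]
    rw [zero_pow (by omega), hu0]
    norm_num
  have e2 : deriv (fun ξ : ℂ => (2 - r * ξ) ^ n * (s ξ * g ξ)) 0 =
      -(n * 2 ^ (n - 1) * r) * g 0 + 2 ^ n * (deriv s 0 * g 0 + deriv g 0) := by
    refine (hRd.congr_deriv ?_).deriv
    simp only [id, Pi.mul_apply, mul_zero, sub_zero, mul_one, hs0]
    ring
  rw [e1, e2, hus] at hd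
  have h12 : (n * 2 ^ (n - 1) * r) * g 0 = 0 := by linear_combination hd
  have h13 : (n : ℂ) ≠ 0 := by
    have : n ≠ 0 := by omega
    exact_mod_cast this
  exact (mul_ne_zero (mul_ne_zero (mul_ne_zero h13 (pow_ne_zero _ two_ne_zero)) hr) hg0) h12

/-- the slope on the axis -/
theorem slope_axis {c : ℂ} (hc : c = 0 ∨ c = 1) {B : ℂ → ℂ} (hB : AnalyticAt ℂ B 0)
    (h0 : B 0 = 0) (h1 : deriv B 0 = c / 2)
    (h : ∀ᶠ ξ in 𝓝 (0:ℂ), (1 + B (2 * ξ / (2 - (2 - c) * ξ))) *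
      (1 - (2 * ξ / (2 + c * ξ) + (B ξ - ξ) * (4 / (2 + c * ξ) ^ 2))) = 1) :
    ∀ᶠ ξ in 𝓝 (0:ℂ), B ξ = 2 * c * ξ / (4 + c * ξ) := by
  rcases hc with rfl | rfl
  · have h2 : ∀ᶠ ξ in 𝓝 (0:ℂ), B (ξ / (1 - ξ)) * (1 - B ξ) = B ξ := by
      filter_upwards [h] with ξ hξ
      have e1 : 2 * ξ / (2 - (2 - 0) * ξ) = ξ / (1 - ξ) := by
        rw [sub_zero, show (2:ℂ) - 2 * ξ = 2 * (1 - ξ) by ring,
          mul_div_mul_left _ _ two_ne_zero]
      have e2 : 2 * ξ / (2 + 0 * ξ) = ξ := by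
        rw [zero_mul, add_zero]
        field_simp
      have e3 : (4:ℂ) / (2 + 0 * ξ) ^ 2 = 1 := by
        rw [zero_mul, add_zero]
        norm_num
      rw [e1, e2, e3] at hξ
      linear_combination hξ
    filter_upwards [eq_zero_of_fe hB h0 (by simpa using h1) h2] with ξ hξ
    rw [hξ]
    simp
  · have hB0a : AnalyticAt ℂ (fun ξ : ℂ => 2 * ξ / (4 + ξ)) 0 :=
      (analyticAt_const.mul analyticAt_id).div (analyticAt_const.add analyticAt_id) (by simp)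
    have hua : AnalyticAt ℂ (fun ξ : ℂ => (4 - ξ) / (4 + ξ)) 0 :=
      (analyticAt_const.sub analyticAt_id).div (analyticAt_const.add analyticAt_id) (by simp)
    have hsa : AnalyticAt ℂ (fun ξ : ℂ => (4 + ξ) * 4 / ((4 - ξ) * (2 + ξ) ^ 2)) 0 :=
      ((analyticAt_const.add analyticAt_id).mul analyticAt_const).div
        ((analyticAt_const.sub analyticAt_id).mul ((analyticAt_const.add analyticAt_id).pow 2))
        (by simp)
    have hqa : AnalyticAt ℂ (fun ξ : ℂ => 4 / (2 + ξ) ^ 2) 0 :=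
      analyticAt_const.div ((analyticAt_const.add analyticAt_id).pow 2) (by simp)
    have hB0d : HasDerivAt (fun ξ : ℂ => 2 * ξ / (4 + ξ)) (1 / 2) 0 := by
      have h8 : HasDerivAt (fun ξ : ℂ => 2 * ξ / (4 + ξ))
          ((2 * 1 * (4 + 0) - 2 * 0 * 1) / (4 + 0) ^ 2) 0 :=
        ((hasDerivAt_id (0:ℂ)).const_mul 2).div ((hasDerivAt_id (0:ℂ)).const_add 4) (by simp)
      exact h8.congr_deriv (by norm_num)
    have hud : deriv (fun ξ : ℂ => (4 - ξ) / (4 + ξ)) 0 = -(1 / 2) := by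
      have h8 : HasDerivAt (fun ξ : ℂ => (4 - ξ) / (4 + ξ))
          ((-1 * (4 + 0) - (4 - 0) * 1) / (4 + 0) ^ 2) 0 :=
        ((hasDerivAt_id (0:ℂ)).const_sub 4).div ((hasDerivAt_id (0:ℂ)).const_add 4) (by simp)
      exact (h8.congr_deriv (by norm_num)).deriv
    have hsd : deriv (fun ξ : ℂ => (4 + ξ) * 4 / ((4 - ξ) * (2 + ξ) ^ 2)) 0 = -(1 / 2) := by
      have h8 : HasDerivAt (fun ξ : ℂ => (4 + ξ) * 4 / ((4 - ξ) * (2 + ξ) ^ 2))
          ((1 * 4 * ((4 - 0) * (2 + 0) ^ 2) - (4 + 0) * 4 *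
            (-1 * (2 + 0) ^ 2 + (4 - 0) * (((2 : ℕ) : ℂ) * (2 + 0) ^ (2 - 1) * 1))) /
            ((4 - 0) * (2 + 0) ^ 2) ^ 2) 0 :=
        (((hasDerivAt_id (0:ℂ)).const_add 4).mul_const 4).div
          (((hasDerivAt_id (0:ℂ)).const_sub 4).mul
            (((hasDerivAt_id (0:ℂ)).const_add 2).fun_pow 2)) (by simp)
      exact (h8.congr_deriv (by norm_num)).deriv
    have hn1 : ∀ᶠ ξ in 𝓝 (0:ℂ), 2 + ξ ≠ 0 := by
      have : ContinuousAt (fun ξ : ℂ => 2 + ξ) 0 := by fun_prop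
      exact this.eventually_ne (by simp)
    have hn2 : ∀ᶠ ξ in 𝓝 (0:ℂ), 2 - ξ ≠ 0 := by
      have : ContinuousAt (fun ξ : ℂ => 2 - ξ) 0 := by fun_prop
      exact this.eventually_ne (by simp)
    have hn3 : ∀ᶠ ξ in 𝓝 (0:ℂ), 4 + ξ ≠ 0 := by
      have : ContinuousAt (fun ξ : ℂ => 4 + ξ) 0 := by fun_prop
      exact this.eventually_ne (by simp)
    have hn4 : ∀ᶠ ξ in 𝓝 (0:ℂ), 4 - ξ ≠ 0 := by
      have : ContinuousAt (fun ξ : ℂ => 4 - ξ) 0 := by fun_prop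
      exact this.eventually_ne (by simp)
    have hE := unique_fe (r := 1) one_ne_zero (E := fun ξ => B ξ - 2 * ξ / (4 + ξ))
      (u := fun ξ => (4 - ξ) / (4 + ξ)) (s := fun ξ => (4 + ξ) * 4 / ((4 - ξ) * (2 + ξ) ^ 2))
      (q := fun ξ => 4 / (2 + ξ) ^ 2) (hB.sub hB0a) (by simp [h0])
      (by
        have h9 : HasDerivAt (fun ξ => B ξ - 2 * ξ / (4 + ξ)) (deriv B 0 - 1 / 2) 0 :=
          hB.differentiableAt.hasDerivAt.sub hB0d
        rw [h9.deriv, h1]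
        norm_num) hua hsa hqa (by norm_num) (by norm_num) (by rw [hud, hsd])
      (by
        filter_upwards [h, hn1, hn2, hn3, hn4] with ξ e1 e2 e3 e4 e5
        have e6 : (2:ℂ) - (2 - 1) * ξ = 2 - ξ := by ring
        rw [e6, one_mul] at e1
        rw [one_mul]
        set T : ℂ := 2 * ξ / (2 - ξ) with hT
        have e7 : 2 * T / (4 + T) = 2 * ξ / (4 - ξ) := by
          have e8 : 4 + T = 2 * (4 - ξ) / (2 - ξ) := by
            rw [hT]
            field_simp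
            ring
          rw [e8, hT]
          field_simp
        rw [e7]
        have i1 : 1 - (2 * ξ / (2 + ξ) + (B ξ - ξ) * (4 / (2 + ξ) ^ 2)) =
            (4 - ξ) / (4 + ξ) - (B ξ - 2 * ξ / (4 + ξ)) * (4 / (2 + ξ) ^ 2) := by
          field_simp
          ring
        have i2 : (4 + ξ) / (4 - ξ) * ((4 - ξ) / (4 + ξ)) = 1 := by field_simp
        have i3 : (4 + ξ) * 4 / ((4 - ξ) * (2 + ξ) ^ 2) =
            (4 + ξ) / (4 - ξ) * (4 / (2 + ξ) ^ 2) := by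
          field_simp
        have i4 : 1 + B T = (4 + ξ) / (4 - ξ) + (B T - 2 * ξ / (4 - ξ)) := by
          field_simp
          ring
        rw [i1, i4] at e1
        rw [i3]
        linear_combination e1 - i2)
    filter_upwards [hE] with ξ hξ
    rw [mul_one, one_mul]
    linear_combination hξ

/-- the second derivative of the kick on the axis -/
theorem second_deriv_met {k : ℕ} (hk : 2 ≤ k) {c : ℂ} {G : ℂ → ℂ} (hG : AnalyticAt ℂ G 0)
    (h0 : G 0 = 0) (h1 : deriv G 0 = 1)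
    (h : ∀ᶠ η in 𝓝 (0:ℂ), (1 - G η) ^ k * (2 + c * ((1 + η) ^ k - 1)) =
      2 + (c - 2) * ((1 + η) ^ k - 1)) :
    deriv (deriv G) 0 = 2 * (k - 1) - c * k := by
  have hkc : (k : ℂ) ≠ 0 := by
    have : k ≠ 0 := by omega
    exact_mod_cast this
  have hk1 : ((k - 1 : ℕ) : ℂ) = k - 1 := by
    rw [Nat.cast_sub (by omega), Nat.cast_one]
  have hX : ∀ η : ℂ, HasDerivAt (fun η : ℂ => (1 + η) ^ k) (k * (1 + η) ^ (k - 1) * 1) η :=
    fun η => ((hasDerivAt_id η).const_add 1).fun_pow k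
  -- the first derivative of the relation
  have h2 : ∀ᶠ η in 𝓝 (0:ℂ), (1 - G η) ^ (k - 1) * deriv G η *
      (2 + c * ((1 + η) ^ k - 1)) = ((1 - G η) ^ k * c - (c - 2)) * (1 + η) ^ (k - 1) := by
    filter_upwards [h.eventually_nhds, hG.eventually_analyticAt] with η e1 e2
    have e3 : HasDerivAt (fun η => (1 - G η) ^ k)
        (k * (1 - G η) ^ (k - 1) * (-deriv G η)) η :=
      (e2.differentiableAt.hasDerivAt.const_sub 1).fun_pow k
    have e4 : HasDerivAt (fun η => (1 - G η) ^ k * (2 + c * ((1 + η) ^ k - 1)))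
        (k * (1 - G η) ^ (k - 1) * (-deriv G η) * (2 + c * ((1 + η) ^ k - 1)) +
          (1 - G η) ^ k * (c * (k * (1 + η) ^ (k - 1) * 1))) η :=
      e3.mul ((((hX η).sub_const 1).const_mul c).const_add 2)
    have e6 : HasDerivAt (fun η : ℂ => 2 + (c - 2) * ((1 + η) ^ k - 1))
        ((c - 2) * (k * (1 + η) ^ (k - 1) * 1)) η :=
      (((hX η).sub_const 1).const_mul (c - 2)).const_add 2
    have e5 := Filter.EventuallyEq.deriv_eq
      (f₁ := fun η => (1 - G η) ^ k * (2 + c * ((1 + η) ^ k - 1)))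
      (f := fun η : ℂ => 2 + (c - 2) * ((1 + η) ^ k - 1)) e1
    rw [e4.deriv, e6.deriv] at e5
    apply mul_left_cancel₀ hkc
    linear_combination -e5
  have hG' : HasDerivAt (deriv G) (deriv (deriv G) 0) 0 := hG.deriv.differentiableAt.hasDerivAt
  have hGd := hG.differentiableAt.hasDerivAt
  have e3 : HasDerivAt (fun η => (1 - G η) ^ (k - 1) * deriv G η *
      (2 + c * ((1 + η) ^ k - 1)))
      ((((k - 1 : ℕ) : ℂ) * (1 - G 0) ^ (k - 1 - 1) * (-deriv G 0) * deriv G 0 +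
        (1 - G 0) ^ (k - 1) * deriv (deriv G) 0) * (2 + c * ((1 + 0) ^ k - 1)) +
        (1 - G 0) ^ (k - 1) * deriv G 0 * (c * (k * (1 + 0) ^ (k - 1) * 1))) 0 :=
    (((hGd.const_sub 1).fun_pow (k - 1)).mul hG').mul
      ((((hX 0).sub_const 1).const_mul c).const_add 2)
  have e4 : HasDerivAt (fun η : ℂ => ((1 - G η) ^ k * c - (c - 2)) * (1 + η) ^ (k - 1))
      ((k * (1 - G 0) ^ (k - 1) * (-deriv G 0) * c) * (1 + 0) ^ (k - 1) +
        ((1 - G 0) ^ k * c - (c - 2)) * (((k - 1 : ℕ) : ℂ) * (1 + 0) ^ (k - 1 - 1) * 1)) 0 :=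
    ((((hGd.const_sub 1).fun_pow k).mul_const c).sub_const (c - 2)).mul
      (((hasDerivAt_id (0:ℂ)).const_add 1).fun_pow (k - 1))
  have e5 := Filter.EventuallyEq.deriv_eq
    (f₁ := fun η => (1 - G η) ^ (k - 1) * deriv G η * (2 + c * ((1 + η) ^ k - 1)))
    (f := fun η : ℂ => ((1 - G η) ^ k * c - (c - 2)) * (1 + η) ^ (k - 1)) h2
  rw [e3.deriv, e4.deriv, h0, h1, hk1] at e5
  simp only [sub_zero, one_pow, add_zero, mul_one, one_mul, sub_self, mul_zero] at e5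
  linear_combination e5 / 2

end RamCoordM

open RamCoordM in
/-- the place `(k, 2k)` in the coordinate `x = w ^ k`, with the metric factor -/
theorem ram_coord_met {k : ℕ} (hk : 2 ≤ k) {v κ : ℂ → ℂ} (hv : AnalyticAt ℂ v 0) (hv0 : v 0 ≠ 0)
    (hκ : AnalyticAt ℂ κ 0) {c : ℂ} (hc : c = 0 ∨ c = 1) (hκ0 : κ 0 = -(c * k))
    (hg : ∀ᶠ s in 𝓝[≠] (0:ℂ), GoodG (fun w => w ^ k) (fun w => w ^ (2 * k) * v w)
      (fun w => κ w / w) s) :
    ∃ m a B : ℂ × ℂ → ℂ, AnalyticAt ℂ m (0, 0) ∧ AnalyticAt ℂ a (0, 0) ∧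
      AnalyticAt ℂ B (0, 0) ∧ (∀ᶠ ξ in 𝓝 (0:ℂ), m (0, ξ) = ξ / 2) ∧
      (∀ᶠ ξ in 𝓝 (0:ℂ), a (0, ξ) = 2 * ξ / (2 + c * ξ)) ∧
      (∀ᶠ ξ in 𝓝 (0:ℂ), B (0, ξ) = 2 * c * ξ / (4 + c * ξ)) ∧
      (∀ᶠ p in 𝓝 ((0, 0) : ℂ × ℂ), m (p.1, -a p) * (κ p.1 / k * m p - 1) = m p) ∧
      (∀ᶠ p in 𝓝 ((0, 0) : ℂ × ℂ),
        B (p.1 * (1 - a p) ^ (1 / k : ℂ), a p / (1 - a p)) *
          (1 - (a p + p.1 / k * Dx a p + (B p - p.2) * Dy a p)) =
        a p + p.1 / k * Dx a p + (B p - p.2) * Dy a p) ∧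
      (∀ᶠ p in 𝓝 ((0, 0) : ℂ × ℂ), p.1 ≠ 0 → ∀ s, s = p.1 * (1 + p.2) ^ (1 / k : ℂ) →
        p.2 * (s * deriv (fun w => w ^ (2 * k) * v w) s / k) / (1 + p.2) -
            (s ^ (2 * k) * v s - p.1 ^ (2 * k) * v p.1) =
          m p * ((s * deriv (fun w => w ^ (2 * k) * v w) s / k) / (1 + p.2) -
            p.1 * deriv (fun w => w ^ (2 * k) * v w) p.1 / k)) ∧
      ∀ om : ℂ, ‖om‖ = 1 → ∀ (l : ℕ) (α : ℂ × ℂ → ℂ), AnalyticAt ℂ α (0, 0) →
        (∀ᶠ p in 𝓝 ((0, 0) : ℂ × ℂ), a (om * p.1, p.2) - a p = p.1 ^ l * α p) →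
        ∃ β : ℂ × ℂ → ℂ, AnalyticAt ℂ β (0, 0) ∧ ∀ᶠ p in 𝓝 ((0, 0) : ℂ × ℂ),
          B (om * p.1, p.2) - B p = p.1 ^ l * β p := by
  have hk0 : k ≠ 0 := by omega
  have hkc : (k : ℂ) ≠ 0 := by exact_mod_cast hk0
  obtain ⟨cr, hcr⟩ : ∃ cr : ℝ, (cr : ℂ) = c := by
    rcases hc with rfl | rfl
    · exact ⟨0, by simp⟩
    · exact ⟨1, by simp⟩
  obtain ⟨Yf, A, mw, δ, hp, hmw, hN, hmA, -⟩ := place_gen (a := k) (b := 2 * k)
    (c := k - cr * k / 2)
    (X := fun w => w ^ k) (Y := fun w => w ^ (2 * k) * v w) (K := fun w => κ w / w)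
    (x1 := fun _ => 1) (y1 := v) (k := κ) (by omega) (by omega) analyticAt_const
    one_ne_zero (Eventually.of_forall fun w => by simp) hv hv0
    (Eventually.of_forall fun w => rfl) hκ
    (by
      rw [hκ0, ← hcr]
      push_cast
      ring)
    (Eventually.of_forall fun w => rfl) hg
  obtain ⟨δ', hδ', hδδ, C, b, hs⟩ := placeY_series hp
  obtain ⟨ρ, hρ, hFI⟩ := serY_FI hs
  have hδ := hp.δ_pos
  have hA : AnalyticAt ℂ A (0, 0) := hp.A_ana 0 0 (by simpa using hδ) (by simpa using hδ)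
  have hA00 : A (0, 0) = 0 := hp.A_zero 0 (by simpa using hδ)
  set e := et k with he
  have hea : AnalyticAt ℂ e 0 := et_ana k
  have he0 : e 0 = 0 := et_zero k
  have het : Tendsto e (𝓝 0) (𝓝 0) := by
    have := hea.continuousAt.tendsto
    rwa [he0] at this
  -- the change of coordinates
  have hma : AnalyticAt ℂ (fun p : ℂ × ℂ => ((p.1, e p.2) : ℂ × ℂ)) (0, 0) :=
    analyticAt_fst.prod (hea.comp_of_eq analyticAt_snd rfl)
  have hmt : Tendsto (fun p : ℂ × ℂ => ((p.1, e p.2) : ℂ × ℂ)) (𝓝 (0, 0)) (𝓝 (0, 0)) := by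
    have := hma.continuousAt.tendsto
    simpa [he0] using this
  have hAe : AnalyticAt ℂ (fun p : ℂ × ℂ => A (p.1, e p.2)) (0, 0) :=
    hA.comp_of_eq hma (by simp [he0])
  have hAt : Tendsto (fun p : ℂ × ℂ => A (p.1, e p.2)) (𝓝 (0, 0)) (𝓝 0) := by
    have := hAe.continuousAt.tendsto
    simpa [he0, hA00] using this
  set m : ℂ × ℂ → ℂ := fun p => k * mw (p.1, e p.2) with hm
  set a : ℂ × ℂ → ℂ := fun p => 1 - (1 - A (p.1, e p.2)) ^ k with ha
  set B : ℂ × ℂ → ℂ := fun p => (1 + e p.2) ^ (k - 1) * (1 + bs b p.1 (e p.2)) - 1 with hB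
  have hma' : AnalyticAt ℂ m (0, 0) :=
    analyticAt_const.mul (hmw.comp_of_eq hma (by simp [he0]))
  have haa : AnalyticAt ℂ a (0, 0) :=
    analyticAt_const.sub ((analyticAt_const.sub hAe).pow k)
  have hBa : AnalyticAt ℂ B (0, 0) := by
    have h1 : AnalyticAt ℂ (fun p : ℂ × ℂ => bs b p.1 (e p.2)) (0, 0) :=
      (bs_ana hs).comp_of_eq hma (by simp [he0])
    have h2 : AnalyticAt ℂ (fun p : ℂ × ℂ => e p.2) (0, 0) :=
      hea.comp_of_eq analyticAt_snd rfl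
    exact (((analyticAt_const.add h2).pow _).mul (analyticAt_const.add h1)).sub analyticAt_const
  -- auxiliary limits
  have hnegA : Tendsto (fun p : ℂ × ℂ => -A (p.1, e p.2)) (𝓝 (0, 0)) (𝓝 0) := by
    simpa using hAt.neg
  have hinvA : Tendsto (fun p : ℂ × ℂ => (1 - A (p.1, e p.2))⁻¹ - 1) (𝓝 (0, 0)) (𝓝 0) := by
    have h1 : Tendsto (fun p : ℂ × ℂ => (1 - A (p.1, e p.2))⁻¹ - 1) (𝓝 (0, 0))
        (𝓝 ((1 - 0)⁻¹ - 1)) :=
      ((hAt.const_sub 1).inv₀ (by simp)).sub_const 1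
    simpa using h1
  have hne : ∀ᶠ p in 𝓝 ((0, 0) : ℂ × ℂ), 1 - A (p.1, e p.2) ≠ 0 := by
    have h1 : ContinuousAt (fun p : ℂ × ℂ => 1 - A (p.1, e p.2)) (0, 0) :=
      continuousAt_const.sub hAe.continuousAt
    refine h1.eventually_ne ?_
    simp [he0, hA00]
  -- the relation
  have hrel : ∀ᶠ p in 𝓝 ((0, 0) : ℂ × ℂ), p.1 ≠ 0 → ∀ s, s = p.1 * (1 + p.2) ^ (1 / k : ℂ) →
        p.2 * (s * deriv (fun w => w ^ (2 * k) * v w) s / k) / (1 + p.2) -
            (s ^ (2 * k) * v s - p.1 ^ (2 * k) * v p.1) =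
          m p * ((s * deriv (fun w => w ^ (2 * k) * v w) s / k) / (1 + p.2) -
            p.1 * deriv (fun w => w ^ (2 * k) * v w) p.1 / k) := by
    have hne2 : ∀ᶠ p in 𝓝 ((0, 0) : ℂ × ℂ), 1 + p.2 ≠ 0 := by
      have h1 : ContinuousAt (fun p : ℂ × ℂ => 1 + p.2) (0, 0) := by fun_prop
      exact h1.eventually_ne (by simp)
    filter_upwards [hmt.eventually hN, hne2] with p e1 e2 hp0 s hs'
    have hs1 : s = p.1 * (1 + e p.2) := by rw [hs', he, et_add]
    have e3 := e1 hp0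
    rw [← hs1] at e3
    unfold brN brD at e3
    rw [(hasDerivAt_pow k s).deriv, (hasDerivAt_pow k p.1).deriv] at e3
    have hek : (1 + e p.2) ^ k = 1 + p.2 := et_pow hk0 p.2
    have hs0 : s ≠ 0 := by
      rw [hs1]
      refine mul_ne_zero hp0 ?_
      intro h0
      rw [h0, zero_pow hk0] at hek
      exact e2 hek.symm
    exact rel_alg hk0 hs0 e2 (by rw [hs1, mul_pow, hek]) e3
  have hm0 := m_zero hk0 hv hv0 hma' hrel
  -- the involution
  have hinv : ∀ᶠ p in 𝓝 ((0, 0) : ℂ × ℂ), m (p.1, -a p) * (κ p.1 / k * m p - 1) = m p := by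
    filter_upwards [hmt.eventually hmA, hnegA.eventually (et_inv hk0)] with p e1 e2
    have h1 : -a p = (1 + -A (p.1, e p.2)) ^ k - 1 := by
      simp only [ha]
      rw [← sub_eq_add_neg]
      ring
    have h2 : e (-a p) = -A (p.1, e p.2) := by
      rw [h1]
      exact e2
    simp only [hm]
    rw [h2]
    have h3 : κ p.1 / k * (k * mw (p.1, e p.2)) = κ p.1 * mw (p.1, e p.2) := by
      field_simp
    rw [h3]
    linear_combination (k : ℂ) * e1
  have ha00 : a (0, 0) = 0 := by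
    simp only [ha]
    rw [he0, hA00]
    simp
  -- the kick on the axis
  have hn1 : ∀ᶠ ξ in 𝓝 (0:ℂ), 2 + c * ξ ≠ 0 := by
    have : ContinuousAt (fun ξ : ℂ => 2 + c * ξ) 0 := by fun_prop
    exact this.eventually_ne (by simp)
  have hn2 : ∀ᶠ ξ in 𝓝 (0:ℂ), 2 - (2 - c) * ξ ≠ 0 := by
    have : ContinuousAt (fun ξ : ℂ => 2 - (2 - c) * ξ) 0 := by fun_prop
    exact this.eventually_ne (by simp)
  have ha0 : ∀ᶠ ξ in 𝓝 (0:ℂ), a (0, ξ) = 2 * ξ / (2 + c * ξ) := by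
    have hnt : Tendsto (fun ξ : ℂ => -a (0, ξ)) (𝓝 0) (𝓝 0) := by
      have h1 : ContinuousAt (fun ξ : ℂ => -a (0, ξ)) 0 := by
        refine ContinuousAt.neg ?_
        refine ContinuousAt.comp (g := a) (f := fun ξ : ℂ => ((0, ξ) : ℂ × ℂ)) ?_ (by fun_prop)
        exact haa.continuousAt
      have h2 := h1.tendsto
      rwa [ha00, neg_zero] at h2
    filter_upwards [hm0, hnt.eventually hm0, axis hinv, hn1] with ξ e1 e2 e3 e4
    rw [e1, e2, hκ0] at e3
    have h3 : -(c * k) / (k : ℂ) = -c := by field_simp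
    rw [h3] at e3
    rw [eq_div_iff e4]
    linear_combination 4 * e3
  -- the invariance of the slope
  have hFI' : ∀ᶠ p in 𝓝 ((0, 0) : ℂ × ℂ),
        B (p.1 * (1 - a p) ^ (1 / k : ℂ), a p / (1 - a p)) *
          (1 - (a p + p.1 / k * Dx a p + (B p - p.2) * Dy a p)) =
        a p + p.1 / k * Dx a p + (B p - p.2) * Dy a p := by
    have hFIe : ∀ᶠ q in 𝓝 ((0, 0) : ℂ × ℂ), FIA A b q.1 q.2 := by
      filter_upwards [Metric.ball_mem_nhds ((0, 0) : ℂ × ℂ) hρ] with q hq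
      rw [mem_ball, Prod.dist_eq, dist_zero_right, dist_zero_right] at hq
      exact hFI q.1 q.2 (lt_of_le_of_lt (le_max_left _ _) hq)
        (lt_of_le_of_lt (le_max_right _ _) hq)
    have hsnd : Tendsto (fun p : ℂ × ℂ => p.2) (𝓝 (0, 0)) (𝓝 0) :=
      (continuous_snd.tendsto ((0, 0) : ℂ × ℂ))
    filter_upwards [hmt.eventually hFIe, hnegA.eventually (pow_cpow hk0),
      hinvA.eventually (et_inv hk0), hne, hmt.eventually hA.eventually_analyticAt,
      haa.eventually_analyticAt, hsnd.eventually (et_deriv hk0)] with p e1 e2 e3 e4 e5 e6 e7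
    obtain ⟨w, ξ⟩ := p
    simp only at e1 e2 e3 e4 e5 e7
    obtain ⟨e7a, e7b, e7c⟩ := e7
    -- the derivatives
    have hDx : Dx a (w, ξ) = k * (1 - A (w, e ξ)) ^ (k - 1) * Dx A (w, e ξ) := by
      rw [Pool.Agent.MP_ae5b4e_an_ND.Dx_eq_deriv e6.differentiableAt]
      exact (dx_a e5.differentiableAt).deriv
    have hDy : Dy a (w, ξ) = k * (1 - A (w, e ξ)) ^ (k - 1) *
        (deriv e ξ * Dy A (w, e ξ)) := by
      rw [Pool.Agent.MP_ae5b4e_an_ND.Dy_eq_deriv e6.differentiableAt]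
      exact (dy_a e5.differentiableAt e7a.differentiableAt.hasDerivAt).deriv
    have hek : (1 + e ξ) ^ k = 1 + ξ := et_pow hk0 ξ
    have hkk : k - 1 + 1 = k := by omega
    have hP1 : (1 - A (w, e ξ)) ^ k = (1 - A (w, e ξ)) ^ (k - 1) * (1 - A (w, e ξ)) := by
      rw [← pow_succ, hkk]
    have hQ1 : (1 + e ξ) ^ (k - 1) * (1 + e ξ) = 1 + ξ := by
      rw [← pow_succ, hkk, hek]
    have h1a : 1 - a (w, ξ) = (1 - A (w, e ξ)) ^ k := by
      simp only [ha]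
      ring
    have hroot : (1 - a (w, ξ)) ^ (1 / k : ℂ) = 1 - A (w, e ξ) := by
      rw [h1a]
      rw [← sub_eq_add_neg] at e2
      exact e2
    have hquot : a (w, ξ) / (1 - a (w, ξ)) = (1 + ((1 - A (w, e ξ))⁻¹ - 1)) ^ k - 1 := by
      rw [h1a]
      simp only [ha]
      have : (1 - A (w, e ξ)) ^ k ≠ 0 := pow_ne_zero _ e4
      rw [add_sub_cancel, inv_pow]
      field_simp
    have heq : e (a (w, ξ) / (1 - a (w, ξ))) = (1 - A (w, e ξ))⁻¹ - 1 := by
      rw [hquot]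
      exact e3
    have hfr : (1 - A (w, e ξ))⁻¹ - 1 = A (w, e ξ) / (1 - A (w, e ξ)) := by
      field_simp
      ring
    have hBT : B (w * (1 - a (w, ξ)) ^ (1 / k : ℂ), a (w, ξ) / (1 - a (w, ξ))) =
        ((1 - A (w, e ξ)) ^ (k - 1))⁻¹ *
          (1 + bs b (w * (1 - A (w, e ξ))) (A (w, e ξ) / (1 - A (w, e ξ)))) - 1 := by
      simp only [hB]
      rw [heq, hroot, add_sub_cancel, inv_pow, hfr]
    have hBp : B (w, ξ) - ξ = (1 + e ξ) ^ (k - 1) * (1 + bs b w (e ξ)) - 1 - ξ := rfl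
    have hap : a (w, ξ) = 1 - (1 - A (w, e ξ)) ^ (k - 1) * (1 - A (w, e ξ)) := by
      rw [← hP1]
    change B (w * (1 - a (w, ξ)) ^ (1 / k : ℂ), a (w, ξ) / (1 - a (w, ξ))) *
          (1 - (a (w, ξ) + w / k * Dx a (w, ξ) + (B (w, ξ) - ξ) * Dy a (w, ξ))) =
        a (w, ξ) + w / k * Dx a (w, ξ) + (B (w, ξ) - ξ) * Dy a (w, ξ)
    rw [hBT, hDx, hDy, hBp, hap]
    exact fi_alg hkc (pow_ne_zero _ e4) rfl hQ1 e7c e1
  refine ⟨m, a, B, hma', haa, hBa, hm0, ha0, ?_, hinv, hFI', hrel, ?_⟩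
  · -- the slope on the axis
    have hB0a : AnalyticAt ℂ (fun ξ : ℂ => B (0, ξ)) 0 := by
      have h1 : AnalyticAt ℂ (fun ξ : ℂ => ((0, ξ) : ℂ × ℂ)) 0 :=
        analyticAt_const.prod analyticAt_id
      exact hBa.comp_of_eq h1 rfl
    refine slope_axis hc hB0a ?_ ?_ ?_
    · simp only [hB]
      rw [he0, bs_zero hs]
      simp
    · -- the derivative
      have hG : AnalyticAt ℂ (fun η : ℂ => A (0, η)) 0 := by
        have h1 : AnalyticAt ℂ (fun ξ : ℂ => ((0, ξ) : ℂ × ℂ)) 0 :=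
          analyticAt_const.prod analyticAt_id
        exact hA.comp_of_eq h1 rfl
      have hXt : Tendsto (fun η : ℂ => (1 + η) ^ k - 1) (𝓝 0) (𝓝 0) := by
        have h1 : ContinuousAt (fun η : ℂ => (1 + η) ^ k - 1) 0 := by fun_prop
        simpa using h1.tendsto
      have hax : ∀ᶠ η in 𝓝 (0:ℂ), (1 - A (0, η)) ^ k * (2 + c * ((1 + η) ^ k - 1)) =
          2 + (c - 2) * ((1 + η) ^ k - 1) := by
        filter_upwards [hXt.eventually ha0, hXt.eventually hn1, et_inv hk0] with η e1 e2 e3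
        simp only [ha] at e1
        rw [he, e3] at e1
        have e4 : (1 - A (0, η)) ^ k = 1 - 2 * ((1 + η) ^ k - 1) / (2 + c * ((1 + η) ^ k - 1)) := by
          linear_combination -e1
        rw [e4, sub_mul, one_mul, div_mul_cancel₀ _ e2]
        ring
      have hG2 := second_deriv_met hk hG hA00 (hp.A_der 0 (by simpa using hδ)) hax
      have hb1 : b 1 0 = -((k : ℂ) - 1) + c * k / 2 := by
        rw [hs.b_one 0 (by simpa using hs.place.δ_pos)]
        unfold Pool.Agent.MP_ae5b4e_an_ND.cf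
        rw [iteratedDeriv_succ, iteratedDeriv_one, hG2]
        norm_num
        ring
      have hed : HasDerivAt e (deriv e 0) 0 := hea.differentiableAt.hasDerivAt
      have hed1 : deriv e 0 * k = 1 := by
        have h1 := (et_deriv hk0).self_of_nhds.2.2
        rw [← he, he0] at h1
        simpa using h1
      have hbd : HasDerivAt (fun ξ : ℂ => bs b 0 (e ξ)) (b 1 0 * deriv e 0) 0 := by
        refine HasDerivAt.comp (h₂ := fun η => bs b 0 η) (h := e) (0:ℂ) ?_ hed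
        rw [he0]
        exact bs_deriv hs
      have hpw : HasDerivAt (fun ξ : ℂ => (1 + e ξ) ^ (k - 1))
          (((k - 1 : ℕ) : ℂ) * (1 + e 0) ^ (k - 1 - 1) * deriv e 0) 0 :=
        (hed.const_add 1).fun_pow (k - 1)
      have hk1 : ((k - 1 : ℕ) : ℂ) = k - 1 := by
        rw [Nat.cast_sub (by omega), Nat.cast_one]
      have hBd : HasDerivAt (fun ξ : ℂ => B (0, ξ))
          (((k - 1 : ℕ) : ℂ) * (1 + e 0) ^ (k - 1 - 1) * deriv e 0 * (1 + bs b 0 (e 0)) +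
            (1 + e 0) ^ (k - 1) * (b 1 0 * deriv e 0)) 0 :=
        (hpw.mul (hbd.const_add 1)).sub_const 1
      rw [hBd.deriv, he0, bs_zero hs, hk1, hb1]
      simp only [add_zero, one_pow, mul_one, one_mul]
      linear_combination c / 2 * hed1
    · -- the functional equation
      have hDy1 : ∀ᶠ ξ in 𝓝 (0:ℂ), Dy a (0, ξ) = 4 / (2 + c * ξ) ^ 2 := by
        filter_upwards [ha0.eventually_nhds, axis haa.eventually_analyticAt, hn1]
          with ξ h1 h2 h5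
        rw [Pool.Agent.MP_ae5b4e_an_ND.Dy_eq_deriv h2.differentiableAt]
        have h3 := Filter.EventuallyEq.deriv_eq (f₁ := fun t => a (0, t))
          (f := fun t => 2 * t / (2 + c * t)) h1
        rw [h3]
        have h4 : HasDerivAt (fun t : ℂ => 2 * t / (2 + c * t))
            ((2 * 1 * (2 + c * ξ) - 2 * ξ * (c * 1)) / (2 + c * ξ) ^ 2) ξ :=
          ((hasDerivAt_id ξ).const_mul 2).div (((hasDerivAt_id ξ).const_mul c).const_add 2) h5
        rw [h4.deriv]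
        congr 1
        ring
      filter_upwards [ha0, hDy1, axis hFI', hn1, hn2] with ξ h1 h2 h3 h5 h6
      rw [h1, h2] at h3
      have h4 : 2 * ξ / (2 + c * ξ) / (1 - 2 * ξ / (2 + c * ξ)) =
          2 * ξ / (2 - (2 - c) * ξ) := by
        have h7 : 1 - 2 * ξ / (2 + c * ξ) = (2 - (2 - c) * ξ) / (2 + c * ξ) := by
          rw [eq_div_iff h5, sub_mul, one_mul, div_mul_cancel₀ _ h5]
          ring
        rw [h7, div_div_div_cancel_right₀ h5]
      rw [h4] at h3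
      simp only [zero_mul, zero_div, add_zero] at h3
      linear_combination h3
  · -- the rotation
    intro om hom l α hα h
    set S : ℂ × ℂ → ℂ := fun p => ∑ i ∈ Finset.range k,
      (1 - A (om * p.1, p.2)) ^ i * (1 - A p) ^ (k - 1 - i) with hS
    have hAo : AnalyticAt ℂ (fun p : ℂ × ℂ => A (om * p.1, p.2)) (0, 0) := by
      have h1 : AnalyticAt ℂ (fun p : ℂ × ℂ => ((om * p.1, p.2) : ℂ × ℂ)) (0, 0) :=
        (analyticAt_const.mul analyticAt_fst).prod analyticAt_snd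
      exact hA.comp_of_eq h1 (by simp)
    have hSa : AnalyticAt ℂ S (0, 0) := by
      refine Finset.analyticAt_fun_sum _ fun i _ => ?_
      exact ((analyticAt_const.sub hAo).pow i).mul ((analyticAt_const.sub hA).pow _)
    have hS0 : S (0, 0) = k := by
      simp only [hS]
      rw [mul_zero, hA00]
      simp
    have hXa : AnalyticAt ℂ (fun p : ℂ × ℂ => ((p.1, (1 + p.2) ^ k - 1) : ℂ × ℂ)) (0, 0) :=
      analyticAt_fst.prod (((analyticAt_const.add analyticAt_snd).pow k).sub analyticAt_const)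
    have hXt : Tendsto (fun p : ℂ × ℂ => ((p.1, (1 + p.2) ^ k - 1) : ℂ × ℂ)) (𝓝 (0, 0))
        (𝓝 (0, 0)) := by
      have h1 := hXa.continuousAt.tendsto
      simpa using h1
    have hαa : AnalyticAt ℂ (fun p : ℂ × ℂ => α (p.1, (1 + p.2) ^ k - 1) / S p) (0, 0) := by
      refine AnalyticAt.div (hα.comp_of_eq hXa (by simp)) hSa ?_
      rw [hS0]
      exact hkc
    have hsnd : Tendsto (fun p : ℂ × ℂ => p.2) (𝓝 (0, 0)) (𝓝 0) :=
      (continuous_snd.tendsto ((0, 0) : ℂ × ℂ))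
    have hAd : ∀ᶠ p in 𝓝 ((0, 0) : ℂ × ℂ), A (om * p.1, p.2) - A p =
        p.1 ^ l * (α (p.1, (1 + p.2) ^ k - 1) / S p) := by
      filter_upwards [hXt.eventually h, hsnd.eventually (et_inv hk0),
        hSa.continuousAt.eventually_ne (by rw [hS0]; exact hkc)] with p e1 e2 e3
      simp only [ha] at e1
      rw [he, e2] at e1
      have e4 : S p * ((1 - A (om * p.1, p.2)) - (1 - A p)) =
          (1 - A (om * p.1, p.2)) ^ k - (1 - A p) ^ k :=
        (Commute.all _ _).geom_sum₂_mul k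
      rw [← mul_div_assoc, eq_div_iff e3]
      linear_combination e1 - e4
    obtain ⟨β, hβ, hβe⟩ := slope_univ hs hom hαa hAd
    refine ⟨fun p => (1 + e p.2) ^ (k - 1) * β (p.1, e p.2), ?_, ?_⟩
    · have h2 : AnalyticAt ℂ (fun p : ℂ × ℂ => e p.2) (0, 0) :=
        hea.comp_of_eq analyticAt_snd rfl
      exact ((analyticAt_const.add h2).pow _).mul (hβ.comp_of_eq hma (by simp [he0]))
    · filter_upwards [hmt.eventually hβe] with p e1
      simp only [hB]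
      linear_combination (1 + e p.2) ^ (k - 1) * e1

end Pool.Agent.MP_ae5b4e_an_MET
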