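import Pool.Agent.Lib.MP_ae5b4e_an_ALG.DefsB

/-!
# MP_ae5b4e_an, project MET, part R: the difference equation of a ramified place (order `k`)
-/

set_option autoImplicit false

noncomputable section

namespace Pool.Agent.MP_ae5b4e_an_MET

open Filter Topology Set Metric Complex
open scoped Real
open Pool.Agent.MP_ae5b4e_an_ALG (EE)

section RE

/-- `f` agrees, in the upper half plane near `0`, with a function analytic at `0` -/
private def RamEqM.Ext (f : ℂ → ℂ) : Prop :=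
  ∃ h : ℂ → ℂ, AnalyticAt ℂ h 0 ∧ ∀ᶠ τ in 𝓝[{t : ℂ | 0 < t.im}] (0:ℂ), f τ = h τ

private theorem RamEqM.Ext.add {f g : ℂ → ℂ} (hf : RamEqM.Ext f) (hg : RamEqM.Ext g) :
    RamEqM.Ext fun τ => f τ + g τ := by
  obtain ⟨a, ha, ha'⟩ := hf
  obtain ⟨b, hb, hb'⟩ := hg
  refine ⟨fun τ => a τ + b τ, ha.fun_add hb, ?_⟩
  filter_upwards [ha', hb'] with τ h1 h2
  rw [h1, h2]

private theorem RamEqM.Ext.sub {f g : ℂ → ℂ} (hf : RamEqM.Ext f) (hg : RamEqM.Ext g) :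
    RamEqM.Ext fun τ => f τ - g τ := by
  obtain ⟨a, ha, ha'⟩ := hf
  obtain ⟨b, hb, hb'⟩ := hg
  refine ⟨fun τ => a τ - b τ, ha.fun_sub hb, ?_⟩
  filter_upwards [ha', hb'] with τ h1 h2
  rw [h1, h2]

private theorem RamEqM.Ext.mul {f g : ℂ → ℂ} (hf : RamEqM.Ext f) (hg : RamEqM.Ext g) :
    RamEqM.Ext fun τ => f τ * g τ := by
  obtain ⟨a, ha, ha'⟩ := hf
  obtain ⟨b, hb, hb'⟩ := hg
  refine ⟨fun τ => a τ * b τ, ha.fun_mul hb, ?_⟩
  filter_upwards [ha', hb'] with τ h1 h2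
  rw [h1, h2]

private theorem RamEqM.Ext.of_analytic {f : ℂ → ℂ} (hf : AnalyticAt ℂ f 0) : RamEqM.Ext f :=
  ⟨f, hf, Eventually.of_forall fun _ => rfl⟩

private theorem RamEqM.Ext.const_mul {f : ℂ → ℂ} (c : ℂ) (hf : RamEqM.Ext f) :
    RamEqM.Ext fun τ => c * f τ :=
  RamEqM.Ext.mul (RamEqM.Ext.of_analytic analyticAt_const) hf

private theorem RamEqM.Ext.congr {f g : ℂ → ℂ} (hf : RamEqM.Ext f)
    (h : ∀ᶠ τ in 𝓝[{t : ℂ | 0 < t.im}] (0:ℂ), g τ = f τ) : RamEqM.Ext g := by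
  obtain ⟨a, ha, ha'⟩ := hf
  refine ⟨a, ha, ?_⟩
  filter_upwards [ha', h] with τ h1 h2
  rw [h2, h1]

private theorem RamEqM.Ext.sum {n : ℕ} {f : ℕ → ℂ → ℂ} (hf : ∀ k < n, RamEqM.Ext (f k)) :
    RamEqM.Ext fun τ => ∑ k ∈ Finset.range n, f k τ := by
  induction n with
  | zero =>
    simp only [Finset.range_zero, Finset.sum_empty]
    exact RamEqM.Ext.of_analytic analyticAt_const
  | succ n ih =>
    simp only [Finset.sum_range_succ]
    exact RamEqM.Ext.add (ih fun k hk => hf k (by omega)) (hf n (by omega))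

private theorem RamEqM.Ext.deriv {f : ℂ → ℂ} (hf : RamEqM.Ext f) :
    RamEqM.Ext (_root_.deriv f) := by
  obtain ⟨h, hh, hev⟩ := hf
  refine ⟨_root_.deriv h, hh.deriv, ?_⟩
  rw [eventually_nhdsWithin_iff] at hev ⊢
  filter_upwards [hev.eventually_nhds] with τ h1 h2
  apply Filter.EventuallyEq.deriv_eq
  have ho : IsOpen {t : ℂ | 0 < t.im} := isOpen_lt continuous_const continuous_im
  filter_upwards [h1, ho.mem_nhds h2] with t h3 h4
  exact h3 h4

private theorem RamEqM.ne_of_im {t : ℂ} (ht : 0 < t.im) : t ≠ 0 := by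
  rintro rfl
  simp at ht

/-- powers of `1 + 2 / t`, `t` in the upper half plane -/
private theorem RamEqM.cpow_add_div {t : ℂ} (ht : 0 < t.im) (c : ℂ) :
    (1 + 2 / t) ^ c * t ^ c = (t + 2) ^ c := by
  have ht0 : t ≠ 0 := RamEqM.ne_of_im ht
  have him : (1 + 2 / t).im < 0 := by
    have h0 : (1 + 2 / t).im = 2 * (-t.im / normSq t) := by
      rw [div_eq_mul_inv, add_im, one_im, mul_im, inv_im, inv_re]
      simp
    rw [h0]
    have : 0 < normSq t := normSq_pos.2 ht0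
    have h1 : -t.im / normSq t < 0 := div_neg_of_neg_of_pos (by linarith) this
    linarith
  have h1 : 1 + 2 / t ≠ 0 := by
    intro h
    rw [h] at him
    simp at him
  have hprod : (1 + 2 / t) * t = t + 2 := by
    field_simp
  have ht1 : t + 2 ≠ 0 := by
    intro h
    have := congrArg Complex.im h
    simp at this
    linarith
  have hlog : Complex.log (t + 2) = Complex.log (1 + 2 / t) + Complex.log t := by
    rw [← hprod]
    apply Complex.log_mul h1 ht0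
    have h2 := Complex.neg_pi_lt_arg (1 + 2 / t)
    have h3 : (1 + 2 / t).arg < 0 := Complex.arg_neg_iff.2 him
    have h4 : 0 ≤ t.arg := Complex.arg_nonneg_iff.2 ht.le
    have h5 := Complex.arg_le_pi t
    constructor <;> linarith
  rw [cpow_def_of_ne_zero h1, cpow_def_of_ne_zero ht0, cpow_def_of_ne_zero ht1, hlog,
    ← Complex.exp_add]
  congr 1
  ring

/-- powers of `1 - 2 / (t + 1)`, `t` in the upper half plane -/
private theorem RamEqM.cpow_sub_div {t : ℂ} (ht : 0 < t.im) (c : ℂ) :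
    (1 - 2 / (t + 1)) ^ c * (t + 1) ^ c = (t - 1) ^ c := by
  have hs : 0 < (t - 1).im := by simpa using ht
  have hu : 0 < (t + 1).im := by simpa using ht
  have ht0 : t + 1 ≠ 0 := RamEqM.ne_of_im hu
  have hs0 : t - 1 ≠ 0 := RamEqM.ne_of_im hs
  have h := RamEqM.cpow_add_div hs c
  have h1 : 1 - 2 / (t + 1) = (1 + 2 / (t - 1))⁻¹ := by
    have : 1 + 2 / (t - 1) = (t + 1) / (t - 1) := by
      field_simp
      ring
    rw [this, inv_div]
    field_simp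
    ring
  have him : (1 + 2 / (t - 1)).im < 0 := by
    have h0 : (1 + 2 / (t - 1)).im = 2 * (-(t - 1).im / normSq (t - 1)) := by
      rw [div_eq_mul_inv, add_im, one_im, mul_im, inv_im, inv_re]
      simp
    rw [h0]
    have : 0 < normSq (t - 1) := normSq_pos.2 hs0
    have h1 : -(t - 1).im / normSq (t - 1) < 0 := div_neg_of_neg_of_pos (by linarith) this
    linarith
  have hne : 1 + 2 / (t - 1) ≠ 0 := by
    intro h
    rw [h] at him
    simp at him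
  have harg : (1 + 2 / (t - 1)).arg ≠ π := by
    have h3 : (1 + 2 / (t - 1)).arg < 0 := Complex.arg_neg_iff.2 him
    have := Real.pi_pos
    intro h
    linarith
  have hpow : (1 + 2 / (t - 1)) ^ c ≠ 0 := by
    rw [cpow_def_of_ne_zero hne]
    exact Complex.exp_ne_zero _
  have h2 : t - 1 + 2 = t + 1 := by ring
  rw [h2] at h
  rw [h1, Complex.inv_cpow _ _ harg, ← h, ← mul_assoc, inv_mul_cancel₀ hpow, one_mul]

/-- powers of a number of the upper half plane by those of its opposite -/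
private theorem RamEqM.cpow_neg_im {t : ℂ} (ht : 0 < t.im) (c : ℂ) :
    t ^ c = Complex.exp (π * I * c) * (-t) ^ c := by
  have hne : t ≠ 0 := RamEqM.ne_of_im ht
  have hlog : Complex.log t = Complex.log (-t) + π * I := by
    unfold Complex.log
    rw [Complex.arg_neg_eq_arg_sub_pi_of_im_pos ht, norm_neg]
    push_cast
    ring
  rw [cpow_def_of_ne_zero hne, cpow_def_of_ne_zero (neg_ne_zero.2 hne), hlog,
    ← Complex.exp_add]
  congr 1
  ring

/-- `(i + τ) ^ c` for a nonzero integer `i` -/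
private theorem RamEqM.ext_shift {i : ℤ} (hi : i ≠ 0) (c : ℂ) :
    RamEqM.Ext fun τ => ((i : ℂ) + τ) ^ c := by
  rcases lt_or_gt_of_ne hi with h | h
  · refine ⟨fun τ => Complex.exp (π * I * c) * (-((i : ℂ) + τ)) ^ c, ?_, ?_⟩
    · refine analyticAt_const.fun_mul (AnalyticAt.cpow (by fun_prop) analyticAt_const ?_)
      left
      simp only [add_zero, neg_re, intCast_re]
      have : (i : ℝ) < 0 := by exact_mod_cast h
      linarith
    · filter_upwards [self_mem_nhdsWithin] with τ hτ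
      have hτ' : 0 < τ.im := hτ
      have him : 0 < ((i : ℂ) + τ).im := by
        rw [add_im, intCast_im, zero_add]
        exact hτ'
      exact RamEqM.cpow_neg_im him c
  · refine RamEqM.Ext.of_analytic (AnalyticAt.cpow (by fun_prop) analyticAt_const ?_)
    left
    simp only [add_zero, intCast_re]
    exact_mod_cast h

/-- a power with a real exponent which is not a natural number is not extendable -/
private theorem RamEqM.not_ext {la : ℝ} (hla : ∀ n : ℕ, la ≠ n) :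
    ¬ RamEqM.Ext fun τ => τ ^ (la : ℂ) := by
  rintro ⟨h, hh, hev⟩
  -- along the imaginary axis
  have hI : Tendsto (fun ε : ℝ => I * ε) (𝓝[>] 0) (𝓝[{t : ℂ | 0 < t.im}] (0:ℂ)) := by
    apply tendsto_nhdsWithin_of_tendsto_nhds_of_eventually_within
    · have : Continuous fun ε : ℝ => I * (ε : ℂ) := by fun_prop
      have h1 := this.tendsto 0
      simp only [ofReal_zero, mul_zero] at h1
      exact h1.mono_left nhdsWithin_le_nhds
    · filter_upwards [self_mem_nhdsWithin] with ε hε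
      simpa using hε
  have hI' : Tendsto (fun ε : ℝ => I * ε) (𝓝[>] 0) (𝓝 (0:ℂ)) := hI.mono_right nhdsWithin_le_nhds
  have hne : ¬ ∀ᶠ τ in 𝓝 (0:ℂ), h τ = 0 := by
    intro h0
    obtain ⟨ε, hε1, hε2, hε3⟩ :=
      ((hI.eventually hev).and ((hI'.eventually h0).and self_mem_nhdsWithin)).exists
    rw [hε2] at hε1
    have hε4 : (0:ℝ) < ε := hε3
    have h5 : I * (ε : ℂ) ≠ 0 := mul_ne_zero I_ne_zero (by exact_mod_cast hε4.ne')
    have h6 : (I * (ε : ℂ)) ^ (la : ℂ) = 0 := hε1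
    rw [cpow_def_of_ne_zero h5] at h6
    exact Complex.exp_ne_zero _ h6
  obtain ⟨n, g, hg, hg0, hgh⟩ := hh.exists_eventuallyEq_pow_smul_nonzero_iff.2 hne
  have h1 : ∀ᶠ ε : ℝ in 𝓝[>] 0, ε ^ (la - n) = ‖g (I * ε)‖ := by
    filter_upwards [hI.eventually hev, hI'.eventually hgh, self_mem_nhdsWithin] with ε e1 e2 e3
    have e4 : (0:ℝ) < ε := e3
    rw [e2, sub_zero, smul_eq_mul] at e1
    have e6 : ‖I * (ε : ℂ)‖ = ε := by
      rw [norm_mul, norm_I, one_mul, norm_real, Real.norm_eq_abs, abs_of_pos e4]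
    have e5 : ‖(I * (ε : ℂ)) ^ (la : ℂ)‖ = ‖(I * (ε : ℂ)) ^ n * g (I * ε)‖ := congrArg norm e1
    rw [Complex.norm_cpow_real, e6, norm_mul, norm_pow, e6] at e5
    have e7 : ε ^ n ≠ 0 := pow_ne_zero _ e4.ne'
    rw [Real.rpow_sub e4, e5, Real.rpow_natCast]
    field_simp
  have h2 : Tendsto (fun ε : ℝ => ‖g (I * ε)‖) (𝓝[>] 0) (𝓝 ‖g 0‖) :=
    (hg.continuousAt.tendsto.comp hI').norm
  have h3 : Tendsto (fun ε : ℝ => ε ^ (la - n)) (𝓝[>] 0) (𝓝 ‖g 0‖) :=
    h2.congr' (h1.mono fun ε hε => hε.symm)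
  have h4 : ‖g 0‖ ≠ 0 := norm_ne_zero_iff.2 hg0
  rcases lt_trichotomy (la - n) 0 with h5 | h5 | h5
  · exact not_tendsto_nhds_of_tendsto_atTop (tendsto_rpow_neg_nhdsGT_zero h5) _ h3
  · exact hla n (by linarith)
  · have h6 : Tendsto (fun ε : ℝ => ε ^ (la - n)) (𝓝[>] 0) (𝓝 0) := by
      have h7 : ContinuousAt (fun ε : ℝ => ε ^ (la - n)) 0 :=
        Real.continuousAt_rpow_const 0 _ (Or.inr h5.le)
      have h8 := h7.tendsto
      rw [Real.zero_rpow h5.ne'] at h8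
      exact h8.mono_left nhdsWithin_le_nhds
    exact h4 (tendsto_nhds_unique h3 h6)

/-! ### the functions of the variable `t = 2 / ξ` -/

/-- `(t (t + 1)) ^ c` -/
private def RamEqM.P (c t : ℂ) : ℂ := t ^ c * (t + 1) ^ c

/-- `E` -/
private def RamEqM.E (m t : ℂ) : ℂ :=
  (2 + m) * (RamEqM.P (1 + m) (t + 1) + RamEqM.P (1 + m) t) -
    (RamEqM.P (2 + m) (t + 1) - RamEqM.P (2 + m) t) / (t + 1)

/-- `e = E / N ^ 2` -/
private def RamEqM.e (m t : ℂ) : ℂ := RamEqM.E m t / (4 * (t + 1) ^ 2)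

/-- `H = S' (e (t - 1) + e t)` -/
private def RamEqM.H (m t : ℂ) : ℂ := (2 * t + 1) * (RamEqM.e m (t - 1) + RamEqM.e m t)

/-- the left hand side -/
private def RamEqM.G (m : ℂ) (γ : ℂ → ℂ) (t : ℂ) : ℂ :=
  (2 * t + 1) ^ 2 / (4 * (t + 1) ^ 2) * RamEqM.P m t * γ (2 / t)

private theorem RamEqM.P_one {t : ℂ} (ht : 0 < t.im) (m : ℂ) :
    RamEqM.P (1 + m) t = t * (t + 1) * RamEqM.P m t := by
  have ht0 : t ≠ 0 := RamEqM.ne_of_im ht
  have ht1 : t + 1 ≠ 0 := RamEqM.ne_of_im (by simpa using ht)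
  unfold RamEqM.P
  rw [Complex.cpow_add _ _ ht0, Complex.cpow_add _ _ ht1, cpow_one, cpow_one]
  ring

private theorem RamEqM.P_two {t : ℂ} (ht : 0 < t.im) (m : ℂ) :
    RamEqM.P (2 + m) t = t * (t + 1) * RamEqM.P (1 + m) t := by
  have h : (2 : ℂ) + m = 1 + (1 + m) := by ring
  rw [h, RamEqM.P_one ht]

private theorem RamEqM.P_ne {t : ℂ} (ht : 0 < t.im) (c : ℂ) : RamEqM.P c t ≠ 0 := by
  have ht0 : t ≠ 0 := RamEqM.ne_of_im ht
  have ht1 : t + 1 ≠ 0 := RamEqM.ne_of_im (by simpa using ht)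
  unfold RamEqM.P
  rw [cpow_def_of_ne_zero ht0, cpow_def_of_ne_zero ht1]
  exact mul_ne_zero (Complex.exp_ne_zero _) (Complex.exp_ne_zero _)

private theorem RamEqM.P_add {t : ℂ} (ht : 0 < t.im) (c : ℂ) :
    RamEqM.P c t * (1 + 2 / t) ^ c = RamEqM.P c (t + 1) := by
  have h := RamEqM.cpow_add_div ht c
  have h1 : t + 1 + 1 = t + 2 := by ring
  unfold RamEqM.P
  rw [h1, ← h]
  ring

private theorem RamEqM.P_sub {t : ℂ} (ht : 0 < t.im) (c : ℂ) :
    RamEqM.P c t * (1 - 2 / (t + 1)) ^ c = RamEqM.P c (t - 1) := by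
  have h := RamEqM.cpow_sub_div ht c
  have h1 : t - 1 + 1 = t := by ring
  unfold RamEqM.P
  rw [h1, ← h]
  ring

private theorem RamEqM.hasDerivAt_P {t : ℂ} (ht : 0 < t.im) (c : ℂ) :
    HasDerivAt (RamEqM.P c) (c * (2 * t + 1) / (t * (t + 1)) * RamEqM.P c t) t := by
  have ht0 : t ≠ 0 := RamEqM.ne_of_im ht
  have hu : 0 < (t + 1).im := by simpa using ht
  have ht1 : t + 1 ≠ 0 := RamEqM.ne_of_im hu
  have h1 : HasDerivAt (fun t : ℂ => t ^ c) (c * t ^ (c - 1) * 1) t :=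
    (hasDerivAt_id t).cpow_const (Or.inr ht.ne')
  have h2 : HasDerivAt (fun t : ℂ => (t + 1) ^ c) (c * (t + 1) ^ (c - 1) * 1) t :=
    ((hasDerivAt_id t).add_const 1).cpow_const (Or.inr hu.ne')
  have h3 := h1.mul h2
  refine h3.congr_deriv ?_
  unfold RamEqM.P
  rw [Complex.cpow_sub _ _ ht0, Complex.cpow_sub _ _ ht1, cpow_one, cpow_one]
  field_simp
  ring

private theorem RamEqM.EE_add {t : ℂ} (ht : 0 < t.im) (mu : ℝ) :
    RamEqM.P (1 + mu) t * EE (2 + mu) (2 / t) = RamEqM.E mu t := by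
  have ht0 : t ≠ 0 := RamEqM.ne_of_im ht
  have hu : 0 < (t + 1).im := by simpa using ht
  have ht1 : t + 1 ≠ 0 := RamEqM.ne_of_im hu
  have e1 := RamEqM.P_add ht (1 + mu)
  have e2 := RamEqM.P_add ht (2 + mu)
  have e3 := RamEqM.P_two ht mu
  have c1 : ((2 + mu - 1 : ℝ) : ℂ) = 1 + mu := by
    push_cast
    ring
  have c2 : ((2 + mu : ℝ) : ℂ) = 2 + mu := by push_cast; ring
  unfold EE RamEqM.E
  rw [← e1, ← e2, e3, c1, c2]
  generalize (1 + 2 / t) ^ (1 + (mu : ℂ)) = x1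
  generalize (1 + 2 / t) ^ (2 + (mu : ℂ)) = x2
  field_simp

private theorem RamEqM.EE_sub {t : ℂ} (ht : 0 < t.im) (mu : ℝ) :
    RamEqM.P (1 + mu) t * EE (2 + mu) (-(2 / (t + 1))) = RamEqM.E mu (t - 1) := by
  have ht0 : t ≠ 0 := RamEqM.ne_of_im ht
  have hu : 0 < (t + 1).im := by simpa using ht
  have hs : 0 < (t - 1).im := by simpa using ht
  have ht1 : t + 1 ≠ 0 := RamEqM.ne_of_im hu
  have e1 := RamEqM.P_sub ht (1 + mu)
  have e2 := RamEqM.P_sub ht (2 + mu)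
  have e3 := RamEqM.P_two ht mu
  have c1 : ((2 + mu - 1 : ℝ) : ℂ) = 1 + mu := by
    push_cast
    ring
  have c2 : ((2 + mu : ℝ) : ℂ) = 2 + mu := by push_cast; ring
  have c3 : t - 1 + 1 = t := by ring
  have c4 : 1 + -(2 / (t + 1)) = 1 - 2 / (t + 1) := by ring
  unfold EE RamEqM.E
  rw [c3, c4, ← e1, ← e2, e3, c1, c2]
  generalize (1 - 2 / (t + 1)) ^ (1 + (mu : ℂ)) = x1
  generalize (1 - 2 / (t + 1)) ^ (2 + (mu : ℂ)) = x2
  field_simp
  ring

/-- `φ α (2 / t)` -/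
private theorem RamEqM.W_eq {t : ℂ} (ht : 0 < t.im) {mu : ℝ} {C a : ℂ}
    (h : a = C * (EE (2 + mu) (-(2 * (2 / t) / (2 + 2 / t))) +
      4 / (2 + 2 / t) ^ 2 * EE (2 + mu) (2 / t))) :
    RamEqM.P (1 + mu) t * a = 4 * C * t ^ 2 * (RamEqM.e mu (t - 1) + RamEqM.e mu t) := by
  have ht0 : t ≠ 0 := RamEqM.ne_of_im ht
  have hu : 0 < (t + 1).im := by simpa using ht
  have ht1 : t + 1 ≠ 0 := RamEqM.ne_of_im hu
  have c1 : 2 * (2 / t) / (2 + 2 / t) = 2 / (t + 1) := by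
    have : 2 + 2 / t = 2 * (t + 1) / t := by field_simp
    rw [this]
    field_simp
  have c2 : 4 / (2 + 2 / t) ^ 2 = t ^ 2 / (t + 1) ^ 2 := by
    have : 2 + 2 / t = 2 * (t + 1) / t := by field_simp
    rw [this]
    field_simp
    norm_num
  have c3 : t - 1 + 1 = t := by ring
  rw [h, c1, c2]
  unfold RamEqM.e
  rw [← RamEqM.EE_add ht, ← RamEqM.EE_sub ht, c3]
  field_simp

private theorem RamEqM.diff_P {t : ℂ} (ht : 0 < t.im) (c : ℂ) :
    DifferentiableAt ℂ (RamEqM.P c) t := (RamEqM.hasDerivAt_P ht c).differentiableAt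

private theorem RamEqM.diff_E {t : ℂ} (ht : 0 < t.im) (m : ℂ) :
    DifferentiableAt ℂ (RamEqM.E m) t := by
  have hu : 0 < (t + 1).im := by simpa using ht
  have ht1 : t + 1 ≠ 0 := RamEqM.ne_of_im hu
  have h1 : ∀ c, DifferentiableAt ℂ (fun t => RamEqM.P c (t + 1)) t := fun c =>
    (RamEqM.diff_P hu c).comp t (differentiableAt_id.add_const 1)
  have h2 : ∀ c, DifferentiableAt ℂ (fun t => RamEqM.P c t) t := fun c => RamEqM.diff_P ht c
  unfold RamEqM.E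
  exact (((h1 _).fun_add (h2 _)).const_mul _).fun_sub
    (((h1 _).fun_sub (h2 _)).fun_div (differentiableAt_id.add_const 1) ht1)

private theorem RamEqM.diff_e {t : ℂ} (ht : 0 < t.im) (m : ℂ) :
    DifferentiableAt ℂ (RamEqM.e m) t := by
  have hu : 0 < (t + 1).im := by simpa using ht
  have ht1 : t + 1 ≠ 0 := RamEqM.ne_of_im hu
  have h1 : DifferentiableAt ℂ (fun t => RamEqM.E m t) t := RamEqM.diff_E ht m
  unfold RamEqM.e
  refine h1.fun_div (by fun_prop) ?_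
  exact mul_ne_zero (by norm_num) (pow_ne_zero _ ht1)

private theorem RamEqM.diff_u {t : ℂ} (ht : 0 < t.im) (m : ℂ) :
    DifferentiableAt ℂ (fun t => RamEqM.e m (t - 1) + RamEqM.e m t) t := by
  have hs : 0 < (t - 1).im := by simpa using ht
  have h1 : DifferentiableAt ℂ (fun t => RamEqM.e m (t - 1)) t :=
    (RamEqM.diff_e hs m).comp t (differentiableAt_id.sub_const 1)
  exact h1.fun_add (RamEqM.diff_e ht m)

private theorem RamEqM.diff_H {t : ℂ} (ht : 0 < t.im) (m : ℂ) :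
    DifferentiableAt ℂ (RamEqM.H m) t := by
  unfold RamEqM.H
  exact DifferentiableAt.fun_mul (by fun_prop) (RamEqM.diff_u ht m)

private theorem RamEqM.diff_G {t : ℂ} (ht : 0 < t.im) (m : ℂ) {γ : ℂ → ℂ}
    (hγ : AnalyticAt ℂ γ (2 / t)) : DifferentiableAt ℂ (RamEqM.G m γ) t := by
  have ht0 : t ≠ 0 := RamEqM.ne_of_im ht
  have hu : 0 < (t + 1).im := by simpa using ht
  have ht1 : t + 1 ≠ 0 := RamEqM.ne_of_im hu
  have h1 : DifferentiableAt ℂ (fun t : ℂ => (2 * t + 1) ^ 2 / (4 * (t + 1) ^ 2)) t :=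
    DifferentiableAt.fun_div (by fun_prop) (by fun_prop)
      (mul_ne_zero (by norm_num) (pow_ne_zero _ ht1))
  have h2 : DifferentiableAt ℂ (fun t => RamEqM.P m t) t := RamEqM.diff_P ht m
  have h3 : DifferentiableAt ℂ (fun t : ℂ => 2 / t) t :=
    (differentiableAt_const _).fun_div differentiableAt_id ht0
  have h4 : DifferentiableAt ℂ (fun t : ℂ => γ (2 / t)) t := hγ.differentiableAt.comp t h3
  unfold RamEqM.G
  exact (h1.fun_mul h2).fun_mul h4

/-- the equation in the variable `t = 2 / ξ` -/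
private theorem RamEqM.step {t : ℂ} (ht : 0 < t.im) {mu : ℝ} {C : ℂ} {γ α : ℂ → ℂ}
    (hα : ∀ᶠ ξ in 𝓝 (2 / t), α ξ =
      C * (EE (2 + mu) (-(2 * ξ / (2 + ξ))) + 4 / (2 + ξ) ^ 2 * EE (2 + mu) ξ))
    (h : ((2 - 2 / t) / (2 + 2 / t)) ^ (mu : ℂ) * γ (2 * (2 / t) / (2 - 2 / t)) -
          ((4 + 2 / t) / (4 - 2 / t)) ^ 2 * (4 / (2 + 2 / t) ^ 2) * γ (2 / t) =
        ((4 + 2 / t) / (4 - 2 / t)) ^ 2 * ((1 + mu) * α (2 / t) -
          2 / t * (2 + 2 / t) / (4 + 2 / t) * deriv α (2 / t)) -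
        2 * (2 + 2 / t) ^ 2 / (4 - 2 / t) ^ 2 * α (2 / t)) :
    RamEqM.G mu γ (t - 1) - RamEqM.G mu γ t = C * deriv (RamEqM.H mu) t := by
  have ht0 : t ≠ 0 := RamEqM.ne_of_im ht
  have hu : 0 < (t + 1).im := by simpa using ht
  have hs : 0 < (t - 1).im := by simpa using ht
  have ht1 : t + 1 ≠ 0 := RamEqM.ne_of_im hu
  have hs1 : t - 1 ≠ 0 := RamEqM.ne_of_im hs
  have h21 : 2 * t + 1 ≠ 0 := RamEqM.ne_of_im (by simpa using ht)
  have h22 : 2 * t - 1 ≠ 0 := RamEqM.ne_of_im (by simpa using ht)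
  set u : ℂ → ℂ := fun t => RamEqM.e mu (t - 1) + RamEqM.e mu t with hudef
  have hud : HasDerivAt u (deriv u t) t := (RamEqM.diff_u ht mu).hasDerivAt
  -- the derivative of `H`
  have hH : HasDerivAt (RamEqM.H mu) (2 * u t + (2 * t + 1) * deriv u t) t := by
    have h1 : HasDerivAt (fun t : ℂ => 2 * t + 1) 2 t := by
      simpa using ((hasDerivAt_id t).const_mul 2).add_const 1
    exact h1.mul hud
  -- the derivative of `α`
  have hpt : t ^ 2 ≠ 0 := pow_ne_zero _ ht0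
  have hPn := RamEqM.P_ne ht (1 + mu)
  have hW : HasDerivAt (fun t : ℂ => 4 * C * t ^ 2 * u t)
      (4 * C * (2 * t) * u t + 4 * C * t ^ 2 * deriv u t) t := by
    have h1 : HasDerivAt (fun t : ℂ => 4 * C * t ^ 2) (4 * C * (2 * t)) t := by
      simpa using ((hasDerivAt_id t).pow 2).const_mul (4 * C)
    exact h1.mul hud
  have hQ := hW.fun_div (RamEqM.hasDerivAt_P ht (1 + mu)) hPn
  have htt : 2 / (2 / t) = t := by field_simp
  have h2t : 2 / t ≠ 0 := div_ne_zero (by norm_num) ht0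
  have hinv : HasDerivAt (fun ξ : ℂ => 2 / ξ) (-(t ^ 2 / 2)) (2 / t) := by
    have h1 := (hasDerivAt_const (2 / t) (2:ℂ)).fun_div (hasDerivAt_id (2 / t)) h2t
    refine h1.congr_deriv ?_
    simp only [id_eq]
    field_simp
    ring
  have hcomp : HasDerivAt (fun ξ : ℂ => 4 * C * (2 / ξ) ^ 2 * u (2 / ξ) /
      RamEqM.P (1 + mu) (2 / ξ)) _ (2 / t) :=
    HasDerivAt.comp (h₂ := fun t : ℂ => 4 * C * t ^ 2 * u t / RamEqM.P (1 + mu) t) (2 / t)
      (by rw [htt]; exact hQ) hinv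
  have hαe : α =ᶠ[𝓝 (2 / t)] fun ξ : ℂ => 4 * C * (2 / ξ) ^ 2 * u (2 / ξ) /
      RamEqM.P (1 + mu) (2 / ξ) := by
    have hc : ContinuousAt (fun ξ : ℂ => 2 / ξ) (2 / t) := hinv.continuousAt
    have ho : ∀ᶠ ξ in 𝓝 (2 / t), 0 < (2 / ξ).im := by
      have h1 : ContinuousAt (fun ξ : ℂ => (2 / ξ).im) (2 / t) :=
        continuous_im.continuousAt.comp hc
      apply h1.eventually (lt_mem_nhds _)
      change 0 < (2 / (2 / t)).im
      rw [htt]
      exact ht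
    have hn : ∀ᶠ ξ in 𝓝 (2 / t), ξ ≠ 0 := isOpen_ne.mem_nhds h2t
    filter_upwards [hα, ho, hn] with ξ h1 h2 h3
    have h4 : 2 / (2 / ξ) = ξ := by field_simp
    have h5 := RamEqM.W_eq h2 (mu := mu) (C := C) (a := α ξ) (by rw [h4]; exact h1)
    rw [eq_div_iff (RamEqM.P_ne h2 _), mul_comm]
    exact h5
  have hd := (hcomp.congr_of_eventuallyEq hαe).deriv
  have ha : α (2 / t) = 4 * C * t ^ 2 * u t / RamEqM.P (1 + mu) t := by
    have := hαe.eq_of_nhds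
    rw [this, htt]
  rw [hH.deriv]
  rw [hd, ha] at h
  have hP1 := RamEqM.P_one ht (mu : ℂ)
  have r1 : (2 - 2 / t) / (2 + 2 / t) = 1 - 2 / (t + 1) := by
    have e1 : 2 + 2 / t = 2 * (t + 1) / t := by field_simp
    have e2 : 2 - 2 / t = 2 * (t - 1) / t := by field_simp
    rw [e1, e2]
    field_simp
    ring
  have r2 : 2 * (2 / t) / (2 - 2 / t) = 2 / (t - 1) := by
    have e2 : 2 - 2 / t = 2 * (t - 1) / t := by field_simp
    rw [e2]
    field_simp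
  have r3 : (4 + 2 / t) / (4 - 2 / t) = (2 * t + 1) / (2 * t - 1) := by
    have e1 : 4 + 2 / t = 2 * (2 * t + 1) / t := by field_simp; ring
    have e2 : 4 - 2 / t = 2 * (2 * t - 1) / t := by field_simp; ring
    rw [e1, e2]
    field_simp
  have r4 : 4 / (2 + 2 / t) ^ 2 = t ^ 2 / (t + 1) ^ 2 := by
    have e1 : 2 + 2 / t = 2 * (t + 1) / t := by field_simp
    rw [e1]
    field_simp
    norm_num
  have r5 : 2 / t * (2 + 2 / t) / (4 + 2 / t) = 2 * (t + 1) / (t * (2 * t + 1)) := by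
    have e1 : 2 + 2 / t = 2 * (t + 1) / t := by field_simp
    have e2 : 4 + 2 / t = 2 * (2 * t + 1) / t := by field_simp; ring
    rw [e1, e2]
    field_simp
  have r6 : 2 * (2 + 2 / t) ^ 2 / (4 - 2 / t) ^ 2 = 2 * (t + 1) ^ 2 / (2 * t - 1) ^ 2 := by
    have e1 : 2 + 2 / t = 2 * (t + 1) / t := by field_simp
    have e2 : 4 - 2 / t = 2 * (2 * t - 1) / t := by field_simp; ring
    rw [e1, e2]
    field_simp
  rw [r1, r2, r3, r4, r5, r6] at h
  have hG1 : RamEqM.G mu γ (t - 1) = (2 * t - 1) ^ 2 / (4 * t ^ 2) * RamEqM.P mu t *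
      ((1 - 2 / (t + 1)) ^ (mu : ℂ) * γ (2 / (t - 1))) := by
    unfold RamEqM.G
    rw [← RamEqM.P_sub ht]
    have e1 : t - 1 + 1 = t := by ring
    have e2 : 2 * (t - 1) + 1 = 2 * t - 1 := by ring
    rw [e1, e2]
    ring
  have hG2 : RamEqM.G mu γ t = (2 * t - 1) ^ 2 / (4 * t ^ 2) * RamEqM.P mu t *
      (((2 * t + 1) / (2 * t - 1)) ^ 2 * (t ^ 2 / (t + 1) ^ 2) * γ (2 / t)) := by
    unfold RamEqM.G
    field_simp
  rw [hG1, hG2, ← mul_sub, h]
  have hPm := RamEqM.P_ne ht (mu : ℂ)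
  rw [hP1]
  generalize RamEqM.P (mu : ℂ) t = p at *
  generalize deriv u t = u' at *
  generalize u t = u0 at *
  field_simp
  ring

/-! ### the parts which extend -/

private theorem RamEqM.ext_rat {i : ℤ} (hi : i + 1 ≠ 0) (n : ℕ) :
    RamEqM.Ext fun τ => (((i : ℂ) + τ + 1) ^ n)⁻¹ := by
  refine RamEqM.Ext.of_analytic (AnalyticAt.fun_inv (by fun_prop) ?_)
  apply pow_ne_zero
  rw [add_zero]
  exact_mod_cast hi

private theorem RamEqM.ext_P {i : ℤ} (hi : i ≠ 0) (hi1 : i + 1 ≠ 0) (c : ℂ) :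
    RamEqM.Ext fun τ => RamEqM.P c ((i : ℂ) + τ) := by
  refine ((RamEqM.ext_shift hi c).mul (RamEqM.ext_shift hi1 c)).congr
    (Eventually.of_forall fun τ => ?_)
  unfold RamEqM.P
  push_cast
  rw [add_right_comm]

private theorem RamEqM.ext_G {i : ℤ} (hi : i ≠ 0) (hi1 : i + 1 ≠ 0) (m : ℂ) {γ : ℂ → ℂ}
    (hγ : AnalyticAt ℂ γ (2 / (i : ℂ))) : RamEqM.Ext fun τ => RamEqM.G m γ ((i : ℂ) + τ) := by
  have h0 : (i : ℂ) + 0 ≠ 0 := by
    rw [add_zero]
    exact_mod_cast hi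
  have h1 : AnalyticAt ℂ (fun τ : ℂ => 2 / ((i : ℂ) + τ)) 0 :=
    AnalyticAt.fun_div analyticAt_const (by fun_prop) h0
  have h2 : AnalyticAt ℂ γ ((fun τ : ℂ => 2 / ((i : ℂ) + τ)) 0) := by
    simpa using hγ
  have h3 : RamEqM.Ext fun τ : ℂ => γ (2 / ((i : ℂ) + τ)) :=
    RamEqM.Ext.of_analytic (AnalyticAt.comp (g := γ) (f := fun τ : ℂ => 2 / ((i : ℂ) + τ)) h2 h1)
  have h4 : RamEqM.Ext fun τ : ℂ => (2 * ((i : ℂ) + τ) + 1) ^ 2 / 4 :=
    RamEqM.Ext.of_analytic (by fun_prop)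
  refine ((h4.mul (RamEqM.ext_rat hi1 2)).mul ((RamEqM.ext_P hi hi1 m).mul h3)).congr
    (Eventually.of_forall fun τ => ?_)
  unfold RamEqM.G
  rw [div_mul_eq_div_div]
  ring

private theorem RamEqM.ext_E {i : ℤ} (hi : i ≠ 0) (hi1 : i + 1 ≠ 0) (hi2 : i + 2 ≠ 0) (m : ℂ) :
    RamEqM.Ext fun τ => RamEqM.E m ((i : ℂ) + τ) := by
  have h1 : ∀ c, RamEqM.Ext fun τ => RamEqM.P c ((i : ℂ) + τ) := fun c => RamEqM.ext_P hi hi1 c
  have h2 : ∀ c, RamEqM.Ext fun τ => RamEqM.P c ((i : ℂ) + τ + 1) := fun c => by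
    refine (RamEqM.ext_P (i := i + 1) hi1 (by omega) c).congr (Eventually.of_forall fun τ => ?_)
    push_cast
    rw [add_right_comm]
  refine (((h2 (1 + m)).add (h1 (1 + m))).const_mul (2 + m)).sub
    (((h2 (2 + m)).sub (h1 (2 + m))).mul (RamEqM.ext_rat hi1 1)) |>.congr
    (Eventually.of_forall fun τ => ?_)
  unfold RamEqM.E
  rw [pow_one, div_eq_mul_inv]

private theorem RamEqM.ext_e {i : ℤ} (hi : i ≠ 0) (hi1 : i + 1 ≠ 0) (hi2 : i + 2 ≠ 0) (m : ℂ) :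
    RamEqM.Ext fun τ => RamEqM.e m ((i : ℂ) + τ) := by
  refine (((RamEqM.ext_E hi hi1 hi2 m).mul (RamEqM.ext_rat hi1 2)).const_mul (1 / 4)).congr
    (Eventually.of_forall fun τ => ?_)
  unfold RamEqM.e
  rw [div_eq_mul_inv, mul_inv]
  ring

/-- summation by parts -/
private theorem RamEqM.sum_H (m t : ℂ) (n : ℕ) :
    ∑ k ∈ Finset.range n, RamEqM.H m (t + (k + 1)) =
      ∑ k ∈ Finset.range n, 4 * (t + k + 1) * RamEqM.e m (t + k) -
        (2 * t + 1) * RamEqM.e m t + (2 * (t + n) + 1) * RamEqM.e m (t + n) := by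
  induction n with
  | zero => simp
  | succ n ih =>
    rw [Finset.sum_range_succ, Finset.sum_range_succ, ih]
    unfold RamEqM.H
    have e1 : t + ((n : ℂ) + 1) - 1 = t + n := by ring
    have e2 : t + ((n + 1 : ℕ) : ℂ) = t + ((n : ℂ) + 1) := by push_cast; ring
    rw [e1, e2]
    ring

/-- the three terms with a singularity at `0` -/
private theorem RamEqM.special {t : ℂ} (ht : 0 < t.im) (m : ℂ) :
    4 * (t - 1) * RamEqM.e m (t - 2) + 4 * t * RamEqM.e m (t - 1) +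
        4 * (t + 1) * RamEqM.e m t =
      (1 + m) * (t ^ m * ((2 * t + 1) * (t + 1) ^ m + (2 * t - 1) * (t - 1) ^ m)) +
        ((2 + m) * RamEqM.P (1 + m) (t + 1) * (t + 1)⁻¹ -
          RamEqM.P (2 + m) (t + 1) * ((t + 1) ^ 2)⁻¹ +
        ((2 + m) * RamEqM.P (1 + m) (t - 2) * (t - 1)⁻¹ +
          RamEqM.P (2 + m) (t - 2) * ((t - 1) ^ 2)⁻¹)) := by
  have ht0 : t ≠ 0 := RamEqM.ne_of_im ht
  have hu : 0 < (t + 1).im := by simpa using ht
  have hs : 0 < (t - 1).im := by simpa using ht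
  have ht1 : t + 1 ≠ 0 := RamEqM.ne_of_im hu
  have hs1 : t - 1 ≠ 0 := RamEqM.ne_of_im hs
  have a1 := RamEqM.P_one ht m
  have a2 := RamEqM.P_two ht m
  have b1 := RamEqM.P_one hs m
  have b2 := RamEqM.P_two hs m
  have c1 : t - 1 + 1 = t := by ring
  have c2 : t - 2 + 1 = t - 1 := by ring
  rw [c1] at b1 b2
  have d1 : RamEqM.P m t = t ^ m * (t + 1) ^ m := rfl
  have d2 : RamEqM.P m (t - 1) = (t - 1) ^ m * t ^ m := by
    unfold RamEqM.P
    rw [c1]
  unfold RamEqM.e RamEqM.E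
  rw [c1, c2, a2, b2, a1, b1, d1, d2]
  generalize t ^ m = x
  generalize (t + 1) ^ m = y
  generalize (t - 1) ^ m = z
  field_simp
  ring

/-- the analytic continuation of `(2 t + 1) (t + 1) ^ m + (2 t - 1) (t - 1) ^ m` -/
private def RamEqM.g1 (m t : ℂ) : ℂ :=
  (2 * t + 1) * (t + 1) ^ m + (2 * t - 1) * (Complex.exp (π * I * m) * (-(t - 1)) ^ m)

private theorem RamEqM.g1_ana (m : ℂ) : AnalyticAt ℂ (RamEqM.g1 m) 0 := by
  have h1 : AnalyticAt ℂ (fun t : ℂ => (t + 1) ^ m) 0 :=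
    AnalyticAt.cpow (by fun_prop) analyticAt_const (Or.inl (by simp))
  have h2 : AnalyticAt ℂ (fun t : ℂ => (-(t - 1)) ^ m) 0 :=
    AnalyticAt.cpow (by fun_prop) analyticAt_const (Or.inl (by simp))
  have h3 : AnalyticAt ℂ (fun t : ℂ => 2 * t + 1) 0 := by fun_prop
  have h4 : AnalyticAt ℂ (fun t : ℂ => 2 * t - 1) 0 := by fun_prop
  unfold RamEqM.g1
  exact (h3.fun_mul h1).fun_add (h4.fun_mul (analyticAt_const.fun_mul h2))

private theorem RamEqM.g1_zero {mu : ℝ} (hmu0 : 0 < mu) (hmu : ∀ n : ℕ, mu ≠ n) :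
    RamEqM.g1 mu 0 ≠ 0 := by
  have h1 : RamEqM.g1 mu 0 = 1 - Complex.exp (π * I * mu) := by
    unfold RamEqM.g1
    simp [sub_eq_add_neg]
  rw [h1]
  intro h
  have h2 : Complex.exp (π * I * mu) = 1 := by linear_combination -h
  rw [Complex.exp_eq_one_iff] at h2
  obtain ⟨n, hn⟩ := h2
  have hpi : (π : ℂ) ≠ 0 := by exact_mod_cast Real.pi_ne_zero
  have h3 : (π * I : ℂ) * mu = (π * I) * (2 * n) := by
    rw [hn]
    ring
  have h4 : (mu : ℂ) = 2 * n := mul_left_cancel₀ (mul_ne_zero hpi I_ne_zero) h3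
  have h5 : mu = 2 * (n : ℝ) := by exact_mod_cast h4
  have h6 : 0 < n := by
    have : (0:ℝ) < n := by linarith
    exact_mod_cast this
  apply hmu (2 * n).toNat
  have h7 : (((2 * n).toNat : ℤ) : ℝ) = ((2 * n : ℤ) : ℝ) := by
    rw [Int.toNat_of_nonneg (by omega)]
  rw [h5]
  have h8 : (((2 * n).toNat : ℤ) : ℝ) = (((2 * n).toNat : ℕ) : ℝ) := by norm_cast
  rw [← h8, h7]
  push_cast
  ring

theorem no_ram_eq_one {mu : ℝ} (hmu0 : 0 < mu) (hmu : ∀ n : ℕ, mu ≠ n) {C : ℂ} (hC : C ≠ 0)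
    {γ α : ℂ → ℂ} (hγ : AnalyticAt ℂ γ 0)
    (hα : ∀ᶠ ξ in 𝓝[≠] (0:ℂ), α ξ =
      C * (EE (2 + mu) (-(2 * ξ / (2 + ξ))) + 4 / (2 + ξ) ^ 2 * EE (2 + mu) ξ))
    (h : ∀ᶠ ξ in 𝓝[≠] (0:ℂ),
      ((2 - ξ) / (2 + ξ)) ^ (mu : ℂ) * γ (2 * ξ / (2 - ξ)) -
          ((4 + ξ) / (4 - ξ)) ^ 2 * (4 / (2 + ξ) ^ 2) * γ ξ =
        ((4 + ξ) / (4 - ξ)) ^ 2 * ((1 + mu) * α ξ - ξ * (2 + ξ) / (4 + ξ) * deriv α ξ) -
        2 * (2 + ξ) ^ 2 / (4 - ξ) ^ 2 * α ξ) : False := by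
  obtain ⟨r, hr0, hr⟩ : ∃ r > 0, ∀ ξ : ℂ, ‖ξ‖ < r → AnalyticAt ℂ γ ξ ∧
      (ξ ≠ 0 → (∀ᶠ ξ' in 𝓝 ξ, α ξ' =
        C * (EE (2 + mu) (-(2 * ξ' / (2 + ξ'))) + 4 / (2 + ξ') ^ 2 * EE (2 + mu) ξ')) ∧
      ((2 - ξ) / (2 + ξ)) ^ (mu : ℂ) * γ (2 * ξ / (2 - ξ)) -
          ((4 + ξ) / (4 - ξ)) ^ 2 * (4 / (2 + ξ) ^ 2) * γ ξ =
        ((4 + ξ) / (4 - ξ)) ^ 2 * ((1 + mu) * α ξ - ξ * (2 + ξ) / (4 + ξ) * deriv α ξ) -
        2 * (2 + ξ) ^ 2 / (4 - ξ) ^ 2 * α ξ) := by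
    have h1 := hγ.eventually_analyticAt
    rw [eventually_nhdsWithin_iff] at h hα
    have h2 := h1.and (h.and hα.eventually_nhds)
    rw [Metric.eventually_nhds_iff] at h2
    obtain ⟨r, hr0, hr⟩ := h2
    refine ⟨r, hr0, fun ξ hξ => ?_⟩
    have h3 := hr (y := ξ) (by simpa using hξ)
    refine ⟨h3.1, fun h4 => ⟨?_, h3.2.1 h4⟩⟩
    filter_upwards [h3.2.2, isOpen_ne.mem_nhds h4] with ξ' h5 h6
    exact h5 h6
  set ρ : ℝ := 2 / r with hρ
  have hρ0 : 0 < ρ := div_pos two_pos hr0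
  have hinv : ∀ t : ℂ, ρ < ‖t‖ → ‖2 / t‖ < r := by
    intro t ht
    have ht0 : 0 < ‖t‖ := hρ0.trans ht
    rw [norm_div, Complex.norm_ofNat, div_lt_iff₀ ht0]
    rw [hρ, div_lt_iff₀ hr0] at ht
    linarith
  have hstep : ∀ t : ℂ, 0 < t.im → ρ < ‖t‖ →
      RamEqM.G mu γ (t - 1) - RamEqM.G mu γ t = C * deriv (RamEqM.H mu) t := by
    intro t ht htn
    have h1 := (hr (2 / t) (hinv t htn)).2 (div_ne_zero two_ne_zero (RamEqM.ne_of_im ht))
    exact RamEqM.step ht h1.1 h1.2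
  have htel : ∀ n : ℕ, ∀ t : ℂ, ρ < t.im → RamEqM.G mu γ t - RamEqM.G mu γ (t + n) =
      C * ∑ k ∈ Finset.range n, deriv (RamEqM.H mu) (t + (k + 1)) := by
    intro n
    induction n with
    | zero =>
      intro t _
      simp
    | succ n ih =>
      intro t ht
      have h1 := ih t ht
      have him : (t + ((n : ℂ) + 1)).im = t.im := by simp
      have h2 := hstep (t + ((n : ℂ) + 1)) (by rw [him]; linarith) (by
        have := Complex.im_le_norm (t + ((n : ℂ) + 1))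
        rw [him] at this
        linarith)
      have h3 : t + ((n : ℂ) + 1) - 1 = t + n := by ring
      rw [h3] at h2
      rw [Finset.sum_range_succ, mul_add, ← h1, ← h2]
      push_cast
      ring
  obtain ⟨J, hJ⟩ := exists_nat_gt ρ
  set j : ℕ := J + 3 with hj
  set N : ℕ := (J + 1) + 3 + (J + 4) with hN
  have hjr : ρ < (j : ℝ) - 1 / 2 := by
    rw [hj]
    push_cast
    linarith
  have hNr : ρ < (N : ℝ) - j - 1 / 2 := by
    rw [hN, hj]
    push_cast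
    linarith
  -- the strip
  set U : Set ℂ := {t | 0 < t.im} ∩ ({t | -(j : ℝ) - 1 / 2 < t.re} ∩ {t | t.re < -(j : ℝ) + 1 / 2})
    with hU
  have hUo : IsOpen U := (isOpen_lt continuous_const continuous_im).inter
    ((isOpen_lt continuous_const continuous_re).inter (isOpen_lt continuous_re continuous_const))
  have hUc : Convex ℝ U := (convex_halfSpace_im_gt 0).inter
    ((convex_halfSpace_re_gt _).inter (convex_halfSpace_re_lt _))
  have hHHo : IsOpen {t : ℂ | 0 < t.im} := isOpen_lt continuous_const continuous_im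
  have hHd : DifferentiableOn ℂ (RamEqM.H mu) {t : ℂ | 0 < t.im} := fun t ht =>
    (RamEqM.diff_H ht mu).differentiableWithinAt
  have hHd2 : ∀ t : ℂ, 0 < t.im → DifferentiableAt ℂ (deriv (RamEqM.H mu)) t := fun t ht =>
    (hHd.deriv hHHo).differentiableAt (hHHo.mem_nhds ht)
  set F : ℂ → ℂ := fun t => RamEqM.G mu γ t - RamEqM.G mu γ (t + N) -
    C * ∑ k ∈ Finset.range N, deriv (RamEqM.H mu) (t + (k + 1)) with hF
  have hFd : DifferentiableOn ℂ F U := by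
    intro t ht
    obtain ⟨ht1, ht2, ht3⟩ := ht
    have ht1' : 0 < t.im := ht1
    have ht2' : -(j : ℝ) - 1 / 2 < t.re := ht2
    have ht3' : t.re < -(j : ℝ) + 1 / 2 := ht3
    apply DifferentiableAt.differentiableWithinAt
    have g1 : DifferentiableAt ℂ (RamEqM.G mu γ) t := by
      apply RamEqM.diff_G ht1'
      apply (hr _ (hinv t _)).1
      have h1 := Complex.abs_re_le_norm t
      have h2 : -t.re ≤ |t.re| := neg_le_abs _
      linarith
    have g2 : DifferentiableAt ℂ (fun t => RamEqM.G mu γ (t + N)) t := by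
      have him : (t + (N : ℂ)).im = t.im := by simp
      have hre : (t + (N : ℂ)).re = t.re + N := by simp
      have h0 : DifferentiableAt ℂ (RamEqM.G mu γ) (t + N) := by
        apply RamEqM.diff_G (by rw [him]; exact ht1')
        apply (hr _ (hinv _ _)).1
        have h1 := Complex.re_le_norm (t + (N : ℂ))
        rw [hre] at h1
        linarith
      exact h0.comp t (differentiableAt_id.add_const _)
    have g3 : ∀ k ∈ Finset.range N,
        DifferentiableAt ℂ (fun t => deriv (RamEqM.H mu) (t + (k + 1))) t := by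
      intro k _
      have him : (t + ((k : ℂ) + 1)).im = t.im := by simp
      have h0 : DifferentiableAt ℂ (deriv (RamEqM.H mu)) (t + (k + 1)) :=
        hHd2 _ (by rw [him]; exact ht1')
      exact h0.comp t (differentiableAt_id.add_const _)
    exact (g1.sub g2).sub ((DifferentiableAt.fun_sum g3).const_mul C)
  have hF0 : EqOn F 0 U := by
    have hFa : AnalyticOnNhd ℂ F U := hFd.analyticOnNhd hUo
    set t1 : ℂ := ⟨-(j : ℝ), ρ + 1⟩ with ht1
    have hm : t1 ∈ U := by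
      refine ⟨?_, ?_, ?_⟩
      · change 0 < ρ + 1
        linarith
      · change -(j : ℝ) - 1 / 2 < -(j : ℝ)
        linarith
      · change -(j : ℝ) < -(j : ℝ) + 1 / 2
        linarith
    refine hFa.eqOn_zero_of_preconnected_of_eventuallyEq_zero hUc.isPreconnected hm ?_
    have ho : IsOpen {t : ℂ | ρ < t.im} := isOpen_lt continuous_const continuous_im
    have hmo : t1 ∈ {t : ℂ | ρ < t.im} := by
      change ρ < ρ + 1
      linarith
    filter_upwards [ho.mem_nhds hmo] with t ht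
    simp only [hF, Pi.zero_apply]
    rw [htel N t ht, sub_self]
  -- near the point `-j`
  have hUj : ∀ᶠ τ in 𝓝[{t : ℂ | 0 < t.im}] (0:ℂ), ((-(j : ℤ) : ℤ) : ℂ) + τ ∈ U := by
    have h1 : ∀ᶠ τ in 𝓝[{t : ℂ | 0 < t.im}] (0:ℂ), ‖τ‖ < 1 / 2 := by
      apply Eventually.filter_mono nhdsWithin_le_nhds
      have : Continuous fun τ : ℂ => ‖τ‖ := continuous_norm
      have h2 := this.tendsto 0
      rw [norm_zero] at h2
      exact h2.eventually (gt_mem_nhds (by norm_num))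
    filter_upwards [h1, self_mem_nhdsWithin] with τ h2 h3
    have h4 := Complex.abs_re_le_norm τ
    have h5 := abs_lt.1 (lt_of_le_of_lt h4 h2)
    have h3' : 0 < τ.im := h3
    have hre : (((-(j : ℤ) : ℤ) : ℂ) + τ).re = -(j : ℝ) + τ.re := by simp
    have him : (((-(j : ℤ) : ℤ) : ℂ) + τ).im = τ.im := by simp
    refine ⟨?_, ?_, ?_⟩
    · change 0 < (((-(j : ℤ) : ℤ) : ℂ) + τ).im
      rw [him]
      exact h3'
    · change -(j : ℝ) - 1 / 2 < (((-(j : ℤ) : ℤ) : ℂ) + τ).re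
      rw [hre]
      linarith [h5.1]
    · change (((-(j : ℤ) : ℤ) : ℂ) + τ).re < -(j : ℝ) + 1 / 2
      rw [hre]
      linarith [h5.2]
  have hinvj : ∀ i : ℤ, ρ < |(i : ℝ)| → AnalyticAt ℂ γ (2 / (i : ℂ)) := by
    intro i hi
    apply (hr _ (hinv _ _)).1
    rw [Complex.norm_intCast]
    exact hi
  have E1 : RamEqM.Ext fun τ => RamEqM.G mu γ (((-(j : ℤ) : ℤ) : ℂ) + τ) := by
    apply RamEqM.ext_G (by omega) (by omega)
    apply hinvj
    push_cast
    rw [abs_neg, abs_of_nonneg (Nat.cast_nonneg j)]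
    linarith
  have E2 : RamEqM.Ext fun τ => RamEqM.G mu γ ((((N : ℤ) - j : ℤ) : ℂ) + τ) := by
    apply RamEqM.ext_G (by omega) (by omega)
    apply hinvj
    push_cast
    have := le_abs_self ((N : ℝ) - j)
    linarith
  -- the sum
  set Q : ℂ → ℂ := fun τ => ∑ k ∈ Finset.range N,
    RamEqM.H mu (((-(j : ℤ) : ℤ) : ℂ) + τ + (k + 1)) with hQ
  have hQd : ∀ τ : ℂ, 0 < τ.im → HasDerivAt Q (∑ k ∈ Finset.range N,
      deriv (RamEqM.H mu) (((-(j : ℤ) : ℤ) : ℂ) + τ + (k + 1))) τ := by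
    intro τ hτ
    apply HasDerivAt.fun_sum
    intro k _
    have him : (((-(j : ℤ) : ℤ) : ℂ) + τ + ((k : ℂ) + 1)).im = τ.im := by simp
    have h1 : HasDerivAt (RamEqM.H mu) _ (((-(j : ℤ) : ℤ) : ℂ) + τ + ((k : ℂ) + 1)) :=
      (RamEqM.diff_H (by rw [him]; exact hτ) mu).hasDerivAt
    have h2 : HasDerivAt (fun τ : ℂ => ((-(j : ℤ) : ℤ) : ℂ) + τ + ((k : ℂ) + 1)) 1 τ :=
      ((hasDerivAt_id τ).const_add _).add_const _
    have h3 := h1.comp τ h2
    rw [mul_one] at h3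
    exact h3
  have E3 : RamEqM.Ext (deriv Q) := by
    refine ((E1.sub E2).const_mul C⁻¹).congr ?_
    filter_upwards [hUj, self_mem_nhdsWithin] with τ hτ hτ2
    have h1 := hF0 hτ
    simp only [hF, Pi.zero_apply] at h1
    have h2 : ((-(j : ℤ) : ℤ) : ℂ) + τ + (N : ℂ) = (((N : ℤ) - j : ℤ) : ℂ) + τ := by
      push_cast
      ring
    rw [h2] at h1
    rw [(hQd τ hτ2).deriv, eq_inv_mul_iff_mul_eq₀ hC]
    linear_combination -h1
  -- the singular part
  have E4 : RamEqM.Ext fun τ => Q τ - (1 + mu) * (τ ^ (mu : ℂ) * RamEqM.g1 mu τ) := by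
    have hend1 : RamEqM.Ext fun τ => (2 * (((-(j : ℤ) : ℤ) : ℂ) + τ) + 1) *
        RamEqM.e mu (((-(j : ℤ) : ℤ) : ℂ) + τ) :=
      (RamEqM.Ext.of_analytic (by fun_prop)).mul
        (RamEqM.ext_e (by omega) (by omega) (by omega) mu)
    have hend2 : RamEqM.Ext fun τ => (2 * ((((N : ℤ) - j : ℤ) : ℂ) + τ) + 1) *
        RamEqM.e mu ((((N : ℤ) - j : ℤ) : ℂ) + τ) :=
      (RamEqM.Ext.of_analytic (by fun_prop)).mul
        (RamEqM.ext_e (by omega) (by omega) (by omega) mu)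
    have hD : ∀ i : ℤ, i ≠ 0 → i + 1 ≠ 0 → i + 2 ≠ 0 → RamEqM.Ext fun τ =>
        4 * ((i : ℂ) + τ + 1) * RamEqM.e mu ((i : ℂ) + τ) := fun i h1 h2 h3 =>
      (RamEqM.Ext.of_analytic (by fun_prop)).mul (RamEqM.ext_e h1 h2 h3 mu)
    have hS1 : RamEqM.Ext fun τ => ∑ k ∈ Finset.range (J + 1),
        4 * ((((k : ℤ) - j : ℤ) : ℂ) + τ + 1) * RamEqM.e mu ((((k : ℤ) - j : ℤ) : ℂ) + τ) :=
      RamEqM.Ext.sum fun k hk => hD _ (by omega) (by omega) (by omega)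
    have hS2 : RamEqM.Ext fun τ => ∑ k ∈ Finset.range (J + 4),
        4 * ((((k : ℤ) + 1 : ℤ) : ℂ) + τ + 1) * RamEqM.e mu ((((k : ℤ) + 1 : ℤ) : ℂ) + τ) :=
      RamEqM.Ext.sum fun k hk => hD _ (by omega) (by omega) (by omega)
    have hP1 : ∀ c, RamEqM.Ext fun τ => RamEqM.P c (τ + 1) := fun c =>
      (RamEqM.ext_P (i := 1) (by norm_num) (by norm_num) c).congr
        (Eventually.of_forall fun τ => by push_cast; rw [add_comm])
    have hP2 : ∀ c, RamEqM.Ext fun τ => RamEqM.P c (τ - 2) := fun c =>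
      (RamEqM.ext_P (i := -2) (by norm_num) (by norm_num) c).congr
        (Eventually.of_forall fun τ => by push_cast; rw [neg_add_eq_sub])
    have hR1 : ∀ n : ℕ, RamEqM.Ext fun τ => ((τ + 1) ^ n)⁻¹ := fun n =>
      (RamEqM.ext_rat (i := 0) (by norm_num) n).congr
        (Eventually.of_forall fun τ => by push_cast; rw [zero_add])
    have hR2 : ∀ n : ℕ, RamEqM.Ext fun τ => ((τ - 1) ^ n)⁻¹ := fun n =>
      (RamEqM.ext_rat (i := -2) (by norm_num) n).congr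
        (Eventually.of_forall fun τ => by push_cast; congr 2; ring)
    have hsp : RamEqM.Ext fun τ => (2 + mu) * (RamEqM.P (1 + mu) (τ + 1) * ((τ + 1) ^ 1)⁻¹) -
          RamEqM.P (2 + mu) (τ + 1) * ((τ + 1) ^ 2)⁻¹ +
        ((2 + mu) * (RamEqM.P (1 + mu) (τ - 2) * ((τ - 1) ^ 1)⁻¹) +
          RamEqM.P (2 + mu) (τ - 2) * ((τ - 1) ^ 2)⁻¹) :=
      ((((hP1 _).mul (hR1 1)).const_mul _).sub ((hP1 _).mul (hR1 2))).add
        ((((hP2 _).mul (hR2 1)).const_mul _).add ((hP2 _).mul (hR2 2)))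
    refine (((hS1.add hS2).add hsp).add (hend2.sub hend1)).congr ?_
    filter_upwards [self_mem_nhdsWithin] with τ hτ
    have hτ' : 0 < τ.im := hτ
    have hs := RamEqM.special hτ' (mu : ℂ)
    have hg : RamEqM.g1 mu τ = (2 * τ + 1) * (τ + 1) ^ (mu : ℂ) +
        (2 * τ - 1) * (τ - 1) ^ (mu : ℂ) := by
      unfold RamEqM.g1
      rw [RamEqM.cpow_neg_im (t := τ - 1) (by simpa using hτ') (mu : ℂ)]
    simp only [hQ]
    set t0 : ℂ := ((-(j : ℤ) : ℤ) : ℂ) + τ with ht0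
    have a1 : ∀ k : ℕ, t0 + (k : ℂ) = (((k : ℤ) - j : ℤ) : ℂ) + τ := by
      intro k
      rw [ht0]
      push_cast
      ring
    have a2 : ∀ k : ℕ, t0 + ((J + 1 + 3 + k : ℕ) : ℂ) = (((k : ℤ) + 1 : ℤ) : ℂ) + τ := by
      intro k
      rw [ht0, hj]
      push_cast
      ring
    have b0 : t0 + ((J + 1 + 0 : ℕ) : ℂ) = τ - 2 := by
      rw [ht0, hj]
      push_cast
      ring
    have b1 : t0 + ((J + 1 + 1 : ℕ) : ℂ) = τ - 1 := by
      rw [ht0, hj]
      push_cast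
      ring
    have b2 : t0 + ((J + 1 + 2 : ℕ) : ℂ) = τ := by
      rw [ht0, hj]
      push_cast
      ring
    have b3 : t0 + (N : ℂ) = (((N : ℤ) - j : ℤ) : ℂ) + τ := a1 N
    have s0 : ∑ k ∈ Finset.range N, 4 * (t0 + k + 1) * RamEqM.e mu (t0 + k) =
        ∑ k ∈ Finset.range (J + 1),
          4 * ((((k : ℤ) - j : ℤ) : ℂ) + τ + 1) * RamEqM.e mu ((((k : ℤ) - j : ℤ) : ℂ) + τ) +
        (4 * (τ - 1) * RamEqM.e mu (τ - 2) + 4 * τ * RamEqM.e mu (τ - 1) +
          4 * (τ + 1) * RamEqM.e mu τ) +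
        ∑ k ∈ Finset.range (J + 4),
          4 * ((((k : ℤ) + 1 : ℤ) : ℂ) + τ + 1) * RamEqM.e mu ((((k : ℤ) + 1 : ℤ) : ℂ) + τ) := by
      rw [hN, Finset.sum_range_add, Finset.sum_range_add]
      simp only [Finset.sum_range_succ _ 0, Finset.sum_range_succ _ 1, Finset.sum_range_succ _ 2,
        Finset.sum_range_zero, zero_add, a2]
      rw [b0, b1, b2]
      have c1 : τ - 2 + 1 = τ - 1 := by ring
      have c2 : τ - 1 + 1 = τ := by ring
      rw [c1, c2]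
      simp only [a1]
    rw [RamEqM.sum_H, s0, hs, hg, b3, pow_one, pow_one]
    ring
  have hga := RamEqM.g1_ana (mu : ℂ)
  have hg0 := RamEqM.g1_zero hmu0 hmu
  set g2 : ℂ → ℂ := fun τ => (1 + mu) * (mu * RamEqM.g1 mu τ + τ * deriv (RamEqM.g1 mu) τ)
    with hg2
  have hg2a : AnalyticAt ℂ g2 0 :=
    analyticAt_const.fun_mul ((analyticAt_const.fun_mul hga).fun_add
      (analyticAt_id.fun_mul hga.deriv))
  have hg20 : g2 0 ≠ 0 := by
    simp only [hg2, zero_mul, add_zero]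
    refine mul_ne_zero ?_ (mul_ne_zero (by exact_mod_cast hmu0.ne') hg0)
    have : (1 : ℝ) + mu ≠ 0 := by linarith
    exact_mod_cast this
  have E5 : RamEqM.Ext fun τ => τ ^ ((mu - 1 : ℝ) : ℂ) * g2 τ := by
    refine (E3.sub E4.deriv).congr ?_
    have h1 : ∀ᶠ τ in 𝓝[{t : ℂ | 0 < t.im}] (0:ℂ), AnalyticAt ℂ (RamEqM.g1 (mu : ℂ)) τ :=
      hga.eventually_analyticAt.filter_mono nhdsWithin_le_nhds
    filter_upwards [h1, self_mem_nhdsWithin] with τ h2 h3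
    have h3' : 0 < τ.im := h3
    have hτ0 : τ ≠ 0 := RamEqM.ne_of_im h3'
    have h4 : HasDerivAt (fun τ : ℂ => τ ^ (mu : ℂ)) ((mu : ℂ) * τ ^ ((mu : ℂ) - 1) * 1) τ :=
      (hasDerivAt_id τ).cpow_const (Or.inr h3'.ne')
    have h5 := (h4.fun_mul h2.differentiableAt.hasDerivAt).const_mul (1 + (mu : ℂ))
    have h6 := ((hQd τ h3').fun_sub h5).deriv
    have h7 := (hQd τ h3').deriv
    rw [h6, h7]
    simp only [hg2]
    have h8 : τ ^ (mu : ℂ) = τ ^ ((mu : ℂ) - 1) * τ := by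
      rw [Complex.cpow_sub _ _ hτ0, cpow_one]
      field_simp
    have h9 : ((mu - 1 : ℝ) : ℂ) = (mu : ℂ) - 1 := by push_cast; ring
    rw [h8, h9]
    ring
  apply RamEqM.not_ext (la := mu - 1)
  · intro n hn
    apply hmu (n + 1)
    push_cast
    linarith
  · refine (E5.mul (RamEqM.Ext.of_analytic (hg2a.fun_inv hg20))).congr ?_
    have h1 : ∀ᶠ τ in 𝓝[{t : ℂ | 0 < t.im}] (0:ℂ), g2 τ ≠ 0 :=
      (hg2a.continuousAt.eventually_ne hg20).filter_mono nhdsWithin_le_nhds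
    filter_upwards [h1] with τ h2
    rw [mul_assoc, mul_inv_cancel₀ h2, mul_one]

end RE

end Pool.Agent.MP_ae5b4e_an_MET
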