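import Mathlib
import Pool.Agent.Lib.MP_ae5b4e_an_ALG.SlopeDiff

/-!
# MP_ae5b4e_an, meromorphic tables: the first order of the slope, ramified places (module RS)
-/

set_option autoImplicit false

noncomputable section

namespace Pool.Agent.MP_ae5b4e_an_MET

open Filter Topology Set Metric Complex
open scoped Real
open Pool.Agent.MP_ae5b4e_an_ND (Dx Dy)
open Pool.Agent.MP_ae5b4e_an_FLEX (SerY bs GoodG PlaceY)
open Pool.Agent.MP_ae5b4e_an_ALG (EE)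

namespace SlopeDiffM

open Asymptotics
open Pool.Agent.MP_ae5b4e_an_ALG.SlopeDiff (Ef Pf sg sg_cont sg_zero sg_tend line_tend line_tend'
  der_rel Af Star star comp_bigO punct_tend)

/-- the point of the axis to which `P` moves `(0, ξ)` -/
def vv (ξ : ℂ) : ℂ := 2 * ξ / (2 - ξ)

/-- regular points of the axis -/
structure Nice (k l : ℕ) (om : ℂ) (a B α β : ℂ × ℂ → ℂ) (ξ : ℂ) : Prop where
  aa : AnalyticAt ℂ a (0, ξ)
  Ba : AnalyticAt ℂ B (0, ξ)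
  αa : AnalyticAt ℂ α (0, ξ)
  βa : AnalyticAt ℂ β (0, ξ)
  Bv : AnalyticAt ℂ B (0, vv ξ)
  βv : AnalyticAt ℂ β (0, vv ξ)
  a0 : ∀ᶠ t in 𝓝 ξ, a (0, t) = 2 * t / (2 + t)
  B0 : ∀ᶠ t in 𝓝 ξ, B (0, t) = 2 * t / (4 + t)
  Bv0 : ∀ᶠ t in 𝓝 (vv ξ), B (0, t) = 2 * t / (4 + t)
  slit : (2 - ξ) / (2 + ξ) ∈ slitPlane
  n1 : 2 + ξ ≠ 0
  n2 : 2 - ξ ≠ 0
  n3 : 4 + ξ ≠ 0
  n4 : 4 - ξ ≠ 0
  rel : ∀ᶠ p in 𝓝 ((0, ξ) : ℂ × ℂ), a (om * p.1, p.2) - a p = p.1 ^ l * α p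
  relB : ∀ᶠ p in 𝓝 ((0, ξ) : ℂ × ℂ), B (sg om p) - B p = p.1 ^ l * β p
  relBv : ∀ᶠ p in 𝓝 ((0, vv ξ) : ℂ × ℂ), B (sg om p) - B p = p.1 ^ l * β p
  st : ∀ᶠ p in 𝓝 ((0, ξ) : ℂ × ℂ), Star k l om a B α p

lemma v_tend : Tendsto vv (𝓝 0) (𝓝 0) := by
  have h : ContinuousAt (fun ξ : ℂ => 2 * ξ / (2 - ξ)) 0 := by
    refine ContinuousAt.div (by fun_prop) (by fun_prop) (by simp)
  have h2 : Tendsto (fun ξ : ℂ => 2 * ξ / (2 - ξ)) (𝓝 0) (𝓝 (2 * 0 / (2 - 0))) := h.tendsto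
  rw [mul_zero, zero_div] at h2
  exact h2

lemma vline_tend : Tendsto (fun ξ : ℂ => ((0, vv ξ) : ℂ × ℂ)) (𝓝 0) (𝓝 (0, 0)) :=
  (line_tend' 0 0).comp v_tend

lemma nice_ev {k l : ℕ} (hl : 0 < l) {om : ℂ} {a B α β : ℂ × ℂ → ℂ} (ha : AnalyticAt ℂ a (0, 0))
    (hB : AnalyticAt ℂ B (0, 0)) (hα : AnalyticAt ℂ α (0, 0)) (hβ : AnalyticAt ℂ β (0, 0))
    (ha0 : ∀ᶠ ξ in 𝓝 (0:ℂ), a (0, ξ) = 2 * ξ / (2 + ξ))
    (hB0 : ∀ᶠ ξ in 𝓝 (0:ℂ), B (0, ξ) = 2 * ξ / (4 + ξ))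
    (hFI : ∀ᶠ p in 𝓝 ((0, 0) : ℂ × ℂ), B (Pf k a p) * (1 - Ef k a B p) = Ef k a B p)
    (haα : ∀ᶠ p in 𝓝 ((0, 0) : ℂ × ℂ), a (om * p.1, p.2) - a p = p.1 ^ l * α p)
    (hBβ : ∀ᶠ p in 𝓝 ((0, 0) : ℂ × ℂ), B (om * p.1, p.2) - B p = p.1 ^ l * β p) :
    ∀ᶠ ξ in 𝓝 (0:ℂ), Nice k l om a B α β ξ := by
  have hsl : ∀ᶠ ξ in 𝓝 (0:ℂ), (2 - ξ) / (2 + ξ) ∈ slitPlane := by
    have h : ContinuousAt (fun ξ : ℂ => (2 - ξ) / (2 + ξ)) 0 := by
      refine ContinuousAt.div (by fun_prop) (by fun_prop) (by simp)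
    exact h.eventually_mem (isOpen_slitPlane.mem_nhds (by simp))
  have hn : ∀ c : ℂ, c ≠ 0 → ∀ᶠ ξ in 𝓝 (0:ℂ), c + ξ ≠ 0 := by
    intro c hc
    have h : ContinuousAt (fun ξ : ℂ => c + ξ) 0 := by fun_prop
    exact h.eventually_ne (by simpa using hc)
  have hn' : ∀ c : ℂ, c ≠ 0 → ∀ᶠ ξ in 𝓝 (0:ℂ), c - ξ ≠ 0 := by
    intro c hc
    have h : ContinuousAt (fun ξ : ℂ => c - ξ) 0 := by fun_prop
    exact h.eventually_ne (by simpa using hc)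
  have hBβ' : ∀ᶠ p in 𝓝 ((0, 0) : ℂ × ℂ), B (sg om p) - B p = p.1 ^ l * β p := hBβ
  filter_upwards [(line_tend' 0 0).eventually ha.eventually_analyticAt,
    (line_tend' 0 0).eventually hB.eventually_analyticAt,
    (line_tend' 0 0).eventually hα.eventually_analyticAt,
    (line_tend' 0 0).eventually hβ.eventually_analyticAt,
    vline_tend.eventually hB.eventually_analyticAt,
    vline_tend.eventually hβ.eventually_analyticAt, ha0.eventually_nhds, hB0.eventually_nhds,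
    v_tend.eventually hB0.eventually_nhds, hsl, hn 2 (by norm_num), hn' 2 (by norm_num),
    hn 4 (by norm_num), hn' 4 (by norm_num),
    (line_tend' 0 0).eventually haα.eventually_nhds,
    (line_tend' 0 0).eventually hBβ'.eventually_nhds,
    vline_tend.eventually hBβ'.eventually_nhds,
    (line_tend' 0 0).eventually (star hl ha hα hFI haα).eventually_nhds]
    with ξ h1 h2 h3 h4 h5 h6 h7 h8 h9 h10 h11 h12 h13 h14 h15 h16 h17 h18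
  exact ⟨h1, h2, h3, h4, h5, h6, h7, h8, h9, h10, h11, h12, h13, h14, h15, h16, h17, h18⟩

section lim

variable {k l : ℕ} {om : ℂ} {a B α β : ℂ × ℂ → ℂ} {ξ : ℂ}

lemma Nice.aval (N : Nice k l om a B α β ξ) : a (0, ξ) = 2 * ξ / (2 + ξ) := N.a0.self_of_nhds

lemma Nice.Bval (N : Nice k l om a B α β ξ) : B (0, ξ) = 2 * ξ / (4 + ξ) := N.B0.self_of_nhds

lemma Nice.one_sub (N : Nice k l om a B α β ξ) : 1 - a (0, ξ) = (2 - ξ) / (2 + ξ) := by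
  have h := N.n1
  rw [N.aval]
  field_simp
  ring

lemma Nice.one_sub_ne (N : Nice k l om a B α β ξ) : 1 - a (0, ξ) ≠ 0 := by
  rw [N.one_sub]
  exact div_ne_zero N.n2 N.n1

lemma Nice.n5 (N : Nice k l om a B α β ξ) : 4 + vv ξ ≠ 0 := by
  have h2 := N.n2
  have h4 := N.n4
  have e : 4 + vv ξ = 2 * (4 - ξ) / (2 - ξ) := by
    unfold vv
    field_simp
    ring
  rw [e]
  exact div_ne_zero (mul_ne_zero two_ne_zero h4) h2

lemma Nice.Bvval (N : Nice k l om a B α β ξ) : B (0, vv ξ) = 2 * ξ / (4 - ξ) := by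
  have h2 := N.n2
  have h4 := N.n4
  have h5 := N.n5
  have e : 4 + vv ξ = 2 * (4 - ξ) / (2 - ξ) := by
    unfold vv
    field_simp
    ring
  rw [N.Bv0.self_of_nhds, e]
  unfold vv
  field_simp

lemma Nice.Dya (N : Nice k l om a B α β ξ) : Dy a (0, ξ) = 4 / (2 + ξ) ^ 2 := by
  have h1 := N.n1
  rw [MP_ae5b4e_an_ND.Dy_eq_deriv N.aa.differentiableAt]
  have h : (fun t => a (0, t)) =ᶠ[𝓝 ξ] fun t => 2 * t / (2 + t) := N.a0
  rw [h.deriv_eq]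
  have e1 : HasDerivAt (fun t : ℂ => 2 * t / (2 + t))
      ((2 * 1 * (2 + ξ) - 2 * ξ * 1) / (2 + ξ) ^ 2) ξ :=
    ((hasDerivAt_id ξ).const_mul 2).div ((hasDerivAt_id ξ).const_add 2) h1
  rw [e1.deriv]
  congr 1
  ring

lemma Nice.DyB (N : Nice k l om a B α β ξ) : Dy B (0, vv ξ) = 8 / (4 + vv ξ) ^ 2 := by
  have h1 := N.n5
  rw [MP_ae5b4e_an_ND.Dy_eq_deriv N.Bv.differentiableAt]
  have h : (fun t => B (0, t)) =ᶠ[𝓝 (vv ξ)] fun t => 2 * t / (4 + t) := N.Bv0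
  rw [h.deriv_eq]
  have e1 : HasDerivAt (fun t : ℂ => 2 * t / (4 + t))
      ((2 * 1 * (4 + vv ξ) - 2 * vv ξ * 1) / (4 + vv ξ) ^ 2) (vv ξ) :=
    ((hasDerivAt_id (vv ξ)).const_mul 2).div ((hasDerivAt_id (vv ξ)).const_add 4) h1
  rw [e1.deriv]
  congr 1
  ring

lemma Nice.Pf_tend (N : Nice k l om a B α β ξ) :
    Tendsto (Pf k a) (𝓝 (0, ξ)) (𝓝 (0, vv ξ)) := by
  have hc : ContinuousAt (fun p : ℂ × ℂ => 1 - a p) (0, ξ) :=
    continuousAt_const.sub N.aa.continuousAt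
  have h1 : ContinuousAt (fun p : ℂ × ℂ => p.1 * (1 - a p) ^ (1 / k : ℂ)) (0, ξ) := by
    refine continuousAt_fst.mul (hc.cpow continuousAt_const ?_)
    show 1 - a (0, ξ) ∈ slitPlane
    rw [N.one_sub]
    exact N.slit
  have h2 : ContinuousAt (fun p : ℂ × ℂ => a p / (1 - a p)) (0, ξ) :=
    N.aa.continuousAt.div hc N.one_sub_ne
  have h : Tendsto (Pf k a) (𝓝 (0, ξ)) (𝓝 (Pf k a (0, ξ))) := (h1.prodMk h2).tendsto
  have h3 : Pf k a (0, ξ) = (0, vv ξ) := by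
    have e : a (0, ξ) / (1 - a (0, ξ)) = vv ξ := by
      rw [N.one_sub, N.aval]
      have h4 := N.n1
      have h5 := N.n2
      unfold vv
      field_simp
    simp only [Pf, e, zero_mul]
  rwa [h3] at h

lemma Nice.Ef_tend (N : Nice k l om a B α β ξ) :
    Tendsto (Ef k a B) (𝓝 (0, ξ)) (𝓝 (2 * ξ / (4 + ξ))) := by
  have h : ContinuousAt (Ef k a B) (0, ξ) := by
    refine (N.aa.continuousAt.add ((continuousAt_fst.div_const _).mul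
      (MP_ae5b4e_an_ND.Dx_analyticAt N.aa).continuousAt)).add
      ((N.Ba.continuousAt.sub continuousAt_snd).mul
      (MP_ae5b4e_an_ND.Dy_analyticAt N.aa).continuousAt)
  have h2 := h.tendsto
  have h3 : Ef k a B (0, ξ) = 2 * ξ / (4 + ξ) := by
    have h4 := N.n1
    have h5 := N.n3
    simp only [Ef, N.aval, N.Bval, N.Dya, zero_div, zero_mul, add_zero]
    field_simp
    ring
  rwa [h3] at h2

lemma Nice.Af_tend (N : Nice k l om a B α β ξ) : Tendsto (Af k l B α) (𝓝 (0, ξ))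
    (𝓝 ((1 + l / k) * α (0, ξ) - ξ * (2 + ξ) / (4 + ξ) * deriv (fun t => α (0, t)) ξ)) := by
  have h : ContinuousAt (Af k l B α) (0, ξ) := by
    refine ((continuousAt_const.mul N.αa.continuousAt).add ((continuousAt_fst.div_const _).mul
      (MP_ae5b4e_an_ND.Dx_analyticAt N.αa).continuousAt)).add
      ((N.Ba.continuousAt.sub continuousAt_snd).mul
      (MP_ae5b4e_an_ND.Dy_analyticAt N.αa).continuousAt)
  have h2 := h.tendsto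
  have h3 : Af k l B α (0, ξ) =
      (1 + l / k) * α (0, ξ) - ξ * (2 + ξ) / (4 + ξ) * deriv (fun t => α (0, t)) ξ := by
    have h4 := N.n3
    simp only [Af, N.Bval, MP_ae5b4e_an_ND.Dy_eq_deriv N.αa.differentiableAt]
    field_simp
    ring
  rwa [h3] at h2

lemma Nice.rest (N : Nice k l om a B α β ξ) :
    Tendsto (fun w : ℂ => (B (Pf k a (sg om (w, ξ))) - B (sg om (Pf k a (w, ξ)))) / w ^ l)
      (𝓝[≠] 0) (𝓝 (8 / (4 + vv ξ) ^ 2 * (α (0, ξ) / ((2 - ξ) / (2 + ξ)) ^ 2))) := by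
  set F : Filter ℂ := 𝓝[≠] (0:ℂ) with hF
  set q0 : ℂ × ℂ := (0, vv ξ) with hq0
  have t0 : Tendsto (fun w : ℂ => ((w, ξ) : ℂ × ℂ)) F (𝓝 (0, ξ)) := punct_tend ξ
  have t1 : Tendsto (fun w : ℂ => sg om (w, ξ)) F (𝓝 (0, ξ)) := (sg_tend om ξ).comp t0
  set c0 : ℂ := a (0, ξ) with hc0
  have ta : Tendsto (fun w : ℂ => a (w, ξ)) F (𝓝 c0) := N.aa.continuousAt.tendsto.comp t0
  have ta' : Tendsto (fun w : ℂ => a (sg om (w, ξ))) F (𝓝 c0) :=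
    N.aa.continuousAt.tendsto.comp t1
  have hslit : 1 - c0 ∈ slitPlane := by
    rw [hc0, N.one_sub]
    exact N.slit
  have hdiff : (fun w : ℂ => a (sg om (w, ξ)) - a (w, ξ)) =O[F] (fun w : ℂ => w ^ l) := by
    have h1 : (fun w : ℂ => a (sg om (w, ξ)) - a (w, ξ)) =ᶠ[F]
        (fun w : ℂ => w ^ l * α (w, ξ)) := t0.eventually N.rel
    refine h1.trans_isBigO ?_
    have h2 : (fun w : ℂ => α (w, ξ)) =O[F] (fun _ => (1 : ℂ)) :=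
      (N.αa.continuousAt.tendsto.comp t0).isBigO_one ℂ
    have h3 := (isBigO_refl (fun w : ℂ => w ^ l) F).mul h2
    simpa using h3
  have hh : AnalyticAt ℂ (fun z : ℂ => (1 - z) ^ (1 / k : ℂ)) c0 :=
    (analyticAt_const.sub analyticAt_id).cpow analyticAt_const hslit
  have hψ : AnalyticAt ℂ (fun z : ℂ => z / (1 - z)) c0 :=
    analyticAt_id.div (analyticAt_const.sub analyticAt_id) N.one_sub_ne
  have o1 := comp_bigO hh ta' ta hdiff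
  have o2 := comp_bigO hψ ta' ta hdiff
  -- the first components
  have e1 : (fun w : ℂ => (Pf k a (sg om (w, ξ))).1 - (sg om (Pf k a (w, ξ))).1) =o[F]
      (fun w : ℂ => w ^ l) := by
    have h1 : (fun w : ℂ => (Pf k a (sg om (w, ξ))).1 - (sg om (Pf k a (w, ξ))).1) =
        fun w : ℂ => (om * w) * ((1 - a (sg om (w, ξ))) ^ (1 / k : ℂ) -
          (1 - a (w, ξ)) ^ (1 / k : ℂ)) := by
      funext w
      simp only [Pf, sg]
      ring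
    rw [h1]
    have h2 : (fun w : ℂ => om * w) =o[F] (fun _ => (1 : ℂ)) := by
      rw [isLittleO_one_iff]
      have h3 : Tendsto (fun w : ℂ => om * w) (𝓝 0) (𝓝 (om * 0)) :=
        (continuous_const.mul continuous_id).tendsto 0
      rw [mul_zero] at h3
      exact h3.mono_left nhdsWithin_le_nhds
    have h3 := h2.mul_isBigO o1
    simpa using h3
  have e2 : (fun w : ℂ => (Pf k a (sg om (w, ξ))).2 - (sg om (Pf k a (w, ξ))).2) =O[F]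
      (fun w : ℂ => w ^ l) := o2
  have hO : (fun w : ℂ => Pf k a (sg om (w, ξ)) - sg om (Pf k a (w, ξ))) =O[F]
      (fun w : ℂ => w ^ l) := by
    have h1 : (fun w : ℂ => Pf k a (sg om (w, ξ)) - sg om (Pf k a (w, ξ))) =
        fun w : ℂ => ((Pf k a (sg om (w, ξ))).1 - (sg om (Pf k a (w, ξ))).1,
          (Pf k a (sg om (w, ξ))).2 - (sg om (Pf k a (w, ξ))).2) := rfl
    rw [h1]
    exact e1.isBigO.prod_left e2
  have g1 : Tendsto (fun w : ℂ => Pf k a (sg om (w, ξ))) F (𝓝 q0) := N.Pf_tend.comp t1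
  have g2 : Tendsto (fun w : ℂ => sg om (Pf k a (w, ξ))) F (𝓝 q0) :=
    (sg_tend om (vv ξ)).comp (N.Pf_tend.comp t0)
  have s1 := (N.Bv.hasStrictFDerivAt.isLittleO.comp_tendsto (g1.prodMk_nhds g2)).trans_isBigO hO
  -- the limit of the second components
  have l2 : Tendsto (fun w : ℂ => ((Pf k a (sg om (w, ξ))).2 - (sg om (Pf k a (w, ξ))).2) / w ^ l)
      F (𝓝 (α (0, ξ) / ((2 - ξ) / (2 + ξ)) ^ 2)) := by
    have h1 : Tendsto (fun w : ℂ => α (w, ξ) / ((1 - a (w, ξ)) * (1 - a (sg om (w, ξ))))) F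
        (𝓝 (α (0, ξ) / ((1 - c0) * (1 - c0)))) :=
      (N.αa.continuousAt.tendsto.comp t0).div
        ((tendsto_const_nhds.sub ta).mul (tendsto_const_nhds.sub ta'))
        (mul_ne_zero N.one_sub_ne N.one_sub_ne)
    have h2 : (1 - c0) * (1 - c0) = ((2 - ξ) / (2 + ξ)) ^ 2 := by
      rw [hc0, N.one_sub, sq]
    rw [h2] at h1
    refine h1.congr' ?_
    have n1 : ∀ᶠ w in F, 1 - a (w, ξ) ≠ 0 :=
      (tendsto_const_nhds.sub ta).eventually_ne N.one_sub_ne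
    have n2 : ∀ᶠ w in F, 1 - a (sg om (w, ξ)) ≠ 0 :=
      (tendsto_const_nhds.sub ta').eventually_ne N.one_sub_ne
    filter_upwards [n1, n2, t0.eventually N.rel, self_mem_nhdsWithin] with w m1 m2 m3 m4
    have hw : w ^ l ≠ 0 := pow_ne_zero _ m4
    have m3' : a (sg om (w, ξ)) - a (w, ξ) = w ^ l * α (w, ξ) := m3
    have m5 : (Pf k a (sg om (w, ξ))).2 - (sg om (Pf k a (w, ξ))).2 =
        a (sg om (w, ξ)) / (1 - a (sg om (w, ξ))) - a (w, ξ) / (1 - a (w, ξ)) := rfl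
    rw [m5]
    have m6 : a (sg om (w, ξ)) / (1 - a (sg om (w, ξ))) - a (w, ξ) / (1 - a (w, ξ)) =
        w ^ l * α (w, ξ) / ((1 - a (w, ξ)) * (1 - a (sg om (w, ξ)))) := by
      rw [← m3']
      field_simp
      ring
    rw [m6]
    field_simp
  have l1 : Tendsto (fun w : ℂ => ((Pf k a (sg om (w, ξ))).1 - (sg om (Pf k a (w, ξ))).1) / w ^ l)
      F (𝓝 0) := e1.tendsto_div_nhds_zero
  have l0 := s1.tendsto_div_nhds_zero
  have key : (fun w : ℂ => (B (Pf k a (sg om (w, ξ))) - B (sg om (Pf k a (w, ξ)))) / w ^ l) =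
      fun w : ℂ => (((fun p : (ℂ × ℂ) × ℂ × ℂ => B p.1 - B p.2 - (fderiv ℂ B q0) (p.1 - p.2)) ∘
        fun w : ℂ => (Pf k a (sg om (w, ξ)), sg om (Pf k a (w, ξ)))) w) / w ^ l +
        (Dx B q0 * (((Pf k a (sg om (w, ξ))).1 - (sg om (Pf k a (w, ξ))).1) / w ^ l) +
        Dy B q0 * (((Pf k a (sg om (w, ξ))).2 - (sg om (Pf k a (w, ξ))).2) / w ^ l)) := by
    funext w
    set z : ℂ × ℂ := Pf k a (sg om (w, ξ)) - sg om (Pf k a (w, ξ)) with hz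
    have hz2 : z = z.1 • ((1, 0) : ℂ × ℂ) + z.2 • ((0, 1) : ℂ × ℂ) := by
      ext <;> simp
    have h2 : fderiv ℂ B q0 z = z.1 * fderiv ℂ B q0 (1, 0) + z.2 * fderiv ℂ B q0 (0, 1) := by
      conv_lhs => rw [hz2]
      rw [map_add, map_smul, map_smul, smul_eq_mul, smul_eq_mul]
    have h3 : z.1 = (Pf k a (sg om (w, ξ))).1 - (sg om (Pf k a (w, ξ))).1 := rfl
    have h4 : z.2 = (Pf k a (sg om (w, ξ))).2 - (sg om (Pf k a (w, ξ))).2 := rfl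
    have h5 : Dx B q0 = fderiv ℂ B q0 (1, 0) := rfl
    have h6 : Dy B q0 = fderiv ℂ B q0 (0, 1) := rfl
    simp only [Function.comp]
    rw [← hz, h2, ← h3, ← h4, h5, h6]
    ring
  rw [key]
  have hfin := l0.add ((l1.const_mul (Dx B q0)).add (l2.const_mul (Dy B q0)))
  have hlim : (0 : ℂ) + (Dx B q0 * 0 + Dy B q0 * (α (0, ξ) / ((2 - ξ) / (2 + ξ)) ^ 2)) =
      8 / (4 + vv ξ) ^ 2 * (α (0, ξ) / ((2 - ξ) / (2 + ξ)) ^ 2) := by
    rw [mul_zero, zero_add, zero_add, hq0, N.DyB]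
  rw [hlim] at hfin
  exact hfin

lemma Nice.key (N : Nice k l om a B α β ξ) :
    ((2 - ξ) / (2 + ξ)) ^ (((l : ℝ) / k : ℝ) : ℂ) * β (0, 2 * ξ / (2 - ξ)) -
          ((4 + ξ) / (4 - ξ)) ^ 2 * (4 / (2 + ξ) ^ 2) * β (0, ξ) =
        ((4 + ξ) / (4 - ξ)) ^ 2 * ((1 + ((l : ℝ) / k : ℝ)) * α (0, ξ) -
          ξ * (2 + ξ) / (4 + ξ) * deriv (fun ξ => α (0, ξ)) ξ) -
        2 * (2 + ξ) ^ 2 / (4 - ξ) ^ 2 * α (0, ξ) := by
  set F : Filter ℂ := 𝓝[≠] (0:ℂ) with hF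
  have t0 : Tendsto (fun w : ℂ => ((w, ξ) : ℂ × ℂ)) F (𝓝 (0, ξ)) := punct_tend ξ
  have t1 : Tendsto (fun w : ℂ => sg om (w, ξ)) F (𝓝 (0, ξ)) := (sg_tend om ξ).comp t0
  have tP : Tendsto (fun w : ℂ => Pf k a (w, ξ)) F (𝓝 (0, vv ξ)) := N.Pf_tend.comp t0
  have tE : Tendsto (fun w : ℂ => Ef k a B (sg om (w, ξ))) F (𝓝 (2 * ξ / (4 + ξ))) :=
    N.Ef_tend.comp t1
  have tB : Tendsto (fun w : ℂ => B (Pf k a (w, ξ))) F (𝓝 (2 * ξ / (4 - ξ))) := by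
    have h := N.Bv.continuousAt.tendsto.comp tP
    rwa [N.Bvval] at h
  have tD : Tendsto (fun w : ℂ => Dy a (sg om (w, ξ))) F (𝓝 (4 / (2 + ξ) ^ 2)) := by
    have h := (MP_ae5b4e_an_ND.Dy_analyticAt N.aa).continuousAt.tendsto.comp t1
    rwa [N.Dya] at h
  have tf : Tendsto (fun w : ℂ => β (w, ξ)) F (𝓝 (β (0, ξ))) :=
    N.βa.continuousAt.tendsto.comp t0
  have tfP : Tendsto (fun w : ℂ => β (Pf k a (w, ξ))) F (𝓝 (β (0, vv ξ))) :=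
    N.βv.continuousAt.tendsto.comp tP
  have th : Tendsto (fun w : ℂ => (1 - a (w, ξ)) ^ (1 / k : ℂ)) F
      (𝓝 (((2 - ξ) / (2 + ξ)) ^ (1 / k : ℂ))) := by
    have hsl : 1 - a (0, ξ) ∈ slitPlane := by
      rw [N.one_sub]
      exact N.slit
    have hh : ContinuousAt (fun z : ℂ => (1 - z) ^ (1 / k : ℂ)) (a (0, ξ)) :=
      ((analyticAt_const.sub analyticAt_id).cpow analyticAt_const hsl :
        AnalyticAt ℂ (fun z : ℂ => (1 - z) ^ (1 / k : ℂ)) (a (0, ξ))).continuousAt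
    have ta : Tendsto (fun w : ℂ => a (w, ξ)) F (𝓝 (a (0, ξ))) :=
      N.aa.continuousAt.tendsto.comp t0
    have h := hh.tendsto.comp ta
    rw [N.one_sub] at h
    exact h
  set R : ℂ := 8 / (4 + vv ξ) ^ 2 * (α (0, ξ) / ((2 - ξ) / (2 + ξ)) ^ 2) with hR0
  have hL : Tendsto (fun w : ℂ => ((1 - a (w, ξ)) ^ (1 / k : ℂ)) ^ l * β (Pf k a (w, ξ)) *
      (1 - Ef k a B (sg om (w, ξ))) - β (w, ξ) * Dy a (sg om (w, ξ)) *
      (1 + B (Pf k a (w, ξ)))) F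
      (𝓝 ((((2 - ξ) / (2 + ξ)) ^ (1 / k : ℂ)) ^ l * β (0, vv ξ) * (1 - 2 * ξ / (4 + ξ)) -
        β (0, ξ) * (4 / (2 + ξ) ^ 2) * (1 + 2 * ξ / (4 - ξ)))) :=
    (((th.pow l).mul tfP).mul (tendsto_const_nhds.sub tE)).sub
      ((tf.mul tD).mul (tendsto_const_nhds.add tB))
  have hR : Tendsto (fun w : ℂ => Af k l B α (w, ξ) * (1 + B (Pf k a (w, ξ))) -
      (B (Pf k a (sg om (w, ξ))) - B (sg om (Pf k a (w, ξ)))) / w ^ l *
      (1 - Ef k a B (sg om (w, ξ)))) F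
      (𝓝 (((1 + l / k) * α (0, ξ) - ξ * (2 + ξ) / (4 + ξ) * deriv (fun t => α (0, t)) ξ) *
        (1 + 2 * ξ / (4 - ξ)) - R * (1 - 2 * ξ / (4 + ξ)))) :=
    ((N.Af_tend.comp t0).mul (tendsto_const_nhds.add tB)).sub
      (N.rest.mul (tendsto_const_nhds.sub tE))
  have heq : (fun w : ℂ => ((1 - a (w, ξ)) ^ (1 / k : ℂ)) ^ l * β (Pf k a (w, ξ)) *
      (1 - Ef k a B (sg om (w, ξ))) - β (w, ξ) * Dy a (sg om (w, ξ)) *
      (1 + B (Pf k a (w, ξ)))) =ᶠ[F]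
      (fun w : ℂ => Af k l B α (w, ξ) * (1 + B (Pf k a (w, ξ))) -
      (B (Pf k a (sg om (w, ξ))) - B (sg om (Pf k a (w, ξ)))) / w ^ l *
      (1 - Ef k a B (sg om (w, ξ)))) := by
    filter_upwards [t0.eventually N.st, t0.eventually N.relB, tP.eventually N.relBv,
      self_mem_nhdsWithin] with w hw1 hw2 hw3 hw4
    have hw0 : w ≠ 0 := hw4
    have hP1 : (Pf k a (w, ξ)).1 ^ l = w ^ l * ((1 - a (w, ξ)) ^ (1 / k : ℂ)) ^ l := by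
      show (w * (1 - a (w, ξ)) ^ (1 / k : ℂ)) ^ l = _
      rw [mul_pow]
    rw [hP1] at hw3
    have hs : (B (sg om (Pf k a (w, ξ))) - B (Pf k a (w, ξ))) * (1 - Ef k a B (sg om (w, ξ))) -
      (B (sg om (w, ξ)) - B (w, ξ)) * Dy a (sg om (w, ξ)) * (1 + B (Pf k a (w, ξ))) =
      w ^ l * Af k l B α (w, ξ) * (1 + B (Pf k a (w, ξ))) -
      (B (Pf k a (sg om (w, ξ))) - B (sg om (Pf k a (w, ξ)))) *
        (1 - Ef k a B (sg om (w, ξ))) := hw1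
    rw [hw3, hw2] at hs
    have hwl : w ^ l ≠ 0 := pow_ne_zero _ hw0
    apply mul_left_cancel₀ hwl
    have e1 : w ^ l * (Af k l B α (w, ξ) * (1 + B (Pf k a (w, ξ))) -
      (B (Pf k a (sg om (w, ξ))) - B (sg om (Pf k a (w, ξ)))) / w ^ l *
      (1 - Ef k a B (sg om (w, ξ)))) = w ^ l * Af k l B α (w, ξ) * (1 + B (Pf k a (w, ξ))) -
      (B (Pf k a (sg om (w, ξ))) - B (sg om (Pf k a (w, ξ)))) *
        (1 - Ef k a B (sg om (w, ξ))) := by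
      field_simp
    rw [e1, ← hs]
    ring
  have hfin := tendsto_nhds_unique_of_eventuallyEq hL hR heq
  have h1 := N.n1
  have h2 := N.n2
  have h3 := N.n3
  have h4 := N.n4
  have epow : (((2 - ξ) / (2 + ξ)) ^ (1 / k : ℂ)) ^ l =
      ((2 - ξ) / (2 + ξ)) ^ (((l : ℝ) / k : ℝ) : ℂ) := by
    rw [← Complex.cpow_nat_mul]
    congr 1
    push_cast
    ring
  rw [epow] at hfin
  have eE : 1 - 2 * ξ / (4 + ξ) = (4 - ξ) / (4 + ξ) := by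
    field_simp
    ring
  have eB : 1 + 2 * ξ / (4 - ξ) = (4 + ξ) / (4 - ξ) := by
    field_simp
    ring
  have eR : R = 2 * (2 + ξ) ^ 2 / (4 - ξ) ^ 2 * α (0, ξ) := by
    have e : 4 + vv ξ = 2 * (4 - ξ) / (2 - ξ) := by
      unfold vv
      field_simp
      ring
    rw [hR0, e]
    field_simp
    ring
  rw [eE, eB, eR] at hfin
  have hc : (((1 : ℂ) + ((l : ℝ) / k : ℝ))) = 1 + l / k := by push_cast; ring
  rw [hc]
  have hv : (2 * ξ / (2 - ξ) : ℂ) = vv ξ := rfl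
  rw [hv]
  set X : ℂ := ((2 - ξ) / (2 + ξ)) ^ (((l : ℝ) / k : ℝ) : ℂ) * β (0, vv ξ) with hX
  set Y : ℂ := (1 + (l : ℂ) / k) * α (0, ξ) -
    ξ * (2 + ξ) / (4 + ξ) * deriv (fun t => α (0, t)) ξ with hY
  have hq : (4 - ξ) / (4 + ξ) * ((4 + ξ) / (4 - ξ)) = 1 := by
    field_simp
  linear_combination ((4 + ξ) / (4 - ξ)) * hfin - X * hq -
    2 * (2 + ξ) ^ 2 / (4 - ξ) ^ 2 * α (0, ξ) * hq

end lim

end SlopeDiffM

/-- the first order of the slope, ramified places -/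
theorem slope_diff_one {k l : ℕ} (hk : 2 ≤ k) (hl : 0 < l) {om : ℂ} (hom : om ^ k = 1)
    {a B α β : ℂ × ℂ → ℂ} (ha : AnalyticAt ℂ a (0, 0)) (hB : AnalyticAt ℂ B (0, 0))
    (hα : AnalyticAt ℂ α (0, 0)) (hβ : AnalyticAt ℂ β (0, 0))
    (ha0 : ∀ᶠ ξ in 𝓝 (0:ℂ), a (0, ξ) = 2 * ξ / (2 + ξ))
    (hB0 : ∀ᶠ ξ in 𝓝 (0:ℂ), B (0, ξ) = 2 * ξ / (4 + ξ))
    (hFI : ∀ᶠ p in 𝓝 ((0, 0) : ℂ × ℂ),
      B (p.1 * (1 - a p) ^ (1 / k : ℂ), a p / (1 - a p)) *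
        (1 - (a p + p.1 / k * Dx a p + (B p - p.2) * Dy a p)) =
      a p + p.1 / k * Dx a p + (B p - p.2) * Dy a p)
    (haα : ∀ᶠ p in 𝓝 ((0, 0) : ℂ × ℂ), a (om * p.1, p.2) - a p = p.1 ^ l * α p)
    (hBβ : ∀ᶠ p in 𝓝 ((0, 0) : ℂ × ℂ), B (om * p.1, p.2) - B p = p.1 ^ l * β p) :
    ∀ᶠ ξ in 𝓝[≠] (0:ℂ),
      ((2 - ξ) / (2 + ξ)) ^ (((l : ℝ) / k : ℝ) : ℂ) * β (0, 2 * ξ / (2 - ξ)) -
          ((4 + ξ) / (4 - ξ)) ^ 2 * (4 / (2 + ξ) ^ 2) * β (0, ξ) =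
        ((4 + ξ) / (4 - ξ)) ^ 2 * ((1 + ((l : ℝ) / k : ℝ)) * α (0, ξ) -
          ξ * (2 + ξ) / (4 + ξ) * deriv (fun ξ => α (0, ξ)) ξ) -
        2 * (2 + ξ) ^ 2 / (4 - ξ) ^ 2 * α (0, ξ) := by
  have hN := SlopeDiffM.nice_ev (k := k) hl ha hB hα hβ ha0 hB0 hFI haα hBβ
  refine Eventually.filter_mono nhdsWithin_le_nhds ?_
  filter_upwards [hN] with ξ N
  exact N.key

end Pool.Agent.MP_ae5b4e_an_MET
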