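import Mathlib
import Pool.Agent.Lib.MP_ae5b4e_an_ALG.DefsB
import Pool.Agent.Lib.MP_ae5b4e_an_ALG.NoRam
import Pool.Agent.Lib.MP_ae5b4e_an_ALG.MDiff
import Pool.Agent.Lib.MP_ae5b4e_an_ALG.SlopeDiff
import Pool.Agent.Lib.MP_ae5b4e_an_ALG.RamEq
import Pool.Agent.Lib.MP_ae5b4e_an_MET.SlopeDiffM
import Pool.Agent.Lib.MP_ae5b4e_an_MET.RamCoordM
import Pool.Agent.Lib.MP_ae5b4e_an_MET.KickDiffM
import Pool.Agent.Lib.MP_ae5b4e_an_MET.RamEqM

/-!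
# MP_ae5b4e_an, meromorphic tables: no ramified place of type `(k, 2 k)` (module RN)

The curve `(w ^ k, w ^ (2 k) v w)` with `v 0 ≠ 0` and `v (om w) ≠ v w` for a root of unity `om`
of order dividing `k` carries no good foliation with metric exponent `κ w / w` near `w = 0`, if
`κ 0 = 0` or `κ 0 = - k` and `κ` differs from its rotation by `om` at a higher order than `v`.
-/

set_option autoImplicit false

noncomputable section

namespace Pool.Agent.MP_ae5b4e_an_MET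

open Filter Topology Set Metric Complex
open scoped Real
open Pool.Agent.MP_ae5b4e_an_ND (Dx Dy)
open Pool.Agent.MP_ae5b4e_an_FLEX (SerY bs GoodG PlaceY)
open Pool.Agent.MP_ae5b4e_an_ALG (EE)

theorem no_ram_met {k : ℕ} (hk : 2 ≤ k) {v κ : ℂ → ℂ} (hv : AnalyticAt ℂ v 0) (hv0 : v 0 ≠ 0)
    {om : ℂ} (hom : om ^ k = 1) (hne : ¬ ∀ᶠ w in 𝓝 (0:ℂ), v (om * w) = v w)
    (hκ : AnalyticAt ℂ κ 0) {c : ℂ} (hc : c = 0 ∨ c = 1) (hκ0 : κ 0 = -(c * k))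
    (hκd : ∀ (l : ℕ) (ψ : ℂ → ℂ), AnalyticAt ℂ ψ 0 →
      (∀ᶠ w in 𝓝 (0:ℂ), v (om * w) - v w = w ^ l * ψ w) →
      ∃ χ : ℂ → ℂ, AnalyticAt ℂ χ 0 ∧ ∀ᶠ w in 𝓝 (0:ℂ), κ (om * w) - κ w = w ^ (l + 1) * χ w)
    (hg : ∀ᶠ s in 𝓝[≠] (0:ℂ), GoodG (fun w => w ^ k) (fun w => w ^ (2 * k) * v w)
      (fun w => κ w / w) s) : False := by
  have hk0 : 0 < k := by omega
  obtain ⟨l, ψ, hl, hkl, hψ, hψ0, hd⟩ :=
    Pool.Agent.MP_ae5b4e_an_ALG.NoRam.exists_order hk0 hv hom hne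
  obtain ⟨χ, hχ, hχe⟩ := hκd l ψ hψ hd
  obtain ⟨m, a, B, hm, ha, hB, hm0, ha0, hB0, hrel, hFI, hmrel, hslope⟩ :=
    ram_coord_met hk hv hv0 hκ hc hκ0 hg
  have hM := Pool.Agent.MP_ae5b4e_an_ALG.m_diff hk hl hom hv hv0 hψ hd hm hm0 hmrel
  obtain ⟨α, hα, haα, hα0⟩ := kick_diff_met hk0 hl hm ha hκ hκ0 hχ hχe hm0 ha0 hrel hM
  have hkR : (0 : ℝ) < k := by exact_mod_cast hk0
  have hlR : (0 : ℝ) < l := by exact_mod_cast hl
  have hlk : (0 : ℝ) < (l : ℝ) / k := div_pos hlR hkR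
  have hni : ∀ n : ℕ, (l : ℝ) / k ≠ n := by
    intro n hn
    apply hkl
    refine ⟨n, ?_⟩
    have h1 : (l : ℝ) = n * k := by
      rw [← hn]
      field_simp
    have h2 : (l : ℝ) = ((k * n : ℕ) : ℝ) := by
      rw [h1]
      push_cast
      ring
    exact_mod_cast h2
  have hom1 : ‖om‖ = 1 := by
    have h1 : ‖om‖ ^ k = 1 := by rw [← norm_pow, hom, norm_one]
    exact (pow_eq_one_iff_of_nonneg (norm_nonneg om) hk0.ne').1 h1
  rcases hc with rfl | rfl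
  · -- the case `c = 0`
    have ha0' : ∀ᶠ ξ in 𝓝 (0:ℂ), a (0, ξ) = ξ := by
      filter_upwards [ha0] with ξ hξ
      rw [hξ]
      simp
    have hB0' : ∀ᶠ ξ in 𝓝 (0:ℂ), B (0, ξ) = 0 := by
      filter_upwards [hB0] with ξ hξ
      rw [hξ]
      simp
    obtain ⟨γ, hγ, hγe⟩ := Pool.Agent.MP_ae5b4e_an_ALG.slope_diff hk hl hkl hom ha hB hα
      ha0' hB0' hFI haα
    refine Pool.Agent.MP_ae5b4e_an_ALG.no_ram_eq (la := (l : ℝ) / k) hlk hni (C := ψ 0 / v 0)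
      (div_ne_zero hψ0 hv0) hγ ?_
    have h3 := Pool.Agent.MP_ae5b4e_an_ALG.NoRam.rhs_eq (k := k) (l := l) (c := ψ 0 / v 0)
      (α := α) (by
        filter_upwards [hα0] with ξ hξ
        rw [hξ]
        have h4 : -(2 * ξ / (2 + 0 * ξ)) = -ξ := by
          rw [zero_mul, add_zero]
          field_simp
        have h5 : (4 : ℂ) / (2 + 0 * ξ) ^ 2 = 1 := by
          rw [zero_mul, add_zero]
          norm_num
        rw [h4, h5]
        field_simp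
        ring)
    filter_upwards [hγe, h3] with ξ h4 h5
    rw [h4, h5]
  · -- the case `c = 1`
    obtain ⟨β, hβ, hBβ⟩ := hslope om hom1 l α hα haα
    have ha0' : ∀ᶠ ξ in 𝓝 (0:ℂ), a (0, ξ) = 2 * ξ / (2 + ξ) := by
      filter_upwards [ha0] with ξ hξ
      rw [hξ, one_mul]
    have hB0' : ∀ᶠ ξ in 𝓝 (0:ℂ), B (0, ξ) = 2 * ξ / (4 + ξ) := by
      filter_upwards [hB0] with ξ hξ
      rw [hξ, one_mul, mul_one]
    have h1 := slope_diff_one hk hl hom ha hB hα hβ ha0' hB0' hFI haα hBβ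
    have hline : AnalyticAt ℂ (fun ξ : ℂ => β (0, ξ)) 0 := by
      have h2 : AnalyticAt ℂ (fun ξ : ℂ => ((0, ξ) : ℂ × ℂ)) 0 :=
        analyticAt_const.prod analyticAt_id
      exact AnalyticAt.comp (f := fun ξ : ℂ => ((0, ξ) : ℂ × ℂ)) (g := β) (x := 0) hβ h2
    refine no_ram_eq_one (mu := (l : ℝ) / k) hlk hni (C := ψ 0 / (2 * v 0))
      (div_ne_zero hψ0 (mul_ne_zero two_ne_zero hv0)) (γ := fun ξ => β (0, ξ))
      (α := fun ξ => α (0, ξ)) hline ?_ ?_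
    · filter_upwards [hα0] with ξ hξ
      rw [hξ, one_mul]
      field_simp
      ring
    · filter_upwards [h1] with ξ hξ
      exact hξ

end Pool.Agent.MP_ae5b4e_an_MET
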