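import Mathlib
import Pool.Agent.Lib.MP_ae5b4e_an_MET.DefsT
import Pool.Agent.Lib.MP_ae5b4e_an_MET.NoRamM
import Pool.Agent.Lib.MP_ae5b4e_an_MET.KapQuad
import Pool.Agent.Lib.MP_ae5b4e_an_ALG.Trans

/-!
# MP_ae5b4e_an, project MET, part T: the ramified places for the involutions of a form
-/

set_option autoImplicit false

noncomputable section

namespace Pool.Agent.MP_ae5b4e_an_MET

open Filter Topology Set Metric Complex Polynomial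
open scoped Real
open Pool.Agent.MP_ae5b4e_an_ND (Dx Dy Reg)
open Pool.Agent.MP_ae5b4e_an_FLEX
open Pool.Agent.MP_ae5b4e_an_ALG

theorem no_ram_q {k : ℕ} (hk : 2 ≤ k) {v : ℂ → ℂ} (hv : AnalyticAt ℂ v 0) (hv0 : v 0 ≠ 0)
    {om : ℂ} (hom : om ^ k = 1) (hne : ¬ ∀ᶠ w in 𝓝 (0:ℂ), v (om * w) = v w) {q : Fin 6 → ℂ}
    (hq : q 5 ≠ 0 ∨ q 3 ≠ 0)
    (hg : ∀ᶠ s in 𝓝[≠] (0:ℂ), GoodG (fun w => w ^ k) (fun w => w ^ (2 * k) * v w)
      (kf q (fun w => w ^ k) (fun w => w ^ (2 * k) * v w)) s) : False := by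
  obtain ⟨c, hc01, hc⟩ : ∃ c : ℂ, (c = 0 ∨ c = 1) ∧
      ((c = 0 ∧ q 5 ≠ 0) ∨ (c = 1 ∧ q 5 = 0 ∧ q 3 ≠ 0)) := by
    by_cases h5 : q 5 = 0
    · exact ⟨1, Or.inr rfl, Or.inr ⟨rfl, h5, hq.resolve_left fun h => h h5⟩⟩
    · exact ⟨0, Or.inl rfl, Or.inl ⟨rfl, h5⟩⟩
  obtain ⟨κ, hκ, hκ0, hκe, hκd⟩ := kap_quad (q0 := q 5) (q1 := q 3) (q2 := q 0) (q3 := q 4)
    (q4 := q 1) (q5 := q 2) hk hv hom hc
    (Qf := qf q (fun w => w ^ k) (fun w => w ^ (2 * k) * v w)) (fun w => by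
      simp only [qf, QC]
      ring)
  refine no_ram_met hk hv hv0 hom hne hκ hc01 hκ0 hκd ?_
  have h1 : ∀ᶠ s in 𝓝[≠] (0:ℂ),
      kf q (fun w => w ^ k) (fun w => w ^ (2 * k) * v w) =ᶠ[𝓝 s] fun w => κ w / w := by
    filter_upwards [eventually_eventually_nhdsWithin.2 hκe, self_mem_nhdsWithin] with s hs hs0
    rw [IsOpen.nhdsWithin_eq isOpen_compl_singleton hs0] at hs
    exact hs
  filter_upwards [hg, h1] with s hs hs1
  exact goodG_congr hs (Filter.EventuallyEq.refl _ _) (Filter.EventuallyEq.refl _ _) hs1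

end Pool.Agent.MP_ae5b4e_an_MET
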