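import Mathlib
import Pool.Agent.Lib.MP_ae5b4e_an_ALG.Finite
import Pool.Agent.Lib.MP_ae5b4e_an_ALG.MongeA
import Pool.Agent.Lib.MP_ae5b4e_an_MET.DefsT
import Pool.Agent.Lib.MP_ae5b4e_an_MET.PlaceM
import Pool.Agent.Lib.MP_ae5b4e_an_MET.OrdQ
import Pool.Agent.Lib.MP_ae5b4e_an_MET.RamM
import Pool.Agent.Lib.MP_ae5b4e_an_MET.AffM
import Pool.Agent.Lib.MP_ae5b4e_an_MET.MongeFin

/-!
# MP_ae5b4e_an, project MET, part T, module TF: finite places
-/

set_option autoImplicit false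

noncomputable section

namespace Pool.Agent.MP_ae5b4e_an_MET

open Filter Topology Set Metric Complex Polynomial
open scoped Real
open Pool.Agent.MP_ae5b4e_an_ND (Dx Dy Reg)
open Pool.Agent.MP_ae5b4e_an_FLEX
open Pool.Agent.MP_ae5b4e_an_ALG

namespace FinM

open Pool.Agent.MP_ae5b4e_an_ALG.FinitePl

/-- the places which are not regular -/
lemma core {a b : ℕ} (ha : 0 < a) (hab : a < b) {x1 y1 X h : ℂ → ℂ} {q q' : Fin 6 → ℂ}
    (hx : AnalyticAt ℂ x1 0) (hx0 : x1 0 ≠ 0) (hy : AnalyticAt ℂ y1 0) (hy0 : y1 0 ≠ 0)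
    (hqf : ∀ᶠ w in 𝓝 (0:ℂ), qf q X h w = qf q' (fun w => w ^ a * x1 w) (fun w => w ^ b * y1 w) w)
    (hg : ∀ᶠ s in 𝓝[≠] (0:ℂ), GoodG (fun w => w ^ a * x1 w) (fun w => w ^ b * y1 w)
      (kf q' (fun w => w ^ a * x1 w) (fun w => w ^ b * y1 w)) s)
    (hne : ∀ᶠ s in 𝓝[≠] (0:ℂ), qf q' (fun w => w ^ a * x1 w) (fun w => w ^ b * y1 w) s ≠ 0)
    {E : ℂ → ℂ} (hE : AnalyticAt ℂ E 0) (hE0 : b = 2 * a → E 0 = 0)
    (hM : ∀ᶠ w in 𝓝[≠] (0:ℂ), MD X h w = E w / w ^ (a + b))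
    (hram : b = 2 * a → (q' 5 ≠ 0 ∨ q' 3 ≠ 0) → False) :
    ∃ F : ℂ → ℂ, AnalyticAt ℂ F 0 ∧ (∀ᶠ w in 𝓝[≠] (0:ℂ), FQ q X h w = F w) ∧ F 0 = 0 := by
  obtain ⟨k0, u, hu, hu0, hue, hcase, hcase2, -⟩ := qf_order ha hab hx hx0 hy hy0 hne
  -- the final step
  have fin : 2 * (a + b) ≤ 3 * k0 → (2 * (a + b) = 3 * k0 → E 0 = 0) →
      ∃ F : ℂ → ℂ, AnalyticAt ℂ F 0 ∧ (∀ᶠ w in 𝓝[≠] (0:ℂ), FQ q X h w = F w) ∧ F 0 = 0 := by
    intro h1 h2
    refine ⟨fun w => E w ^ 2 * w ^ (3 * k0 - 2 * (a + b)) * u w ^ 3, ?_, ?_, ?_⟩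
    · exact ((hE.pow 2).mul (analyticAt_id.pow _)).mul (hu.pow 3)
    · filter_upwards [hM, hqf.filter_mono nhdsWithin_le_nhds, hue.filter_mono nhdsWithin_le_nhds,
        self_mem_nhdsWithin] with w e1 e2 e3 e4
      have e5 : w ≠ 0 := e4
      have e6 : w ^ (3 * k0) = w ^ (3 * k0 - 2 * (a + b)) * w ^ (2 * (a + b)) := by
        rw [← pow_add]
        congr 1
        omega
      unfold FQ
      rw [e1, e2, e3, div_pow, mul_pow, ← pow_mul, ← pow_mul, mul_comm k0 3, e6,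
        mul_comm (a + b) 2]
      have e7 : w ^ (2 * (a + b)) ≠ 0 := pow_ne_zero _ e5
      field_simp
    · beta_reduce
      rcases Nat.eq_or_lt_of_le h1 with h3 | h3
      · rw [h2 h3]
        ring
      · rw [zero_pow (by omega : 3 * k0 - 2 * (a + b) ≠ 0)]
        ring
  by_cases hb : b = 2 * a
  · rcases hcase2 hb with h1 | h1 | h1
    · exact (hram hb (Or.inl h1)).elim
    · exact (hram hb (Or.inr h1)).elim
    · exact fin (by omega) fun _ => hE0 hb
  · have h1 := hcase hb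
    by_cases h2 : 2 * (a + b) < 3 * k0
    · exact fin h2.le fun h3 => absurd h3 h2.ne
    · exfalso
      have h3 : k0 = 0 ∨ k0 = a ∨ (k0 = 2 * a ∧ 2 * a < b) ∨ (k0 = b ∧ b < 2 * a) := by
        rcases h1 with h1 | h1 | h1 | h1 | h1
        · exact Or.inl h1
        · exact Or.inr (Or.inl h1)
        · exact Or.inr (Or.inr (Or.inl h1))
        · exact Or.inr (Or.inr (Or.inr h1))
        · exact absurd h1 h2
      obtain ⟨k, hk, hk0, hkK⟩ := kf_order hu hu0 hue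
      obtain ⟨Yf, A, m, δ, hp, -, -, -, hA⟩ := place_gen (c := (a : ℝ) - (k0 : ℝ) / 2)
        ha hab hx hx0 (Eventually.of_forall fun w => rfl) hy hy0
        (Eventually.of_forall fun w => rfl) hk (by rw [hk0]; push_cast; ring) hkK hg
      exact no_place_met ha hab hb h3 rfl hp hA

/-- the regular places -/
lemma reg {N : ℕ} (hN : 0 < N) {e : ℂ} {h : ℂ → ℂ} (hh : AnalyticAt ℂ h 0) (q : Fin 6 → ℂ)
    (hW : Wr (fun w => e + w ^ N) h 0 ≠ 0) :
    ∃ F : ℂ → ℂ, AnalyticAt ℂ F 0 ∧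
      (∀ᶠ w in 𝓝[≠] (0:ℂ), FQ q (fun w => e + w ^ N) h w = F w) ∧
      (F 0 ≠ 0 → Wr (fun w => e + w ^ N) h 0 ≠ 0 ∧ QC q e (h 0) 1 ≠ 0) := by
  have hX : AnalyticAt ℂ (fun w : ℂ => e + w ^ N) 0 := analyticAt_const.add (analyticAt_id.pow N)
  have hq : AnalyticAt ℂ (qf q (fun w => e + w ^ N) h) 0 := by
    unfold qf QC
    fun_prop
  refine ⟨fun w => Mt (fun w => e + w ^ N) h w ^ 2 * qf q (fun w => e + w ^ N) h w ^ 3, ?_, ?_, ?_⟩
  · exact ((MongeA.ana_Mt hX hh hW).pow 2).mul (hq.pow 3)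
  · filter_upwards [hX.eventually_analyticAt.filter_mono nhdsWithin_le_nhds,
      hh.eventually_analyticAt.filter_mono nhdsWithin_le_nhds,
      ((MongeA.ana_Wr hX hh).continuousAt.eventually_ne hW).filter_mono nhdsWithin_le_nhds,
      self_mem_nhdsWithin] with w e1 e2 e3 e4
    have e5 : w ≠ 0 := e4
    have e6 : deriv (fun w : ℂ => e + w ^ N) w ≠ 0 := by
      have e7 : deriv (fun w : ℂ => e + w ^ N) w = N * w ^ (N - 1) :=
        ((hasDerivAt_pow N w).const_add e).deriv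
      rw [e7]
      exact mul_ne_zero (Nat.cast_ne_zero.2 hN.ne') (pow_ne_zero _ e5)
    unfold FQ
    rw [MD_eq_Mt e1 e2 e6 e3]
  · intro h1
    refine ⟨hW, fun h2 => h1 ?_⟩
    have h3 : qf q (fun w => e + w ^ N) h 0 = QC q e (h 0) 1 := by
      unfold qf
      beta_reduce
      rw [zero_pow hN.ne', add_zero]
    beta_reduce
    rw [h3, h2]
    ring

/-- `N = 2`, `j = 1` -/
lemma wr_two {e c0 c1 : ℂ} {f h : ℂ → ℂ} (hf : AnalyticAt ℂ f 0) (hf0 : f 0 ≠ 0)
    (hfe : ∀ᶠ w in 𝓝 (0:ℂ), h w = c0 + c1 * w ^ 2 + w ^ 1 * f w) :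
    Wr (fun w => e + w ^ 2) h 0 ≠ 0 := by
  have e1 : h =ᶠ[𝓝 0] fun w => c0 + c1 * w ^ 2 + w * f w := by
    filter_upwards [hfe] with w hw
    rw [hw, pow_one]
  have hX : deriv (fun w : ℂ => e + w ^ 2) = fun w => 2 * w := by
    funext w
    simp
  have hX2 : deriv (fun w : ℂ => 2 * w) 0 = 2 := by
    simpa using ((hasDerivAt_id (0:ℂ)).const_mul 2).deriv
  have hY : deriv h 0 = f 0 := by
    rw [e1.deriv_eq]
    have h1 : HasDerivAt (fun w : ℂ => c0 + c1 * w ^ 2 + w * f w)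
        (c1 * (2 * 0 ^ 1 * 1) + (1 * f 0 + 0 * deriv f 0)) 0 := by
      refine HasDerivAt.add ?_ ((hasDerivAt_id (0:ℂ)).mul hf.differentiableAt.hasDerivAt)
      refine HasDerivAt.const_add _ (HasDerivAt.const_mul _ ?_)
      simpa using (hasDerivAt_id (0:ℂ)).fun_pow 2
    rw [h1.deriv]
    ring
  unfold Wr
  rw [hX, hX2, hY]
  simp [hf0]

/-- `N = 1`, `j = 2` -/
lemma wr_one {e c0 c1 : ℂ} {f h : ℂ → ℂ} (hf : AnalyticAt ℂ f 0) (hf0 : f 0 ≠ 0)
    (hfe : ∀ᶠ w in 𝓝 (0:ℂ), h w = c0 + c1 * w ^ 1 + w ^ 2 * f w) :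
    Wr (fun w => e + w ^ 1) h 0 ≠ 0 := by
  have e1 : h =ᶠ[𝓝 0] fun w => c0 + c1 * w + w ^ 2 * f w := by
    filter_upwards [hfe] with w hw
    rw [hw, pow_one]
  have hX : deriv (fun w : ℂ => e + w ^ 1) = fun w => 1 := by
    funext w
    simp
  have hY1 : deriv h =ᶠ[𝓝 0] fun w => c1 + (2 * w * f w + w ^ 2 * deriv f w) := by
    filter_upwards [e1.eventually_nhds, hf.eventually_analyticAt] with w h1 h2
    have h3 : h =ᶠ[𝓝 w] fun w => c0 + c1 * w + w ^ 2 * f w := h1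
    rw [h3.deriv_eq]
    have h4 : HasDerivAt (fun w : ℂ => c0 + c1 * w + w ^ 2 * f w)
        (c1 * 1 + (2 * w ^ 1 * 1 * f w + w ^ 2 * deriv f w)) w := by
      refine HasDerivAt.add ?_ (HasDerivAt.mul ?_ h2.differentiableAt.hasDerivAt)
      · exact HasDerivAt.const_add _ (HasDerivAt.const_mul _ (hasDerivAt_id w))
      · simpa using (hasDerivAt_id w).fun_pow 2
    rw [h4.deriv]
    ring
  have hY2 : deriv (deriv h) 0 = 2 * f 0 := by
    rw [hY1.deriv_eq]
    have h4 : HasDerivAt (fun w : ℂ => c1 + (2 * w * f w + w ^ 2 * deriv f w))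
        ((2 * 1 * f 0 + 2 * 0 * deriv f 0) + (2 * 0 ^ 1 * 1 * deriv f 0 +
          0 ^ 2 * deriv (deriv f) 0)) 0 := by
      refine HasDerivAt.const_add _ (HasDerivAt.add ?_ ?_)
      · exact HasDerivAt.mul (HasDerivAt.const_mul _ (hasDerivAt_id _))
          hf.differentiableAt.hasDerivAt
      · refine HasDerivAt.mul ?_ hf.deriv.differentiableAt.hasDerivAt
        simpa using (hasDerivAt_id (0:ℂ)).fun_pow 2
    rw [h4.deriv]
    ring
  unfold Wr
  rw [hX, hY2]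
  simp [hf0]

end FinM

open FinM Pool.Agent.MP_ae5b4e_an_ALG.FinitePl in
/-- finite places -/
theorem fin_place_met {N : ℕ} (hN : 0 < N) {e : ℂ} {h : ℂ → ℂ} (hh : AnalyticAt ℂ h 0)
    (hprim : ∀ om : ℂ, om ^ N = 1 → (∀ᶠ w in 𝓝 (0:ℂ), h (om * w) = h w) → om = 1)
    {q : Fin 6 → ℂ}
    (hg : ∀ᶠ s in 𝓝[≠] (0:ℂ), GoodG (fun w => e + w ^ N) h (kf q (fun w => e + w ^ N) h) s ∧
      qf q (fun w => e + w ^ N) h s ≠ 0) :
    ∃ F : ℂ → ℂ, AnalyticAt ℂ F 0 ∧
      (∀ᶠ w in 𝓝[≠] (0:ℂ), FQ q (fun w => e + w ^ N) h w = F w) ∧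
      (F 0 ≠ 0 → Wr (fun w => e + w ^ N) h 0 ≠ 0 ∧ QC q e (h 0) 1 ≠ 0) := by
  have hne : ¬ ∃ c0 c1 : ℂ, ∀ᶠ w in 𝓝 (0:ℂ), h w = c0 + c1 * w ^ N := by
    rintro ⟨c0, c1, hc⟩
    obtain ⟨s, hs1, hs2⟩ :=
      (hg.and (hc.eventually_nhds.filter_mono nhdsWithin_le_nhds)).exists
    have h1 : Wr (fun w => e + w ^ N) h s = 0 := by
      have h2 : h =ᶠ[𝓝 s] fun w => c0 + c1 * w ^ N := hs2
      rw [wr_congr h2, wr_lin]
    exact hs1.1.1.2.2.2 h1
  obtain ⟨c0, c1, j, f, hj, hjN, hf, hf0, hfe⟩ := place_type hN hh hne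
  obtain ⟨E, hE, hE0, hM⟩ := MD_fin (e := e) hN hj hjN hf hf0 hfe
  rcases lt_or_gt_of_ne hjN with hlt | hgt
  · -- `j < N`
    by_cases hreg : N = 2 ∧ j = 1
    · obtain ⟨rfl, rfl⟩ := hreg
      exact reg hN hh q (wr_two hf hf0 hfe)
    obtain ⟨q', hq'⟩ := exists_sub q 0 1 e 1 c1 c0 0 0 1
    have hqe : ∀ x y : ℂ, QC q' x y 1 = QC q (y + e) (x + c1 * y + c0) 1 := by
      intro x y
      rw [hq']
      congr 1 <;> ring
    have hqf : ∀ᶠ w in 𝓝 (0:ℂ), qf q (fun w => e + w ^ N) h w =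
        qf q' (fun w => w ^ j * f w) (fun w => w ^ N * (fun _ => 1) w) w := by
      filter_upwards [hfe] with w hw
      unfold qf
      rw [hqe, hw]
      congr 1 <;> ring
    have hgood : ∀ᶠ s in 𝓝[≠] (0:ℂ), GoodG (fun w => w ^ j * f w)
        (fun w => w ^ N * (fun _ => 1) w)
        (kf q' (fun w => w ^ j * f w) (fun w => w ^ N * (fun _ => 1) w)) s := by
      filter_upwards [hg, hfe.eventually_nhds.filter_mono nhdsWithin_le_nhds] with s h1 h2
      have h3 := good_aff (α := -c1) (β := 1) (γ := c1 * e - c0) (α' := 1) (β' := 0) (γ' := -e)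
        h1.1 (by simp) (q' := q') (by
          intro x y
          rw [hqe]
          congr 1 <;> ring)
      have h4 : (fun s => -c1 * (e + s ^ N) + 1 * h s + (c1 * e - c0)) =ᶠ[𝓝 s]
          fun w => w ^ j * f w := by
        filter_upwards [h2] with w hw
        rw [hw]
        ring
      have h5 : (fun s => 1 * (e + s ^ N) + 0 * h s + -e) =ᶠ[𝓝 s]
          fun w => w ^ N * (fun _ => 1) w := by
        filter_upwards with w
        ring
      exact goodG_congr h3 h4 h5 (kf_congr h4 h5)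
    have hnz : ∀ᶠ s in 𝓝[≠] (0:ℂ),
        qf q' (fun w => w ^ j * f w) (fun w => w ^ N * (fun _ => 1) w) s ≠ 0 := by
      filter_upwards [hg, hqf.filter_mono nhdsWithin_le_nhds] with s h1 h2
      rw [← h2]
      exact h1.2
    have hram : N = 2 * j → (q' 5 ≠ 0 ∨ q' 3 ≠ 0) → False := by
      intro hb hq5
      have hk : 2 ≤ j := by
        rcases Nat.lt_or_ge 1 j with h1 | h1
        · exact h1
        · exact absurd ⟨by omega, by omega⟩ hreg
      subst hb
      obtain ⟨ψ, hψ, hψ0, hψ1, hψk⟩ := exists_root_coord hj hf hf0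
      have hψt : Tendsto ψ (𝓝 0) (𝓝 0) := by
        have := hψ.continuousAt.tendsto
        rwa [hψ0] at this
      have hψne : ∀ᶠ z in 𝓝[≠] (0:ℂ), ψ z ≠ 0 := by
        filter_upwards [hψk.filter_mono nhdsWithin_le_nhds, self_mem_nhdsWithin] with z hz hz0 h1
        rw [h1, zero_pow hj.ne', zero_mul] at hz
        exact hz0 (pow_eq_zero_iff hj.ne' |>.1 hz.symm)
      have hψt' : Tendsto ψ (𝓝[≠] 0) (𝓝[≠] 0) := by
        refine tendsto_nhdsWithin_iff.2 ⟨hψt.mono_left nhdsWithin_le_nhds, ?_⟩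
        filter_upwards [hψne] with z hz using hz
      have hfψ : AnalyticAt ℂ (fun z => f (ψ z)) 0 := by
        have h1 : AnalyticAt ℂ f (ψ 0) := by rw [hψ0]; exact hf
        exact h1.fun_comp hψ
      have hv : AnalyticAt ℂ (fun z => (f (ψ z) ^ 2)⁻¹) 0 := by
        refine (hfψ.pow 2).inv ?_
        simp only [Pi.pow_apply, hψ0]
        exact pow_ne_zero 2 hf0
      have hg3 : ∀ᶠ s in 𝓝[≠] (0:ℂ), GoodG (fun w => w ^ j)
          (fun w => w ^ (2 * j) * (f (ψ w) ^ 2)⁻¹)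
          (kf q' (fun w => w ^ j) (fun w => w ^ (2 * j) * (f (ψ w) ^ 2)⁻¹)) s := by
        have hψ' : ∀ᶠ z in 𝓝 (0:ℂ), deriv ψ z ≠ 0 :=
          hψ.deriv.continuousAt.eventually_ne hψ1
        filter_upwards [hψt'.eventually hgood, hψk.eventually_nhds.filter_mono nhdsWithin_le_nhds,
          hψ'.filter_mono nhdsWithin_le_nhds,
          hψ.eventually_analyticAt.filter_mono nhdsWithin_le_nhds,
          (hψt.eventually (hf.continuousAt.eventually_ne hf0)).eventually_nhds.filter_mono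
            nhdsWithin_le_nhds] with s h1 h2 h3 h4 h5
        have h6 := good_par h4 h3 h1
        have h7 : ((fun w => w ^ j * f w) ∘ ψ) =ᶠ[𝓝 s] fun w => w ^ j := by
          filter_upwards [h2] with w hw
          simpa using hw
        have h8 : ((fun w => w ^ (2 * j) * (fun _ => (1:ℂ)) w) ∘ ψ) =ᶠ[𝓝 s]
            fun w => w ^ (2 * j) * (f (ψ w) ^ 2)⁻¹ := by
          filter_upwards [h2, h5] with w hw hw2
          have h7 : ψ w ^ (2 * j) * f (ψ w) ^ 2 = w ^ (2 * j) := by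
            rw [mul_comm 2 j, pow_mul, pow_mul, ← mul_pow, hw]
          simp only [Function.comp_apply]
          rw [← h7]
          field_simp
        exact goodG_congr h6 h7 h8 (kf_congr h7 h8)
      have hom := Complex.isPrimitiveRoot_exp j (by omega)
      set om : ℂ := Complex.exp (2 * π * I / j) with homdef
      refine no_ram_q hk hv (by simp only [hψ0]; exact inv_ne_zero (pow_ne_zero 2 hf0))
        hom.pow_eq_one ?_ hq5 hg3
      intro hsym
      have hs := sym_of_root hj hom.pow_eq_one hf hf0 hψ hψ0 hψ1 hψk hsym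
      refine hom.ne_one (by omega) (hprim om ?_ ?_)
      · rw [mul_comm, pow_mul, hom.pow_eq_one, one_pow]
      · have homt : Tendsto (fun z : ℂ => om * z) (𝓝 0) (𝓝 0) := by
          have : Tendsto (fun z : ℂ => om * z) (𝓝 0) (𝓝 (om * 0)) :=
            (continuous_const.mul continuous_id).tendsto 0
          rwa [mul_zero] at this
        filter_upwards [hs, hfe, homt.eventually hfe] with w h1 h2 h3
        rw [h2, h3, h1, mul_pow, mul_pow, mul_comm 2 j, pow_mul om, hom.pow_eq_one, one_pow,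
          one_mul, one_mul]
    obtain ⟨F, hF, hFe, hF0⟩ := core hj hlt hf hf0 analyticAt_const one_ne_zero hqf hgood hnz hE
      (fun h1 => hE0 (Or.inr h1)) hM hram
    exact ⟨F, hF, hFe, fun h1 => absurd hF0 h1⟩
  · -- `N < j`
    by_cases hreg : N = 1 ∧ j = 2
    · obtain ⟨rfl, rfl⟩ := hreg
      exact reg hN hh q (wr_one hf hf0 hfe)
    obtain ⟨q', hq'⟩ := exists_sub q 1 0 e c1 1 c0 0 0 1
    have hqe : ∀ x y : ℂ, QC q' x y 1 = QC q (x + e) (c1 * x + y + c0) 1 := by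
      intro x y
      rw [hq']
      congr 1 <;> ring
    have hqf : ∀ᶠ w in 𝓝 (0:ℂ), qf q (fun w => e + w ^ N) h w =
        qf q' (fun w => w ^ N * (fun _ => 1) w) (fun w => w ^ j * f w) w := by
      filter_upwards [hfe] with w hw
      unfold qf
      rw [hqe, hw]
      congr 1 <;> ring
    have hgood : ∀ᶠ s in 𝓝[≠] (0:ℂ), GoodG (fun w => w ^ N * (fun _ => 1) w)
        (fun w => w ^ j * f w)
        (kf q' (fun w => w ^ N * (fun _ => 1) w) (fun w => w ^ j * f w)) s := by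
      filter_upwards [hg, hfe.eventually_nhds.filter_mono nhdsWithin_le_nhds] with s h1 h2
      have h3 := good_aff (α := 1) (β := 0) (γ := -e) (α' := -c1) (β' := 1) (γ' := c1 * e - c0)
        h1.1 (by simp) (q' := q') (by
          intro x y
          rw [hqe]
          congr 1 <;> ring)
      have h4 : (fun s => 1 * (e + s ^ N) + 0 * h s + -e) =ᶠ[𝓝 s]
          fun w => w ^ N * (fun _ => 1) w := by
        filter_upwards with w
        ring
      have h5 : (fun s => -c1 * (e + s ^ N) + 1 * h s + (c1 * e - c0)) =ᶠ[𝓝 s]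
          fun w => w ^ j * f w := by
        filter_upwards [h2] with w hw
        rw [hw]
        ring
      exact goodG_congr h3 h4 h5 (kf_congr h4 h5)
    have hnz : ∀ᶠ s in 𝓝[≠] (0:ℂ),
        qf q' (fun w => w ^ N * (fun _ => 1) w) (fun w => w ^ j * f w) s ≠ 0 := by
      filter_upwards [hg, hqf.filter_mono nhdsWithin_le_nhds] with s h1 h2
      rw [← h2]
      exact h1.2
    have hram : j = 2 * N → (q' 5 ≠ 0 ∨ q' 3 ≠ 0) → False := by
      intro hb hq5
      have hk : 2 ≤ N := by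
        rcases Nat.lt_or_ge 1 N with h1 | h1
        · exact h1
        · exact absurd ⟨by omega, by omega⟩ hreg
      subst hb
      have hom := Complex.isPrimitiveRoot_exp N (by omega)
      set om : ℂ := Complex.exp (2 * π * I / N) with homdef
      have hg3 : ∀ᶠ s in 𝓝[≠] (0:ℂ), GoodG (fun w => w ^ N) (fun w => w ^ (2 * N) * f w)
          (kf q' (fun w => w ^ N) (fun w => w ^ (2 * N) * f w)) s := by
        filter_upwards [hgood] with s h1
        simpa only [mul_one] using h1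
      refine no_ram_q hk hf hf0 hom.pow_eq_one ?_ hq5 hg3
      intro hs
      refine hom.ne_one (by omega) (hprim om hom.pow_eq_one ?_)
      have homt : Tendsto (fun z : ℂ => om * z) (𝓝 0) (𝓝 0) := by
        have : Tendsto (fun z : ℂ => om * z) (𝓝 0) (𝓝 (om * 0)) :=
          (continuous_const.mul continuous_id).tendsto 0
        rwa [mul_zero] at this
      filter_upwards [hs, hfe, homt.eventually hfe] with w h1 h2 h3
      rw [h2, h3, h1, mul_pow, mul_pow, mul_comm 2 N, pow_mul om, hom.pow_eq_one, one_pow,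
        one_mul, one_mul]
    obtain ⟨F, hF, hFe, hF0⟩ := core hN hgt analyticAt_const one_ne_zero hf hf0 hqf hgood hnz hE
      (fun h1 => hE0 (Or.inl h1)) (by simpa only [add_comm N j] using hM) hram
    exact ⟨F, hF, hFe, fun h1 => absurd hF0 h1⟩

end Pool.Agent.MP_ae5b4e_an_MET
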