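import Mathlib
import Pool.Agent.Lib.MP_ae5b4e_an_ALG.Liou

/-!
# MP_ae5b4e_an, project MET, part T: Liouville for bounded functions on the branches (module TL)
-/

set_option autoImplicit false

noncomputable section

namespace Pool.Agent.MP_ae5b4e_an_MET

open Filter Topology Set Metric Complex Polynomial
open scoped Real
open Pool.Agent.MP_ae5b4e_an_ND (Dx Dy Reg)
open Pool.Agent.MP_ae5b4e_an_FLEX
open Pool.Agent.MP_ae5b4e_an_ALG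
open Pool.Agent.MP_ae5b4e_an_ALG.Liou (S F S_an S_le F_eq F_diff)

/-- the entire power sums are constant -/
theorem lm_const {m : ℂ[X][X]} (hirr : Irreducible (m.map (algebraMap ℂ[X] (RatFunc ℂ))))
    {Φ : ℂ → ℂ → ℂ}
    (h1 : ∀ x₀, Reg m x₀ → ∀ b : ℂ → ℂ, AnalyticAt ℂ b x₀ →
      (∀ᶠ x in 𝓝 x₀, evalEval x (b x) m = 0) → AnalyticAt ℂ (fun x => Φ x (b x)) x₀)
    (h2 : ∀ e : ℂ, ∃ C δ : ℝ, 0 < δ ∧ ∀ x, x ≠ e → ‖x - e‖ < δ → Reg m x → ∀ t,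
      evalEval x t m = 0 → ‖Φ x t‖ ≤ C)
    (h3 : ∃ C R : ℝ, ∀ x : ℂ, R < ‖x‖ → Reg m x → ∀ t, evalEval x t m = 0 → ‖Φ x t‖ ≤ C)
    (j : ℕ) (x y : ℂ) : F m Φ j x = F m Φ j y := by
  have hd := F_diff hirr h1 h2 j
  refine hd.apply_eq_apply_of_bounded ?_ x y
  obtain ⟨C, R, hC⟩ := h3
  have hreg : {x : ℂ | ¬ Reg m x}.Finite := Pool.Agent.MP_ae5b4e_an_ND.reg_finite hirr
  have hcpt : IsCompact (closedBall (0:ℂ) R ∪ {x : ℂ | ¬ Reg m x}) :=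
    (isCompact_closedBall 0 R).union hreg.isCompact
  obtain ⟨B, hB⟩ := hcpt.exists_bound_of_continuousOn (f := F m Φ j) hd.continuous.continuousOn
  rw [isBounded_iff_forall_norm_le]
  refine ⟨max B (m.natDegree * |C| ^ j), ?_⟩
  rintro _ ⟨z, rfl⟩
  by_cases hz : z ∈ closedBall (0:ℂ) R ∪ {x : ℂ | ¬ Reg m x}
  · exact (hB z hz).trans (le_max_left _ _)
  · rw [Set.mem_union, not_or, mem_closedBall_zero_iff, not_le] at hz
    have hzr : Reg m z := by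
      by_contra hcon
      exact hz.2 hcon
    rw [F_eq h1 hzr]
    exact (S_le hzr (abs_nonneg C)
      (fun t ht => (hC z hz.1 hzr t ht).trans (le_abs_self C)) j).trans (le_max_right _ _)

/-- a bounded function on the branches has finitely many values -/
theorem liouville_fin {m : ℂ[X][X]} (hirr : Irreducible (m.map (algebraMap ℂ[X] (RatFunc ℂ))))
    {Φ : ℂ → ℂ → ℂ}
    (h1 : ∀ x₀, Reg m x₀ → ∀ b : ℂ → ℂ, AnalyticAt ℂ b x₀ →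
      (∀ᶠ x in 𝓝 x₀, evalEval x (b x) m = 0) → AnalyticAt ℂ (fun x => Φ x (b x)) x₀)
    (h2 : ∀ e : ℂ, ∃ C δ : ℝ, 0 < δ ∧ ∀ x, x ≠ e → ‖x - e‖ < δ → Reg m x → ∀ t,
      evalEval x t m = 0 → ‖Φ x t‖ ≤ C)
    (h3 : ∃ C R : ℝ, ∀ x : ℂ, R < ‖x‖ → Reg m x → ∀ t, evalEval x t m = 0 → ‖Φ x t‖ ≤ C) :
    ∃ V : Finset ℂ, ∀ x, Reg m x → ∀ t, evalEval x t m = 0 → Φ x t ∈ V := by
  classical
  by_cases hx : ∃ x₀, Reg m x₀
  · obtain ⟨x₀, hx₀⟩ := hx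
    refine ⟨(Pool.Agent.MP_ae5b4e_an_ND.rts m x₀).image (Φ x₀), fun x hxr t ht => ?_⟩
    have hc : ∀ x, Reg m x → (Pool.Agent.MP_ae5b4e_an_ND.rts m x).card = m.natDegree :=
      fun x hx => Pool.Agent.MP_ae5b4e_an_ND.card_rts hx
    have htm : t ∈ Pool.Agent.MP_ae5b4e_an_ND.rts m x :=
      (Pool.Agent.MP_ae5b4e_an_ND.mem_rts hxr.1).2 ht
    have ex : ∀ x, Reg m x → Nonempty (Fin m.natDegree ≃ Pool.Agent.MP_ae5b4e_an_ND.rts m x) := by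
      intro x hx
      rw [← hc x hx]
      exact ⟨(Finset.equivFin _).symm⟩
    obtain ⟨e⟩ := ex x hxr
    obtain ⟨e'⟩ := ex x₀ hx₀
    have hS : ∀ x (hx : Reg m x) (e : Fin m.natDegree ≃ Pool.Agent.MP_ae5b4e_an_ND.rts m x)
        (k : ℕ), ∑ i, Φ x (e i) ^ k = F m Φ k x := by
      intro x hx e k
      rw [F_eq h1 hx, S, ← Finset.sum_coe_sort (Pool.Agent.MP_ae5b4e_an_ND.rts m x)]
      exact Equiv.sum_comp e fun t : Pool.Agent.MP_ae5b4e_an_ND.rts m x => Φ x t ^ k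
    have h : ∀ k : ℕ, ∑ i, (fun i => Φ x (e i)) i ^ k = ∑ i, (fun i => Φ x₀ (e' i)) i ^ k := by
      intro k
      simp only
      rw [hS x hxr e k, hS x₀ hx₀ e' k]
      exact lm_const hirr h1 h2 h3 k x x₀
    obtain ⟨j, hj⟩ := Pool.Agent.LAT.RH.powsum (fun i => Φ x (e i)) (fun i => Φ x₀ (e' i)) h
      (e.symm ⟨t, htm⟩)
    rw [Finset.mem_image]
    refine ⟨e' j, (e' j).2, ?_⟩
    rw [← hj]
    simp
  · exact ⟨∅, fun x hx' => absurd ⟨x, hx'⟩ hx⟩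

end Pool.Agent.MP_ae5b4e_an_MET
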