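import Pool.Agent.Lib.MP_ae5b4e_an_MET.DefsT
import Pool.Agent.Lib.MP_ae5b4e_an_ALG.MongeA

/-!
# MP_ae5b4e_an, project MET, module TC: the projective map `(1/x, y/x)`
-/

set_option autoImplicit false

noncomputable section

namespace Pool.Agent.MP_ae5b4e_an_MET

open Filter Topology Set Metric Complex Polynomial
open scoped Real
open Pool.Agent.MP_ae5b4e_an_FLEX
open Pool.Agent.MP_ae5b4e_an_ALG

namespace MongePro

theorem ana_DX {X f : ℂ → ℂ} {w : ℂ} (hX : AnalyticAt ℂ X w) (hf : AnalyticAt ℂ f w)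
    (hX' : deriv X w ≠ 0) : AnalyticAt ℂ (DX X f) w :=
  hf.deriv.div hX.deriv hX'

/-- derivative by means of `DX` -/
theorem hasDeriv_DX {X f : ℂ → ℂ} {w : ℂ} (hX : AnalyticAt ℂ X w) (hf : AnalyticAt ℂ f w)
    (hX' : deriv X w ≠ 0) : ∀ᶠ z in 𝓝 w, HasDerivAt f (DX X f z * deriv X z) z := by
  have ex0 : ∀ᶠ z in 𝓝 w, deriv X z ≠ 0 := hX.deriv.continuousAt.eventually_ne hX'
  filter_upwards [ex0, hf.eventually_analyticAt] with z h0 h1
  refine h1.differentiableAt.hasDerivAt.congr_deriv ?_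
  rw [DX, div_mul_cancel₀ _ h0]

theorem step {X f g g' : ℂ → ℂ} {w : ℂ} (hX : AnalyticAt ℂ X w) (hX' : deriv X w ≠ 0)
    (hX0 : X w ≠ 0) (h : f =ᶠ[𝓝 w] g)
    (hg : ∀ᶠ z in 𝓝 w, HasDerivAt g (g' z * deriv X z) z) :
    DX (fun s => (X s)⁻¹) f =ᶠ[𝓝 w] fun z => -(X z ^ 2 * g' z) := by
  have ex0 : ∀ᶠ z in 𝓝 w, deriv X z ≠ 0 := hX.deriv.continuousAt.eventually_ne hX'
  have ex1 : ∀ᶠ z in 𝓝 w, X z ≠ 0 := hX.continuousAt.eventually_ne hX0
  filter_upwards [h.deriv, hg, ex0, ex1, hX.eventually_analyticAt] with z h1 h2 h3 h4 h5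
  have h6 : deriv (fun s => (X s)⁻¹) z = -deriv X z / X z ^ 2 :=
    (h5.differentiableAt.hasDerivAt.inv h4).deriv
  rw [DX, h1, h2.deriv, h6]
  field_simp

/-- Monge's invariant of the curve `(1/X, Y/X)` -/
theorem MD_pro {X Y : ℂ → ℂ} {w : ℂ} (hX : AnalyticAt ℂ X w) (hY : AnalyticAt ℂ Y w)
    (hX' : deriv X w ≠ 0) (hX0 : X w ≠ 0) :
    MD (fun s => (X s)⁻¹) (fun s => Y s / X s) w = -(X w ^ 3 * MD X Y w) := by
  have a1 := ana_DX hX hY hX'
  have a2 := ana_DX hX a1 hX'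
  have a3 := ana_DX hX a2 hX'
  have a4 := ana_DX hX a3 hX'
  have d0 := hasDeriv_DX hX hY hX'
  have d1 := hasDeriv_DX hX a1 hX'
  have d2 := hasDeriv_DX hX a2 hX'
  have d3 := hasDeriv_DX hX a3 hX'
  have d4 := hasDeriv_DX hX a4 hX'
  have dX : ∀ᶠ z in 𝓝 w, HasDerivAt X (deriv X z) z := MongeA.hasDeriv_ev hX
  have ex1 : ∀ᶠ z in 𝓝 w, X z ≠ 0 := hX.continuousAt.eventually_ne hX0
  set b1 := DX X Y with hb1
  set b2 := DX X b1 with hb2
  set b3 := DX X b2 with hb3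
  set b4 := DX X b3 with hb4
  set b5 := DX X b4 with hb5
  -- first step
  have s1 : DX (fun s => (X s)⁻¹) (fun s => Y s / X s) =ᶠ[𝓝 w] fun z => Y z - X z * b1 z := by
    refine (step hX hX' hX0 (EventuallyEq.refl _ _)
      (g' := fun z => b1 z / X z - Y z / X z ^ 2) ?_).trans ?_
    · filter_upwards [d0, dX, ex1] with z h0 h1 h2
      refine (h0.div h1 h2).congr_deriv ?_
      field_simp
    · filter_upwards [ex1] with z h2
      field_simp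
      ring
  have s2 : DX (fun s => (X s)⁻¹) (DX (fun s => (X s)⁻¹) (fun s => Y s / X s)) =ᶠ[𝓝 w]
      fun z => X z ^ 3 * b2 z := by
    refine (step hX hX' hX0 s1 (g' := fun z => -(X z * b2 z)) ?_).trans ?_
    · filter_upwards [d0, dX, d1] with z h0 h1 h2
      refine (h0.sub (h1.mul h2)).congr_deriv ?_
      ring
    · filter_upwards with z
      ring
  have s3 : DX (fun s => (X s)⁻¹) (DX (fun s => (X s)⁻¹) (DX (fun s => (X s)⁻¹)
      (fun s => Y s / X s))) =ᶠ[𝓝 w] fun z => -(3 * X z ^ 4 * b2 z + X z ^ 5 * b3 z) := by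
    refine (step hX hX' hX0 s2 (g' := fun z => 3 * X z ^ 2 * b2 z + X z ^ 3 * b3 z) ?_).trans ?_
    · filter_upwards [dX, d2] with z h1 h2
      refine ((h1.pow 3).mul h2).congr_deriv ?_
      simp only [Pi.pow_apply]
      push_cast
      ring
    · filter_upwards with z
      ring
  have s4 : DX (fun s => (X s)⁻¹) (DX (fun s => (X s)⁻¹) (DX (fun s => (X s)⁻¹)
      (DX (fun s => (X s)⁻¹) (fun s => Y s / X s)))) =ᶠ[𝓝 w]
      fun z => 12 * X z ^ 5 * b2 z + 8 * X z ^ 6 * b3 z + X z ^ 7 * b4 z := by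
    refine (step hX hX' hX0 s3 (g' := fun z =>
      -(12 * X z ^ 3 * b2 z + 8 * X z ^ 4 * b3 z + X z ^ 5 * b4 z)) ?_).trans ?_
    · filter_upwards [dX, d2, d3] with z h1 h2 h3
      refine ((((h1.pow 4).const_mul 3).mul h2).add ((h1.pow 5).mul h3)).neg.congr_deriv ?_
      simp only [Pi.pow_apply]
      push_cast
      ring
    · filter_upwards with z
      ring
  have s5 : DX (fun s => (X s)⁻¹) (DX (fun s => (X s)⁻¹) (DX (fun s => (X s)⁻¹)
      (DX (fun s => (X s)⁻¹) (DX (fun s => (X s)⁻¹) (fun s => Y s / X s))))) =ᶠ[𝓝 w]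
      fun z => -(60 * X z ^ 6 * b2 z + 60 * X z ^ 7 * b3 z + 15 * X z ^ 8 * b4 z +
        X z ^ 9 * b5 z) := by
    refine (step hX hX' hX0 s4 (g' := fun z =>
      60 * X z ^ 4 * b2 z + 60 * X z ^ 5 * b3 z + 15 * X z ^ 6 * b4 z + X z ^ 7 * b5 z) ?_).trans ?_
    · filter_upwards [dX, d2, d3, d4] with z h1 h2 h3 h4
      refine (((((h1.pow 5).const_mul 12).mul h2).add (((h1.pow 6).const_mul 8).mul h3)).add
        ((h1.pow 7).mul h4)).congr_deriv ?_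
      simp only [Pi.pow_apply]
      push_cast
      ring
    · filter_upwards with z
      ring
  rw [MD, s2.self_of_nhds, s3.self_of_nhds, s4.self_of_nhds, s5.self_of_nhds, MD]
  rw [← hb1, ← hb2, ← hb3, ← hb4, ← hb5]
  have hX12 : X w ^ 12 ≠ 0 := pow_ne_zero _ hX0
  have e1 : 9 * (X w ^ 3 * b2 w) ^ 2 * -(60 * X w ^ 6 * b2 w + 60 * X w ^ 7 * b3 w +
      15 * X w ^ 8 * b4 w + X w ^ 9 * b5 w) -
      45 * (X w ^ 3 * b2 w) * -(3 * X w ^ 4 * b2 w + X w ^ 5 * b3 w) *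
        (12 * X w ^ 5 * b2 w + 8 * X w ^ 6 * b3 w + X w ^ 7 * b4 w) +
      40 * (-(3 * X w ^ 4 * b2 w + X w ^ 5 * b3 w)) ^ 3 =
      X w ^ 12 * (-(X w ^ 3 * (9 * b2 w ^ 2 * b5 w - 45 * b2 w * b3 w * b4 w +
        40 * b3 w ^ 3))) := by ring
  have e2 : 27 * (X w ^ 3 * b2 w) ^ 4 = X w ^ 12 * (27 * b2 w ^ 4) := by ring
  rw [e1, e2, mul_div_mul_left _ _ hX12, neg_div, mul_div_assoc]

end MongePro

open MongePro in
theorem FQ_pro {X Y : ℂ → ℂ} {w : ℂ} (hX : AnalyticAt ℂ X w) (hY : AnalyticAt ℂ Y w)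
    (hX' : deriv X w ≠ 0) (hX0 : X w ≠ 0) (hW : Wr X Y w ≠ 0) {q q' : Fin 6 → ℂ}
    (hq' : ∀ x y z, QC q' x y z = QC q z y x) :
    FQ q' (fun s => (X s)⁻¹) (fun s => Y s / X s) w = FQ q X Y w := by
  have h1 : qf q' (fun s => (X s)⁻¹) (fun s => Y s / X s) w = qf q X Y w / X w ^ 2 := by
    rw [qf, hq', qf, QC, QC]
    field_simp
  rw [FQ, FQ, h1, MD_pro hX hY hX' hX0]
  field_simp

end Pool.Agent.MP_ae5b4e_an_MET
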