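import Mathlib
import Pool.Agent.Lib.MP_ae5b4e_an_ALG.Invar

/-!
# MP_ae5b4e_an, project MET, part T: from the places to the points (module TN)
-/

set_option autoImplicit false

noncomputable section

namespace Pool.Agent.MP_ae5b4e_an_MET

open Filter Topology Set Metric Complex Polynomial
open scoped Real
open Pool.Agent.MP_ae5b4e_an_ND (Dx Dy Reg)
open Pool.Agent.MP_ae5b4e_an_FLEX
open Pool.Agent.MP_ae5b4e_an_ALG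
open Pool.Agent.MP_ae5b4e_an_ALG.Invar (bdd_quot ev_root tendsto_pow_punct)

/-- from primitive places over `e` to all places over `e` -/
theorem nm_fin_bound {m : ℂ[X][X]} {Φ : ℂ → ℂ → ℂ} {e : ℂ}
    (H : ∀ (N : ℕ) (h : ℂ → ℂ), 0 < N → AnalyticAt ℂ h 0 →
      (∀ om : ℂ, om ^ N = 1 → (∀ᶠ w in 𝓝 (0:ℂ), h (om * w) = h w) → om = 1) →
      (∀ᶠ w in 𝓝[≠] (0:ℂ), Reg m (e + w ^ N) ∧ evalEval (e + w ^ N) (h w) m = 0) →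
      ∃ C : ℝ, ∀ᶠ w in 𝓝[≠] (0:ℂ), ‖Φ (e + w ^ N) (h w)‖ ≤ C)
    {N : ℕ} (hN : 0 < N) {h : ℂ → ℂ} (hh : AnalyticAt ℂ h 0)
    (hr : ∀ᶠ w in 𝓝[≠] (0:ℂ), Reg m (e + w ^ N) ∧ evalEval (e + w ^ N) (h w) m = 0) :
    ∃ C : ℝ, ∀ᶠ w in 𝓝[≠] (0:ℂ), ‖Φ (e + w ^ N) (h w)‖ ≤ C := by
  obtain ⟨M, d, h', hM, hd, hNd, hh', heq, hprim⟩ := exists_prim hN hh
  have hroot : ∀ᶠ z in 𝓝[≠] (0:ℂ), Reg m (e + z ^ M) ∧ evalEval (e + z ^ M) (h' z) m = 0 := by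
    apply ev_root hd
    filter_upwards [hr, nhdsWithin_le_nhds heq] with w h1 h2
    rw [← pow_mul, ← hNd, ← h2]
    exact h1
  obtain ⟨C, hC⟩ := H M h' hM hh' hprim hroot
  refine ⟨C, ?_⟩
  filter_upwards [(tendsto_pow_punct hd).eventually hC, nhdsWithin_le_nhds heq] with w h2 h3
  rw [h3, hNd, pow_mul]
  exact h2

/-- from primitive places at infinity to all places at infinity (an eventual property) -/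
theorem nm_inf_bound {m : ℂ[X][X]} {P : ℂ → ℂ → Prop}
    (H : ∀ (N : ℕ) (y : ℂ → ℂ), 0 < N → AnalyticAt ℂ y 0 →
      (∀ om : ℂ, om ^ N = 1 → (∀ᶠ w in 𝓝 (0:ℂ), y (om * w) = y w) → om = 1) →
      (∀ᶠ w in 𝓝[≠] (0:ℂ), Reg m ((w ^ N)⁻¹) ∧ evalEval ((w ^ N)⁻¹) (y w / w ^ N) m = 0) →
      ∀ᶠ w in 𝓝[≠] (0:ℂ), P ((w ^ N)⁻¹) (y w / w ^ N))
    {N : ℕ} (hN : 0 < N) {y : ℂ → ℂ} (hh : AnalyticAt ℂ y 0)
    (hr : ∀ᶠ w in 𝓝[≠] (0:ℂ), Reg m ((w ^ N)⁻¹) ∧ evalEval ((w ^ N)⁻¹) (y w / w ^ N) m = 0) :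
    ∀ᶠ w in 𝓝[≠] (0:ℂ), P ((w ^ N)⁻¹) (y w / w ^ N) := by
  obtain ⟨M, d, y', hM, hd, hNd, hy', heq, hprim⟩ := exists_prim hN hh
  have hroot : ∀ᶠ z in 𝓝[≠] (0:ℂ), Reg m ((z ^ M)⁻¹) ∧
      evalEval ((z ^ M)⁻¹) (y' z / z ^ M) m = 0 := by
    apply ev_root hd
    filter_upwards [hr, nhdsWithin_le_nhds heq] with w h1 h2
    rw [← pow_mul, ← hNd, ← h2]
    exact h1
  have h1 := H M y' hM hy' hprim hroot
  filter_upwards [(tendsto_pow_punct hd).eventually h1, nhdsWithin_le_nhds heq] with w h2 h3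
  rw [h3, hNd, pow_mul]
  exact h2

/-- from the places over `e` to the points near `e` -/
theorem near_fin_gen {m : ℂ[X][X]} (hirr : Irreducible (m.map (algebraMap ℂ[X] (RatFunc ℂ))))
    {C : ℝ} (hC : ∀ x, Reg m x → ∀ t, evalEval x t m = 0 → ‖t‖ ≤ C * (1 + ‖x‖))
    {Φ : ℂ → ℂ → ℂ} {e : ℂ}
    (H : ∀ (N : ℕ) (h : ℂ → ℂ), 0 < N → AnalyticAt ℂ h 0 →
      (∀ om : ℂ, om ^ N = 1 → (∀ᶠ w in 𝓝 (0:ℂ), h (om * w) = h w) → om = 1) →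
      (∀ᶠ w in 𝓝[≠] (0:ℂ), Reg m (e + w ^ N) ∧ evalEval (e + w ^ N) (h w) m = 0) →
      ∃ C : ℝ, ∀ᶠ w in 𝓝[≠] (0:ℂ), ‖Φ (e + w ^ N) (h w)‖ ≤ C) :
    ∃ C' δ' : ℝ, 0 < δ' ∧ ∀ x, x ≠ e → ‖x - e‖ < δ' → Reg m x → ∀ t,
      evalEval x t m = 0 → ‖Φ x t‖ ≤ C' := by
  obtain ⟨N, δ, K, h, hN, hδ, hdiff, hroots⟩ := cover_fin hirr e
  have hev : ∀ᶠ w in 𝓝[≠] (0:ℂ), w ≠ 0 ∧ ‖w‖ < δ ∧ ‖w‖ < 1 := by
    filter_upwards [self_mem_nhdsWithin, nhdsWithin_le_nhds (ball_mem_nhds (0:ℂ) hδ),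
      nhdsWithin_le_nhds (ball_mem_nhds (0:ℂ) one_pos)] with w h1 h2 h3
    exact ⟨h1, mem_ball_zero_iff.1 h2, mem_ball_zero_iff.1 h3⟩
  have hH : ∀ i, ∃ Ci : ℝ, ∀ᶠ w in 𝓝[≠] (0:ℂ), ‖Φ (e + w ^ N) (h i w / w ^ K)‖ ≤ Ci := by
    intro i
    have han : AnalyticAt ℂ (h i) 0 := (hdiff i).analyticAt (ball_mem_nhds 0 hδ)
    have hb : ∀ᶠ w in 𝓝[≠] (0:ℂ), ‖h i w / w ^ K‖ ≤ |C| * (1 + (‖e‖ + 1)) := by
      filter_upwards [hev] with w hw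
      obtain ⟨h1, h2, -⟩ := hroots w hw.1 hw.2.1
      have h3 : ‖e + w ^ N‖ ≤ ‖e‖ + 1 := by
        refine (norm_add_le _ _).trans ?_
        rw [norm_pow]
        gcongr
        exact pow_le_one₀ (norm_nonneg _) hw.2.2.le
      calc ‖h i w / w ^ K‖ ≤ C * (1 + ‖e + w ^ N‖) := hC _ h1 _ (h2 i)
        _ ≤ |C| * (1 + ‖e + w ^ N‖) := by
          gcongr
          exact le_abs_self C
        _ ≤ |C| * (1 + (‖e‖ + 1)) := by gcongr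
    obtain ⟨H', hHa, hHe⟩ := bdd_quot han hb
    obtain ⟨Ci, hCi⟩ := nm_fin_bound H hN hHa (by
      filter_upwards [hev, hHe] with w hw hw2
      obtain ⟨h1, h2, -⟩ := hroots w hw.1 hw.2.1
      rw [← hw2]
      exact ⟨h1, h2 i⟩)
    refine ⟨Ci, ?_⟩
    filter_upwards [hCi, hHe] with w h1 h2
    rw [h2]
    exact h1
  choose Ci hCi using hH
  have h1 : ∀ᶠ z in 𝓝[≠] (0:ℂ), ∀ t, evalEval (e + z) t m = 0 →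
      ‖Φ (e + z) t‖ ≤ ∑ i, |Ci i| := by
    apply ev_root hN
    filter_upwards [hev, eventually_all.2 hCi] with w hw hw2 t ht
    obtain ⟨i, rfl⟩ := (hroots w hw.1 hw.2.1).2.2 t ht
    exact (hw2 i).trans ((le_abs_self _).trans
      (Finset.single_le_sum (f := fun i => |Ci i|) (fun j _ => abs_nonneg _) (Finset.mem_univ i)))
  obtain ⟨r, hr, hball⟩ := Metric.eventually_nhds_iff_ball.1 (eventually_nhdsWithin_iff.1 h1)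
  refine ⟨∑ i, |Ci i|, r, hr, fun x hx hxr _ t ht => ?_⟩
  have h2 := hball (x - e) (mem_ball_zero_iff.2 hxr) (sub_ne_zero.2 hx) t
  rw [add_sub_cancel] at h2
  exact h2 ht

/-- the bounded form of the cover at infinity -/
theorem nm_cover {m : ℂ[X][X]} {C : ℝ}
    (hC : ∀ x, Reg m x → ∀ t, evalEval x t m = 0 → ‖t‖ ≤ C * (1 + ‖x‖))
    {N K : ℕ} {δ : ℝ} {h : ℂ → ℂ} (hδ : 0 < δ)
    (hdiff : DifferentiableOn ℂ h (ball 0 δ))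
    (hroots : ∀ w : ℂ, w ≠ 0 → ‖w‖ < δ →
      Reg m ((w ^ N)⁻¹) ∧ evalEval ((w ^ N)⁻¹) (h w / w ^ K) m = 0) :
    ∃ H : ℂ → ℂ, AnalyticAt ℂ H 0 ∧
      (∀ᶠ w in 𝓝[≠] (0:ℂ), h w / w ^ K = H w / w ^ N) := by
  have hev : ∀ᶠ w in 𝓝[≠] (0:ℂ), w ≠ 0 ∧ ‖w‖ < δ ∧ ‖w‖ < 1 := by
    filter_upwards [self_mem_nhdsWithin, nhdsWithin_le_nhds (ball_mem_nhds (0:ℂ) hδ),
      nhdsWithin_le_nhds (ball_mem_nhds (0:ℂ) one_pos)] with w h1 h2 h3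
    exact ⟨h1, mem_ball_zero_iff.1 h2, mem_ball_zero_iff.1 h3⟩
  have han : AnalyticAt ℂ (fun w => w ^ N * h w) 0 :=
    (analyticAt_id.pow N).mul (hdiff.analyticAt (ball_mem_nhds 0 hδ))
  have hb : ∀ᶠ w in 𝓝[≠] (0:ℂ), ‖(w ^ N * h w) / w ^ K‖ ≤ |C| * 2 := by
    filter_upwards [hev] with w hw
    obtain ⟨h1, h2⟩ := hroots w hw.1 hw.2.1
    have h3 : ‖h w / w ^ K‖ ≤ |C| * (1 + ‖(w ^ N)⁻¹‖) := by
      refine (hC _ h1 _ h2).trans ?_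
      gcongr
      exact le_abs_self C
    have h4 : ‖w ^ N‖ ≤ 1 := by
      rw [norm_pow]
      exact pow_le_one₀ (norm_nonneg _) hw.2.2.le
    have h5 : ‖w ^ N‖ * ‖(w ^ N)⁻¹‖ = 1 := by
      rw [← norm_mul, mul_inv_cancel₀ (pow_ne_zero N hw.1), norm_one]
    rw [mul_div_assoc, norm_mul]
    calc ‖w ^ N‖ * ‖h w / w ^ K‖ ≤ ‖w ^ N‖ * (|C| * (1 + ‖(w ^ N)⁻¹‖)) := by gcongr
      _ = |C| * (‖w ^ N‖ + ‖w ^ N‖ * ‖(w ^ N)⁻¹‖) := by ring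
      _ = |C| * (‖w ^ N‖ + 1) := by rw [h5]
      _ ≤ |C| * (1 + 1) := by gcongr
      _ = |C| * 2 := by ring
  obtain ⟨H, hHa, hHe⟩ := bdd_quot han hb
  refine ⟨H, hHa, ?_⟩
  filter_upwards [hHe, hev] with w h1 h2
  rw [← h1]
  have h3 : w ^ N ≠ 0 := pow_ne_zero N h2.1
  have h4 : w ^ K ≠ 0 := pow_ne_zero K h2.1
  field_simp

/-- from the places at infinity to the points near infinity, general property -/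
theorem nm_inf {m : ℂ[X][X]} (hirr : Irreducible (m.map (algebraMap ℂ[X] (RatFunc ℂ))))
    {C : ℝ} (hC : ∀ x, Reg m x → ∀ t, evalEval x t m = 0 → ‖t‖ ≤ C * (1 + ‖x‖))
    {P : ℝ → ℂ → ℂ → Prop} (hmono : ∀ c c' x t, c ≤ c' → P c x t → P c' x t) {c₀ : Option ℝ}
    (H : ∀ (N : ℕ) (y : ℂ → ℂ), 0 < N → AnalyticAt ℂ y 0 →
      (∀ om : ℂ, om ^ N = 1 → (∀ᶠ w in 𝓝 (0:ℂ), y (om * w) = y w) → om = 1) →
      (∀ᶠ w in 𝓝[≠] (0:ℂ), Reg m ((w ^ N)⁻¹) ∧ evalEval ((w ^ N)⁻¹) (y w / w ^ N) m = 0) →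
      ∃ c : ℝ, (∀ c' ∈ c₀, c ≤ c') ∧ ∀ᶠ w in 𝓝[≠] (0:ℂ), P c ((w ^ N)⁻¹) (y w / w ^ N)) :
    ∃ c R : ℝ, (∀ c' ∈ c₀, c ≤ c') ∧ ∀ x : ℂ, R < ‖x‖ → Reg m x → ∀ t,
      evalEval x t m = 0 → P c x t := by
  obtain ⟨N, δ, K, h, hN, hδ, hdiff, hroots⟩ := cover_inf hirr
  have hev : ∀ᶠ w in 𝓝[≠] (0:ℂ), w ≠ 0 ∧ ‖w‖ < δ ∧ ‖w‖ < 1 := by
    filter_upwards [self_mem_nhdsWithin, nhdsWithin_le_nhds (ball_mem_nhds (0:ℂ) hδ),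
      nhdsWithin_le_nhds (ball_mem_nhds (0:ℂ) one_pos)] with w h1 h2 h3
    exact ⟨h1, mem_ball_zero_iff.1 h2, mem_ball_zero_iff.1 h3⟩
  have hH : ∀ i, ∃ c : ℝ, (∀ c' ∈ c₀, c ≤ c') ∧
      ∀ᶠ w in 𝓝[≠] (0:ℂ), P c ((w ^ N)⁻¹) (h i w / w ^ K) := by
    intro i
    obtain ⟨H', hHa, hHe'⟩ := nm_cover hC hδ (hdiff i) (fun w hw hw2 =>
      ⟨(hroots w hw hw2).1, (hroots w hw hw2).2.1 i⟩)
    have hr : ∀ᶠ w in 𝓝[≠] (0:ℂ), Reg m ((w ^ N)⁻¹) ∧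
        evalEval ((w ^ N)⁻¹) (H' w / w ^ N) m = 0 := by
      filter_upwards [hev, hHe'] with w hw hw2
      obtain ⟨h1, h2, -⟩ := hroots w hw.1 hw.2.1
      rw [← hw2]
      exact ⟨h1, h2 i⟩
    obtain ⟨M, d, y', hM, hd, hNd, hy', heq, hprim⟩ := exists_prim hN hHa
    have hroot : ∀ᶠ z in 𝓝[≠] (0:ℂ), Reg m ((z ^ M)⁻¹) ∧
        evalEval ((z ^ M)⁻¹) (y' z / z ^ M) m = 0 := by
      apply ev_root hd
      filter_upwards [hr, nhdsWithin_le_nhds heq] with w h1 h2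
      rw [← pow_mul, ← hNd, ← h2]
      exact h1
    obtain ⟨c, hc, h1⟩ := H M y' hM hy' hprim hroot
    refine ⟨c, hc, ?_⟩
    filter_upwards [(tendsto_pow_punct hd).eventually h1, nhdsWithin_le_nhds heq, hHe']
      with w h2 h3 h4
    rw [h4, h3, hNd, pow_mul]
    exact h2
  choose Ci hCi hCi' using hH
  obtain ⟨c, hc, hcc⟩ : ∃ c : ℝ, (∀ c' ∈ c₀, c ≤ c') ∧ ∀ i, Ci i ≤ c := by
    cases c₀ with
    | none =>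
      refine ⟨∑ i, |Ci i|, fun c' h => by simp at h, fun i => (le_abs_self _).trans
        (Finset.single_le_sum (f := fun i => |Ci i|) (fun j _ => abs_nonneg _)
          (Finset.mem_univ i))⟩
    | some c₁ =>
      refine ⟨c₁, fun c' h => (Option.mem_some_iff.1 h).le, fun i => hCi i c₁ (by simp)⟩
  have h1 : ∀ᶠ z in 𝓝[≠] (0:ℂ), ∀ t, evalEval z⁻¹ t m = 0 → P c z⁻¹ t := by
    apply ev_root hN
    filter_upwards [hev, eventually_all.2 hCi'] with w hw hw2 t ht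
    obtain ⟨i, rfl⟩ := (hroots w hw.1 hw.2.1).2.2 t ht
    exact hmono _ _ _ _ (hcc i) (hw2 i)
  obtain ⟨r, hr, hball⟩ := Metric.eventually_nhds_iff_ball.1 (eventually_nhdsWithin_iff.1 h1)
  refine ⟨c, r⁻¹, hc, fun x hx _ t ht => ?_⟩
  have hx0 : 0 < ‖x‖ := (inv_pos.2 hr).trans hx
  have h2 := hball x⁻¹ (mem_ball_zero_iff.2 (by
    rw [norm_inv]
    exact inv_lt_of_inv_lt₀ hr hx)) (inv_ne_zero (norm_pos_iff.1 hx0)) t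
  rw [inv_inv] at h2
  exact h2 ht

/-- from the places at infinity to the points near infinity -/
theorem near_inf_gen {m : ℂ[X][X]} (hirr : Irreducible (m.map (algebraMap ℂ[X] (RatFunc ℂ))))
    {C : ℝ} (hC : ∀ x, Reg m x → ∀ t, evalEval x t m = 0 → ‖t‖ ≤ C * (1 + ‖x‖))
    {Φ : ℂ → ℂ → ℂ}
    (H : ∀ (N : ℕ) (y : ℂ → ℂ), 0 < N → AnalyticAt ℂ y 0 →
      (∀ om : ℂ, om ^ N = 1 → (∀ᶠ w in 𝓝 (0:ℂ), y (om * w) = y w) → om = 1) →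
      (∀ᶠ w in 𝓝[≠] (0:ℂ), Reg m ((w ^ N)⁻¹) ∧ evalEval ((w ^ N)⁻¹) (y w / w ^ N) m = 0) →
      ∃ C : ℝ, ∀ᶠ w in 𝓝[≠] (0:ℂ), ‖Φ ((w ^ N)⁻¹) (y w / w ^ N)‖ ≤ C) :
    ∃ C' R : ℝ, ∀ x : ℂ, R < ‖x‖ → Reg m x → ∀ t, evalEval x t m = 0 → ‖Φ x t‖ ≤ C' := by
  obtain ⟨c, R, -, h⟩ := nm_inf hirr hC (P := fun c x t => ‖Φ x t‖ ≤ c)
    (fun c c' x t hcc h => h.trans hcc) (c₀ := none) (fun N y hN hy hp hr => by
      obtain ⟨c, hc⟩ := H N y hN hy hp hr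
      exact ⟨c, fun c' h => by simp at h, hc⟩)
  exact ⟨c, R, h⟩

/-- the same for functions which tend to zero -/
theorem near_inf_small {m : ℂ[X][X]} (hirr : Irreducible (m.map (algebraMap ℂ[X] (RatFunc ℂ))))
    {C : ℝ} (hC : ∀ x, Reg m x → ∀ t, evalEval x t m = 0 → ‖t‖ ≤ C * (1 + ‖x‖))
    {Φ : ℂ → ℂ → ℂ}
    (H : ∀ (N : ℕ) (y : ℂ → ℂ), 0 < N → AnalyticAt ℂ y 0 →
      (∀ om : ℂ, om ^ N = 1 → (∀ᶠ w in 𝓝 (0:ℂ), y (om * w) = y w) → om = 1) →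
      (∀ᶠ w in 𝓝[≠] (0:ℂ), Reg m ((w ^ N)⁻¹) ∧ evalEval ((w ^ N)⁻¹) (y w / w ^ N) m = 0) →
      Tendsto (fun w => Φ ((w ^ N)⁻¹) (y w / w ^ N)) (𝓝[≠] (0:ℂ)) (𝓝 0)) :
    ∀ ε > 0, ∃ R : ℝ, ∀ x : ℂ, R < ‖x‖ → Reg m x → ∀ t, evalEval x t m = 0 → ‖Φ x t‖ < ε := by
  intro ε hε
  obtain ⟨c, R, hc, h⟩ := nm_inf hirr hC (P := fun c x t => ‖Φ x t‖ < c)
    (fun c c' x t hcc h => h.trans_le hcc) (c₀ := some ε) (fun N y hN hy hp hr => by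
      refine ⟨ε, fun c' h => (Option.mem_some_iff.1 h).le, ?_⟩
      exact (tendsto_zero_iff_norm_tendsto_zero.1 (H N y hN hy hp hr)).eventually
        (gt_mem_nhds hε))
  exact ⟨R, fun x hx hr t ht => (h x hx hr t ht).trans_le (hc ε (by simp))⟩

end Pool.Agent.MP_ae5b4e_an_MET
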