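import Mathlib
import Pool.Agent.Lib.MP_ae5b4e_an_MET.DefsT
import Pool.Agent.Lib.MP_ae5b4e_an_ALG.Invar
import Pool.Agent.Lib.MP_ae5b4e_an_ALG.LocConic
import Pool.Agent.Lib.MP_ae5b4e_an_MET.FinM
import Pool.Agent.Lib.MP_ae5b4e_an_MET.MongePro
import Pool.Agent.Lib.MP_ae5b4e_an_MET.BranchesM
import Pool.Agent.Lib.MP_ae5b4e_an_MET.NearM
import Pool.Agent.Lib.MP_ae5b4e_an_MET.LiouM
import Pool.Agent.Lib.MP_ae5b4e_an_MET.AffM

/-!
# MP_ae5b4e_an, project MET, module TZ: Monge's invariant vanishes on a branch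
-/

set_option autoImplicit false

noncomputable section

namespace Pool.Agent.MP_ae5b4e_an_MET

open Filter Topology Set Metric Complex Polynomial
open scoped Real
open Pool.Agent.MP_ae5b4e_an_ND (Dx Dy Reg)
open Pool.Agent.MP_ae5b4e_an_FLEX
open Pool.Agent.MP_ae5b4e_an_ALG

namespace InvarM

open Pool.Agent.MP_ae5b4e_an_ALG.Invar (Phi phi_eq phi_near phi_MD)
open Pool.Agent.MP_ae5b4e_an_ALG.MongeA (ana_Wr)

/-- the invariant as a function on the curve -/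
def PP (m : ℂ[X][X]) (q : Fin 6 → ℂ) (x t : ℂ) : ℂ := Phi m x t ^ 2 * QC q x t 1 ^ 3

theorem ana_QC {q : Fin 6 → ℂ} {X Y Z : ℂ → ℂ} {w : ℂ} (hX : AnalyticAt ℂ X w)
    (hY : AnalyticAt ℂ Y w) (hZ : AnalyticAt ℂ Z w) :
    AnalyticAt ℂ (fun w => QC q (X w) (Y w) (Z w)) w := by
  unfold QC
  exact (((((analyticAt_const.mul (hX.pow 2)).add (analyticAt_const.mul (hX.mul hY))).add
    (analyticAt_const.mul (hY.pow 2))).add (analyticAt_const.mul (hX.mul hZ))).add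
    (analyticAt_const.mul (hY.mul hZ))).add (analyticAt_const.mul (hZ.pow 2))

theorem FQ_congr {q : Fin 6 → ℂ} {X Y X' Y' : ℂ → ℂ} {t : ℂ} (hX : X =ᶠ[𝓝 t] X')
    (hY : Y =ᶠ[𝓝 t] Y') : FQ q X Y t = FQ q X' Y' t := by
  rw [FQ, FQ, MD_congr hX hY, qf, qf, hX.self_of_nhds, hY.self_of_nhds]

theorem qf_congr {q : Fin 6 → ℂ} {X Y X' Y' : ℂ → ℂ} {t : ℂ} (hX : X =ᶠ[𝓝 t] X')
    (hY : Y =ᶠ[𝓝 t] Y') : qf q X Y t = qf q X' Y' t := by
  rw [qf, qf, hX.self_of_nhds, hY.self_of_nhds]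

/-- the invariant in a parametrization -/
theorem PP_FQ {m : ℂ[X][X]} {q : Fin 6 → ℂ} {X Y : ℂ → ℂ} {z : ℂ} (hX : AnalyticAt ℂ X z)
    (hY : AnalyticAt ℂ Y z) (hX' : deriv X z ≠ 0) (hreg : Reg m (X z))
    (h : ∀ᶠ z' in 𝓝 z, evalEval (X z') (Y z') m = 0) : PP m q (X z) (Y z) = FQ q X Y z := by
  rw [PP, FQ, qf, phi_MD hX hY hX' hreg h]

theorem ana_shift (x₁ s : ℂ) : AnalyticAt ℂ (fun w : ℂ => x₁ + w) s :=
  analyticAt_const.add analyticAt_id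

theorem deriv_shift (x₁ s : ℂ) : deriv (fun w : ℂ => x₁ + w) s = 1 := by
  simp

theorem tendsto_shift (x₁ : ℂ) : Tendsto (fun w : ℂ => x₁ + w) (𝓝[≠] (0:ℂ)) (𝓝[≠] x₁) := by
  refine tendsto_nhdsWithin_iff.2 ⟨?_, ?_⟩
  · have h2 : Tendsto (fun w : ℂ => x₁ + w) (𝓝 0) (𝓝 (x₁ + 0)) :=
      (continuous_const.add continuous_id).tendsto 0
    rw [add_zero] at h2
    exact h2.mono_left nhdsWithin_le_nhds
  · filter_upwards [self_mem_nhdsWithin] with w hw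
    intro h
    exact hw (by simpa using h)

theorem tendsto_unshift (x₁ : ℂ) : Tendsto (fun w : ℂ => w - x₁) (𝓝[≠] x₁) (𝓝[≠] (0:ℂ)) := by
  refine tendsto_nhdsWithin_iff.2 ⟨?_, ?_⟩
  · have h2 : Tendsto (fun w : ℂ => w - x₁) (𝓝 x₁) (𝓝 (x₁ - x₁)) :=
      (continuous_id.sub continuous_const).tendsto x₁
    rw [sub_self] at h2
    exact h2.mono_left nhdsWithin_le_nhds
  · filter_upwards [self_mem_nhdsWithin] with w hw
    exact sub_ne_zero.2 hw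

theorem MD_zero {b : ℂ → ℂ} {x : ℂ} (h : deriv (deriv b) x = 0) : MD id b x = 0 := by
  have h1 : DX id (DX id b) x = 0 := by
    have e : ∀ f : ℂ → ℂ, DX id f = deriv f := fun f => by
      funext z
      rw [DX, deriv_id, div_one]
    rw [e, e, h]
  rw [MD, h1]
  simp

section Main

variable {m : ℂ[X][X]} (hirr : Irreducible (m.map (algebraMap ℂ[X] (RatFunc ℂ))))
  {q : Fin 6 → ℂ} {g : ℂ → ℂ} {x₀ : ℂ} (hg : GoodG id g (kf q id g) x₀)
  (hq : qf q id g x₀ ≠ 0) (hm : ∀ᶠ x in 𝓝 x₀, evalEval x (g x) m = 0)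

include hirr hg hq hm

/-- analytic at the regular points -/
theorem PP_ana {x₁ : ℂ} (hx₁ : Reg m x₁) {b : ℂ → ℂ} (hb : AnalyticAt ℂ b x₁)
    (hbm : ∀ᶠ x in 𝓝 x₁, evalEval x (b x) m = 0) :
    AnalyticAt ℂ (fun x => PP m q x (b x)) x₁ := by
  have h1 := branch_good_met hirr hg hq hm hx₁ hb hbm
  have eX : (fun w : ℂ => x₁ + w ^ 1) = fun w : ℂ => x₁ + w := by
    funext w
    rw [pow_one]
  have h3 : ∀ᶠ s in 𝓝[≠] (0:ℂ), GoodG (fun w => x₁ + w ^ 1) (fun w => b (x₁ + w))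
      (kf q (fun w => x₁ + w ^ 1) (fun w => b (x₁ + w))) s ∧
      qf q (fun w => x₁ + w ^ 1) (fun w => b (x₁ + w)) s ≠ 0 := by
    filter_upwards [(tendsto_shift x₁).eventually h1] with s hs
    rw [eX]
    exact ⟨good_par (ana_shift x₁ s) (by rw [deriv_shift]; exact one_ne_zero) hs.1, hs.2⟩
  have hba : AnalyticAt ℂ (fun w => b (x₁ + w)) 0 := by
    have h5 : AnalyticAt ℂ b (x₁ + 0) := by rwa [add_zero]
    exact AnalyticAt.comp (g := b) (f := fun w : ℂ => x₁ + w) h5 (ana_shift x₁ 0)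
  obtain ⟨F, hF, hFe, hF0⟩ := fin_place_met one_pos hba (fun om hom _ => by simpa using hom) h3
  rw [eX] at hFe hF0
  -- the other points
  have h6 : ∀ᶠ w in 𝓝[≠] (0:ℂ), AnalyticAt ℂ b (x₁ + w) :=
    (tendsto_shift x₁).eventually (nhdsWithin_le_nhds hb.eventually_analyticAt)
  have h7 : ∀ᶠ z in 𝓝[≠] x₁, MD id b z ^ 2 * QC q z (b z) 1 ^ 3 = F (z - x₁) := by
    have h8 : ∀ᶠ w in 𝓝[≠] (0:ℂ), MD id b (x₁ + w) ^ 2 * QC q (x₁ + w) (b (x₁ + w)) 1 ^ 3 =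
        F w := by
      filter_upwards [h6, hFe] with w h9 h10
      rw [← h10, FQ, qf]
      have h11 := MD_comp (φ := fun w : ℂ => x₁ + w) (ana_shift x₁ w)
        (by rw [deriv_shift]; exact one_ne_zero) h9
      have h12 : (fun w => b (x₁ + w)) = b ∘ (fun w : ℂ => x₁ + w) := rfl
      rw [h12, h11]
    filter_upwards [(tendsto_unshift x₁).eventually h8] with z hz
    rwa [add_sub_cancel] at hz
  have hFc : AnalyticAt ℂ (fun z => F (z - x₁)) x₁ := by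
    have h5 : AnalyticAt ℂ F (x₁ - x₁) := by rwa [sub_self]
    exact AnalyticAt.comp (g := F) (f := fun w : ℂ => w - x₁) h5
      (analyticAt_id.sub analyticAt_const)
  have hQa : AnalyticAt ℂ (fun z => QC q z (b z) 1) x₁ :=
    ana_QC analyticAt_id hb analyticAt_const
  -- the point itself
  have h0 : MD id b x₁ ^ 2 * QC q x₁ (b x₁) 1 ^ 3 = F (x₁ - x₁) := by
    by_cases hG : deriv (deriv b) x₁ = 0
    · have h13 : F 0 = 0 := by
        by_contra hcon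
        have h14 := (hF0 hcon).1
        have e1 : deriv (fun w => b (x₁ + w)) = fun w => deriv b (x₁ + w) := by
          funext w
          exact deriv_comp_const_add b x₁ w
        have e2 : deriv (fun w : ℂ => x₁ + w) = fun _ => 1 := by
          funext w
          exact deriv_shift x₁ w
        apply h14
        rw [Wr, e1, e2, deriv_comp_const_add (deriv b) x₁ 0, add_zero, hG]
        simp
      rw [MD_zero hG, sub_self, h13]
      simp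
    · have hc : AnalyticAt ℂ (fun z => MD id b z ^ 2 * QC q z (b z) 1 ^ 3) x₁ :=
        ((MD_ana hb hG).pow 2).mul (hQa.pow 3)
      have h15 : Tendsto (fun z => MD id b z ^ 2 * QC q z (b z) 1 ^ 3) (𝓝[≠] x₁)
          (𝓝 (MD id b x₁ ^ 2 * QC q x₁ (b x₁) 1 ^ 3)) :=
        hc.continuousAt.tendsto.mono_left nhdsWithin_le_nhds
      have h16 : Tendsto (fun z => F (z - x₁)) (𝓝[≠] x₁) (𝓝 (F (x₁ - x₁))) :=
        hFc.continuousAt.tendsto.mono_left nhdsWithin_le_nhds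
      exact tendsto_nhds_unique_of_eventuallyEq h15 h16 h7
  refine hFc.congr ?_
  have h17 : ∀ᶠ z in 𝓝 x₁, MD id b z ^ 2 * QC q z (b z) 1 ^ 3 = F (z - x₁) := by
    rw [eventually_nhdsWithin_iff] at h7
    filter_upwards [h7] with z hz
    by_cases h18 : z = x₁
    · rw [h18]
      exact h0
    · exact hz h18
  filter_upwards [h17, phi_near hirr hx₁ hb hbm] with z h19 h20
  rw [PP, h20, h19]

/-- the finite places -/
theorem PP_fin {e : ℂ} {N : ℕ} (hN : 0 < N) {h : ℂ → ℂ} (hh : AnalyticAt ℂ h 0)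
    (hprim : ∀ om : ℂ, om ^ N = 1 → (∀ᶠ w in 𝓝 (0:ℂ), h (om * w) = h w) → om = 1)
    (hr : ∀ᶠ w in 𝓝[≠] (0:ℂ), Reg m (e + w ^ N) ∧ evalEval (e + w ^ N) (h w) m = 0) :
    ∃ F : ℂ → ℂ, AnalyticAt ℂ F 0 ∧
      (∀ᶠ w in 𝓝[≠] (0:ℂ), PP m q (e + w ^ N) (h w) = F w) ∧
      (F 0 ≠ 0 → QC q e (h 0) 1 ≠ 0) := by
  have hX : ∀ z : ℂ, AnalyticAt ℂ (fun z : ℂ => e + z ^ N) z := fun z =>
    analyticAt_const.add (analyticAt_id.pow N)
  have hdX : ∀ᶠ z in 𝓝[≠] (0:ℂ), deriv (fun z : ℂ => e + z ^ N) z ≠ 0 := by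
    filter_upwards [self_mem_nhdsWithin] with z hz
    rw [deriv_const_add, deriv_pow_field]
    exact mul_ne_zero (Nat.cast_ne_zero.2 hN.ne') (pow_ne_zero _ hz)
  have hYa : ∀ᶠ z in 𝓝[≠] (0:ℂ), AnalyticAt ℂ h z := nhdsWithin_le_nhds hh.eventually_analyticAt
  have hgood := place_good_met hirr hg hq hm (hX 0).meromorphicAt hh.meromorphicAt (by
    filter_upwards [hr, hdX, hYa] with w h1 h2 h3
    exact ⟨hX w, h3, h2, h1.1, h1.2⟩)
  obtain ⟨F, hF, hFe, hF0⟩ := fin_place_met hN hh hprim hgood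
  refine ⟨F, hF, ?_, fun h0 => (hF0 h0).2⟩
  filter_upwards [hFe, hr, hdX, hYa, Branches.punct_nhds hr] with z h1 h2 h3 h4 h5
  rw [← h1]
  exact PP_FQ (X := fun z => e + z ^ N) (hX z) h4 h3 h2.1 (h5.mono fun w hw => hw.2)

/-- the places at infinity -/
theorem PP_inf {q' : Fin 6 → ℂ} (hq' : ∀ x y z, QC q' x y z = QC q z y x) {N : ℕ} (hN : 0 < N)
    {y : ℂ → ℂ} (hy : AnalyticAt ℂ y 0)
    (hprim : ∀ om : ℂ, om ^ N = 1 → (∀ᶠ w in 𝓝 (0:ℂ), y (om * w) = y w) → om = 1)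
    (hr : ∀ᶠ w in 𝓝[≠] (0:ℂ), Reg m ((w ^ N)⁻¹) ∧ evalEval ((w ^ N)⁻¹) (y w / w ^ N) m = 0) :
    ∃ F : ℂ → ℂ, AnalyticAt ℂ F 0 ∧
      (∀ᶠ w in 𝓝[≠] (0:ℂ), PP m q ((w ^ N)⁻¹) (y w / w ^ N) = F w) ∧
      (F 0 ≠ 0 → QC q' 0 (y 0) 1 ≠ 0) := by
  have hX : ∀ z : ℂ, z ≠ 0 → AnalyticAt ℂ (fun z : ℂ => (z ^ N)⁻¹) z := fun z hz =>
    (analyticAt_id.pow N).inv (pow_ne_zero N hz)
  have hdX : ∀ᶠ z in 𝓝[≠] (0:ℂ), deriv (fun z : ℂ => (z ^ N)⁻¹) z ≠ 0 := by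
    filter_upwards [self_mem_nhdsWithin] with z hz
    have h1 : HasDerivAt (fun z : ℂ => (z ^ N)⁻¹) (-(N * z ^ (N - 1)) / (z ^ N) ^ 2) z :=
      (hasDerivAt_pow N z).inv (pow_ne_zero N hz)
    rw [h1.deriv]
    exact div_ne_zero (neg_ne_zero.2 (mul_ne_zero (Nat.cast_ne_zero.2 hN.ne')
      (pow_ne_zero _ hz))) (pow_ne_zero _ (pow_ne_zero N hz))
  have hYa : ∀ᶠ z in 𝓝[≠] (0:ℂ), AnalyticAt ℂ (fun z => y z / z ^ N) z := by
    filter_upwards [self_mem_nhdsWithin, nhdsWithin_le_nhds hy.eventually_analyticAt] with z hz h1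
    exact h1.div (analyticAt_id.pow N) (pow_ne_zero N hz)
  have hXm : MeromorphicAt (fun z : ℂ => (z ^ N)⁻¹) 0 := (analyticAt_id.pow N).meromorphicAt.inv
  have hYm : MeromorphicAt (fun z : ℂ => y z / z ^ N) 0 :=
    hy.meromorphicAt.div (analyticAt_id.pow N).meromorphicAt
  have hgood := place_good_met hirr hg hq hm hXm hYm (by
    filter_upwards [hr, hdX, hYa, self_mem_nhdsWithin] with w h1 h2 h3 h4
    exact ⟨hX w h4, h3, h2, h1.1, h1.2⟩)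
  have e1 : ∀ z : ℂ, z ≠ 0 → (fun s : ℂ => ((s ^ N)⁻¹)⁻¹) =ᶠ[𝓝 z] fun w => 0 + w ^ N := by
    intro z _
    exact Eventually.of_forall fun s => by simp
  have e2 : ∀ z : ℂ, z ≠ 0 → (fun s : ℂ => y s / s ^ N / (s ^ N)⁻¹) =ᶠ[𝓝 z] y := by
    intro z hz
    filter_upwards [isOpen_ne.mem_nhds hz] with s hs
    have h1 : s ^ N ≠ 0 := pow_ne_zero N hs
    field_simp
  have hgood' : ∀ᶠ s in 𝓝[≠] (0:ℂ), GoodG (fun w => 0 + w ^ N) y
      (kf q' (fun w => 0 + w ^ N) y) s ∧ qf q' (fun w => 0 + w ^ N) y s ≠ 0 := by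
    filter_upwards [hgood, self_mem_nhdsWithin] with s hs hs0
    obtain ⟨h1, h2⟩ := good_pro hs.1 (inv_ne_zero (pow_ne_zero N hs0)) hs.2 hq'
    refine ⟨goodG_congr h1 (e1 s hs0) (e2 s hs0) (kf_congr (e1 s hs0) (e2 s hs0)), ?_⟩
    have e3 : qf q' (fun s : ℂ => ((s ^ N)⁻¹)⁻¹) (fun s : ℂ => y s / s ^ N / (s ^ N)⁻¹) s =
        qf q' (fun w => 0 + w ^ N) y s := qf_congr (e1 s hs0) (e2 s hs0)
    rwa [e3] at h2
  obtain ⟨F, hF, hFe, hF0⟩ := fin_place_met hN hy hprim hgood'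
  refine ⟨F, hF, ?_, fun h0 => (hF0 h0).2⟩
  filter_upwards [hFe, hr, hdX, hYa, Branches.punct_nhds hr, hgood, self_mem_nhdsWithin]
    with z h1 h2 h3 h4 h5 h6 h7
  rw [← h1, ← FQ_congr (e1 z h7) (e2 z h7),
    FQ_pro (X := fun z => (z ^ N)⁻¹) (Y := fun z => y z / z ^ N) (hX z h7) h4 h3
      (inv_ne_zero (pow_ne_zero N h7)) h6.1.1.2.2.2 hq']
  exact PP_FQ (X := fun z => (z ^ N)⁻¹) (Y := fun z => y z / z ^ N) (hX z h7) h4 h3 h2.1
    (h5.mono fun w hw => hw.2)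

end Main

/-- a function with values near an analytic function is bounded -/
theorem bdd_of_ana {f F : ℂ → ℂ} (hF : AnalyticAt ℂ F 0) (h : ∀ᶠ w in 𝓝[≠] (0:ℂ), f w = F w) :
    ∃ C : ℝ, ∀ᶠ w in 𝓝[≠] (0:ℂ), ‖f w‖ ≤ C := by
  refine ⟨‖F 0‖ + 1, ?_⟩
  have h1 : ∀ᶠ w in 𝓝[≠] (0:ℂ), ‖F w‖ < ‖F 0‖ + 1 :=
    (hF.continuousAt.norm.eventually_lt continuousAt_const
      (lt_add_one _)).filter_mono nhdsWithin_le_nhds
  filter_upwards [h, h1] with w h2 h3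
  rw [h2]
  exact h3.le

/-- values in a finite set without `0` -/
theorem ne_zero_of_fin {f F : ℂ → ℂ} {V : Finset ℂ} (hF : AnalyticAt ℂ F 0)
    (h : ∀ᶠ w in 𝓝[≠] (0:ℂ), f w = F w) (hV : ∀ᶠ w in 𝓝[≠] (0:ℂ), f w ∈ V ∧ f w ≠ 0) :
    F 0 ≠ 0 := by
  intro h0
  have h1 : Tendsto F (𝓝[≠] (0:ℂ)) (𝓝 0) := by
    have h2 := hF.continuousAt.tendsto.mono_left (nhdsWithin_le_nhds (s := {(0:ℂ)}ᶜ))
    rwa [h0] at h2
  have h3 : ((V.erase 0 : Finset ℂ) : Set ℂ)ᶜ ∈ 𝓝 (0:ℂ) :=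
    (V.erase 0).finite_toSet.isClosed.isOpen_compl.mem_nhds (by simp)
  obtain ⟨w, h4, h5, h6⟩ := ((h1.eventually h3).and (h.and hV)).exists
  apply h4
  rw [← h5]
  exact Finset.mem_coe.2 (Finset.mem_erase.2 ⟨h6.2, h6.1⟩)

/-- an analytic function with values in a finite set is locally constant -/
theorem eventually_zero_of_fin {f : ℂ → ℂ} {V : Finset ℂ} {x : ℂ} (hf : ContinuousAt f x)
    (h0 : f x = 0) (hV : ∀ᶠ z in 𝓝 x, f z ∈ V) : ∀ᶠ z in 𝓝 x, f z = 0 := by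
  have h3 : ((V.erase 0 : Finset ℂ) : Set ℂ)ᶜ ∈ 𝓝 (f x) := by
    rw [h0]
    exact (V.erase 0).finite_toSet.isClosed.isOpen_compl.mem_nhds (by simp)
  filter_upwards [hf.eventually h3, hV] with z h4 h5
  by_contra h6
  exact h4 (Finset.mem_coe.2 (Finset.mem_erase.2 ⟨h6, h5⟩))

end InvarM

open InvarM in
/-- Monge's invariant vanishes on a branch -/
theorem monge_branch {m : ℂ[X][X]} (hirr : Irreducible (m.map (algebraMap ℂ[X] (RatFunc ℂ))))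
    {q : Fin 6 → ℂ} {g : ℂ → ℂ} {x₀ : ℂ} (hg : GoodG id g (kf q id g) x₀)
    (hq : qf q id g x₀ ≠ 0) (hm : ∀ᶠ x in 𝓝 x₀, evalEval x (g x) m = 0) {C : ℝ}
    (hC : ∀ x, Reg m x → ∀ t, evalEval x t m = 0 → ‖t‖ ≤ C * (1 + ‖x‖)) :
    ∃ (b : ℂ → ℂ) (x₁ : ℂ), Reg m x₁ ∧ AnalyticAt ℂ b x₁ ∧
      (∀ᶠ x in 𝓝 x₁, evalEval x (b x) m = 0) ∧ deriv (deriv b) x₁ ≠ 0 ∧
      ∀ᶠ x in 𝓝 x₁, MD id b x = 0 := by
  obtain ⟨q', hq0⟩ := exists_sub q 0 0 1 0 1 0 1 0 0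
  have hq' : ∀ x y z, QC q' x y z = QC q z y x := by
    intro x y z
    rw [hq0]
    congr 1 <;> ring
  obtain ⟨V, hV⟩ := liouville_fin hirr (Φ := PP m q)
    (fun x₁ hx₁ b hb hbm => PP_ana hirr hg hq hm hx₁ hb hbm)
    (fun e => near_fin_gen hirr hC fun N h hN hh hprim hr => by
      obtain ⟨F, hF, hFe, -⟩ := PP_fin hirr hg hq hm hN hh hprim hr
      exact bdd_of_ana hF hFe)
    (near_inf_gen hirr hC fun N y hN hy hprim hr => by
      obtain ⟨F, hF, hFe, -⟩ := PP_inf hirr hg hq hm hq' hN hy hprim hr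
      exact bdd_of_ana hF hFe)
  by_cases hcase : ∃ x t, Reg m x ∧ evalEval x t m = 0 ∧ PP m q x t = 0
  · -- a zero
    obtain ⟨x, t, hx, ht, hP⟩ := hcase
    obtain ⟨b, hb1, hb2, hb3⟩ := Pool.Agent.MP_ae5b4e_an_ND.branch ht (hx.2 _ ht)
    have hb4 := Pool.Agent.MP_ae5b4e_an_ND.branch_eq hb1.continuousAt hb2 hb3
    have hreg := Pool.Agent.MP_ae5b4e_an_ND.Reg.eventually hirr hx
    have h1 : ∀ᶠ z in 𝓝 x, PP m q z (b z) = 0 := by
      refine eventually_zero_of_fin (V := V)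
        (PP_ana hirr hg hq hm hx hb1 hb4).continuousAt (by rw [hb2]; exact hP) ?_
      filter_upwards [hreg, hb4] with z h2 h3
      exact hV z h2 _ h3
    have h2 := branch_good_met hirr hg hq hm hx hb1 hb4
    have h3 : ∀ᶠ z in 𝓝[≠] x, MD id b z = 0 := by
      filter_upwards [nhdsWithin_le_nhds h1, h2,
        nhdsWithin_le_nhds (Pool.Agent.MP_ae5b4e_an_ALG.Invar.phi_near hirr hx hb1 hb4)]
        with z h4 h5 h6
      rw [PP, h6] at h4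
      rcases mul_eq_zero.1 h4 with h7 | h7
      · exact (pow_eq_zero_iff two_ne_zero).1 h7
      · exact absurd ((pow_eq_zero_iff three_ne_zero).1 h7) h5.2
    have h4 : ∀ᶠ z in 𝓝[≠] x, ∀ᶠ z' in 𝓝 z, MD id b z' = 0 := by
      filter_upwards [eventually_eventually_nhdsWithin.2 h3, self_mem_nhdsWithin] with w hw hw0
      rwa [IsOpen.nhdsWithin_eq isOpen_compl_singleton hw0] at hw
    have h5' : ∀ᶠ z in 𝓝[≠] x, Reg m z := nhdsWithin_le_nhds hreg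
    have h6' : ∀ᶠ z in 𝓝[≠] x, AnalyticAt ℂ b z := nhdsWithin_le_nhds hb1.eventually_analyticAt
    have h7' : ∀ᶠ z in 𝓝[≠] x, ∀ᶠ z' in 𝓝 z, evalEval z' (b z') m = 0 :=
      nhdsWithin_le_nhds hb4.eventually_nhds
    obtain ⟨x₁, h5, h6, h7, h8, h9⟩ := (h4.and (h2.and (h5'.and (h6'.and h7')))).exists
    refine ⟨b, x₁, h7, h8, h9, ?_, h5⟩
    intro h10
    apply h6.1.1.2.2.2
    rw [Wr, h10]
    simp
  · -- no zero
    exfalso
    have hne : ∀ x t, Reg m x → evalEval x t m = 0 → PP m q x t ≠ 0 :=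
      fun x t h1 h2 h3 => hcase ⟨x, t, h1, h2, h3⟩
    have hQ : ∀ x t, Reg m x → evalEval x t m = 0 → QC q x t 1 ≠ 0 := by
      intro x t h1 h2 h3
      apply hne x t h1 h2
      rw [PP, h3]
      simp
    have hzero : ∀ x, Reg m x → ∀ t, evalEval x t m = 0 → (QC q x t 1)⁻¹ = 0 := by
      intro x hx t ht
      refine liouville_alg hirr (Φ := fun x t => (QC q x t 1)⁻¹) ?_ ?_ ?_ hx ht
      · intro x₁ hx₁ b hb hbm
        exact (ana_QC analyticAt_id hb analyticAt_const).inv (hQ x₁ _ hx₁ hbm.self_of_nhds)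
      · intro e
        refine near_fin_gen hirr hC fun N h hN hh hprim hr => ?_
        obtain ⟨F, hF, hFe, hF0⟩ := PP_fin hirr hg hq hm hN hh hprim hr
        have h1 : F 0 ≠ 0 := ne_zero_of_fin (V := V) hF hFe (by
          filter_upwards [hr] with w hw
          exact ⟨hV _ hw.1 _ hw.2, hne _ _ hw.1 hw.2⟩)
        have h2 : AnalyticAt ℂ (fun w => QC q (e + w ^ N) (h w) 1) 0 :=
          ana_QC (analyticAt_const.add (analyticAt_id.pow N)) hh analyticAt_const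
        have h3 : QC q (e + (0:ℂ) ^ N) (h 0) 1 ≠ 0 := by
          rw [zero_pow hN.ne', add_zero]
          exact hF0 h1
        exact bdd_of_ana (h2.inv h3) (Eventually.of_forall fun w => rfl)
      · refine near_inf_small hirr hC fun N y hN hy hprim hr => ?_
        obtain ⟨F, hF, hFe, hF0⟩ := PP_inf hirr hg hq hm hq' hN hy hprim hr
        have h1 : F 0 ≠ 0 := ne_zero_of_fin (V := V) hF hFe (by
          filter_upwards [hr] with w hw
          exact ⟨hV _ hw.1 _ hw.2, hne _ _ hw.1 hw.2⟩)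
        have h2 : AnalyticAt ℂ (fun w => QC q' (w ^ N) (y w) 1) 0 :=
          ana_QC (analyticAt_id.pow N) hy analyticAt_const
        have h3 : QC q' ((0:ℂ) ^ N) (y 0) 1 ≠ 0 := by
          rw [zero_pow hN.ne']
          exact hF0 h1
        have h4 : AnalyticAt ℂ (fun w : ℂ => (w ^ N) ^ 2 * (QC q' (w ^ N) (y w) 1)⁻¹) 0 :=
          ((analyticAt_id.pow N).pow 2).mul (h2.inv h3)
        have h5 : Tendsto (fun w : ℂ => (w ^ N) ^ 2 * (QC q' (w ^ N) (y w) 1)⁻¹) (𝓝[≠] (0:ℂ))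
            (𝓝 0) := by
          have h6 := h4.continuousAt.tendsto.mono_left (nhdsWithin_le_nhds (s := {(0:ℂ)}ᶜ))
          simpa [zero_pow hN.ne'] using h6
        refine h5.congr' ?_
        filter_upwards [self_mem_nhdsWithin] with w hw
        have hw0 : w ^ N ≠ 0 := pow_ne_zero N hw
        have h7 : QC q' (w ^ N) (y w) 1 = (w ^ N) ^ 2 * QC q ((w ^ N)⁻¹) (y w / w ^ N) 1 := by
          rw [hq', QC, QC]
          field_simp
        rw [h7, mul_inv, ← mul_assoc, mul_inv_cancel₀ (pow_ne_zero 2 hw0), one_mul]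
    obtain ⟨z, h1, h2⟩ := ((Branches.reg_punct hirr x₀).and (nhdsWithin_le_nhds hm)).exists
    exact inv_ne_zero (hQ z _ h1 h2) (hzero z h1 _ h2)

end Pool.Agent.MP_ae5b4e_an_MET
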