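import Mathlib
import Pool.Agent.Lib.MP_ae5b4e_an_MET.DefsT
import Pool.Agent.Lib.MP_ae5b4e_an_MET.AffM
import Pool.Agent.Lib.MP_ae5b4e_an_MET.InvarM
import Pool.Agent.Lib.MP_ae5b4e_an_ALG.LocConic
import Pool.Agent.Lib.MP_ae5b4e_an_SMG.Defs

/-!
# MP_ae5b4e_an, project MET, module TE: the local theorem for the involutions of a quadratic form
-/

set_option autoImplicit false

noncomputable section

namespace Pool.Agent.MP_ae5b4e_an_MET

open Filter Topology Set Metric Complex Polynomial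
open scoped Real
open Pool.Agent.MP_ae5b4e_an_ND (Dx Dy Reg)
open Pool.Agent.MP_ae5b4e_an_FLEX
open Pool.Agent.MP_ae5b4e_an_ALG

namespace LocM

/-- the polynomial of a conic -/
def conP (A B C' D E F : ℂ) : ℂ[X][X] :=
  C (C A * X ^ 2 + C D * X + C F) + C (C B * X + C E) * X + C (C C') * X ^ 2

theorem conP_eval (A B C' D E F x y : ℂ) : evalEval x y (conP A B C' D E F) =
    A * x ^ 2 + B * x * y + C' * y ^ 2 + D * x + E * y + F := by
  simp only [conP, evalEval, eval_add, eval_mul, eval_pow, eval_C, eval_X]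
  ring

/-- the graph case -/
theorem graph {q : Fin 6 → ℂ} {g : ℂ → ℂ} {x₀ : ℂ} (h : GoodG id g (kf q id g) x₀)
    (hq : qf q id g x₀ ≠ 0) {P : ℂ[X][X]} (hP : P ≠ 0)
    (hrel : ∀ᶠ x in 𝓝 x₀, evalEval x (g x) P = 0) {C : ℝ}
    (hC : ∀ x y, evalEval x y P = 0 → ‖y‖ ≤ C * (1 + ‖x‖)) :
    ∃ A B C D E F : ℂ, (A, B, C, D, E, F) ≠ (0, 0, 0, 0, 0, 0) ∧
      ∀ᶠ x in 𝓝 x₀, A * x ^ 2 + B * x * g x + C * g x ^ 2 + D * x + E * g x + F = 0 := by
  have hga : AnalyticAt ℂ g x₀ := h.1.2.1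
  obtain ⟨m, hirr, hm⟩ := Pool.Agent.MP_ae5b4e_an_ND.exists_factor hga hP hrel
  obtain ⟨b, x₁, hx₁, hb, hbm, hb2, hMD⟩ := monge_branch hirr h hq hm (C := C)
    fun x hx t ht => hC x t (branch_rel hirr hga hm hrel hx ht)
  obtain ⟨A, B, C', D, E, F, hne, hcon⟩ := conic_of_monge hb hb2 hMD
  refine ⟨A, B, C', D, E, F, hne, ?_⟩
  have hQ : ∀ᶠ x in 𝓝 x₁, evalEval x (b x) (conP A B C' D E F) = 0 := by
    filter_upwards [hcon] with x hx
    rw [conP_eval]
    exact hx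
  have h1 : ∀ᶠ x in 𝓝[≠] x₀,
      A * x ^ 2 + B * x * g x + C' * g x ^ 2 + D * x + E * g x + F = 0 := by
    filter_upwards [Branches.reg_punct hirr x₀, hm.filter_mono nhdsWithin_le_nhds]
      with x h2 h3
    have h4 := branch_rel hirr hb hbm hQ h2 h3
    rwa [conP_eval] at h4
  -- the point itself
  have hF : AnalyticAt ℂ (fun x => A * x ^ 2 + B * x * g x + C' * g x ^ 2 + D * x + E * g x + F)
      x₀ := by
    refine ((((?_ : AnalyticAt ℂ _ x₀).add ?_).add ?_).add ?_).add ?_ |>.add ?_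
    · exact analyticAt_const.mul (analyticAt_id.pow 2)
    · exact (analyticAt_const.mul analyticAt_id).mul hga
    · exact analyticAt_const.mul (hga.pow 2)
    · exact analyticAt_const.mul analyticAt_id
    · exact analyticAt_const.mul hga
    · exact analyticAt_const
  exact (hF.frequently_zero_iff_eventually_zero).1 h1.frequently

end LocM

open LocM in
theorem loc_conic_c {q : Fin 6 → ℂ} {X Y : ℂ → ℂ} {t₀ : ℂ} (h : GoodG X Y (kf q X Y) t₀)
    (hq : qf q X Y t₀ ≠ 0) {P : ℂ[X][X]} (hP : P ≠ 0)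
    (hrel : ∀ᶠ t in 𝓝 t₀, evalEval (X t) (Y t) P = 0) :
    ∃ A B C D E F : ℂ, (A, B, C, D, E, F) ≠ (0, 0, 0, 0, 0, 0) ∧
      ∀ᶠ t in 𝓝 t₀, A * X t ^ 2 + B * X t * Y t + C * Y t ^ 2 + D * X t + E * Y t + F = 0 := by
  obtain ⟨S, hS, hshear⟩ := exists_shear hP
  have hXa : AnalyticAt ℂ X t₀ := h.1.1
  have hYa : AnalyticAt ℂ Y t₀ := h.1.2.1
  have hW : Wr X Y t₀ ≠ 0 := h.1.2.2.2
  obtain ⟨s, hsS, hs⟩ : ∃ s : ℂ, s ∉ S ∧ deriv X t₀ - s * deriv Y t₀ ≠ 0 := by
    obtain ⟨s, hs⟩ := (hS.union (finite_singleton (deriv X t₀ / deriv Y t₀))).exists_notMem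
    rw [mem_union, not_or, mem_singleton_iff] at hs
    refine ⟨s, hs.1, fun h0 => ?_⟩
    by_cases hY0 : deriv Y t₀ = 0
    · have hX0 : deriv X t₀ = 0 := by
        rw [hY0, mul_zero, sub_zero] at h0
        exact h0
      apply hW
      rw [Wr, hX0, hY0]
      ring
    · apply hs.2
      rw [eq_div_iff hY0]
      exact (sub_eq_zero.1 h0).symm
  obtain ⟨P₁, hP₁, hev, C, hC⟩ := hshear s hsS
  set Xs : ℂ → ℂ := fun t => X t - s * Y t with hXs
  have hXsa : AnalyticAt ℂ Xs t₀ := hXa.sub (analyticAt_const.mul hYa)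
  have hXsd : deriv Xs t₀ ≠ 0 := by
    have h1 : HasDerivAt Xs (deriv X t₀ - s * deriv Y t₀) t₀ :=
      hXa.differentiableAt.hasDerivAt.sub (hYa.differentiableAt.hasDerivAt.const_mul s)
    rw [h1.deriv]
    exact hs
  -- the form in the new coordinates
  obtain ⟨q', hq'⟩ := exists_sub q 1 s 0 0 1 0 0 0 1
  have hq1 : ∀ x y, QC q' (1 * x + -s * y + 0) (0 * x + 1 * y + 0) 1 = QC q x y 1 := by
    intro x y
    rw [hq']
    congr 1 <;> ring
  have hgood1 : GoodG Xs Y (kf q' Xs Y) t₀ := by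
    have h1 := good_aff h (α := 1) (β := -s) (γ := 0) (α' := 0) (β' := 1) (γ' := 0)
      (by norm_num) hq1
    have e1 : (fun t => 1 * X t + -s * Y t + 0) = Xs := by
      funext t
      simp only [hXs]
      ring
    have e2 : (fun t => 0 * X t + 1 * Y t + 0) = Y := by
      funext t
      ring
    rw [e1, e2] at h1
    exact h1
  have hqf1 : QC q' (Xs t₀) (Y t₀) 1 ≠ 0 := by
    have h1 := hq1 (X t₀) (Y t₀)
    have e1 : 1 * X t₀ + -s * Y t₀ + 0 = Xs t₀ := by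
      simp only [hXs]
      ring
    have e2 : 0 * X t₀ + 1 * Y t₀ + 0 = Y t₀ := by ring
    rw [e1, e2] at h1
    rw [h1]
    exact hq
  obtain ⟨φ, hφa, hφx, hleft, hright, hφd⟩ := LocConic.exists_inv hXsa hXsd
  have hid : Xs ∘ φ =ᶠ[𝓝 (Xs t₀)] id := by
    filter_upwards [hright] with w hw
    exact hw
  have hgood2 : GoodG id (Y ∘ φ) (kf q' id (Y ∘ φ)) (Xs t₀) := by
    have h1 : GoodG Xs Y (kf q' Xs Y) (φ (Xs t₀)) := by
      rw [hφx]
      exact hgood1
    exact goodG_congr (good_par hφa hφd h1) hid (EventuallyEq.refl _ _)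
      (kf_congr hid (EventuallyEq.refl _ _))
  have hqf2 : qf q' id (Y ∘ φ) (Xs t₀) ≠ 0 := by
    rw [qf, Function.comp_apply, hφx]
    exact hqf1
  have hrel1 : ∀ᶠ x in 𝓝 (Xs t₀), evalEval x ((Y ∘ φ) x) P₁ = 0 := by
    have h1 : Tendsto φ (𝓝 (Xs t₀)) (𝓝 t₀) := by
      have := hφa.continuousAt
      rw [ContinuousAt, hφx] at this
      exact this
    filter_upwards [h1.eventually hrel, hright] with x hx hx'
    rw [hev]
    have h2 : x + s * (Y ∘ φ) x = X (φ x) := by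
      have h3 : Xs (φ x) = x := hx'
      simp only [hXs] at h3
      rw [Function.comp_apply]
      linear_combination -h3
    rw [h2]
    exact hx
  obtain ⟨A, B, C', D, E, F, hne, hcon⟩ := LocM.graph hgood2 hqf2 hP₁ hrel1 hC
  refine ⟨A, B - 2 * s * A, A * s ^ 2 - B * s + C', D, E - s * D, F, ?_, ?_⟩
  · intro h0
    simp only [Prod.mk.injEq] at h0
    obtain ⟨h1, h2, h3, h4, h5, h6⟩ := h0
    apply hne
    have hB : B = 0 := by
      rw [h1] at h2
      linear_combination h2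
    have hC0 : C' = 0 := by
      rw [h1, hB] at h3
      linear_combination h3
    have hE : E = 0 := by
      rw [h4] at h5
      linear_combination h5
    rw [h1, hB, hC0, h4, hE, h6]
  · have h1 : Tendsto Xs (𝓝 t₀) (𝓝 (Xs t₀)) := hXsa.continuousAt
    filter_upwards [h1.eventually hcon, hleft] with t ht hl
    rw [Function.comp_apply, hl] at ht
    simp only [hXs] at ht
    linear_combination ht

/-- the local theorem for a real form -/
theorem loc_conic_met {q : Fin 6 → ℝ} {X Y : ℂ → ℂ} {t₀ : ℂ}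
    (h : GoodG X Y (Pool.Agent.MP_ae5b4e_an_SMG.qK q X Y) t₀)
    (hq : Pool.Agent.MP_ae5b4e_an_SMG.qA q X Y t₀ ≠ 0) {P : ℂ[X][X]} (hP : P ≠ 0)
    (hrel : ∀ᶠ t in 𝓝 t₀, evalEval (X t) (Y t) P = 0) :
    ∃ A B C D E F : ℂ, (A, B, C, D, E, F) ≠ (0, 0, 0, 0, 0, 0) ∧
      ∀ᶠ t in 𝓝 t₀, A * X t ^ 2 + B * X t * Y t + C * Y t ^ 2 + D * X t + E * Y t + F = 0 := by
  have hA : Pool.Agent.MP_ae5b4e_an_SMG.qA q X Y = qf (fun i => (q i : ℂ)) X Y := by
    funext t
    rfl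
  have hK : Pool.Agent.MP_ae5b4e_an_SMG.qK q X Y = kf (fun i => (q i : ℂ)) X Y := by
    funext t
    simp only [Pool.Agent.MP_ae5b4e_an_SMG.qK, kf, hA, neg_div]
  rw [hK] at h
  rw [hA] at hq
  exact loc_conic_c h hq hP hrel

end Pool.Agent.MP_ae5b4e_an_MET
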