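import Mathlib
import Pool.Agent.Lib.MP_ae5b4e_an_LAT.Cplx
import Pool.Agent.Lib.MP_ae5b4e_an_LAT.NDTwo
import Pool.Agent.Lib.MP_ae5b4e_an_ALG.Ellipse
import Pool.Agent.Lib.MP_ae5b4e_an_ALG.RealEnd
import Pool.Agent.Lib.MP_ae5b4e_an_SMG.Export
import Pool.Agent.Lib.MP_ae5b4e_an_MET.LeafEnd
import Pool.Agent.Lib.MP_ae5b4e_an_MET.LocM

/-!
# MP_ae5b4e_an, project MET: the theorem

An algebraic convex curve with a family of closed curves around it which induces on its tangent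
lines the involutions of a quadratic form is an ellipse, and the closed curves are conics of one
pencil.
-/

set_option autoImplicit false

noncomputable section

namespace Pool.Agent.MP_ae5b4e_an_MET

open Filter Topology Set Metric Complex Polynomial
open scoped Real
open Pool.Agent.MP_ae5b4e_an_FLEX (GoodG)
open Pool.Agent.MP_ae5b4e_an_hopf (ConvexCurve)
open Pool.Agent.MP_ae5b4e_an_SMG (QR kR Fol QQ qA qK)
open Pool.Agent.MP_ae5b4e_an_ALG

namespace Final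

/-- an analytic function which vanishes at the real points vanishes -/
theorem zero_of_real {f : ℂ → ℂ} {t₀ : ℝ} (hf : AnalyticAt ℂ f t₀)
    (h : ∀ᶠ t : ℝ in 𝓝 t₀, f t = 0) : ∀ᶠ t in 𝓝 (t₀ : ℂ), f t = 0 := by
  refine hf.frequently_zero_iff_eventually_zero.1 ?_
  have h1 : Tendsto (fun t : ℝ => (t : ℂ)) (𝓝[≠] t₀) (𝓝[≠] (t₀ : ℂ)) := by
    refine tendsto_nhdsWithin_iff.2 ⟨?_, ?_⟩
    · exact (Complex.continuous_ofReal.tendsto t₀).mono_left nhdsWithin_le_nhds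
    · filter_upwards [self_mem_nhdsWithin] with t ht
      simpa using ht
  have h2 : ∀ᶠ t : ℝ in 𝓝[≠] t₀, f t = 0 := h.filter_mono nhdsWithin_le_nhds
  exact h1.frequently h2.frequently

variable {q : Fin 6 → ℝ} {X Y : ℂ → ℂ} {γ : ConvexCurve} {t₀ : ℝ}

lemma qA_ana {z : ℂ} (hX : AnalyticAt ℂ X z) (hY : AnalyticAt ℂ Y z) :
    AnalyticAt ℂ (qA q X Y) z := by
  unfold qA QQ
  fun_prop

lemma qA_real {t : ℝ} (hX : X t = γ.x t) (hY : Y t = γ.y t) :
    qA q X Y t = ((QR q (γ.x t) (γ.y t) : ℝ) : ℂ) := by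
  simp only [qA, QQ, QR, hX, hY]
  push_cast
  ring

lemma qK_real (hX : AnalyticAt ℂ X t₀) (hY : AnalyticAt ℂ Y t₀)
    (hXr : ∀ᶠ t : ℝ in 𝓝 t₀, X t = γ.x t) (hYr : ∀ᶠ t : ℝ in 𝓝 t₀, Y t = γ.y t) :
    ∀ᶠ t : ℝ in 𝓝 t₀, qK q X Y t = ((kR q γ t : ℝ) : ℂ) := by
  have h1 : ∀ᶠ t : ℝ in 𝓝 t₀, AnalyticAt ℂ (qA q X Y) t :=
    (Complex.continuous_ofReal.tendsto t₀).eventually (qA_ana hX hY).eventually_analyticAt
  filter_upwards [h1, (hXr.and hYr).eventually_nhds] with t h2 h3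
  have h4 : HasDerivAt (fun s : ℝ => qA q X Y (s : ℂ)) (deriv (qA q X Y) (t : ℂ)) t :=
    h2.differentiableAt.hasDerivAt.comp_ofReal
  have h5 : (fun s : ℝ => qA q X Y (s : ℂ)) =ᶠ[𝓝 t]
      fun s => ((QR q (γ.x s) (γ.y s) : ℝ) : ℂ) := by
    filter_upwards [h3] with s hs
    exact qA_real hs.1 hs.2
  have h6 : HasDerivAt (fun s : ℝ => ((QR q (γ.x s) (γ.y s) : ℝ) : ℂ))
      ((deriv (fun s => QR q (γ.x s) (γ.y s)) t : ℝ) : ℂ) t := by
    rw [(hd_QR q γ t).deriv]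
    exact (hd_QR q γ t).ofReal_comp
  have h7 := h4.unique (h6.congr_of_eventuallyEq h5)
  have h8 := h3.self_of_nhds
  rw [qK, kR, h7, qA_real h8.1 h8.2]
  push_cast
  ring

end Final

open Final in
/-- the theorem, for a form which is positive on the curve -/
theorem met_pos (γ : ConvexCurve) (hx : ∀ t, AnalyticAt ℝ γ.x t) (hy : ∀ t, AnalyticAt ℝ γ.y t)
    {P : ℝ[X][X]} (hP : P ≠ 0) (hrel : ∀ t, evalEval (γ.x t) (γ.y t) P = 0)
    (Q : QuadraticForm ℝ (Fin 3 → ℝ)) (hQ : ∀ t, 0 < Q (γ.Γ t))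
    (U : ℝ → ℝ → ℝ)
    (hcont : ContinuousOn (fun p : ℝ × ℝ => U p.1 p.2) (Ioo 0 1 ×ˢ univ))
    (hper : ∀ c ∈ Ioo (0:ℝ) 1, ∀ t, U c (t + γ.T) = U c t)
    (hsimple : ∀ c ∈ Ioo (0:ℝ) 1, ∀ t t', γ.pt t (U c t) = γ.pt t' (U c t') →
      ∃ n : ℤ, t' = t + n * γ.T)
    (hmono : ∀ c ∈ Ioo (0:ℝ) 1, ∀ c' ∈ Ioo (0:ℝ) 1, c < c' → ∀ t, U c' t < U c t)
    (hlim : ∀ t, Tendsto (fun c => U c t) (𝓝[>] 0) atTop)
    (hproj : ∀ c ∈ Ioo (0:ℝ) 1, ∀ t u v, u ≠ v → γ.pt t u ∈ γ.leaf U c →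
      γ.pt t v ∈ γ.leaf U c → Q (γ.hvec t u) = Q (γ.hvec t v)) :
    ∃ E : QuadraticForm ℝ (Fin 3 → ℝ), E.Nondegenerate ∧ γ.trace = conic E ∧
      ∀ c ∈ Ioo (0:ℝ) 1, ∃ ρ : ℝ, (Q - ρ • E).Nondegenerate ∧ γ.leaf U c = conic (Q - ρ • E) := by
  set q : Fin 6 → ℝ := coef Q with hqdef
  have hq : ∀ t, 0 < QR q (γ.x t) (γ.y t) := by
    intro t
    have h1 := hQ t
    rw [coef_apply] at h1
    rw [QR_eq]
    exact h1
  have hF : Fol γ U (kR q γ) := by
    refine ⟨hcont, hper, hsimple, hmono, hlim, ?_⟩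
    intro c hc t u v huv h1 h2
    have h3 := hproj c hc t u v huv h1 h2
    have hk : QR q (γ.x t) (γ.y t) * kR q γ t =
        -polQ q (γ.x t) (γ.y t) (deriv γ.x t) (deriv γ.y t) := by
      rw [kR, (hd_QR q γ t).deriv]
      have := (hq t).ne'
      field_simp
    rw [coef_apply Q (γ.hvec t u), coef_apply Q (γ.hvec t v)] at h3
    have h4 : (u - v) * (QR q (γ.x t) (γ.y t) * (u + v - kR q γ t)) = 0 := by
      have h5 : QR q (γ.x t) (γ.y t) * (u + v - kR q γ t) =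
          QR q (γ.x t) (γ.y t) * (u + v) +
            polQ q (γ.x t) (γ.y t) (deriv γ.x t) (deriv γ.y t) := by
        linear_combination -hk
      rw [h5]
      simp only [QH, ConvexCurve.hvec, Matrix.cons_val_zero, Matrix.cons_val_one,
        Matrix.cons_val] at h3
      simp only [QR, polQ]
      linear_combination h3
    have h5 := (mul_eq_zero.1 h4).resolve_left (sub_ne_zero.2 huv)
    have h6 := (mul_eq_zero.1 h5).resolve_left (hq t).ne'
    linarith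
  -- the first integral near one point
  obtain ⟨X, hX, hXr⟩ := RealEnd.ext_one (hx 0)
  obtain ⟨Y, hY, hYr⟩ := RealEnd.ext_one (hy 0)
  have hA0 : qA q X Y ((0:ℝ) : ℂ) ≠ 0 := by
    rw [qA_real (γ := γ) hXr.self_of_nhds hYr.self_of_nhds]
    exact_mod_cast (hq 0).ne'
  have hK : AnalyticAt ℂ (qK q X Y) ((0:ℝ) : ℂ) :=
    ((qA_ana hX hY).deriv.neg).div (qA_ana hX hY) hA0
  have hgood : GoodG X Y (qK q X Y) ((0:ℝ) : ℂ) :=
    Pool.Agent.MP_ae5b4e_an_SMG.good_of_absolute hx hy hq hF hX hY hK hXr hYr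
      (qK_real hX hY hXr hYr)
  -- the relation
  set PC : ℂ[X][X] := P.map (mapRingHom Complex.ofRealHom) with hPC
  have hPC0 : PC ≠ 0 := by
    rw [hPC, Ne, Polynomial.map_eq_zero_iff]
    · exact hP
    · exact Polynomial.map_injective _ Complex.ofReal_injective
  have hrelC : ∀ᶠ t in 𝓝 ((0:ℝ) : ℂ), evalEval (X t) (Y t) PC = 0 := by
    refine zero_of_real (f := fun t => evalEval (X t) (Y t) PC) ?_ ?_
    · have h1 := Pool.Agent.MP_ae5b4e_an_ND.analyticAt_evalEval PC (X ((0:ℝ) : ℂ), Y ((0:ℝ) : ℂ))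
      exact AnalyticAt.fun_comp (g := fun p : ℂ × ℂ => evalEval p.1 p.2 PC)
        (f := fun t : ℂ => (X t, Y t)) (x := ((0:ℝ) : ℂ)) h1 (hX.prod hY)
    · filter_upwards [hXr, hYr] with t h1 h2
      rw [h1, h2, hPC]
      have h3 := Polynomial.map_mapRingHom_evalEval Complex.ofRealHom P (γ.x t) (γ.y t)
      simp only [Complex.ofRealHom_eq_coe] at h3
      rw [h3, hrel t, Complex.ofReal_zero]
  obtain ⟨A, B, C, D, E, F, hne, hcon⟩ := loc_conic_met hgood hA0 hPC0 hrelC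
  have hcon' : ∀ᶠ t : ℝ in 𝓝 0, A * (γ.x t : ℂ) ^ 2 + B * γ.x t * γ.y t + C * (γ.y t : ℂ) ^ 2 +
      D * γ.x t + E * γ.y t + F = 0 := by
    have h1 : ∀ᶠ t : ℝ in 𝓝 0, A * X t ^ 2 + B * X t * Y t + C * Y t ^ 2 + D * X t + E * Y t +
        F = 0 := (Complex.continuous_ofReal.tendsto 0).eventually hcon
    filter_upwards [h1, hXr, hYr] with t h2 h3 h4
    rw [h3, h4] at h2
    exact h2
  obtain ⟨A', B', C', D', E', F', hne', hcon''⟩ := real_conic γ hx hy hne hcon'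
  obtain ⟨x₀, y₀, a, b, c, ha, hb, hγ, hon⟩ := ellipse_of_conic γ hne' hcon''
  exact ⟨EF x₀ y₀ a b c, EF_nondeg ha hb, trace_eq γ ha hb hγ hon,
    fun r hr => leaves_conics γ ha hb hγ hQ hF hr⟩

/-- The involutions of a quadratic form: if an algebraic convex curve has a foliation by closed
curves near the curve which induces on the tangent lines the involutions of a quadratic form, then
the curve is an ellipse and the leaves are conics of one pencil. -/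
theorem met (γ : ConvexCurve) (hx : ∀ t, AnalyticAt ℝ γ.x t) (hy : ∀ t, AnalyticAt ℝ γ.y t)
    {P : ℝ[X][X]} (hP : P ≠ 0) (hrel : ∀ t, evalEval (γ.x t) (γ.y t) P = 0)
    (Q : QuadraticForm ℝ (Fin 3 → ℝ)) (hQ : ∀ t, Q (γ.Γ t) ≠ 0)
    (U : ℝ → ℝ → ℝ)
    (hcont : ContinuousOn (fun p : ℝ × ℝ => U p.1 p.2) (Ioo 0 1 ×ˢ univ))
    (hper : ∀ c ∈ Ioo (0:ℝ) 1, ∀ t, U c (t + γ.T) = U c t)
    (hsimple : ∀ c ∈ Ioo (0:ℝ) 1, ∀ t t', γ.pt t (U c t) = γ.pt t' (U c t') →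
      ∃ n : ℤ, t' = t + n * γ.T)
    (hmono : ∀ c ∈ Ioo (0:ℝ) 1, ∀ c' ∈ Ioo (0:ℝ) 1, c < c' → ∀ t, U c' t < U c t)
    (hlim : ∀ t, Tendsto (fun c => U c t) (𝓝[>] 0) atTop)
    (hproj : ∀ c ∈ Ioo (0:ℝ) 1, ∀ t u v, u ≠ v → γ.pt t u ∈ γ.leaf U c →
      γ.pt t v ∈ γ.leaf U c → Q (γ.hvec t u) = Q (γ.hvec t v)) :
    ∃ E : QuadraticForm ℝ (Fin 3 → ℝ), E.Nondegenerate ∧ γ.trace = conic E ∧
      ∀ c ∈ Ioo (0:ℝ) 1, ∃ ρ : ℝ, (Q - ρ • E).Nondegenerate ∧ γ.leaf U c = conic (Q - ρ • E) := by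
  have hcQ : Continuous fun t => Q (γ.Γ t) := by
    have h1 : ∀ t, Q (γ.Γ t) = QR (coef Q) (γ.x t) (γ.y t) := by
      intro t
      rw [coef_apply, QR_eq]
      rfl
    simp only [h1]
    exact continuous_iff_continuousAt.2 fun t => (hd_QR (coef Q) γ t).continuousAt
  have hconst : (∀ t, 0 < Q (γ.Γ t)) ∨ ∀ t, Q (γ.Γ t) < 0 := by
    by_contra hcon
    push Not at hcon
    obtain ⟨⟨t, ht⟩, s, hs⟩ := hcon
    have h1 : (0:ℝ) ∈ (fun t => Q (γ.Γ t)) '' univ :=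
      isPreconnected_univ.intermediate_value (mem_univ t) (mem_univ s) hcQ.continuousOn ⟨ht, hs⟩
    obtain ⟨z, -, hz⟩ := h1
    exact hQ z hz
  rcases hconst with hpos | hneg
  · exact met_pos γ hx hy hP hrel Q hpos U hcont hper hsimple hmono hlim hproj
  · obtain ⟨E, hE1, hE2, hE3⟩ := met_pos γ hx hy hP hrel (-Q)
      (fun t => by rw [neg_apply]; linarith [hneg t]) U hcont hper hsimple
      hmono hlim (fun c hc t u v huv h1 h2 => by
        rw [neg_apply, neg_apply, hproj c hc t u v huv h1 h2])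
    refine ⟨E, hE1, hE2, fun c hc => ?_⟩
    obtain ⟨ρ, h1, h2⟩ := hE3 c hc
    refine ⟨-ρ, ?_, ?_⟩
    · have h3 : ∀ v, (Q - (-ρ) • E) v = -((-Q - ρ • E) v) := by
        intro v
        rw [sub_apply, sub_apply, neg_apply, smul_apply, smul_apply, smul_eq_mul, smul_eq_mul]
        ring
      have : Invertible (2:ℝ) := invertibleOfNonzero two_ne_zero
      rw [QuadraticMap.nondegenerate_iff_radical_eq_bot, eq_bot_iff]
      intro m hm
      rw [QuadraticMap.mem_radical_iff'] at hm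
      have h4 : m ∈ (-Q - ρ • E).radical := by
        rw [QuadraticMap.mem_radical_iff']
        refine ⟨?_, fun n => ?_⟩
        · have h5 := hm.1
          rw [h3] at h5
          linarith
        · have h5 := hm.2 n
          rw [h3, h3] at h5
          linarith
      rw [h1.radical_eq_bot] at h4
      exact h4
    · rw [h2]
      ext P
      change (-Q - ρ • E) P.rep = 0 ↔ (Q - (-ρ) • E) P.rep = 0
      rw [sub_apply, sub_apply, neg_apply, smul_apply, smul_apply, smul_eq_mul, smul_eq_mul]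
      constructor
      · intro h
        linarith
      · intro h
        linarith

end Pool.Agent.MP_ae5b4e_an_MET
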